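import Pool.Agent.Lib.MP_f23696_ag.Y.Defs

/-!
Project COX, module Dual: complementary minors.

* `dual_det`: `fromRows A R * fromCols V Gᵀ = fromBlocks (A V) (A Gᵀ) (R V) (R Gᵀ)` with
  `A Gᵀ = 0`; take determinants (`Matrix.det_fromBlocks_zero₁₂`).
* `det_sel`: `selM J * Gᵀ` has the entries `G j (J a)`; the determinant of the transpose.
* `det_inr`: `fromRows A (selM inr) = fromBlocks (A_I) (A_J) 0 1`.
* `det_rows`: `fromRows (C A) R = fromBlocks C 0 0 1 * fromRows A R`.
-/

set_option autoImplicit false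

namespace Pool.Agent.MLD.Cox

universe u v w

variable {R : Type u} [CommRing R] {ρ : Type v} [Fintype ρ] [DecidableEq ρ] {c : ℕ}

/-- the matrix with rows the unit vectors `e_(J a)` -/
def selM (R : Type u) [CommRing R] {ρ : Type v} [DecidableEq ρ] {c : ℕ} (J : Fin c → ρ ⊕ Fin c) :
    Matrix (Fin c) (ρ ⊕ Fin c) R :=
  Matrix.of fun a i => if i = J a then 1 else 0

theorem dual_det (A : Matrix ρ (ρ ⊕ Fin c) R) (G : Matrix (Fin c) (ρ ⊕ Fin c) R)
    (hAG : A * G.transpose = 0) (V : Matrix (ρ ⊕ Fin c) ρ R) (Q : Matrix (Fin c) (ρ ⊕ Fin c) R) :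
    (Matrix.fromRows A Q).det * (Matrix.fromCols V G.transpose).det =
      (A * V).det * (Q * G.transpose).det := by
  rw [← Matrix.det_mul, Matrix.fromRows_mul_fromCols, hAG, Matrix.det_fromBlocks_zero₁₂]

theorem det_sel (G : Matrix (Fin c) (ρ ⊕ Fin c) R) (J : Fin c → ρ ⊕ Fin c) :
    (selM R J * G.transpose).det = (Matrix.of fun j a => G j (J a)).det := by
  rw [← Matrix.det_transpose]
  congr 1
  ext j a
  simp [selM, Matrix.mul_apply]

theorem det_inr (A : Matrix ρ (ρ ⊕ Fin c) R) :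
    (Matrix.fromRows A (selM R Sum.inr)).det = (A.submatrix id Sum.inl).det := by
  have h : Matrix.fromRows A (selM R Sum.inr) =
      Matrix.fromBlocks (A.submatrix id Sum.inl) (A.submatrix id Sum.inr) 0 1 := by
    ext i j
    rcases i with i | i <;> rcases j with j | j
    · rfl
    · rfl
    · simp [selM]
    · simp [selM, Matrix.one_apply, eq_comm]
  rw [h, Matrix.det_fromBlocks_zero₂₁, Matrix.det_one, mul_one]

theorem det_rows (C : Matrix ρ ρ R) (A : Matrix ρ (ρ ⊕ Fin c) R)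
    (Q : Matrix (Fin c) (ρ ⊕ Fin c) R) :
    (Matrix.fromRows (C * A) Q).det = C.det * (Matrix.fromRows A Q).det := by
  have h : Matrix.fromRows (C * A) Q =
      Matrix.fromBlocks C 0 0 (1 : Matrix (Fin c) (Fin c) R) * Matrix.fromRows A Q := by
    rw [Matrix.fromBlocks_mul_fromRows]
    simp
  rw [h, Matrix.det_mul, Matrix.det_fromBlocks_zero₁₂, Matrix.det_one, mul_one]

end Pool.Agent.MLD.Cox
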