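import Pool.Agent.Lib.MP_f23696_ag.Y.Grad

/-!
Project COX, module GradQ: gradients of quotients of homogeneous polynomials.

Proof.  Write `P, Q` for the values at `x`, `P₀ = aeval ξ P`, `Q₀ = aeval ξ Q` (in `K`); by
`val_hom` `P = s^ψ₁ φ(P₀)`, `Q = s^ψ₂ φ(Q₀)`, so `Q₀ ≠ 0` and `b = P₀ / Q₀`,
`D j b = (D j P₀ * Q₀ - P₀ * D j Q₀) / Q₀^2`.  `gq` is the gradient of `P/Q`; by `grad_inl` for `P`
and `Q`, `∑_i derM (inl j) i * gq i = (s^ψ₁ φ(D j P₀) Q - P s^ψ₂ φ(D j Q₀)) / Q^2`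
`= s^(ψ₁ - ψ₂) φ(D j b)`.  With `grad_inr`: `(ψ₁ l P Q - ψ₂ l P Q) / Q^2 = (ψ₁ l - ψ₂ l) P / Q`.
-/

set_option autoImplicit false

namespace Pool.Agent.MLD.Cox

open MvPolynomial

universe u v w

variable {k : Type u} {K : Type v} {L : Type w} [Field k] [Field K] [Field L] [Algebra k K]
    [Algebra k L] {m h : ℕ} {σ : Type} [Fintype σ]

/-- the gradient of the quotient `P/Q` at `x` -/
noncomputable def gq (x : σ → L) (P Q : MvPolynomial σ k) (i : σ) : L :=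
  (aeval x (pderiv i P) * aeval x Q - aeval x P * aeval x (pderiv i Q)) / (aeval x Q) ^ 2

variable (φ : K →ₐ[k] L) (x : σ → L) (ξ : σ → K) (s : Fin h → L) (χ : σ → (Fin h → ℤ))

theorem gradQ_inl (hξ : ∀ i, ξ i ≠ 0) (hs : ∀ l, s l ≠ 0)
    (hx : ∀ i, x i = φ (ξ i) * ∏ l, s l ^ χ i l) (D : Fin (m + 1) → Derivation k K K)
    (P Q : MvPolynomial σ k) (ψ₁ ψ₂ : Fin h → ℤ) (hP : IsWeightedHomogeneous χ P ψ₁)
    (hQ : IsWeightedHomogeneous χ Q ψ₂) (hQ0 : aeval x Q ≠ 0) (b : K)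
    (hb : aeval x P / aeval x Q = (∏ l, s l ^ (ψ₁ l - ψ₂ l)) * φ b) (j : Fin (m + 1)) :
    ∑ i, derM φ D ξ χ x (Sum.inl j) i * gq x P Q i =
      (∏ l, s l ^ (ψ₁ l - ψ₂ l)) * φ (D j b) := by
  have hPv := val_hom φ x ξ s χ hs hx P ψ₁ hP
  have hQv := val_hom φ x ξ s χ hs hx Q ψ₂ hQ
  have hgP := grad_inl φ x ξ s χ hξ hs hx D P ψ₁ hP j
  have hgQ := grad_inl φ x ξ s χ hξ hs hx D Q ψ₂ hQ j
  have hsum : ∑ i, derM φ D ξ χ x (Sum.inl j) i * gq x P Q i =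
      ((∑ i, derM φ D ξ χ x (Sum.inl j) i * aeval x (pderiv i P)) * aeval x Q -
        aeval x P * ∑ i, derM φ D ξ χ x (Sum.inl j) i * aeval x (pderiv i Q)) /
        (aeval x Q) ^ 2 := by
    rw [Finset.sum_mul, Finset.mul_sum, ← Finset.sum_sub_distrib, Finset.sum_div]
    refine Finset.sum_congr rfl fun i _ => ?_
    rw [gq]
    ring
  rw [hsum, hgP, hgQ]
  have hS : (∏ l, s l ^ (ψ₁ l - ψ₂ l)) * ∏ l, s l ^ ψ₂ l = ∏ l, s l ^ ψ₁ l := by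
    rw [← Finset.prod_mul_distrib]
    refine Finset.prod_congr rfl fun l _ => ?_
    rw [← zpow_add₀ (hs l)]
    congr 1
    ring
  have hSQ : (∏ l, s l ^ ψ₂ l) ≠ 0 := Finset.prod_ne_zero_iff.2 fun l _ => zpow_ne_zero _ (hs l)
  have hSS : (∏ l, s l ^ (ψ₁ l - ψ₂ l)) ≠ 0 :=
    Finset.prod_ne_zero_iff.2 fun l _ => zpow_ne_zero _ (hs l)
  have hφQ : φ (aeval ξ Q) ≠ 0 := by
    intro h0
    apply hQ0
    rw [hQv, h0, mul_zero]
  have hPQ : φ (aeval ξ P) = φ b * φ (aeval ξ Q) := by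
    rw [hPv, hQv, ← hS] at hb
    rw [div_eq_iff (mul_ne_zero hSQ hφQ)] at hb
    have h1 : ((∏ l, s l ^ (ψ₁ l - ψ₂ l)) * ∏ l, s l ^ ψ₂ l) * φ (aeval ξ P) =
        ((∏ l, s l ^ (ψ₁ l - ψ₂ l)) * ∏ l, s l ^ ψ₂ l) * (φ b * φ (aeval ξ Q)) := by
      rw [hb]
      ring
    exact mul_left_cancel₀ (mul_ne_zero hSS hSQ) h1
  have hP0 : aeval ξ P = b * aeval ξ Q := by
    apply φ.toRingHom.injective
    change φ (aeval ξ P) = φ (b * aeval ξ Q)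
    rw [map_mul, hPQ]
  have hD : φ (D j (aeval ξ P)) =
      φ b * φ (D j (aeval ξ Q)) + φ (aeval ξ Q) * φ (D j b) := by
    rw [hP0, Derivation.leibniz, smul_eq_mul, smul_eq_mul, map_add, map_mul, map_mul]
  rw [hD, hPv, hQv, hPQ, ← hS]
  field_simp
  ring

theorem gradQ_inr (D : Fin (m + 1) → Derivation k K K)
    (P Q : MvPolynomial σ k) (ψ₁ ψ₂ : Fin h → ℤ) (hP : IsWeightedHomogeneous χ P ψ₁)
    (hQ : IsWeightedHomogeneous χ Q ψ₂) (hQ0 : aeval x Q ≠ 0) (l : Fin h) :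
    ∑ i, derM φ D ξ χ x (Sum.inr l) i * gq x P Q i =
      ((ψ₁ l - ψ₂ l : ℤ) : L) * (aeval x P / aeval x Q) := by
  have hgP := grad_inr φ x ξ χ D P ψ₁ hP l
  have hgQ := grad_inr φ x ξ χ D Q ψ₂ hQ l
  have hsum : ∑ i, derM φ D ξ χ x (Sum.inr l) i * gq x P Q i =
      ((∑ i, derM φ D ξ χ x (Sum.inr l) i * aeval x (pderiv i P)) * aeval x Q -
        aeval x P * ∑ i, derM φ D ξ χ x (Sum.inr l) i * aeval x (pderiv i Q)) /
        (aeval x Q) ^ 2 := by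
    rw [Finset.sum_mul, Finset.mul_sum, ← Finset.sum_sub_distrib, Finset.sum_div]
    refine Finset.sum_congr rfl fun i _ => ?_
    rw [gq]
    ring
  rw [hsum, hgP, hgQ, Int.cast_sub]
  field_simp

end Pool.Agent.MLD.Cox
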