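import Pool.Agent.Lib.MP_f23696_ag.Y.SysA
import Pool.Agent.Lib.MP_f23696_ag.Y.GradQ
import Pool.Agent.Lib.MP_f23696_ag.Y.Dual

/-!
Project COX, module Eta: the element `η` comparing the two volume forms.

`lam` is the minor of the logarithmic matrix with the first `m + 1 + h` columns,
`η = (∏_(i ∈ Ro) x_i) φ(lam) / jd(f)(x)`.

`ag`: for each equation `f j`: `P = f j` in `grad_inl`, `grad_inr`; `f_j(x) = 0` (`S.ker`), so
`aeval ξ (f j) = 0` by `val_hom` (`φ` injective) and both right sides vanish.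

`lam_ne`.  Proof: let `A = derM φ D ξ χ x`, `G j i = aeval x (pderiv i (f j))`, `A Gᵀ = 0` (`ag`).
Let `V` be the matrix with the columns `gq x P Q` of the quotients `φ (y j) = P/Q` (`S.deg0`) and
`s l = P/Q` (a Laurent monomial).  By `gradQ_inl`, `gradQ_inr` (with `b = y j`, degree `0`; resp.
`b = 1`, degree `e_l`, `D j 1 = 0`) `A V = fromBlocks 1 0 0 (diagonal s)`:
`(inl i, inl j)`: `φ (D i (y j)) = δ_ij`; `(inr l, inl j)`: degree `0`, so `0`; `(inl i, inr l)`: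
`φ (D i 1) = 0`; `(inr l', inr l)`: `δ_ll' s l`.  So `det (A V) = ∏ s l ≠ 0`.  By `dual_det` with
`Q = selM inr` and `det_sel`, `det_inr`:
`det (A_I) * det (fromCols V Gᵀ) = (∏ s l) * jd(f)(x) ≠ 0`, and
`det (A_I) = (∏_(i ∈ Ro) x_i) φ(lam)` (column scaling).  So `lam ≠ 0`.

`isHom_η`: `∏ x_i` has degree `∑_(i ∈ Ro) χ_i`, `φ(lam)` degree `0`, `jd(f)(x)` degree
`∑ ψ_j - ∑ χ_(inr a)` (`hom_det`).
-/

set_option autoImplicit false

namespace Pool.Agent.MLD.Cox.Sys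

open MvPolynomial

universe u v w

variable {k : Type u} {K : Type v} {L : Type w} [Field k] [Field K] [Field L] [Algebra k K]
    [Algebra k L] {m h c : ℕ} (S : Sys k K L m h c)

/-- the first minor of the logarithmic matrix -/
noncomputable def lam : K := ((logM S.D S.ξ S.χ).submatrix id Sum.inl).det

/-- the comparison of the volume forms -/
noncomputable def η : L := (∏ i : Ro m h, S.x (Sum.inl i)) * S.φ S.lam / aeval S.x (jd S.f)

private theorem Eta_fx (j : Fin c) : aeval S.x (S.f j) = 0 := by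
  have h1 : S.f j ∈ RingHom.ker (aeval S.x : MvPolynomial (Ix m h c) k →ₐ[k] L) := by
    rw [S.ker]
    exact Ideal.subset_span ⟨j, rfl⟩
  exact RingHom.mem_ker.mp h1

private theorem Eta_fξ (j : Fin c) : aeval S.ξ (S.f j) = 0 := by
  have h1 := val_hom S.φ S.x S.ξ S.s S.χ S.s_ne S.x_eq (S.f j) (S.ψ j) (S.hom j)
  rw [S.Eta_fx j] at h1
  rcases mul_eq_zero.mp h1.symm with h2 | h2
  · exact absurd h2 (S.sp_ne (S.ψ j))
  · exact (map_eq_zero S.φ).mp h2

theorem ag : derM S.φ S.D S.ξ S.χ S.x *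
    (Matrix.of fun j i => aeval S.x (pderiv i (S.f j))).transpose = 0 := by
  ext p j
  rw [Matrix.mul_apply, Matrix.zero_apply]
  change ∑ i, derM S.φ S.D S.ξ S.χ S.x p i * aeval S.x (pderiv i (S.f j)) = 0
  rcases p with p | l
  · rw [grad_inl S.φ S.x S.ξ S.s S.χ S.ξ_ne S.s_ne S.x_eq S.D (S.f j) (S.ψ j) (S.hom j) p,
      S.Eta_fξ j, map_zero, map_zero, mul_zero]
  · rw [grad_inr S.φ S.x S.ξ S.χ S.D (S.f j) (S.ψ j) (S.hom j) l, S.Eta_fx j, mul_zero]

private theorem Eta_sp (l : Fin h) : S.sp (Pi.single l 1) = S.s l := by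
  unfold sp
  rw [Finset.prod_eq_single l]
  · rw [Pi.single_eq_same, zpow_one]
  · intro l' _ hl'
    rw [Pi.single_eq_of_ne hl', zpow_zero]
  · intro hl
    exact absurd (Finset.mem_univ l) hl

private theorem Eta_det : ((derM S.φ S.D S.ξ S.χ S.x).submatrix id Sum.inl).det =
    (∏ i : Ro m h, S.x (Sum.inl i)) * S.φ S.lam := by
  have h1 : (derM S.φ S.D S.ξ S.χ S.x).submatrix id Sum.inl =
      Matrix.of fun p i => S.x (Sum.inl i) *
        (S.φ : K →+* L).mapMatrix ((logM S.D S.ξ S.χ).submatrix id Sum.inl) p i := by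
    ext p i
    change S.φ (logM S.D S.ξ S.χ p (Sum.inl i)) * S.x (Sum.inl i) =
      S.x (Sum.inl i) * S.φ (logM S.D S.ξ S.χ p (Sum.inl i))
    rw [mul_comm]
  rw [h1, Matrix.det_mul_row, ← RingHom.map_det]
  rfl

private theorem Eta_jd : (Matrix.of fun (j : Fin c) (a : Fin c) =>
    (Matrix.of fun j i => aeval S.x (pderiv i (S.f j)) : Matrix (Fin c) (Ix m h c) L) j
      (Sum.inr a)).det = aeval S.x (jd S.f) := by
  unfold jd
  rw [AlgHom.map_det]
  rfl

/-- the columns of quotients of homogeneous polynomials of degree `γ` with value `z` -/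
private theorem Eta_col {γ : Fin h → ℤ} {z : L} (hz : S.IsHom γ z) (b : K)
    (hb : z = S.sp γ * S.φ b) : ∃ g : Ix m h c → L,
      (∀ j, ∑ i, derM S.φ S.D S.ξ S.χ S.x (Sum.inl j) i * g i = S.sp γ * S.φ (S.D j b)) ∧
      ∀ l, ∑ i, derM S.φ S.D S.ξ S.χ S.x (Sum.inr l) i * g i = ((γ l : ℤ) : L) * z := by
  obtain ⟨β₁, β₂, P, Q, hP, hQ, hβ, hQ0, hzPQ⟩ := hz
  have h1 : ∀ l, β₁ l - β₂ l = γ l := fun l => congrFun hβ l
  refine ⟨gq S.x P Q, fun j => ?_, fun l => ?_⟩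
  · have h2 := gradQ_inl S.φ S.x S.ξ S.s S.χ S.ξ_ne S.s_ne S.x_eq S.D P Q β₁ β₂ hP hQ hQ0 b
      (by
        rw [← hzPQ, hb]
        simp only [h1]
        rfl) j
    rw [h2]
    simp only [h1]
    rfl
  · have h2 := gradQ_inr S.φ S.x S.ξ S.χ S.D P Q β₁ β₂ hP hQ hQ0 l
    rw [h2, h1, ← hzPQ]

theorem lam_ne : S.lam ≠ 0 := by
  -- the columns
  have hy : ∀ j, ∃ g : Ix m h c → L,
      (∀ i, ∑ q, derM S.φ S.D S.ξ S.χ S.x (Sum.inl i) q * g q = if i = j then 1 else 0) ∧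
      ∀ l, ∑ q, derM S.φ S.D S.ξ S.χ S.x (Sum.inr l) q * g q = 0 := by
    intro j
    obtain ⟨g, h1, h2⟩ := S.Eta_col (S.isHom_φ (S.y j)) (S.y j)
      (by rw [S.sp_zero, one_mul])
    refine ⟨g, fun i => ?_, fun l => ?_⟩
    · rw [h1, S.sp_zero, one_mul, S.hD]
      split_ifs
      · rw [map_one]
      · rw [map_zero]
    · rw [h2]
      simp
  have hs : ∀ l, ∃ g : Ix m h c → L,
      (∀ i, ∑ q, derM S.φ S.D S.ξ S.χ S.x (Sum.inl i) q * g q = 0) ∧
      ∀ l', ∑ q, derM S.φ S.D S.ξ S.χ S.x (Sum.inr l') q * g q =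
        if l' = l then S.s l else 0 := by
    intro l
    obtain ⟨g, h1, h2⟩ := S.Eta_col (S.isHom_sp (Pi.single l 1)) 1 (by rw [map_one, mul_one])
    refine ⟨g, fun i => ?_, fun l' => ?_⟩
    · rw [h1, Derivation.map_one_eq_zero, map_zero, mul_zero]
    · rw [h2, S.Eta_sp]
      by_cases hl : l' = l
      · subst hl
        rw [Pi.single_eq_same, if_pos rfl, Int.cast_one, one_mul]
      · rw [Pi.single_eq_of_ne hl, if_neg hl, Int.cast_zero, zero_mul]
  choose gy hy1 hy2 using hy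
  choose gs hs1 hs2 using hs
  let V : Matrix (Ix m h c) (Ro m h) L :=
    Matrix.of fun q p => Sum.elim (fun j => gy j q) (fun l => gs l q) p
  have hAV : derM S.φ S.D S.ξ S.χ S.x * V =
      Matrix.fromBlocks 1 0 0 (Matrix.diagonal S.s) := by
    ext p p'
    rw [Matrix.mul_apply]
    rcases p with i | l <;> rcases p' with i' | l'
    · change ∑ q, derM S.φ S.D S.ξ S.χ S.x (Sum.inl i) q * gy i' q = _
      rw [hy1, Matrix.fromBlocks_apply₁₁, Matrix.one_apply]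
    · change ∑ q, derM S.φ S.D S.ξ S.χ S.x (Sum.inl i) q * gs l' q = _
      rw [hs1]
      rfl
    · change ∑ q, derM S.φ S.D S.ξ S.χ S.x (Sum.inr l) q * gy i' q = _
      rw [hy2]
      rfl
    · change ∑ q, derM S.φ S.D S.ξ S.χ S.x (Sum.inr l) q * gs l' q = _
      rw [hs2, Matrix.fromBlocks_apply₂₂, Matrix.diagonal_apply]
      by_cases hl : l = l'
      · subst hl
        rfl
      · rw [if_neg hl, if_neg hl]
  have h1 := dual_det (derM S.φ S.D S.ξ S.χ S.x)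
    (Matrix.of fun j i => aeval S.x (pderiv i (S.f j))) S.ag V (selM L Sum.inr)
  rw [hAV, Matrix.det_fromBlocks_zero₁₂, Matrix.det_one, one_mul, Matrix.det_diagonal,
    det_sel, S.Eta_jd, det_inr, S.Eta_det] at h1
  intro h2
  rw [h2, map_zero, mul_zero, zero_mul] at h1
  exact mul_ne_zero (Finset.prod_ne_zero_iff.mpr fun l _ => S.s_ne l) S.jac h1.symm

theorem η_ne : S.η ≠ 0 := by
  unfold η
  exact div_ne_zero (mul_ne_zero (Finset.prod_ne_zero_iff.mpr fun i _ => S.x_ne _)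
    ((map_ne_zero S.φ).mpr S.lam_ne)) S.jac

theorem η_mul : S.η * aeval S.x (jd S.f) = (∏ i : Ro m h, S.x (Sum.inl i)) * S.φ S.lam := by
  unfold η
  exact div_mul_cancel₀ _ S.jac

theorem isHom_η : S.IsHom (∑ i, S.χ i - ∑ j, S.ψ j) S.η := by
  have h1 : S.IsHom (∑ i : Ro m h, S.χ (Sum.inl i)) (∏ i : Ro m h, S.x (Sum.inl i)) := by
    have h2 := S.isHom_poly (∏ i : Ro m h, X (Sum.inl i)) (∑ i : Ro m h, S.χ (Sum.inl i))
      (IsWeightedHomogeneous.prod (w := S.χ) Finset.univ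
        (fun i : Ro m h => (X (Sum.inl i) : MvPolynomial (Ix m h c) k))
        (fun i => S.χ (Sum.inl i)) fun i _ => isWeightedHomogeneous_X _ _ _)
    rw [map_prod] at h2
    simpa only [aeval_X] using h2
  have h2 := S.isHom_inv (S.isHom_poly (jd S.f) _ (hom_det S.χ S.f S.ψ S.hom))
  have h3 := S.isHom_mul (S.isHom_mul h1 (S.isHom_φ S.lam)) h2
  have h4 : (∑ i : Ro m h, S.χ (Sum.inl i)) + 0 + -(∑ j, S.ψ j - ∑ a, S.χ (Sum.inr a)) =
      ∑ i, S.χ i - ∑ j, S.ψ j := by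
    rw [Fintype.sum_sum_type (fun i : Ix m h c => S.χ i)]
    abel
  rw [h4] at h3
  unfold η
  rw [div_eq_mul_inv]
  exact h3

end Pool.Agent.MLD.Cox.Sys
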