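import Pool.Agent.Lib.MP_f23696_ag.Y.Defs

/-!
Project COX, module ExtL: derivations of a rational function field.

Proof.  Write `A = MvPolynomial τ F`, `F' = FractionRing A`.  (a) The derivation `d` of `F` extends
to `A` coefficientwise with `X t ↦ 0` (Leibniz rule for products of monomials); (b) for
`g : τ → F'` there is the `F`-derivation `A → F'` with `X t ↦ g t` (`MvPolynomial.mkDerivation`);
the sum of (a), composed with `A → F'`, and (b) is a `k`-derivation `δ : A → F'`; it extends to `F'`
by the quotient rule (Mathlib: derivations extend uniquely to localizations, e.g. via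
`KaehlerDifferential` and `Algebra.FormallyEtale.of_isLocalization` as in `dext`, Hahn.lean, or by
hand: `δ' (a / s) = (s δ a - a δ s) / s^2`).
-/

set_option autoImplicit false

namespace Pool.Agent.MLD.Cox

open MvPolynomial

universe u v w

private theorem extL_aux {k : Type u} {F : Type v} [Field k] [Field F] [Algebra k F]
    {τ : Type} {K : Type v} [Field K] [Algebra (MvPolynomial τ F) K]
    [IsFractionRing (MvPolynomial τ F) K] [Algebra k K]
    (hk : ∀ c : k, algebraMap k K c = algebraMap (MvPolynomial τ F) K (C (algebraMap k F c)))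
    (d : Derivation k F F) (g : τ → K) :
    ∃ d' : Derivation k K K,
      (∀ a : F, d' (algebraMap (MvPolynomial τ F) K (C a)) =
        algebraMap (MvPolynomial τ F) K (C (d a))) ∧
      ∀ t, d' (algebraMap (MvPolynomial τ F) K (X t)) = g t := by
  obtain ⟨ι, hι⟩ : ∃ ι : F →+* K, ∀ a, ι a = algebraMap (MvPolynomial τ F) K (C a) :=
    ⟨(algebraMap (MvPolynomial τ F) K).comp C, fun a => rfl⟩
  obtain ⟨φ, hφ⟩ : ∃ φ : F →+* TrivSqZeroExt K K, ∀ a, φ a =
        TrivSqZeroExt.inl (ι a) + TrivSqZeroExt.inr (ι (d a)) := by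
    refine ⟨
      { toFun := fun a => TrivSqZeroExt.inl (ι a) + TrivSqZeroExt.inr (ι (d a))
        map_one' := ?_
        map_mul' := ?_
        map_zero' := ?_
        map_add' := ?_ }, fun a => rfl⟩
    · ext <;> simp
    · intro a b
      ext
      · simp
      · simp [mul_comm]
    · ext <;> simp
    · intro a b
      ext <;> simp
  obtain ⟨δ, hδC, hδX⟩ : ∃ δ : MvPolynomial τ F →+* TrivSqZeroExt K K,
      (∀ a, δ (C a) = φ a) ∧ ∀ t, δ (X t) =
        TrivSqZeroExt.inl (algebraMap (MvPolynomial τ F) K (X t)) + TrivSqZeroExt.inr (g t) :=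
    ⟨eval₂Hom φ fun t =>
      TrivSqZeroExt.inl (algebraMap (MvPolynomial τ F) K (X t)) + TrivSqZeroExt.inr (g t),
      fun a => eval₂Hom_C _ _ _, fun t => eval₂Hom_X' _ _ _⟩
  have hfst : ∀ q : MvPolynomial τ F, (δ q).fst = algebraMap _ K q := by
    intro q
    have h1 : ((TrivSqZeroExt.fstHom K K K).toRingHom.comp δ) =
        algebraMap (MvPolynomial τ F) K := by
      refine ringHom_ext (fun a => ?_) fun t => ?_
      · show (δ (C a)).fst = _
        rw [hδC, hφ]
        simp [hι]
      · show (δ (X t)).fst = _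
        rw [hδX]
        simp
    exact DFunLike.congr_fun h1 q
  have hunit : ∀ y : nonZeroDivisors (MvPolynomial τ F), IsUnit (δ y) := by
    intro y
    rw [TrivSqZeroExt.isUnit_iff_isUnit_fst, hfst]
    exact IsLocalization.map_units K y
  obtain ⟨ψ, hψ⟩ : ∃ ψ : K →+* TrivSqZeroExt K K,
      ∀ q : MvPolynomial τ F, ψ (algebraMap _ K q) = δ q :=
    ⟨IsLocalization.lift hunit, fun q => IsLocalization.lift_eq hunit q⟩
  have hψf : ∀ x, (ψ x).fst = x := by
    intro x
    have h1 : ((TrivSqZeroExt.fstHom K K K).toRingHom.comp ψ) = RingHom.id K := by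
      refine IsLocalization.ringHom_ext (nonZeroDivisors (MvPolynomial τ F)) ?_
      refine RingHom.ext fun q => ?_
      show (ψ (algebraMap _ K q)).fst = algebraMap _ K q
      rw [hψ, hfst]
    exact DFunLike.congr_fun h1 x
  have hψF : ∀ a : F, ψ (ι a) = φ a := by
    intro a
    rw [hι, hψ, hδC]
  have hψk : ∀ c : k, (ψ (algebraMap k K c)).snd = 0 := by
    intro c
    rw [hk, ← hι, hψF, hφ]
    simp
  refine ⟨Derivation.mk'
    { toFun := fun x => (ψ x).snd
      map_add' := ?_
      map_smul' := ?_ } ?_, ?_, ?_⟩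
  · intro x y
    rw [map_add, TrivSqZeroExt.snd_add]
  · intro c x
    rw [Algebra.smul_def, map_mul, TrivSqZeroExt.snd_mul, hψk, hψf]
    simp [Algebra.smul_def]
  · intro x y
    show (ψ (x * y)).snd = x • (ψ y).snd + y • (ψ x).snd
    rw [map_mul, TrivSqZeroExt.snd_mul, hψf, hψf]
    simp [mul_comm]
  · intro a
    show (ψ (algebraMap _ K (C a))).snd = _
    rw [← hι, hψF, hφ, ← hι]
    simp
  · intro t
    show (ψ (algebraMap _ K (X t))).snd = _
    rw [hψ, hδX]
    simp

theorem extL {k : Type u} {F : Type v} [Field k] [Field F] [Algebra k F] {τ : Type}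
    (d : Derivation k F F) (g : τ → FractionRing (MvPolynomial τ F)) :
    ∃ d' : Derivation k (FractionRing (MvPolynomial τ F)) (FractionRing (MvPolynomial τ F)),
      (∀ a : F, d' (algebraMap F _ a) = algebraMap F _ (d a)) ∧
      ∀ t, d' (algebraMap (MvPolynomial τ F) _ (X t)) = g t := by
  have hk : ∀ c : k, algebraMap k (FractionRing (MvPolynomial τ F)) c =
      algebraMap (MvPolynomial τ F) (FractionRing (MvPolynomial τ F))
        (C (algebraMap k F c)) := fun c => rfl
  exact extL_aux hk d g

end Pool.Agent.MLD.Cox
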