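import Pool.Agent.Lib.MP_f23696_ag.Y.TwA
import Pool.Agent.Lib.MP_f23696_ag.Hahn
import Pool.Agent.Lib.MP_f23696_ag.DerInst

/-!
Project COX, module Ld: Laurent series, derivations acting on the coefficients, orders.

`lder d f` has the coefficients `d (f.coeff n)`.  `hcoef_exists` (Hahn.lean) gives the Leibniz rule
for the instance `HahnSeries.instAlgebra`; `der_laurent` (DerInst.lean) converts it to the instances
found by Lean for `HahnSeries ℤ κ` (`hder`).
`Ge z f`: the coefficients of `f` below `z` vanish; rules: sums, products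
(`HahnSeries.coeff_mul`, or via `order`), determinants (expansion `Matrix.det_apply`), and for
`f ≠ 0`: `Ge z f ↔ z ≤ f.order` (`HahnSeries.coeff_eq_zero_of_lt_order`,
`HahnSeries.coeff_order_ne_zero`).
`ge_logder`: if `s ≠ 0` then `lder d s / s` is integral: `s = tz z * u` with `u` of order `0`, i.e.
`lder d s` has order at least `s.order`.
-/

set_option autoImplicit false

namespace Pool.Agent.MLD.Cox

open scoped PowerSeries

universe u v w

variable {k : Type u} {κ : Type v} [Field k] [Field κ] [Algebra k κ]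

/-- a derivation acting on the coefficients of a Laurent series -/
noncomputable def lder (d : Derivation k κ κ) (f : HahnSeries ℤ κ) : HahnSeries ℤ κ :=
  HahnSeries.map f (d : κ →ₗ[k] κ)

private theorem Ld_toL_coeff (f : κ⟦X⟧) (i : ℤ) :
    (toL f).coeff i = if i < 0 then 0 else PowerSeries.coeff i.natAbs f :=
  PowerSeries.coeff_coe f i

private theorem Ld_toL_coeff_nat (f : κ⟦X⟧) (n : ℕ) :
    (toL f).coeff (n : ℤ) = PowerSeries.coeff n f := by
  rw [Ld_toL_coeff, if_neg (by omega), Int.natAbs_natCast]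

private theorem Ld_coeff_ne {f : HahnSeries ℤ κ} (hf : f ≠ 0) : f.coeff f.order ≠ 0 :=
  fun h => hf (HahnSeries.coeff_order_eq_zero.1 h)

theorem lder_coeff (d : Derivation k κ κ) (f : HahnSeries ℤ κ) (n : ℤ) :
    (lder d f).coeff n = d (f.coeff n) := by
  rfl

private theorem Ld_mul (d : Derivation k κ κ) (f g : HahnSeries ℤ κ) :
    lder d (f * g) = f * lder d g + g * lder d f := by
  obtain ⟨E, hE⟩ := hcoef_exists (Γ := ℤ) d
  have h1 : ∀ f, lder d f = E f := by
    intro f
    ext n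
    rw [hE, lder_coeff]
  rw [h1, h1, h1]
  have := @Derivation.leibniz k (HahnSeries ℤ κ) (HahnSeries ℤ κ) _ _ _
      HahnSeries.instAlgebra _ HahnSeries.instModule E f g
  simpa only [smul_eq_mul] using this

theorem hder (d : Derivation k κ κ) :
    ∃ E : Derivation k (HahnSeries ℤ κ) (HahnSeries ℤ κ), ∀ f, E f = lder d f := by
  have hadd : ∀ f g : HahnSeries ℤ κ, lder d (f + g) = lder d f + lder d g := by
    intro f g
    ext n
    rw [HahnSeries.coeff_add, lder_coeff, lder_coeff, lder_coeff, HahnSeries.coeff_add, map_add]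
  have hsm : ∀ (c : k) (f : HahnSeries ℤ κ),
      lder d (algebraMap k (LaurentSeries κ) c * f) = c • lder d f := by
    intro c f
    rw [algebraMap_laurent', HahnSeries.C_mul_eq_smul]
    ext n
    rw [HahnSeries.coeff_smul, lder_coeff, lder_coeff, HahnSeries.coeff_smul, algebraMap_smul,
      Derivation.map_smul]
  refine ⟨{ toLinearMap := @LinearMap.mk _ _ _ _ _ _ _ _ _ Algebra.toModule
              HahnSeries.instModule ⟨lder d, hadd⟩ ?_
            map_one_eq_zero' := ?_
            leibniz' := ?_ }, fun f => rfl⟩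
  · intro c f
    rw [RingHom.id_apply]
    have h1 := hsm c f
    rw [← Algebra.smul_def] at h1
    exact h1
  · change lder d 1 = 0
    have h1 := Ld_mul d 1 1
    rw [one_mul, one_mul] at h1
    exact (left_eq_add.1 h1)
  · intro f g
    exact Ld_mul d f g

theorem lder_mul (d : Derivation k κ κ) (f g : HahnSeries ℤ κ) :
    lder d (f * g) = f * lder d g + g * lder d f := by
  exact Ld_mul d f g

theorem lder_tz_mul (d : Derivation k κ κ) (z : ℤ) (f : HahnSeries ℤ κ) :
    lder d (tz κ z * f) = tz κ z * lder d f := by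
  have h0 : lder d (tz κ z) = 0 := by
    ext n
    rw [lder_coeff, HahnSeries.coeff_zero]
    unfold tz
    rw [HahnSeries.coeff_single]
    split_ifs
    · exact Derivation.map_one_eq_zero d
    · exact map_zero d
  rw [lder_mul, h0, mul_zero, add_zero]

theorem lder_toL (d : Derivation k κ κ) (f : κ⟦X⟧) : lder d (toL f) = toL (cder d f) := by
  ext n
  rw [lder_coeff, Ld_toL_coeff, Ld_toL_coeff]
  split_ifs
  · exact map_zero d
  · unfold cder
    rw [PowerSeries.coeff_mk]

theorem tz_mul (z z' : ℤ) : tz κ z * tz κ z' = tz κ (z + z') := by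
  unfold tz
  rw [HahnSeries.single_mul_single, mul_one]

theorem tz_ne (z : ℤ) : tz κ z ≠ 0 := by
  exact HahnSeries.single_ne_zero one_ne_zero

theorem order_tz_mul (z : ℤ) (f : HahnSeries ℤ κ) (hf : f ≠ 0) :
    (tz κ z * f).order = z + f.order := by
  rw [HahnSeries.order_mul (tz_ne z) hf]
  congr 1
  exact HahnSeries.order_single one_ne_zero

theorem order_mul' (f g : HahnSeries ℤ κ) (hf : f ≠ 0) (hg : g ≠ 0) :
    (f * g).order = f.order + g.order := by
  exact HahnSeries.order_mul hf hg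

theorem toL_injective : Function.Injective (toL : κ⟦X⟧ → HahnSeries ℤ κ) := by
  exact HahnSeries.ofPowerSeries_injective

/-- the order of a power series -/
theorem order_toL (f : κ⟦X⟧) (n : ℕ) (h : ∀ i < n, PowerSeries.coeff i f = 0)
    (hn : PowerSeries.coeff n f ≠ 0) : toL f ≠ 0 ∧ (toL f).order = n := by
  have h1 : (toL f).coeff (n : ℤ) ≠ 0 := by
    rw [Ld_toL_coeff_nat]
    exact hn
  have h0 : toL f ≠ 0 := HahnSeries.ne_zero_of_coeff_ne_zero h1
  refine ⟨h0, le_antisymm (HahnSeries.order_le_of_coeff_ne_zero h1) ?_⟩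
  by_contra hlt
  rw [not_le] at hlt
  apply Ld_coeff_ne h0
  rw [Ld_toL_coeff]
  split_ifs with h2
  · rfl
  · apply h
    omega

theorem order_toL_le (f : κ⟦X⟧) (n : ℕ) (hn : PowerSeries.coeff n f ≠ 0) :
    toL f ≠ 0 ∧ 0 ≤ (toL f).order ∧ (toL f).order ≤ n := by
  have h1 : (toL f).coeff (n : ℤ) ≠ 0 := by
    rw [Ld_toL_coeff_nat]
    exact hn
  have h0 : toL f ≠ 0 := HahnSeries.ne_zero_of_coeff_ne_zero h1
  refine ⟨h0, ?_, HahnSeries.order_le_of_coeff_ne_zero h1⟩
  by_contra hlt
  rw [not_le] at hlt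
  apply Ld_coeff_ne h0
  rw [Ld_toL_coeff, if_pos hlt]

theorem toL_det {ρ : Type w} [Fintype ρ] [DecidableEq ρ] (A : Matrix ρ ρ κ⟦X⟧) :
    toL A.det = Matrix.det (Matrix.of fun i j => toL (A i j)) := by
  exact RingHom.map_det (HahnSeries.ofPowerSeries ℤ κ) A

/-- the coefficients of `f` below `z` vanish -/
def Ge (z : ℤ) (f : HahnSeries ℤ κ) : Prop := ∀ n < z, f.coeff n = 0

theorem ge_iff (z : ℤ) (f : HahnSeries ℤ κ) (hf : f ≠ 0) : Ge z f ↔ z ≤ f.order := by
  constructor
  · intro h
    by_contra hlt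
    rw [not_le] at hlt
    exact Ld_coeff_ne hf (h _ hlt)
  · intro h n hn
    exact HahnSeries.coeff_eq_zero_of_lt_order (lt_of_lt_of_le hn h)

theorem Ge.add {z : ℤ} {f g : HahnSeries ℤ κ} (hf : Ge z f) (hg : Ge z g) : Ge z (f + g) := by
  intro n hn
  rw [HahnSeries.coeff_add, hf n hn, hg n hn, add_zero]

theorem Ge.mul {z z' : ℤ} {f g : HahnSeries ℤ κ} (hf : Ge z f) (hg : Ge z' g) :
    Ge (z + z') (f * g) := by
  intro n hn
  rw [HahnSeries.coeff_mul]
  apply Finset.sum_eq_zero
  intro ij hij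
  have h1 : ij.1 + ij.2 = n := (Finset.mem_antidiagonal.mp hij).2.2
  rcases lt_or_ge ij.1 z with h | h
  · rw [hf _ h, zero_mul]
  · rw [hg ij.2 (by omega), mul_zero]

theorem Ge.lder {z : ℤ} {f : HahnSeries ℤ κ} (hf : Ge z f) (d : Derivation k κ κ) :
    Ge z (lder d f) := by
  intro n hn
  rw [lder_coeff, hf n hn, map_zero]

theorem ge_toL (f : κ⟦X⟧) (n : ℕ) : Ge (n : ℤ) (toL f) ↔ (PowerSeries.X : κ⟦X⟧) ^ n ∣ f := by
  rw [PowerSeries.X_pow_dvd_iff]
  constructor
  · intro h m hm
    rw [← Ld_toL_coeff_nat]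
    exact h m (by omega)
  · intro h m hm
    rw [Ld_toL_coeff]
    split_ifs with h2
    · rfl
    · apply h
      omega

private theorem Ld_ge_sum {ι : Type*} {z : ℤ} (s : Finset ι) (f : ι → HahnSeries ℤ κ)
    (h : ∀ i ∈ s, Ge z (f i)) : Ge z (∑ i ∈ s, f i) := by
  classical
  induction s using Finset.induction_on with
  | empty =>
    intro n _
    rw [Finset.sum_empty, HahnSeries.coeff_zero]
  | insert i s hi ih =>
    rw [Finset.sum_insert hi]
    exact (h i (Finset.mem_insert_self i s)).add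
      (ih fun j hj => h j (Finset.mem_insert_of_mem hj))

private theorem Ld_ge_prod {ι : Type*} (s : Finset ι) (f : ι → HahnSeries ℤ κ)
    (h : ∀ i ∈ s, Ge 0 (f i)) : Ge 0 (∏ i ∈ s, f i) := by
  classical
  induction s using Finset.induction_on with
  | empty =>
    intro n hn
    rw [Finset.prod_empty, HahnSeries.coeff_one, if_neg (by omega)]
  | insert i s hi ih =>
    rw [Finset.prod_insert hi]
    have h1 := (h i (Finset.mem_insert_self i s)).mul
      (ih fun j hj => h j (Finset.mem_insert_of_mem hj))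
    rwa [add_zero] at h1

private theorem Ld_ge_sgn {z : ℤ} {f : HahnSeries ℤ κ} (u : ℤˣ) (h : Ge z f) :
    Ge z (u • f) := by
  rcases Int.units_eq_one_or u with rfl | rfl
  · rwa [one_smul]
  · intro n hn
    rw [Units.neg_smul, one_smul, HahnSeries.coeff_neg, h n hn, neg_zero]

/-- determinants with integral entries and one column divisible by `t^z` -/
theorem ge_det {ρ : Type w} [Fintype ρ] [DecidableEq ρ] (A : Matrix ρ ρ (HahnSeries ℤ κ))
    (hA : ∀ i j, Ge 0 (A i j)) (z : ℤ) (hz : 0 ≤ z) (j₀ : ρ) (h : ∀ i, Ge z (A i j₀)) :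
    Ge z A.det := by
  rw [Matrix.det_apply]
  refine Ld_ge_sum _ _ fun p _ => Ld_ge_sgn _ ?_
  rw [← Finset.mul_prod_erase Finset.univ _ (Finset.mem_univ j₀)]
  have h1 := (h (p j₀)).mul (Ld_ge_prod (Finset.univ.erase j₀) (fun i => A (p i) i)
    fun i _ => hA _ _)
  rwa [add_zero] at h1

theorem ge_det0 {ρ : Type w} [Fintype ρ] [DecidableEq ρ] (A : Matrix ρ ρ (HahnSeries ℤ κ))
    (hA : ∀ i j, Ge 0 (A i j)) : Ge 0 A.det := by
  rw [Matrix.det_apply]
  refine Ld_ge_sum _ _ fun p _ => Ld_ge_sgn _ ?_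
  exact Ld_ge_prod _ _ fun i _ => hA _ _

theorem ge_logder (d : Derivation k κ κ) (s C : HahnSeries ℤ κ) (hs : s ≠ 0)
    (hC : C * s = lder d s) : Ge 0 C := by
  have hG : Ge s.order (lder d s) := Ge.lder ((ge_iff _ _ hs).2 le_rfl) d
  rcases eq_or_ne C 0 with rfl | hC0
  · intro n _
    exact HahnSeries.coeff_zero
  · have h1 : lder d s ≠ 0 := by
      rw [← hC]
      exact mul_ne_zero hC0 hs
    have h2 := (ge_iff _ _ h1).1 hG
    rw [← hC, HahnSeries.order_mul hC0 hs] at h2
    exact (ge_iff _ _ hC0).2 (by omega)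

end Pool.Agent.MLD.Cox
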