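import Pool.Agent.Lib.MP_f23696_ag.Y.Gam
import Pool.Agent.Lib.MP_f23696_ag.Y.Ld
import Pool.Agent.Lib.MP_f23696_ag.T.LogB

/-!
Project COX, module GamK: universal arcs of a divisorial valuation.

Proof.  Apply `gam` to `O = ring v`, `I = maxI v` (T/Val.lean), the restrictions of the derivations
`E i` to `O` (`hb.integral`), `π = b 0`.
* `hcomm`: the commutator `c ↦ E i (E j c) - E j (E i c)` is a derivation of `K/k` which kills all
  `b l`; `b` is a transcendence basis of `K/k` (`LogB.indep_cons` gives the independence, the number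
  `m + 1` is the transcendence degree; see the proof of `jac_ne`), so it is zero by `der_zero`.
* `hI`: `c ∈ maxI v`, `c = b 0 * c'`, `c'` integral, `E i c = b 0 * E i c'` for `i ≠ 0` (or
  `IsLogBasis.le_succ`).
* `hEπ`: `hb.dual`.
Every `a : K`, `a ≠ 0`, is `b 0 ^ v.ord a * u`, `v.ord u = 0` (`LogB.split`); for `a ∈ O`,
`Γ a = (X^r w)^(v.ord a) * Γ u` with `constantCoeff w ≠ 0`, `constantCoeff (Γ u) ≠ 0`, so `Γ a` has
order exactly `r * v.ord a`, in particular `Γ a ≠ 0`.  So `toL ∘ Γ : O → HahnSeries ℤ F` is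
injective and extends to the fraction field `K` of `O` (every element of `K` is in `O` or its
inverse is); call the extension `Γ` again.  Orders: multiplicativity (`order_mul'`).
The last formula: both sides `lder (d i j) (Γ a)` and `tz .. * Γ (E i a)` are derivations
`K → HahnSeries ℤ F` along `Γ` which agree on `O` (`lder_toL`), hence on `K = Frac O`
(quotient rule).
-/

set_option autoImplicit false

namespace Pool.Agent.MLD.Cox

open Pool.Agent.MLD.Ten

open scoped PowerSeries

universe u v w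

/-- restriction of a derivation which preserves the valuation ring -/
private noncomputable def GamKres {k : Type u} {K : Type v} [Field k] [Field K] [Algebra k K]
    (v : DVal k K) (E : Derivation k K K) (h : ∀ c, v.Integral c → v.Integral (E c)) :
    Derivation k (ring v) (ring v) :=
  Derivation.mk'
    { toFun := fun a => ⟨E (a : K), h _ a.2⟩
      map_add' := fun a b => Subtype.ext (by simp)
      map_smul' := fun c a => Subtype.ext (by simp) }
    (fun a b => Subtype.ext (by simp))

private theorem GamKres_coe {k : Type u} {K : Type v} [Field k] [Field K] [Algebra k K]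
    (v : DVal k K) (E : Derivation k K K) (h : ∀ c, v.Integral c → v.Integral (E c))
    (a : ring v) : ((GamKres v E h a : ring v) : K) = E (a : K) := rfl

private theorem GamKbt {k : Type u} {K : Type v} [Field k] [CharZero k] [Field K] [Algebra k K]
    (v : DVal k K) {m : ℕ} (y : Fin (m + 1) → K) (hy : IsTranscendenceBasis k y)
    (D : Fin (m + 1) → Derivation k K K) (j : ℤ) (b : Fin (m + 1) → K)
    (E : Fin (m + 1) → Derivation k K K) (hb : IsLogBasis v D j b E) :
    IsTranscendenceBasis k b := by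
  have h1 : AlgebraicIndependent k (Fin.cons (b 0) (fun i : Fin m => b i.succ) :
      Fin (m + 1) → K) := by
    refine indep_cons v (b 0) (hb.ne_zero 0) (by rw [hb.ord_zero]; norm_num) _ ?_ hb.indep
    intro i _
    rw [hb.ord_succ]
  have h2 : (Fin.cons (b 0) (fun i : Fin m => b i.succ) : Fin (m + 1) → K) = b :=
    Fin.cons_self_tail b
  rw [h2] at h1
  refine h1.isTranscendenceBasis_of_lift_trdeg_le_of_finite ?_
  rw [← hy.lift_cardinalMk_eq_trdeg]

private theorem GamKcomm {k : Type u} {K : Type v} [Field k] [CharZero k] [Field K]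
    [Algebra k K] {n : ℕ} (b : Fin n → K) (hbt : IsTranscendenceBasis k b)
    (E : Fin n → Derivation k K K) (hE : ∀ i l, E i (b l) = if i = l then 1 else 0)
    (i j : Fin n) (a : K) : E i (E j a) = E j (E i a) := by
  have h0 : (⁅E i, E j⁆ : Derivation k K K) = 0 := by
    refine der_zero b hbt _ fun l => ?_
    rw [Derivation.commutator_apply, hE, hE]
    split_ifs <;> simp
  have h1 : (⁅E i, E j⁆ : Derivation k K K) a = 0 := by rw [h0]; rfl
  rw [Derivation.commutator_apply] at h1
  exact sub_eq_zero.1 h1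

/-- the order of the image of an element of the valuation ring -/
private theorem GamKord {k : Type u} {K : Type v} [Field k] [CharZero k] [Field K]
    [Algebra k K] (v : DVal k K) {m : ℕ} (D : Fin (m + 1) → Derivation k K K) (j : ℤ)
    (b : Fin (m + 1) → K) (E : Fin (m + 1) → Derivation k K K) (hb : IsLogBasis v D j b E)
    (r : ℕ) {F : Type w} [Field F] [Algebra k F] (Γ : ring v →ₐ[k] F⟦X⟧)
    (h1 : ∀ a, PowerSeries.constantCoeff (Γ a) = 0 ↔ a ∈ maxI v)
    (π : ring v) (hπ : (π : K) = b 0)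
    (h2 : ∃ u, Γ π = (PowerSeries.X : F⟦X⟧) ^ r * u ∧ PowerSeries.constantCoeff u ≠ 0)
    (a : ring v) (ha : (a : K) ≠ 0) :
    toL (Γ a) ≠ 0 ∧ (toL (Γ a)).order = r * v.ord (a : K) := by
  obtain ⟨c, hc0, hco, hcc⟩ := LogB.split hb (a : K) ha
  have hn : 0 ≤ v.ord (a : K) := a.2 ha
  obtain ⟨n, hn'⟩ := Int.eq_ofNat_of_zero_le hn
  have hcI : v.Integral c := fun _ => by rw [hco]
  have hac : a = π ^ n * (⟨c, hcI⟩ : ring v) := by
    apply Subtype.ext
    change (a : K) = (π : K) ^ n * c
    rw [hπ]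
    conv_lhs => rw [hcc, hn']
    rw [zpow_natCast]
  have hu : toL (Γ (⟨c, hcI⟩ : ring v)) ≠ 0 ∧ (toL (Γ (⟨c, hcI⟩ : ring v))).order = 0 := by
    have h3 : PowerSeries.constantCoeff (Γ (⟨c, hcI⟩ : ring v)) ≠ 0 := by
      intro h4
      have h5 := (h1 _).1 h4
      exact not_small_of v hc0 hco ((mem_maxI v).1 h5)
    have h6 := order_toL (Γ (⟨c, hcI⟩ : ring v)) 0 (fun i hi => absurd hi (Nat.not_lt_zero i))
      (by rwa [PowerSeries.coeff_zero_eq_constantCoeff_apply])
    exact ⟨h6.1, by rw [h6.2]; rfl⟩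
  have hp : toL (Γ π) ≠ 0 ∧ (toL (Γ π)).order = r := by
    obtain ⟨u, hu1, hu2⟩ := h2
    refine order_toL (Γ π) r (fun i hi => ?_) ?_
    · rw [hu1, PowerSeries.coeff_X_pow_mul', if_neg (by omega)]
    · rw [hu1, PowerSeries.coeff_X_pow_mul', if_pos le_rfl, Nat.sub_self,
        PowerSeries.coeff_zero_eq_constantCoeff_apply]
      exact hu2
  have hpn : ∀ n : ℕ, toL (Γ π) ^ n ≠ 0 ∧ (toL (Γ π) ^ n).order = n * r := by
    intro n
    induction n with
    | zero => simp
    | succ n ih =>
      refine ⟨pow_ne_zero _ hp.1, ?_⟩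
      rw [pow_succ, order_mul' _ _ ih.1 hp.1, ih.2, hp.2]
      push_cast
      ring
  have hT : toL (Γ a) = toL (Γ π) ^ n * toL (Γ (⟨c, hcI⟩ : ring v)) := by
    rw [hac, map_mul, map_pow]
    unfold toL
    rw [map_mul, map_pow]
  rw [hT]
  refine ⟨mul_ne_zero (hpn n).1 hu.1, ?_⟩
  rw [order_mul' _ _ (hpn n).1 hu.1, (hpn n).2, hu.2, hn']
  ring

private theorem GamKfrac {k : Type u} {K : Type v} [Field k] [Field K] [Algebra k K]
    (v : DVal k K) : IsFractionRing (ring v) K := by
  refine IsFractionRing.of_field (ring v) K fun z => ?_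
  by_cases hz : v.Integral z
  · exact ⟨⟨z, hz⟩, 1, by rw [map_one, div_one]; rfl⟩
  · have h0 : z ≠ 0 ∧ v.ord z < 0 := by
      unfold DVal.Integral at hz
      push Not at hz
      exact hz
    have hi : v.Integral z⁻¹ := by
      intro _
      rw [Jac.ord_inv v _ h0.1]
      omega
    refine ⟨1, ⟨z⁻¹, hi⟩, ?_⟩
    change z = (1 : K) / z⁻¹
    rw [one_div, inv_inv]

theorem gamK {k : Type u} {K : Type v} [Field k] [CharZero k] [Field K] [Algebra k K]
    (v : DVal k K) {m : ℕ} (y : Fin (m + 1) → K) (hy : IsTranscendenceBasis k y)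
    (D : Fin (m + 1) → Derivation k K K) (hD : ∀ i j, D i (y j) = if i = j then 1 else 0)
    (j : ℤ) (b : Fin (m + 1) → K) (E : Fin (m + 1) → Derivation k K K)
    (hb : IsLogBasis v D j b E) (r : ℕ) (hr : 1 ≤ r) :
    ∃ (F : Type v) (_ : Field F) (_ : Algebra k F) (Γ : K →ₐ[k] HahnSeries ℤ F)
      (d : Fin (m + 1) → ℕ → Derivation k F F),
      (∀ a : K, a ≠ 0 → Γ a ≠ 0 ∧ (Γ a).order = r * v.ord a) ∧
      ∀ i j a, lder (d i j) (Γ a) = tz F ((j : ℤ) + if i = 0 then (r : ℤ) else 0) * Γ (E i a) := by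
  have hπint : v.Integral (b 0) := fun _ => by rw [hb.ord_zero]; norm_num
  have hcomm : ∀ i l (a : ring v), GamKres v (E i) (hb.integral i)
      (GamKres v (E l) (hb.integral l) a) = GamKres v (E l) (hb.integral l)
      (GamKres v (E i) (hb.integral i) a) := by
    intro i l a
    apply Subtype.ext
    exact GamKcomm b (GamKbt v y hy D j b E hb) E hb.dual i l (a : K)
  have hI : ∀ i, i ≠ 0 → ∀ a ∈ maxI v, GamKres v (E i) (hb.integral i) a ∈ maxI v := by
    intro i hi a ha
    rw [mem_maxI] at ha ⊢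
    obtain ⟨l, rfl⟩ := Fin.exists_succ_eq_of_ne_zero hi
    intro hne
    have ha0 : (a : K) ≠ 0 := by
      intro h
      apply hne
      rw [GamKres_coe, h, map_zero]
    have h4 := hb.le_succ l (a : K) ha0 hne
    have h5 := ha ha0
    rw [GamKres_coe]
    omega
  have hπI : (⟨b 0, hπint⟩ : ring v) ∈ maxI v := by
    rw [mem_maxI]
    intro _
    change 1 ≤ v.ord (b 0)
    rw [hb.ord_zero]
  have hEπ : ∀ i, GamKres v (E i) (hb.integral i) (⟨b 0, hπint⟩ : ring v) =
      if i = 0 then 1 else 0 := by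
    intro i
    apply Subtype.ext
    rw [GamKres_coe]
    change E i (b 0) = _
    rw [hb.dual]
    split_ifs <;> rfl
  obtain ⟨F, iF, iA, Γ₀, d, h1, h2, h3⟩ := gam (k := k) (O := ring v) (maxI v)
    (fun i => GamKres v (E i) (hb.integral i)) hcomm hI _ hπI hEπ r hr
  have hord := GamKord v D j b E hb r Γ₀ h1 _ rfl h2
  have hfrac : IsFractionRing (ring v) K := GamKfrac v
  let φ : ring v →ₐ[k] HahnSeries ℤ F :=
    { toRingHom := (HahnSeries.ofPowerSeries ℤ F).comp Γ₀.toRingHom
      commutes' := fun c => by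
        change HahnSeries.ofPowerSeries ℤ F (Γ₀ (algebraMap k (ring v) c)) = _
        rw [AlgHom.commutes]
        rfl }
  have hφ : ∀ a, φ a = toL (Γ₀ a) := fun a => rfl
  have hinj : Function.Injective φ := by
    rw [injective_iff_map_eq_zero]
    intro a ha
    by_contra hne
    have h4 : (a : K) ≠ 0 := fun h => hne (Subtype.ext h)
    exact (hord a h4).1 (by rw [← hφ, ha])
  let Γ : K →ₐ[k] HahnSeries ℤ F := IsFractionRing.liftAlgHom (K := K) hinj
  have hΓ : ∀ a : ring v, Γ (a : K) = toL (Γ₀ a) := by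
    intro a
    change IsFractionRing.lift (K := K) hinj (algebraMap (ring v) K a) = _
    rw [IsFractionRing.lift_algebraMap]
    rfl
  have hcase : ∀ a : K, ¬ v.Integral a → a ≠ 0 ∧ v.Integral a⁻¹ := by
    intro a ha
    have h0 : a ≠ 0 ∧ v.ord a < 0 := by
      unfold DVal.Integral at ha
      push Not at ha
      exact ha
    refine ⟨h0.1, fun _ => ?_⟩
    rw [Jac.ord_inv v _ h0.1]
    omega
  refine ⟨F, iF, iA, Γ, d, ?_, ?_⟩
  · intro a ha
    by_cases hai : v.Integral a
    · have h4 := hord ⟨a, hai⟩ ha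
      rw [← hΓ] at h4
      exact h4
    · obtain ⟨_, hci⟩ := hcase a hai
      have h4 := hord ⟨a⁻¹, hci⟩ (inv_ne_zero ha)
      rw [← hΓ] at h4
      change Γ a⁻¹ ≠ 0 ∧ (Γ a⁻¹).order = r * v.ord a⁻¹ at h4
      have h5 : Γ a * Γ a⁻¹ = 1 := by rw [← map_mul, mul_inv_cancel₀ ha, map_one]
      have h6 : Γ a ≠ 0 := by
        intro h
        rw [h, zero_mul] at h5
        exact zero_ne_one h5
      refine ⟨h6, ?_⟩
      have h7 := order_mul' _ _ h6 h4.1
      rw [h5, HahnSeries.order_one, h4.2, Jac.ord_inv v _ ha] at h7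
      linarith
  · have hO : ∀ i l (a : ring v), lder (d i l) (Γ (a : K)) =
        tz F ((l : ℤ) + if i = 0 then (r : ℤ) else 0) * Γ (E i (a : K)) := by
      intro i l a
      rw [hΓ, lder_toL, h3]
      have h4 : Γ (E i (a : K)) = toL (Γ₀ (GamKres v (E i) (hb.integral i) a)) := by
        rw [← hΓ, GamKres_coe]
      rw [h4]
      unfold toL
      rw [map_mul, map_pow, HahnSeries.ofPowerSeries_X, HahnSeries.single_pow]
      congr 1
      unfold tz
      rw [one_pow]
      congr 2
      split_ifs <;> simp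
    intro i l a
    by_cases hai : v.Integral a
    · exact hO i l ⟨a, hai⟩
    · obtain ⟨ha, hci⟩ := hcase a hai
      have h4 := hO i l ⟨a⁻¹, hci⟩
      change lder (d i l) (Γ a⁻¹) =
        tz F ((l : ℤ) + if i = 0 then (r : ℤ) else 0) * Γ (E i a⁻¹) at h4
      have h5 : Γ a * Γ a⁻¹ = 1 := by rw [← map_mul, mul_inv_cancel₀ ha, map_one]
      have h6 : Γ a⁻¹ ≠ 0 := by
        intro h
        rw [h, mul_zero] at h5
        exact zero_ne_one h5
      have h7 : lder (d i l) (1 : HahnSeries ℤ F) = 0 := by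
        have h8 := lder_mul (d i l) (1 : HahnSeries ℤ F) 1
        rw [mul_one, one_mul] at h8
        exact left_eq_add.1 h8
      have h8 := lder_mul (d i l) (Γ a) (Γ a⁻¹)
      rw [h5, h7, h4] at h8
      have h9 : a * E i a⁻¹ + a⁻¹ * E i a = 0 := by
        have h10 := (E i).leibniz a a⁻¹
        rw [mul_inv_cancel₀ ha, Derivation.map_one_eq_zero, smul_eq_mul, smul_eq_mul] at h10
        exact h10.symm
      have h10 : Γ a * Γ (E i a⁻¹) + Γ a⁻¹ * Γ (E i a) = 0 := by
        rw [← map_mul, ← map_mul, ← map_add, h9, map_zero]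
      apply mul_left_cancel₀ h6
      linear_combination (-1 : HahnSeries ℤ F) * h8 -
        tz F ((l : ℤ) + if i = 0 then (r : ℤ) else 0) * h10

end Pool.Agent.MLD.Cox
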