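import Pool.Agent.Lib.MP_f23696_ag.Y.Ext0
import Pool.Agent.Lib.MP_f23696_ag.Y.Eta
import Pool.Agent.Lib.MP_f23696_ag.Y.GamK
import Pool.Agent.Lib.MP_f23696_ag.Y.ExtL

/-!
Project COX, module Arc: the universal twisted arc of a divisorial valuation.

Proof of `genArc`.  `logBasis` (T/LogB.lean) gives `b`, `E` with `IsLogBasis v S.D j₀ b E`; `gamK`
gives `F`, `Γ`, `d₀`; `ext0` gives `ρ₀` with values in `HahnSeries ℤ (F2 F h c)`; `F₂ = F2 F h c`.
* `ord_K`: the coefficients of `ρ₀ (φ b)` are the images of those of `Γ b` under an injective map,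
  so the orders agree.  `ρ₀ (s l) = toL (sg l)` has order `0` (`σ_(l,0) ≠ 0`).  By `x_eq`
  `ρ₀ (x i) = ρ₀ (φ (ξ i)) * ∏ ρ₀ (s l)^(χ i l)` has order `r_i = r v(ξ i)`, so
  `ρ₀ (x i) = tz r_i * toL (y i)` with a power series `y i`, `constantCoeff (y i) ≠ 0`.
* Derivations of `F₂` from `extL`: `d (inl (inl i)) j` extends `d₀ i j` and kills all variables;
  `d (inl (inr l)) j` is zero on `F`, maps `σ_(l,j')` to `σ_(l,j'-j)` if `j ≤ j'` and to `0` if
  `j' < j`, and kills the other variables; `d (inr a) j` is zero on `F`, maps `ζ_(a,j)` to `1` and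
  kills the other variables.  `z a = zt a`.  So `dz_z`, `d_z` are clear, and:
  (1) `lder (d (inl (inl i)) j) (ρ₀ (φ g)) = tz (j + [i = 0] r) * ρ₀ (φ (E i g))`,
      `lder (d (inl (inl i)) j) (ρ₀ (s l)) = 0`;
  (2) `lder (d (inl (inr l)) j) (ρ₀ (φ g)) = 0`, `lder (d (inl (inr l)) j) (ρ₀ (s l')) =
      [l = l'] tz j * ρ₀ (s l)`;
  (3) `lder (d (inr a) j)` kills `ρ₀ (φ g)`, `ρ₀ (s l)`, so all `ρ₀ (x i)`: `dz_y`.
  With `c_p = tz r` for `p = inl 0` and `c_p = 1` otherwise, by the product rule: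
  `lder (d (inl p) j) (ρ₀ (x i)) = tz j * c_p * ρ₀ (φ (logM E ξ χ p i)) * ρ₀ (x i)`.
  Let `T_(p,i) = c_p * ρ₀ (φ (logM E ξ χ p i)) * toL (y i)`; it is integral: for `p = inl i'`,
  `i' ≠ 0`: `v (E i' (ξ i)) ≥ v (ξ i)` (`IsLogBasis.le_succ`); for `p = inl 0`:
  `v (E 0 (ξ i)) ≥ v (ξ i) - 1` (from `IsLogBasis.euler`) and `c_p` has order `r`; for `p = inr l`
  the entry is an integer.  So `T_(p,i) = toL (θ p i)`; `d_y` follows (`lder_tz_mul`, `lder_toL`,
  cancel `tz r_i`).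
* `toL (det θ_I) = det (T_(p, inl i)) = tz r * toL (∏_(i ∈ Ro) y (inl i)) *
  ρ₀ (φ (det of logM E ξ χ, first columns))` and, as `D i = ∑_l D i (b l) E l`
  (`IsLogBasis.expand`), `lam = jac D b * det (logM E ξ χ)_I`; `v (jac D b) = - j₀`
  (`ord_jac`), `lam ≠ 0` (`lam_ne`).  So the order is `r + 0 + r (v lam + j₀)`.
* `hom0`: `constantCoeff (y i)` is the coefficient of `t^(r_i)` of `ρ₀ (x i)`, which is
  `algebraMap (u_i) * ∏_l σ_(l,0)^(χ i l)`, `u_i ∈ F` the leading coefficient of `Γ (ξ i)`.  For a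
  polynomial `P` with components `P_β` (degree `β`), `P(...) = ∑_β (∏ σ_(l,0)^(β l)) *
  algebraMap (P_β (u'))`, `u' i = u_i` if `p i`, else `0`; the Laurent monomials in the independent
  variables `σ_(l,0)` are linearly independent over `F`, so all `P_β(u') = 0`, in particular for
  `β = 0`, and `P_0(...) = algebraMap (P_0(u')) = 0`.
-/

set_option autoImplicit false

namespace Pool.Agent.MLD.Cox

open MvPolynomial
open scoped PowerSeries

universe u v w

variable {k : Type u} {K : Type v} {L : Type w} [Field k] [Field K] [Field L] [Algebra k K]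
    [Algebra k L] {m h c : ℕ}

/-- the weights `r v(ξ_i)` -/
noncomputable def Sys.rv (S : Sys k K L m h c) (v : DVal k K) (r : ℕ) (i : Ix m h c) : ℤ := r * v.ord (S.ξ i)

/-- the universal twisted arc of the valuation `v`, with multiplicity `r` -/
structure GenArc (S : Sys k K L m h c) (v : DVal k K) (r : ℕ) (j₀ : ℤ) (F : Type v) [Field F]
    [Algebra k F] where
  ρ₀ : L →ₐ[k] HahnSeries ℤ F
  ord_K : ∀ b : K, b ≠ 0 → (ρ₀ (S.φ b)).order = r * v.ord b
  y : Ix m h c → F⟦X⟧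
  y_const : ∀ i, PowerSeries.constantCoeff (y i) ≠ 0
  ρ_x : ∀ i, ρ₀ (S.x i) = tz F (S.rv v r i) * toL (y i)
  z : Fin c → F⟦X⟧
  d : Ix m h c → ℕ → Derivation k F F
  θ : Ro m h → Ix m h c → F⟦X⟧
  d_y : ∀ p j i, cder (d (Sum.inl p) j) (y i) = (PowerSeries.X : F⟦X⟧) ^ j * θ p i
  d_z : ∀ p j a, cder (d (Sum.inl p) j) (z a) = 0
  dz_y : ∀ a j i, cder (d (Sum.inr a) j) (y i) = 0
  dz_z : ∀ a j b, cder (d (Sum.inr a) j) (z b) =
    if a = b then (PowerSeries.X : F⟦X⟧) ^ j else 0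
  det_ne : (Matrix.of fun p i => θ p (Sum.inl i)).det ≠ 0
  det_ord : (toL (Matrix.of fun p i => θ p (Sum.inl i)).det).order =
    r * (1 + j₀ + v.ord S.lam)
  hom0 : ∀ (p : Ix m h c → Prop) [DecidablePred p] (P : MvPolynomial (Ix m h c) k),
    aeval (fun i => if p i then PowerSeries.constantCoeff (y i) else 0) P = 0 →
    aeval (fun i => if p i then PowerSeries.constantCoeff (y i) else 0)
      (weightedHomogeneousComponent S.χ 0 P) = 0

section tools

variable {κ : Type v} [Field κ]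

private theorem Arc_order {f : HahnSeries ℤ κ} {o : ℤ} (h0 : f.coeff o ≠ 0)
    (h : ∀ n < o, f.coeff n = 0) : f ≠ 0 ∧ f.order = o := by
  have hf : f ≠ 0 := by
    rintro rfl
    exact h0 HahnSeries.coeff_zero
  refine ⟨hf, le_antisymm (HahnSeries.order_le_of_coeff_ne_zero h0) ?_⟩
  by_contra hlt
  push Not at hlt
  exact hf (HahnSeries.coeff_order_eq_zero.1 (h _ hlt))

private theorem Arc_inv {f : HahnSeries ℤ κ} (hf : f ≠ 0) : (f⁻¹).order = -f.order := by
  have h1 := order_mul' f f⁻¹ hf (inv_ne_zero hf)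
  rw [mul_inv_cancel₀ hf, HahnSeries.order_one] at h1
  omega

private theorem Arc_pow {f : HahnSeries ℤ κ} (hf : f ≠ 0) (n : ℕ) :
    (f ^ n).order = n * f.order := by
  induction n with
  | zero => rw [pow_zero, HahnSeries.order_one]; simp
  | succ n ih =>
    rw [pow_succ, order_mul' _ _ (pow_ne_zero n hf) hf, ih]
    push_cast
    ring

private theorem Arc_zpow {f : HahnSeries ℤ κ} (hf : f ≠ 0) (n : ℤ) :
    (f ^ n).order = n * f.order := by
  cases n with
  | ofNat n =>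
    rw [Int.ofNat_eq_natCast, zpow_natCast, Arc_pow hf]
  | negSucc n =>
    rw [zpow_negSucc, Arc_inv (pow_ne_zero _ hf), Arc_pow hf, Int.negSucc_eq]
    push_cast
    ring

private theorem Arc_prod {ι : Type*} (s : Finset ι) (f : ι → HahnSeries ℤ κ)
    (hf : ∀ i ∈ s, f i ≠ 0) : (∏ i ∈ s, f i).order = ∑ i ∈ s, (f i).order := by
  classical
  induction s using Finset.induction_on with
  | empty => rw [Finset.prod_empty, Finset.sum_empty, HahnSeries.order_one]
  | insert a s ha ih =>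
    rw [Finset.prod_insert ha, Finset.sum_insert ha, order_mul' _ _
      (hf a (Finset.mem_insert_self a s))
      (Finset.prod_ne_zero_iff.2 fun i hi => hf i (Finset.mem_insert_of_mem hi)),
      ih fun i hi => hf i (Finset.mem_insert_of_mem hi)]

/-- the leading coefficient as a homomorphism -/
private noncomputable def Arc_lc (κ : Type v) [Field κ] : HahnSeries ℤ κ →*₀ κ where
  toFun f := f.coeff f.order
  map_zero' := by rw [HahnSeries.coeff_zero]
  map_one' := by rw [HahnSeries.order_one, HahnSeries.coeff_one, if_pos rfl]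
  map_mul' f g := by
    by_cases hf : f = 0
    · rw [hf, zero_mul, HahnSeries.coeff_zero, zero_mul]
    by_cases hg : g = 0
    · rw [hg, mul_zero, HahnSeries.coeff_zero, mul_zero]
    rw [order_mul' f g hf hg, ← HahnSeries.leadingCoeff_eq, ← HahnSeries.leadingCoeff_eq]
    exact HahnSeries.coeff_mul_order_add_order f g

private theorem Arc_lc_apply (f : HahnSeries ℤ κ) : Arc_lc κ f = f.coeff f.order := rfl

private theorem Arc_ex {f : HahnSeries ℤ κ} (hf : Ge 0 f) : ∃ g : κ⟦X⟧, toL g = f := by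
  refine ⟨PowerSeries.mk fun n => f.coeff n, ?_⟩
  ext n
  have h1 : (toL (PowerSeries.mk fun n : ℕ => f.coeff (n : ℤ)) : HahnSeries ℤ κ).coeff n =
      if n < 0 then 0 else PowerSeries.coeff n.natAbs
        (PowerSeries.mk fun n : ℕ => f.coeff (n : ℤ)) := PowerSeries.coeff_coe _ n
  rw [h1]
  split_ifs with h2
  · exact (hf n h2).symm
  · rw [PowerSeries.coeff_mk, Int.natAbs_of_nonneg (by omega)]

private theorem Arc_coeff0 (g : κ⟦X⟧) : (toL g).coeff 0 = PowerSeries.constantCoeff g := by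
  have h1 : (toL g).coeff 0 = if (0 : ℤ) < 0 then 0 else PowerSeries.coeff (0 : ℤ).natAbs g :=
    PowerSeries.coeff_coe _ 0
  rw [h1, if_neg (lt_irrefl 0), Int.natAbs_zero, PowerSeries.coeff_zero_eq_constantCoeff_apply]

/-- a series with nonzero constant coefficient has order zero -/
private theorem Arc_unit {g : κ⟦X⟧} (hg : PowerSeries.constantCoeff g ≠ 0) :
    toL g ≠ 0 ∧ (toL g).order = 0 := by
  have h6 := order_toL g 0 (fun i hi => absurd hi (Nat.not_lt_zero i))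
      (by rwa [PowerSeries.coeff_zero_eq_constantCoeff_apply])
  exact ⟨h6.1, by rw [h6.2]; rfl⟩

private theorem Arc_tz_order (z : ℤ) : (tz κ z).order = z := by
  have h := order_tz_mul z (1 : HahnSeries ℤ κ) one_ne_zero
  rwa [mul_one, HahnSeries.order_one, add_zero] at h

/-- splitting off the power of `t` -/
private theorem Arc_split {f : HahnSeries ℤ κ} (hf : f ≠ 0) {o : ℤ} (ho : f.order = o) :
    ∃ g : κ⟦X⟧, PowerSeries.constantCoeff g ≠ 0 ∧ f = tz κ o * toL g ∧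
      PowerSeries.constantCoeff g = Arc_lc κ f := by
  have h0 : tz κ (-o) * f ≠ 0 := mul_ne_zero (tz_ne _) hf
  have h1 : (tz κ (-o) * f).order = 0 := by
    rw [order_tz_mul _ _ hf, ho]
    ring
  obtain ⟨g, hg⟩ := Arc_ex (f := tz κ (-o) * f) ((ge_iff 0 _ h0).2 (by rw [h1]))
  have h2 : f = tz κ o * toL g := by
    rw [hg, ← mul_assoc, tz_mul, add_neg_cancel]
    have h3 : tz κ 0 = (1 : HahnSeries ℤ κ) := rfl
    rw [h3, one_mul]
  have h3 : PowerSeries.constantCoeff g = Arc_lc κ (tz κ (-o) * f) := by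
    rw [Arc_lc_apply, h1, ← hg, Arc_coeff0]
  have h4 : Arc_lc κ (tz κ (-o)) = 1 := by
    rw [Arc_lc_apply, Arc_tz_order]
    exact HahnSeries.coeff_single_same _ _
  have h5 : PowerSeries.constantCoeff g = Arc_lc κ f := by
    rw [h3, map_mul, h4, one_mul]
  refine ⟨g, ?_, h2, h5⟩
  rw [h5, Arc_lc_apply]
  exact fun h => hf (HahnSeries.coeff_order_eq_zero.1 h)

private theorem Arc_tz_coeff (z : ℤ) (f : HahnSeries ℤ κ) (n : ℤ) :
    (tz κ z * f).coeff n = f.coeff (n - z) := by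
  have h := HahnSeries.coeff_single_mul_add (r := (1 : κ)) (x := f) (a := n - z) (b := z)
  rw [sub_add_cancel, one_mul] at h
  exact h

/-- the product rule for logarithmic derivatives -/
private theorem Arc_logprod {k : Type u} [Field k] [Algebra k κ] (δ : Derivation k κ κ)
    {ι : Type*} (s : Finset ι) (f g : ι → HahnSeries ℤ κ) (n : ι → ℤ)
    (hf : ∀ i ∈ s, f i ≠ 0) (hg : ∀ i ∈ s, lder δ (f i) = g i * f i) :
    lder δ (∏ i ∈ s, f i ^ n i) =
      (∑ i ∈ s, ((n i : ℤ) : HahnSeries ℤ κ) * g i) * ∏ i ∈ s, f i ^ n i := by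
  classical
  obtain ⟨E, hE⟩ := hder δ
  simp only [← hE] at hg ⊢
  induction s using Finset.induction_on with
  | empty =>
    rw [Finset.prod_empty, Finset.sum_empty, zero_mul]
    exact Derivation.map_one_eq_zero E
  | insert a s ha ih =>
    have h1 : E (f a ^ n a) = ((n a : ℤ) : HahnSeries ℤ κ) * g a * f a ^ n a := by
      rw [Derivation.leibniz_zpow, hg a (Finset.mem_insert_self a s), smul_eq_mul,
        zsmul_eq_mul]
      have h2 : f a ^ (n a - 1) * f a = f a ^ n a := by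
        rw [← zpow_add_one₀ (hf a (Finset.mem_insert_self a s)), sub_add_cancel]
      rw [← h2]
      ring
    rw [Finset.prod_insert ha, Finset.sum_insert ha, Derivation.leibniz,
      ih (fun i hi => hf i (Finset.mem_insert_of_mem hi))
        (fun i hi => hg i (Finset.mem_insert_of_mem hi)), h1, smul_eq_mul, smul_eq_mul]
    ring

private theorem Arc_logder {k : Type u} {K : Type v} {L : Type w} [Field k] [Field K] [Field L]
    [Algebra k K] [Algebra k L] {m h c : ℕ} [Algebra k κ] (S : Sys k K L m h c)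
    (ρ₀ : L →ₐ[k] HahnSeries ℤ κ) (δ : Derivation k κ κ) (i : Ix m h c) (u : HahnSeries ℤ κ)
    (w : Fin h → HahnSeries ℤ κ)
    (hu : lder δ (ρ₀ (S.φ (S.ξ i))) = u * ρ₀ (S.φ (S.ξ i)))
    (hw : ∀ l, lder δ (ρ₀ (S.s l)) = w l * ρ₀ (S.s l)) :
    lder δ (ρ₀ (S.x i)) =
      (u + ∑ l, ((S.χ i l : ℤ) : HahnSeries ℤ κ) * w l) * ρ₀ (S.x i) := by
  have hne : ∀ l, ρ₀ (S.s l) ≠ 0 := fun l => by
    rw [ne_eq, map_eq_zero]
    exact S.s_ne l
  have h1 : ρ₀ (S.x i) = ρ₀ (S.φ (S.ξ i)) * ∏ l, ρ₀ (S.s l) ^ S.χ i l := by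
    rw [S.x_eq]
    unfold Sys.sp
    rw [map_mul, map_prod]
    congr 1
    exact Finset.prod_congr rfl fun l _ => map_zpow₀ _ _ _
  rw [h1, lder_mul, hu, Arc_logprod δ Finset.univ _ w _ (fun l _ => hne l) fun l _ => hw l]
  ring

end tools

section main

variable {F : Type v} [Field F] [Algebra k F] {κ : Type v} [Field κ] [Algebra k κ]

variable (S : Sys k K L m h c) (v : DVal k K) (r : ℕ) {Γ : K →ₐ[k] HahnSeries ℤ F}
  (ι : F →+* κ) {ρ₀ : L →ₐ[k] HahnSeries ℤ κ} (σ : Fin h → κ⟦X⟧)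

private theorem Arc_ordφ (hΓ : ∀ a : K, a ≠ 0 → Γ a ≠ 0 ∧ (Γ a).order = r * v.ord a)
    (hρφ : ∀ b n, (ρ₀ (S.φ b)).coeff n = ι ((Γ b).coeff n))
    (b : K) (hb : b ≠ 0) : ρ₀ (S.φ b) ≠ 0 ∧ (ρ₀ (S.φ b)).order = r * v.ord b := by
  obtain ⟨h1, h2⟩ := hΓ b hb
  refine Arc_order ?_ fun n hn => ?_
  · rw [hρφ, ← h2, ne_eq, map_eq_zero]
    exact fun h => h1 (HahnSeries.coeff_order_eq_zero.1 h)
  · rw [hρφ, HahnSeries.coeff_eq_zero_of_lt_order (by rw [h2]; exact hn), map_zero]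

private theorem Arc_lcφ (hΓ : ∀ a : K, a ≠ 0 → Γ a ≠ 0 ∧ (Γ a).order = r * v.ord a)
    (hρφ : ∀ b n, (ρ₀ (S.φ b)).coeff n = ι ((Γ b).coeff n))
    (b : K) (hb : b ≠ 0) :
    Arc_lc κ (ρ₀ (S.φ b)) = ι (Arc_lc F (Γ b)) := by
  rw [Arc_lc_apply, Arc_lc_apply, (Arc_ordφ S v r ι hΓ hρφ b hb).2, (hΓ b hb).2, hρφ]

private theorem Arc_x (ρ₀ : L →ₐ[k] HahnSeries ℤ κ) (i : Ix m h c) :
    ρ₀ (S.x i) = ρ₀ (S.φ (S.ξ i)) * ∏ l, ρ₀ (S.s l) ^ S.χ i l := by
  rw [S.x_eq]
  unfold Sys.sp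
  rw [map_mul, map_prod]
  congr 1
  exact Finset.prod_congr rfl fun l _ => map_zpow₀ _ _ _

private theorem Arc_ordx (hΓ : ∀ a : K, a ≠ 0 → Γ a ≠ 0 ∧ (Γ a).order = r * v.ord a)
    (hρφ : ∀ b n, (ρ₀ (S.φ b)).coeff n = ι ((Γ b).coeff n))
    (hρs : ∀ l, ρ₀ (S.s l) = toL (σ l)) (hσ : ∀ l, PowerSeries.constantCoeff (σ l) ≠ 0)
    (i : Ix m h c) : ρ₀ (S.x i) ≠ 0 ∧ (ρ₀ (S.x i)).order = S.rv v r i := by
  have h0 : ∀ l, ρ₀ (S.s l) ≠ 0 ∧ (ρ₀ (S.s l)).order = 0 := fun l => by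
    rw [hρs]
    exact Arc_unit (hσ l)
  have h1 := Arc_ordφ S v r ι hΓ hρφ (S.ξ i) (S.ξ_ne i)
  have h2 : (∏ l, ρ₀ (S.s l) ^ S.χ i l) ≠ 0 :=
    Finset.prod_ne_zero_iff.2 fun l _ => zpow_ne_zero _ (h0 l).1
  rw [Arc_x S ρ₀ i]
  refine ⟨mul_ne_zero h1.1 h2, ?_⟩
  rw [order_mul' _ _ h1.1 h2, Arc_prod _ _ fun l _ => zpow_ne_zero _ (h0 l).1, h1.2]
  have h3 : ∀ l, (ρ₀ (S.s l) ^ S.χ i l).order = 0 := fun l => by
    rw [Arc_zpow (h0 l).1, (h0 l).2, mul_zero]
  simp only [h3, Finset.sum_const_zero, add_zero]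
  rfl

private theorem Arc_lcx (hΓ : ∀ a : K, a ≠ 0 → Γ a ≠ 0 ∧ (Γ a).order = r * v.ord a)
    (hρφ : ∀ b n, (ρ₀ (S.φ b)).coeff n = ι ((Γ b).coeff n))
    (hρs : ∀ l, ρ₀ (S.s l) = toL (σ l)) (hσ : ∀ l, PowerSeries.constantCoeff (σ l) ≠ 0)
    (i : Ix m h c) : Arc_lc κ (ρ₀ (S.x i)) = ι (Arc_lc F (Γ (S.ξ i))) *
      ∏ l, PowerSeries.constantCoeff (σ l) ^ S.χ i l := by
  rw [Arc_x S ρ₀ i, map_mul, Arc_lcφ S v r ι hΓ hρφ _ (S.ξ_ne i), map_prod]
  congr 1
  refine Finset.prod_congr rfl fun l _ => ?_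
  rw [map_zpow₀, hρs, Arc_lc_apply, (Arc_unit (hσ l)).2, Arc_coeff0]

/-- the action of a derivation on the arc of `K` -/
private theorem Arc_derφ {δ₀ : Derivation k F F} {δ : Derivation k κ κ}
    (hδ : ∀ a : F, δ (ι a) = ι (δ₀ a))
    (hρφ : ∀ b n, (ρ₀ (S.φ b)).coeff n = ι ((Γ b).coeff n))
    (z : ℤ) (g g' : K) (hg : lder δ₀ (Γ g) = tz F z * Γ g') :
    lder δ (ρ₀ (S.φ g)) = tz κ z * ρ₀ (S.φ g') := by
  ext n
  rw [lder_coeff, hρφ, hδ, ← lder_coeff, hg, Arc_tz_coeff, Arc_tz_coeff, hρφ]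

private theorem Arc_derφ0 {δ : Derivation k κ κ} (hδ : ∀ a : F, δ (ι a) = 0)
    (hρφ : ∀ b n, (ρ₀ (S.φ b)).coeff n = ι ((Γ b).coeff n)) (g : K) :
    lder δ (ρ₀ (S.φ g)) = 0 := by
  ext n
  rw [lder_coeff, hρφ, hδ, HahnSeries.coeff_zero]

/-! ### Laurent monomials -/

/-- a Laurent monomial -/
private noncomputable def Arc_mon (s0 : Fin h → κ) (β : Fin h → ℤ) : κ := ∏ l, s0 l ^ β l

private theorem Arc_mon_zero (s0 : Fin h → κ) : Arc_mon s0 0 = 1 := by
  unfold Arc_mon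
  exact Finset.prod_eq_one fun l _ => zpow_zero _

private theorem Arc_mon_add {s0 : Fin h → κ} (hs : ∀ l, s0 l ≠ 0) (β β' : Fin h → ℤ) :
    Arc_mon s0 (β + β') = Arc_mon s0 β * Arc_mon s0 β' := by
  unfold Arc_mon
  rw [← Finset.prod_mul_distrib]
  exact Finset.prod_congr rfl fun l _ => zpow_add₀ (hs l) _ _

private theorem Arc_mon_nsmul {s0 : Fin h → κ} (hs : ∀ l, s0 l ≠ 0) (n : ℕ)
    (β : Fin h → ℤ) : Arc_mon s0 (n • β) = Arc_mon s0 β ^ n := by
  induction n with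
  | zero => rw [zero_smul, Arc_mon_zero, pow_zero]
  | succ n ih => rw [succ_nsmul, Arc_mon_add hs, ih, pow_succ]

private theorem Arc_mon_sum {s0 : Fin h → κ} (hs : ∀ l, s0 l ≠ 0) {I : Type*} (T : Finset I)
    (β : I → Fin h → ℤ) : Arc_mon s0 (∑ i ∈ T, β i) = ∏ i ∈ T, Arc_mon s0 (β i) := by
  classical
  induction T using Finset.induction_on with
  | empty => rw [Finset.sum_empty, Finset.prod_empty, Arc_mon_zero]
  | insert a T ha ih => rw [Finset.sum_insert ha, Finset.prod_insert ha, Arc_mon_add hs, ih]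

private theorem Arc_hom {I : Type} [Fintype I] (χ : I → (Fin h → ℤ)) {s0 : Fin h → κ}
    (hs : ∀ l, s0 l ≠ 0) (ι : F →+* κ) (hι : ∀ x : k, ι (algebraMap k F x) = algebraMap k κ x)
    (hind : ∀ (B : Finset (Fin h → ℤ)) (a : (Fin h → ℤ) → F),
      ∑ β ∈ B, ι (a β) * Arc_mon s0 β = 0 → ∀ β ∈ B, a β = 0)
    (u : I → F) (f : I → κ) (hf : ∀ i (n : ℕ), f i ^ n = ι (u i) ^ n * Arc_mon s0 (n • χ i))
    (P : MvPolynomial I k) (hP : aeval f P = 0) :
    aeval f (weightedHomogeneousComponent χ 0 P) = 0 := by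
  classical
  have hterm : ∀ d : I →₀ ℕ, algebraMap k κ (coeff d P) * ∏ i, f i ^ d i =
      ι (algebraMap k F (coeff d P) * ∏ i, u i ^ d i) * Arc_mon s0 (Finsupp.weight χ d) := by
    intro d
    have h1 : ∏ i, f i ^ d i = (∏ i, ι (u i) ^ d i) * ∏ i, Arc_mon s0 (d i • χ i) := by
      rw [← Finset.prod_mul_distrib]
      exact Finset.prod_congr rfl fun i _ => hf i (d i)
    have h2 : Finsupp.weight χ d = ∑ i, d i • χ i := by
      rw [Finsupp.weight_apply]
      exact Finsupp.sum_fintype _ _ fun i => zero_smul _ _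
    rw [h1, h2, Arc_mon_sum hs, map_mul, hι, map_prod]
    simp only [map_pow]
    ring
  obtain ⟨a, ha⟩ : ∃ a : (Fin h → ℤ) → F, ∀ β, a β =
      ∑ d ∈ P.support with Finsupp.weight χ d = β,
        algebraMap k F (coeff d P) * ∏ i, u i ^ d i := ⟨fun β => _, fun _ => rfl⟩
  have hsum : ∀ β, ∑ d ∈ P.support with Finsupp.weight χ d = β,
      algebraMap k κ (coeff d P) * ∏ i, f i ^ d i = ι (a β) * Arc_mon s0 β := by
    intro β
    rw [ha, map_sum, Finset.sum_mul]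
    refine Finset.sum_congr rfl fun d hd => ?_
    rw [hterm, (Finset.mem_filter.1 hd).2]
  have h0 : ∑ β ∈ P.support.image (Finsupp.weight χ), ι (a β) * Arc_mon s0 β = 0 := by
    rw [← hP, aeval_def, eval₂_eq']
    rw [← Finset.sum_fiberwise_of_maps_to (g := Finsupp.weight χ)
      (fun d hd => Finset.mem_image_of_mem _ hd)]
    exact Finset.sum_congr rfl fun β _ => (hsum β).symm
  have h1 := hind _ a h0
  have h2 : a 0 = 0 := by
    by_cases hB : (0 : Fin h → ℤ) ∈ P.support.image (Finsupp.weight χ)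
    · exact h1 0 hB
    · rw [ha, Finset.sum_eq_zero]
      intro d hd
      exact absurd (Finset.mem_image.2 ⟨d, (Finset.mem_filter.1 hd).1,
        (Finset.mem_filter.1 hd).2⟩) hB
  rw [weightedHomogeneousComponent_apply, map_sum]
  have h3 := hsum 0
  rw [h2, map_zero, zero_mul] at h3
  rw [← h3]
  refine Finset.sum_congr rfl fun d _ => ?_
  rw [aeval_monomial, Finsupp.prod_fintype]
  exact fun i => pow_zero _

/-! ### Orders -/

private theorem Arc_E0 [CharZero k] {j₀ : ℤ} {b : Fin (m + 1) → K}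
    {E : Fin (m + 1) → Derivation k K K} (hb : Ten.IsLogBasis v S.D j₀ b E) (x : K)
    (hx : x ≠ 0) (hE : E 0 x ≠ 0) : v.ord x - 1 ≤ v.ord (E 0 x) := by
  have h1 : Jac.LB v (v.ord x) (b 0 * E 0 x - (v.ord x : K) * x) := by
    intro hne
    have := hb.euler x hx hne
    omega
  have h2 : Jac.LB v (v.ord x) ((v.ord x : K) * x) := by
    have h3 := (Ten.LB_algebraMap (v := v) (v.ord x : k)).mul (Ten.LB_self (v := v) x)
    rw [map_intCast, zero_add] at h3
    exact h3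
  have h3 := h1.add h2
  rw [sub_add_cancel] at h3
  have h4 := h3 (mul_ne_zero (hb.ne_zero 0) hE)
  rw [v.ord_mul _ _ (hb.ne_zero 0) hE, hb.ord_zero] at h4
  omega

/-- the exponent of the factor `c_p` -/
private def Arc_cc (m h : ℕ) (r : ℕ) : Ro m h → ℤ :=
  Sum.elim (fun i => if i = 0 then (r : ℤ) else 0) fun _ => 0

private theorem Arc_logM [CharZero k] {j₀ : ℤ} {b : Fin (m + 1) → K}
    {E : Fin (m + 1) → Derivation k K K} (hb : Ten.IsLogBasis v S.D j₀ b E)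
    (p : Ro m h) (i : Ix m h c) (hne : logM E S.ξ S.χ p i ≠ 0) :
    -Arc_cc m h r p ≤ r * v.ord (logM E S.ξ S.χ p i) := by
  rcases p with p | l
  · have h1 : logM E S.ξ S.χ (Sum.inl p) i = E p (S.ξ i) / S.ξ i := rfl
    rw [h1] at hne ⊢
    have h2 : E p (S.ξ i) ≠ 0 := fun h => hne (by rw [h, zero_div])
    rw [Ten.ord_div v _ _ h2 (S.ξ_ne i)]
    change -(if p = 0 then (r : ℤ) else 0) ≤ _
    split_ifs with hp
    · subst hp
      have h3 := Arc_E0 S v hb (S.ξ i) (S.ξ_ne i) h2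
      have hr : (0 : ℤ) ≤ r := Int.natCast_nonneg r
      nlinarith
    · obtain ⟨q, rfl⟩ := Fin.exists_succ_eq_of_ne_zero hp
      have h3 := hb.le_succ q (S.ξ i) (S.ξ_ne i) h2
      have hr : (0 : ℤ) ≤ r := Int.natCast_nonneg r
      rw [neg_zero]
      exact mul_nonneg hr (by omega)
  · have h1 : logM E S.ξ S.χ (Sum.inr l) i = ((S.χ i l : ℤ) : K) := rfl
    rw [h1] at hne ⊢
    have h2 : v.ord ((S.χ i l : ℤ) : K) = 0 := by
      rw [← map_intCast (algebraMap k K)]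
      refine v.ord_algebraMap _ fun h0 => hne ?_
      rw [← map_intCast (algebraMap k K), h0, map_zero]
    rw [h2, mul_zero]
    exact le_of_eq (by rfl)

/-- the determinant of the logarithmic matrix with respect to the adapted basis -/
private theorem Arc_lam {j₀ : ℤ} {b : Fin (m + 1) → K}
    {E : Fin (m + 1) → Derivation k K K} (hb : Ten.IsLogBasis v S.D j₀ b E) :
    S.lam = jac S.D b * ((logM E S.ξ S.χ).submatrix id Sum.inl).det := by
  have h1 : (logM S.D S.ξ S.χ).submatrix id Sum.inl =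
      Matrix.fromBlocks (Matrix.of fun i l => S.D i (b l)) 0 0 (1 : Matrix (Fin h) (Fin h) K) *
        (logM E S.ξ S.χ).submatrix id Sum.inl := by
    ext p i
    rw [Matrix.mul_apply, Fintype.sum_sum_type]
    rcases p with p | l
    · simp only [Matrix.fromBlocks_apply₁₁, Matrix.fromBlocks_apply₁₂, Matrix.zero_apply,
        zero_mul, Finset.sum_const_zero, add_zero, Matrix.of_apply]
      change S.D p (S.ξ (Sum.inl i)) / S.ξ (Sum.inl i) =
        ∑ x, S.D p (b x) * (E x (S.ξ (Sum.inl i)) / S.ξ (Sum.inl i))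
      rw [hb.expand p, Finset.sum_div]
      exact Finset.sum_congr rfl fun x _ => mul_div_assoc _ _ _
    · simp only [Matrix.fromBlocks_apply₂₁, Matrix.fromBlocks_apply₂₂, Matrix.zero_apply,
        zero_mul, Finset.sum_const_zero, zero_add]
      rw [Finset.sum_eq_single l]
      · rw [Matrix.one_apply_eq, one_mul]
        rfl
      · intro l' _ hl'
        rw [Matrix.one_apply_ne (Ne.symm hl'), zero_mul]
      · intro hl
        exact absurd (Finset.mem_univ l) hl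
  unfold Sys.lam
  rw [h1, Matrix.det_mul, Matrix.det_fromBlocks_zero₂₁, Matrix.det_one, mul_one]
  rfl

/-! ### The arc -/

private theorem Arc_toLX (j : ℕ) (g : κ⟦X⟧) :
    toL ((PowerSeries.X : κ⟦X⟧) ^ j * g) = tz κ j * toL g := by
  unfold toL tz
  rw [map_mul, map_pow, HahnSeries.ofPowerSeries_X, HahnSeries.single_pow]
  simp

private theorem Arc_toL0 : toL (0 : κ⟦X⟧) = 0 := by
  unfold toL
  exact map_zero _

private theorem Arc_der {E : Fin (m + 1) → Derivation k K K}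
    {d₀ : Fin (m + 1) → ℕ → Derivation k F F}
    (hd₀ : ∀ i j a, lder (d₀ i j) (Γ a) =
      tz F ((j : ℤ) + if i = 0 then (r : ℤ) else 0) * Γ (E i a))
    (hρφ : ∀ b n, (ρ₀ (S.φ b)).coeff n = ι ((Γ b).coeff n))
    (hρs : ∀ l, ρ₀ (S.s l) = toL (σ l)) (d : Ix m h c → ℕ → Derivation k κ κ)
    (hd1 : ∀ i j a, d (Sum.inl (Sum.inl i)) j (ι a) = ι (d₀ i j a))
    (hd1' : ∀ i j l, cder (d (Sum.inl (Sum.inl i)) j) (σ l) = 0)
    (hd2 : ∀ l j a, d (Sum.inl (Sum.inr l)) j (ι a) = 0)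
    (hd2' : ∀ l j l', cder (d (Sum.inl (Sum.inr l)) j) (σ l') =
      if l' = l then (PowerSeries.X : κ⟦X⟧) ^ j * σ l' else 0) (p : Ro m h) (j : ℕ)
    (i : Ix m h c) : lder (d (Sum.inl p) j) (ρ₀ (S.x i)) =
      tz κ ((j : ℤ) + Arc_cc m h r p) * ρ₀ (S.φ (logM E S.ξ S.χ p i)) * ρ₀ (S.x i) := by
  rcases p with p | l
  · have h1 := Arc_logder S ρ₀ (d (Sum.inl (Sum.inl p)) j) i
      (tz κ ((j : ℤ) + Arc_cc m h r (Sum.inl p)) *
        ρ₀ (S.φ (logM E S.ξ S.χ (Sum.inl p) i))) (fun _ => 0) (by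
          rw [Arc_derφ S ι (hd1 p j) hρφ _ _ _ (hd₀ p j (S.ξ i)), mul_assoc, ← map_mul,
            ← map_mul]
          have h2 : logM E S.ξ S.χ (Sum.inl p) i * S.ξ i = E p (S.ξ i) :=
            div_mul_cancel₀ _ (S.ξ_ne i)
          rw [h2]
          rfl) (fun l => by
          rw [hρs, lder_toL, hd1', Arc_toL0, zero_mul])
    rw [h1]
    simp only [mul_zero, Finset.sum_const_zero, add_zero]
  · have h1 := Arc_logder S ρ₀ (d (Sum.inl (Sum.inr l)) j) i 0
      (fun l' => if l' = l then tz κ j else 0) (by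
          rw [Arc_derφ0 S ι (hd2 l j) hρφ, zero_mul]) (fun l' => by
          rw [hρs, lder_toL, hd2']
          split_ifs
          · exact Arc_toLX _ _
          · rw [Arc_toL0, zero_mul])
    rw [h1, zero_add, Finset.sum_eq_single l]
    · rw [if_pos rfl]
      have h2 : ρ₀ (S.φ (logM E S.ξ S.χ (Sum.inr l) i)) = ((S.χ i l : ℤ) : HahnSeries ℤ κ) := by
        change ρ₀ (S.φ ((S.χ i l : ℤ) : K)) = _
        rw [map_intCast, map_intCast]
      have h3 : Arc_cc m h r (Sum.inr l) = 0 := rfl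
      rw [h2, h3, add_zero]
      ring
    · intro l' _ hl'
      rw [if_neg hl', mul_zero]
    · intro hl
      exact absurd (Finset.mem_univ l) hl

private theorem Arc_main [CharZero k] {j₀ : ℤ} {b : Fin (m + 1) → K}
    {E : Fin (m + 1) → Derivation k K K} (hb : Ten.IsLogBasis v S.D j₀ b E)
    {d₀ : Fin (m + 1) → ℕ → Derivation k F F}
    (hΓ : ∀ a : K, a ≠ 0 → Γ a ≠ 0 ∧ (Γ a).order = r * v.ord a)
    (hd₀ : ∀ i j a, lder (d₀ i j) (Γ a) =
      tz F ((j : ℤ) + if i = 0 then (r : ℤ) else 0) * Γ (E i a))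
    (hρφ : ∀ b n, (ρ₀ (S.φ b)).coeff n = ι ((Γ b).coeff n))
    (hρs : ∀ l, ρ₀ (S.s l) = toL (σ l)) (hσ : ∀ l, PowerSeries.constantCoeff (σ l) ≠ 0)
    (hι : ∀ x : k, ι (algebraMap k F x) = algebraMap k κ x)
    (d : Ix m h c → ℕ → Derivation k κ κ)
    (hd1 : ∀ i j a, d (Sum.inl (Sum.inl i)) j (ι a) = ι (d₀ i j a))
    (hd1' : ∀ i j l, cder (d (Sum.inl (Sum.inl i)) j) (σ l) = 0)
    (hd2 : ∀ l j a, d (Sum.inl (Sum.inr l)) j (ι a) = 0)
    (hd2' : ∀ l j l', cder (d (Sum.inl (Sum.inr l)) j) (σ l') =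
      if l' = l then (PowerSeries.X : κ⟦X⟧) ^ j * σ l' else 0)
    (hd3 : ∀ a j x, d (Sum.inr a) j (ι x) = 0)
    (hd3' : ∀ a j l, cder (d (Sum.inr a) j) (σ l) = 0) (z : Fin c → κ⟦X⟧)
    (hz : ∀ p j a, cder (d (Sum.inl p) j) (z a) = 0)
    (hz' : ∀ a j b, cder (d (Sum.inr a) j) (z b) =
      if a = b then (PowerSeries.X : κ⟦X⟧) ^ j else 0)
    (hind : ∀ (B : Finset (Fin h → ℤ)) (a : (Fin h → ℤ) → F), ∑ β ∈ B, ι (a β) *
      Arc_mon (fun l => PowerSeries.constantCoeff (σ l)) β = 0 → ∀ β ∈ B, a β = 0) :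
    Nonempty (GenArc S v r j₀ κ) := by
  have hord := Arc_ordx S v r ι σ hΓ hρφ hρs hσ
  choose y hy0 hy1 hy2 using fun i => Arc_split (hord i).1 (hord i).2
  have hint : ∀ p i, Ge 0 (tz κ (Arc_cc m h r p) *
      ρ₀ (S.φ (logM E S.ξ S.χ p i)) * toL (y i)) := by
    intro p i
    have h1 : Ge (Arc_cc m h r p) (tz κ (Arc_cc m h r p)) :=
      (ge_iff _ _ (tz_ne _)).2 (le_of_eq (Arc_tz_order _).symm)
    have h2 : Ge (-Arc_cc m h r p) (ρ₀ (S.φ (logM E S.ξ S.χ p i))) := by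
      by_cases hne : logM E S.ξ S.χ p i = 0
      · rw [hne, map_zero, map_zero]
        exact fun n _ => HahnSeries.coeff_zero
      · obtain ⟨h3, h4⟩ := Arc_ordφ S v r ι hΓ hρφ _ hne
        rw [ge_iff _ _ h3, h4]
        exact Arc_logM S v r hb p i hne
    have h3 : Ge 0 (toL (y i)) := (ge_iff _ _ (Arc_unit (hy0 i)).1).2
      (le_of_eq (Arc_unit (hy0 i)).2.symm)
    have h4 := (h1.mul h2).mul h3
    rwa [add_neg_cancel, zero_add] at h4
  choose θ hθ using fun p i => Arc_ex (hint p i)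
  have hdy : ∀ p j i, cder (d (Sum.inl p) j) (y i) = (PowerSeries.X : κ⟦X⟧) ^ j * θ p i := by
    intro p j i
    apply toL_injective
    rw [Arc_toLX, hθ]
    have h1 := Arc_der S r ι σ hd₀ hρφ hρs d hd1 hd1' hd2 hd2' p j i
    rw [hy1 i, lder_tz_mul, lder_toL, ← tz_mul] at h1
    apply mul_left_cancel₀ (tz_ne (κ := κ) (S.rv v r i))
    rw [h1]
    ring
  have hdz : ∀ a j i, cder (d (Sum.inr a) j) (y i) = 0 := by
    intro a j i
    have h1 := Arc_logder S ρ₀ (d (Sum.inr a) j) i 0 (fun _ => 0)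
      (by rw [Arc_derφ0 S ι (hd3 a j) hρφ, zero_mul])
      (fun l => by rw [hρs, lder_toL, hd3', Arc_toL0, zero_mul])
    simp only [mul_zero, Finset.sum_const_zero, add_zero, zero_mul] at h1
    rw [hy1 i, lder_tz_mul, lder_toL] at h1
    apply toL_injective
    rw [Arc_toL0]
    exact (mul_eq_zero.1 h1).resolve_left (tz_ne _)
  set lamE : K := ((logM E S.ξ S.χ).submatrix id Sum.inl).det with hlamE
  have hlam : S.lam = jac S.D b * lamE := Arc_lam S v hb
  have hlam0 : lamE ≠ 0 := fun h0 => S.lam_ne (by rw [hlam, h0, mul_zero])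
  have hlamo : v.ord S.lam = -j₀ + v.ord lamE := by
    rw [hlam, v.ord_mul _ _ hb.jac_ne hlam0, hb.ord_jac]
  have hdet : toL (Matrix.of fun p i => θ p (Sum.inl i)).det =
      (∏ p, tz κ (Arc_cc m h r p)) * ((∏ i : Ro m h, toL (y (Sum.inl i))) *
        ρ₀ (S.φ lamE)) := by
    rw [toL_det]
    have h1 : (Matrix.of fun p i => toL ((Matrix.of fun p i => θ p (Sum.inl i)) p i) :
        Matrix (Ro m h) (Ro m h) (HahnSeries ℤ κ)) =
        Matrix.of fun p i => tz κ (Arc_cc m h r p) *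
          (Matrix.of fun p i => toL (y (Sum.inl i)) *
            ((ρ₀ : L →+* HahnSeries ℤ κ).comp (S.φ : K →+* L)).mapMatrix
              ((logM E S.ξ S.χ).submatrix id Sum.inl) p i) p i := by
      ext1 p i
      change toL (θ p (Sum.inl i)) = tz κ (Arc_cc m h r p) *
        (toL (y (Sum.inl i)) * ρ₀ (S.φ (logM E S.ξ S.χ p (Sum.inl i))))
      rw [hθ]
      ring
    rw [h1, Matrix.det_mul_column, Matrix.det_mul_row, ← RingHom.map_det]
    rfl
  have hφ := Arc_ordφ S v r ι hΓ hρφ lamE hlam0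
  have hy : (∏ i : Ro m h, toL (y (Sum.inl i))) ≠ 0 ∧
      (∏ i : Ro m h, toL (y (Sum.inl i))).order = 0 := by
    refine ⟨Finset.prod_ne_zero_iff.2 fun i _ => (Arc_unit (hy0 _)).1, ?_⟩
    rw [Arc_prod _ _ fun i _ => (Arc_unit (hy0 _)).1]
    exact Finset.sum_eq_zero fun i _ => (Arc_unit (hy0 _)).2
  have ht : (∏ p, tz κ (Arc_cc m h r p)) ≠ 0 ∧ (∏ p, tz κ (Arc_cc m h r p)).order = r := by
    refine ⟨Finset.prod_ne_zero_iff.2 fun i _ => tz_ne _, ?_⟩
    rw [Arc_prod _ _ fun i _ => tz_ne _]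
    simp only [Arc_tz_order]
    rw [Fintype.sum_sum_type]
    simp [Arc_cc]
  have hne : toL (Matrix.of fun p i => θ p (Sum.inl i)).det ≠ 0 := by
    rw [hdet]
    exact mul_ne_zero ht.1 (mul_ne_zero hy.1 hφ.1)
  refine ⟨{
    ρ₀ := ρ₀
    ord_K := fun b hb => (Arc_ordφ S v r ι hΓ hρφ b hb).2
    y := y
    y_const := hy0
    ρ_x := hy1
    z := z
    d := d
    θ := θ
    d_y := hdy
    d_z := hz
    dz_y := hdz
    dz_z := hz'
    det_ne := fun h0 => hne (by rw [h0, Arc_toL0])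
    det_ord := ?_
    hom0 := ?_ }⟩
  · rw [hdet, order_mul' _ _ ht.1 (mul_ne_zero hy.1 hφ.1), order_mul' _ _ hy.1 hφ.1, ht.2, hy.2,
      hφ.2, hlamo]
    ring
  · intro p _ P hP
    have hcst : ∀ i, PowerSeries.constantCoeff (y i) = ι (Arc_lc F (Γ (S.ξ i))) *
        Arc_mon (fun l => PowerSeries.constantCoeff (σ l)) (S.χ i) := fun i => by
      rw [hy2, Arc_lcx S v r ι σ hΓ hρφ hρs hσ]
      rfl
    refine Arc_hom S.χ hσ ι hι hind (fun i => if p i then Arc_lc F (Γ (S.ξ i)) else 0) _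
      (fun i n => ?_) P hP
    rw [Arc_mon_nsmul hσ]
    by_cases hp : p i
    · rw [if_pos hp, if_pos hp, hcst, mul_pow]
    · rw [if_neg hp, if_neg hp, map_zero, ← mul_pow, zero_mul]

/-- Laurent monomials in independent variables are linearly independent -/
private theorem Arc_ind {τ : Type} (e : MvPolynomial τ F →+* κ) (he : Function.Injective e)
    (x : Fin h → τ) (hx : Function.Injective x) (B : Finset (Fin h → ℤ))
    (a : (Fin h → ℤ) → F)
    (h0 : ∑ β ∈ B, e (C (a β)) * Arc_mon (fun l => e (X (x l))) β = 0) :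
    ∀ β ∈ B, a β = 0 := by
  classical
  have hs : ∀ l, e (X (x l)) ≠ 0 := fun l h1 =>
    X_ne_zero (R := F) (x l) (he (h1.trans (map_zero e).symm))
  obtain ⟨N, hN⟩ : ∃ N : ℕ, ∀ β ∈ B, ∀ l, 0 ≤ β l + N := by
    refine ⟨∑ β ∈ B, ∑ l, (β l).natAbs, fun β hβ l => ?_⟩
    have h1 : (β l).natAbs ≤ ∑ β ∈ B, ∑ l, (β l).natAbs :=
      (Finset.single_le_sum (f := fun l => (β l).natAbs) (fun _ _ => Nat.zero_le _)
        (Finset.mem_univ l)).trans
        (Finset.single_le_sum (f := fun β : Fin h → ℤ => ∑ l, (β l).natAbs)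
          (fun _ _ => Nat.zero_le _) hβ)
    omega
  let ex : (Fin h → ℤ) → (τ →₀ ℕ) := fun β =>
    ∑ l, Finsupp.single (x l) (β l + N).toNat
  have hex : ∀ β l, ex β (x l) = (β l + N).toNat := by
    intro β l
    change (∑ l', Finsupp.single (x l') (β l' + N).toNat) (x l) = _
    rw [Finsupp.finsetSum_apply, Finset.sum_eq_single l, Finsupp.single_eq_same]
    · intro l' _ hl'
      exact Finsupp.single_eq_of_ne fun h1 => hl' (hx h1.symm)
    · intro hl
      exact absurd (Finset.mem_univ l) hl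
  have hmon : ∀ β ∈ B, Arc_mon (fun l => e (X (x l))) (β + fun _ => (N : ℤ)) =
      e (monomial (ex β) 1) := by
    intro β hβ
    unfold Arc_mon
    change _ = e (monomial (∑ l, Finsupp.single (x l) (β l + N).toNat) 1)
    rw [monomial_sum_one, map_prod]
    refine Finset.prod_congr rfl fun l _ => ?_
    rw [← X_pow_eq_monomial, map_pow, Pi.add_apply, ← zpow_natCast,
      Int.toNat_of_nonneg (hN β hβ l)]
  have h1 : e (∑ β ∈ B, monomial (ex β) (a β)) = 0 := by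
    rw [map_sum]
    have h2 := congrArg (fun w => w * Arc_mon (fun l => e (X (x l))) fun _ => (N : ℤ)) h0
    simp only [zero_mul, Finset.sum_mul] at h2
    rw [← h2]
    refine Finset.sum_congr rfl fun β hβ => ?_
    rw [mul_assoc, ← Arc_mon_add hs, hmon β hβ, ← map_mul, C_mul_monomial, mul_one]
  have h2 : ∑ β ∈ B, monomial (ex β) (a β) = 0 := he (h1.trans (map_zero e).symm)
  intro β₀ hβ₀
  have h3 := congrArg (coeff (ex β₀)) h2
  rw [coeff_sum, coeff_zero, Finset.sum_eq_single β₀, coeff_monomial, if_pos rfl] at h3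
  · exact h3
  · intro β hβ hne
    rw [coeff_monomial, if_neg]
    intro h4
    apply hne
    funext l
    have h5 := congrArg (fun w : τ →₀ ℕ => w (x l)) h4
    simp only [hex] at h5
    have h6 := hN β hβ l
    have h7 := hN β₀ hβ₀ l
    omega
  · intro h4
    exact absurd hβ₀ h4

end main

private theorem Arc_sg0 (F : Type v) [Field F] (l : Fin h) :
    PowerSeries.constantCoeff (sg F h c l) =
    algebraMap (MvPolynomial ((Fin h × ℕ) ⊕ (Fin c × ℕ)) F) (F2 F h c) (X (Sum.inl (l, 0))) := by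
  rw [← PowerSeries.coeff_zero_eq_constantCoeff_apply]
  unfold sg
  rw [PowerSeries.coeff_mk]

theorem genArc [CharZero k] (S : Sys k K L m h c) (v : DVal k K) (hv : v.IsDivisorial m) (j₀ : ℤ)
    (hj : v.FormOrd S.D j₀) (r : ℕ) (hr : 1 ≤ r) :
    ∃ (F : Type v) (_ : Field F) (_ : Algebra k F), Nonempty (GenArc S v r j₀ F) := by
  obtain ⟨b, E, hb⟩ := Ten.logBasis v S.y S.hy S.D S.hD hv j₀ hj
  obtain ⟨F, iF, iA, Γ, d₀, hΓ, hd₀⟩ := gamK v S.y S.hy S.D S.hD j₀ b E hb r hr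
  obtain ⟨ρ₀, hρφ, hρs⟩ := ext0 S Γ
  choose d1 hd1 hd1' using fun (i : Fin (m + 1)) (j : ℕ) =>
    extL (τ := (Fin h × ℕ) ⊕ (Fin c × ℕ)) (d₀ i j) (fun _ => 0)
  choose d2 hd2 hd2' using fun (l : Fin h) (j : ℕ) =>
    extL (τ := (Fin h × ℕ) ⊕ (Fin c × ℕ)) (0 : Derivation k F F)
      (Sum.elim (fun q => if q.1 = l ∧ j ≤ q.2 then
        algebraMap (MvPolynomial ((Fin h × ℕ) ⊕ (Fin c × ℕ)) F) (F2 F h c)
          (X (Sum.inl (q.1, q.2 - j))) else 0) fun _ => 0)
  choose d3 hd3 hd3' using fun (a : Fin c) (j : ℕ) =>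
    extL (τ := (Fin h × ℕ) ⊕ (Fin c × ℕ)) (0 : Derivation k F F)
      (Sum.elim (fun _ => 0) fun q => if q.1 = a ∧ q.2 = j then 1 else 0)
  have hinj := IsFractionRing.injective (MvPolynomial ((Fin h × ℕ) ⊕ (Fin c × ℕ)) F)
    (F2 F h c)
  refine ⟨F2 F h c, inferInstance, inferInstance, Arc_main S v r (algebraMap F (F2 F h c))
    (sg F h c) hb hΓ hd₀ hρφ hρs (fun l => ?_) (fun x => ?_) (Sum.elim (Sum.elim d1 d2) d3)
    hd1 (fun i j l => ?_) (fun l j a => ?_) (fun l j l' => ?_) (fun a j x => ?_)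
    (fun a j l => ?_) (zt F h c) (fun p j a => ?_) (fun a j b => ?_) (fun B a h0 => ?_)⟩
  · rw [Arc_sg0]
    exact fun h1 => X_ne_zero (R := F) _ (hinj (h1.trans (map_zero _).symm))
  · exact (IsScalarTower.algebraMap_apply k F (F2 F h c) x).symm
  · ext n
    change PowerSeries.coeff n (cder (d1 i j) (sg F h c l)) = _
    unfold cder sg
    rw [PowerSeries.coeff_mk, PowerSeries.coeff_mk, hd1', map_zero]
  · exact (hd2 l j a).trans (map_zero _)
  · ext n
    change PowerSeries.coeff n (cder (d2 l j) (sg F h c l')) = _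
    unfold cder
    rw [PowerSeries.coeff_mk]
    have h1 : ∀ q, PowerSeries.coeff q (sg F h c l') =
      algebraMap (MvPolynomial ((Fin h × ℕ) ⊕ (Fin c × ℕ)) F) (F2 F h c)
        (X (Sum.inl (l', q))) := fun q => PowerSeries.coeff_mk _ _
    rw [h1, hd2']
    change (if l' = l ∧ j ≤ n then _ else _) = _
    by_cases hl : l' = l
    · rw [if_pos hl, PowerSeries.coeff_X_pow_mul', h1]
      by_cases hn : j ≤ n
      · rw [if_pos ⟨hl, hn⟩, if_pos hn]
      · rw [if_neg fun h2 => hn h2.2, if_neg hn]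
    · rw [if_neg hl, if_neg fun h2 => hl h2.1, map_zero]
  · exact (hd3 a j x).trans (map_zero _)
  · ext n
    change PowerSeries.coeff n (cder (d3 a j) (sg F h c l)) = _
    unfold cder sg
    rw [PowerSeries.coeff_mk, PowerSeries.coeff_mk, hd3', map_zero]
    rfl
  · ext n
    unfold cder zt
    rw [PowerSeries.coeff_mk, PowerSeries.coeff_mk, map_zero]
    rcases p with i | l
    · exact hd1' i j _
    · exact hd2' l j _
  · ext n
    change PowerSeries.coeff n (cder (d3 a j) (zt F h c b)) = _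
    unfold cder zt
    rw [PowerSeries.coeff_mk, PowerSeries.coeff_mk, hd3']
    change (if b = a ∧ n = j then (1 : F2 F h c) else 0) = _
    by_cases hl : a = b
    · rw [if_pos hl, PowerSeries.coeff_X_pow]
      by_cases hn : n = j
      · rw [if_pos ⟨hl.symm, hn⟩, if_pos hn]
      · rw [if_neg fun h2 => hn h2.2, if_neg hn]
    · rw [if_neg hl, if_neg fun h2 => hl h2.1.symm, map_zero]
  · have h1 : (fun l => PowerSeries.constantCoeff (sg F h c l)) = fun l =>
        algebraMap (MvPolynomial ((Fin h × ℕ) ⊕ (Fin c × ℕ)) F) (F2 F h c)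
          (X (Sum.inl (l, 0))) := funext fun l => Arc_sg0 F l
    rw [h1] at h0
    exact Arc_ind (algebraMap (MvPolynomial ((Fin h × ℕ) ⊕ (Fin c × ℕ)) F) (F2 F h c)) hinj
      (fun l => Sum.inl (l, 0)) (fun l l' hl => (Prod.mk.inj (Sum.inl.inj hl)).1) B a h0

end Pool.Agent.MLD.Cox
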