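import Pool.Agent.Lib.MP_f23696_ag.Y.DerSel

/-!
Project COX, module DerSel2: variant of `derSel` (the excess may be negative).

Proof.  Exactly the proof of `derSel` (DerSel.lean; copy it, its private lemmas too, with new
names): with `V = π(DV w)`: `n' ≤ dim (DV w) ≤ dim V + e` (`kdim` and step (1)), and
`dim V ≤ |ρ| (N + 1)`: this is the first claim.  If `|ρ| (N + 1) + e ≤ n' + b` then
`|ρ| (N + 1) + e ≤ dim V + e + b`, so `|ρ| (N + 1) ≤ dim V + b`, and `subdet` with `a := b ≤ N`
gives the second claim.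
-/

set_option autoImplicit false

namespace Pool.Agent.MLD.Cox

open MvPolynomial
open scoped PowerSeries

universe u v w

/-- a derivation acts on the coefficients of a truncated series -/
private theorem DerSel2_cder_trS {k : Type u} {κ : Type v} [Field k] [Field κ] [Algebra k κ]
    {N : ℕ} (d : Derivation k κ κ) (z : Fin (N + 1) → κ) :
    cder d (trS z) = trS fun l => d (z l) := by
  ext n
  unfold cder trS
  rw [PowerSeries.coeff_mk, PowerSeries.coeff_mk, PowerSeries.coeff_mk]
  split_ifs with h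
  · rfl
  · exact map_zero d

private theorem DerSel2_trS_eq {κ : Type v} [CommRing κ] {N : ℕ} (z : Fin (N + 1) → κ) :
    trS z = ∑ l, PowerSeries.C (z l) * (PowerSeries.X : κ⟦X⟧) ^ (l : ℕ) := by
  ext n
  unfold trS
  rw [PowerSeries.coeff_mk, map_sum]
  by_cases h : n < N + 1
  · rw [dif_pos h, Finset.sum_eq_single (⟨n, h⟩ : Fin (N + 1))]
    · rw [PowerSeries.coeff_C_mul, PowerSeries.coeff_X_pow, if_pos rfl, mul_one]
    · intro l _ hl
      rw [PowerSeries.coeff_C_mul, PowerSeries.coeff_X_pow, if_neg, mul_zero]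
      intro h1
      exact hl (Fin.ext h1.symm)
    · intro h1
      exact absurd (Finset.mem_univ _) h1
  · rw [dif_neg h]
    symm
    refine Finset.sum_eq_zero fun l _ => ?_
    rw [PowerSeries.coeff_C_mul, PowerSeries.coeff_X_pow, if_neg, mul_zero]
    intro h1
    exact h (h1 ▸ l.2)

private theorem DerSel2_comb {κ : Type v} [Field κ] {c N : ℕ} (M : Matrix (Fin c) (Fin c) κ⟦X⟧)
    (z : Fin c × Fin (N + 1) → κ) (q : Fin c × Fin (N + 1)) :
    Fintype.linearCombination κ (rowT N M.transpose) z q =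
      PowerSeries.coeff (q.2 : ℕ) (∑ a, M q.1 a * trS fun l => z (a, l)) := by
  rw [Fintype.linearCombination_apply, Finset.sum_apply, Fintype.sum_prod_type, map_sum]
  refine Finset.sum_congr rfl fun a _ => ?_
  rw [DerSel2_trS_eq, Finset.mul_sum, map_sum]
  refine Finset.sum_congr rfl fun l _ => ?_
  rw [Pi.smul_apply, smul_eq_mul]
  unfold rowT
  rw [Matrix.transpose_apply, mul_left_comm, PowerSeries.coeff_C_mul, mul_comm (M q.1 a)]

theorem derSel2 {k : Type u} {κ : Type v} [Field k] [CharZero k] [Field κ] [Algebra k κ]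
    {ρ : Type w} [Fintype ρ] [DecidableEq ρ] {c N : ℕ} (f : Fin c → MvPolynomial (ρ ⊕ Fin c) k)
    (r : ρ ⊕ Fin c → ℤ) (β : Fin c → ℤ) (hf : ∀ j, Low r (β j) (f j))
    (w : (ρ ⊕ Fin c) × Fin (N + 1) → κ)
    (hy : ∀ j, (PowerSeries.X : κ⟦X⟧) ^ (N + 1) ∣
      tev r (β j) (f j) (fun i => trS fun l => w (i, l)))
    (e : ℕ) (he : ∃ s ≤ e, PowerSeries.coeff s
      (tev r (∑ j, β j - ∑ a, r (Sum.inr a)) (jd f) (fun i => trS fun l => w (i, l))) ≠ 0)
    (n' : ℕ)
    (hn : TD (RingHom.ker (aeval w : MvPolynomial ((ρ ⊕ Fin c) × Fin (N + 1)) k →ₐ[k] κ)) n') :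
    n' ≤ Fintype.card ρ * (N + 1) + e ∧
      ∀ b : ℕ, Fintype.card ρ * (N + 1) + e ≤ n' + b → b ≤ N →
        ∃ d : ρ → Derivation k κ κ, ∃ s ≤ b, PowerSeries.coeff s
          (Matrix.det (Matrix.of fun i i' =>
            cder (d i) (trS fun l => w (Sum.inl i', l)))) ≠ 0 := by
  classical
  obtain ⟨y, hyd⟩ : ∃ y : ρ ⊕ Fin c → κ⟦X⟧, y = fun i => trS fun l => w (i, l) := ⟨_, rfl⟩
  rw [← hyd] at he
  have hy' : ∀ j, (PowerSeries.X : κ⟦X⟧) ^ (N + 1) ∣ tev r (β j) (f j) y := by
    intro j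
    rw [hyd]
    exact hy j
  obtain ⟨M, hM⟩ : ∃ M : Matrix (Fin c) (Fin c) κ⟦X⟧, M = Matrix.of fun j a =>
    tev r (β j - r (Sum.inr a)) (pderiv (Sum.inr a) (f j)) y := ⟨_, rfl⟩
  have hdet : ∃ s ≤ e, PowerSeries.coeff s M.transpose.det ≠ 0 := by
    obtain ⟨s, hs, h1⟩ := he
    refine ⟨s, hs, ?_⟩
    rw [Matrix.det_transpose, hM, tev_det r β f hf y]
    exact h1
  have hlat := lat N M.transpose e hdet
  rw [Fintype.card_fin] at hlat
  let Φ := Fintype.linearCombination κ (rowT N M.transpose)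
  have hΦr : Module.finrank κ (LinearMap.range Φ) + Module.finrank κ (LinearMap.ker Φ) =
      c * (N + 1) := by
    rw [LinearMap.finrank_range_add_finrank_ker, Module.finrank_fintype_fun_eq_card,
      Fintype.card_prod, Fintype.card_fin, Fintype.card_fin]
  have hΦ2 : LinearMap.range Φ = Submodule.span κ (Set.range (rowT N M.transpose)) :=
    Fintype.range_linearCombination κ _
  have hker : Module.finrank κ (LinearMap.ker Φ) ≤ e := by
    rw [hΦ2] at hΦr
    omega
  let W : Submodule κ ((ρ ⊕ Fin c) × Fin (N + 1) → κ) := DV (k := k) w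
  let π : ((ρ ⊕ Fin c) × Fin (N + 1) → κ) →ₗ[κ] (ρ × Fin (N + 1) → κ) :=
    LinearMap.funLeft κ κ fun p => (Sum.inl p.1, p.2)
  let π' : ((ρ ⊕ Fin c) × Fin (N + 1) → κ) →ₗ[κ] (Fin c × Fin (N + 1) → κ) :=
    LinearMap.funLeft κ κ fun p => (Sum.inr p.1, p.2)
  have hπ : ∀ z i l, π z (i, l) = z (Sum.inl i, l) := fun z i l => rfl
  have hπ' : ∀ z i l, π' z (i, l) = z (Sum.inr i, l) := fun z i l => rfl
  -- the key computation
  have key : ∀ z ∈ W, π z = 0 → Φ (π' z) = 0 := by
    intro z hz hz0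
    obtain ⟨d, hd⟩ := (mem_DV w z).1 hz
    funext q
    rw [Pi.zero_apply]
    have h1 : Φ (π' z) q = PowerSeries.coeff (q.2 : ℕ)
        (∑ a, M q.1 a * trS fun l => π' z (a, l)) := DerSel2_comb M (π' z) q
    have hcy : ∀ i, cder d (y i) = trS fun l => z (i, l) := by
      intro i
      rw [hyd, DerSel2_cder_trS]
      congr 1
      funext l
      exact (hd (i, l)).symm
    have h2 := tev_cder d r (β q.1) (f q.1) (hf q.1) y
    rw [Fintype.sum_sum_type] at h2
    have h3 : ∀ i : ρ, cder d (y (Sum.inl i)) = 0 := by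
      intro i
      rw [hcy]
      ext n
      unfold trS
      rw [PowerSeries.coeff_mk, map_zero]
      split_ifs with h
      · exact congrFun hz0 (i, ⟨n, h⟩)
      · rfl
    have h4 : ∑ i : ρ, tev r (β q.1 - r (Sum.inl i)) (pderiv (Sum.inl i) (f q.1)) y *
        cder d (y (Sum.inl i)) = 0 := by
      refine Finset.sum_eq_zero fun i _ => ?_
      rw [h3, mul_zero]
    rw [h4, zero_add] at h2
    have h5 : ∑ a, M q.1 a * (trS fun l => π' z (a, l)) =
        cder d (tev r (β q.1) (f q.1) y) := by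
      rw [h2]
      refine Finset.sum_congr rfl fun a _ => ?_
      rw [hcy, hM, Matrix.of_apply]
      rfl
    rw [h1, h5]
    unfold cder
    rw [PowerSeries.coeff_mk]
    obtain ⟨g, hg⟩ := hy' q.1
    rw [hg, PowerSeries.coeff_X_pow_mul', if_neg (not_le.2 q.2.2), map_zero]
  let g : W →ₗ[κ] (ρ × Fin (N + 1) → κ) := π.domRestrict W
  let F : LinearMap.ker g →ₗ[κ] LinearMap.ker Φ :=
    ((π'.domRestrict W).domRestrict (LinearMap.ker g)).codRestrict (LinearMap.ker Φ)
      fun z => by
        rw [LinearMap.mem_ker]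
        exact key _ z.1.2 z.2
  have hF : Function.Injective F := by
    rw [injective_iff_map_eq_zero]
    intro z hz
    have h1 : π' (z.1.1) = 0 := congrArg Subtype.val hz
    have h2 : π (z.1.1) = 0 := z.2
    apply Subtype.ext
    apply Subtype.ext
    funext p
    obtain ⟨i, l⟩ := p
    rcases i with i | i
    · exact congrFun h2 (i, l)
    · exact congrFun h1 (i, l)
  have h1 : Module.finrank κ (LinearMap.ker g) ≤ e :=
    (LinearMap.finrank_le_finrank_of_injective hF).trans hker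
  have h2 : Module.finrank κ (LinearMap.range g) + Module.finrank κ (LinearMap.ker g) =
      Module.finrank κ W := LinearMap.finrank_range_add_finrank_ker g
  have h3 : n' ≤ Module.finrank κ W := kdim w n' hn
  have h3' : Module.finrank κ (LinearMap.range g) ≤ Fintype.card ρ * (N + 1) := by
    refine (Submodule.finrank_le _).trans ?_
    rw [Module.finrank_fintype_fun_eq_card, Fintype.card_prod, Fintype.card_fin]
  refine ⟨by omega, fun b hb hbN => ?_⟩
  have h4 : Fintype.card ρ * (N + 1) ≤ Module.finrank κ (LinearMap.range g) + b := by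
    omega
  obtain ⟨z, hz, s, hs, hdz⟩ := subdet (LinearMap.range g) b hbN h4
  have hz' : ∀ i, ∃ d : Derivation k κ κ, ∀ i' l, z i (i', l) = d (w (Sum.inl i', l)) := by
    intro i
    obtain ⟨v, hv⟩ := hz i
    obtain ⟨d, hd⟩ := (mem_DV w v.1).1 v.2
    refine ⟨d, fun i' l => ?_⟩
    rw [← hv]
    exact hd (Sum.inl i', l)
  choose d hd using hz'
  refine ⟨d, s, hs, ?_⟩
  have h5 : (Matrix.of fun i i' => cder (d i) (trS fun l => w (Sum.inl i', l))) =
      Matrix.of fun i i' => trS fun l => z i (i', l) := by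
    ext1 i i'
    rw [Matrix.of_apply, Matrix.of_apply, DerSel2_cder_trS]
    congr 1
    funext l
    exact (hd i i' l).symm
  rw [h5]
  exact hdz

end Pool.Agent.MLD.Cox
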