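import Pool.Agent.Lib.MP_f23696_ag.Y.TwA
import Pool.Agent.Lib.MP_f23696_ag.Hahn
import Pool.Agent.Lib.MP_f23696_ag.Jind

/-!
Project COX, module Emb: a nondegenerate twisted arc embeds the function field.

Write `Ω = HahnSeries ℤ κ` (a field), `ξ i = tz κ (r i) * toL (y i) ∈ Ω`, `I = ker (aeval x) =
span (range f)`.

Proof.  (1) `aeval ξ (f j) = tz β_j * toL (tev r (β j) (f j) y) = 0` (`tev_laurent`), so
`aeval ξ : MvPolynomial σ k → Ω` kills `I`.
(2) The elements `ξ (inl i)`, `i ∈ ρ`, are algebraically independent over `k`.  Let `d̂ i` be the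
derivation of `Ω` acting on the coefficients by `d i` (`Hahn.exists_der` and the next theorem in
Hahn.lean); `d̂ i (ξ (inl i')) = tz (r (inl i')) * toL (cder (d i) (y (inl i')))`, so
`det (d̂ i (ξ (inl i'))) = (∏ tz ..) * toL (det (cder ..)) ≠ 0`.  A polynomial `F ≠ 0` of least total
degree with `F(ξ ∘ inl) = 0` gives, applying `d̂ i`, `∑_i' (∂_i' F)(ξ ∘ inl) d̂ i (ξ (inl i')) = 0`,
so all `∂_i' F` vanish at `ξ ∘ inl`, so `∂_i' F = 0`, `F` is constant (characteristic zero),
contradiction.
(3) The `x (inl i)` are algebraically independent over `k` in `L`: if `F(x ∘ inl) = 0` then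
`rename inl F ∈ I`, so `F(ξ ∘ inl) = 0` by (1), so `F = 0` by (2).  Their number is the
transcendence degree of `L`, so they form a transcendence basis of `L/k`.
(4) The homomorphism `φ₀ : B = k[x] → Ω` (`B = Algebra.adjoin k (range x) ≅ MvPolynomial σ k ⧸ I`)
induced by `aeval ξ` is injective: let `0 ≠ b ∈ B`, `φ₀ b = 0`; `b` is algebraic over `k(x ∘ inl)`,
clearing denominators `∑_(s ≤ p) a_s b^s = 0` with `a_s ∈ k[x ∘ inl]`, `a_0 ≠ 0` (divide by a power
of `b`); so `φ₀ a_0 = 0`, `a_0 = F(x ∘ inl)`, `F ≠ 0`, `F(ξ ∘ inl) = 0`, contradiction to (2).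
(5) `L` is the fraction field of `B` (`hgen`), so `φ₀` extends to `L → Ω`.
-/

set_option autoImplicit false

namespace Pool.Agent.MLD.Cox

open MvPolynomial
open scoped PowerSeries

universe u v w

/-- Jacobian criterion with maps which are only known to be additive -/
private theorem Emb_jac {k : Type u} {L : Type v} [Field k] [CharZero k] [Field L] [Algebra k L]
    {n : ℕ} (E : Fin n → L → L) (hadd : ∀ i x y, E i (x + y) = E i x + E i y)
    (hmul : ∀ i x y, E i (x * y) = x * E i y + y * E i x)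
    (hk : ∀ i c, E i (algebraMap k L c) = 0) (a : Fin n → L)
    (h : Matrix.det (Matrix.of fun i j => E i (a j)) ≠ 0) : AlgebraicIndependent k a := by
  let D : Fin n → Derivation k L L := fun i => Derivation.mk' (R := k)
    { toFun := E i
      map_add' := hadd i
      map_smul' := fun c x => by
        rw [Algebra.smul_def, hmul, hk, mul_zero, add_zero, RingHom.id_apply, Algebra.smul_def] }
    (fun x y => by
      simp only [LinearMap.coe_mk, AddHom.coe_mk, smul_eq_mul]
      exact hmul i x y)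
  exact jac_indep D a h

private theorem Emb_jac' {k : Type u} {κ : Type v} [Field k] [CharZero k] [Field κ] [Algebra k κ]
    {n : ℕ} (E : Fin n → HahnSeries ℤ κ → HahnSeries ℤ κ)
    (hadd : ∀ i x y, E i (x + y) = E i x + E i y)
    (hmul : ∀ i x y, E i (x * y) = x * E i y + y * E i x)
    (hk : ∀ i c, E i (algebraMap k (HahnSeries ℤ κ) c) = 0) (a : Fin n → HahnSeries ℤ κ)
    (h : Matrix.det (Matrix.of fun i j => E i (a j)) ≠ 0) : AlgebraicIndependent k a :=
  Emb_jac (L := HahnSeries ℤ κ) E hadd hmul hk a h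

private theorem Emb_E0 {k : Type u} [Field k] {Γ : Type w} [AddCommMonoid Γ] [PartialOrder Γ]
    [IsOrderedCancelAddMonoid Γ] {R : Type v} [CommRing R] [Algebra k R] (Δ : Derivation k R R) :
    ∃ E : HahnSeries Γ R → HahnSeries Γ R, (∀ x y, E (x + y) = E x + E y) ∧
      (∀ x y, E (x * y) = x * E y + y * E x) ∧ ∀ f γ, (E f).coeff γ = Δ (f.coeff γ) := by
  obtain ⟨E, hE⟩ := hcoef_exists (Γ := Γ) Δ
  exact ⟨fun x => E x, fun x y => map_add E x y, fun x y => E.leibniz x y, hE⟩

/-- the coefficientwise derivation of Laurent series -/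
private theorem Emb_der {k : Type u} {κ : Type v} [Field k] [Field κ] [Algebra k κ]
    (d : Derivation k κ κ) : ∃ E : HahnSeries ℤ κ → HahnSeries ℤ κ,
      (∀ x y, E (x + y) = E x + E y) ∧ (∀ x y, E (x * y) = x * E y + y * E x) ∧
      (∀ c, E (algebraMap k (HahnSeries ℤ κ) c) = 0) ∧
      ∀ (z : ℤ) (f : κ⟦X⟧), E (tz κ z * toL f) = tz κ z * toL (cder d f) := by
  obtain ⟨E, hadd, hmul, hE⟩ := Emb_E0 (Γ := ℤ) d
  refine ⟨E, hadd, hmul, fun c => ?_, fun z f => ?_⟩
  · ext γ
    rw [hE, HahnSeries.algebraMap_apply', PowerSeries.algebraMap_apply,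
      HahnSeries.ofPowerSeries_C, HahnSeries.C_apply, HahnSeries.coeff_single]
    split_ifs
    · simp
    · simp
  · have h1 : E (tz κ z) = 0 := by
      ext γ
      rw [hE]
      unfold tz
      rw [HahnSeries.coeff_single]
      split_ifs
      · simp
      · simp
    have h2 : E (toL f) = toL (cder d f) := by
      ext γ
      rw [hE]
      unfold toL
      by_cases hγ : 0 ≤ γ
      · obtain ⟨n, rfl⟩ := Int.eq_ofNat_of_zero_le hγ
        have h3 := HahnSeries.ofPowerSeries_apply_coeff (Γ := ℤ) f n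
        have h4 := HahnSeries.ofPowerSeries_apply_coeff (Γ := ℤ) (cder d f) n
        rw [h3, h4]
        unfold cder
        rw [PowerSeries.coeff_mk]
      · have h3 : ∀ g : κ⟦X⟧, (HahnSeries.ofPowerSeries ℤ κ g).coeff γ = 0 := by
          intro g
          rw [HahnSeries.ofPowerSeries_apply]
          refine HahnSeries.embDomain_of_notMem_range ?_
          rintro ⟨n, hn⟩
          apply hγ
          rw [← hn]
          exact Int.natCast_nonneg n
        rw [h3, h3, map_zero]
    rw [hmul, h1, h2, mul_zero, add_zero]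

private theorem Emb_tz_ne {κ : Type v} [Field κ] (z : ℤ) : tz κ z ≠ 0 := by
  unfold tz
  exact HahnSeries.single_ne_zero one_ne_zero

/-- the images of the first coordinates are algebraically independent -/
private theorem Emb_indep {k : Type u} {κ : Type v} [Field k] [CharZero k] [Field κ]
    [Algebra k κ] {ρ : Type} [Fintype ρ] [DecidableEq ρ] (r : ρ → ℤ) (y : ρ → κ⟦X⟧)
    (d : ρ → Derivation k κ κ)
    (hd : Matrix.det (Matrix.of fun i i' => cder (d i) (y i')) ≠ 0) :
    AlgebraicIndependent k fun i : ρ => tz κ (r i) * toL (y i) := by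
  choose E hadd hmul hk hE using fun i => Emb_der (d i)
  obtain ⟨e⟩ : Nonempty (Fin (Fintype.card ρ) ≃ ρ) := ⟨(Fintype.equivFin ρ).symm⟩
  have hdet : Matrix.det (Matrix.of fun i i' => E i (tz κ (r i') * toL (y i'))) ≠ 0 := by
    have h3 : (Matrix.of fun i i' => E i (tz κ (r i') * toL (y i'))) =
        Matrix.of fun i i' => tz κ (r i') *
          (HahnSeries.ofPowerSeries ℤ κ).mapMatrix
            (Matrix.of fun i i' => cder (d i) (y i')) i i' := by
      ext i i' : 2
      rw [Matrix.of_apply, Matrix.of_apply, hE]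
      rfl
    rw [h3, Matrix.det_mul_row, ← RingHom.map_det]
    refine mul_ne_zero (Finset.prod_ne_zero_iff.mpr fun i _ => Emb_tz_ne _) ?_
    intro h4
    apply hd
    apply HahnSeries.ofPowerSeries_injective (Γ := ℤ) (R := κ)
    rw [h4, map_zero]
  have h1 : AlgebraicIndependent k
      (fun i : Fin (Fintype.card ρ) => tz κ (r (e i)) * toL (y (e i))) := by
    refine Emb_jac' (fun i => E (e i)) (fun i => hadd (e i)) (fun i => hmul (e i))
      (fun i => hk (e i)) _ ?_
    have h2 : (Matrix.of fun i j => E (e i) (tz κ (r (e j)) * toL (y (e j)))) =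
        (Matrix.of fun i i' => E i (tz κ (r i') * toL (y i'))).submatrix e e := rfl
    rw [h2, Matrix.det_submatrix_equiv_self]
    exact hdet
  exact (algebraicIndependent_equiv' e (f := fun i : ρ => tz κ (r i) * toL (y i)) rfl).mp h1

theorem emb {k : Type u} {L : Type w} {κ : Type v} [Field k] [CharZero k] [Field L] [Algebra k L]
    [Field κ] [Algebra k κ] {ρ : Type} [Fintype ρ] [DecidableEq ρ] {c : ℕ}
    (x : ρ ⊕ Fin c → L) (hgen : IntermediateField.adjoin k (Set.range x) = ⊤)
    (f : Fin c → MvPolynomial (ρ ⊕ Fin c) k)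
    (hker : RingHom.ker (aeval x : MvPolynomial (ρ ⊕ Fin c) k →ₐ[k] L) =
      Ideal.span (Set.range f))
    (htr : Algebra.trdeg k L = Fintype.card ρ)
    (r : ρ ⊕ Fin c → ℤ) (β : Fin c → ℤ) (hf : ∀ j, Low r (β j) (f j)) (y : ρ ⊕ Fin c → κ⟦X⟧)
    (hy : ∀ j, tev r (β j) (f j) y = 0) (d : ρ → Derivation k κ κ)
    (hd : Matrix.det (Matrix.of fun i i' => cder (d i) (y (Sum.inl i'))) ≠ 0) :
    ∃ φ : L →ₐ[k] HahnSeries ℤ κ, ∀ i, φ (x i) = tz κ (r i) * toL (y i) := by
  classical
  obtain ⟨ξ, hξ⟩ : ∃ ξ : ρ ⊕ Fin c → HahnSeries ℤ κ, ξ = fun i => tz κ (r i) * toL (y i) :=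
    ⟨_, rfl⟩
  -- (1)
  have hkill : ∀ G : MvPolynomial (ρ ⊕ Fin c) k, aeval x G = 0 → aeval ξ G = 0 := by
    intro G hG
    have h1 : G ∈ Ideal.span (Set.range f) := by
      rw [← hker, RingHom.mem_ker]
      exact hG
    have h2 : Ideal.span (Set.range f) ≤
        RingHom.ker (aeval ξ : MvPolynomial (ρ ⊕ Fin c) k →ₐ[k] HahnSeries ℤ κ) := by
      rw [Ideal.span_le]
      rintro _ ⟨j, rfl⟩
      rw [SetLike.mem_coe, RingHom.mem_ker]
      have h3 := tev_laurent r (β j) (f j) (hf j) y
      rw [hy j] at h3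
      rw [hξ]
      have h4 : toL (0 : κ⟦X⟧) = 0 := map_zero (HahnSeries.ofPowerSeries ℤ κ)
      rw [h4, mul_zero] at h3
      exact h3
    exact RingHom.mem_ker.mp (h2 h1)
  -- (2)
  have hindξ : AlgebraicIndependent k (fun i : ρ => ξ (Sum.inl i)) := by
    rw [hξ]
    exact Emb_indep (fun i => r (Sum.inl i)) (fun i => y (Sum.inl i)) d hd
  -- (3)
  have hindx : AlgebraicIndependent k (fun i : ρ => x (Sum.inl i)) := by
    rw [algebraicIndependent_iff]
    intro F hF
    have h1 := hkill (rename Sum.inl F) (by rw [aeval_rename]; exact hF)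
    rw [aeval_rename] at h1
    exact (algebraicIndependent_iff.mp hindξ) F h1
  have hbas : IsTranscendenceBasis k (fun i : ρ => x (Sum.inl i)) := by
    refine hindx.isTranscendenceBasis_of_lift_trdeg_le_of_finite ?_
    rw [htr]
    simp
  have halg := hbas.isAlgebraic
  -- (4)
  have hinj : ∀ G : MvPolynomial (ρ ⊕ Fin c) k, aeval ξ G = 0 → aeval x G = 0 := by
    intro G hG
    by_contra hb
    obtain ⟨t, ht, a, ha, hta⟩ := (halg.isAlgebraic (aeval x G)).exists_nonzero_eq_adjoin_mul
      (mem_nonZeroDivisors_of_ne_zero hb)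
    -- elements of the base are polynomials in `x ∘ inl`
    have hA : ∀ a : Algebra.adjoin k (Set.range fun i : ρ => x (Sum.inl i)),
        ∃ F : MvPolynomial ρ k, aeval (fun i => x (Sum.inl i)) F = (a : L) := by
      intro a
      have h1 : (a : L) ∈ (aeval (R := k) (fun i : ρ => x (Sum.inl i))).range := by
        rw [← Algebra.adjoin_range_eq_range_aeval]
        exact a.2
      exact h1
    -- `t` is a polynomial in `x`
    have hT : ∃ H : MvPolynomial (ρ ⊕ Fin c) k, aeval x H = t := by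
      clear hta
      induction ht using Algebra.adjoin_induction with
      | mem u hu =>
        rw [Set.mem_singleton_iff] at hu
        exact ⟨G, hu.symm⟩
      | algebraMap b =>
        obtain ⟨F, hF⟩ := hA b
        exact ⟨rename Sum.inl F, by rw [aeval_rename]; exact hF⟩
      | add u v _ _ hu hv =>
        obtain ⟨P, rfl⟩ := hu
        obtain ⟨Q, rfl⟩ := hv
        exact ⟨P + Q, map_add _ _ _⟩
      | mul u v _ _ hu hv =>
        obtain ⟨P, rfl⟩ := hu
        obtain ⟨Q, rfl⟩ := hv
        exact ⟨P * Q, map_mul _ _ _⟩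
    obtain ⟨H, rfl⟩ := hT
    obtain ⟨F, hF⟩ := hA a
    have h1 : aeval x (G * H - rename Sum.inl F) = 0 := by
      rw [map_sub, map_mul, hta, aeval_rename, sub_eq_zero]
      exact hF.symm
    have h2 := hkill _ h1
    rw [map_sub, map_mul, hG, zero_mul, zero_sub, neg_eq_zero, aeval_rename] at h2
    have h3 := (algebraicIndependent_iff.mp hindξ) F h2
    apply ha
    rw [h3, map_zero] at hF
    exact Subtype.ext hF.symm
  -- (5)
  let g : MvPolynomial (ρ ⊕ Fin c) k →ₐ[k] (aeval (R := k) x).range := (aeval x).rangeRestrict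
  have hg : Function.Surjective g := AlgHom.rangeRestrict_surjective _
  have hgx : ∀ P, ((g P : (aeval (R := k) x).range) : L) = aeval x P := fun P => rfl
  let q := Ideal.quotientKerAlgEquivOfSurjective hg
  let φ₁ : (MvPolynomial (ρ ⊕ Fin c) k ⧸ RingHom.ker g) →ₐ[k] HahnSeries ℤ κ :=
    Ideal.Quotient.liftₐ (RingHom.ker g) (aeval ξ) fun P hP => by
      refine hkill P ?_
      rw [← hgx, RingHom.mem_ker.mp hP]
      rfl
  let φ₀ : (aeval (R := k) x).range →ₐ[k] HahnSeries ℤ κ := φ₁.comp (q.symm : _ →ₐ[k] _)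
  have hφ₀ : ∀ P, φ₀ (g P) = aeval ξ P := by
    intro P
    have h1 : q.symm (g P) = Ideal.Quotient.mk _ P := by
      rw [AlgEquiv.symm_apply_eq]
      rfl
    change φ₁ (q.symm (g P)) = aeval ξ P
    rw [h1]
    rfl
  have hφ₀i : Function.Injective φ₀ := by
    rw [injective_iff_map_eq_zero]
    intro b hb
    obtain ⟨P, rfl⟩ := hg b
    rw [hφ₀] at hb
    exact Subtype.ext (hinj P hb)
  have hfrac : IsFractionRing (aeval (R := k) x).range L := by
    refine IsFractionRing.of_field _ _ fun z => ?_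
    have hz : z ∈ IntermediateField.adjoin k (Set.range x) := by
      rw [hgen]
      trivial
    rw [IntermediateField.mem_adjoin_range_iff] at hz
    obtain ⟨P, Q, h1⟩ := hz
    exact ⟨g P, g Q, h1⟩
  refine ⟨IsFractionRing.liftAlgHom hφ₀i, fun i => ?_⟩
  have h1 : x i = algebraMap (aeval (R := k) x).range L (g (X i)) := by
    change x i = aeval x (X i : MvPolynomial (ρ ⊕ Fin c) k)
    rw [aeval_X]
  rw [h1, IsFractionRing.liftAlgHom_apply, IsFractionRing.lift_algebraMap]
  change φ₀ (g (X i)) = _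
  rw [hφ₀, aeval_X, hξ]

end Pool.Agent.MLD.Cox
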