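import Pool.Agent.Lib.MP_f23696_ag.Y.Defs

/-!
Project COX, module Newton: Newton's method (Tougeron) for `c` equations with power series
coefficients, in the last `c` unknowns.

Proof.  Write `t = X`.  Let `M` be the `c × c` matrix `M j a = (∂F_j/∂Y_(inr a))(y)`,
`d = det M = t^e * unit`, `M' = (unit)⁻¹ • adjugate M`, so `M * M' = M' * M = t^e`.
`F_j(y) = t^l p_j`.  We look for `y' = y + h`, `h_i = 0` for `i = inl _`, `h_(inr a) = t^(l-e) u_a`.
Taylor formula (`F_j` is a polynomial): `F_j(y + h) = F_j(y) + ∑_a M j a h_a + Q_j(h)`, where, for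
`h = t^(l-e) u`, `Q_j(t^(l-e) u) = t^(2(l-e)) q_j(u)` with a polynomial `q_j(u)` over `κ⟦X⟧`
(every term of `Q_j` has degree at least two in `h`).  Since `2(l-e) ≥ l + 1` the equation
`F(y + h) = 0` reads `t^l p + t^(l-e) M u + t^(2(l-e)) q(u) = 0`; multiply by `M'` (injective, as
`det M' ≠ 0`) and divide by `t^l`: `M' p + u + t^(l-2e) M' q(u) = 0`, i.e. `u = Ψ(u)`,
`Ψ(u) = - M' p - t^(l-2e) M' q(u)`, where `l - 2e ≥ 1`.  If `u ≡ u'` modulo `t^s` then
`Ψ(u) ≡ Ψ(u')` modulo `t^(s+1)` (polynomials preserve congruences).  Fixed point: `u_0 = 0`,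
`u_(s+1) = Ψ(u_s)`, so `u_(s+1) ≡ u_s` modulo `t^s`; define `u` by
`coeff s u = coeff s (u_(s+1))`; then `u ≡ u_s` modulo `t^s` for all `s`, so
`Ψ(u) ≡ Ψ(u_s) = u_(s+1) ≡ u` modulo `t^s` for all `s`, i.e. `Ψ(u) = u`.

The Taylor formula with remainder may be obtained as follows: for a polynomial `G` over a
commutative ring `A` and `y, u : σ → A`, `T ∈ A`:
`∃ q, eval (y + T u) G = eval y G + T * ∑_i u_i eval y (pderiv i G) + T^2 * q` and, to have the
dependence of `q` on `u`: let `q = eval (y + T u) ...`; more convenient: for two vectors `u, u'`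
congruent modulo `t^s` with `T = t^(l-e)`: `G(y + T u') - G(y + T u) - T ∑_i (u'_i - u_i) ∂_i G(y)`
is divisible by `T^2 t^s` (write `u' = u + t^s v` and apply the formula
`G(z + B v) ≡ G(z) + B ∑ v_i ∂_i G(z) mod B^2`, `z = y + T u`, `B = T t^s`, together with
`∂_i G(y + T u) ≡ ∂_i G(y) mod T`).  One can also argue by induction on the polynomial
(`MvPolynomial.induction_on`).
-/

set_option autoImplicit false

namespace Pool.Agent.MLD.Cox

open MvPolynomial
open scoped PowerSeries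

universe u v w

private theorem newton_taylor {A : Type*} [CommRing A] {σ : Type*} [Fintype σ]
    (G : MvPolynomial σ A) (z w : σ → A) (B : A) :
    ∃ q, eval (fun i => z i + B * w i) G =
      eval z G + B * ∑ i, w i * eval z (pderiv i G) + B ^ 2 * q := by
  classical
  induction G using MvPolynomial.induction_on with
  | C a => exact ⟨0, by simp⟩
  | add p q hp hq =>
    obtain ⟨a, ha⟩ := hp
    obtain ⟨b, hb⟩ := hq
    refine ⟨a + b, ?_⟩
    simp only [map_add, mul_add, Finset.sum_add_distrib]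
    rw [ha, hb]
    ring
  | mul_X p n hp =>
    obtain ⟨a, ha⟩ := hp
    refine ⟨a * z n + (∑ i, w i * eval z (pderiv i p)) * w n + B * a * w n, ?_⟩
    have h1 : ∑ i, w i * eval z (pderiv i (p * X n)) =
        (∑ i, w i * eval z (pderiv i p)) * z n + eval z p * w n := by
      have h2 : ∀ i, w i * eval z (pderiv i (p * X n)) =
          w i * eval z (pderiv i p) * z n + eval z p * (if i = n then w i else 0) := by
        intro i
        rw [Derivation.leibniz, pderiv_X, smul_eq_mul, smul_eq_mul, map_add, map_mul, map_mul,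
          eval_X]
        by_cases h : i = n
        · subst h
          rw [Pi.single_eq_same, map_one, if_pos rfl]
          ring
        · rw [Pi.single_eq_of_ne (Ne.symm h), map_zero, if_neg h]
          ring
      rw [Finset.sum_congr rfl fun i _ => h2 i, Finset.sum_add_distrib, ← Finset.sum_mul,
        ← Finset.mul_sum, Finset.sum_ite_eq' Finset.univ n w, if_pos (Finset.mem_univ n)]
    rw [h1, map_mul, map_mul, eval_X, eval_X, ha]
    ring

private theorem newton_congr {A : Type*} [CommRing A] {σ : Type*} [Fintype σ]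
    (G : MvPolynomial σ A) {z z' : σ → A} {B : A} (h : ∀ i, B ∣ z' i - z i) :
    B ∣ eval z' G - eval z G := by
  choose w hw using h
  obtain ⟨q, hq⟩ := newton_taylor G z w B
  have h1 : (fun i => z i + B * w i) = z' := by
    funext i
    rw [← hw i]
    ring
  rw [h1] at hq
  rw [hq]
  exact ⟨∑ i, w i * eval z (pderiv i G) + B * q, by ring⟩

theorem newton {κ : Type u} [Field κ] {ρ : Type w} [Fintype ρ] {c : ℕ}
    (F : Fin c → MvPolynomial (ρ ⊕ Fin c) κ⟦X⟧) (y : ρ ⊕ Fin c → κ⟦X⟧) (e l : ℕ) (hl : 2 * e < l)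
    (hdet0 : ∀ i < e, PowerSeries.coeff i
      (Matrix.det (Matrix.of fun j a => eval y (pderiv (Sum.inr a) (F j)))) = 0)
    (hdet : PowerSeries.coeff e
      (Matrix.det (Matrix.of fun j a => eval y (pderiv (Sum.inr a) (F j)))) ≠ 0)
    (hF : ∀ j, (PowerSeries.X : κ⟦X⟧) ^ l ∣ eval y (F j)) :
    ∃ y' : ρ ⊕ Fin c → κ⟦X⟧, (∀ j, eval y' (F j) = 0) ∧ (∀ i, y' (Sum.inl i) = y (Sum.inl i)) ∧
      ∀ i, (PowerSeries.X : κ⟦X⟧) ^ (l - e) ∣ y' i - y i := by
  classical
  obtain ⟨M, hM⟩ : ∃ M : Matrix (Fin c) (Fin c) κ⟦X⟧,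
      M = Matrix.of fun j a => eval y (pderiv (Sum.inr a) (F j)) := ⟨_, rfl⟩
  rw [← hM] at hdet0 hdet
  obtain ⟨t, ht⟩ : ∃ t : κ⟦X⟧, t = PowerSeries.X := ⟨_, rfl⟩
  obtain ⟨g, hg⟩ : t ^ e ∣ M.det := by
    rw [ht]
    exact PowerSeries.X_pow_dvd_iff.mpr hdet0
  have hgu : IsUnit g := by
    rw [PowerSeries.isUnit_iff_constantCoeff, isUnit_iff_ne_zero]
    intro h0
    apply hdet
    rw [hg, ht]
    have h1 := PowerSeries.coeff_X_pow_mul g e 0
    rw [zero_add] at h1
    rw [h1, PowerSeries.coeff_zero_eq_constantCoeff_apply, h0]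
  obtain ⟨g', hg'⟩ := hgu.exists_right_inv
  -- the matrix `M'`
  obtain ⟨M', hM'⟩ : ∃ M' : Matrix (Fin c) (Fin c) κ⟦X⟧, M * M' = (t ^ e) • 1 := by
    refine ⟨g' • M.adjugate, ?_⟩
    rw [Matrix.mul_smul, Matrix.mul_adjugate, smul_smul, hg]
    congr 1
    linear_combination (t ^ e) * hg'
  -- the points
  obtain ⟨E, hE⟩ : ∃ E : (Fin c → κ⟦X⟧) → (ρ ⊕ Fin c → κ⟦X⟧),
      E = fun u => Sum.elim (fun _ => 0) u := ⟨_, rfl⟩
  obtain ⟨pt, hpt⟩ : ∃ pt : (Fin c → κ⟦X⟧) → (ρ ⊕ Fin c → κ⟦X⟧),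
      pt = fun u i => y i + t ^ (l - e) * E u i := ⟨_, rfl⟩
  have hptT : ∀ u i, t ^ (l - e) ∣ pt u i - y i := by
    intro u i
    rw [hpt]
    exact ⟨E u i, by ring⟩
  have step : ∀ (s : ℕ) (u : Fin c → κ⟦X⟧), (∀ j, t ^ (l + s) ∣ eval (pt u) (F j)) →
      ∃ u' : Fin c → κ⟦X⟧, (∀ j, t ^ (l + (s + 1)) ∣ eval (pt u') (F j)) ∧
        ∀ a, t ^ s ∣ u' a - u a := by
    intro s u hu
    choose r hr using hu
    obtain ⟨v, hv⟩ : ∃ v : Fin c → κ⟦X⟧, v = -(M'.mulVec r) := ⟨_, rfl⟩
    have hMv : M.mulVec v = -(t ^ e • r) := by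
      rw [hv, Matrix.mulVec_neg, Matrix.mulVec_mulVec, hM', Matrix.smul_mulVec,
        Matrix.one_mulVec]
    refine ⟨fun a => u a + t ^ s * v a, ?_, fun a => ⟨v a, by ring⟩⟩
    intro j
    obtain ⟨q, hq⟩ := newton_taylor (F j) (pt u) (E v) (t ^ (l - e + s))
    have h1 : (fun i => pt u i + t ^ (l - e + s) * E v i) = pt (fun a => u a + t ^ s * v a) := by
      rw [hpt, hE]
      funext i
      cases i with
      | inl i => simp
      | inr a =>
        simp only [Sum.elim_inr]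
        ring
    rw [h1] at hq
    have h2 : ∑ i, E v i * eval (pt u) (pderiv i (F j)) =
        ∑ a, v a * eval (pt u) (pderiv (Sum.inr a) (F j)) := by
      rw [Fintype.sum_sum_type, hE]
      simp
    have h3 : ∀ a, ∃ b, eval (pt u) (pderiv (Sum.inr a) (F j)) = M j a + t ^ (l - e) * b := by
      intro a
      obtain ⟨b, hb⟩ := newton_congr (pderiv (Sum.inr a) (F j)) (fun i => hptT u i)
      refine ⟨b, ?_⟩
      rw [hM, Matrix.of_apply]
      linear_combination hb
    choose b hb using h3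
    have h4 : ∑ a, v a * eval (pt u) (pderiv (Sum.inr a) (F j)) =
        -(t ^ e * r j) + t ^ (l - e) * ∑ a, v a * b a := by
      have h5 := congrFun hMv j
      rw [Matrix.mulVec, dotProduct, Pi.neg_apply, Pi.smul_apply, smul_eq_mul] at h5
      rw [← h5, Finset.mul_sum, ← Finset.sum_add_distrib]
      refine Finset.sum_congr rfl fun a _ => ?_
      rw [hb a]
      ring
    have e1 : t ^ (l + s) = t ^ (l - e + s) * t ^ e := by
      rw [← pow_add]
      congr 1
      omega
    have e2 : t ^ (l - e + s) * t ^ (l - e) = t ^ (l + (s + 1)) * t ^ (l - 2 * e - 1) := by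
      rw [← pow_add, ← pow_add]
      congr 1
      omega
    have e3 : (t ^ (l - e + s)) ^ 2 = t ^ (l + (s + 1)) * t ^ (l - 2 * e - 1 + s) := by
      rw [← pow_mul, ← pow_add]
      congr 1
      omega
    refine ⟨t ^ (l - 2 * e - 1) * (∑ a, v a * b a) + t ^ (l - 2 * e - 1 + s) * q, ?_⟩
    rw [hq, h2, h4, hr j]
    linear_combination (r j) * e1 + (∑ a, v a * b a) * e2 + q * e3
  choose! f hf1 hf2 using step
  obtain ⟨U, hU0, hUs⟩ : ∃ U : ℕ → (Fin c → κ⟦X⟧), U 0 = 0 ∧ ∀ s, U (s + 1) = f s (U s) :=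
    ⟨fun n => Nat.rec 0 (fun s u => f s u) n, rfl, fun s => rfl⟩
  have hpt0 : pt 0 = y := by
    rw [hpt, hE]
    funext i
    cases i with
    | inl i => simp
    | inr a => simp
  have hU : ∀ s j, t ^ (l + s) ∣ eval (pt (U s)) (F j) := by
    intro s
    induction s with
    | zero =>
      intro j
      rw [hU0, hpt0, add_zero, ht]
      exact hF j
    | succ s ih =>
      intro j
      rw [hUs]
      exact hf1 s (U s) ih j
  have hUU : ∀ s a, t ^ s ∣ U (s + 1) a - U s a := by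
    intro s a
    rw [hUs]
    exact hf2 s (U s) (hU s) a
  have hUk : ∀ m k a, t ^ m ∣ U (m + k) a - U m a := by
    intro m k a
    induction k with
    | zero => simp
    | succ k ih =>
      have h1 := (pow_dvd_pow t (Nat.le_add_right m k)).trans (hUU (m + k) a)
      have h2 := dvd_add h1 ih
      have h3 : U (m + k + 1) a - U (m + k) a + (U (m + k) a - U m a) =
          U (m + (k + 1)) a - U m a := by
        rw [← add_assoc m k 1]
        ring
      rwa [h3] at h2
  obtain ⟨W, hW⟩ : ∃ W : Fin c → κ⟦X⟧,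
      W = fun a => PowerSeries.mk fun n => PowerSeries.coeff n (U (n + 1) a) := ⟨_, rfl⟩
  have hWU : ∀ s a, t ^ s ∣ W a - U s a := by
    intro s a
    rw [ht, PowerSeries.X_pow_dvd_iff]
    intro m hm
    obtain ⟨k, rfl⟩ : ∃ k, s = m + 1 + k := ⟨s - (m + 1), by omega⟩
    have h1 := hUk (m + 1) k a
    rw [ht, PowerSeries.X_pow_dvd_iff] at h1
    have h2 := h1 m (Nat.lt_succ_self m)
    rw [map_sub] at h2 ⊢
    rw [hW, PowerSeries.coeff_mk]
    rw [sub_eq_zero] at h2 ⊢
    exact h2.symm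
  refine ⟨pt W, ?_, ?_, ?_⟩
  · intro j
    ext n
    rw [map_zero]
    have h1 : t ^ (n + 1) ∣ eval (pt W) (F j) - eval (pt (U (n + 1))) (F j) := by
      refine newton_congr (F j) fun i => ?_
      obtain ⟨w, hw⟩ : t ^ (n + 1) ∣ E W i - E (U (n + 1)) i := by
        rw [hE]
        cases i with
        | inl i => simp
        | inr a =>
          simp only [Sum.elim_inr]
          exact hWU (n + 1) a
      rw [hpt]
      refine ⟨t ^ (l - e) * w, ?_⟩
      linear_combination (t ^ (l - e)) * hw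
    have h2 : t ^ (n + 1) ∣ eval (pt (U (n + 1))) (F j) :=
      (pow_dvd_pow t (by omega)).trans (hU (n + 1) j)
    have h3 := dvd_add h1 h2
    rw [sub_add_cancel, ht, PowerSeries.X_pow_dvd_iff] at h3
    exact h3 n (Nat.lt_succ_self n)
  · intro i
    rw [hpt, hE]
    simp
  · intro i
    rw [← ht]
    exact hptT W i

end Pool.Agent.MLD.Cox
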