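import Pool.Agent.Lib.MP_f23696_ag.Y.KrullS

/-!
Project COX, module Tm: prolongation of a prime ideal of `N₀`-jets to `N`-jets.

`up : Jet σ N₀ k → Jet σ N k` is `rename` along `(i, l) ↦ (i, l)`.  Proof: apply `extend` to
`e (i, l) = (i, Fin.castLE l)` and to an enumeration `f` of the `|σ| (N - N₀)` pairs `(i, l)` with
`N₀ < l ≤ N`, with `P = ker (evJ N δ)` (prime, as `κ` is a field;
`evJ N δ (rename e g) = evJ N₀ δ g`, by
`aeval_rename`), then `krullS` to the `c (N - N₀)` polynomials `g j l` (index type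
`Fin (c * (N - N₀))` via `finProdFinEquiv`), with the given bound for `TD`.
-/

set_option autoImplicit false

namespace Pool.Agent.MLD.Cox

open MvPolynomial
open scoped PowerSeries

universe u v w

/-- the inclusion of `N₀`-jets into `N`-jets -/
noncomputable def up {σ : Type w} {k : Type u} [CommRing k] {N₀ N : ℕ} (h : N₀ ≤ N) :
    Jet σ N₀ k →ₐ[k] Jet σ N k :=
  rename fun p => (p.1, Fin.castLE (Nat.succ_le_succ h) p.2)

theorem evJ_up {σ : Type w} {k : Type u} {R : Type v} [CommRing k] [CommRing R] [Algebra k R]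
    {N₀ N : ℕ} (h : N₀ ≤ N) (y : σ → R⟦X⟧) (g : Jet σ N₀ k) :
    evJ N y (up h g) = evJ N₀ y g := by
  unfold evJ up
  rw [aeval_rename]
  rfl

theorem tm {k : Type u} [Field k] {κ : Type v} [Field κ] [Algebra k κ] {σ : Type w} [Fintype σ]
    {N₀ N c : ℕ} (h : N₀ ≤ N) (δ : σ → κ⟦X⟧) (T : Ideal (Jet σ N₀ k)) (hT : T.IsPrime)
    (hTδ : ∀ g ∈ T, evJ N₀ δ g = 0) (g : Fin c → ℕ → Jet σ N k)
    (hg : ∀ j l, N₀ < l → l ≤ N → evJ N δ (g j l) = 0) (n n' : ℕ) (hn : TD T n)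
    (hn' : n' + c * (N - N₀) ≤ n + Fintype.card σ * (N - N₀)) :
    ∃ T' : Ideal (Jet σ N k), T'.IsPrime ∧ (∀ g ∈ T', evJ N δ g = 0) ∧
      (∀ g ∈ T, up h g ∈ T') ∧ (∀ j l, N₀ < l → l ≤ N → g j l ∈ T') ∧ TD T' n' := by
  have hker : (RingHom.ker (evJ N δ : Jet σ N k →ₐ[k] κ)).IsPrime := RingHom.ker_isPrime _
  have he : Function.Injective
      (fun p : σ × Fin (N₀ + 1) => (p.1, Fin.castLE (Nat.succ_le_succ h) p.2)) := by
    rintro ⟨i, a⟩ ⟨j, b⟩ hab
    rw [Prod.mk.injEq] at hab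
    exact Prod.ext hab.1 (Fin.castLE_injective (Nat.succ_le_succ h) hab.2)
  have hlt : ∀ b : Fin (N - N₀), N₀ + 1 + (b : ℕ) < N + 1 := fun b => by
    have := b.2
    omega
  let f : Fin (Fintype.card σ * (N - N₀)) → σ × Fin (N + 1) := fun x =>
    ((Fintype.equivFin σ).symm (finProdFinEquiv.symm x).1,
      ⟨N₀ + 1 + ((finProdFinEquiv.symm x).2 : ℕ), hlt _⟩)
  have hf : Function.Injective f := by
    intro x x' hxx
    have h1 := congrArg Prod.fst hxx
    have h2 := congrArg (fun z : σ × Fin (N + 1) => (z.2 : ℕ)) hxx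
    change N₀ + 1 + ((finProdFinEquiv.symm x).2 : ℕ) =
      N₀ + 1 + ((finProdFinEquiv.symm x').2 : ℕ) at h2
    have h3 := (Fintype.equivFin σ).symm.injective h1
    have h4 : (finProdFinEquiv.symm x).2 = (finProdFinEquiv.symm x').2 :=
      Fin.ext (Nat.add_left_cancel h2)
    exact finProdFinEquiv.symm.injective (Prod.ext h3 h4)
  have hef : ∀ i j, (fun p : σ × Fin (N₀ + 1) =>
      (p.1, Fin.castLE (Nat.succ_le_succ h) p.2)) i ≠ f j := by
    intro i j hij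
    have h2 := congrArg (fun z : σ × Fin (N + 1) => (z.2 : ℕ)) hij
    change (i.2 : ℕ) = N₀ + 1 + ((finProdFinEquiv.symm j).2 : ℕ) at h2
    have h3 := i.2.2
    omega
  obtain ⟨T0, hT0, hT0P, hT0T, hT0n⟩ := extend _ he f hf hef T hT
    (RingHom.ker (evJ N δ : Jet σ N k →ₐ[k] κ)) (fun g hg => by
      rw [RingHom.mem_ker]
      exact (evJ_up h δ g).trans (hTδ g hg)) n hn
  obtain ⟨Z, hZ, h1, h2, h3, h4⟩ := krullS (c * (N - N₀)) T0
    (RingHom.ker (evJ N δ : Jet σ N k →ₐ[k] κ)) hT0 hker hT0P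
    (fun x => g (finProdFinEquiv.symm x).1 (N₀ + 1 + ((finProdFinEquiv.symm x).2 : ℕ)))
    (fun x => by
      rw [RingHom.mem_ker]
      have := (finProdFinEquiv.symm x).2.2
      exact hg _ _ (by omega) (by omega)) n' (hT0n.mono hn')
  refine ⟨Z, hZ, fun g hg => h2 hg, fun g hg => h1 (hT0T g hg), fun j l hl hl' => ?_, h4⟩
  have h5 := h3 (finProdFinEquiv (j, ⟨l - (N₀ + 1), by omega⟩))
  rw [Equiv.symm_apply_apply] at h5
  change g j (N₀ + 1 + (l - (N₀ + 1))) ∈ Z at h5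
  rwa [Nat.add_sub_cancel' (Nat.succ_le_of_lt hl)] at h5

end Pool.Agent.MLD.Cox
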