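import Pool.Agent.Lib.MP_f23696_ag.Y.TwA

/-!
Project COX, module TwB: derivatives and Jacobian determinants of twisted polynomials.

* `low_pderiv`: a monomial of `pderiv i G` is `d - e_i` for a monomial `d` of `G` with `d i > 0`,
  and `wt r (d - e_i) = wt r d - r i`.
* `tp_pderiv`: compare the monomials:
  `pderiv i (monomial d a) = monomial (d - e_i) (a * d i)`, `(wt r (d - e_i) - (β - r i)) =
  wt r d - β` for `d i > 0`.  (The support of `pderiv i G` may be smaller than the set of the
  `d - e_i`; sum over a larger finite set: `tp r β G` may be written as a sum over any finite set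
  containing the support.)
* `tev_cder`: `cder d` is a derivation of `R⟦X⟧` (Leibniz rule coefficientwise) with
  `cder d (C (algebraMap k R a)) = 0` and `cder d (X ^ n) = 0`; apply it to `tev_eq`; or use the
  chain rule for polynomials with coefficients in the kernel and `tp_pderiv`.
* `eval_map_tp`, `eval_map_pderiv`: by definition of `tev`, `eval₂_eq_eval_map`, `pderiv_map`,
  `tp_pderiv`.
* `low_det`: the determinant is a sum of signed products of the `pderiv (inr a) (f j)`; a product of
  polynomials with weights at least `β_1`, `β_2` has weights at least `β_1 + β_2` (monomials of a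
  product are sums of monomials), a sum keeps the bound.
* `tev_det`: multiply by `t`-powers in `HahnSeries ℤ R` and use `tev_laurent`: the left side times
  `t^(∑ β - ∑ r (inr a))` is the determinant of the matrix with entries
  `t^(β j - r (inr a)) toL (tev ...) = aeval (t^r y) (pderiv (inr a) (f j))`, that is
  `aeval (t^r y) (det ...)`, which is `t^(..) toL (tev .. (det ..))` by `tev_laurent` and
  `low_det`; `tz` is invertible and `toL` injective.
-/

set_option autoImplicit false

namespace Pool.Agent.MLD.Cox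

open MvPolynomial
open scoped PowerSeries

universe u v w

/-! ### auxiliary facts: the twisted polynomial is additive and multiplicative -/

section Aux

variable {σ : Type w} [Fintype σ] {k : Type u} [CommRing k]

/-- the twisted monomial -/
private noncomputable def TwB_tm (r : σ → ℤ) (β : ℤ) (d : σ →₀ ℕ) (a : k) :
    MvPolynomial σ k⟦X⟧ :=
  monomial d (PowerSeries.C a * (PowerSeries.X : k⟦X⟧) ^ (wt r d - β).toNat)

private theorem TwB_tm_zero (r : σ → ℤ) (β : ℤ) (d : σ →₀ ℕ) :
    TwB_tm r β d (0 : k) = 0 := by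
  unfold TwB_tm
  rw [map_zero, zero_mul, monomial_zero]

private theorem TwB_tm_add (r : σ → ℤ) (β : ℤ) (d : σ →₀ ℕ) (a b : k) :
    TwB_tm r β d (a + b) = TwB_tm r β d a + TwB_tm r β d b := by
  unfold TwB_tm
  rw [map_add, add_mul, map_add]

private theorem TwB_tp_sub (r : σ → ℤ) (β : ℤ) (G : MvPolynomial σ k) {s : Finset (σ →₀ ℕ)}
    (hs : G.support ⊆ s) : tp r β G = ∑ d ∈ s, TwB_tm r β d (coeff d G) := by
  unfold tp
  refine Finset.sum_subset hs fun d _ hd => ?_
  have h1 : coeff d G = 0 := notMem_support_iff.mp hd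
  rw [h1]
  exact TwB_tm_zero r β d

private theorem TwB_tp_add (r : σ → ℤ) (β : ℤ) (G H : MvPolynomial σ k) :
    tp r β (G + H) = tp r β G + tp r β H := by
  classical
  rw [TwB_tp_sub r β (G + H) support_add,
    TwB_tp_sub r β G (Finset.subset_union_left (s₂ := H.support)),
    TwB_tp_sub r β H (Finset.subset_union_right (s₁ := G.support)), ← Finset.sum_add_distrib]
  refine Finset.sum_congr rfl fun d _ => ?_
  rw [coeff_add, TwB_tm_add]

private theorem TwB_tp_monomial (r : σ → ℤ) (β : ℤ) (d : σ →₀ ℕ) (a : k) :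
    tp r β (monomial d a) = TwB_tm r β d a := by
  classical
  rw [TwB_tp_sub r β (monomial d a) support_monomial_subset, Finset.sum_singleton,
    coeff_monomial, if_pos rfl]

private theorem TwB_tp_zero (r : σ → ℤ) (β : ℤ) : tp r β (0 : MvPolynomial σ k) = 0 := by
  unfold tp
  rw [support_zero, Finset.sum_empty]

/-- the twist as an additive map -/
private noncomputable def TwB_tpH (r : σ → ℤ) (β : ℤ) :
    MvPolynomial σ k →+ MvPolynomial σ k⟦X⟧ where
  toFun := tp r β
  map_zero' := TwB_tp_zero r β
  map_add' := TwB_tp_add r β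

private theorem TwB_tp_sum {ι : Type*} (r : σ → ℤ) (β : ℤ) (s : Finset ι)
    (G : ι → MvPolynomial σ k) : tp r β (∑ i ∈ s, G i) = ∑ i ∈ s, tp r β (G i) :=
  map_sum (TwB_tpH r β) G s

private theorem TwB_wt_add (r : σ → ℤ) (d e : σ →₀ ℕ) : wt r (d + e) = wt r d + wt r e := by
  unfold wt
  rw [← Finset.sum_add_distrib]
  refine Finset.sum_congr rfl fun i _ => ?_
  rw [Finsupp.add_apply, Nat.cast_add, add_mul]

private theorem TwB_wt_single [DecidableEq σ] (r : σ → ℤ) (i : σ) :
    wt r (Finsupp.single i 1) = r i := by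
  unfold wt
  rw [Finset.sum_eq_single i]
  · simp
  · intro j _ hj
    rw [Finsupp.single_eq_of_ne hj, Nat.cast_zero, zero_mul]
  · intro h
    exact absurd (Finset.mem_univ i) h

private theorem TwB_wt_sub [DecidableEq σ] (r : σ → ℤ) {d : σ →₀ ℕ} {i : σ} (hd : d i ≠ 0) :
    wt r (d - Finsupp.single i 1) = wt r d - r i := by
  have h1 : d - Finsupp.single i 1 + Finsupp.single i 1 = d := by
    refine tsub_add_cancel_of_le ?_
    rw [Finsupp.single_le_iff]
    omega
  have h2 := TwB_wt_add r (d - Finsupp.single i 1) (Finsupp.single i 1)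
  rw [h1, TwB_wt_single] at h2
  linarith

private theorem TwB_tm_mul (r : σ → ℤ) {β β' : ℤ} {d e : σ →₀ ℕ} (hd : β ≤ wt r d)
    (he : β' ≤ wt r e) (a b : k) :
    TwB_tm r (β + β') (d + e) (a * b) = TwB_tm r β d a * TwB_tm r β' e b := by
  unfold TwB_tm
  rw [monomial_mul, TwB_wt_add]
  have h1 : (wt r d + wt r e - (β + β')).toNat = (wt r d - β).toNat + (wt r e - β').toNat := by
    rw [← Int.toNat_add (by linarith) (by linarith)]
    congr 1
    ring
  rw [h1, pow_add]
  congr 1
  rw [map_mul]
  ring

private theorem TwB_tp_mul (r : σ → ℤ) {β β' : ℤ} {G H : MvPolynomial σ k} (hG : Low r β G)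
    (hH : Low r β' H) : tp r (β + β') (G * H) = tp r β G * tp r β' H := by
  have h1 : G * H = ∑ d ∈ G.support, ∑ e ∈ H.support,
      monomial (d + e) (coeff d G * coeff e H) := by
    conv_lhs => rw [G.as_sum, H.as_sum]
    rw [Finset.sum_mul_sum]
    refine Finset.sum_congr rfl fun d _ => Finset.sum_congr rfl fun e _ => ?_
    rw [monomial_mul]
  rw [h1, TwB_tp_sum, TwB_tp_sub r β G (Finset.Subset.refl _),
    TwB_tp_sub r β' H (Finset.Subset.refl _), Finset.sum_mul_sum]
  refine Finset.sum_congr rfl fun d hd => ?_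
  rw [TwB_tp_sum]
  refine Finset.sum_congr rfl fun e he => ?_
  rw [TwB_tp_monomial, TwB_tm_mul r (hG d hd) (hH e he)]

private theorem TwB_tp_one (r : σ → ℤ) : tp r 0 (1 : MvPolynomial σ k) = 1 := by
  have h1 : (1 : MvPolynomial σ k) = monomial 0 1 := rfl
  rw [h1, TwB_tp_monomial]
  unfold TwB_tm
  have h2 : wt r (0 : σ →₀ ℕ) = 0 := by
    unfold wt
    simp
  rw [h2]
  simp

private theorem TwB_low_zero (r : σ → ℤ) (β : ℤ) : Low r β (0 : MvPolynomial σ k) := by
  intro d hd
  simp at hd

private theorem TwB_low_one (r : σ → ℤ) : Low r 0 (1 : MvPolynomial σ k) := by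
  intro d hd
  have h1 : (1 : MvPolynomial σ k) = monomial 0 1 := rfl
  rw [h1] at hd
  have h2 := Finset.mem_singleton.mp (support_monomial_subset hd)
  rw [h2]
  unfold wt
  simp

private theorem TwB_low_add {r : σ → ℤ} {β : ℤ} {G H : MvPolynomial σ k} (hG : Low r β G)
    (hH : Low r β H) : Low r β (G + H) := by
  classical
  intro d hd
  rcases Finset.mem_union.mp (support_add hd) with h | h
  · exact hG d h
  · exact hH d h

private theorem TwB_low_neg {r : σ → ℤ} {β : ℤ} {G : MvPolynomial σ k} (hG : Low r β G) :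
    Low r β (-G) := by
  intro d hd
  rw [support_neg] at hd
  exact hG d hd

private theorem TwB_low_sum {ι : Type*} {r : σ → ℤ} {β : ℤ} (s : Finset ι)
    {G : ι → MvPolynomial σ k} (hG : ∀ i ∈ s, Low r β (G i)) : Low r β (∑ i ∈ s, G i) := by
  classical
  induction s using Finset.induction_on with
  | empty => simpa using TwB_low_zero r β
  | insert i s hi ih =>
    rw [Finset.sum_insert hi]
    exact TwB_low_add (hG i (Finset.mem_insert_self _ _))
      (ih fun j hj => hG j (Finset.mem_insert_of_mem hj))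

private theorem TwB_low_mul {r : σ → ℤ} {β β' : ℤ} {G H : MvPolynomial σ k} (hG : Low r β G)
    (hH : Low r β' H) : Low r (β + β') (G * H) := by
  classical
  intro d hd
  obtain ⟨a, ha, b, hb, rfl⟩ := Finset.mem_add.mp (support_mul G H hd)
  rw [TwB_wt_add]
  exact add_le_add (hG a ha) (hH b hb)

private theorem TwB_prod {ι : Type*} (r : σ → ℤ) (s : Finset ι) (b : ι → ℤ)
    (P : ι → MvPolynomial σ k) (h : ∀ a ∈ s, Low r (b a) (P a)) :
    Low r (∑ a ∈ s, b a) (∏ a ∈ s, P a) ∧
      tp r (∑ a ∈ s, b a) (∏ a ∈ s, P a) = ∏ a ∈ s, tp r (b a) (P a) := by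
  classical
  induction s using Finset.induction_on with
  | empty => exact ⟨by simpa using TwB_low_one r, by simpa using TwB_tp_one r⟩
  | insert i s hi ih =>
    obtain ⟨h1, h2⟩ := ih fun j hj => h j (Finset.mem_insert_of_mem hj)
    have h3 := h i (Finset.mem_insert_self _ _)
    rw [Finset.sum_insert hi, Finset.prod_insert hi, Finset.prod_insert hi]
    exact ⟨TwB_low_mul h3 h1, by rw [TwB_tp_mul r h3 h1, h2]⟩

end Aux

section General

variable {σ : Type w} [Fintype σ] {k : Type u} {R : Type v} [CommRing k] [CommRing R]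
  [Algebra k R]

theorem low_pderiv (r : σ → ℤ) (β : ℤ) (G : MvPolynomial σ k) (hG : Low r β G) (i : σ) :
    Low r (β - r i) (pderiv i G) := by
  classical
  intro e he
  rw [G.as_sum, map_sum] at he
  obtain ⟨d, hd, hde⟩ := Finset.mem_biUnion.mp (support_sum he)
  rw [pderiv_monomial] at hde
  have h1 := Finset.mem_singleton.mp (support_monomial_subset hde)
  have h2 : d i ≠ 0 := by
    intro h0
    rw [h0, Nat.cast_zero, mul_zero, monomial_zero, support_zero] at hde
    exact absurd hde (Finset.notMem_empty _)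
  rw [h1, TwB_wt_sub r h2]
  linarith [hG d hd]

theorem tp_pderiv (r : σ → ℤ) (β : ℤ) (G : MvPolynomial σ k) (hG : Low r β G) (i : σ) :
    pderiv i (tp r β G) = tp r (β - r i) (pderiv i G) := by
  classical
  have h1 : pderiv i G = ∑ d ∈ G.support,
      monomial (d - Finsupp.single i 1) (coeff d G * d i) := by
    conv_lhs => rw [G.as_sum, map_sum]
    refine Finset.sum_congr rfl fun d _ => ?_
    rw [pderiv_monomial]
  rw [h1, TwB_tp_sum, TwB_tp_sub r β G (Finset.Subset.refl _), map_sum]
  refine Finset.sum_congr rfl fun d _ => ?_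
  rw [TwB_tp_monomial]
  unfold TwB_tm
  rw [pderiv_monomial]
  by_cases h2 : d i = 0
  · rw [h2]
    simp
  · rw [TwB_wt_sub r h2, sub_sub_sub_cancel_right]
    congr 1
    rw [map_mul, map_natCast]
    ring

theorem tev_cder (d : Derivation k R R) (r : σ → ℤ) (β : ℤ) (G : MvPolynomial σ k)
    (hG : Low r β G) (y : σ → R⟦X⟧) :
    cder d (tev r β G y) = ∑ i, tev r (β - r i) (pderiv i G) y * cder d (y i) := by
  classical
  -- the derivation of the ring of power series
  have hadd : ∀ f g : R⟦X⟧, cder d (f + g) = cder d f + cder d g := by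
    intro f g
    ext n
    simp [cder]
  have hmul : ∀ f g : R⟦X⟧, cder d (f * g) = f * cder d g + cder d f * g := by
    intro f g
    ext n
    rw [map_add]
    unfold cder
    rw [PowerSeries.coeff_mk, PowerSeries.coeff_mul, PowerSeries.coeff_mul,
      PowerSeries.coeff_mul, map_sum, ← Finset.sum_add_distrib]
    refine Finset.sum_congr rfl fun x _ => ?_
    rw [Derivation.leibniz, smul_eq_mul, smul_eq_mul, PowerSeries.coeff_mk,
      PowerSeries.coeff_mk]
    ring
  have hz : cder d (0 : R⟦X⟧) = 0 := by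
    ext n
    simp [cder]
  have hconst : ∀ a : k⟦X⟧, cder d (PowerSeries.map (algebraMap k R) a) = 0 := by
    intro a
    ext n
    simp [cder]
  -- the chain rule
  have key : ∀ P : MvPolynomial σ k⟦X⟧,
      cder d (eval₂ (PowerSeries.map (algebraMap k R)) y P) =
        ∑ i, eval₂ (PowerSeries.map (algebraMap k R)) y (pderiv i P) * cder d (y i) := by
    intro P
    induction P using MvPolynomial.induction_on with
    | C a =>
      rw [eval₂_C, hconst]
      symm
      refine Finset.sum_eq_zero fun i _ => ?_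
      rw [pderiv_C, eval₂_zero, zero_mul]
    | add P Q hP hQ =>
      rw [eval₂_add, hadd, hP, hQ, ← Finset.sum_add_distrib]
      refine Finset.sum_congr rfl fun i _ => ?_
      rw [map_add, eval₂_add, add_mul]
    | mul_X P m hP =>
      rw [eval₂_mul, eval₂_X, hmul, hP]
      have h1 : ∀ i, eval₂ (PowerSeries.map (algebraMap k R)) y (pderiv i (P * X m)) *
          cder d (y i) = eval₂ (PowerSeries.map (algebraMap k R)) y P *
          (if i = m then cder d (y i) else 0) +
          eval₂ (PowerSeries.map (algebraMap k R)) y (pderiv i P) * cder d (y i) * y m := by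
        intro i
        rw [Derivation.leibniz, smul_eq_mul, smul_eq_mul, eval₂_add, eval₂_mul, eval₂_mul,
          eval₂_X]
        by_cases him : i = m
        · subst him
          rw [pderiv_X_self, eval₂_one, if_pos rfl]
          ring
        · rw [pderiv_X_of_ne (fun h => him h.symm), eval₂_zero, if_neg him]
          ring
      rw [Finset.sum_congr rfl fun i _ => h1 i, Finset.sum_add_distrib, ← Finset.mul_sum,
        ← Finset.sum_mul]
      simp
  have h2 := key (tp r β G)
  unfold tev
  rw [h2]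
  refine Finset.sum_congr rfl fun i _ => ?_
  rw [tp_pderiv r β G hG i]

theorem eval_map_tp (r : σ → ℤ) (β : ℤ) (G : MvPolynomial σ k) (y : σ → R⟦X⟧) :
    eval y (map (PowerSeries.map (algebraMap k R)) (tp r β G)) = tev r β G y := by
  rw [MvPolynomial.eval_map]
  rfl

theorem eval_map_pderiv (r : σ → ℤ) (β : ℤ) (G : MvPolynomial σ k) (hG : Low r β G) (i : σ)
    (y : σ → R⟦X⟧) :
    eval y (pderiv i (map (PowerSeries.map (algebraMap k R)) (tp r β G))) =
      tev r (β - r i) (pderiv i G) y := by
  rw [pderiv_map, tp_pderiv r β G hG i, eval_map_tp]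

end General

section Det

variable {ρ : Type w} [Fintype ρ] {c : ℕ} {k : Type u} {R : Type v} [CommRing k] [CommRing R]
  [Algebra k R]

/-- the Jacobian determinant of `f` with respect to the last `c` variables -/
noncomputable def jd (f : Fin c → MvPolynomial (ρ ⊕ Fin c) k) : MvPolynomial (ρ ⊕ Fin c) k :=
  Matrix.det (Matrix.of fun j a => pderiv (Sum.inr a) (f j))

theorem low_det (r : ρ ⊕ Fin c → ℤ) (β : Fin c → ℤ) (f : Fin c → MvPolynomial (ρ ⊕ Fin c) k)
    (hf : ∀ j, Low r (β j) (f j)) :
    Low r (∑ j, β j - ∑ a, r (Sum.inr a)) (jd f) := by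
  classical
  unfold jd
  rw [Matrix.det_apply]
  refine TwB_low_sum _ fun τ _ => ?_
  have h1 : Low r (∑ j, β j - ∑ a, r (Sum.inr a))
      (∏ a, (Matrix.of fun j a => pderiv (Sum.inr a) (f j)) (τ a) a) := by
    have h2 := (TwB_prod r Finset.univ (fun a => β (τ a) - r (Sum.inr a))
      (fun a => pderiv (Sum.inr a) (f (τ a)))
      (fun a _ => low_pderiv r (β (τ a)) (f (τ a)) (hf (τ a)) (Sum.inr a))).1
    rw [Finset.sum_sub_distrib, Equiv.sum_comp τ β] at h2
    exact h2
  rcases Int.units_eq_one_or (Equiv.Perm.sign τ) with h | h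
  · rw [h, one_smul]
    exact h1
  · rw [h, Units.neg_smul, one_smul]
    exact TwB_low_neg h1

theorem tev_det (r : ρ ⊕ Fin c → ℤ) (β : Fin c → ℤ) (f : Fin c → MvPolynomial (ρ ⊕ Fin c) k)
    (hf : ∀ j, Low r (β j) (f j)) (y : ρ ⊕ Fin c → R⟦X⟧) :
    Matrix.det (Matrix.of fun j a => tev r (β j - r (Sum.inr a)) (pderiv (Sum.inr a) (f j)) y) =
      tev r (∑ j, β j - ∑ a, r (Sum.inr a)) (jd f) y := by
  classical
  unfold jd
  rw [Matrix.det_apply, Matrix.det_apply]
  have hz : ∀ (β : ℤ) (m : ℤ) (G : MvPolynomial (ρ ⊕ Fin c) k),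
      tev r β (m • G) y = m • tev r β G y := by
    intro β m G
    unfold tev
    have h1 : tp r β (m • G) = m • tp r β G := map_zsmul (TwB_tpH r β) m G
    rw [h1]
    exact map_zsmul (eval₂Hom (PowerSeries.map (algebraMap k R)) y) m (tp r β G)
  have hs : tev r (∑ j, β j - ∑ a, r (Sum.inr a))
      (∑ τ : Equiv.Perm (Fin c), Equiv.Perm.sign τ •
        ∏ a, (Matrix.of fun j a => pderiv (Sum.inr a) (f j)) (τ a) a) y =
      ∑ τ : Equiv.Perm (Fin c), tev r (∑ j, β j - ∑ a, r (Sum.inr a))
        (Equiv.Perm.sign τ • ∏ a, (Matrix.of fun j a => pderiv (Sum.inr a) (f j)) (τ a) a) y := by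
    unfold tev
    rw [TwB_tp_sum]
    exact map_sum (eval₂Hom (PowerSeries.map (algebraMap k R)) y) _ _
  rw [hs]
  refine Finset.sum_congr rfl fun τ _ => ?_
  rw [Units.smul_def, Units.smul_def, hz]
  congr 1
  have h2 := (TwB_prod r Finset.univ (fun a => β (τ a) - r (Sum.inr a))
      (fun a => pderiv (Sum.inr a) (f (τ a)))
      (fun a _ => low_pderiv r (β (τ a)) (f (τ a)) (hf (τ a)) (Sum.inr a))).2
  rw [Finset.sum_sub_distrib, Equiv.sum_comp τ β] at h2
  unfold tev
  have h3 : tp r (∑ j, β j - ∑ a, r (Sum.inr a))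
      (∏ a, (Matrix.of fun j a => pderiv (Sum.inr a) (f j)) (τ a) a) =
      ∏ a, tp r (β (τ a) - r (Sum.inr a)) (pderiv (Sum.inr a) (f (τ a))) := h2
  rw [h3]
  exact (map_prod (eval₂Hom (PowerSeries.map (algebraMap k R)) y) _ _).symm

end Det

end Pool.Agent.MLD.Cox
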