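import Pool.Agent.Lib.MP_f23696_ag.Y.TwC
import Pool.Agent.Lib.MP_f23696_ag.Y.TwB
import Pool.Agent.Lib.MP_f23696_ag.Y.Tm

/-!
Project COX, module TwF: more on twisted evaluation.

* Algebra of `tev`: copy the private lemmas of TwB.lean on `tp` (`TwB_tp_add`, `TwB_tp_mul`,
  `TwB_tp_one`, `TwB_low_add`, ...) and apply `eval₂` (or use `tev_eq`).
* `up_coJ`: `coJ N₀ r β G l = coeff l (tev r β G (uJ σ N₀ k))`; `up h` is a `k`-algebra map, so by
  `tev_map'` (or `tev_map`) `up h (coJ N₀ r β G l)` is the coefficient of `t^l` of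
  `tev r β G (map (up h) (uJ σ N₀ k))`, and `X^(N₀+1)` divides
  `map (up h) (uJ σ N₀ k i) - uJ σ N k i`; conclude by `tev_congr`, `l < N₀ + 1`.
* `evJ_res`: both sides are algebra maps `Jet σ N k →ₐ R`, on `X (i, l)`: the coefficient of `t^l`
  of `δ i`, `l ≤ N`, which is `x₀ i` if `l = 0` and `0` otherwise.
* `const_deg0`: by `tev_eq` the constant coefficient of `tev r 0 P δ` is the sum over the monomials
  `d` of `P` with `(wt r d - 0).toNat = 0`, i.e. (as `0 ≤ wt r d`) `wt r d = 0`, of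
  `coeff d P * ∏ (x₀ i)^(d i)`.  By `hP`, `M ≥ 1`: `wt r d = 0` iff `∑ d i * n i = 0` iff `n i = 0`
  for all `i` with `d i ≠ 0`; for the other `d` the product `∏ (x₀ i)^(d i)` vanishes.
* `exists_low`: `Finset.exists_min_image`.
-/

set_option autoImplicit false

namespace Pool.Agent.MLD.Cox

open MvPolynomial
open scoped PowerSeries

universe u v w

/-! ### auxiliary facts: the twisted polynomial is additive and multiplicative -/

section Aux

variable {σ : Type w} [Fintype σ] {k : Type u} [CommRing k]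

/-- the twisted monomial -/
private noncomputable def TwF_tm (r : σ → ℤ) (β : ℤ) (d : σ →₀ ℕ) (a : k) :
    MvPolynomial σ k⟦X⟧ :=
  monomial d (PowerSeries.C a * (PowerSeries.X : k⟦X⟧) ^ (wt r d - β).toNat)

private theorem TwF_tm_zero (r : σ → ℤ) (β : ℤ) (d : σ →₀ ℕ) :
    TwF_tm r β d (0 : k) = 0 := by
  unfold TwF_tm
  rw [map_zero, zero_mul, monomial_zero]

private theorem TwF_tm_add (r : σ → ℤ) (β : ℤ) (d : σ →₀ ℕ) (a b : k) :
    TwF_tm r β d (a + b) = TwF_tm r β d a + TwF_tm r β d b := by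
  unfold TwF_tm
  rw [map_add, add_mul, map_add]

private theorem TwF_tp_sub (r : σ → ℤ) (β : ℤ) (G : MvPolynomial σ k) {s : Finset (σ →₀ ℕ)}
    (hs : G.support ⊆ s) : tp r β G = ∑ d ∈ s, TwF_tm r β d (coeff d G) := by
  unfold tp
  refine Finset.sum_subset hs fun d _ hd => ?_
  have h1 : coeff d G = 0 := notMem_support_iff.mp hd
  rw [h1]
  exact TwF_tm_zero r β d

private theorem TwF_tp_add (r : σ → ℤ) (β : ℤ) (G H : MvPolynomial σ k) :
    tp r β (G + H) = tp r β G + tp r β H := by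
  classical
  rw [TwF_tp_sub r β (G + H) support_add,
    TwF_tp_sub r β G (Finset.subset_union_left (s₂ := H.support)),
    TwF_tp_sub r β H (Finset.subset_union_right (s₁ := G.support)), ← Finset.sum_add_distrib]
  refine Finset.sum_congr rfl fun d _ => ?_
  rw [coeff_add, TwF_tm_add]

private theorem TwF_tp_monomial (r : σ → ℤ) (β : ℤ) (d : σ →₀ ℕ) (a : k) :
    tp r β (monomial d a) = TwF_tm r β d a := by
  classical
  rw [TwF_tp_sub r β (monomial d a) support_monomial_subset, Finset.sum_singleton,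
    coeff_monomial, if_pos rfl]

private theorem TwF_tp_zero (r : σ → ℤ) (β : ℤ) : tp r β (0 : MvPolynomial σ k) = 0 := by
  unfold tp
  rw [support_zero, Finset.sum_empty]

/-- the twist as an additive map -/
private noncomputable def TwF_tpH (r : σ → ℤ) (β : ℤ) :
    MvPolynomial σ k →+ MvPolynomial σ k⟦X⟧ where
  toFun := tp r β
  map_zero' := TwF_tp_zero r β
  map_add' := TwF_tp_add r β

private theorem TwF_tp_sum {ι : Type*} (r : σ → ℤ) (β : ℤ) (s : Finset ι)
    (G : ι → MvPolynomial σ k) : tp r β (∑ i ∈ s, G i) = ∑ i ∈ s, tp r β (G i) :=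
  map_sum (TwF_tpH r β) G s

private theorem TwF_wt_add (r : σ → ℤ) (d e : σ →₀ ℕ) : wt r (d + e) = wt r d + wt r e := by
  unfold wt
  rw [← Finset.sum_add_distrib]
  refine Finset.sum_congr rfl fun i _ => ?_
  rw [Finsupp.add_apply, Nat.cast_add, add_mul]

private theorem TwF_wt_single [DecidableEq σ] (r : σ → ℤ) (i : σ) :
    wt r (Finsupp.single i 1) = r i := by
  unfold wt
  rw [Finset.sum_eq_single i]
  · simp
  · intro j _ hj
    rw [Finsupp.single_eq_of_ne hj, Nat.cast_zero, zero_mul]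
  · intro h
    exact absurd (Finset.mem_univ i) h

private theorem TwF_tm_mul (r : σ → ℤ) {β β' : ℤ} {d e : σ →₀ ℕ} (hd : β ≤ wt r d)
    (he : β' ≤ wt r e) (a b : k) :
    TwF_tm r (β + β') (d + e) (a * b) = TwF_tm r β d a * TwF_tm r β' e b := by
  unfold TwF_tm
  rw [monomial_mul, TwF_wt_add]
  have h1 : (wt r d + wt r e - (β + β')).toNat = (wt r d - β).toNat + (wt r e - β').toNat := by
    rw [← Int.toNat_add (by linarith) (by linarith)]
    congr 1
    ring
  rw [h1, pow_add]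
  congr 1
  rw [map_mul]
  ring

private theorem TwF_tp_mul (r : σ → ℤ) {β β' : ℤ} {G H : MvPolynomial σ k} (hG : Low r β G)
    (hH : Low r β' H) : tp r (β + β') (G * H) = tp r β G * tp r β' H := by
  have h1 : G * H = ∑ d ∈ G.support, ∑ e ∈ H.support,
      monomial (d + e) (coeff d G * coeff e H) := by
    conv_lhs => rw [G.as_sum, H.as_sum]
    rw [Finset.sum_mul_sum]
    refine Finset.sum_congr rfl fun d _ => Finset.sum_congr rfl fun e _ => ?_
    rw [monomial_mul]
  rw [h1, TwF_tp_sum, TwF_tp_sub r β G (Finset.Subset.refl _),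
    TwF_tp_sub r β' H (Finset.Subset.refl _), Finset.sum_mul_sum]
  refine Finset.sum_congr rfl fun d hd => ?_
  rw [TwF_tp_sum]
  refine Finset.sum_congr rfl fun e he => ?_
  rw [TwF_tp_monomial, TwF_tm_mul r (hG d hd) (hH e he)]

private theorem TwF_tp_one (r : σ → ℤ) : tp r 0 (1 : MvPolynomial σ k) = 1 := by
  have h1 : (1 : MvPolynomial σ k) = monomial 0 1 := rfl
  rw [h1, TwF_tp_monomial]
  unfold TwF_tm
  have h2 : wt r (0 : σ →₀ ℕ) = 0 := by
    unfold wt
    simp
  rw [h2]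
  simp

private theorem TwF_low_zero (r : σ → ℤ) (β : ℤ) : Low r β (0 : MvPolynomial σ k) := by
  intro d hd
  simp at hd

private theorem TwF_low_one (r : σ → ℤ) : Low r 0 (1 : MvPolynomial σ k) := by
  intro d hd
  have h1 : (1 : MvPolynomial σ k) = monomial 0 1 := rfl
  rw [h1] at hd
  have h2 := Finset.mem_singleton.mp (support_monomial_subset hd)
  rw [h2]
  unfold wt
  simp

private theorem TwF_low_add {r : σ → ℤ} {β : ℤ} {G H : MvPolynomial σ k} (hG : Low r β G)
    (hH : Low r β H) : Low r β (G + H) := by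
  classical
  intro d hd
  rcases Finset.mem_union.mp (support_add hd) with h | h
  · exact hG d h
  · exact hH d h

private theorem TwF_low_neg {r : σ → ℤ} {β : ℤ} {G : MvPolynomial σ k} (hG : Low r β G) :
    Low r β (-G) := by
  intro d hd
  rw [support_neg] at hd
  exact hG d hd

private theorem TwF_low_sum {ι : Type*} {r : σ → ℤ} {β : ℤ} (s : Finset ι)
    {G : ι → MvPolynomial σ k} (hG : ∀ i ∈ s, Low r β (G i)) : Low r β (∑ i ∈ s, G i) := by
  classical
  induction s using Finset.induction_on with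
  | empty => simpa using TwF_low_zero r β
  | insert i s hi ih =>
    rw [Finset.sum_insert hi]
    exact TwF_low_add (hG i (Finset.mem_insert_self _ _))
      (ih fun j hj => hG j (Finset.mem_insert_of_mem hj))

private theorem TwF_low_mul {r : σ → ℤ} {β β' : ℤ} {G H : MvPolynomial σ k} (hG : Low r β G)
    (hH : Low r β' H) : Low r (β + β') (G * H) := by
  classical
  intro d hd
  obtain ⟨a, ha, b, hb, rfl⟩ := Finset.mem_add.mp (support_mul G H hd)
  rw [TwF_wt_add]
  exact add_le_add (hG a ha) (hH b hb)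

private theorem TwF_prod {ι : Type*} (r : σ → ℤ) (s : Finset ι) (b : ι → ℤ)
    (P : ι → MvPolynomial σ k) (h : ∀ a ∈ s, Low r (b a) (P a)) :
    Low r (∑ a ∈ s, b a) (∏ a ∈ s, P a) ∧
      tp r (∑ a ∈ s, b a) (∏ a ∈ s, P a) = ∏ a ∈ s, tp r (b a) (P a) := by
  classical
  induction s using Finset.induction_on with
  | empty => exact ⟨by simpa using TwF_low_one r, by simpa using TwF_tp_one r⟩
  | insert i s hi ih =>
    obtain ⟨h1, h2⟩ := ih fun j hj => h j (Finset.mem_insert_of_mem hj)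
    have h3 := h i (Finset.mem_insert_self _ _)
    rw [Finset.sum_insert hi, Finset.prod_insert hi, Finset.prod_insert hi]
    exact ⟨TwF_low_mul h3 h1, by rw [TwF_tp_mul r h3 h1, h2]⟩

end Aux

section

variable {σ : Type w} [Fintype σ] {k : Type u} {R : Type v} [CommRing k] [CommRing R] [Algebra k R]

theorem low_zero (r : σ → ℤ) (β : ℤ) : Low r β (0 : MvPolynomial σ k) := by
  exact TwF_low_zero r β

theorem low_one (r : σ → ℤ) : Low r 0 (1 : MvPolynomial σ k) := by
  exact TwF_low_one r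

theorem low_X (r : σ → ℤ) (i : σ) : Low r (r i) (X i : MvPolynomial σ k) := by
  classical
  intro d hd
  have h1 : (X i : MvPolynomial σ k) = monomial (Finsupp.single i 1) 1 := rfl
  rw [h1] at hd
  rw [Finset.mem_singleton.mp (support_monomial_subset hd), TwF_wt_single]

theorem low_C (r : σ → ℤ) (a : k) : Low r 0 (C a : MvPolynomial σ k) := by
  intro d hd
  have h1 : (C a : MvPolynomial σ k) = monomial 0 a := rfl
  rw [h1] at hd
  rw [Finset.mem_singleton.mp (support_monomial_subset hd)]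
  unfold wt
  simp

theorem low_mono {r : σ → ℤ} {β β' : ℤ} (h : β ≤ β') {G : MvPolynomial σ k} (hG : Low r β' G) :
    Low r β G := by
  exact fun d hd => h.trans (hG d hd)

theorem low_add {r : σ → ℤ} {β : ℤ} {G H : MvPolynomial σ k} (hG : Low r β G)
    (hH : Low r β H) : Low r β (G + H) := by
  exact TwF_low_add hG hH

theorem low_sub {r : σ → ℤ} {β : ℤ} {G H : MvPolynomial σ k} (hG : Low r β G)
    (hH : Low r β H) : Low r β (G - H) := by
  rw [sub_eq_add_neg]
  exact TwF_low_add hG (TwF_low_neg hH)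

theorem low_mul {r : σ → ℤ} {β β' : ℤ} {G H : MvPolynomial σ k} (hG : Low r β G)
    (hH : Low r β' H) : Low r (β + β') (G * H) := by
  exact TwF_low_mul hG hH

theorem low_prod {ι : Type*} {r : σ → ℤ} (s : Finset ι) {b : ι → ℤ}
    {P : ι → MvPolynomial σ k} (h : ∀ a ∈ s, Low r (b a) (P a)) :
    Low r (∑ a ∈ s, b a) (∏ a ∈ s, P a) := by
  exact (TwF_prod r s b P h).1

theorem exists_low (r : σ → ℤ) {G : MvPolynomial σ k} (hG : G ≠ 0) :
    ∃ β : ℤ, Low r β G ∧ ∃ d ∈ G.support, wt r d = β := by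
  obtain ⟨d, hd, hmin⟩ := Finset.exists_min_image G.support (wt r)
    (MvPolynomial.support_nonempty.2 hG)
  exact ⟨wt r d, fun e he => hmin e he, d, hd, rfl⟩

theorem tev_zero (r : σ → ℤ) (β : ℤ) (y : σ → R⟦X⟧) :
    tev r β (0 : MvPolynomial σ k) y = 0 := by
  unfold tev
  rw [TwF_tp_zero, eval₂_zero]

theorem tev_one (r : σ → ℤ) (y : σ → R⟦X⟧) : tev r 0 (1 : MvPolynomial σ k) y = 1 := by
  unfold tev
  rw [TwF_tp_one, eval₂_one]

theorem tev_add (r : σ → ℤ) (β : ℤ) (G H : MvPolynomial σ k) (y : σ → R⟦X⟧) :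
    tev r β (G + H) y = tev r β G y + tev r β H y := by
  unfold tev
  rw [TwF_tp_add, eval₂_add]

theorem tev_sub (r : σ → ℤ) (β : ℤ) (G H : MvPolynomial σ k) (y : σ → R⟦X⟧) :
    tev r β (G - H) y = tev r β G y - tev r β H y := by
  unfold tev
  have h1 : tp r β (G - H) = tp r β G - tp r β H := map_sub (TwF_tpH r β) G H
  rw [h1]
  exact map_sub (eval₂Hom (PowerSeries.map (algebraMap k R)) y) _ _

theorem tev_mul {r : σ → ℤ} {β β' : ℤ} {G H : MvPolynomial σ k} (hG : Low r β G)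
    (hH : Low r β' H) (y : σ → R⟦X⟧) :
    tev r (β + β') (G * H) y = tev r β G y * tev r β' H y := by
  unfold tev
  rw [TwF_tp_mul r hG hH, eval₂_mul]

theorem tev_prod {ι : Type*} {r : σ → ℤ} (s : Finset ι) {b : ι → ℤ}
    {P : ι → MvPolynomial σ k} (h : ∀ a ∈ s, Low r (b a) (P a)) (y : σ → R⟦X⟧) :
    tev r (∑ a ∈ s, b a) (∏ a ∈ s, P a) y = ∏ a ∈ s, tev r (b a) (P a) y := by
  unfold tev
  rw [(TwF_prod r s b P h).2]
  exact map_prod (eval₂Hom (PowerSeries.map (algebraMap k R)) y) _ _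

/-- lowering the twist by `n` multiplies by `t^n` -/
theorem tev_lower {r : σ → ℤ} {β : ℤ} {G : MvPolynomial σ k} (hG : Low r β G) (n : ℕ)
    (y : σ → R⟦X⟧) : tev r (β - n) G y = (PowerSeries.X : R⟦X⟧) ^ n * tev r β G y := by
  rw [tev_eq, tev_eq, Finset.mul_sum]
  refine Finset.sum_congr rfl fun d hd => ?_
  have h1 := hG d hd
  have h2 : (wt r d - (β - n)).toNat = n + (wt r d - β).toNat := by omega
  rw [h2, pow_add]
  ring

theorem up_coJ {N₀ N : ℕ} (h : N₀ ≤ N) (r : σ → ℤ) (β : ℤ) (G : MvPolynomial σ k) (l : ℕ)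
    (hl : l ≤ N₀) : up h (coJ N₀ r β G l) = coJ N r β G l := by
  have h1 : up h (coJ N₀ r β G l) = PowerSeries.coeff l (tev r β G fun i =>
      PowerSeries.map ((up h : Jet σ N₀ k →ₐ[k] Jet σ N k) : Jet σ N₀ k →+* Jet σ N k)
        (uJ σ N₀ k i)) := by
    rw [← tev_map, PowerSeries.coeff_map]
    rfl
  have h2 : ∀ i, (PowerSeries.X : (Jet σ N k)⟦X⟧) ^ (N₀ + 1) ∣
      PowerSeries.map ((up h : Jet σ N₀ k →ₐ[k] Jet σ N k) : Jet σ N₀ k →+* Jet σ N k)
        (uJ σ N₀ k i) - uJ σ N k i := by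
    intro i
    rw [PowerSeries.X_pow_dvd_iff]
    intro m hm
    have hm' : m < N + 1 := by omega
    rw [map_sub, PowerSeries.coeff_map, uJ, uJ, PowerSeries.coeff_mk, PowerSeries.coeff_mk,
      dif_pos hm, dif_pos hm', sub_eq_zero]
    exact rename_X _ _
  have h3 := tev_congr r β G _ (uJ σ N k) (N₀ + 1) h2
  rw [PowerSeries.X_pow_dvd_iff] at h3
  have h4 := h3 l (Nat.lt_succ_of_le hl)
  rw [map_sub, sub_eq_zero] at h4
  rw [h1, h4]
  rfl

theorem evJ_res (N : ℕ) (x₀ : σ → R) (δ : σ → R⟦X⟧)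
    (hδ : ∀ i, (PowerSeries.X : R⟦X⟧) ^ (N + 1) ∣ δ i - PowerSeries.C (x₀ i))
    (P : Jet σ N k) : evJ N δ P = aeval x₀ (resJ σ N k P) := by
  have h1 : evJ N δ = (aeval x₀).comp (resJ σ N k) := by
    refine MvPolynomial.algHom_ext fun p => ?_
    rw [AlgHom.comp_apply, evJ, resJ, aeval_X, aeval_X]
    have h2 := hδ p.1
    rw [PowerSeries.X_pow_dvd_iff] at h2
    have h3 := h2 (p.2 : ℕ) p.2.2
    rw [map_sub, sub_eq_zero] at h3
    rw [h3, PowerSeries.coeff_C]
    split_ifs with h4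
    · rw [aeval_X]
    · rw [map_zero]
  rw [h1, AlgHom.comp_apply]

theorem const_deg0 (r : σ → ℤ) (n : σ → ℕ) (M : ℕ) (hM : 1 ≤ M) (P : MvPolynomial σ k)
    (hP : ∀ d ∈ P.support, (∑ i, (d i : ℤ) * n i) = M * wt r d) (x₀ : σ → R)
    (hx₀ : ∀ i, n i ≠ 0 → x₀ i = 0) (δ : σ → R⟦X⟧)
    (hδ : ∀ i, PowerSeries.constantCoeff (δ i) = x₀ i) :
    PowerSeries.constantCoeff (tev r 0 P δ) = aeval x₀ P := by
  rw [tev_eq, map_sum, aeval_def, eval₂_eq']
  refine Finset.sum_congr rfl fun d hd => ?_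
  have h1 := hP d hd
  rw [map_mul, map_mul, map_pow, map_prod, PowerSeries.constantCoeff_C, PowerSeries.constantCoeff_X]
  have h2 : ∏ i, PowerSeries.constantCoeff (δ i ^ d i) = ∏ i, x₀ i ^ d i := by
    refine Finset.prod_congr rfl fun i _ => ?_
    rw [map_pow, hδ]
  rw [h2]
  by_cases h3 : wt r d = 0
  · rw [h3]
    simp
  · have h4 : 0 ≤ ∑ i, (d i : ℤ) * n i := Finset.sum_nonneg fun i _ => by positivity
    have hM' : (0 : ℤ) < M := by exact_mod_cast hM
    have h5 : 0 ≤ wt r d := by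
      rw [h1] at h4
      exact nonneg_of_mul_nonneg_right h4 hM'
    have h6 : (wt r d - 0).toNat ≠ 0 := by omega
    have h7 : (∑ i, (d i : ℤ) * n i) ≠ 0 := by
      rw [h1]
      exact mul_ne_zero hM'.ne' h3
    obtain ⟨i, -, hi⟩ := Finset.exists_ne_zero_of_sum_ne_zero h7
    have h8 : d i ≠ 0 := by
      intro h0
      rw [h0] at hi
      simp at hi
    have h9 : n i ≠ 0 := by
      intro h0
      rw [h0] at hi
      simp at hi
    have h10 : ∏ i, x₀ i ^ d i = 0 := by
      refine Finset.prod_eq_zero (Finset.mem_univ i) ?_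
      rw [hx₀ i h9, zero_pow h8]
    rw [h10, mul_zero, mul_zero]

end

end Pool.Agent.MLD.Cox
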