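import Pool.Agent.Lib.MP_f23696_ag.Y.SysA
import Pool.Agent.Lib.MP_f23696_ag.Y.TwF
import Pool.Agent.Lib.MP_f23696_ag.Y.Newton
import Pool.Agent.Lib.MP_f23696_ag.Y.Emb
import Pool.Agent.Lib.MP_f23696_ag.Y.DerSel2

/-!
Project COX, module ArcT: the generic arc of a large prime ideal of jets.

Write `βJ = ∑ β j - ∑ r' (inr a)`.

Proof.  `Q = Jet (Ix m h c) N k ⧸ T` is a domain, `κ = FractionRing Q`, a field over `k`,
`w p = algebraMap Q κ (class of X p)`, so the kernel of `aeval w : Jet → κ` is `T`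
(`IsFractionRing.injective`).  `y' i = trS (fun l => w (i, l))`.  As
`coeff l (y' i) = w (i, l)` for `l ≤ N`, `evJ N y' = aeval w`.  By `evJ_coJ`, for `l ≤ N`:
(*) `coeff l (tev r' β' G y') = 0 ↔ coJ N r' β' G l ∈ T`.
So `t^(N+1) ∣ tev r' (β j) (f j) y'`, and `tev r' βJ (jd f) y'` has a nonzero coefficient at some
index `≤ ε`; let `e ≤ ε` be the least index with a nonzero coefficient.
`derSel2` (with this `e`, `n'`): `n' ≤ (m + 1 + h) (N + 1) + e`, i.e. `0 ≤ a + e`; put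
`b = (a + e).toNat`, `b ≤ N`; so there are derivations `d` and `s ≤ b` with
`coeff s (det (cder (d i) (y' (inl i')))) ≠ 0`.
`newton` with `F j = map (PowerSeries.map (algebraMap k κ)) (tp r' (β j) (f j))`, `l = N + 1`,
`2 e < N + 1` (`eval_map_tp`, `eval_map_pderiv`, `tev_det`): `y''` with `tev r' (β j) (f j) y'' = 0`,
`y'' (inl i) = y' (inl i)`, `t^(N+1-e) ∣ y'' i - y' i`.
By `tev_congr` the coefficients of `tev r' β' G y''` and `tev r' β' G y'` at `l` agree if
`l < N + 1 - e`, in particular if `l + ε ≤ N`; with (*) this is the last claim; it also gives the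
statement on the coefficients of `tev r' βJ (jd f) y''` up to `e` (`e < N + 1 - e`).
`emb` with `y''`, `d` gives `ρ` (`Fintype.card (Ro m h) = m + 1 + h`, `S.trdeg`).
-/

set_option autoImplicit false

namespace Pool.Agent.MLD.Cox

open MvPolynomial
open scoped PowerSeries

universe u v w z

variable {k : Type u} {K : Type v} {L : Type w} [Field k] [Field K] [Field L] [Algebra k K]
    [Algebra k L] {m h c : ℕ}

/-- an embedding of `L` in a field of Laurent series given by a twisted arc -/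
structure ArcData (S : Sys k K L m h c) (r' : Ix m h c → ℤ) (κ : Type z) [Field κ]
    [Algebra k κ] where
  ρ : L →ₐ[k] HahnSeries ℤ κ
  y : Ix m h c → κ⟦X⟧
  ρ_x : ∀ i, ρ (S.x i) = tz κ (r' i) * toL (y i)
  d : Ro m h → Derivation k κ κ

/-- the generic point of a prime ideal of functions of jets -/
private theorem ArcT_gen {σ : Type} (N : ℕ) (T : Ideal (Jet σ N k)) (hT : T.IsPrime) :
    ∃ (κ : Type u) (_ : Field κ) (_ : Algebra k κ) (w : σ × Fin (N + 1) → κ),
      RingHom.ker (aeval w : Jet σ N k →ₐ[k] κ) = T := by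
  have := hT
  let π : Jet σ N k →ₐ[k] FractionRing (Jet σ N k ⧸ T) :=
    (IsScalarTower.toAlgHom k (Jet σ N k ⧸ T) (FractionRing (Jet σ N k ⧸ T))).comp
      (Ideal.Quotient.mkₐ k T)
  refine ⟨FractionRing (Jet σ N k ⧸ T), inferInstance, inferInstance, fun p => π (X p), ?_⟩
  have h1 : (aeval (fun p => π (X p)) : Jet σ N k →ₐ[k] FractionRing (Jet σ N k ⧸ T)) = π :=
    MvPolynomial.algHom_ext fun p => aeval_X _ _
  rw [h1]
  ext g
  rw [RingHom.mem_ker]
  change algebraMap (Jet σ N k ⧸ T) (FractionRing (Jet σ N k ⧸ T)) (Ideal.Quotient.mk T g) = 0 ↔ _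
  rw [← Ideal.Quotient.eq_zero_iff_mem]
  exact map_eq_zero_iff _ (IsFractionRing.injective (Jet σ N k ⧸ T)
    (FractionRing (Jet σ N k ⧸ T)))

private theorem ArcT_coeff {κ : Type u} [CommRing κ] {N : ℕ} (z : Fin (N + 1) → κ)
    (l : Fin (N + 1)) : PowerSeries.coeff (l : ℕ) (trS z) = z l := by
  unfold trS
  rw [PowerSeries.coeff_mk, dif_pos l.2]

private theorem ArcT_ev {κ : Type u} [Field κ] [Algebra k κ] {σ : Type} (N : ℕ)
    (w : σ × Fin (N + 1) → κ) :
    evJ N (fun i => trS fun l => w (i, l)) = (aeval w : Jet σ N k →ₐ[k] κ) := by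
  unfold evJ
  congr 1
  funext p
  exact ArcT_coeff _ _

theorem arcT [CharZero k] (S : Sys k K L m h c) (r' : Ix m h c → ℤ) (β : Fin c → ℤ)
    (hβ : ∀ j, Low r' (β j) (S.f j)) (N : ℕ) (T : Ideal (Jet (Ix m h c) N k)) (hT : T.IsPrime)
    (hTf : ∀ j l, l ≤ N → coJ N r' (β j) (S.f j) l ∈ T) (ε : ℕ)
    (hTJ : ∃ s ≤ ε, coJ N r' (∑ j, β j - ∑ a, r' (Sum.inr a)) (jd S.f) s ∉ T)
    (a : ℤ) (n' : ℕ) (hn' : (n' : ℤ) = (m + 1 + h) * (N + 1) - a) (hTn : TD T n')
    (hN : 2 * ε + 1 ≤ N) (haN : a + ε ≤ N) :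
    ∃ (κ : Type u) (_ : Field κ) (_ : Algebra k κ) (D : ArcData S r' κ) (e s : ℕ),
      (∀ i < e, PowerSeries.coeff i
        (tev r' (∑ j, β j - ∑ a, r' (Sum.inr a)) (jd S.f) D.y) = 0) ∧
      PowerSeries.coeff e (tev r' (∑ j, β j - ∑ a, r' (Sum.inr a)) (jd S.f) D.y) ≠ 0 ∧
      (s : ℤ) ≤ a + e ∧
      PowerSeries.coeff s (Matrix.det (Matrix.of fun i i' =>
        cder (D.d i) (D.y (Sum.inl i')))) ≠ 0 ∧
      ∀ (β' : ℤ) (G : MvPolynomial (Ix m h c) k) (l : ℕ), l + ε ≤ N →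
        (PowerSeries.coeff l (tev r' β' G D.y) = 0 ↔ coJ N r' β' G l ∈ T) := by
  obtain ⟨κ, _, _, w, hw⟩ := ArcT_gen N T hT
  obtain ⟨y', hy'⟩ : ∃ y' : Ix m h c → κ⟦X⟧, y' = fun i => trS fun l => w (i, l) := ⟨_, rfl⟩
  obtain ⟨βJ, hβJ⟩ : ∃ βJ : ℤ, βJ = ∑ j, β j - ∑ a, r' (Sum.inr a) := ⟨_, rfl⟩
  -- (*)
  have hcoef : ∀ (β' : ℤ) (G : MvPolynomial (Ix m h c) k) (l : ℕ), l ≤ N →
      (PowerSeries.coeff l (tev r' β' G y') = 0 ↔ coJ N r' β' G l ∈ T) := by
    intro β' G l hl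
    rw [← evJ_coJ N r' β' G y' l hl, hy', ArcT_ev, ← hw, RingHom.mem_ker]
  have hdiv : ∀ j, (PowerSeries.X : κ⟦X⟧) ^ (N + 1) ∣ tev r' (β j) (S.f j) y' := by
    intro j
    rw [PowerSeries.X_pow_dvd_iff]
    intro l hl
    exact (hcoef _ _ l (Nat.lt_succ_iff.mp hl)).2 (hTf j l (Nat.lt_succ_iff.mp hl))
  have hJ : ∃ s, PowerSeries.coeff s (tev r' βJ (jd S.f) y') ≠ 0 := by
    obtain ⟨s, hs, hsT⟩ := hTJ
    refine ⟨s, fun h0 => hsT ?_⟩
    rw [← hβJ]
    exact (hcoef _ _ s (by omega)).1 h0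
  obtain ⟨e, hee, hmin⟩ : ∃ e, PowerSeries.coeff e (tev r' βJ (jd S.f) y') ≠ 0 ∧
      ∀ i < e, PowerSeries.coeff i (tev r' βJ (jd S.f) y') = 0 :=
    by
      classical
      exact ⟨Nat.find hJ, Nat.find_spec hJ, fun i hi => not_not.mp (Nat.find_min hJ hi)⟩
  have heε : e ≤ ε := by
    obtain ⟨s, hs, hsT⟩ := hTJ
    by_contra hcon
    push Not at hcon
    refine hsT ?_
    rw [← hβJ]
    exact (hcoef _ _ s (by omega)).1 (hmin s (by omega))
  -- the derivations
  have hcard : Fintype.card (Ro m h) = m + 1 + h := by simp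
  obtain ⟨h1, h2⟩ := derSel2 S.f r' β hβ w (by
      intro j
      have h3 := hdiv j
      rw [hy'] at h3
      exact h3) e ⟨e, le_rfl, by
      rw [← hβJ, ← hy']
      exact hee⟩ n' (by
      rw [hw]
      exact hTn)
  rw [hcard] at h1 h2
  have hae : 0 ≤ a + e := by
    have h3 : (n' : ℤ) ≤ (m + 1 + h) * (N + 1) + e := by exact_mod_cast h1
    rw [hn'] at h3
    linarith
  obtain ⟨b, hb⟩ : ∃ b : ℕ, (b : ℤ) = a + e := ⟨(a + e).toNat, Int.toNat_of_nonneg hae⟩
  obtain ⟨d, s, hsb, hs⟩ := h2 b (by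
      have h3 : (((m + 1 + h) * (N + 1) + e : ℕ) : ℤ) ≤ ((n' + b : ℕ) : ℤ) := by
        push_cast
        rw [hn', hb]
        linarith
      exact_mod_cast h3) (by
      have h3 : (b : ℤ) ≤ N := by
        rw [hb]
        have h4 : (e : ℤ) ≤ ε := by exact_mod_cast heε
        linarith
      exact_mod_cast h3)
  -- Newton's method
  have hmat : Matrix.det (Matrix.of fun j a => eval y' (pderiv (Sum.inr a)
      (map (PowerSeries.map (algebraMap k κ)) (tp r' (β j) (S.f j))))) =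
      tev r' βJ (jd S.f) y' := by
    rw [hβJ, ← tev_det r' β S.f hβ y']
    congr 1
    ext j a : 2
    rw [Matrix.of_apply, Matrix.of_apply, eval_map_pderiv r' (β j) (S.f j) (hβ j)]
  obtain ⟨y'', hy1, hy2, hy3⟩ := newton
    (fun j => map (PowerSeries.map (algebraMap k κ)) (tp r' (β j) (S.f j))) y' e (N + 1)
    (by omega) (by
      rw [hmat]
      exact hmin) (by
      rw [hmat]
      exact hee) (by
      intro j
      rw [eval_map_tp]
      exact hdiv j)
  have hy1' : ∀ j, tev r' (β j) (S.f j) y'' = 0 := by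
    intro j
    rw [← eval_map_tp]
    exact hy1 j
  have hag : ∀ (β' : ℤ) (G : MvPolynomial (Ix m h c) k) (l : ℕ), l < N + 1 - e →
      PowerSeries.coeff l (tev r' β' G y'') = PowerSeries.coeff l (tev r' β' G y') := by
    intro β' G l hl
    have h3 := tev_congr r' β' G y'' y' (N + 1 - e) hy3
    rw [PowerSeries.X_pow_dvd_iff] at h3
    have h4 := h3 l hl
    rwa [map_sub, sub_eq_zero] at h4
  have hdet : Matrix.det (Matrix.of fun i i' => cder (d i) (y'' (Sum.inl i'))) =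
      Matrix.det (Matrix.of fun i i' => cder (d i) (trS fun l => w (Sum.inl i', l))) := by
    congr 1
    ext i i' : 2
    rw [Matrix.of_apply, Matrix.of_apply, hy2, hy']
  obtain ⟨ρ, hρ⟩ := emb S.x S.gen S.f S.ker (by rw [S.trdeg, hcard]) r' β hβ y'' hy1' d (by
    rw [hdet]
    intro h0
    rw [h0] at hs
    exact hs (map_zero _))
  refine ⟨κ, inferInstance, inferInstance, ⟨ρ, y'', hρ, d⟩, e, s, ?_, ?_, ?_, ?_, ?_⟩
  · intro i hi
    rw [← hβJ]
    change PowerSeries.coeff i (tev r' βJ (jd S.f) y'') = 0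
    rw [hag _ _ i (by omega)]
    exact hmin i hi
  · rw [← hβJ]
    change PowerSeries.coeff e (tev r' βJ (jd S.f) y'') ≠ 0
    rw [hag _ _ e (by omega)]
    exact hee
  · rw [← hb]
    exact_mod_cast hsb
  · change PowerSeries.coeff s (Matrix.det (Matrix.of fun i i' =>
      cder (d i) (y'' (Sum.inl i')))) ≠ 0
    rw [hdet]
    exact hs
  · intro β' G l hl
    change PowerSeries.coeff l (tev r' β' G y'') = 0 ↔ _
    rw [hag _ _ l (by omega)]
    exact hcoef _ _ l (by omega)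

end Pool.Agent.MLD.Cox
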