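import Pool.Agent.Lib.MP_f23696_ag.Y.Defs
import Pool.Agent.Lib.MP_f23696_ag.T.Der

/-!
Project COX, module ChainK: derivations along an embedding are determined by a transcendence basis.

Proof.  Let `δ' c = δ (φ c) - ∑_j δ (φ (y j)) * φ (D j c)`; this is additive, kills constants,
satisfies `δ' (a b) = φ a δ' b + φ b δ' a`, and `δ' (y j) = 0`.  It vanishes on `k(y)`
(`IntermediateField.adjoin_induction`) and for `c ∈ K`, algebraic over `k(y)` with minimal
polynomial `p`: `0 = δ' (p(c)) = φ(p'(c)) δ' c` and `p'(c) ≠ 0` (characteristic zero), so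
`δ' c = 0`.  This is the proof of `der_zero` in T/Der.lean; one may also make `L` a `K`-module via
`φ` and argue with `Derivation k K L`.
-/

set_option autoImplicit false

namespace Pool.Agent.MLD.Cox

universe u v w

theorem ChainK.der_zero {k : Type u} {K : Type v} {L : Type w} [Field k] [CharZero k] [Field K]
    [Algebra k K] [Field L] [Algebra k L] [Algebra K L] [IsScalarTower k K L] {n : ℕ}
    (y : Fin n → K) (hy : IsTranscendenceBasis k y)
    (δ : Derivation k K L) (h : ∀ i, δ (y i) = 0) (c : K) : δ c = 0 := by
  have h0 : ∀ x ∈ IntermediateField.adjoin k (Set.range y), δ x = 0 := by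
    intro x hx
    induction hx using IntermediateField.adjoin_induction with
    | mem x hx =>
      obtain ⟨i, rfl⟩ := hx
      exact h i
    | algebraMap c => exact δ.map_algebraMap c
    | add x y _ _ hx hy => rw [map_add, hx, hy, add_zero]
    | inv x _ hx => rw [Derivation.leibniz_inv, hx, smul_zero]
    | mul x y _ _ hx hy => rw [Derivation.leibniz, hx, hy, smul_zero, smul_zero, add_zero]
  have halg : Algebra.IsAlgebraic (IntermediateField.adjoin k (Set.range y)) K :=
    hy.isAlgebraic_field
  let lin : K →ₗ[IntermediateField.adjoin k (Set.range y)] L :=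
    { toFun := δ
      map_add' := map_add δ
      map_smul' := by
        intro f x
        rw [Algebra.smul_def, Derivation.leibniz, IntermediateField.algebraMap_apply, h0 _ f.2,
          smul_zero, add_zero]
        rfl }
  let δ' : Derivation (IntermediateField.adjoin k (Set.range y)) K L :=
    Derivation.mk' lin (fun a b => δ.leibniz a b)
  have hint : IsIntegral (IntermediateField.adjoin k (Set.range y)) c :=
    (halg.isAlgebraic c).isIntegral
  have : CharZero (IntermediateField.adjoin k (Set.range y)) :=
    charZero_of_injective_algebraMap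
      (algebraMap k (IntermediateField.adjoin k (Set.range y))).injective
  have hsep : (minpoly (IntermediateField.adjoin k (Set.range y)) c).Separable :=
    (minpoly.irreducible hint).separable
  have h1 := δ'.map_aeval (minpoly (IntermediateField.adjoin k (Set.range y)) c) c
  rw [minpoly.aeval, map_zero] at h1
  have h2 : Polynomial.aeval c
      (Polynomial.derivative (minpoly (IntermediateField.adjoin k (Set.range y)) c)) ≠ 0 :=
    hsep.aeval_derivative_ne_zero (minpoly.aeval _ _)
  exact (smul_eq_zero.1 h1.symm).resolve_left h2

theorem chainK {k : Type u} {K : Type v} {L : Type w} [Field k] [CharZero k] [Field K]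
    [Algebra k K] [Field L] [Algebra k L] {n : ℕ} (y : Fin n → K)
    (hy : IsTranscendenceBasis k y) (D : Fin n → Derivation k K K)
    (hD : ∀ i j, D i (y j) = if i = j then 1 else 0) (φ : K →ₐ[k] L) (δ : Derivation k L L)
    (c : K) : δ (φ c) = ∑ j, δ (φ (y j)) * φ (D j c) := by
  letI : Algebra K L := φ.toRingHom.toAlgebra
  haveI : IsScalarTower k K L := IsScalarTower.of_algebraMap_eq fun r => (φ.commutes r).symm
  have hφ : ∀ c, algebraMap K L c = φ c := fun c => rfl
  let δ' : Derivation k K L := δ.compAlgebraMap K -
    ∑ j, δ (φ (y j)) • (Algebra.linearMap K L).compDer (D j)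
  have hδ : ∀ c, δ' c = δ (φ c) - ∑ j, δ (φ (y j)) * φ (D j c) := by
    intro c
    have hs : ∀ s : Finset (Fin n),
        (∑ j ∈ s, δ (φ (y j)) • (Algebra.linearMap K L).compDer (D j) : Derivation k K L) c =
          ∑ j ∈ s, δ (φ (y j)) * φ (D j c) := by
      intro s
      induction s using Finset.induction_on with
      | empty => simp
      | insert a s ha ih =>
        rw [Finset.sum_insert ha, Finset.sum_insert ha, Derivation.add_apply, ih]
        rfl
    simp only [δ']
    rw [Derivation.sub_apply, hs]
    rfl
  have h0 := ChainK.der_zero y hy δ' (fun i => by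
    rw [hδ]
    simp only [hD]
    simp) c
  rw [hδ] at h0
  exact sub_eq_zero.1 h0

end Pool.Agent.MLD.Cox
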