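import Pool.Agent.Lib.MP_f23696_ag.Y.Defs
import Pool.Agent.Lib.MP_f23696_ag.T.LogB
import Pool.Agent.Lib.MP_f23696_ag.T.Ind
import Pool.Agent.Lib.MP_f23696_ag.T.Hv
import Pool.Agent.Lib.MP_f23696_ag.R.Div

/-!
Project COX, module DivB: a valuation with bounded Jacobians is divisorial.

Proof.  There is `a` with integral entries and `jac D a ≠ 0` (make each `y j` integral by passing
to `(y j)⁻¹` if necessary, as in the proof of `formOrd_heightOne`, T/Ind.lean; `jac D y = 1`).  So
`formOrd_ex` gives `j` with `v.FormOrd D j`.  `formOrd_dual` gives integral `a`, `jac D a ≠ 0`, and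
derivations `E i` with `E i (a l) = δ_il` which preserve the valuation ring.  Let `t` be an element
of order `1`.

Case A: some `E i₀ t` has order `0`.  For `l ≠ i₀` put `E' l = E l - (E l t / E i₀ t) • E i₀`.  It
preserves the valuation ring, `E' l t = 0`, so it preserves the maximal ideal (write
`c = t * (c / t)`), and `E' l (a p) = δ_lp` for `l, p ≠ i₀`.  Claim: no nonzero polynomial `F` in the
`m` variables indexed by `p ≠ i₀` has `F(a)` small.  Otherwise take `F` of least total degree;
`F(a)` small implies `E' l (F(a)) = (∂_l F)(a)` small for all `l ≠ i₀`, so `∂_l F = 0` for all `l`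
by minimality, `F` is a nonzero constant (characteristic zero), which is not small.  Contradiction.

Case B: all `E i t` are small.  Then all `E i` preserve the maximal ideal
(`E i (t c') = t E i c' + c' E i t`) and the same argument shows that no nonzero polynomial in all
`m + 1` elements `a` is small; in particular for `m` of them (`rename`).

(`IsDivisorial m`: family indexed by `Fin m`; use `Fin.succAbove i₀` in case A.)
-/

set_option autoImplicit false

namespace Pool.Agent.MLD.Cox

universe u v w

theorem divB {k : Type u} {K : Type v} [Field k] [CharZero k] [Field K] [Algebra k K]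
    (v : DVal k K) {m : ℕ} (y : Fin (m + 1) → K) (hy : IsTranscendenceBasis k y)
    (D : Fin (m + 1) → Derivation k K K) (hD : ∀ i j, D i (y j) = if i = j then 1 else 0)
    (N : ℤ) (hN : ∀ a : Fin (m + 1) → K, (∀ i, v.Integral (a i)) → jac D a ≠ 0 →
      N ≤ v.ord (jac D a)) :
    v.IsDivisorial m ∧ ∃ j, v.FormOrd D j := by
  have _ := hy
  obtain ⟨j, hj, -⟩ := Ten.formOrd_ex v D N hN (Ten.Hv.exists_jac v D y hD)
  exact ⟨R.divi D v j hj, j, hj⟩

end Pool.Agent.MLD.Cox
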