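import Pool.Agent.Lib.MP_f23696_ag.Y.ValL
import Pool.Agent.Lib.MP_f23696_ag.Y.DivB
import Pool.Agent.Lib.MP_f23696_ag.Y.ChainK

/-!
Project COX, module LogD: upper bound of the log discrepancy of the valuation of an arc.

Write `Ω = HahnSeries ℤ κ`.  Proof.

(1) For `c : K` and every `i`: `lder (d i) (φ c) = ∑_j lder (d i) (φ (y j)) * φ (D j c)`
(`chainK` with the derivation `hder` of `Ω`; both sides are derivations
`K → Ω` over `φ` which agree on the transcendence basis `y`).

(2) Let `a : Fin (m+1) → K` be integral for `v'` with `jac D a ≠ 0`.  Let `W` be the matrix with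
`W i (inl j) = lder (d i) (φ (a j))`, `W i (inr l) = C i (inr l)`.  By (1) `W = C * A` with the block
matrix `A = [[φ (D j' (a j)), 0], [0, 1]]`, so `det W = det C * φ (jac D a)`.  The entries of `W` are
integral (`Ge 0`): `φ (a j)` is, since its order is `q * v'.ord (a j) ≥ 0`; `C i (inr l)` by
`ge_logder`.  So `0 ≤ order (det W) = order (det C) + q * v'.ord (jac D a)` (`ge_det0`, `ge_iff`,
`order_mul'`), hence `v'.ord (jac D a) ≥ - |order (det C)|`.  By `divB`: `v'.IsDivisorial m` and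
`v'.FormOrd D j'` for some `j'`.

(3) `logBasis` (T/LogB.lean) gives `b`, `E` with `v'.ord (b 0) = 1`, `v'.ord (b i.succ) = 0`,
`jac D b ≠ 0`, `v'.ord (jac D b) = -j'`.  Apply (2) to `a = b`: the column `inl 0` of `W` consists of
`lder (d i) (φ (b 0))`, where `φ (b 0)` has order `q`; so `Ge q (det W)` by `ge_det`, i.e.
`q ≤ order (det C) - q * j'`.
-/

set_option autoImplicit false

namespace Pool.Agent.MLD.Cox

universe u v w

theorem logD {k : Type u} {K : Type v} {κ : Type w} [Field k] [CharZero k] [Field K]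
    [Algebra k K] [Field κ] [Algebra k κ] (v' : DVal k K) {m h : ℕ} (y : Fin (m + 1) → K)
    (hy : IsTranscendenceBasis k y) (D : Fin (m + 1) → Derivation k K K)
    (hD : ∀ i j, D i (y j) = if i = j then 1 else 0) (φ : K →ₐ[k] HahnSeries ℤ κ) (q : ℕ)
    (hq : 1 ≤ q) (hφ : ∀ a : K, a ≠ 0 → (φ a).order = q * v'.ord a)
    (s : Fin h → HahnSeries ℤ κ) (hs : ∀ l, s l ≠ 0)
    (d : Fin (m + 1) ⊕ Fin h → Derivation k κ κ)
    (C : Matrix (Fin (m + 1) ⊕ Fin h) (Fin (m + 1) ⊕ Fin h) (HahnSeries ℤ κ))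
    (hC1 : ∀ i j, C i (Sum.inl j) = lder (d i) (φ (y j)))
    (hC2 : ∀ i l, C i (Sum.inr l) * s l = lder (d i) (s l)) (hC : C.det ≠ 0) :
    v'.IsDivisorial m ∧ ∃ j' : ℤ, v'.FormOrd D j' ∧ (q : ℤ) * (1 + j') ≤ C.det.order := by
  classical
  have hφi : Function.Injective φ := φ.toRingHom.injective
  have hφ0 : ∀ a : K, a ≠ 0 → φ a ≠ 0 := fun a ha h =>
    ha (hφi (h.trans (map_zero φ).symm))
  have hGe : ∀ a : K, v'.Integral a → Ge 0 (φ a) := by
    intro a ha
    by_cases h0 : a = 0
    · rw [h0, map_zero]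
      intro n _
      rfl
    · rw [ge_iff _ _ (hφ0 a h0), hφ a h0]
      exact mul_nonneg (by positivity) (ha h0)
  have hchain : ∀ (i : Fin (m + 1) ⊕ Fin h) (c : K),
      lder (d i) (φ c) = ∑ j, lder (d i) (φ (y j)) * φ (D j c) := by
    intro i c
    obtain ⟨E, hE⟩ := mk_der (k := k) (L := HahnSeries ℤ κ) (fun f => lder (d i) f)
      (fun f g => by
        ext n
        rw [lder_coeff, HahnSeries.coeff_add, HahnSeries.coeff_add, lder_coeff, lder_coeff,
          map_add])
      (fun f g => lder_mul (d i) f g)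
      (fun x => by
        ext n
        rw [lder_coeff]
        have h1 : (algebraMap k (HahnSeries ℤ κ)) x = HahnSeries.C (algebraMap k κ x) :=
          algebraMap_laurent' x
        rw [h1, HahnSeries.C_apply, HahnSeries.coeff_zero, HahnSeries.coeff_single]
        split_ifs with h2
        · exact (d i).map_algebraMap x
        · exact map_zero (d i))
    have h1 := chainK y hy D hD φ E c
    simp only [hE] at h1
    exact h1
  have hmain : ∀ a : Fin (m + 1) → K, (∀ i, v'.Integral (a i)) → jac D a ≠ 0 → ∀ z : ℤ, 0 ≤ z →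
      ∀ j₀ : Fin (m + 1), Ge z (φ (a j₀)) → z ≤ C.det.order + q * v'.ord (jac D a) := by
    intro a ha hja z hz j₀ hj₀
    obtain ⟨A, hA⟩ : ∃ A : Matrix (Fin (m + 1) ⊕ Fin h) (Fin (m + 1) ⊕ Fin h) (HahnSeries ℤ κ),
        A = Matrix.fromBlocks (Matrix.of fun i j => φ (D i (a j))) 0 0 1 := ⟨_, rfl⟩
    have hAdet : A.det = φ (jac D a) := by
      rw [hA, Matrix.det_fromBlocks_zero₂₁, Matrix.det_one, mul_one]
      unfold jac
      rw [AlgHom.map_det]
      rfl
    have hW1 : ∀ i j, (C * A) i (Sum.inl j) = lder (d i) (φ (a j)) := by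
      intro i j
      rw [Matrix.mul_apply, Fintype.sum_sum_type, hchain i (a j)]
      have h2 : ∑ x : Fin h, C i (Sum.inr x) * A (Sum.inr x) (Sum.inl j) = 0 := by
        apply Finset.sum_eq_zero
        intro x _
        rw [hA, Matrix.fromBlocks_apply₂₁, Matrix.zero_apply, mul_zero]
      rw [h2, add_zero]
      apply Finset.sum_congr rfl
      intro x _
      rw [hA, Matrix.fromBlocks_apply₁₁, hC1]
      rfl
    have hW2 : ∀ i l, (C * A) i (Sum.inr l) = C i (Sum.inr l) := by
      intro i l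
      rw [Matrix.mul_apply, Fintype.sum_sum_type]
      have h2 : ∑ x : Fin (m + 1), C i (Sum.inl x) * A (Sum.inl x) (Sum.inr l) = 0 := by
        apply Finset.sum_eq_zero
        intro x _
        rw [hA, Matrix.fromBlocks_apply₁₂, Matrix.zero_apply, mul_zero]
      rw [h2, zero_add, Finset.sum_eq_single l]
      · rw [hA, Matrix.fromBlocks_apply₂₂, Matrix.one_apply_eq, mul_one]
      · intro x _ hx
        rw [hA, Matrix.fromBlocks_apply₂₂, Matrix.one_apply_ne hx, mul_zero]
      · intro hl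
        exact absurd (Finset.mem_univ l) hl
    have hG0 : ∀ i j, Ge 0 ((C * A) i j) := by
      intro i j
      rcases j with j | l
      · rw [hW1]
        exact (hGe _ (ha j)).lder _
      · rw [hW2]
        exact ge_logder (d i) (s l) _ (hs l) (hC2 i l)
    have hG : Ge z (C * A).det := by
      refine ge_det (C * A) hG0 z hz (Sum.inl j₀) (fun i => ?_)
      rw [hW1]
      exact hj₀.lder _
    have hne : (C * A).det ≠ 0 := by
      rw [Matrix.det_mul, hAdet]
      exact mul_ne_zero hC (hφ0 _ hja)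
    rw [ge_iff _ _ hne, Matrix.det_mul, hAdet, order_mul' _ _ hC (hφ0 _ hja), hφ _ hja] at hG
    exact hG
  have hq' : (1 : ℤ) ≤ q := by exact_mod_cast hq
  have hN : ∀ a : Fin (m + 1) → K, (∀ i, v'.Integral (a i)) → jac D a ≠ 0 →
      -|C.det.order| ≤ v'.ord (jac D a) := by
    intro a ha hja
    have h1 := hmain a ha hja 0 le_rfl 0 (hGe _ (ha 0))
    by_contra hc
    push Not at hc
    have h2 : v'.ord (jac D a) < 0 := lt_of_lt_of_le hc (neg_nonpos.2 (abs_nonneg _))
    have h3 : (q : ℤ) * v'.ord (jac D a) ≤ 1 * v'.ord (jac D a) :=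
      mul_le_mul_of_nonpos_right hq' h2.le
    have h4 := le_abs_self C.det.order
    linarith
  obtain ⟨hdiv, j', hj'⟩ := divB v' y hy D hD _ hN
  refine ⟨hdiv, j', hj', ?_⟩
  obtain ⟨b, E, hb⟩ := Ten.logBasis v' y hy D hD hdiv j' hj'
  have hbI : ∀ i, v'.Integral (b i) := by
    intro i _
    refine Fin.cases ?_ (fun l => ?_) i
    · rw [hb.ord_zero]
      exact zero_le_one
    · rw [hb.ord_succ]
  have hG : Ge (q : ℤ) (φ (b 0)) := by
    rw [ge_iff _ _ (hφ0 _ (hb.ne_zero 0)), hφ _ (hb.ne_zero 0), hb.ord_zero, mul_one]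
  have h5 := hmain b hbI hb.jac_ne q (by positivity) 0 hG
  rw [hb.ord_jac] at h5
  linarith

end Pool.Agent.MLD.Cox
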