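import Pool.Agent.Lib.MP_f23696_ag.Y.Defs

/-!
Project COX, module Farkas: a rational Farkas lemma.

Proof.  Rational version: let `χ : ι → Fin h → ℚ`, `b : ι → ℚ`, `ι` finite, and suppose that
`0 ≤ ∑ μ_i b_i` for all `μ : ι → ℚ`, `μ ≥ 0`, with `∑ μ_i χ_i = 0`.  Then there is `s : Fin h → ℚ`
with `0 ≤ b_i + ∑_l χ_i l s l` for all `i`.  Induction on `h` (Fourier-Motzkin), for all finite
types `ι` in `Type`: `h = 0`: take `μ` a unit vector.  `h + 1`: split off the first coordinate
`p_i = χ_i 0`.  Consider the system in the remaining `h` unknowns with the index type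
`{i // p_i = 0} ⊕ ({i // 0 < p_i} × {j // p_j < 0})` and the inequalities `i`, resp.
`p_i * (inequality j) - p_j * (inequality i)` (in which the first unknown cancels).  Its hypothesis
holds: a nonnegative relation `μ` for the new system gives one for the old system.  By induction
there is a solution `s'`.  Let `R_i = b_i + ∑_(l ≥ 1) χ_i l s'_l`; then `R_i ≥ 0` if `p_i = 0` and
`- R_i / p_i ≤ - R_j / p_j` for `p_i > 0 > p_j`; choose `s_0` between the maximum of the first and
the minimum of the second numbers (if one of the sets is empty, any value beyond the bound).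
Integral version: from the hypothesis `H` with natural numbers `μ` we get it for rational `μ` by
clearing denominators; a rational solution `s'` is multiplied by a common denominator `M ≥ 1`.
-/

set_option autoImplicit false

namespace Pool.Agent.MLD.Cox

private theorem FarkasBetween {ι : Type} [Fintype ι] (P N : ι → Prop) (f g : ι → ℚ)
    (h : ∀ i j, P i → N j → f i ≤ g j) :
    ∃ s : ℚ, (∀ i, P i → f i ≤ s) ∧ ∀ j, N j → s ≤ g j := by
  classical
  by_cases hP : ∃ i, P i
  · obtain ⟨i, hi⟩ := hP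
    obtain ⟨i0, hi0, hm⟩ := Finset.exists_max_image (Finset.univ.filter P) f
      ⟨i, Finset.mem_filter.2 ⟨Finset.mem_univ _, hi⟩⟩
    refine ⟨f i0, fun i hi => hm i (Finset.mem_filter.2 ⟨Finset.mem_univ _, hi⟩), fun j hj => ?_⟩
    exact h i0 j (Finset.mem_filter.1 hi0).2 hj
  · by_cases hN : ∃ j, N j
    · obtain ⟨j, hj⟩ := hN
      obtain ⟨j0, hj0, hm⟩ := Finset.exists_min_image (Finset.univ.filter N) g
        ⟨j, Finset.mem_filter.2 ⟨Finset.mem_univ _, hj⟩⟩
      exact ⟨g j0, fun i hi => absurd ⟨i, hi⟩ hP,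
        fun j hj => hm j (Finset.mem_filter.2 ⟨Finset.mem_univ _, hj⟩)⟩
    · exact ⟨0, fun i hi => absurd ⟨i, hi⟩ hP, fun j hj => absurd ⟨j, hj⟩ hN⟩

private theorem FarkasQ (h : ℕ) : ∀ (ι : Type) [Fintype ι] (χ : ι → Fin h → ℚ) (b : ι → ℚ),
    (∀ μ : ι → ℚ, (∀ i, 0 ≤ μ i) → (∀ l, ∑ i, μ i * χ i l = 0) → 0 ≤ ∑ i, μ i * b i) →
    ∃ s : Fin h → ℚ, ∀ i, 0 ≤ b i + ∑ l, χ i l * s l := by
  classical
  induction h with
  | zero =>
    intro ι _ χ b H
    refine ⟨fun _ => 0, fun i => ?_⟩
    have h1 := H (Pi.single i 1) (fun j => by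
      rcases eq_or_ne j i with rfl | hj
      · simp
      · simp [Pi.single_eq_of_ne hj]) (fun l => l.elim0)
    simpa [Pi.single_apply] using h1
  | succ h ih =>
    intro ι _ χ b H
    set A : ι ⊕ (ι × ι) → ι → ℚ := fun k i => match k with
      | Sum.inl i₀ => if i = i₀ then (if χ i₀ 0 = 0 then 1 else 0) else 0
      | Sum.inr q => if 0 < χ q.1 0 ∧ χ q.2 0 < 0 then
          (if i = q.2 then χ q.1 0 else 0) + (if i = q.1 then - χ q.2 0 else 0) else 0 with hA
    have hA0 : ∀ k i, 0 ≤ A k i := by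
      intro k i
      rcases k with i₀ | q
      · simp only [hA]
        split_ifs <;> norm_num
      · simp only [hA]
        split_ifs with h1 h2 h3 h3
        · linarith [h1.1, h1.2]
        · linarith [h1.1, h1.2]
        · linarith [h1.1, h1.2]
        · norm_num
        · exact le_rfl
    have hS1 : ∀ (i₀ : ι) (R : ι → ℚ), ∑ i, A (Sum.inl i₀) i * R i =
        if χ i₀ 0 = 0 then R i₀ else 0 := by
      intro i₀ R
      simp only [hA, ite_mul, zero_mul, one_mul]
      rw [Finset.sum_ite_eq' Finset.univ i₀]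
      simp
    have hS2 : ∀ (q : ι × ι) (R : ι → ℚ), ∑ i, A (Sum.inr q) i * R i =
        if 0 < χ q.1 0 ∧ χ q.2 0 < 0 then χ q.1 0 * R q.2 - χ q.2 0 * R q.1 else 0 := by
      intro q R
      by_cases hq : 0 < χ q.1 0 ∧ χ q.2 0 < 0
      · simp only [hA, if_pos hq, add_mul, ite_mul, zero_mul]
        rw [Finset.sum_add_distrib, Finset.sum_ite_eq' Finset.univ q.2,
          Finset.sum_ite_eq' Finset.univ q.1]
        simp
        ring
      · simp only [hA, if_neg hq, zero_mul, Finset.sum_const_zero]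
    have hz : ∀ k, ∑ i, A k i * χ i 0 = 0 := by
      intro k
      rcases k with i₀ | q
      · rw [hS1 i₀ (fun i => χ i 0)]
        split_ifs with h1
        · exact h1
        · rfl
      · rw [hS2 q (fun i => χ i 0)]
        split_ifs
        · ring
        · rfl
    obtain ⟨s', hs'⟩ := ih (ι ⊕ (ι × ι)) (fun k l => ∑ i, A k i * χ i l.succ)
      (fun k => ∑ i, A k i * b i) (by
        intro μ hμ hμ0
        have hsw : ∀ R : ι → ℚ, ∑ i, (∑ k, μ k * A k i) * R i = ∑ k, μ k * ∑ i, A k i * R i := by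
          intro R
          simp only [Finset.sum_mul, Finset.mul_sum]
          rw [Finset.sum_comm]
          exact Finset.sum_congr rfl fun k _ => Finset.sum_congr rfl fun i _ => by ring
        have h1 := H (fun i => ∑ k, μ k * A k i)
          (fun i => Finset.sum_nonneg fun k _ => mul_nonneg (hμ k) (hA0 k i)) (by
            intro l
            rw [hsw (fun i => χ i l)]
            refine Fin.cases ?_ (fun l => ?_) l
            · exact Finset.sum_eq_zero fun k _ => by rw [hz, mul_zero]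
            · exact hμ0 l)
        rw [hsw b] at h1
        exact h1)
    set R : ι → ℚ := fun i => b i + ∑ l : Fin h, χ i l.succ * s' l with hR
    have hk : ∀ k, 0 ≤ ∑ i, A k i * R i := by
      intro k
      have h1 := hs' k
      have h2 : ∑ i, A k i * R i = ∑ i, A k i * b i +
          ∑ l : Fin h, (∑ i, A k i * χ i l.succ) * s' l := by
        simp only [hR, mul_add, Finset.sum_add_distrib, Finset.mul_sum, Finset.sum_mul]
        congr 1
        rw [Finset.sum_comm]
        exact Finset.sum_congr rfl fun k _ => Finset.sum_congr rfl fun i _ => by ring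
      rw [h2]
      exact h1
    have hk0 : ∀ i, χ i 0 = 0 → 0 ≤ R i := by
      intro i hi
      have h1 := hk (Sum.inl i)
      rwa [hS1, if_pos hi] at h1
    have hk1 : ∀ i j, 0 < χ i 0 → χ j 0 < 0 → - R i / χ i 0 ≤ - R j / χ j 0 := by
      intro i j hi hj
      have h1 := hk (Sum.inr (i, j))
      rw [hS2, if_pos ⟨hi, hj⟩] at h1
      have h1' : 0 ≤ χ i 0 * R j - χ j 0 * R i := h1
      have h3 : - R j / χ j 0 = R j / (- χ j 0) := by rw [div_neg, neg_div]
      rw [h3, div_le_div_iff₀ hi (by linarith)]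
      linarith
    obtain ⟨s0, hs1, hs2⟩ := FarkasBetween (fun i => 0 < χ i 0) (fun j => χ j 0 < 0)
      (fun i => - R i / χ i 0) (fun j => - R j / χ j 0) hk1
    refine ⟨Fin.cons s0 s', fun i => ?_⟩
    rw [Fin.sum_univ_succ]
    simp only [Fin.cons_zero, Fin.cons_succ]
    have hgoal : b i + (χ i 0 * s0 + ∑ l : Fin h, χ i l.succ * s' l) = R i + χ i 0 * s0 := by
      simp only [hR]
      ring
    rw [hgoal]
    rcases lt_trichotomy (χ i 0) 0 with hlt | heq | hgt
    · have h1 := hs2 i hlt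
      have h2 : (- R i / χ i 0) * χ i 0 ≤ s0 * χ i 0 := mul_le_mul_of_nonpos_right h1 hlt.le
      rw [div_mul_cancel₀ _ hlt.ne] at h2
      linarith
    · rw [heq, zero_mul, add_zero]
      exact hk0 i heq
    · have h1 := hs1 i hgt
      have h2 : (- R i / χ i 0) * χ i 0 ≤ s0 * χ i 0 := mul_le_mul_of_nonneg_right h1 hgt.le
      rw [div_mul_cancel₀ _ hgt.ne'] at h2
      linarith

private theorem FarkasDen {ι : Type} [Fintype ι] (q : ι → ℚ) :
    ∃ (N : ℕ) (z : ι → ℤ), 1 ≤ N ∧ ∀ i, (N : ℚ) * q i = z i := by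
  classical
  refine ⟨∏ i, (q i).den, fun i => (q i).num * ∏ j ∈ Finset.univ.erase i, ((q j).den : ℤ), ?_, ?_⟩
  · exact Finset.prod_pos fun i _ => (q i).den_pos
  · intro i
    rw [← Finset.mul_prod_erase Finset.univ (fun i => (q i).den) (Finset.mem_univ i)]
    push_cast
    have h1 : ((q i).den : ℚ) * q i = (q i).num := by
      rw [mul_comm]
      exact Rat.mul_den_eq_num (q i)
    calc ((q i).den : ℚ) * (∏ j ∈ Finset.univ.erase i, ((q j).den : ℚ)) * q i
        = (((q i).den : ℚ) * q i) * ∏ j ∈ Finset.univ.erase i, ((q j).den : ℚ) := by ring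
      _ = _ := by rw [h1]

theorem farkas {ι : Type} [Fintype ι] {h : ℕ} (χ : ι → Fin h → ℤ) (b : ι → ℤ)
    (H : ∀ μ : ι → ℕ, (∀ l, ∑ i, (μ i : ℤ) * χ i l = 0) → 0 ≤ ∑ i, (μ i : ℤ) * b i) :
    ∃ (M : ℕ) (s : Fin h → ℤ), 1 ≤ M ∧ ∀ i, 0 ≤ M * b i + ∑ l, χ i l * s l := by
  classical
  have hQ : ∀ μ : ι → ℚ, (∀ i, 0 ≤ μ i) → (∀ l, ∑ i, μ i * (χ i l : ℚ) = 0) →
      0 ≤ ∑ i, μ i * (b i : ℚ) := by
    intro μ hμ hμ0
    obtain ⟨N, z, hN, hz⟩ := FarkasDen μ
    have hN' : (0 : ℚ) < N := by exact_mod_cast hN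
    have hz0 : ∀ i, 0 ≤ z i := by
      intro i
      have h1 : (0 : ℚ) ≤ z i := by
        rw [← hz]
        exact mul_nonneg hN'.le (hμ i)
      exact_mod_cast h1
    have hc : ∀ i, (((z i).toNat : ℤ)) = z i := fun i => Int.toNat_of_nonneg (hz0 i)
    have h1 := H (fun i => (z i).toNat) (by
      intro l
      simp only [hc]
      have h2 : ((∑ i, z i * χ i l : ℤ) : ℚ) = 0 := by
        push_cast
        have h3 : ∀ i, (z i : ℚ) * (χ i l : ℚ) = N * (μ i * (χ i l : ℚ)) := by
          intro i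
          rw [← hz]
          ring
        rw [Finset.sum_congr rfl fun i _ => h3 i, ← Finset.mul_sum, hμ0, mul_zero]
      exact_mod_cast h2)
    simp only [hc] at h1
    have h2 : (0 : ℚ) ≤ ((∑ i, z i * b i : ℤ) : ℚ) := by exact_mod_cast h1
    push_cast at h2
    have h3 : ∀ i, (z i : ℚ) * (b i : ℚ) = N * (μ i * (b i : ℚ)) := by
      intro i
      rw [← hz]
      ring
    rw [Finset.sum_congr rfl fun i _ => h3 i, ← Finset.mul_sum] at h2
    exact nonneg_of_mul_nonneg_right h2 hN'
  obtain ⟨s, hs⟩ := FarkasQ h ι (fun i l => (χ i l : ℚ)) (fun i => (b i : ℚ)) hQ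
  obtain ⟨M, z, hM, hz⟩ := FarkasDen s
  refine ⟨M, z, hM, fun i => ?_⟩
  have hM' : (0 : ℚ) < M := by exact_mod_cast hM
  have h1 : (0 : ℚ) ≤ M * ((b i : ℚ) + ∑ l, (χ i l : ℚ) * s l) :=
    mul_nonneg hM'.le (hs i)
  have h2 : (M : ℚ) * ((b i : ℚ) + ∑ l, (χ i l : ℚ) * s l) =
      ((M * b i + ∑ l, χ i l * z l : ℤ) : ℚ) := by
    push_cast
    rw [mul_add, Finset.mul_sum]
    congr 1
    refine Finset.sum_congr rfl fun l _ => ?_
    rw [← hz]
    ring
  rw [h2] at h1
  exact_mod_cast h1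

end Pool.Agent.MLD.Cox
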