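import Pool.Agent.Lib.MP_f23696_ag.Y.Defs

/-!
Project COX, module Pt: a point of a homogeneous ideal over a given point of the quotient.

Proof.  The ideal `I = J + span Mx` is not the whole ring: otherwise
`1 = j + ∑_a b_a P_a` with `j ∈ J`, `P_a ∈ Mx` (finite sum, `Ideal.mem_span`-description of the
span).  Take the weighted homogeneous components of degree `0`: `1 = j_0 + ∑_a (b_a)_0 P_a`
(`P_a` is homogeneous of degree `0`, so the component of degree `0` of `b_a P_a` is `(b_a)_0 P_a`;
`1` is homogeneous of degree `0`).  `j_0 ∈ J` is homogeneous of degree `0`, so `j_0 ∈ Mx`;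
`(b_a)_0 P_a ∈ Mx`; so `1 ∈ Mx`, a contradiction (`0 ∈ Mx`, as `0 ∈ J`).
Let `𝔪` be a maximal ideal containing `I`; by the Nullstellensatz
(`MvPolynomial.isMaximal_iff_eq_vanishingIdeal_singleton`, `σ` finite, `k` algebraically closed) it
is the ideal of a point `x₀`.
-/

set_option autoImplicit false

namespace Pool.Agent.MLD.Cox

open MvPolynomial

universe u v w

/-- the component of degree zero of a product with a homogeneous polynomial of degree zero -/
private theorem Pt_comp_mul {k : Type u} [CommRing k] {σ : Type w} {h : ℕ}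
    (χ : σ → (Fin h → ℤ)) {P : MvPolynomial σ k} (hP : IsWeightedHomogeneous χ P 0)
    (b : MvPolynomial σ k) :
    weightedHomogeneousComponent χ 0 (b * P) = weightedHomogeneousComponent χ 0 b * P := by
  classical
  induction b using MvPolynomial.induction_on' with
  | monomial d r =>
    have h1 : IsWeightedHomogeneous χ (monomial d r) (Finsupp.weight χ d) :=
      isWeightedHomogeneous_monomial χ d r rfl
    have h2 : IsWeightedHomogeneous χ (monomial d r * P) (Finsupp.weight χ d) := by
      have := h1.mul hP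
      rwa [add_zero] at this
    by_cases h0 : Finsupp.weight χ d = 0
    · rw [h0] at h1 h2
      rw [h1.weightedHomogeneousComponent_same, h2.weightedHomogeneousComponent_same]
    · rw [h1.weightedHomogeneousComponent_ne 0 (Ne.symm h0),
        h2.weightedHomogeneousComponent_ne 0 (Ne.symm h0),
        zero_mul]
  | add p q hp hq => rw [add_mul, map_add, hp, hq, map_add, add_mul]

theorem pt {k : Type u} [Field k] [IsAlgClosed k] {σ : Type w} [Finite σ] {h : ℕ}
    (χ : σ → (Fin h → ℤ)) (J : Ideal (MvPolynomial σ k))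
    (hJ : ∀ P ∈ J, weightedHomogeneousComponent χ 0 P ∈ J) (Mx : Set (MvPolynomial σ k))
    (h1 : ∀ P ∈ Mx, IsWeightedHomogeneous χ P 0) (h2 : ∀ P ∈ Mx, ∀ Q ∈ Mx, P + Q ∈ Mx)
    (h3 : ∀ P ∈ Mx, ∀ Q, IsWeightedHomogeneous χ Q 0 → Q * P ∈ Mx)
    (h4 : ∀ P ∈ J, IsWeightedHomogeneous χ P 0 → P ∈ Mx) (h5 : (1 : MvPolynomial σ k) ∉ Mx) :
    ∃ x₀ : σ → k, (∀ P ∈ J, aeval x₀ P = 0) ∧ ∀ P ∈ Mx, aeval x₀ P = 0 := by
  have hspan : ∀ P ∈ Ideal.span Mx, ∀ b : MvPolynomial σ k,
      weightedHomogeneousComponent χ 0 (b * P) ∈ Mx := by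
    have h0 : (0 : MvPolynomial σ k) ∈ Mx :=
      h4 0 J.zero_mem (isWeightedHomogeneous_zero k χ 0)
    intro P hP
    refine Submodule.span_induction (p := fun P _ => ∀ b : MvPolynomial σ k,
      weightedHomogeneousComponent χ 0 (b * P) ∈ Mx) ?_ ?_ ?_ ?_ hP
    · intro x hx b
      rw [Pt_comp_mul χ (h1 x hx) b]
      exact h3 x hx _ (weightedHomogeneousComponent_isWeightedHomogeneous 0 b)
    · intro b
      rw [mul_zero, map_zero]
      exact h0
    · intro x y _ _ hx hy b
      rw [mul_add, map_add]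
      exact h2 _ (hx b) _ (hy b)
    · intro a x _ hx b
      rw [smul_eq_mul, ← mul_assoc]
      exact hx (b * a)
  have hI : J ⊔ Ideal.span Mx ≠ ⊤ := by
    intro h
    have h1' : (1 : MvPolynomial σ k) ∈ J ⊔ Ideal.span Mx := h ▸ Submodule.mem_top
    obtain ⟨j, hj, s, hs, hjs⟩ := Submodule.mem_sup.1 h1'
    apply h5
    have e1 : weightedHomogeneousComponent χ 0 (1 : MvPolynomial σ k) = 1 :=
      (isWeightedHomogeneous_one k χ).weightedHomogeneousComponent_same
    rw [← e1, ← hjs, map_add]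
    refine h2 _ (h4 _ (hJ j hj) (weightedHomogeneousComponent_isWeightedHomogeneous 0 j)) _ ?_
    have := hspan s hs 1
    rwa [one_mul] at this
  obtain ⟨m, hm, hIm⟩ := Ideal.exists_le_maximal _ hI
  obtain ⟨x₀, hx₀⟩ := isMaximal_iff_eq_vanishingIdeal_singleton.1 hm
  refine ⟨x₀, fun P hP => ?_, fun P hP => ?_⟩
  · have h6 : P ∈ m := hIm (Submodule.mem_sup_left hP)
    rw [hx₀, mem_vanishingIdeal_singleton_iff] at h6
    exact h6
  · have h6 : P ∈ m := hIm (Submodule.mem_sup_right (Ideal.subset_span hP))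
    rw [hx₀, mem_vanishingIdeal_singleton_iff] at h6
    exact h6

end Pool.Agent.MLD.Cox
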