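import Pool.Agent.Lib.MP_f23696_ag.Y.Geo
import Pool.Agent.Lib.MP_f23696_ag.Y.Arc
import Pool.Agent.Lib.MP_f23696_ag.Y.Farkas
import Pool.Agent.Lib.MP_f23696_ag.Y.Pt
import Pool.Agent.Lib.MP_f23696_ag.Y.TwF

/-!
Project COX, module TNa: homogeneous elements of degree zero.

* `rep`: `Geo.memA`.  `rep'`: `P` homogeneous of degree `0`; by `S.deg0` (with `Q = 1`) there is
  `b : K` with `S.φ b = aeval x P`, and `b ∈ A` by `memA`.
* `monoA`: the monomial `X^μ` with `∑ μ i • χ i = 0` is homogeneous of degree `0` and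
  `aeval x (X^μ) = ∏ x i ^ μ i = ∏ φ (ξ i)^(μ i) * ∏ sp (χ i) ^ (μ i)` (`x_eq`), the last product is
  `sp (∑ μ i • χ i) = sp 0 = 1` (`sp_add`, `sp_zero`); so it equals `φ (∏ ξ i ^ μ i)`, and
  `∏ ξ i ^ μ i ∈ A` by `memA`.
* `mono_nonneg`: `v` is nonnegative on `A`, and `v (∏ ξ i ^ μ i) = ∑ μ i v(ξ i)`.
* `lowA`: every monomial `d` in the support of `P` has `∑ d i • χ i = 0`; `wt (rv v r) d =
  r * ∑ d i v(ξ i) ≥ 0`.
* `fk`: `farkas` with `b i = S.rv v r i`; `n i = (M * rv i + ∑ χ i l * s' l).toNat`.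
* `tnPt`: `pt` with `Mx = {P | IsWeightedHomogeneous χ P 0 ∧ ∃ b : A, b ∈ 𝔪 ∧ φ b = aeval x P}`.
  `h2`: sums.  `h3`: `Q` homogeneous of degree `0` represents some `b' : A` (`rep'`), `b' * b ∈ 𝔪`.
  `h4`: `P ∈ J` homogeneous of degree `0` represents some `b : A`, and `hJv` with
  `v.HasCenter A q` gives `b ∈ q ≤ 𝔪`.  `h5`: `φ b = 1` gives `b = 1 ∈ 𝔪`, a contradiction.
-/

set_option autoImplicit false

namespace Pool.Agent.MLD.Cox

open MvPolynomial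
open scoped PowerSeries

universe u v w

variable {k : Type u} {K : Type v} {L : Type w} [Field k] [Field K] [Field L] [Algebra k K]
    [Algebra k L] {m h c : ℕ} (S : Sys k K L m h c) (A : Subalgebra k K)

/-- `P` is homogeneous of degree `0` and represents `b` -/
def Sys.Rep (P : MvPolynomial (Ix m h c) k) (b : K) : Prop :=
  IsWeightedHomogeneous S.χ P 0 ∧ S.φ b = aeval S.x P

theorem Sys.rep (hG : Geo S A) (b : A) : ∃ P, S.Rep P b := by
  exact (hG.memA (b : K)).1 b.2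

theorem Sys.rep' (hG : Geo S A) (P : MvPolynomial (Ix m h c) k)
    (hP : IsWeightedHomogeneous S.χ P 0) : ∃ b : A, S.Rep P b := by
  obtain ⟨a, ha⟩ := (S.deg0 (aeval S.x P)).2
    ⟨0, P, 1, hP, isWeightedHomogeneous_one k S.χ, by simp, by simp⟩
  have hA : a ∈ A := (hG.memA a).2 ⟨P, hP, ha⟩
  exact ⟨⟨a, hA⟩, hP, ha⟩

private theorem TNa_ord_one (v : DVal k K) : v.ord (1 : K) = 0 := by
  have h1 := v.ord_mul 1 1 one_ne_zero one_ne_zero
  rw [mul_one] at h1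
  omega

private theorem TNa_ord_pow (v : DVal k K) {a : K} (ha : a ≠ 0) (n : ℕ) :
    v.ord (a ^ n) = n * v.ord a := by
  induction n with
  | zero => simp [TNa_ord_one]
  | succ n ih =>
    rw [pow_succ, v.ord_mul _ _ (pow_ne_zero n ha) ha, ih]
    push_cast
    ring

private theorem TNa_ord_prod (v : DVal k K) {ι : Type*} (T : Finset ι) (f : ι → K)
    (hf : ∀ i, f i ≠ 0) : v.ord (∏ i ∈ T, f i) = ∑ i ∈ T, v.ord (f i) := by
  classical
  induction T using Finset.induction_on with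
  | empty => simp [TNa_ord_one]
  | insert a T ha ih =>
    rw [Finset.prod_insert ha, Finset.sum_insert ha,
      v.ord_mul _ _ (hf a) (Finset.prod_ne_zero_iff.2 fun i _ => hf i), ih]

theorem Sys.monoA (hG : Geo S A) (μ : Ix m h c → ℕ) (hμ : ∑ i, μ i • S.χ i = 0) :
    ∏ i, S.ξ i ^ μ i ∈ A := by
  refine (hG.memA _).2 ⟨∏ i, X i ^ μ i, ?_, ?_⟩
  · rw [← hμ]
    exact IsWeightedHomogeneous.prod _ _ _ fun i _ => (isWeightedHomogeneous_X k S.χ i).pow (μ i)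
  · rw [map_prod, map_prod]
    have h1 : ∀ i, S.φ (S.ξ i ^ μ i) = S.x i ^ μ i * S.sp (-((μ i : ℤ) • S.χ i)) := by
      intro i
      rw [map_pow, S.φ_ξ, mul_pow, S.sp_neg, S.sp_neg, S.sp_zsmul, inv_pow, zpow_natCast]
    rw [Finset.prod_congr rfl fun i _ => h1 i, Finset.prod_mul_distrib, ← S.sp_sum,
      Finset.sum_neg_distrib]
    have h2 : ∑ i, (μ i : ℤ) • S.χ i = 0 := by
      rw [← hμ]
      exact Finset.sum_congr rfl fun i _ => natCast_zsmul _ _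
    rw [h2, neg_zero, S.sp_zero, mul_one]
    exact Finset.prod_congr rfl fun i _ => by rw [map_pow, aeval_X]

theorem Sys.mono_nonneg (hG : Geo S A) (v : DVal k K) (hv : ∀ b : A, v.Integral (b : K))
    (μ : Ix m h c → ℕ) (hμ : ∑ i, μ i • S.χ i = 0) : 0 ≤ ∑ i, (μ i : ℤ) * v.ord (S.ξ i) := by
  have hne : ∀ i, S.ξ i ^ μ i ≠ 0 := fun i => pow_ne_zero _ (S.ξ_ne i)
  have h1 : 0 ≤ v.ord (∏ i, S.ξ i ^ μ i) :=
    hv ⟨_, S.monoA A hG μ hμ⟩
      (show ∏ i, S.ξ i ^ μ i ≠ 0 from Finset.prod_ne_zero_iff.2 fun i _ => hne i)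
  rw [TNa_ord_prod v _ _ hne] at h1
  refine h1.trans_eq (Finset.sum_congr rfl fun i _ => ?_)
  exact TNa_ord_pow v (S.ξ_ne i) _

theorem Sys.lowA (hG : Geo S A) (v : DVal k K) (hv : ∀ b : A, v.Integral (b : K)) (r : ℕ)
    (P : MvPolynomial (Ix m h c) k) (hP : IsWeightedHomogeneous S.χ P 0) :
    Low (S.rv v r) 0 P := by
  intro d hd
  have h1 : ∑ i, d i • S.χ i = 0 := by
    have h2 := hP (mem_support_iff.1 hd)
    rw [← h2, Finsupp.weight_apply,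
      Finsupp.sum_fintype d (fun i (a : ℕ) => a • S.χ i) fun i => zero_smul ℕ (S.χ i)]
  have h3 := S.mono_nonneg A hG v hv (fun i => d i) h1
  have h4 : wt (S.rv v r) d = r * ∑ i, (d i : ℤ) * v.ord (S.ξ i) := by
    unfold wt Sys.rv
    rw [Finset.mul_sum]
    exact Finset.sum_congr rfl fun i _ => by ring
  rw [h4]
  positivity

theorem Sys.fk (hG : Geo S A) (v : DVal k K) (hv : ∀ b : A, v.Integral (b : K)) (r : ℕ) :
    ∃ (M : ℕ) (s' : Fin h → ℤ) (n : Ix m h c → ℕ), 1 ≤ M ∧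
      ∀ i, (n i : ℤ) = M * S.rv v r i + ∑ l, S.χ i l * s' l := by
  obtain ⟨M, s', hM, hs⟩ := farkas S.χ (S.rv v r) (by
    intro μ hμ
    have h1 : ∑ i, μ i • S.χ i = 0 := by
      funext l
      rw [Finset.sum_apply]
      have h2 := hμ l
      simpa using h2
    have h3 := S.mono_nonneg A hG v hv μ h1
    have h4 : ∑ i, (μ i : ℤ) * S.rv v r i = r * ∑ i, (μ i : ℤ) * v.ord (S.ξ i) := by
      unfold Sys.rv
      rw [Finset.mul_sum]
      exact Finset.sum_congr rfl fun i _ => by ring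
    rw [h4]
    positivity)
  exact ⟨M, s', fun i => (M * S.rv v r i + ∑ l, S.χ i l * s' l).toNat, hM,
    fun i => Int.toNat_of_nonneg (hs i)⟩

theorem Sys.tnPt [IsAlgClosed k] (hG : Geo S A) (q 𝔪 : Ideal A) (h𝔪 : 𝔪 ≠ ⊤) (hq : q ≤ 𝔪)
    (v : DVal k K) (hv : v.HasCenter A q) (J : Ideal (MvPolynomial (Ix m h c) k))
    (hJ : ∀ P ∈ J, weightedHomogeneousComponent S.χ 0 P ∈ J)
    (hJv : ∀ (P : MvPolynomial (Ix m h c) k) (b : K), S.Rep P b → (P ∈ J ↔ v.Small b)) :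
    ∃ x₀ : Ix m h c → k, (∀ P ∈ J, aeval x₀ P = 0) ∧
      ∀ (P : MvPolynomial (Ix m h c) k) (b : A), b ∈ 𝔪 → S.Rep P b → aeval x₀ P = 0 := by
  obtain ⟨x₀, hx1, hx2⟩ := pt S.χ J hJ
    {P | IsWeightedHomogeneous S.χ P 0 ∧ ∃ b : A, b ∈ 𝔪 ∧ S.φ (b : K) = aeval S.x P}
    (fun P hP => hP.1) (by
      rintro P ⟨hP, b, hb, hbP⟩ Q ⟨hQ, b', hb', hbQ⟩
      refine ⟨hP.add hQ, b + b', 𝔪.add_mem hb hb', ?_⟩
      rw [map_add, ← hbP, ← hbQ, ← map_add]
      rfl) (by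
      rintro P ⟨hP, b, hb, hbP⟩ Q hQ
      obtain ⟨b', -, hb'⟩ := S.rep' A hG Q hQ
      refine ⟨?_, b' * b, 𝔪.mul_mem_left b' hb, ?_⟩
      · have h1 := hQ.mul hP
        rwa [add_zero] at h1
      · rw [map_mul, ← hbP, ← hb', ← map_mul]
        rfl) (by
      intro P hP hP0
      obtain ⟨b, hb⟩ := S.rep' A hG P hP0
      exact ⟨hP0, b, hq ((hv.2 b).2 ((hJv P b hb).1 hP)), hb.2⟩) (by
      rintro ⟨-, b, hb, hb1⟩
      rw [map_one] at hb1
      have h1 : (b : K) = 1 := by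
        apply (S.φ : K →+* L).injective
        rw [map_one]
        exact hb1
      have h2 : b = 1 := Subtype.ext h1
      rw [h2] at hb
      exact h𝔪 ((Ideal.eq_top_iff_one 𝔪).2 hb))
  exact ⟨x₀, hx1, fun P b hb hPb => hx2 P ⟨hPb.1, b, hb, hPb.2⟩⟩

end Pool.Agent.MLD.Cox
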