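import Pool.Agent.Lib.MP_f23696_ag.Y.Ld

/-!
Project COX, module ValL: the valuation of a field embedded in a field of Laurent series.

Proof.  The orders `(φ a).order`, `a ≠ 0`, form a subgroup of `ℤ` (`order_mul'`, `φ a ≠ 0`), not
zero by hypothesis, so it is `q ℤ` with `q ≥ 1` (`Int.subgroup_cyclic` or `AddSubgroup` of `ℤ`);
put `v'.ord a = (φ a).order / q`.  `ord_add`: `HahnSeries.min_order_le_order_add`.
`ord_algebraMap`: `φ (algebraMap k K c) = algebraMap k _ c` is a constant `C c`, of order `0`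
(`algebraMap_laurent'` in DerInst.lean).  (Compare `restrict` in T/Res.lean.)
-/

set_option autoImplicit false

namespace Pool.Agent.MLD.Cox

universe u v w

private theorem ValL_order_inv {κ : Type w} [Field κ] (f : HahnSeries ℤ κ) (hf : f ≠ 0) :
    (f⁻¹).order = -f.order := by
  have h1 := order_mul' f⁻¹ f (inv_ne_zero hf) hf
  rw [inv_mul_cancel₀ hf, HahnSeries.order_one] at h1
  omega

/-- the orders, as a subgroup -/
private def ValL_vals {k : Type u} {K : Type v} {κ : Type w} [Field k] [Field K] [Algebra k K]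
    [Field κ] [Algebra k κ] (φ : K →ₐ[k] HahnSeries ℤ κ) : AddSubgroup ℤ where
  carrier := {n | ∃ a : K, a ≠ 0 ∧ (φ a).order = n}
  zero_mem' := ⟨1, one_ne_zero, by rw [map_one, HahnSeries.order_one]⟩
  add_mem' := by
    rintro x y ⟨a, ha, hx⟩ ⟨b, hb, hy⟩
    refine ⟨a * b, mul_ne_zero ha hb, ?_⟩
    rw [map_mul, order_mul' _ _ (by simpa using ha) (by simpa using hb), hx, hy]
  neg_mem' := by
    rintro x ⟨a, ha, hx⟩
    refine ⟨a⁻¹, inv_ne_zero ha, ?_⟩
    rw [map_inv₀, ValL_order_inv _ (by simpa using ha), hx]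

theorem valL {k : Type u} {K : Type v} {κ : Type w} [Field k] [Field K] [Algebra k K] [Field κ]
    [Algebra k κ] (φ : K →ₐ[k] HahnSeries ℤ κ) (h : ∃ a : K, a ≠ 0 ∧ (φ a).order ≠ 0) :
    ∃ (v' : DVal k K) (q : ℕ), 1 ≤ q ∧ ∀ a : K, a ≠ 0 → (φ a).order = q * v'.ord a := by
  classical
  obtain ⟨g, hg⟩ := Int.subgroup_cyclic (ValL_vals φ)
  have hmem : ∀ n : ℤ, n ∈ ValL_vals φ ↔ g ∣ n := by
    intro n
    rw [hg, AddSubgroup.mem_closure_singleton]
    constructor
    · rintro ⟨c, hc⟩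
      exact ⟨c, by rw [← hc, smul_eq_mul, mul_comm]⟩
    · rintro ⟨c, hc⟩
      exact ⟨c, by rw [hc, smul_eq_mul, mul_comm]⟩
  have hdvd : ∀ a : K, a ≠ 0 → (g.natAbs : ℤ) ∣ (φ a).order := by
    intro a ha
    rw [Int.natAbs_dvd]
    exact (hmem _).1 ⟨a, ha, rfl⟩
  have hg0 : g ≠ 0 := by
    obtain ⟨a, ha, h0⟩ := h
    intro hg0
    have := (hmem ((φ a).order)).1 ⟨a, ha, rfl⟩
    rw [hg0, zero_dvd_iff] at this
    exact h0 this
  have hepos : 0 < g.natAbs := Int.natAbs_pos.2 hg0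
  have hez : (0 : ℤ) < g.natAbs := by exact_mod_cast hepos
  have hq : ∀ a : K, a ≠ 0 → (φ a).order = g.natAbs * ((φ a).order / g.natAbs) := by
    intro a ha
    exact (Int.mul_ediv_cancel' (hdvd a ha)).symm
  have hφ : ∀ a : K, a ≠ 0 → φ a ≠ 0 := fun a ha => by simpa using ha
  refine ⟨
    { ord := fun a => (φ a).order / g.natAbs
      ord_mul := ?_
      ord_add := ?_
      ord_algebraMap := ?_
      exists_ord_eq_one := ?_ }, g.natAbs, hepos, hq⟩
  · intro a b ha hb
    have h1 := order_mul' (φ a) (φ b) (hφ a ha) (hφ b hb)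
    rw [← map_mul, hq a ha, hq b hb, hq (a * b) (mul_ne_zero ha hb), ← mul_add] at h1
    exact mul_left_cancel₀ hez.ne' h1
  · intro a b ha hb hab
    have h1 : min (φ a).order (φ b).order ≤ (φ a + φ b).order :=
      HahnSeries.min_order_le_order_add (by rw [← map_add]; exact hφ _ hab)
    rw [← map_add, hq a ha, hq b hb, hq (a + b) hab, ← mul_min_of_nonneg _ _ hez.le] at h1
    exact le_of_mul_le_mul_left h1 hez
  · intro c hc
    have h1 : φ (algebraMap k K c) = HahnSeries.C (algebraMap k κ c) := by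
      rw [AlgHom.commutes]
      exact algebraMap_laurent' c
    rw [h1, HahnSeries.order_C, Int.zero_ediv]
  · have h1 : (g.natAbs : ℤ) ∈ ValL_vals φ := by
      rw [hmem, Int.dvd_natAbs]
    obtain ⟨a, ha, ha1⟩ := h1
    refine ⟨a, ha, ?_⟩
    rw [ha1, Int.ediv_self hez.ne']

end Pool.Agent.MLD.Cox
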