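import Pool.Agent.Lib.MP_f23696_ag.Y.ArcT
import Pool.Agent.Lib.MP_f23696_ag.Y.TNa
import Pool.Agent.Lib.MP_f23696_ag.Y.Eta
import Pool.Agent.Lib.MP_f23696_ag.Y.ValL
import Pool.Agent.Lib.MP_f23696_ag.Y.LogD

/-!
Project COX, module ArcV: the valuation of an arc and its log discrepancy.

Write `Ω = HahnSeries ℤ κ`, `ω' z = (D.ρ z).order`, `βJ = ∑ β j - ∑ r' (inr a)`.  `D.ρ` is injective;
`ω'` is additive on products of nonzero elements (`order_mul'`).

Proof.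
(1) For a polynomial `P` with `Low r' β' P`: `D.ρ (aeval x P) = tz β' * toL (tev r' β' P y)`
(`D.ρ_x`, `tev_laurent`).  For `b ∈ A`, `Rep P b` (`S.rep`): `D.ρ (φ b) = toL (tev r' 0 P y)`, so
`D.ρ (φ b)` is integral, and if `b ∈ 𝔪`, `b ≠ 0`, its order is positive (`h𝔪ρ`, `tz κ 0 = 1`).
(2) `valL` for `K → Ω`, `g ↦ D.ρ (φ g)` (`D.ρ.comp S.φ`), with a nonzero `b ∈ 𝔪`: `v'`, `q'`.
(3) `v'.HasCenter A 𝔪`: elements of `A` are integral, those of `𝔪` are small by (1).  If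
`a ∈ A \ 𝔪` were small: there is `a' ∈ A` with `a a' - 1 ∈ 𝔪` (`𝔪` maximal), `a a'` and `a a' - 1`
are small, so `1` is small: contradiction (`v'.ord 1 = 0`).
(4) Let `s_l = D.ρ (S.s l) ≠ 0`, `C i (inl j) = lder (d i) (D.ρ (φ (S.y j)))`,
`C i (inr l) = lder (d i) (s_l) / s_l`.  For every `q`:
`lder (d i) (D.ρ (x q)) = (∑_p C i p * D.ρ (φ (logM D ξ χ p q))) * D.ρ (x q)`:
`x q = φ (ξ q) * ∏ s_l ^ χ q l` (`S.x_eq`), `lder (d i)` is a derivation (`hder`), for `φ (ξ q)` use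
`chainK` (`lder (d i) (ρ φ ξ) = ∑_j lder (d i) (ρ φ (y j)) * ρ φ (D j ξ)`), `logM` has the entries
`D j (ξ q) / ξ q` and `χ q l`.  Hence, `q = inl i'`, taking determinants:
`det (lder (d i) (D.ρ (x (inl i')))) = det C * D.ρ (φ lam) * ∏_(i') D.ρ (x (inl i'))`.
On the other side `lder (d i) (D.ρ (x (inl i'))) = tz (r' (inl i')) * toL (cder (d i) (y (inl i')))`
(`lder_tz_mul`, `lder_toL`), so the determinant is
`tz (∑ r' (inl i')) * toL (det (cder (d i) (y (inl i'))))` (`toL_det`), not zero by `hs'`, of order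
at most `∑ r' (inl i') + s` (`order_toL_le`).  So `det C ≠ 0` and
`ord (det C) ≤ ∑ r' (inl i') + s - ω' (φ lam) - ∑ ω' (x (inl i'))`
`= ∑ r' (inl i') + s - ω' η - ω' (jd f (x))` by `η_mul`, and `ω' (jd f (x)) = βJ + e` by (1)
(`low_det`), `he0`, `he` (`order_toL`).  So `ord (det C) ≤ s - e + ∑ r' - ∑ β - ω' η`.
(5) `logD` (with `y = S.y`, `D = S.D`, `φ := D.ρ.comp S.φ`, `q = q'`, `s = s_l`, `C`).
-/

set_option autoImplicit false

namespace Pool.Agent.MLD.Cox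

open MvPolynomial
open scoped PowerSeries

universe u v w z

variable {k : Type u} {K : Type v} {L : Type w} [Field k] [Field K] [Field L] [Algebra k K]
    [Algebra k L] {m h c : ℕ}

private theorem ArcV_ld {Ω : Type*} [Field Ω] [Algebra k Ω] (E : Derivation k Ω Ω) {h : ℕ}
    (s : Fin h → Ω) (hs : ∀ l, s l ≠ 0) (n : Fin h → ℤ) (T : Finset (Fin h)) :
    E (∏ l ∈ T, s l ^ n l) =
      (∑ l ∈ T, E (s l) / s l * (n l : Ω)) * ∏ l ∈ T, s l ^ n l := by
  classical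
  induction T using Finset.induction_on with
  | empty => simp
  | insert a T ha ih =>
    have h1 : E (s a ^ n a) = E (s a) / s a * (n a : Ω) * s a ^ n a := by
      rw [Derivation.leibniz_zpow, zpow_sub_one₀ (hs a), smul_eq_mul, zsmul_eq_mul]
      field_simp
    rw [Finset.prod_insert ha, Finset.sum_insert ha, Derivation.leibniz, smul_eq_mul,
      smul_eq_mul, ih, h1]
    ring

private theorem ArcV_prod {κ : Type*} [Field κ] {ι : Type*} (T : Finset ι)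
    (f : ι → HahnSeries ℤ κ) (hf : ∀ i, f i ≠ 0) :
    (∏ i ∈ T, f i).order = ∑ i ∈ T, (f i).order := by
  classical
  induction T using Finset.induction_on with
  | empty => simp
  | insert i T hi ih =>
    rw [Finset.prod_insert hi, Finset.sum_insert hi,
      HahnSeries.order_mul (hf i) (Finset.prod_ne_zero_iff.2 fun j _ => hf j), ih]

private theorem ArcV_tz {κ : Type*} [Field κ] (n : ℤ) : (tz κ n).order = n := by
  unfold tz
  exact HahnSeries.order_single one_ne_zero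

private theorem ArcV_tz0 {κ : Type*} [Field κ] : tz κ 0 = 1 := rfl

theorem arcV [CharZero k] (S : Sys k K L m h c) (A : Subalgebra k K) (hG : Geo S A)
    (𝔪 : Ideal A) (h𝔪 : 𝔪.IsMaximal) (h0 : 𝔪 ≠ ⊥) (r' : Ix m h c → ℤ)
    (hlow : ∀ P : MvPolynomial (Ix m h c) k, IsWeightedHomogeneous S.χ P 0 → Low r' 0 P)
    {κ : Type z} [Field κ] [Algebra k κ] (D : ArcData S r' κ) (β : Fin c → ℤ)
    (hβ : ∀ j, Low r' (β j) (S.f j)) (e s : ℕ)
    (he0 : ∀ i < e, PowerSeries.coeff i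
        (tev r' (∑ j, β j - ∑ a, r' (Sum.inr a)) (jd S.f) D.y) = 0)
    (he : PowerSeries.coeff e (tev r' (∑ j, β j - ∑ a, r' (Sum.inr a)) (jd S.f) D.y) ≠ 0)
    (hs : PowerSeries.coeff s (Matrix.det (Matrix.of fun i i' =>
        cder (D.d i) (D.y (Sum.inl i')))) ≠ 0)
    (h𝔪ρ : ∀ (P : MvPolynomial (Ix m h c) k) (b : A), b ∈ 𝔪 → S.Rep P b →
      PowerSeries.constantCoeff (tev r' 0 P D.y) = 0) :
    ∃ (v' : DVal k K) (q' : ℕ) (j' : ℤ), 1 ≤ q' ∧
      (∀ b : K, b ≠ 0 → (D.ρ (S.φ b)).order = q' * v'.ord b) ∧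
      v'.IsDivisorial m ∧ v'.HasCenter A 𝔪 ∧ v'.FormOrd S.D j' ∧
      (q' : ℤ) * (1 + j') ≤ s - e + ∑ i, r' i - ∑ j, β j - (D.ρ S.η).order := by
  classical
  have hρφ : ∀ b : K, b ≠ 0 → D.ρ (S.φ b) ≠ 0 := fun b hb =>
    (map_ne_zero D.ρ).2 ((map_ne_zero S.φ).2 hb)
  have hA : ∀ (P : MvPolynomial (Ix m h c) k) (β' : ℤ), Low r' β' P →
      D.ρ (aeval S.x P) = tz κ β' * toL (tev r' β' P D.y) := by
    intro P β' hP
    rw [← tev_laurent r' β' P hP D.y, ← AlgHom.comp_apply, comp_aeval]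
    congr 2
    funext i
    exact D.ρ_x i
  have hR : ∀ (P : MvPolynomial (Ix m h c) k) (b : K), S.Rep P b →
      D.ρ (S.φ b) = toL (tev r' 0 P D.y) := by
    intro P b hP
    rw [hP.2, hA P 0 (hlow P hP.1), ArcV_tz0, one_mul]
  have hGe0 : ∀ b : A, Ge 0 (D.ρ (S.φ (b : K))) := by
    intro b
    obtain ⟨P, hP⟩ := S.rep A hG b
    rw [hR P b hP]
    have h1 := (ge_toL (tev r' 0 P D.y) 0).2 (by rw [pow_zero]; exact one_dvd _)
    exact_mod_cast h1
  have hGe1 : ∀ b : A, b ∈ 𝔪 → Ge 1 (D.ρ (S.φ (b : K))) := by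
    intro b hb
    obtain ⟨P, hP⟩ := S.rep A hG b
    rw [hR P b hP]
    have h1 := (ge_toL (tev r' 0 P D.y) 1).2 (by
      rw [pow_one, PowerSeries.X_dvd_iff]
      exact h𝔪ρ P b hb hP)
    exact_mod_cast h1
  -- the valuation
  obtain ⟨b₀, hb₀, hb₀0⟩ := Submodule.exists_mem_ne_zero_of_ne_bot h0
  have hb₀K : (b₀ : K) ≠ 0 := fun h => hb₀0 (Subtype.ext h)
  obtain ⟨v', q', hq', hv'⟩ := valL (D.ρ.comp S.φ) ⟨(b₀ : K), hb₀K, by
    have h1 := (ge_iff 1 _ (hρφ _ hb₀K)).1 (hGe1 b₀ hb₀)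
    show (D.ρ (S.φ (b₀ : K))).order ≠ 0
    omega⟩
  have hv1 : ∀ b : K, b ≠ 0 → (D.ρ (S.φ b)).order = q' * v'.ord b := hv'
  have hq0 : (0 : ℤ) < q' := by exact_mod_cast hq'
  have hcen : v'.HasCenter A 𝔪 := by
    refine ⟨fun a ha => ?_, fun a => ⟨fun ha ha0 => ?_, fun ha => ?_⟩⟩
    · have h1 := (ge_iff 0 _ (hρφ _ ha)).1 (hGe0 a)
      rw [hv1 _ ha] at h1
      exact nonneg_of_mul_nonneg_right h1 hq0
    · have h1 := (ge_iff 1 _ (hρφ _ ha0)).1 (hGe1 a ha)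
      rw [hv1 _ ha0] at h1
      have h2 : (0 : ℤ) < q' * v'.ord (a : K) := by omega
      exact (mul_pos_iff_of_pos_left hq0).1 h2
    · by_contra ham
      obtain ⟨y, i, hi, hyi⟩ := h𝔪.exists_inv ham
      have ha0 : (a : K) ≠ 0 := by
        intro h
        apply ham
        have h2 : a = 0 := Subtype.ext h
        rw [h2]
        exact 𝔪.zero_mem
      have h1 : Ge 1 (D.ρ (S.φ (a : K))) := by
        rw [ge_iff 1 _ (hρφ _ ha0), hv1 _ ha0]
        have h2 : 0 < (q' : ℤ) * v'.ord (a : K) := mul_pos hq0 (ha ha0)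
        omega
      have h2 := ((hGe0 y).mul h1).add (by
        rw [zero_add]
        exact hGe1 i hi)
      rw [zero_add, ← map_mul, ← map_mul, ← map_add, ← map_add] at h2
      have h3 : ((y : K) * (a : K) + (i : K)) = 1 := by
        have h4 := congrArg (fun z : A => (z : K)) hyi
        exact h4
      rw [h3, map_one, map_one] at h2
      have h5 := h2 0 one_pos
      rw [HahnSeries.coeff_one, if_pos rfl] at h5
      exact one_ne_zero h5
  -- the matrix `C`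
  have hs0 : ∀ l, D.ρ (S.s l) ≠ 0 := fun l => (map_ne_zero D.ρ).2 (S.s_ne l)
  obtain ⟨C, hC⟩ : ∃ C : Matrix (Fin (m + 1) ⊕ Fin h) (Fin (m + 1) ⊕ Fin h) (HahnSeries ℤ κ),
      C = Matrix.of fun i p => Sum.elim (fun j => lder (D.d i) (D.ρ (S.φ (S.y j))))
        (fun l => lder (D.d i) (D.ρ (S.s l)) / D.ρ (S.s l)) p := ⟨_, rfl⟩
  have hC1 : ∀ i j, C i (Sum.inl j) = lder (D.d i) (D.ρ (S.φ (S.y j))) := by
    intro i j
    rw [hC]
    rfl
  have hC2' : ∀ i l, C i (Sum.inr l) = lder (D.d i) (D.ρ (S.s l)) / D.ρ (S.s l) := by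
    intro i l
    rw [hC]
    rfl
  have hkey : ∀ i q, lder (D.d i) (D.ρ (S.x q)) =
      D.ρ (S.x q) * (C * (logM S.D S.ξ S.χ).map fun z => D.ρ (S.φ z)) i q := by
    intro i q
    obtain ⟨E, hE⟩ := mk_der (k := k) (L := HahnSeries ℤ κ) (fun f => lder (D.d i) f)
      (fun f g => by
        ext n
        rw [lder_coeff, HahnSeries.coeff_add, HahnSeries.coeff_add, lder_coeff, lder_coeff,
          map_add])
      (fun f g => lder_mul (D.d i) f g)
      (fun x => by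
        ext n
        rw [lder_coeff]
        have h1 : (algebraMap k (HahnSeries ℤ κ)) x = HahnSeries.C (algebraMap k κ x) :=
          algebraMap_laurent' x
        rw [h1, HahnSeries.C_apply, HahnSeries.coeff_zero, HahnSeries.coeff_single]
        split_ifs with h2
        · exact (D.d i).map_algebraMap x
        · exact map_zero (D.d i))
    have h1 := chainK S.y S.hy S.D S.hD (D.ρ.comp S.φ) E (S.ξ q)
    have h2 := ArcV_ld E (fun l => D.ρ (S.s l)) hs0 (S.χ q) Finset.univ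
    simp only [hE, AlgHom.comp_apply] at h1 h2
    have h3 : D.ρ (S.x q) = D.ρ (S.φ (S.ξ q)) * ∏ l, D.ρ (S.s l) ^ S.χ q l := by
      conv_lhs => rw [S.x_eq q]
      rw [map_mul]
      congr 1
      unfold Sys.sp
      rw [map_prod]
      exact Finset.prod_congr rfl fun l _ => map_zpow₀ D.ρ _ _
    have h4 : D.ρ (S.φ (S.ξ q)) ≠ 0 := hρφ _ (S.ξ_ne q)
    have h5 : (C * (logM S.D S.ξ S.χ).map fun z => D.ρ (S.φ z)) i q =
        (∑ j, lder (D.d i) (D.ρ (S.φ (S.y j))) * D.ρ (S.φ (S.D j (S.ξ q)))) /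
          D.ρ (S.φ (S.ξ q)) +
        ∑ l, lder (D.d i) (D.ρ (S.s l)) / D.ρ (S.s l) * (S.χ q l : HahnSeries ℤ κ) := by
      rw [Matrix.mul_apply, Fintype.sum_sum_type, Finset.sum_div]
      congr 1
      · refine Finset.sum_congr rfl fun j _ => ?_
        rw [hC1]
        show _ * D.ρ (S.φ (S.D j (S.ξ q) / S.ξ q)) = _
        rw [map_div₀, map_div₀, mul_div_assoc]
      · refine Finset.sum_congr rfl fun l _ => ?_
        rw [hC2']
        show _ * D.ρ (S.φ ((S.χ q l : ℤ) : K)) = _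
        rw [map_intCast, map_intCast]
    rw [h5, ← h1, h3, lder_mul, h2]
    field_simp
    ring
  have hdet1 : (Matrix.of fun i i' => lder (D.d i) (D.ρ (S.x (Sum.inl i')))).det =
      (∏ i', D.ρ (S.x (Sum.inl i'))) * (C.det * D.ρ (S.φ S.lam)) := by
    have h1 : (Matrix.of fun i i' => lder (D.d i) (D.ρ (S.x (Sum.inl i')))) =
        Matrix.of fun i i' => D.ρ (S.x (Sum.inl i')) *
          (C * ((D.ρ : L →+* HahnSeries ℤ κ).comp (S.φ : K →+* L)).mapMatrix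
            ((logM S.D S.ξ S.χ).submatrix id Sum.inl)) i i' := by
      ext1 i i'
      rw [Matrix.of_apply, Matrix.of_apply, hkey]
      rfl
    rw [h1, Matrix.det_mul_row, Matrix.det_mul, ← RingHom.map_det]
    rfl
  have hdet2 : (Matrix.of fun i i' => lder (D.d i) (D.ρ (S.x (Sum.inl i')))).det =
      (∏ i', tz κ (r' (Sum.inl i'))) * toL (Matrix.det (Matrix.of fun i i' =>
        cder (D.d i) (D.y (Sum.inl i')))) := by
    have h1 : (Matrix.of fun i i' => lder (D.d i) (D.ρ (S.x (Sum.inl i')))) =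
        Matrix.of fun i i' => tz κ (r' (Sum.inl i')) *
          (Matrix.of fun i i' => toL (cder (D.d i) (D.y (Sum.inl i')))) i i' := by
      ext1 i i'
      rw [Matrix.of_apply, Matrix.of_apply, Matrix.of_apply, D.ρ_x, lder_tz_mul, lder_toL]
    rw [h1, Matrix.det_mul_row, toL_det]
    rfl
  obtain ⟨hΔ0, hΔ1, hΔ2⟩ := order_toL_le _ s hs
  have hx0 : ∀ i : Ro m h, D.ρ (S.x (Sum.inl i)) ≠ 0 := fun i =>
    (map_ne_zero D.ρ).2 (S.x_ne _)
  have hlam : D.ρ (S.φ S.lam) ≠ 0 := hρφ _ S.lam_ne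
  have hprod : (∏ i' : Ro m h, tz κ (r' (Sum.inl i'))) ≠ 0 :=
    Finset.prod_ne_zero_iff.2 fun i _ => tz_ne _
  have heq := hdet1.symm.trans hdet2
  have hCdet : C.det ≠ 0 := by
    intro h1
    rw [h1, zero_mul, mul_zero] at heq
    exact (mul_ne_zero hprod hΔ0) heq.symm
  have ho := congrArg HahnSeries.order heq
  rw [order_mul' _ _ (Finset.prod_ne_zero_iff.2 fun i _ => hx0 i) (mul_ne_zero hCdet hlam),
    order_mul' _ _ hCdet hlam, order_mul' _ _ hprod hΔ0,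
    ArcV_prod _ (fun i' : Ro m h => tz κ (r' (Sum.inl i'))) (fun i => tz_ne _),
    Finset.sum_congr rfl fun i' _ => ArcV_tz (r' (Sum.inl i'))] at ho
  -- the order of `η`
  have hη := congrArg D.ρ S.η_mul
  rw [map_mul, map_mul, map_prod] at hη
  have hJ0 : D.ρ (aeval S.x (jd S.f)) ≠ 0 := (map_ne_zero D.ρ).2 S.jac
  have hη0 : D.ρ S.η ≠ 0 := (map_ne_zero D.ρ).2 S.η_ne
  have hηo := congrArg HahnSeries.order hη
  rw [order_mul' _ _ hη0 hJ0,
    order_mul' _ _ (Finset.prod_ne_zero_iff.2 fun i _ => hx0 i) hlam] at hηo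
  obtain ⟨hJ1, hJ2⟩ := order_toL _ e he0 he
  have hJo : (D.ρ (aeval S.x (jd S.f))).order =
      ∑ j, β j - ∑ a, r' (Sum.inr a) + e := by
    rw [hA _ _ (low_det r' β S.f hβ), order_tz_mul _ _ hJ1, hJ2]
  obtain ⟨hdiv, j', hj', hj1⟩ := logD v' S.y S.hy S.D S.hD (D.ρ.comp S.φ) q' hq' hv'
    (fun l => D.ρ (S.s l)) hs0 D.d C hC1
    (fun i l => by
      rw [hC2']
      exact div_mul_cancel₀ _ (hs0 l))
    hCdet
  refine ⟨v', q', j', hq', hv1, hdiv, hcen, hj', hj1.trans ?_⟩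
  have hsum : ∑ i, r' i = ∑ i, r' (Sum.inl i) + ∑ a, r' (Sum.inr a) :=
    Fintype.sum_sum_type r'
  rw [hsum]
  rw [hJo] at hηo
  linarith

end Pool.Agent.MLD.Cox
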