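import Pool.Agent.Lib.MP_f23696_ag.Y.Td
import Pool.Agent.Lib.MP_f23696_ag.Jind

/-!
Project COX, module Rnk: transcendence degree and derivations in characteristic zero.

`rnk`.  Proof: choose `n` linearly independent elements of `DV w`; by `mem_DV` they are
`(d_a (w i))_i` with derivations `d_a`, `a < n`.  The `n × ι` matrix `(d_a (w i))` has rank `n`, so
there is `S : Fin n → ι` with `det (d_a (w (S b))) ≠ 0`.  Claim: the elements `w (S b)` are
algebraically independent over `k`.  Otherwise let `F ≠ 0` be a polynomial of least total degree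
with `F(w ∘ S) = 0`.  Apply `d_a`: `∑_b (∂_b F)(w ∘ S) d_a (w (S b)) = 0` for all `a`, so
`(∂_b F)(w ∘ S) = 0` for all `b`; by minimality `∂_b F = 0` for all `b`, in characteristic zero `F`
is a constant, and `F(w ∘ S) = 0` gives `F = 0`.  So `t b = X (S b)` works in `TD`.
(`jac_indep` in Jind.lean is a similar statement.)

`kdim`.  Proof: by `td_ker` there are polynomials `t b`, `b < n`, such that `τ b = aeval w (t b)`
are algebraically independent over `k` in `κ`.  There are derivations `d_a` of `κ/k` with
`d_a (τ b) = δ_ab` (`dual_ex` below).  By the chain rule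
`d_a (τ b) = ∑_i (aeval w (pderiv i (t b))) * d_a (w i)`, so the linear functional
`ℓ_b(z) = ∑_i aeval w (pderiv i (t b)) * z i` takes the value `δ_ab` at
`z_a = (d_a (w i))_i ∈ DV w`:
the `z_a` are linearly independent.

`dual_ex`: extend `τ` to a transcendence basis `(τ_j)_(j ∈ T)` of `κ/k`; on `k(τ_j : j ∈ T)` (the
fraction field of a polynomial ring) there are the partial derivatives, and derivations extend to
the algebraic extension `κ` (characteristic zero).  See Hahn.lean (`Hahn.dext`), T/Lin.lean,
T/Norm.lean in Lib/MP_f23696_ag for similar constructions, or use Kaehler differentials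
(`Algebra.FormallyEtale` for separable algebraic extensions).
-/

set_option autoImplicit false

namespace Pool.Agent.MLD.Cox

open MvPolynomial

universe u v w

/-- derivations into `κ` extend along a formally étale map to `κ` -/
private theorem Rnk.lift {k : Type u} {A : Type v} {κ : Type v} [Field k] [CommRing A] [Field κ]
    [Algebra k A] [Algebra k κ] [Algebra A κ] [IsScalarTower k A κ] [Algebra.FormallyEtale A κ]
    (δ : Derivation k A κ) : ∃ d : Derivation k κ κ, ∀ a : A, d (algebraMap A κ a) = δ a := by
  let e := KaehlerDifferential.tensorKaehlerEquivOfFormallyEtale k A κ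
  let φ : Ω[κ⁄k] →ₗ[κ] κ :=
    (δ.liftKaehlerDifferential.liftBaseChange κ).comp e.symm.toLinearMap
  refine ⟨φ.compDer (KaehlerDifferential.D k κ), fun a => ?_⟩
  show (δ.liftKaehlerDifferential.liftBaseChange κ)
    (e.symm (KaehlerDifferential.D k κ (algebraMap A κ a))) = _
  rw [KaehlerDifferential.tensorKaehlerEquivOfFormallyEtale_symm_D_algebraMap,
    LinearMap.liftBaseChange_tmul, one_smul, Derivation.liftKaehlerDifferential_comp_D]

open scoped IntermediateField.algebraAdjoinAdjoin in
/-- a field of characteristic zero is formally étale over the polynomial ring of a transcendence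
basis -/
private theorem Rnk.et {k : Type u} {κ : Type v} [Field k] [CharZero k] [Field κ] [Algebra k κ]
    {ι : Type w} (x : ι → κ) (hx : IsTranscendenceBasis k x) :
    Algebra.FormallyEtale (Algebra.adjoin k (Set.range x)) κ := by
  have h0 : CharZero κ := charZero_of_injective_algebraMap (algebraMap k κ).injective
  have h1 := hx.isAlgebraic_field
  have h2 : Algebra.FormallyEtale (IntermediateField.adjoin k (Set.range x)) κ :=
    Algebra.FormallyEtale.of_isSeparable _ κ
  have h3 : Algebra.FormallyEtale (Algebra.adjoin k (Set.range x))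
      (IntermediateField.adjoin k (Set.range x)) :=
    .of_isLocalization (nonZeroDivisors _)
  exact .comp _ (IntermediateField.adjoin k (Set.range x)) _

/-- the partial derivative with respect to an element of a transcendence basis -/
private theorem Rnk.part {k : Type u} {κ : Type v} [Field k] [CharZero k] [Field κ] [Algebra k κ]
    {ι : Type v} (x : ι → κ) (hx : IsTranscendenceBasis k x) (j : ι) :
    ∃ d : Derivation k κ κ, ∀ F : MvPolynomial ι k, d (aeval x F) = aeval x (pderiv j F) := by
  have h1 := Rnk.et x hx
  let e := hx.1.aevalEquiv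
  have he : ∀ a : Algebra.adjoin k (Set.range x), aeval x (e.symm a) = (a : κ) := by
    intro a
    have h2 := hx.1.algebraMap_aevalEquiv (e.symm a)
    rw [← h2]
    change ((e (e.symm a) : Algebra.adjoin k (Set.range x)) : κ) = a
    rw [AlgEquiv.apply_symm_apply]
  let δ : Derivation k (Algebra.adjoin k (Set.range x)) κ := Derivation.mk'
    ((aeval x).toLinearMap ∘ₗ (pderiv j).toLinearMap ∘ₗ e.symm.toLinearMap) (by
      intro a b
      change aeval x (pderiv j (e.symm (a * b))) =
        a • aeval x (pderiv j (e.symm b)) + b • aeval x (pderiv j (e.symm a))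
      rw [map_mul, Derivation.leibniz, map_add, smul_eq_mul, smul_eq_mul, map_mul, map_mul, he, he]
      rfl)
  obtain ⟨d, hd⟩ := Rnk.lift δ
  refine ⟨d, fun F => ?_⟩
  have h3 := hd (e F)
  have h4 : algebraMap (Algebra.adjoin k (Set.range x)) κ (e F) = aeval x F :=
    hx.1.algebraMap_aevalEquiv F
  rw [h4] at h3
  rw [h3]
  change aeval x (pderiv j (e.symm (e F))) = _
  rw [AlgEquiv.symm_apply_apply]

theorem dual_ex {k : Type u} {κ : Type v} [Field k] [CharZero k] [Field κ] [Algebra k κ] {n : ℕ}
    (τ : Fin n → κ) (hτ : AlgebraicIndependent k τ) :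
    ∃ d : Fin n → Derivation k κ κ, ∀ a b, d a (τ b) = if a = b then 1 else 0 := by
  classical
  obtain ⟨t, ht, hb⟩ := exists_isTranscendenceBasis_superset hτ.coe_range
  let x : t → κ := fun z => (z : κ)
  have hx : IsTranscendenceBasis k x := hb
  let c : Fin n → t := fun a => ⟨τ a, ht ⟨a, rfl⟩⟩
  have hc : ∀ a b, c a = c b ↔ a = b := by
    intro a b
    constructor
    · intro h
      exact hτ.injective (congrArg (fun z : t => (z : κ)) h)
    · rintro rfl
      rfl
  choose d hd using fun a => Rnk.part x hx (c a)
  refine ⟨d, fun a b => ?_⟩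
  have h1 := hd a (X (c b))
  rw [aeval_X, pderiv_X] at h1
  have h2 : x (c b) = τ b := rfl
  rw [h2] at h1
  rw [h1]
  by_cases hab : a = b
  · subst hab
    rw [Pi.single_eq_same, map_one, if_pos rfl]
  · have h3 : c a ≠ c b := fun h => hab ((hc a b).1 h)
    rw [Pi.single_eq_of_ne h3.symm, map_zero, if_neg hab]

/-- independent rows have a nonvanishing maximal minor -/
private theorem Rnk.cols {K : Type v} [Field K] {r : ℕ} {ι : Type w} [Fintype ι]
    (M : Matrix (Fin r) ι K) (hM : LinearIndependent K M.row) :
    ∃ c : Fin r → ι, (M.submatrix id c).det ≠ 0 := by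
  classical
  have hrank' : M.rank = r := by
    rw [Matrix.rank_eq_finrank_span_row, finrank_span_eq_card hM, Fintype.card_fin]
  obtain ⟨κ', a', ha', hspan', hli'⟩ := exists_linearIndependent' K M.col
  have hκ' : Finite κ' := Finite.of_injective a' ha'
  have := Fintype.ofFinite κ'
  have hcard' : Fintype.card κ' = r := by
    rw [← hrank', Matrix.rank_eq_finrank_span_cols, ← hspan', finrank_span_eq_card hli']
  let eκ' : Fin r ≃ κ' := (Fintype.equivFinOfCardEq hcard').symm
  refine ⟨a' ∘ eκ', ?_⟩
  have h1 : LinearIndependent K (M.submatrix id (a' ∘ eκ')).col := by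
    have : (M.submatrix id (a' ∘ eκ')).col = (M.col ∘ a') ∘ eκ' := rfl
    rw [this]
    exact hli'.comp _ eκ'.injective
  rw [Matrix.linearIndependent_cols_iff_isUnit, Matrix.isUnit_iff_isUnit_det] at h1
  exact h1.ne_zero

theorem rnk {k : Type u} {κ : Type v} [Field k] [CharZero k] [Field κ] [Algebra k κ] {ι : Type w}
    [Fintype ι] (w : ι → κ) (n : ℕ) (h : n ≤ Module.finrank κ (DV (k := k) w)) :
    TD (RingHom.ker (aeval w : MvPolynomial ι k →ₐ[k] κ)) n := by
  obtain ⟨f, hf⟩ := exists_linearIndependent_of_le_finrank h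
  choose d hd using fun a => (mem_DV w (f a : ι → κ)).1 (f a).2
  have h1 : LinearIndependent κ (Matrix.of fun a i => d a (w i)).row := by
    have h2 := hf.map' (DV (k := k) w).subtype (Submodule.ker_subtype _)
    have h3 : (Matrix.of fun a i => d a (w i)).row = (DV (k := k) w).subtype ∘ f := by
      funext a i
      exact (hd a i).symm
    rw [h3]
    exact h2
  obtain ⟨c, hc⟩ := Rnk.cols _ h1
  refine (td_ker _ n).2 ⟨fun b => X (c b), ?_⟩
  have h4 : (fun b => (aeval w : MvPolynomial ι k →ₐ[k] κ) (X (c b))) = fun b => w (c b) := by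
    funext b
    rw [aeval_X]
  rw [h4]
  exact jac_indep d (fun b => w (c b)) hc

private theorem Rnk.der_aeval {k : Type u} {κ : Type v} [Field k] [Field κ] [Algebra k κ]
    {ι : Type w} [Fintype ι] (D : Derivation k κ κ) (w : ι → κ) (F : MvPolynomial ι k) :
    D (aeval w F) = ∑ l, aeval w (pderiv l F) * D (w l) := by
  classical
  induction F using MvPolynomial.induction_on with
  | C c => simp
  | add p q hp hq =>
    simp only [map_add, hp, hq, add_mul, Finset.sum_add_distrib]
  | mul_X p i hp =>
    simp only [map_mul, MvPolynomial.aeval_X, Derivation.leibniz, hp, smul_eq_mul,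
      map_add, MvPolynomial.pderiv_X, add_mul, Finset.sum_add_distrib]
    rw [Finset.mul_sum]
    congr 1
    · rw [Finset.sum_eq_single i]
      · simp
      · intro j _ hj
        simp [Ne.symm hj]
      · simp
    · exact Finset.sum_congr rfl fun l _ => by ring

theorem kdim {k : Type u} {κ : Type v} [Field k] [CharZero k] [Field κ] [Algebra k κ] {ι : Type w}
    [Fintype ι] (w : ι → κ) (n : ℕ)
    (h : TD (RingHom.ker (aeval w : MvPolynomial ι k →ₐ[k] κ)) n) :
    n ≤ Module.finrank κ (DV (k := k) w) := by
  classical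
  obtain ⟨t, ht⟩ := (td_ker _ n).1 h
  obtain ⟨d, hd⟩ := dual_ex _ ht
  let z : Fin n → DV (k := k) w := fun a => ⟨fun i => d a (w i), (mem_DV w _).2 ⟨d a, fun i => rfl⟩⟩
  let ℓ : Fin n → (DV (k := k) w →ₗ[κ] κ) := fun b =>
    (∑ i, aeval w (pderiv i (t b)) • (LinearMap.proj i : (ι → κ) →ₗ[κ] κ)) ∘ₗ
      (DV (k := k) w).subtype
  have hℓ : ∀ a b, ℓ b (z a) = if a = b then 1 else 0 := by
    intro a b
    rw [← hd a b, Rnk.der_aeval]
    simp only [ℓ, z, LinearMap.comp_apply, LinearMap.sum_apply, LinearMap.smul_apply,
      Submodule.subtype_apply, LinearMap.proj_apply, smul_eq_mul]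
  have hz : LinearIndependent κ z := by
    rw [Fintype.linearIndependent_iff]
    intro g hg b
    have h1 := congrArg (ℓ b) hg
    rw [map_sum, map_zero] at h1
    simp only [map_smul, hℓ, smul_eq_mul, mul_ite, mul_one, mul_zero, Finset.sum_ite_eq',
      Finset.mem_univ, if_true] at h1
    exact h1
  have h2 := hz.fintype_card_le_finrank
  rwa [Fintype.card_fin] at h2

end Pool.Agent.MLD.Cox
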