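import Pool.Agent.Lib.MP_f23696_ag.Y.DvKer
import Pool.Agent.Lib.MP_f23696_ag.Y.Rnk

/-!
Project COX, module Jac0: a complete intersection in characteristic zero has a nonzero Jacobian
minor.

Proof.  Let `G j i = aeval x (pderiv i (f j))`, a `c × σ` matrix over `L`.  If all `c × c` minors
vanish, its rank is less than `c`, so the kernel `V = {z : σ → L | G z = 0}` has dimension at least
`|σ| - c + 1`.  Every `z ∈ V` is in `DV x` by `dvKer`: if `aeval x F = 0` then
`F = ∑ g_j f_j` (`hker`) and `∑_i aeval x (pderiv i F) z_i = ∑_j (aeval x (g_j) (G z)_j +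
aeval x (f_j) (..)) = 0`.  (`hgen` for `dvKer`: `L` is generated by `x`,
`IntermediateField.mem_adjoin_range_iff` or similar.)  So `|σ| - c + 1 ≤ finrank (DV x)`, and `rnk`
gives `TD (ker (aeval x)) (|σ| - c + 1)`, i.e. (`td_ker`) `|σ| - c + 1` algebraically independent
elements of `L`: contradiction to `htr` (`AlgebraicIndependent.lift_cardinalMk_le_trdeg`;
the cardinal of `Fin n` is `n`).  Note `c ≤ |σ|` from `htr`.
A `c × σ` matrix of rank `c` has `c` linearly independent columns, i.e. a nonvanishing minor:
see `Rnk.cols` (private) in Rnk.lean for this argument (copy it).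
-/

set_option autoImplicit false

namespace Pool.Agent.MLD.Cox

open MvPolynomial

universe u v w

/-- independent rows have a nonvanishing maximal minor -/
private theorem Jac0_cols {K : Type v} [Field K] {r : ℕ} {ι : Type w} [Fintype ι]
    (M : Matrix (Fin r) ι K) (hrank' : M.rank = r) :
    ∃ c : Fin r → ι, (M.submatrix id c).det ≠ 0 := by
  classical
  obtain ⟨κ', a', ha', hspan', hli'⟩ := exists_linearIndependent' K M.col
  have hκ' : Finite κ' := Finite.of_injective a' ha'
  have := Fintype.ofFinite κ'
  have hcard' : Fintype.card κ' = r := by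
    rw [← hrank', Matrix.rank_eq_finrank_span_cols, ← hspan', finrank_span_eq_card hli']
  let eκ' : Fin r ≃ κ' := (Fintype.equivFinOfCardEq hcard').symm
  refine ⟨a' ∘ eκ', ?_⟩
  have h1 : LinearIndependent K (M.submatrix id (a' ∘ eκ')).col := by
    have : (M.submatrix id (a' ∘ eκ')).col = (M.col ∘ a') ∘ eκ' := rfl
    rw [this]
    exact hli'.comp _ eκ'.injective
  rw [Matrix.linearIndependent_cols_iff_isUnit, Matrix.isUnit_iff_isUnit_det] at h1
  exact h1.ne_zero

private theorem Jac0_ker {k : Type u} {L : Type v} [Field k] [Field L] [Algebra k L]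
    {σ : Type w} [Fintype σ] {c : ℕ} (x : σ → L) (f : Fin c → MvPolynomial σ k)
    (hker : RingHom.ker (aeval x : MvPolynomial σ k →ₐ[k] L) = Ideal.span (Set.range f))
    (z : σ → L) (hz : ∀ j, ∑ i, aeval x (pderiv i (f j)) * z i = 0) (F : MvPolynomial σ k)
    (hF : aeval x F = 0) : ∑ i, aeval x (pderiv i F) * z i = 0 := by
  have h1 : F ∈ Ideal.span (Set.range f) := by
    rw [← hker, RingHom.mem_ker]
    exact hF
  have h2 : ∀ G ∈ Ideal.span (Set.range f), aeval x G = 0 := fun G hG => by
    rw [← hker, RingHom.mem_ker] at hG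
    exact hG
  clear hF
  induction h1 using Submodule.span_induction with
  | mem G hG =>
    obtain ⟨j, rfl⟩ := hG
    exact hz j
  | zero =>
    refine Finset.sum_eq_zero fun i _ => ?_
    rw [map_zero, map_zero, zero_mul]
  | add G G' _ _ ih ih' =>
    have h3 : ∑ i, aeval x (pderiv i (G + G')) * z i =
        ∑ i, aeval x (pderiv i G) * z i + ∑ i, aeval x (pderiv i G') * z i := by
      rw [← Finset.sum_add_distrib]
      refine Finset.sum_congr rfl fun i _ => ?_
      rw [map_add, map_add, add_mul]
    rw [h3, ih, ih', add_zero]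
  | smul a G hG ih =>
    have h3 : ∑ i, aeval x (pderiv i (a • G)) * z i =
        aeval x a * ∑ i, aeval x (pderiv i G) * z i := by
      rw [Finset.mul_sum]
      refine Finset.sum_congr rfl fun i _ => ?_
      rw [smul_eq_mul, Derivation.leibniz, smul_eq_mul, smul_eq_mul, map_add, map_mul, map_mul,
        h2 G hG, zero_mul, add_zero, mul_assoc]
    rw [h3, ih, mul_zero]

theorem jacEx {k : Type u} {L : Type v} [Field k] [CharZero k] [Field L] [Algebra k L]
    {σ : Type w} [Fintype σ] {c : ℕ} (x : σ → L)
    (hgen : IntermediateField.adjoin k (Set.range x) = ⊤) (f : Fin c → MvPolynomial σ k)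
    (hker : RingHom.ker (aeval x : MvPolynomial σ k →ₐ[k] L) = Ideal.span (Set.range f))
    (n : ℕ) (htr : Algebra.trdeg k L = n) (hn : n + c = Fintype.card σ) :
    ∃ J : Fin c → σ, Function.Injective J ∧
      (Matrix.of fun j a => aeval x (pderiv (J a) (f j))).det ≠ 0 := by
  classical
  let G : Matrix (Fin c) σ L := Matrix.of fun j i => aeval x (pderiv i (f j))
  have hgen' : ∀ g : L, ∃ P Q : MvPolynomial σ k, aeval x Q ≠ 0 ∧ g = aeval x P / aeval x Q := by
    intro g
    have h1 : g ∈ IntermediateField.adjoin k (Set.range x) := by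
      rw [hgen]
      exact IntermediateField.mem_top
    obtain ⟨P, Q, h2⟩ := (IntermediateField.mem_adjoin_range_iff k x g).1 h1
    by_cases hQ : aeval x Q = 0
    · refine ⟨0, 1, ?_, ?_⟩
      · rw [map_one]
        exact one_ne_zero
      · rw [h2, hQ, div_zero, map_zero, zero_div]
    · exact ⟨P, Q, hQ, h2⟩
  have hrank : G.rank = c := by
    by_contra hne
    have hle : G.rank ≤ c := by
      have h1 := G.rank_le_card_height
      rwa [Fintype.card_fin] at h1
    have hlt : G.rank < c := lt_of_le_of_ne hle hne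
    have h1 := LinearMap.finrank_range_add_finrank_ker G.mulVecLin
    rw [Module.finrank_fintype_fun_eq_card] at h1
    have h2 : G.rank = Module.finrank L (LinearMap.range G.mulVecLin) := rfl
    have h3 : LinearMap.ker G.mulVecLin ≤ DV (k := k) x := by
      intro z hz
      rw [LinearMap.mem_ker, Matrix.mulVecLin_apply] at hz
      refine dvKer x hgen' z fun F hF => Jac0_ker x f hker z (fun j => ?_) F hF
      exact congrFun hz j
    have h4 := Submodule.finrank_mono h3
    have h5 : n + 1 ≤ Module.finrank L (DV (k := k) x) := by omega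
    obtain ⟨t, ht⟩ := (td_ker _ (n + 1)).1 (rnk x (n + 1) h5)
    have h6 := ht.lift_cardinalMk_le_trdeg
    rw [htr, Cardinal.mk_fin, Cardinal.lift_natCast, Cardinal.lift_natCast,
      Nat.cast_le] at h6
    omega
  obtain ⟨J, hJ⟩ := Jac0_cols G hrank
  refine ⟨J, fun a b hab => ?_, hJ⟩
  by_contra hne
  refine hJ (Matrix.det_zero_of_column_eq hne fun i => ?_)
  rw [Matrix.submatrix_apply, Matrix.submatrix_apply, hab]

end Pool.Agent.MLD.Cox
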