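import Mathlib

/-!
Project COX, module Mon: the homogeneous polynomials of degree zero form a finitely generated
algebra (Gordan's lemma).

Proof.  Let `E = {μ : σ → ℕ | ∑ i, μ i • χ i = 0}` (finitely supported functions on the finite type
`σ`).  By Dickson's lemma (`ℕ^σ` is well partially ordered: e.g. `Pi.isPWO`,
`Set.isPWO_of_wellQuasiOrderedLE`, `Set.PartiallyWellOrderedOn` and the finiteness of antichains
`Set.PartiallyWellOrderedOn.finite_of_isAntichain` or `Set.IsPWO`) the set `E₀` of the minimal
elements of `E \ {0}` is finite.  Every `μ ∈ E` is a sum of elements of `E₀`: by strong induction on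
`∑ μ i`: if `μ ≠ 0` there is `ν ∈ E₀` with `ν ≤ μ`, and `μ - ν ∈ E`.  `T` is the set of the monomials
`X^ν`, `ν ∈ E₀`.  A polynomial `P` homogeneous of degree `0` is the sum of `C a * X^μ` with `μ ∈ E`.
-/

set_option autoImplicit false

namespace Pool.Agent.MLD.Cox

open MvPolynomial

universe u w

theorem fg_deg0 {k : Type u} [Field k] {σ : Type w} [Finite σ] {h : ℕ} (χ : σ → (Fin h → ℤ)) :
    ∃ T : Finset (MvPolynomial σ k), (∀ P ∈ T, IsWeightedHomogeneous χ P 0) ∧
      ∀ P : MvPolynomial σ k, IsWeightedHomogeneous χ P 0 →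
        P ∈ Algebra.adjoin k (T : Set (MvPolynomial σ k)) := by
  classical
  let E : Set (σ →₀ ℕ) := {μ | Finsupp.weight χ μ = 0 ∧ μ ≠ 0}
  have hfin : {ν : σ →₀ ℕ | Minimal (· ∈ E) ν}.Finite :=
    WellQuasiOrderedLE.finite_of_isAntichain (setOfPred_minimal_antichain _)
  refine ⟨hfin.toFinset.image fun ν => monomial ν 1, ?_, ?_⟩
  · intro P hP
    obtain ⟨ν, hν, rfl⟩ := Finset.mem_image.1 hP
    have h1 : Minimal (· ∈ E) ν := hfin.mem_toFinset.1 hν
    exact isWeightedHomogeneous_monomial χ ν 1 h1.prop.1
  · have key : ∀ μ : σ →₀ ℕ, Finsupp.weight χ μ = 0 → (monomial μ 1 : MvPolynomial σ k) ∈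
        Algebra.adjoin k ((hfin.toFinset.image fun ν => (monomial ν 1 : MvPolynomial σ k) :
          Finset (MvPolynomial σ k)) : Set (MvPolynomial σ k)) := by
      intro μ
      induction μ using WellFoundedLT.induction with
      | ind μ ih =>
        intro hμ
        by_cases h0 : μ = 0
        · subst h0
          exact one_mem _
        · obtain ⟨ν, hle, hν⟩ := exists_minimal_le_of_wellFoundedLT (· ∈ E) μ ⟨hμ, h0⟩
          have h1 : μ = ν + (μ - ν) := (add_tsub_cancel_of_le hle).symm
          have h2 : Finsupp.weight χ (μ - ν) = 0 := by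
            have h3 : Finsupp.weight χ μ = Finsupp.weight χ ν + Finsupp.weight χ (μ - ν) := by
              rw [← map_add, ← h1]
            rw [hμ, hν.prop.1, zero_add] at h3
            exact h3.symm
          have h4 : μ - ν < μ := by
            refine lt_of_le_of_ne tsub_le_self fun he => hν.prop.2 ?_
            have h5 : ν + μ = μ := by
              conv_lhs => rw [← he]
              exact h1.symm
            exact add_eq_right.1 h5
          have h6 : (monomial μ 1 : MvPolynomial σ k) = monomial ν 1 * monomial (μ - ν) 1 := by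
            rw [monomial_mul, mul_one, ← h1]
          rw [h6]
          refine mul_mem (Algebra.subset_adjoin ?_) (ih _ h4 h2)
          exact Finset.mem_coe.2 (Finset.mem_image.2 ⟨ν, hfin.mem_toFinset.2 hν, rfl⟩)
    intro P hP
    rw [P.as_sum]
    refine sum_mem fun v hv => ?_
    have h1 : (monomial v (coeff v P) : MvPolynomial σ k) = coeff v P • monomial v 1 := by
      rw [smul_monomial, smul_eq_mul, mul_one]
    rw [h1]
    exact Subalgebra.smul_mem _ (key v (hP (mem_support_iff.1 hv))) _

end Pool.Agent.MLD.Cox
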