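import Pool.Agent.Lib.MP_f23696_ag.Defs

/-!
Project COX: graded algebras `B = k[x] ⊆ L`, homogeneous elements and their quotients.
-/

namespace Pool.Agent.MLD.Cox

open MvPolynomial

universe u v w

variable {k : Type u} {L : Type v} [Field k] [Field L] [Algebra k L] {σ : Type w} {M : Type}
  [AddCommGroup M]

/-- `z` is a homogeneous element of degree `β` of the algebra `k[x]`, graded by the degrees `χ i` of
the generators `x i`: the value at `x` of a homogeneous polynomial of degree `β`. -/
def IsVal (x : σ → L) (χ : σ → M) (β : M) (z : L) : Prop :=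
  ∃ P : MvPolynomial σ k, IsWeightedHomogeneous χ P β ∧ z = aeval x P

end Pool.Agent.MLD.Cox
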