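import Pool.Agent.Lib.MP_f23696_ag.Y.DvKer
import Pool.Agent.Lib.MP_f23696_ag.Y.Rnk
import Pool.Agent.Lib.MP_f23696_ag.T.Ind
import Pool.Agent.Lib.MP_f23696_ag.Dvr

/-!
Project COX, module T3: Jacobian criterion at the prime divisors of a normal complete intersection.

Proof.  `B = k[x]`, `P` of height one.  `Q = B ⧸ P` is a domain, `κ = FractionRing Q`, `y i` = class
of `x i` in `κ`; so `aeval y F` is the class of `aeval x F ∈ B`, in particular `aeval y F = 0` iff
`aeval x F ∈ P`; the `f j` vanish at `y`.  Suppose all `c × c` minors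
`det (aeval x (pderiv (J a) (f j)))` are in `P`.  Then all `c × c` minors of the matrix
`Ḡ j i = aeval y (pderiv i (f j))` over `κ` vanish, its rank is less than `c` and
`V = {z : σ → κ | Ḡ z = 0}` has dimension at least `|σ| - c + 1 = n + 1`.
For `z ∈ V` put `δ_z F = ∑_i aeval y (pderiv i F) z i`; it is a derivation along `aeval y`, kills the
`f j`, so it kills the ideal `(f) = ker (aeval x)`; `δ_z F` depends only on `aeval x F`.
Let `w` be the valuation of `L` with centre `P` of `dvr` (`noeth`), and `t = aeval x F_t ∈ B` with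
`w.ord t = 1` (an element `g` with `w.ord g = 1` has `s g ∈ B` for some `s ∈ B \ P`, and
`w.ord s = 0`).  `V₀ = {z ∈ V | δ_z F_t = 0}` has dimension at least `n`.
Claim: `V₀ ⊆ DV y`.  By `dvKer` we need `δ_z F = 0` for `F` with `aeval y F = 0`, i.e.
`p = aeval x F ∈ P`.  If `p = 0` clear.  Otherwise `w.ord (p / t) ≥ 0`, so `s (p / t) = b ∈ B` for
some `s ∈ B \ P`, `s p = b t`; write `s = aeval x F_s`, `b = aeval x F_b`, so
`F_s F - F_b F_t ∈ ker (aeval x)` and `0 = δ_z (F_s F - F_b F_t) = aeval y F_s * δ_z F +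
aeval y F * δ_z F_s - aeval y F_b * δ_z F_t - aeval y F_t * δ_z F_b = aeval y F_s * δ_z F`, and
`aeval y F_s ≠ 0`.
So `n ≤ finrank (DV y)` and `rnk`, `td_ker`: there are `F_1, …, F_n` with `F_a(y)` algebraically
independent over `k`.  Then the `F_a(x)` are algebraically independent over `k` in `L` (a relation
holds also for the `F_a(y)`), so they form a transcendence basis (`htr`;
`IsTranscendenceBasis` from the cardinality: e.g. `AlgebraicIndependent` of cardinality the
transcendence degree, see `T/Ind.lean`, `Jac.lean` or Mathlib `isTranscendenceBasis_of_le_trdeg`).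
Let `0 ≠ p ∈ P`.  `p` is algebraic over `k(F_a(x))`: clearing denominators and dividing by a power of
`p`, `∑_(i ≤ q) A_i(F(x)) p^i = 0` with polynomials `A_i`, `A_0 ≠ 0`.  Modulo `P`: `A_0(F(y)) = 0`,
contradiction.
-/

set_option autoImplicit false

namespace Pool.Agent.MLD.Cox

open MvPolynomial

universe u v w

/-- independent rows have a nonvanishing maximal minor -/
private theorem T3.cols {K : Type v} [Field K] {r : ℕ} {ι : Type w} [Fintype ι]
    (M : Matrix (Fin r) ι K) (hM : LinearIndependent K M.row) :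
    ∃ c : Fin r → ι, (M.submatrix id c).det ≠ 0 := by
  classical
  have hrank' : M.rank = r := by
    rw [Matrix.rank_eq_finrank_span_row, finrank_span_eq_card hM, Fintype.card_fin]
  obtain ⟨κ', a', ha', hspan', hli'⟩ := exists_linearIndependent' K M.col
  have hκ' : Finite κ' := Finite.of_injective a' ha'
  have := Fintype.ofFinite κ'
  have hcard' : Fintype.card κ' = r := by
    rw [← hrank', Matrix.rank_eq_finrank_span_cols, ← hspan', finrank_span_eq_card hli']
  let eκ' : Fin r ≃ κ' := (Fintype.equivFinOfCardEq hcard').symm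
  refine ⟨a' ∘ eκ', ?_⟩
  have h1 : LinearIndependent K (M.submatrix id (a' ∘ eκ')).col := by
    have : (M.submatrix id (a' ∘ eκ')).col = (M.col ∘ a') ∘ eκ' := rfl
    rw [this]
    exact hli'.comp _ eκ'.injective
  rw [Matrix.linearIndependent_cols_iff_isUnit, Matrix.isUnit_iff_isUnit_det] at h1
  exact h1.ne_zero

private theorem T3.dim {K : Type v} [Field K] {r : ℕ} {ι : Type w} [Fintype ι]
    (M : Matrix (Fin r) ι K) (hM : ∀ c : Fin r → ι, (M.submatrix id c).det = 0)
    (ℓ : (ι → K) →ₗ[K] K) (n : ℕ) (hn : n + r = Fintype.card ι) :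
    n ≤ Module.finrank K (LinearMap.ker M.mulVecLin ⊓ LinearMap.ker ℓ : Submodule K (ι → K)) := by
  classical
  have h1 : ¬ LinearIndependent K M.row := by
    intro h
    obtain ⟨c, hc⟩ := T3.cols M h
    exact hc (hM c)
  have h2 : M.rank < r := by
    rw [linearIndependent_iff_card_le_finrank_span, not_le, Fintype.card_fin] at h1
    rw [Matrix.rank_eq_finrank_span_row]
    exact h1
  have h3 : Module.finrank K (LinearMap.range M.mulVecLin) +
      Module.finrank K (LinearMap.ker M.mulVecLin) = Fintype.card ι := by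
    rw [LinearMap.finrank_range_add_finrank_ker, Module.finrank_fintype_fun_eq_card]
  have h4 : Module.finrank K (LinearMap.range M.mulVecLin) = M.rank := rfl
  have h5 : Module.finrank K (LinearMap.range ℓ) + Module.finrank K (LinearMap.ker ℓ) =
      Fintype.card ι := by
    rw [LinearMap.finrank_range_add_finrank_ker, Module.finrank_fintype_fun_eq_card]
  have h6 : Module.finrank K (LinearMap.range ℓ) ≤ 1 := by
    refine (Submodule.finrank_le _).trans ?_
    rw [Module.finrank_self]
  have h7 := Submodule.finrank_sup_add_finrank_inf_eq (LinearMap.ker M.mulVecLin)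
    (LinearMap.ker ℓ)
  have h8 : Module.finrank K (LinearMap.ker M.mulVecLin ⊔ LinearMap.ker ℓ :
      Submodule K (ι → K)) ≤ Fintype.card ι := by
    refine (Submodule.finrank_le _).trans ?_
    rw [Module.finrank_fintype_fun_eq_card]
  omega

section der

variable {k : Type u} {κ : Type v} [Field k] [Field κ] [Algebra k κ] {σ : Type w} [Fintype σ]

/-- the derivation along `aeval y` given by `z` -/
private noncomputable def T3.dl (y z : σ → κ) (F : MvPolynomial σ k) : κ :=
  ∑ i, aeval y (pderiv i F) * z i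

private theorem T3.dl_add (y z : σ → κ) (F G : MvPolynomial σ k) :
    T3.dl y z (F + G) = T3.dl y z F + T3.dl y z G := by
  unfold T3.dl
  rw [← Finset.sum_add_distrib]
  refine Finset.sum_congr rfl fun i _ => ?_
  rw [map_add, map_add, add_mul]

private theorem T3.dl_sub (y z : σ → κ) (F G : MvPolynomial σ k) :
    T3.dl y z (F - G) = T3.dl y z F - T3.dl y z G := by
  unfold T3.dl
  rw [← Finset.sum_sub_distrib]
  refine Finset.sum_congr rfl fun i _ => ?_
  rw [map_sub, map_sub, sub_mul]

private theorem T3.dl_zero (y z : σ → κ) : T3.dl (k := k) y z 0 = 0 := by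
  unfold T3.dl
  refine Finset.sum_eq_zero fun i _ => ?_
  rw [map_zero, map_zero, zero_mul]

private theorem T3.dl_mul (y z : σ → κ) (F G : MvPolynomial σ k) :
    T3.dl y z (F * G) = aeval y F * T3.dl y z G + aeval y G * T3.dl y z F := by
  unfold T3.dl
  rw [Finset.mul_sum, Finset.mul_sum, ← Finset.sum_add_distrib]
  refine Finset.sum_congr rfl fun i _ => ?_
  rw [Derivation.leibniz, smul_eq_mul, smul_eq_mul, map_add, map_mul, map_mul]
  ring

end der

/-- the independence argument -/
private theorem T3.indep {k : Type u} {L : Type v} [Field k] [Field L] [Algebra k L] {n : ℕ}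
    (htr : Algebra.trdeg k L = n) (B : Subalgebra k L) (P : Ideal B) [P.IsPrime] (hP0 : P ≠ ⊥)
    {κ : Type v} [Field κ] [Algebra k κ] (π : B →ₐ[k] κ) (hπ : ∀ b, π b = 0 ↔ b ∈ P)
    (G : Fin n → B) (hG : AlgebraicIndependent k fun a => π (G a)) : False := by
  have h1 : AlgebraicIndependent k G := AlgebraicIndependent.of_comp π hG
  have h2 : Algebra.trdeg k B ≤ n := by
    rw [← htr]
    exact trdeg_le_of_injective B.val Subtype.val_injective
  have h3 : IsTranscendenceBasis k G := by
    refine h1.isTranscendenceBasis_of_lift_trdeg_le_of_finite ?_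
    rw [Cardinal.mk_fin, Cardinal.lift_natCast, Cardinal.lift_uzero]
    exact h2
  obtain ⟨p, hp, hp0⟩ := Submodule.exists_mem_ne_zero_of_ne_bot hP0
  have h4 := h3.isAlgebraic
  obtain ⟨r, hr, hdv⟩ := (h4.isAlgebraic p).exists_nonzero_dvd
    (mem_nonZeroDivisors_of_ne_zero hp0)
  have h5 : (r : B) ∈ P := Ideal.mem_of_dvd P hdv hp
  have h6 : (r : B) ∈ (aeval G : MvPolynomial (Fin n) k →ₐ[k] B).range := by
    rw [← Algebra.adjoin_range_eq_range_aeval]
    exact r.2
  obtain ⟨F, hF⟩ := h6
  have h7 : aeval (fun a => π (G a)) F = 0 := by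
    rw [← comp_aeval_apply]
    refine (hπ _).2 ?_
    have : aeval G F = (r : B) := hF
    rw [this]
    exact h5
  have h8 : F = 0 := algebraicIndependent_iff.1 hG F h7
  apply hr
  apply Subtype.ext
  change (r : B) = 0
  rw [← hF, h8, map_zero]

theorem t3Ex {k : Type u} {L : Type v} [Field k] [CharZero k] [Field L] [Algebra k L]
    {σ : Type w} [Fintype σ] {c : ℕ} (x : σ → L) (f : Fin c → MvPolynomial σ k)
    (hker : RingHom.ker (aeval x : MvPolynomial σ k →ₐ[k] L) = Ideal.span (Set.range f))
    (n : ℕ) (htr : Algebra.trdeg k L = n) (hn : n + c = Fintype.card σ)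
    (B : Subalgebra k L) (hxB : Algebra.adjoin k (Set.range x) = B) (hB : Ten.IsGood B)
    (P : Ideal B) (hP : IsHeightOne P) :
    ∃ J : Fin c → σ,
      ∀ z ∈ P, (z : L) ≠ (Matrix.of fun j a => aeval x (pderiv (J a) (f j))).det := by
  classical
  by_contra hcon
  push Not at hcon
  have hprime := hP.1
  -- the point `xB` of `B`
  have hx : ∀ i, x i ∈ B := fun i => by
    rw [← hxB]
    exact Algebra.subset_adjoin ⟨i, rfl⟩
  let xB : σ → B := fun i => ⟨x i, hx i⟩
  have hval : ∀ F : MvPolynomial σ k, ((aeval xB F : B) : L) = aeval x F := fun F =>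
    comp_aeval_apply xB B.val F
  have hsurj : ∀ b : B, ∃ F : MvPolynomial σ k, aeval xB F = b := by
    intro b
    have h1 : (b : L) ∈ (aeval x : MvPolynomial σ k →ₐ[k] L).range := by
      rw [← Algebra.adjoin_range_eq_range_aeval, hxB]
      exact b.2
    obtain ⟨F, hF⟩ := h1
    exact ⟨F, Subtype.ext ((hval F).trans hF)⟩
  -- the residue field
  let κ := FractionRing (B ⧸ P)
  let π : B →ₐ[k] κ := (IsScalarTower.toAlgHom k (B ⧸ P) κ).comp (Ideal.Quotient.mkₐ k P)
  have hπ' : ∀ b, π b = algebraMap (B ⧸ P) κ (Ideal.Quotient.mk P b) := fun b => rfl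
  have hπ : ∀ b, π b = 0 ↔ b ∈ P := by
    intro b
    rw [hπ', ← Ideal.Quotient.eq_zero_iff_mem]
    exact map_eq_zero_iff _ (IsFractionRing.injective (B ⧸ P) κ)
  let y : σ → κ := fun i => π (xB i)
  have hy : ∀ F : MvPolynomial σ k, aeval y F = π (aeval xB F) := fun F =>
    (comp_aeval_apply xB π F).symm
  have hgen : ∀ g : κ, ∃ P Q : MvPolynomial σ k, aeval y Q ≠ 0 ∧
      g = aeval y P / aeval y Q := by
    intro g
    obtain ⟨a, b, hb, hg⟩ := IsFractionRing.div_surjective (A := B ⧸ P) g
    obtain ⟨a', rfl⟩ := Ideal.Quotient.mk_surjective a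
    obtain ⟨b', rfl⟩ := Ideal.Quotient.mk_surjective b
    obtain ⟨F, hF⟩ := hsurj a'
    obtain ⟨G, hG⟩ := hsurj b'
    refine ⟨F, G, ?_, ?_⟩
    · rw [hy, hG, hπ']
      exact (map_ne_zero_iff _ (IsFractionRing.injective (B ⧸ P) κ)).2
        (nonZeroDivisors.ne_zero hb)
    · rw [hy, hy, hF, hG, hπ', hπ', hg]
  have hkx : ∀ F : MvPolynomial σ k, aeval x F = 0 → aeval xB F = 0 := fun F hF =>
    Subtype.ext ((hval F).trans hF)
  -- the minors vanish
  let M : Matrix (Fin c) σ κ := Matrix.of fun j i => aeval y (pderiv i (f j))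
  have hM : ∀ J : Fin c → σ, (M.submatrix id J).det = 0 := by
    intro J
    obtain ⟨z, hz, hzJ⟩ := hcon J
    have h1 : z = (Matrix.of fun j a => aeval xB (pderiv (J a) (f j))).det := by
      apply Subtype.ext
      rw [hzJ]
      have h2 := (B.val : B →+* L).map_det (Matrix.of fun j a => aeval xB (pderiv (J a) (f j)))
      refine Eq.trans ?_ h2.symm
      congr 1
      ext j a
      exact (hval _).symm
    have h3 := (π : B →+* κ).map_det (Matrix.of fun j a => aeval xB (pderiv (J a) (f j)))
    have h4 : M.submatrix id J = (π : B →+* κ).mapMatrix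
        (Matrix.of fun j a => aeval xB (pderiv (J a) (f j))) := by
      ext j a
      exact hy _
    rw [h4, ← h3, ← h1]
    exact (hπ z).2 hz
  -- the valuation
  obtain ⟨v, hv, hv'⟩ := dvr B (Ten.Ind.noeth B hB.fg) hB.frac hB.norm P hP
  obtain ⟨g, hg0, hg1⟩ := v.exists_ord_eq_one
  obtain ⟨s, hs, hsg⟩ := (hv' g hg0).1 (by omega)
  have hs' := Ten.Ind.out v hv hs
  obtain ⟨Ft, hFt⟩ := hsurj ⟨_, hsg⟩
  have ht : aeval x Ft = (s : L) * g := by rw [← hval, hFt]
  have ht0 : aeval x Ft ≠ 0 := by
    rw [ht]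
    exact mul_ne_zero hs'.1 hg0
  have ht1 : v.ord (aeval x Ft) = 1 := by
    rw [ht, v.ord_mul _ _ hs'.1 hg0, hs'.2, hg1, zero_add]
  have hFty : aeval y Ft = 0 := by
    rw [hy]
    refine (hπ _).2 ((hv.2 _).2 fun _ => ?_)
    rw [hval, ht1]
    exact one_pos
  -- the space of tangent vectors
  let ℓ : (σ → κ) →ₗ[κ] κ := ∑ i, aeval y (pderiv i Ft) • (LinearMap.proj i : (σ → κ) →ₗ[κ] κ)
  have hdim := T3.dim M hM ℓ n hn
  have hle : (LinearMap.ker M.mulVecLin ⊓ LinearMap.ker ℓ : Submodule κ (σ → κ)) ≤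
      DV (k := k) y := by
    rintro z ⟨hz1, hz2⟩
    have hf : ∀ j, T3.dl y z (f j) = 0 := by
      intro j
      have h1 : M.mulVec z = 0 := by
        rw [← Matrix.mulVecLin_apply]
        exact LinearMap.mem_ker.1 hz1
      exact congrFun h1 j
    have hFt : T3.dl y z Ft = 0 := by
      have h1 : ℓ z = 0 := LinearMap.mem_ker.1 hz2
      rw [← h1]
      simp only [ℓ, LinearMap.sum_apply, LinearMap.smul_apply, LinearMap.proj_apply,
        smul_eq_mul]
      rfl
    have hI : ∀ F : MvPolynomial σ k, aeval x F = 0 → T3.dl y z F = 0 := by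
      intro F hF
      have h1 : F ∈ Ideal.span (Set.range f) := by
        rw [← hker]
        exact hF
      refine Submodule.span_induction (p := fun F _ => T3.dl y z F = 0) ?_ ?_ ?_ ?_ h1
      · rintro _ ⟨j, rfl⟩
        exact hf j
      · exact T3.dl_zero y z
      · intro F G _ _ h2 h3
        rw [T3.dl_add, h2, h3, add_zero]
      · intro a F hF' h2
        have h3 : aeval x F = 0 := by
          have h4 : F ∈ RingHom.ker (aeval x : MvPolynomial σ k →ₐ[k] L) := by
            rw [hker]
            exact hF'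
          exact h4
        rw [smul_eq_mul, T3.dl_mul, h2, hy F, hkx F h3, map_zero, mul_zero, zero_mul, add_zero]
    refine dvKer y hgen z fun F hF => ?_
    change T3.dl y z F = 0
    by_cases hF0 : aeval x F = 0
    · exact hI F hF0
    · have hFP : aeval xB F ∈ P := (hπ _).1 (by rw [← hy]; exact hF)
      have h1 : 0 < v.ord (aeval x F) := by
        have h2 := (hv.2 _).1 hFP (by rw [hval]; exact hF0)
        rwa [hval] at h2
      have h3 : 0 ≤ v.ord (aeval x F / aeval x Ft) := by
        rw [Ten.ord_div v _ _ hF0 ht0, ht1]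
        omega
      obtain ⟨s', hs2, hb⟩ := (hv' _ (div_ne_zero hF0 ht0)).1 h3
      obtain ⟨Fs, hFs⟩ := hsurj s'
      obtain ⟨Fb, hFb⟩ := hsurj ⟨_, hb⟩
      have h4 : aeval x (Fs * F - Fb * Ft) = 0 := by
        rw [map_sub, map_mul, map_mul, ← hval Fs, ← hval Fb, hFs, hFb]
        change (s' : L) * aeval x F - (s' : L) * (aeval x F / aeval x Ft) * aeval x Ft = 0
        field_simp
        ring
      have h5 := hI _ h4
      rw [T3.dl_sub, T3.dl_mul, T3.dl_mul, hF, hFt, hFty, zero_mul, mul_zero, zero_mul,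
        add_zero, add_zero, sub_zero] at h5
      have h6 : aeval y Fs ≠ 0 := by
        rw [hy, hFs]
        exact fun h => hs2 ((hπ s').1 h)
      exact (mul_eq_zero.1 h5).resolve_left h6
  have hκ : n ≤ Module.finrank κ (DV (k := k) y) := hdim.trans (Submodule.finrank_mono hle)
  obtain ⟨t, ht⟩ := (td_ker _ n).1 (rnk y n hκ)
  refine T3.indep htr B P hP.2.1 π hπ (fun a => aeval xB (t a)) ?_
  have h1 : (fun a => π (aeval xB (t a))) = fun a => aeval y (t a) := by
    funext a
    exact (hy _).symm
  rw [h1]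
  exact ht

end Pool.Agent.MLD.Cox
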