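import Pool.Agent.Lib.MP_f23696_ag.Y.Geo
import Pool.Agent.Lib.MP_f23696_ag.Y.Mon
import Pool.Agent.Lib.MP_f23696_ag.Y.Jac0
import Pool.Agent.Lib.MP_f23696_ag.Y.T3
import Pool.Agent.Lib.MP_f23696_ag.Y.QDefs

/-!
Project COX, module Build: from a graded complete intersection to the structures `Sys`, `Geo`.

Proof.
(1) `IntermediateField.adjoin k (range x) = ⊤`: by `hB.frac` every element of `L` is a quotient of
elements of `B = Algebra.adjoin k (range x)`.
(2) `jacEx` gives an injective `J : Fin c → σ` with nonzero minor.  The complement of `range J` has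
`m + 1 + h = card (Ro m h)` elements (`hcard`), so there is an equivalence `e : Ix m h c ≃ σ` with
`e (inr a) = J a`.
(3) `S.x i = x (e i)`, `S.χ i = χ (e i)`, `S.f j = rename e.symm (f j)`, `S.ψ j` the degree of `f j`
(`hom`), `S.φ = φ`, `S.y = y`, `S.D = D`.  For a polynomial `P` in the variables `Ix m h c`:
`aeval (x ∘ e) P = aeval x (rename e P)` (`aeval_rename`), `P` is homogeneous for `χ ∘ e` iff
`rename e P` is for `χ` (with the same degree).  `ker`: `P ∈ ker (aeval (x ∘ e))` iff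
`rename e P ∈ span (range f)` iff `P ∈ span (range S.f)` (`Ideal.map`/`comap` of `renameEquiv`).
`jac`: `pderiv (inr a) (rename e.symm (f j)) = rename e.symm (pderiv (J a) (f j))`
(`pderiv_rename`), and `aeval (x ∘ e)` of the determinant is the minor.  `deg0`: `hφ`.  `a`, `ha`:
every `Pi.single l 1` is an integral combination of the `χ i` (`hχ`;
`AddSubgroup.mem_closure_range_iff` or `Submodule.mem_span_range_iff_exists_fun` over `ℤ`).
(4) `Geo`: `goodB`: `Algebra.adjoin k (range (x ∘ e)) = Algebra.adjoin k (range x) = B`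
(`Set.range` of a composition with an equivalence), `hB`; since `hxB` is an equation for the
variable `B`, one may substitute `B` by `Algebra.adjoin k (range S.x)` from the start.
`goodA`: finite generation: `fg_deg0` gives a finite set `T`; the elements `b ∈ A` with
`φ b = aeval x P`, `P ∈ T` (`hA`) generate `A` (apply `aeval x` to `P ∈ Algebra.adjoin k T` and use
that `φ` is injective); `frac`: `hAf`; `norm`: let `g : K` be integral over `A`; then `φ g` is
integral over `B` (`φ A ⊆ B`), so `φ g ∈ B`, `φ g = aeval x P`; also `φ g = z₁ / z₂` with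
`z₁ = P₁(x)`, `z₂ = P₂(x) ≠ 0` homogeneous of the same degree `β` (`hφ`); then
`P P₂ - P₁ ∈ ker (aeval x)`; the
homogeneous component of degree `β` of an element of the kernel is in the kernel (the kernel is
generated by homogeneous elements; `homK` in SysA.lean for `S`), i.e.
`aeval x (P_0) * P₂(x) = P₁(x)` with the component `P_0` of degree `0` of `P`; so
`φ g = aeval x P_0` and `g ∈ A` by `hA`.
`memA`: `hA`.  `t1`: `t1`.  `t2`: for `P` of height one and `i`: the set
`M = {β | ∃ z, IsVal x χ β z ∧ z ∉ P}` is closed under addition (`P` is prime; products of values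
are values) and contains `0` (`1`), so the subgroup it generates is `{β - β' | β, β' ∈ M}`; it
contains `χ i`: `χ i = β - β'`.  `t3`: `t3Ex` gives `J : Fin c → σ`, use `e.symm ∘ J`.
-/

set_option autoImplicit false

namespace Pool.Agent.MLD.Cox

open MvPolynomial

universe u v w

section BuildAux

private theorem Build_rename {k : Type u} [Field k] {σ τ M : Type} [AddCommGroup M]
    (w : τ → M) (g : σ → τ) (P : MvPolynomial σ k) (β : M)
    (hP : IsWeightedHomogeneous (fun i => w (g i)) P β) :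
    IsWeightedHomogeneous w (rename g P) β := by
  rw [P.as_sum, map_sum]
  refine IsWeightedHomogeneous.sum _ _ _ fun d hd => ?_
  rw [rename_monomial]
  apply isWeightedHomogeneous_monomial
  have h1 : Finsupp.weight (fun i => w (g i)) d = β := hP (mem_support_iff.1 hd)
  rw [← h1, Finsupp.weight_apply, Finsupp.weight_apply, Finsupp.sum_mapDomain_index]
  · intro b
    exact zero_smul _ _
  · intro b m₁ m₂
    exact add_smul _ _ _

private theorem Build_back {k : Type u} [Field k] {σ τ M : Type} [AddCommGroup M]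
    (χ : σ → M) (e : τ ≃ σ) (P : MvPolynomial σ k) (β : M) (hP : IsWeightedHomogeneous χ P β) :
    IsWeightedHomogeneous (fun i => χ (e i)) (rename e.symm P) β := by
  refine Build_rename (fun i => χ (e i)) e.symm P β ?_
  have h1 : (fun i => χ (e (e.symm i))) = χ := by
    funext i
    rw [Equiv.apply_symm_apply]
  rw [h1]
  exact hP

private theorem Build_aeval {k : Type u} {L : Type w} [Field k] [Field L] [Algebra k L]
    {σ τ : Type} (x : σ → L) (e : τ ≃ σ) (P : MvPolynomial σ k) :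
    aeval (fun i => x (e i)) (rename e.symm P) = aeval x P := by
  rw [aeval_rename]
  congr 2
  funext i
  exact congrArg x (e.apply_symm_apply i)

private theorem Build_isVal {k : Type u} {L : Type w} [Field k] [Field L] [Algebra k L]
    {σ τ M : Type} [AddCommGroup M] (x : σ → L) (χ : σ → M) (e : τ ≃ σ) (β : M) (z : L) :
    IsVal (k := k) x χ β z ↔
      IsVal (k := k) (fun i => x (e i)) (fun i => χ (e i)) β z := by
  constructor
  · rintro ⟨P, hP, rfl⟩
    exact ⟨rename e.symm P, Build_back χ e P β hP, (Build_aeval x e P).symm⟩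
  · rintro ⟨P, hP, rfl⟩
    refine ⟨rename e P, Build_rename χ e P β hP, ?_⟩
    rw [aeval_rename]
    rfl

private theorem Build_span {k : Type u} [Field k] {σ τ : Type} {c : ℕ}
    (g : σ → τ) (f : Fin c → MvPolynomial σ k) (P : MvPolynomial σ k)
    (hP : P ∈ Ideal.span (Set.range f)) :
    rename g P ∈ Ideal.span (Set.range fun j => rename g (f j)) := by
  have h1 := Ideal.mem_map_of_mem (rename g : MvPolynomial σ k →ₐ[k] MvPolynomial τ k) hP
  rw [Ideal.map_span, ← Set.range_comp] at h1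
  exact h1

private theorem Build_ker {k : Type u} {L : Type w} [Field k] [Field L] [Algebra k L]
    {σ τ : Type} {c : ℕ} (x : σ → L) (e : τ ≃ σ) (f : Fin c → MvPolynomial σ k)
    (hker : RingHom.ker (aeval x : MvPolynomial σ k →ₐ[k] L) = Ideal.span (Set.range f)) :
    RingHom.ker (aeval (fun i => x (e i)) : MvPolynomial τ k →ₐ[k] L) =
      Ideal.span (Set.range fun j => rename e.symm (f j)) := by
  ext P
  have h1 : aeval (fun i => x (e i)) P = aeval x (rename e P) := by
    rw [aeval_rename]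
    rfl
  have h2 : ∀ Q : MvPolynomial σ k, rename e (rename e.symm Q) = Q := fun Q => by
    rw [rename_rename, Equiv.self_comp_symm, rename_id_apply]
  have h3 : ∀ Q : MvPolynomial τ k, rename e.symm (rename e Q) = Q := fun Q => by
    rw [rename_rename, Equiv.symm_comp_self, rename_id_apply]
  have h4 : P ∈ RingHom.ker (aeval (fun i => x (e i)) : MvPolynomial τ k →ₐ[k] L) ↔
      rename e P ∈ Ideal.span (Set.range f) := by
    rw [← hker, RingHom.mem_ker, RingHom.mem_ker, h1]
  rw [h4]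
  constructor
  · intro h5
    have h6 := Build_span e.symm f _ h5
    rwa [h3] at h6
  · intro h5
    have h6 := Build_span e _ P h5
    have h7 : (fun j => rename e (rename e.symm (f j))) = f := funext fun j => h2 (f j)
    rwa [h7] at h6

variable {k : Type u} {K : Type v} {L : Type w} [Field k] [Field K] [Field L]
    [Algebra k K] [Algebra k L] {m h c : ℕ} (S : Sys k K L m h c)

private theorem Build_memB {z : L} (hz : z ∈ S.B) :
    ∃ P : MvPolynomial (Ix m h c) k, aeval S.x P = z := by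
  rw [Sys.B, Algebra.adjoin_range_eq_range_aeval] at hz
  exact hz

private theorem Build_inB (P : MvPolynomial (Ix m h c) k) : aeval S.x P ∈ S.B := by
  rw [Sys.B, Algebra.adjoin_range_eq_range_aeval]
  exact ⟨P, rfl⟩

/-- a homogeneous element of `B` is the value of a homogeneous polynomial -/
private theorem Build_homB {β : Fin h → ℤ} {z : L} (hz : S.IsHom β z) (hB : z ∈ S.B) :
    ∃ g : MvPolynomial (Ix m h c) k, IsWeightedHomogeneous S.χ g β ∧ aeval S.x g = z := by
  classical
  obtain ⟨P, hP'⟩ := Build_memB S hB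
  refine ⟨weightedHomogeneousComponent S.χ β P,
    weightedHomogeneousComponent_isWeightedHomogeneous β P, ?_⟩
  obtain ⟨T, hT⟩ : ∃ T : Finset (Fin h → ℤ),
      T = (weightedHomogeneousComponent_finsupp (w := S.χ) P).toFinset ∪ {β} := ⟨_, rfl⟩
  have hβT : β ∈ T := by
    rw [hT]
    exact Finset.mem_union_right _ (Finset.mem_singleton_self β)
  have hsum : ∑ β' ∈ T, weightedHomogeneousComponent S.χ β' P = P := by
    conv_rhs => rw [← sum_weightedHomogeneousComponent S.χ P]
    symm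
    apply finsum_eq_sum_of_support_subset
    intro x hx
    rw [hT]
    refine Finset.mem_coe.2 (Finset.mem_union_left _ ?_)
    exact (Set.Finite.mem_toFinset _).2 hx
  have key := S.hom_sum T
    (fun β' => aeval S.x (weightedHomogeneousComponent S.χ β' P) - if β' = β then z else 0)
    (fun β' _ => ?_) ?_ β hβT
  · beta_reduce at key
    rw [if_pos rfl] at key
    exact sub_eq_zero.1 key
  · have h1 := S.isHom_poly _ β'
      (weightedHomogeneousComponent_isWeightedHomogeneous (w := S.χ) β' P)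
    by_cases hb : β' = β
    · rw [if_pos hb]
      obtain ⟨b, hb1⟩ := (S.isHom_iff β' _).1 h1
      obtain ⟨b', hb2⟩ := (S.isHom_iff β' z).1 (hb ▸ hz)
      refine (S.isHom_iff β' _).2 ⟨b - b', ?_⟩
      rw [map_sub, mul_sub, ← hb1, ← hb2]
    · rw [if_neg hb, sub_zero]
      exact h1
  · rw [Finset.sum_sub_distrib, ← map_sum, hsum, Finset.sum_ite_eq' T β, if_pos hβT, hP', sub_self]

/-- the algebra of the elements of degree `0` is finitely generated -/
private theorem Build_fg (A : Subalgebra k K)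
    (hA : ∀ b : K, b ∈ A ↔ IsVal (k := k) S.x S.χ 0 (S.φ b)) : A.FG := by
  classical
  obtain ⟨T, hT0, hT⟩ := fg_deg0 (k := k) S.χ
  have h1 : ∀ P : MvPolynomial (Ix m h c) k, P ∈ T → ∃ b : K, S.φ b = aeval S.x P :=
    fun P hP => (S.deg0 (aeval S.x P)).2
      ⟨0, P, 1, hT0 P hP, isWeightedHomogeneous_one k S.χ, by simp, by simp⟩
  choose b hb using h1
  refine ⟨T.attach.image fun P => b P.1 P.2, le_antisymm ?_ ?_⟩
  · refine Algebra.adjoin_le ?_
    intro z hz
    obtain ⟨P, -, rfl⟩ := Finset.mem_image.1 (Finset.mem_coe.1 hz)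
    exact (hA _).2 ⟨P.1, hT0 P.1 P.2, hb P.1 P.2⟩
  · intro a ha
    obtain ⟨P, hP, hPa⟩ := (hA a).1 ha
    have h2 : aeval S.x P ∈ (Algebra.adjoin k (T : Set (MvPolynomial (Ix m h c) k))).map
        (aeval S.x : MvPolynomial (Ix m h c) k →ₐ[k] L) := ⟨P, hT P hP, rfl⟩
    rw [AlgHom.map_adjoin] at h2
    have h3 : (aeval S.x : MvPolynomial (Ix m h c) k →ₐ[k] L) ''
        (T : Set (MvPolynomial (Ix m h c) k)) ⊆
        S.φ '' ((T.attach.image fun P => b P.1 P.2 : Finset K) : Set K) := by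
      rintro _ ⟨P, hP, rfl⟩
      exact ⟨b P hP, Finset.mem_coe.2 (Finset.mem_image.2 ⟨⟨P, hP⟩, Finset.mem_attach _ _, rfl⟩),
        hb P hP⟩
    have h4 := Algebra.adjoin_mono h3 h2
    rw [← AlgHom.map_adjoin] at h4
    obtain ⟨a', ha', haa⟩ := h4
    have h5 : a' = a := S.φ.injective (haa.trans hPa.symm)
    rw [← h5]
    exact ha'

private theorem Build_norm (A : Subalgebra k K) (hB : Ten.IsGood S.B)
    (hA : ∀ b : K, b ∈ A ↔ IsVal (k := k) S.x S.χ 0 (S.φ b)) (g : K) (hg : IsIntegral A g) :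
    g ∈ A := by
  have hφB : ∀ b : A, S.φ (b : K) ∈ S.B := by
    intro b
    obtain ⟨P, -, hP⟩ := (hA b).1 b.2
    rw [hP]
    exact Build_inB S P
  let ι : A →+* S.B := ((S.φ.comp A.val).codRestrict S.B hφB).toRingHom
  have hι : (algebraMap S.B L).comp ι = (S.φ : K →+* L).comp (algebraMap A K) := rfl
  obtain ⟨p, hp, hp0⟩ := hg
  have h1 : IsIntegral S.B (S.φ g) := by
    refine ⟨p.map ι, hp.map ι, ?_⟩
    rw [Polynomial.eval₂_map, hι]
    have h2 := Polynomial.hom_eval₂ p (algebraMap A K) (S.φ : K →+* L) g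
    rw [hp0, map_zero] at h2
    exact h2.symm
  obtain ⟨P, hP, hPg⟩ := Build_homB S (S.isHom_φ g) (hB.norm _ h1)
  exact (hA g).2 ⟨P, hP, hPg.symm⟩

private theorem Build_t2 (hP2 : ∀ P : Ideal S.B, IsHeightOne P →
      AddSubgroup.closure {β : Fin h → ℤ |
        ∃ z : L, IsVal (k := k) S.x S.χ β z ∧ ∀ b ∈ P, (b : L) ≠ z} = ⊤)
    (P : Ideal S.B) (hP : IsHeightOne P) (i : Ix m h c) : ∃ (β : Fin h → ℤ)
      (U V : MvPolynomial (Ix m h c) k), IsWeightedHomogeneous S.χ U (β + S.χ i) ∧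
      IsWeightedHomogeneous S.χ V β ∧ (∀ z ∈ P, (z : L) ≠ aeval S.x U) ∧
      ∀ z ∈ P, (z : L) ≠ aeval S.x V := by
  have hprime : P.IsPrime := hP.1
  obtain ⟨M, hM⟩ : ∃ M : Set (Fin h → ℤ),
      M = {β | ∃ z : L, IsVal (k := k) S.x S.χ β z ∧ ∀ b ∈ P, (b : L) ≠ z} := ⟨_, rfl⟩
  have h0 : (0 : Fin h → ℤ) ∈ M := by
    rw [hM]
    refine ⟨1, ⟨1, isWeightedHomogeneous_one k S.χ, by simp⟩, fun b hb h1 => ?_⟩
    have h2 : b = 1 := Subtype.ext h1
    exact hprime.ne_top ((Ideal.eq_top_iff_one P).2 (h2 ▸ hb))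
  have hadd : ∀ β β', β ∈ M → β' ∈ M → β + β' ∈ M := by
    intro β β' h1 h2
    rw [hM] at h1 h2 ⊢
    obtain ⟨z, ⟨Q, hQ, hz⟩, hzP⟩ := h1
    obtain ⟨z', ⟨Q', hQ', hz'⟩, hzP'⟩ := h2
    refine ⟨z * z', ⟨Q * Q', hQ.mul hQ', by rw [map_mul, hz, hz']⟩, fun b hb h3 => ?_⟩
    have h4 : b = ⟨z, hz ▸ Build_inB S Q⟩ * ⟨z', hz' ▸ Build_inB S Q'⟩ := Subtype.ext h3
    rw [h4] at hb
    rcases hprime.mem_or_mem hb with h5 | h5
    · exact hzP _ h5 rfl
    · exact hzP' _ h5 rfl
  have hcl : ∀ γ ∈ AddSubgroup.closure M, ∃ β ∈ M, ∃ β' ∈ M, γ = β - β' := by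
    intro γ hγ
    induction hγ using AddSubgroup.closure_induction with
    | mem γ hγ => exact ⟨γ, hγ, 0, h0, (sub_zero γ).symm⟩
    | zero => exact ⟨0, h0, 0, h0, (sub_zero 0).symm⟩
    | add γ γ' _ _ h1 h2 =>
      obtain ⟨β, hβ, β', hβ', h3⟩ := h1
      obtain ⟨β₁, hβ₁, β₁', hβ₁', h4⟩ := h2
      refine ⟨β + β₁, hadd _ _ hβ hβ₁, β' + β₁', hadd _ _ hβ' hβ₁', ?_⟩
      rw [h3, h4]
      abel
    | neg γ _ h1 =>
      obtain ⟨β, hβ, β', hβ', h3⟩ := h1
      refine ⟨β', hβ', β, hβ, ?_⟩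
      rw [h3]
      abel
  have h1 : S.χ i ∈ AddSubgroup.closure M := by
    rw [hM, hP2 P hP]
    exact AddSubgroup.mem_top _
  obtain ⟨β, hβ, β', hβ', h2⟩ := hcl _ h1
  rw [hM] at hβ hβ'
  obtain ⟨z, ⟨U, hU, hz⟩, hzP⟩ := hβ
  obtain ⟨z', ⟨V, hV, hz'⟩, hzP'⟩ := hβ'
  have h3 : β' + S.χ i = β := by
    rw [h2]
    abel
  refine ⟨β', U, V, ?_, hV, ?_, ?_⟩
  · rw [h3]
    exact hU
  · rw [← hz]
    exact hzP
  · rw [← hz']
    exact hzP'

private theorem Build_geo (A : Subalgebra k K) (hB : Ten.IsGood S.B)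
    (hA : ∀ b : K, b ∈ A ↔ IsVal (k := k) S.x S.χ 0 (S.φ b))
    (hAf : ∀ g : K, ∃ a b : A, (b : K) ≠ 0 ∧ g = (a : K) / b)
    (t1 : ∀ P : Ideal S.B, IsHeightOne P → ∀ p : Ideal A,
      (∀ b : A, b ∈ p ↔ ∃ z ∈ P, (z : L) = S.φ b) → p = ⊥ ∨ IsHeightOne p)
    (t2 : ∀ P : Ideal S.B, IsHeightOne P → AddSubgroup.closure {β : Fin h → ℤ |
      ∃ z : L, IsVal (k := k) S.x S.χ β z ∧ ∀ b ∈ P, (b : L) ≠ z} = ⊤)
    (t3 : ∀ P : Ideal S.B, IsHeightOne P → ∃ J : Fin c → Ix m h c,
      ∀ z ∈ P, (z : L) ≠ (Matrix.of fun j a => aeval S.x (pderiv (J a) (S.f j))).det) :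
    Geo S A where
  goodB := hB
  goodA := ⟨Build_fg S A hA, hAf, Build_norm S A hB hA⟩
  memA := hA
  t1 := t1
  t2 := Build_t2 S t2
  t3 := t3

end BuildAux

theorem build {k : Type u} {K : Type v} {L : Type w} [Field k] [CharZero k] [Field K] [Field L]
    [Algebra k K] [Algebra k L] {σ : Type} [Fintype σ] {m h c : ℕ} (x : σ → L)
    (hx : ∀ i, x i ≠ 0) (χ : σ → Fin h → ℤ) (f : Fin c → MvPolynomial σ k)
    (hcard : m + 1 + h + c = Fintype.card σ) (htr : Algebra.trdeg k L = (m + 1 + h : ℕ))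
    (hom : ∀ j, ∃ ψ : Fin h → ℤ, IsWeightedHomogeneous χ (f j) ψ)
    (hker : RingHom.ker (aeval x : MvPolynomial σ k →ₐ[k] L) = Ideal.span (Set.range f))
    (hχ : AddSubgroup.closure (Set.range χ) = ⊤) (φ : K →ₐ[k] L)
    (hφ : ∀ z : L, (∃ a : K, φ a = z) ↔ ∃ (β : Fin h → ℤ) (z₁ z₂ : L), IsVal (k := k) x χ β z₁ ∧
      IsVal (k := k) x χ β z₂ ∧ z₂ ≠ 0 ∧ z = z₁ / z₂)
    (y : Fin (m + 1) → K) (hy : IsTranscendenceBasis k y) (D : Fin (m + 1) → Derivation k K K)
    (hD : ∀ i j, D i (y j) = if i = j then 1 else 0) (B : Subalgebra k L)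
    (hxB : Algebra.adjoin k (Set.range x) = B) (hB : Ten.IsGood B) (A : Subalgebra k K)
    (hA : ∀ b : K, b ∈ A ↔ IsVal (k := k) x χ 0 (φ b))
    (hAf : ∀ g : K, ∃ a b : A, (b : K) ≠ 0 ∧ g = (a : K) / b)
    (t1 : ∀ P : Ideal B, IsHeightOne P → ∀ p : Ideal A,
      (∀ b : A, b ∈ p ↔ ∃ z ∈ P, (z : L) = φ b) → p = ⊥ ∨ IsHeightOne p)
    (t2 : ∀ P : Ideal B, IsHeightOne P → AddSubgroup.closure {β : Fin h → ℤ |
      ∃ z : L, IsVal (k := k) x χ β z ∧ ∀ b ∈ P, (b : L) ≠ z} = ⊤) :
    ∃ S : Sys k K L m h c, S.D = D ∧ Geo S A := by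
  classical
  have hgen : IntermediateField.adjoin k (Set.range x) = ⊤ := by
    rw [eq_top_iff]
    intro g _
    obtain ⟨a, b, -, hab⟩ := hB.frac g
    have h1 : ∀ b : B, (b : L) ∈ IntermediateField.adjoin k (Set.range x) := by
      intro b
      have h2 : (b : L) ∈ Algebra.adjoin k (Set.range x) := by
        rw [hxB]
        exact b.2
      exact IntermediateField.algebra_adjoin_le_adjoin k _ h2
    rw [hab]
    exact div_mem (h1 a) (h1 b)
  obtain ⟨J, hJ, hJdet⟩ := jacEx x hgen f hker (m + 1 + h) htr hcard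
  -- the numbering of the variables
  obtain ⟨e, he⟩ : ∃ e : Ix m h c ≃ σ, ∀ a, e (Sum.inr a) = J a := by
    have h1 : Fintype.card (Ro m h) = Fintype.card {s : σ // s ∉ Set.range J} := by
      have h2 : Fintype.card {s : σ // s ∈ Set.range J} = c := by
        rw [← Fintype.card_congr (Equiv.ofInjective J hJ), Fintype.card_fin]
      have h3 : Fintype.card {s : σ // s ∉ Set.range J} = Fintype.card σ -
          Fintype.card {s : σ // s ∈ Set.range J} := Fintype.card_subtype_compl _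
      rw [h3, h2, Fintype.card_sum, Fintype.card_fin, Fintype.card_fin]
      omega
    let e₀ : Ro m h ≃ {s : σ // s ∉ Set.range J} := Fintype.equivOfCardEq h1
    have h2 : Function.Bijective (Sum.elim (fun p => ((e₀ p : σ))) J : Ix m h c → σ) := by
      constructor
      · rintro (p | a) (p' | a') h3
        · have h4 : e₀ p = e₀ p' := Subtype.ext h3
          rw [e₀.injective h4]
        · exact absurd ⟨a', h3.symm⟩ (e₀ p).2
        · exact absurd ⟨a, h3⟩ (e₀ p').2
        · rw [hJ h3]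
      · intro s
        by_cases hs : s ∈ Set.range J
        · obtain ⟨a, rfl⟩ := hs
          exact ⟨Sum.inr a, rfl⟩
        · refine ⟨Sum.inl (e₀.symm ⟨s, hs⟩), ?_⟩
          exact congrArg Subtype.val (e₀.apply_symm_apply ⟨s, hs⟩)
    exact ⟨Equiv.ofBijective _ h2, fun a => rfl⟩
  have hr : Set.range (fun i => x (e i)) = Set.range x := e.surjective.range_comp x
  have hrχ : Set.range (fun i => χ (e i)) = Set.range χ := e.surjective.range_comp χ
  have hxB' : Algebra.adjoin k (Set.range fun i => x (e i)) = B := by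
    rw [hr]
    exact hxB
  have h3 : ∀ P : Ideal B, IsHeightOne P → ∃ J : Fin c → σ,
      ∀ z ∈ P, (z : L) ≠ (Matrix.of fun j a => aeval x (pderiv (J a) (f j))).det :=
    fun P hP => t3Ex x f hker (m + 1 + h) htr hcard B hxB hB P hP
  have hpd : ∀ (s : σ) (j : Fin c), aeval (fun i => x (e i))
      (pderiv (e.symm s) (rename e.symm (f j))) = aeval x (pderiv s (f j)) := by
    intro s j
    rw [pderiv_rename e.symm.injective, Build_aeval]
  choose ψ hψ using hom
  have hχa : ∀ l : Fin h, ∃ a : Ix m h c → ℤ, (Pi.single l 1 : Fin h → ℤ) =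
      ∑ i, a i • χ (e i) := by
    intro l
    refine AddSubgroup.mem_closure_range_iff_of_fintype.1 ?_
    rw [hrχ, hχ]
    exact AddSubgroup.mem_top _
  choose a ha using hχa
  clear hxB
  subst hxB'
  let S : Sys k K L m h c :=
    { x := fun i => x (e i)
      x_ne := fun i => hx (e i)
      gen := by
        rw [hr]
        exact hgen
      χ := fun i => χ (e i)
      f := fun j => rename e.symm (f j)
      ψ := ψ
      hom := fun j => Build_back χ e (f j) (ψ j) (hψ j)
      ker := Build_ker x e f hker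
      jac := by
        unfold jd
        rw [AlgHom.map_det]
        have h4 : (aeval (fun i => x (e i)) : MvPolynomial (Ix m h c) k →ₐ[k] L).mapMatrix
            (Matrix.of fun j a => pderiv (Sum.inr a) (rename e.symm (f j))) =
            Matrix.of fun j a => aeval x (pderiv (J a) (f j)) := by
          ext j a
          have h5 := hpd (J a) j
          have h6 : e.symm (J a) = Sum.inr a := by
            rw [← he a, Equiv.symm_apply_apply]
          rw [h6] at h5
          exact h5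
        rw [h4]
        exact hJdet
      φ := φ
      deg0 := fun z => by
        rw [hφ z]
        constructor
        · rintro ⟨β, z₁, z₂, h1, h2, h4, h5⟩
          obtain ⟨P, hP, hPz⟩ := (Build_isVal x χ e β z₁).1 h1
          obtain ⟨Q, hQ, hQz⟩ := (Build_isVal x χ e β z₂).1 h2
          exact ⟨β, P, Q, hP, hQ, hQz ▸ h4, by rw [h5, hPz, hQz]⟩
        · rintro ⟨β, P, Q, hP, hQ, h4, h5⟩
          exact ⟨β, _, _, (Build_isVal x χ e β _).2 ⟨P, hP, rfl⟩,
            (Build_isVal x χ e β _).2 ⟨Q, hQ, rfl⟩, h4, h5⟩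
      a := a
      ha := fun l => (ha l).symm
      trdeg := htr
      y := y
      hy := hy
      D := D
      hD := hD }
  refine ⟨S, rfl, Build_geo S A hB (fun b => (hA b).trans (Build_isVal x χ e 0 _)) hAf t1
    (fun P hP => ?_) fun P hP => ?_⟩
  · have h4 := t2 P hP
    have h5 : {β : Fin h → ℤ | ∃ z : L, IsVal (k := k) x χ β z ∧ ∀ b ∈ P, (b : L) ≠ z} =
        {β : Fin h → ℤ | ∃ z : L, IsVal (k := k) S.x S.χ β z ∧ ∀ b ∈ P, (b : L) ≠ z} := by
      ext β
      constructor
      · rintro ⟨z, h6, h7⟩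
        exact ⟨z, (Build_isVal x χ e β z).1 h6, h7⟩
      · rintro ⟨z, h6, h7⟩
        exact ⟨z, (Build_isVal x χ e β z).2 h6, h7⟩
    rw [← h5]
    exact h4
  · obtain ⟨J', hJ'⟩ := h3 P hP
    refine ⟨fun a => e.symm (J' a), fun z hz h4 => hJ' z hz (h4.trans ?_)⟩
    congr 1
    ext j a
    exact hpd (J' a) j

end Pool.Agent.MLD.Cox
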