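import Pool.Agent.Lib.MP_f23696_ag.Y.Defs

/-!
Project COX, module Cone: a real point of a rational cone is a nonnegative combination of integral
points of the cone.

Proof.  Let `W₀ = {w ∈ W : ∑ w_i r_i = 0}` and `U = {u : ι → ℚ : ∑ w_i u_i = 0 for w ∈ W₀}`, a
`ℚ`-subspace with basis `u_1, …, u_d`.  (1) `r` is a real combination `r = ∑ c_a u_a`: choose a
`ℚ`-basis `(e_q)` of the `ℚ`-span of the `r i` in `ℝ` (finite dimensional); `r i = ∑_q ρ_(q,i) e_q`
with rational `ρ_(q,i)`; for `w ∈ W₀`: `0 = ∑_q (∑_i w_i ρ_(q,i)) e_q`, so each vector `ρ_q` is in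
`U` and `r = ∑_q e_q ρ_q`.  So simply: `r = ∑_q e_q ρ_q` with `e_q ∈ ℝ` and `ρ_q ∈ U` (finitely many
`q`; compare `real_comb` in T/Ind.lean).
(2) For rational numbers `t = (t_q)` put `r(t) = ∑ t_q ρ_q ∈ U`.  For `w ∈ W \ W₀` we have
`∑ w_i r_i > 0`, so there is `ε > 0` such that `∑_i w_i r(t)_i > 0` for all `w ∈ W \ W₀` whenever
`|t_q - e_q| < ε` for all `q`; for `w ∈ W₀` the sum is `0`.  Choose rationals
`e_q - ε < t_q^- < e_q < t_q^+ < e_q + ε`.  Then `e_q = λ_q t_q^- + (1 - λ_q) t_q^+` with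
`0 ≤ λ_q ≤ 1`, so `r = ∑_S (∏ ..) r(t^S)` is a convex combination of the `2^d` rational vectors
`r(t^S)`, `S` running over the sign choices (product of the identities; or: induction on the number
of the `q`).  Each `r(t^S)` is in the cone; clear denominators (and divide the coefficients).
-/

set_option autoImplicit false

namespace Pool.Agent.MLD.Cox

private theorem Cone_basis {ι : Type*} [Fintype ι] (r : ι → ℝ) :
    ∃ (m : ℕ) (e : Fin m → ℝ) (ρ : Fin m → ι → ℚ), LinearIndependent ℚ e ∧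
      ∀ i, r i = ∑ q, (ρ q i : ℝ) * e q := by
  have : Module.Finite ℚ (Submodule.span ℚ (Set.range r)) :=
    Module.Finite.span_of_finite ℚ (Set.finite_range r)
  have hmem : ∀ i, r i ∈ Submodule.span ℚ (Set.range r) := fun i =>
    Submodule.subset_span ⟨i, rfl⟩
  let b := Module.finBasis ℚ (Submodule.span ℚ (Set.range r))
  refine ⟨_, fun q => (b q : ℝ), fun q i => b.repr ⟨r i, hmem i⟩ q, ?_, fun i => ?_⟩
  · exact b.linearIndependent.map' (Submodule.subtype _) (Submodule.ker_subtype _)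
  · have h := congrArg (Submodule.subtype _) (b.sum_repr ⟨r i, hmem i⟩)
    rw [map_sum] at h
    refine Eq.trans h.symm (Finset.sum_congr rfl fun q _ => ?_)
    rw [map_smul, Rat.smul_def]
    rfl

private theorem Cone_den {ι : Type*} [Fintype ι] (x : ι → ℚ) :
    ∃ (N : ℕ) (g : ι → ℤ), 0 < N ∧ ∀ i, (N : ℚ) * x i = g i := by
  classical
  refine ⟨∏ i, (x i).den, fun i => (x i).num * ∏ j ∈ Finset.univ.erase i, ((x j).den : ℤ),
    Finset.prod_pos fun i _ => (x i).pos, fun i => ?_⟩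
  rw [← Finset.mul_prod_erase Finset.univ (fun j => (x j).den) (Finset.mem_univ i)]
  push_cast
  have h := Rat.mul_den_eq_num (x i)
  rw [mul_right_comm, mul_comm ((x i).den : ℚ), h]

theorem cone {ι : Type*} [Fintype ι] (W : Finset (ι → ℤ)) (r : ι → ℝ)
    (h : ∀ w ∈ W, 0 ≤ ∑ i, (w i : ℝ) * r i) :
    ∃ (n : ℕ) (g : Fin n → ι → ℤ) (μ : Fin n → ℝ), (∀ a, 0 ≤ μ a) ∧
      (∀ a, ∀ w ∈ W, 0 ≤ ∑ i, w i * g a i) ∧ ∀ i, r i = ∑ a, μ a * (g a i : ℝ) := by
  classical
  obtain ⟨m, e, ρ, he, hr⟩ := Cone_basis r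
  obtain ⟨c, hc⟩ : ∃ c : (ι → ℤ) → Fin m → ℚ, ∀ w q, c w q = ∑ i, (w i : ℚ) * ρ q i :=
    ⟨fun w q => ∑ i, (w i : ℚ) * ρ q i, fun _ _ => rfl⟩
  have hL : ∀ (w : ι → ℤ) (t : Fin m → ℝ),
      ∑ i, (w i : ℝ) * ∑ q, (ρ q i : ℝ) * t q = ∑ q, (c w q : ℝ) * t q := by
    intro w t
    simp only [Finset.mul_sum, hc, Rat.cast_sum, Finset.sum_mul]
    rw [Finset.sum_comm]
    refine Finset.sum_congr rfl fun q _ => Finset.sum_congr rfl fun i _ => ?_
    push_cast
    ring
  have hev : ∀ᶠ t in nhds e, ∀ w ∈ W, 0 ≤ ∑ q, (c w q : ℝ) * t q := by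
    rw [Filter.eventually_all_finset]
    intro w hw
    have h1 : 0 ≤ ∑ q, (c w q : ℝ) * e q := by
      rw [← hL]
      have h2 := h w hw
      simpa only [← hr] using h2
    rcases h1.eq_or_lt with h2 | h2
    · have h3 : ∀ q, c w q = 0 := by
        refine Fintype.linearIndependent_iff.1 he (c w) ?_
        rw [h2]
        exact Finset.sum_congr rfl fun q _ => Rat.smul_def _ _
      refine Filter.Eventually.of_forall fun t => ?_
      simp [h3]
    · have hcont : Continuous fun t : Fin m → ℝ => ∑ q, (c w q : ℝ) * t q := by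
        fun_prop
      exact ((hcont.tendsto e).eventually (lt_mem_nhds h2)).mono fun t ht => le_of_lt ht
  obtain ⟨ε, hε, hcube⟩ := Metric.eventually_nhds_iff.1 hev
  choose a ha1 ha2 using fun q => exists_rat_btwn (show e q - ε < e q by linarith)
  choose b hb1 hb2 using fun q => exists_rat_btwn (show e q < e q + ε by linarith)
  have hhull : e ∈ convexHull ℝ
      (Set.univ.pi fun q => ({(a q : ℝ), (b q : ℝ)} : Set ℝ)) := by
    refine mem_convexHull_pi fun q _ => ?_
    rw [convexHull_pair, segment_eq_Icc (((ha2 q).trans (hb1 q)).le)]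
    exact ⟨(ha2 q).le, (hb1 q).le⟩
  obtain ⟨κ, _, ν, z, hν, -, hz, hze⟩ := mem_convexHull_iff_exists_fintype.1 hhull
  -- the rational coordinates of the vertices
  have hzq : ∀ j q, ∃ y : ℚ, z j q = y ∧ |(y : ℝ) - e q| < ε := by
    intro j q
    rcases hz j q (Set.mem_univ q) with h1 | h1
    · exact ⟨a q, h1, by rw [abs_lt]; constructor <;> linarith [ha1 q, ha2 q]⟩
    · exact ⟨b q, h1, by rw [abs_lt]; constructor <;> linarith [hb1 q, hb2 q]⟩
  choose y hy hyε using hzq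
  have hx : ∀ j, ∃ (N : ℕ) (g : ι → ℤ), 0 < N ∧ ∀ i, (N : ℚ) * (∑ q, ρ q i * y j q) = g i :=
    fun j => Cone_den fun i => ∑ q, ρ q i * y j q
  choose N g hN hg using hx
  have hgr : ∀ j i, (g j i : ℝ) = (N j : ℝ) * ∑ q, (ρ q i : ℝ) * z j q := by
    intro j i
    have h1 := congrArg (fun x : ℚ => (x : ℝ)) (hg j i)
    push_cast at h1
    rw [← h1]
    simp only [hy]
  have hpos : ∀ j, ∀ w ∈ W, 0 ≤ ∑ i, w i * g j i := by
    intro j w hw
    have h1 : 0 ≤ ∑ q, (c w q : ℝ) * z j q := by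
      refine hcube ?_ w hw
      rw [dist_pi_lt_iff hε]
      intro q
      rw [Real.dist_eq, hy]
      exact hyε j q
    have h2 : ((∑ i, w i * g j i : ℤ) : ℝ) = (N j : ℝ) * ∑ q, (c w q : ℝ) * z j q := by
      rw [← hL, Finset.mul_sum]
      push_cast
      refine Finset.sum_congr rfl fun i _ => ?_
      rw [hgr]
      ring
    have h3 : (0 : ℝ) ≤ ((∑ i, w i * g j i : ℤ) : ℝ) := by
      rw [h2]
      exact mul_nonneg (Nat.cast_nonneg _) h1
    exact_mod_cast h3
  have hre : ∀ i, r i = ∑ j, (ν j / N j) * (g j i : ℝ) := by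
    intro i
    rw [hr i]
    have h1 : ∀ q, e q = ∑ j, ν j * z j q := by
      intro q
      have h2 := congrFun hze q
      rw [← h2, Finset.sum_apply]
      rfl
    have h3 : ∀ j, (ν j / N j) * (g j i : ℝ) = ν j * ∑ q, (ρ q i : ℝ) * z j q := by
      intro j
      have h4 : (N j : ℝ) ≠ 0 := by
        have := hN j
        positivity
      rw [hgr]
      field_simp
    simp only [h3, Finset.mul_sum]
    rw [Finset.sum_comm]
    refine Finset.sum_congr rfl fun q _ => ?_
    rw [h1 q, Finset.mul_sum]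
    refine Finset.sum_congr rfl fun j _ => ?_
    ring
  refine ⟨Fintype.card κ, fun l => g ((Fintype.equivFin κ).symm l),
    fun l => ν ((Fintype.equivFin κ).symm l) / N ((Fintype.equivFin κ).symm l),
    fun l => div_nonneg (hν _) (Nat.cast_nonneg _), fun l => hpos _, fun i => ?_⟩
  rw [hre i]
  exact (Fintype.sum_equiv (Fintype.equivFin κ).symm _ _ fun l => rfl).symm

end Pool.Agent.MLD.Cox
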