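import Pool.Agent.Lib.MP_f23696_ag.Y.CoxD
import Pool.Agent.Lib.MP_f23696_ag.T.Ind
import Pool.Agent.Lib.MP_f23696_ag.Dvr
import Pool.Agent.Lib.MP_f23696_ag.Hart

/-!
Project COX, module CoxA: sections of Weil divisors on a normal affine variety.

Write `e p β = ∑_l β_l E_l(p)`.  For `p` of height one let `v_p` be the valuation with centre `p`
(`dvr`, unique by `dvr_unique`; `noeth` gives that `A` is Noetherian; `hA.frac`, `hA.norm`), with
`0 ≤ v_p f ↔ ∃ s ∉ p, s f ∈ A`.

* `IsSec.zero`, `IsSec.add`, `IsSec.mul`: properties of valuations.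
* `sec_zero_iff` (`β = 0`): `→`: for `f ≠ 0` with `v_p f ≥ 0` for all `p`: `hartogs` for every prime
  (maximal) ideal `P` of `A` gives `s ∉ P` with `s f ∈ A`, so the ideal `{s | s f ∈ A}` is not
  contained in any maximal ideal, so `f ∈ A`.
* `sec_order`: let `p₀` be of height one.  Let `t ∈ K` with `v_(p₀) t = 1` and
  `g = t^(- e p₀ β)`.  Only finitely many `p` of height one have `v_p g ≠ 0` (write `g = a / b`;
  `finite_heightOne`) and only finitely many have `E_l(p) ≠ 0` for some `l` (finite support).  Let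
  `F` be the finite set of the `p ≠ p₀` of height one with `v_p g + e p β < 0`.  For `p ∈ F` choose
  `a_p ∈ p \ p₀` (`p ⊄ p₀`: both have height one and `p ≠ p₀`), so `v_p a_p ≥ 1`, `v_(p₀) a_p = 0`,
  all `v_q a_p ≥ 0`.  `b = g * ∏_(p ∈ F) a_p^(n_p)`, `n_p = (-(v_p g + e p β)).toNat`.
* `sec_ne`: there is a nonzero section for every `β`: if `A` has a height one prime, `sec_order`;
  if there is no height one prime, `1` is a section (the condition is empty).
-/

set_option autoImplicit false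

namespace Pool.Agent.MLD.Cox

open MvPolynomial

universe u v

variable {k : Type u} {K : Type v} [Field k] [Field K] [Algebra k K] (A : Subalgebra k K)
  {h : ℕ} (E : Fin h → Ideal A →₀ ℤ)

theorem IsSec.zero (β : Fin h → ℤ) : IsSec A E β 0 := by
  intro p _ v _ h0
  exact absurd rfl h0

theorem IsSec.add {β : Fin h → ℤ} {a b : K} (ha : IsSec A E β a) (hb : IsSec A E β b) :
    IsSec A E β (a + b) := by
  intro p hp v hv h0
  have h1 : Jac.LB v (-∑ l, β l * E l p) a := fun h => by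
    have := ha p hp v hv h
    omega
  have h2 : Jac.LB v (-∑ l, β l * E l p) b := fun h => by
    have := hb p hp v hv h
    omega
  have h3 := (h1.add h2) h0
  omega

theorem IsSec.mul {β β' : Fin h → ℤ} {a b : K} (ha : IsSec A E β a) (hb : IsSec A E β' b) :
    IsSec A E (β + β') (a * b) := by
  intro p hp v hv h0
  have ha0 := left_ne_zero_of_mul h0
  have hb0 := right_ne_zero_of_mul h0
  have h1 := ha p hp v hv ha0
  have h2 := hb p hp v hv hb0
  have h3 : ∑ l, (β + β') l * E l p = ∑ l, β l * E l p + ∑ l, β' l * E l p := by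
    rw [← Finset.sum_add_distrib]
    exact Finset.sum_congr rfl fun l _ => by rw [Pi.add_apply, add_mul]
  rw [v.ord_mul a b ha0 hb0, h3]
  omega

theorem IsSec.algebraMap (a : k) : IsSec A E 0 (algebraMap k K a) := by
  intro p hp v hv h0
  have ha : a ≠ 0 := by
    rintro rfl
    exact h0 (map_zero _)
  have h1 := v.ord_algebraMap a ha
  have h3 : ∑ l, (0 : Fin h → ℤ) l * E l p = 0 :=
    Finset.sum_eq_zero fun l _ => by rw [Pi.zero_apply, zero_mul]
  rw [h1, h3, add_zero]

theorem sec_zero_iff (hA : Ten.IsGood A) (b : K) : IsSec A E 0 b ↔ b ∈ A := by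
  have h0 : ∀ p : Ideal A, ∑ l, (0 : Fin h → ℤ) l * E l p = 0 := fun p =>
    Finset.sum_eq_zero fun l _ => by rw [Pi.zero_apply, zero_mul]
  constructor
  · intro hb
    by_cases hb0 : b = 0
    · rw [hb0]
      exact A.zero_mem
    let I : Ideal A :=
      { carrier := {s | (s : K) * b ∈ A}
        add_mem' := by
          intro s t hs ht
          change ((s + t : A) : K) * b ∈ A
          have : ((s + t : A) : K) * b = (s : K) * b + (t : K) * b := by
            push_cast
            ring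
          rw [this]
          exact A.add_mem hs ht
        zero_mem' := by
          change ((0 : A) : K) * b ∈ A
          rw [ZeroMemClass.coe_zero, zero_mul]
          exact A.zero_mem
        smul_mem' := by
          intro c s hs
          change ((c * s : A) : K) * b ∈ A
          have : ((c * s : A) : K) * b = (c : K) * ((s : K) * b) := by
            push_cast
            ring
          rw [this]
          exact A.mul_mem c.2 hs }
    have hI : I = ⊤ := by
      by_contra hne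
      obtain ⟨P, hP, hIP⟩ := Ideal.exists_le_maximal I hne
      obtain ⟨s, hs, hsb⟩ := hartogs A (Ten.Ind.noeth A hA.fg) hA.frac hA.norm P hP.isPrime b hb0
        (fun q hq _ => by
          obtain ⟨v, hv, hv'⟩ := dvr A (Ten.Ind.noeth A hA.fg) hA.frac hA.norm q hq
          refine (hv' b hb0).1 ?_
          have := hb q hq v hv hb0
          rwa [h0, add_zero] at this)
      exact hs (hIP hsb)
    have h1 : (1 : A) ∈ I := by
      rw [hI]
      exact Submodule.mem_top
    have h2 : ((1 : A) : K) * b ∈ A := h1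
    rwa [OneMemClass.coe_one, one_mul] at h2
  · intro hb p hp v hv hb0
    rw [h0, add_zero]
    exact hv.1 ⟨b, hb⟩ hb0

theorem sec_order (hA : Ten.IsGood A) (β : Fin h → ℤ) (p₀ : Ideal A) (hp : IsHeightOne p₀)
    (v : DVal k K) (hv : v.HasCenter A p₀) :
    ∃ b : K, b ≠ 0 ∧ IsSec A E β b ∧ v.ord b + ∑ l, β l * E l p₀ = 0 := by
  classical
  have hN := Ten.Ind.noeth A hA.fg
  obtain ⟨t, ht0, ht⟩ := v.exists_ord_eq_one
  obtain ⟨g, hg0, hg⟩ : ∃ g : K, g ≠ 0 ∧ v.ord g = -∑ l, β l * E l p₀ :=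
    ⟨t ^ (-∑ l, β l * E l p₀), zpow_ne_zero _ ht0, by rw [Jac.ord_zpow v t ht0, ht, mul_one]⟩
  obtain ⟨a, b, hb0, hab⟩ := hA.frac g
  have ha0 : (a : K) ≠ 0 := by
    intro h0
    apply hg0
    rw [hab, h0, zero_div]
  have hab0 : a * b ≠ 0 := by
    intro h0
    have h1 : ((a * b : A) : K) = 0 := by rw [h0, ZeroMemClass.coe_zero]
    rw [MulMemClass.coe_mul] at h1
    exact mul_ne_zero ha0 hb0 h1
  let e : Ideal A → ℤ := fun p => ∑ l, β l * E l p
  let F : Set (Ideal A) := {p | IsHeightOne p ∧ p ≠ p₀ ∧ ∃ w : DVal k K, w.HasCenter A p ∧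
    w.ord g + e p < 0}
  have hF : F.Finite := by
    refine ((finite_heightOne A hN (a * b) hab0).union
      (Finset.univ.biUnion fun l => (E l).support : Finset (Ideal A)).finite_toSet).subset ?_
    rintro p ⟨hp1, -, w, hw, hlt⟩
    by_cases hmem : a * b ∈ p
    · exact Or.inl ⟨hp1, hmem⟩
    · refine Or.inr ?_
      by_contra hnot
      have h1 : ∀ l, E l p = 0 := fun l => by
        by_contra hl
        exact hnot (Finset.mem_coe.2 (Finset.mem_biUnion.2
          ⟨l, Finset.mem_univ l, Finsupp.mem_support_iff.2 hl⟩))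
      have h2 : e p = 0 := Finset.sum_eq_zero fun l _ => by rw [h1, mul_zero]
      have h3 := (Ten.Ind.out w hw (s := a) fun h => hmem (p.mul_mem_right b h)).2
      have h4 := (Ten.Ind.out w hw (s := b) fun h => hmem (p.mul_mem_left a h)).2
      have h5 : w.ord g = 0 := by
        rw [hab, Ten.ord_div w _ _ ha0 hb0, h3, h4, sub_zero]
      omega
  have hch : ∀ p : Ideal A, ∃ c : A, p ∈ F → c ∈ p ∧ c ∉ p₀ := by
    intro p
    by_cases hpF : p ∈ F
    · have h1 : ¬ p ≤ p₀ := fun hle => hpF.2.1 (hp.2.2 p hpF.1.1 hpF.1.2.1 hle)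
      obtain ⟨c, hc, hc'⟩ := Set.not_subset.1 h1
      exact ⟨c, fun _ => ⟨hc, hc'⟩⟩
    · exact ⟨0, fun h => absurd h hpF⟩
  choose c hc using hch
  have hn : ∀ p : Ideal A, ∃ n : ℕ, p ∈ F → ∀ w : DVal k K, w.HasCenter A p →
      0 ≤ w.ord g + e p + n := by
    intro p
    by_cases hpF : p ∈ F
    · obtain ⟨w, hw, -⟩ := dvr A hN hA.frac hA.norm p hpF.1
      refine ⟨(-(w.ord g + e p)).toNat, fun _ w' hw' => ?_⟩
      rw [dvr_unique A hN hA.frac hA.norm p hpF.1 w' w hw' hw g hg0]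
      have := Int.self_le_toNat (-(w.ord g + e p))
      omega
    · exact ⟨0, fun h => absurd h hpF⟩
  choose n hn using hn
  have hc0 : ∀ p ∈ hF.toFinset, (c p : K) ≠ 0 := by
    intro p hpF h0
    have h1 : c p = 0 := Subtype.ext h0
    exact (hc p (hF.mem_toFinset.1 hpF)).2 (by rw [h1]; exact p₀.zero_mem)
  have hcn0 : ∀ p ∈ hF.toFinset, (c p : K) ^ n p ≠ 0 := fun p hp => pow_ne_zero _ (hc0 p hp)
  have hprod0 : ∏ p ∈ hF.toFinset, (c p : K) ^ n p ≠ 0 := Finset.prod_ne_zero_iff.2 hcn0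
  have hord : ∀ w : DVal k K, w.ord (g * ∏ p ∈ hF.toFinset, (c p : K) ^ n p) =
      w.ord g + ∑ p ∈ hF.toFinset, (n p : ℤ) * w.ord (c p : K) := by
    intro w
    rw [w.ord_mul _ _ hg0 hprod0, Jac.ord_prod w _ _ hcn0]
    congr 1
    exact Finset.sum_congr rfl fun p hp => Jac.ord_pow w _ (hc0 p hp) _
  have hv0 : v.ord (g * ∏ p ∈ hF.toFinset, (c p : K) ^ n p) + ∑ l, β l * E l p₀ = 0 := by
    have hs : ∑ p ∈ hF.toFinset, (n p : ℤ) * v.ord (c p : K) = 0 :=
      Finset.sum_eq_zero fun p hp => by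
        rw [(Ten.Ind.out v hv (hc p (hF.mem_toFinset.1 hp)).2).2, mul_zero]
    rw [hord, hg, hs]
    ring
  refine ⟨g * ∏ p ∈ hF.toFinset, (c p : K) ^ n p, mul_ne_zero hg0 hprod0, ?_, hv0⟩
  intro q hq w hw _
  by_cases hq0 : q = p₀
  · subst hq0
    rw [dvr_unique A hN hA.frac hA.norm q hq w v hw hv _ (mul_ne_zero hg0 hprod0)]
    exact hv0.ge
  have hnn : ∀ p ∈ hF.toFinset, 0 ≤ (n p : ℤ) * w.ord (c p : K) := fun p hp =>
    mul_nonneg (Int.natCast_nonneg _) (hw.1 (c p) (hc0 p hp))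
  rw [hord]
  by_cases hqF : q ∈ F
  · have hqF' : q ∈ hF.toFinset := hF.mem_toFinset.2 hqF
    have h1 := Finset.single_le_sum hnn hqF'
    have h2 : 1 ≤ w.ord (c q : K) := ((hw.2 (c q)).1 (hc q hqF).1) (hc0 q hqF')
    have h3 : (n q : ℤ) * 1 ≤ (n q : ℤ) * w.ord (c q : K) :=
      mul_le_mul_of_nonneg_left h2 (Int.natCast_nonneg _)
    have h4 := hn q hqF w hw
    change 0 ≤ w.ord g + ∑ p ∈ hF.toFinset, (n p : ℤ) * w.ord (c p : K) + e q
    omega
  · have h1 := Finset.sum_nonneg hnn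
    have h2 : ¬ (w.ord g + e q < 0) := fun h => hqF ⟨hq, hq0, w, hw, h⟩
    change 0 ≤ w.ord g + ∑ p ∈ hF.toFinset, (n p : ℤ) * w.ord (c p : K) + e q
    omega

theorem sec_ne (hA : Ten.IsGood A) (β : Fin h → ℤ) : ∃ b : K, b ≠ 0 ∧ IsSec A E β b := by
  by_cases hex : ∃ p : Ideal A, IsHeightOne p
  · obtain ⟨p, hp⟩ := hex
    obtain ⟨v, hv, -⟩ := dvr A (Ten.Ind.noeth A hA.fg) hA.frac hA.norm p hp
    obtain ⟨b, hb0, hb, -⟩ := sec_order A E hA β p hp v hv
    exact ⟨b, hb0, hb⟩
  · exact ⟨1, one_ne_zero, fun p hp => absurd ⟨p, hp⟩ hex⟩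

end Pool.Agent.MLD.Cox
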