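import Pool.Agent.Lib.MP_f23696_ag.Defs

/-!
Project COX, module Lau: the field `K(s_1, …, s_h)` and Laurent polynomials.

Proofs.
* `ls_add`, `ls_zero`, `ls_ne`, `ls_single`: clear.
* `lau_ind`: multiply by `ls μ` with `μ` large: then all exponents are nonnegative, and
  `∑ C (b β) * X^(β + μ) = 0` in `MvPolynomial (Fin h) K` (the algebra map to the fraction field is
  injective); compare coefficients.
* `lau_trdeg`: the `y i` together with the `X l` form a transcendence basis of `LF K h` over `k`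
  (`IsTranscendenceBasis` of a tower: `K / k`, `LF K h / K`; or additivity of the transcendence
  degree `Algebra.trdeg_add_eq`, and `trdeg K (LF K h) = h`:
  `MvPolynomial.isTranscendenceBasis_X`, `MvPolynomial.trdeg_of_isDomain`, and
  `Algebra.trdeg_fractionRing` or the like).
* `lau_norm`: the Laurent polynomials form the subring `R` of `LF K h`; it is the localization of
  `MvPolynomial (Fin h) K` at the powers of `X_1 ⋯ X_h`.  `MvPolynomial (Fin h) K` is a unique
  factorization domain, so integrally closed.  Let `z` be integral over `R`; for `N` large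
  `(X_1 ⋯ X_h)^N z` is integral over `MvPolynomial (Fin h) K` (multiply the equation of integral
  dependence by a power of `X_1 ⋯ X_h`; or `IsIntegral.exists_multiple_integral_of_isLocalization`,
  `IsLocalization` results), so it is a polynomial.
-/

set_option autoImplicit false

namespace Pool.Agent.MLD.Cox

open MvPolynomial

universe u v

/-- the field `K(s_1, …, s_h)` -/
abbrev LF (K : Type v) [Field K] (h : ℕ) := FractionRing (MvPolynomial (Fin h) K)

/-- the embedding of `K` -/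
noncomputable def lφ (k : Type u) {K : Type v} [Field k] [Field K] [Algebra k K] (h : ℕ) :
    K →ₐ[k] LF K h :=
  IsScalarTower.toAlgHom k K (LF K h)

/-- the Laurent monomial `s^β` -/
noncomputable def ls (K : Type v) [Field K] {h : ℕ} (β : Fin h → ℤ) : LF K h :=
  ∏ l, (algebraMap (MvPolynomial (Fin h) K) (LF K h) (X l)) ^ β l

/-- Laurent polynomials -/
def IsLau {K : Type v} [Field K] {h : ℕ} (z : LF K h) : Prop :=
  ∃ (T : Finset (Fin h → ℤ)) (b : (Fin h → ℤ) → K),
    z = ∑ β ∈ T, algebraMap K (LF K h) (b β) * ls K β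

section

variable {k : Type u} {K : Type v} [Field k] [Field K] [Algebra k K] {h : ℕ}

theorem lφ_apply (b : K) : lφ k h b = algebraMap K (LF K h) b := rfl

private theorem Lau_x (l : Fin h) :
    algebraMap (MvPolynomial (Fin h) K) (LF K h) (X l) ≠ 0 :=
  (map_ne_zero_iff _ (IsFractionRing.injective (MvPolynomial (Fin h) K) (LF K h))).2
    (X_ne_zero l)

theorem ls_zero : ls K (0 : Fin h → ℤ) = 1 := by
  unfold ls
  refine Finset.prod_eq_one fun l _ => ?_
  rw [Pi.zero_apply, zpow_zero]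

theorem ls_ne (β : Fin h → ℤ) : ls K β ≠ 0 := by
  exact Finset.prod_ne_zero_iff.2 fun l _ => zpow_ne_zero _ (Lau_x l)

theorem ls_add (β β' : Fin h → ℤ) : ls K (β + β') = ls K β * ls K β' := by
  unfold ls
  rw [← Finset.prod_mul_distrib]
  refine Finset.prod_congr rfl fun l _ => ?_
  rw [Pi.add_apply, zpow_add₀ (Lau_x l)]

private theorem Lau_nsmul (n : ℕ) (β : Fin h → ℤ) : ls K (n • β) = ls K β ^ n := by
  induction n with
  | zero => rw [zero_smul, ls_zero, pow_zero]
  | succ n ih => rw [succ_nsmul, ls_add, ih, pow_succ]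

theorem ls_neg (β : Fin h → ℤ) : ls K (-β) = (ls K β)⁻¹ := by
  unfold ls
  rw [← Finset.prod_inv_distrib]
  refine Finset.prod_congr rfl fun l _ => ?_
  rw [Pi.neg_apply, zpow_neg]

theorem ls_sum {ι : Type*} (s : Finset ι) (n : ι → ℕ) (β : ι → Fin h → ℤ) :
    ls K (∑ i ∈ s, n i • β i) = ∏ i ∈ s, ls K (β i) ^ n i := by
  classical
  induction s using Finset.induction_on with
  | empty => rw [Finset.sum_empty, Finset.prod_empty, ls_zero]
  | insert i s hi ih =>
    rw [Finset.sum_insert hi, Finset.prod_insert hi, ls_add, ih, Lau_nsmul]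

theorem ls_single (l : Fin h) :
    ls K (Pi.single l 1) = algebraMap (MvPolynomial (Fin h) K) (LF K h) (X l) := by
  unfold ls
  rw [Finset.prod_eq_single l]
  · rw [Pi.single_eq_same, zpow_one]
  · intro l' _ hl
    rw [Pi.single_eq_of_ne hl, zpow_zero]
  · exact fun h' => absurd (Finset.mem_univ l) h'

private theorem Lau_mon (n : Fin h →₀ ℕ) (a : K) :
    algebraMap (MvPolynomial (Fin h) K) (LF K h) (monomial n a) =
      algebraMap K (LF K h) a * ls K (fun l => (n l : ℤ)) := by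
  rw [monomial_eq, map_mul, ← MvPolynomial.algebraMap_eq, ← IsScalarTower.algebraMap_apply,
    Finsupp.prod_fintype _ _ (fun _ => pow_zero _), map_prod]
  unfold ls
  refine congrArg _ (Finset.prod_congr rfl fun l _ => ?_)
  rw [map_pow, zpow_natCast]

/-- the exponent `β + μ` -/
private noncomputable def Lau_e (μ β : Fin h → ℤ) : Fin h →₀ ℕ :=
  Finsupp.equivFunOnFinite.symm fun l => (β l + μ l).toNat

private theorem Lau_e_apply (μ β : Fin h → ℤ) (l : Fin h) :
    Lau_e μ β l = (β l + μ l).toNat := rfl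

private theorem Lau_sum (T : Finset (Fin h → ℤ)) (b : (Fin h → ℤ) → K) (μ : Fin h → ℤ)
    (hμ : ∀ β ∈ T, ∀ l, 0 ≤ β l + μ l) :
    algebraMap (MvPolynomial (Fin h) K) (LF K h) (∑ β ∈ T, monomial (Lau_e μ β) (b β)) =
      (∑ β ∈ T, algebraMap K (LF K h) (b β) * ls K β) * ls K μ := by
  rw [map_sum, Finset.sum_mul]
  refine Finset.sum_congr rfl fun β hβ => ?_
  have h1 : (fun l => ((Lau_e μ β) l : ℤ)) = β + μ := by
    funext l
    rw [Lau_e_apply, Int.toNat_of_nonneg (hμ β hβ l)]
    rfl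
  rw [Lau_mon, h1, ls_add, mul_assoc]

private theorem Lau_bd (T : Finset (Fin h → ℤ)) : ∃ N : ℕ, ∀ β ∈ T, ∀ l, 0 ≤ β l + N := by
  refine ⟨∑ β ∈ T, ∑ l, (β l).natAbs, fun β hβ l => ?_⟩
  have h1 : (β l).natAbs ≤ ∑ l, (β l).natAbs :=
    Finset.single_le_sum (f := fun l => (β l).natAbs) (fun _ _ => Nat.zero_le _)
      (Finset.mem_univ l)
  have h2 : ∑ l, (β l).natAbs ≤ ∑ β ∈ T, ∑ l, (β l).natAbs :=
    Finset.single_le_sum (f := fun β : Fin h → ℤ => ∑ l, (β l).natAbs)
      (fun _ _ => Nat.zero_le _) hβ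
  omega

private theorem Lau_to {z : LF K h} (hz : IsLau z) : ∃ N : ℕ, ∀ M : ℕ, N ≤ M →
    ∃ Q : MvPolynomial (Fin h) K,
      algebraMap (MvPolynomial (Fin h) K) (LF K h) Q = z * ls K (fun _ => (M : ℤ)) := by
  obtain ⟨T, b, rfl⟩ := hz
  obtain ⟨N, hN⟩ := Lau_bd T
  refine ⟨N, fun M hM => ⟨_, Lau_sum T b (fun _ => (M : ℤ)) fun β hβ l => ?_⟩⟩
  have := hN β hβ l
  omega

private theorem Lau_of (Q : MvPolynomial (Fin h) K) (μ : Fin h → ℤ) :
    IsLau (algebraMap (MvPolynomial (Fin h) K) (LF K h) Q * ls K μ) := by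
  classical
  have hinj : ∀ n n' : Fin h →₀ ℕ, (fun l => (n l : ℤ) + μ l) = (fun l => (n' l : ℤ) + μ l) →
      n = n' := by
    intro n n' hn
    ext l
    have := congrFun hn l
    change (n l : ℤ) + μ l = n' l + μ l at this
    omega
  refine ⟨Q.support.image fun n l => (n l : ℤ) + μ l, fun β => coeff (Lau_e (-μ) β) Q, ?_⟩
  rw [Finset.sum_image fun n _ n' _ hn => hinj n n' hn]
  conv_lhs => rw [Q.as_sum]
  rw [map_sum, Finset.sum_mul]
  refine Finset.sum_congr rfl fun n _ => ?_
  have h1 : Lau_e (-μ) (fun l => (n l : ℤ) + μ l) = n := by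
    ext l
    rw [Lau_e_apply]
    simp
  have h2 : (fun l => (n l : ℤ) + μ l) = (fun l => (n l : ℤ)) + μ := rfl
  change _ = algebraMap K (LF K h) (coeff (Lau_e (-μ) fun l => (n l : ℤ) + μ l) Q) * _
  rw [h1, h2, ls_add, Lau_mon, mul_assoc]

theorem lau_ind (T : Finset (Fin h → ℤ)) (b : (Fin h → ℤ) → K)
    (h0 : ∑ β ∈ T, algebraMap K (LF K h) (b β) * ls K β = 0) : ∀ β ∈ T, b β = 0 := by
  obtain ⟨N, hN⟩ := Lau_bd T
  have h1 := Lau_sum (K := K) T b (fun _ => (N : ℤ)) hN
  rw [h0, zero_mul] at h1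
  have h2 := (map_eq_zero_iff _
    (IsFractionRing.injective (MvPolynomial (Fin h) K) (LF K h))).1 h1
  intro β hβ
  have h3 := congrArg (coeff (Lau_e (fun _ => (N : ℤ)) β)) h2
  rw [coeff_sum, Finset.sum_eq_single β, coeff_monomial, if_pos rfl, coeff_zero] at h3
  · exact h3
  · intro β' hβ' hne
    rw [coeff_monomial, if_neg]
    intro he
    apply hne
    funext l
    have h4 := DFunLike.congr_fun he l
    rw [Lau_e_apply, Lau_e_apply] at h4
    have h5 := hN β' hβ' l
    have h6 := hN β hβ l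
    omega
  · exact fun h' => absurd hβ h'

/-- the homogeneous components of the value of a polynomial -/
theorem lau_aeval {σ : Type} [Fintype σ] (ξ : σ → K) (χ : σ → Fin h → ℤ) (P : MvPolynomial σ k)
    (β : Fin h → ℤ) (hP : IsWeightedHomogeneous χ P β) :
    aeval (fun i => lφ k h (ξ i) * ls K (χ i)) P = lφ k h (aeval ξ P) * ls K β := by
  rw [aeval_def, eval₂_eq', aeval_def, eval₂_eq', map_sum, Finset.sum_mul]
  refine Finset.sum_congr rfl fun d hd => ?_
  have h1 : Finsupp.weight χ d = β := hP (mem_support_iff.1 hd)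
  have h2 : ∑ i, d i • χ i = β := by
    rw [← h1, Finsupp.weight_apply, Finsupp.sum_fintype _ _ fun i => zero_smul ℕ (χ i)]
  rw [map_mul, map_prod, AlgHom.commutes, ← h2, ls_sum, mul_assoc, ← Finset.prod_mul_distrib]
  refine congrArg _ (Finset.prod_congr rfl fun i _ => ?_)
  rw [map_pow, mul_pow]

theorem lau_trdeg (n : ℕ) (y : Fin n → K) (hy : IsTranscendenceBasis k y) :
    Algebra.trdeg k (LF K h) = (n + h : ℕ) := by
  have h1 : Algebra.trdeg k K = n := by
    have h2 := hy.lift_cardinalMk_eq_trdeg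
    rw [Cardinal.mk_fin, Cardinal.lift_natCast, Cardinal.lift_uzero] at h2
    exact h2.symm
  have h3 : Algebra.trdeg K (LF K h) = h := by
    rw [← trdeg_add_eq K (MvPolynomial (Fin h) K) (A := LF K h),
      MvPolynomial.trdeg_of_isDomain, Cardinal.mk_fin, Cardinal.lift_natCast,
      trdeg_eq_zero_iff.2 (IsLocalization.isAlgebraic (R := MvPolynomial (Fin h) K) (S := LF K h)
        (nonZeroDivisors (MvPolynomial (Fin h) K))), add_zero]
  rw [← trdeg_add_eq k K (A := LF K h), h1, h3, Nat.cast_add]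

/-- every element is a quotient of polynomials in `s` with coefficients in `K` -/
theorem lau_frac (z : LF K h) : ∃ z₁ z₂ : LF K h, IsLau z₁ ∧ IsLau z₂ ∧ z₂ ≠ 0 ∧ z = z₁ / z₂ := by
  obtain ⟨a, b, hb, rfl⟩ := IsFractionRing.div_surjective (A := MvPolynomial (Fin h) K) z
  have h1 : ∀ Q : MvPolynomial (Fin h) K,
      IsLau (algebraMap (MvPolynomial (Fin h) K) (LF K h) Q) := by
    intro Q
    have h2 := Lau_of Q 0
    rw [ls_zero, mul_one] at h2
    exact h2
  refine ⟨_, _, h1 a, h1 b, ?_, rfl⟩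
  exact (map_ne_zero_iff _ (IsFractionRing.injective (MvPolynomial (Fin h) K) (LF K h))).2
    (nonZeroDivisors.ne_zero hb)

theorem lau_norm (R : Subalgebra k (LF K h)) (hR : ∀ z ∈ R, IsLau z) (z : LF K h)
    (hz : IsIntegral R z) : IsLau z := by
  obtain ⟨p, hp, hpz⟩ := hz
  have h1 : ∀ i, ∃ N : ℕ, ∀ M : ℕ, N ≤ M → ∃ Q : MvPolynomial (Fin h) K,
      algebraMap (MvPolynomial (Fin h) K) (LF K h) Q =
        (p.coeff i : LF K h) * ls K (fun _ => (M : ℤ)) :=
    fun i => Lau_to (hR _ (p.coeff i).2)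
  choose N hN using h1
  obtain ⟨M, hM⟩ : ∃ M, M = ∑ i ∈ Finset.range (p.natDegree + 1), N i := ⟨_, rfl⟩
  obtain ⟨s, hs⟩ : ∃ s : LF K h, s = ls K (fun _ => (M : ℤ)) := ⟨_, rfl⟩
  have hNM : ∀ i ≤ p.natDegree, N i ≤ M := by
    intro i hi
    rw [hM]
    exact Finset.single_le_sum (f := N) (fun _ _ => Nat.zero_le _)
      (Finset.mem_range.2 (Nat.lt_succ_of_le hi))
  have hsP : s ∈ (algebraMap (MvPolynomial (Fin h) K) (LF K h)).range := by
    obtain ⟨Q, hQ⟩ := hN p.natDegree M (hNM _ le_rfl)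
    have h2 : p.coeff p.natDegree = 1 := hp
    refine ⟨Q, ?_⟩
    rw [hQ, h2, hs, OneMemClass.coe_one, one_mul]
  obtain ⟨q, hq⟩ : ∃ q : Polynomial (LF K h),
      q = (p.map (algebraMap R (LF K h))).scaleRoots s := ⟨_, rfl⟩
  have hpm : (p.map (algebraMap R (LF K h))).Monic := hp.map _
  have hqm : q.Monic := by
    rw [hq]
    exact (Polynomial.monic_scaleRoots_iff s).2 hpm
  have hq0 : q.eval (s * z) = 0 := by
    rw [hq, Polynomial.scaleRoots_eval_mul, Polynomial.eval_map, hpz, mul_zero]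
  have hdeg : (p.map (algebraMap R (LF K h))).natDegree = p.natDegree := hp.natDegree_map _
  have hl : q ∈ Polynomial.lifts (algebraMap (MvPolynomial (Fin h) K) (LF K h)) := by
    rw [Polynomial.lifts_iff_coeff_lifts]
    intro i
    rw [← RingHom.coe_range, hq, Polynomial.coeff_scaleRoots, Polynomial.coeff_map, hdeg]
    rcases lt_trichotomy i p.natDegree with h2 | h2 | h2
    · obtain ⟨r, hr⟩ : ∃ r, p.natDegree - i = r + 1 := ⟨p.natDegree - i - 1, by omega⟩
      obtain ⟨Q, hQ⟩ := hN i M (hNM i h2.le)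
      rw [hr, pow_succ', ← mul_assoc]
      refine Subring.mul_mem _ ⟨Q, ?_⟩ (Subring.pow_mem _ hsP r)
      rw [hQ, hs]
      rfl
    · have h3 : p.coeff i = 1 := by
        rw [h2]
        exact hp
      rw [h3, h2, Nat.sub_self, pow_zero, map_one, mul_one]
      exact Subring.one_mem _
    · rw [Polynomial.coeff_eq_zero_of_natDegree_lt h2, map_zero, zero_mul]
      exact Subring.zero_mem _
  obtain ⟨q', h2, _, h3⟩ := Polynomial.lifts_and_natDegree_eq_and_monic hl hqm
  have h4 : IsIntegral (MvPolynomial (Fin h) K) (s * z) := by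
    refine ⟨q', h3, ?_⟩
    rw [← Polynomial.eval_map, h2]
    exact hq0
  obtain ⟨y, hy⟩ := (IsIntegrallyClosed.isIntegral_iff (R := MvPolynomial (Fin h) K)
    (K := LF K h)).1 h4
  have hs0 : s ≠ 0 := by
    rw [hs]
    exact ls_ne _
  have h5 : z = algebraMap (MvPolynomial (Fin h) K) (LF K h) y *
      ls K (-(fun _ => (M : ℤ)) : Fin h → ℤ) := by
    rw [hy, ls_neg, ← hs, mul_comm s z, mul_assoc, mul_inv_cancel₀ hs0, mul_one]
  rw [h5]
  exact Lau_of y _

end

end Pool.Agent.MLD.Cox
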