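import Pool.Agent.Lib.MP_f23696_ag.Y.CoxA
import Pool.Agent.Lib.MP_f23696_ag.Y.Lau
import Pool.Agent.Lib.MP_f23696_ag.Y.QDefs

/-!
Project COX, module CoxB: the algebra `B = ⊕_β H^0(X, O(∑ β_l E_l)) s^β`.

Notation: `ι b = algebraMap K (LF K h) b` (`= lφ k h b`), `s^β = ls K β`, `x i = cx ξ χ i =
ι (ξ i) s^(χ i)`, `e p β = ∑_l β_l E_l(p)`.  `hgen` says that the sections of `∑ β_l E_l` are the
values `aeval ξ P`, `P` homogeneous of degree `β`.

* `isVal_iff`: `lau_aeval` and `hgen`.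
* `memB`: `B = Algebra.adjoin k (range x)`.  `←`: `ι b s^β` with `b = aeval ξ P` a section equals
  `aeval x P ∈ B` (`lau_aeval`).  `→`: the set of such sums contains the `x i` and is closed under
  sums and products (`IsSec.add`, `IsSec.mul`, `ls_add`, `IsSec.algebraMap`); or: `z = aeval x P`,
  `P = ∑_β P_β` (`weightedHomogeneousComponent`, finite sum), `aeval x P_β = ι (aeval ξ P_β) s^β`.
* `cker`: `P(x) = ∑_β ι (P_β(ξ)) s^β = 0` iff all `P_β(ξ) = 0` (`lau_ind`) iff all `P_β` are in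
  `span (range f)` (`hrel`) iff `P` is (`→`: sum of the components; `←`: `span (range f)` is
  generated by homogeneous elements, so it contains the components of its elements).
* `cspan`: every `β ∈ ℤ^h` has a nonzero section (`sec_ne`), which is `aeval ξ P` with `P ≠ 0`
  homogeneous of degree `β`; a monomial `d` in the support of `P` has `∑ d i • χ i = β`.
* `cfrac`: `φ = lφ k h`.  `→`: `a = a₁ / a₂` with `a₁, a₂ ∈ A` (`hA.frac`), sections of degree `0`.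
  `←`: `z₁ = ι b₁ s^β`, `z₂ = ι b₂ s^β`, `z = ι (b₁ / b₂)`.
-/

set_option autoImplicit false

namespace Pool.Agent.MLD.Cox

open MvPolynomial

universe u v

section

variable {k : Type u} {K : Type v} [Field k] [Field K] [Algebra k K] {h : ℕ} {σ : Type}

/-- the generators `ξ_i s^(χ_i)` -/
noncomputable def cx (k : Type u) {K : Type v} [Field k] [Field K] [Algebra k K] {h : ℕ}
    {σ : Type} (ξ : σ → K) (χ : σ → Fin h → ℤ) (i : σ) : LF K h :=
  lφ k h (ξ i) * ls K (χ i)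

/-- the algebra generated by them -/
noncomputable def cB (k : Type u) {K : Type v} [Field k] [Field K] [Algebra k K] {h : ℕ}
    {σ : Type} (ξ : σ → K) (χ : σ → Fin h → ℤ) : Subalgebra k (LF K h) :=
  Algebra.adjoin k (Set.range (cx k ξ χ))

variable [Fintype σ] (A : Subalgebra k K) (E : Fin h → Ideal A →₀ ℤ) (ξ : σ → K)
  (χ : σ → Fin h → ℤ)

/-- the sections are the values of the homogeneous polynomials -/
def SecGen : Prop :=
  ∀ (β : Fin h → ℤ) (b : K), IsSec A E β b ↔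
    ∃ P : MvPolynomial σ k, IsWeightedHomogeneous χ P β ∧ b = aeval ξ P

omit [Fintype σ] in
private theorem CoxB_dec (P : MvPolynomial σ k) : ∃ T : Finset (Fin h → ℤ),
    P = ∑ β ∈ T, weightedHomogeneousComponent χ β P := by
  refine ⟨(weightedHomogeneousComponent_finsupp (w := χ) P).toFinset, ?_⟩
  conv_lhs => rw [← sum_weightedHomogeneousComponent χ P]
  exact finsum_eq_sum _ _

private theorem CoxB_val (P : MvPolynomial σ k) (β : Fin h → ℤ)
    (hP : IsWeightedHomogeneous χ P β) :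
    aeval (cx k ξ χ) P = lφ k h (aeval ξ P) * ls K β :=
  lau_aeval ξ χ P β hP

private theorem CoxB_sum (P : MvPolynomial σ k) (T : Finset (Fin h → ℤ))
    (hT : P = ∑ β ∈ T, weightedHomogeneousComponent χ β P) :
    aeval (cx k ξ χ) P = ∑ β ∈ T,
      algebraMap K (LF K h) (aeval ξ (weightedHomogeneousComponent χ β P)) * ls K β := by
  conv_lhs => rw [hT, map_sum]
  exact Finset.sum_congr rfl fun β _ => CoxB_val ξ χ _ β
    (weightedHomogeneousComponent_isWeightedHomogeneous β P)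

theorem isVal_iff (hgen : SecGen A E ξ χ) (β : Fin h → ℤ) (z : LF K h) :
    IsVal (k := k) (cx k ξ χ) χ β z ↔ ∃ b : K, IsSec A E β b ∧ z = lφ k h b * ls K β := by
  constructor
  · rintro ⟨P, hP, rfl⟩
    exact ⟨aeval ξ P, (hgen β _).2 ⟨P, hP, rfl⟩, CoxB_val ξ χ P β hP⟩
  · rintro ⟨b, hb, rfl⟩
    obtain ⟨P, hP, rfl⟩ := (hgen β b).1 hb
    exact ⟨P, hP, (CoxB_val ξ χ P β hP).symm⟩

theorem memB (hgen : SecGen A E ξ χ) (z : LF K h) : z ∈ cB k ξ χ ↔
    ∃ (T : Finset (Fin h → ℤ)) (b : (Fin h → ℤ) → K), (∀ β ∈ T, IsSec A E β (b β)) ∧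
      z = ∑ β ∈ T, algebraMap K (LF K h) (b β) * ls K β := by
  unfold cB
  rw [Algebra.adjoin_range_eq_range_aeval, AlgHom.mem_range]
  constructor
  · rintro ⟨P, rfl⟩
    obtain ⟨T, hT⟩ := CoxB_dec χ P
    exact ⟨T, fun β => aeval ξ (weightedHomogeneousComponent χ β P), fun β _ =>
      (hgen β _).2 ⟨_, weightedHomogeneousComponent_isWeightedHomogeneous β P, rfl⟩,
      CoxB_sum ξ χ P T hT⟩
  · rintro ⟨T, b, hb, rfl⟩
    have h1 : ∀ β : Fin h → ℤ, ∃ P : MvPolynomial σ k, β ∈ T →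
        IsWeightedHomogeneous χ P β ∧ b β = aeval ξ P := by
      intro β
      by_cases hβ : β ∈ T
      · obtain ⟨P, hP⟩ := (hgen β (b β)).1 (hb β hβ)
        exact ⟨P, fun _ => hP⟩
      · exact ⟨0, fun h => absurd h hβ⟩
    choose P hP using h1
    refine ⟨∑ β ∈ T, P β, ?_⟩
    rw [map_sum]
    refine Finset.sum_congr rfl fun β hβ => ?_
    rw [CoxB_val ξ χ (P β) β (hP β hβ).1, ← (hP β hβ).2]
    rfl

theorem cker (hgen : SecGen A E ξ χ) {c : ℕ} (f : Fin c → MvPolynomial σ k)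
    (hom : ∀ j, ∃ ψ : Fin h → ℤ, IsWeightedHomogeneous χ (f j) ψ)
    (hrel : ∀ (β : Fin h → ℤ) (P : MvPolynomial σ k), IsWeightedHomogeneous χ P β →
      (aeval ξ P = 0 ↔ P ∈ Ideal.span (Set.range f))) :
    RingHom.ker (aeval (cx k ξ χ) : MvPolynomial σ k →ₐ[k] LF K h) =
      Ideal.span (Set.range f) := by
  apply le_antisymm
  · intro P hP
    have h0 : aeval (cx k ξ χ) P = 0 := RingHom.mem_ker.1 hP
    obtain ⟨T, hT⟩ := CoxB_dec χ P
    rw [CoxB_sum ξ χ P T hT] at h0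
    have h1 := lau_ind T (fun β => aeval ξ (weightedHomogeneousComponent χ β P)) h0
    rw [hT]
    exact Ideal.sum_mem _ fun β hβ => (hrel β _
      (weightedHomogeneousComponent_isWeightedHomogeneous β P)).1 (h1 β hβ)
  · rw [Ideal.span_le]
    rintro _ ⟨j, rfl⟩
    obtain ⟨ψ, hψ⟩ := hom j
    have h1 : aeval ξ (f j) = 0 := (hrel ψ _ hψ).2 (Ideal.subset_span ⟨j, rfl⟩)
    refine RingHom.mem_ker.2 ?_
    rw [CoxB_val ξ χ (f j) ψ hψ, h1, map_zero, zero_mul]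

theorem cspan (hA : Ten.IsGood A) (hgen : SecGen A E ξ χ) :
    AddSubgroup.closure (Set.range χ) = ⊤ := by
  rw [eq_top_iff]
  rintro β -
  obtain ⟨b, hb0, hb⟩ := sec_ne A E hA β
  obtain ⟨P, hP, rfl⟩ := (hgen β b).1 hb
  have hP0 : P ≠ 0 := by
    rintro rfl
    exact hb0 (map_zero _)
  obtain ⟨d, hd⟩ := ne_zero_iff.1 hP0
  have h1 : Finsupp.weight χ d = β := hP hd
  rw [← h1, Finsupp.weight_apply, Finsupp.sum]
  refine AddSubgroup.sum_mem _ fun i _ => ?_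
  have h2 : χ i ∈ AddSubgroup.closure (Set.range χ) :=
    AddSubgroup.subset_closure (Set.mem_range_self i)
  exact AddSubgroup.nsmul_mem _ h2 _

theorem cfrac (hA : Ten.IsGood A) (hgen : SecGen A E ξ χ) (z : LF K h) :
    (∃ a : K, lφ k h a = z) ↔ ∃ (β : Fin h → ℤ) (z₁ z₂ : LF K h),
      IsVal (k := k) (cx k ξ χ) χ β z₁ ∧ IsVal (k := k) (cx k ξ χ) χ β z₂ ∧ z₂ ≠ 0 ∧
      z = z₁ / z₂ := by
  constructor
  · rintro ⟨a, rfl⟩
    obtain ⟨a₁, a₂, h1, h2⟩ := hA.frac a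
    have h3 : ∀ a : A, IsVal (k := k) (cx k ξ χ) χ 0 (lφ k h (a : K) * ls K 0) := fun a =>
      (isVal_iff A E ξ χ hgen 0 (lφ k h (a : K) * ls K 0)).2
        ⟨(a : K), (sec_zero_iff A E hA (a : K)).2 a.2, rfl⟩
    refine ⟨0, lφ k h (a₁ : K) * ls K 0, lφ k h (a₂ : K) * ls K 0, h3 a₁, h3 a₂, ?_, ?_⟩
    · exact mul_ne_zero ((map_ne_zero (lφ k h)).2 h1) (ls_ne 0)
    · rw [mul_div_mul_right _ _ (ls_ne 0), ← map_div₀, ← h2]
  · rintro ⟨β, z₁, z₂, h1, h2, h3, rfl⟩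
    obtain ⟨b₁, -, rfl⟩ := (isVal_iff A E ξ χ hgen β z₁).1 h1
    obtain ⟨b₂, -, rfl⟩ := (isVal_iff A E ξ χ hgen β z₂).1 h2
    refine ⟨b₁ / b₂, ?_⟩
    rw [mul_div_mul_right _ _ (ls_ne β), map_div₀]

end

end Pool.Agent.MLD.Cox
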