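import Pool.Agent.Lib.MP_f23696_ag.Defs

/-!
Project COX: sections of Weil divisors.
-/

namespace Pool.Agent.MLD.Cox

open MvPolynomial

universe u v

variable {k : Type u} {K : Type v} [Field k] [Field K] [Algebra k K]

/-- `b ∈ K` is a section of the Weil divisor `∑_l β_l E_l` on `X = Spec A`, where
`E_l = ∑_p E_l(p) V(p)`: for every prime divisor `V(p)`, with valuation `v`,
`v(b) + ∑_l β_l E_l(p) ≥ 0`. -/
def IsSec (A : Subalgebra k K) {h : ℕ} (E : Fin h → Ideal A →₀ ℤ) (β : Fin h → ℤ) (b : K) :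
    Prop :=
  ∀ p : Ideal A, IsHeightOne p → ∀ v : DVal k K, v.HasCenter A p →
    b ≠ 0 → 0 ≤ v.ord b + ∑ l, β l * E l p

end Pool.Agent.MLD.Cox
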