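import Pool.Agent.Lib.MP_f23696_ag.Y.Lau
import Pool.Agent.Lib.MP_f23696_ag.T.Val

/-!
Project COX, module Gauss: the Gauss extension of a valuation to `K(s_1, …, s_h)`, with weights.

Proof.  Let `v` be the valuation, `e l` the weights.  For `0 ≠ F ∈ MvPolynomial (Fin h) K` put
`g F = min {v (coeff d F) + ∑ d l * e l : d ∈ support F}`.
(1) `g (F + G) ≥ min (g F) (g G)` if `F + G ≠ 0`.
(2) `g (F G) = g F + g G`: choose a total order on the monomials compatible with the addition (the
lexicographic order of `Fin h →₀ ℕ`: `MonomialOrder.lex` or `Lex (Fin h →₀ ℕ)`); let `d₀` be the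
largest monomial of `F` for which the minimum `g F` is attained, `d₁` the same for `G`.  The
coefficient of `F G` at `d₀ + d₁` is `∑_(d + d' = d₀ + d₁) F_d G_d'`; every term other than
`(d₀, d₁)` has `d > d₀` or `d' > d₁`, so a strictly larger value; so the coefficient is nonzero and
has value `v (F_d₀) + v (G_d₁)` (a valuation of a sum with a unique minimal term), which gives
`g (F G) ≤ g F + g G`; the other inequality is clear.
(Alternative for (2): after the substitution `s_l ↦ t^(-e l) s_l`, `v t = 1`, all weights are `0`;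
scale `F`, `G` by powers of `t` such that `g F = g G = 0`; their reductions over the residue field
of `v` are nonzero polynomials, so the reduction of `F G` is nonzero.)
(3) `w (F / G) = g F - g G` is a well defined discrete valuation of `LF K h`, extending `v`, with
`w (s^β) = ∑ β l * e l`; so `exists_ord_eq_one` holds.  For a Laurent polynomial
`z = ∑_(β ∈ T) b_β s^β ≠ 0`: multiply by `s^μ`, `μ` large, to get a polynomial; so
`w z = min {v (b_β) + ∑ β l * e l : β ∈ T, b_β ≠ 0}`.
-/

set_option autoImplicit false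

namespace Pool.Agent.MLD.Cox

open MvPolynomial

universe u v

section

open Pool.Agent.MLD.Jac

variable {k : Type u} {K : Type v} [Field k] [Field K] [Algebra k K] {h : ℕ}

/-- the weight of a monomial -/
private def Gauss_wt (e : Fin h → ℤ) (d : Fin h →₀ ℕ) : ℤ := ∑ l, (d l : ℤ) * e l

private theorem Gauss_wt_add (e : Fin h → ℤ) (d d' : Fin h →₀ ℕ) :
    Gauss_wt e (d + d') = Gauss_wt e d + Gauss_wt e d' := by
  unfold Gauss_wt
  rw [← Finset.sum_add_distrib]
  refine Finset.sum_congr rfl fun l _ => ?_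
  rw [Finsupp.add_apply]
  push_cast
  ring

/-- the value of the term of `F` at the monomial `d` -/
private def Gauss_val (v : DVal k K) (e : Fin h → ℤ) (F : MvPolynomial (Fin h) K)
    (d : Fin h →₀ ℕ) : ℤ := v.ord (coeff d F) + Gauss_wt e d

/-- the least value of a term -/
private noncomputable def Gauss_g (v : DVal k K) (e : Fin h → ℤ)
    (F : MvPolynomial (Fin h) K) : ℤ := by
  classical
  exact if hF : F.support.Nonempty then F.support.inf' hF (Gauss_val v e F) else 0

variable {v : DVal k K} {e : Fin h → ℤ} {F G : MvPolynomial (Fin h) K}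

private theorem Gauss_le {d : Fin h →₀ ℕ} (hd : coeff d F ≠ 0) :
    Gauss_g v e F ≤ Gauss_val v e F d := by
  have hd' : d ∈ F.support := mem_support_iff.2 hd
  have hF : F.support.Nonempty := ⟨d, hd'⟩
  unfold Gauss_g
  rw [dif_pos hF]
  exact Finset.inf'_le _ hd'

private theorem Gauss_ex (hF : F ≠ 0) :
    ∃ d, coeff d F ≠ 0 ∧ Gauss_val v e F d = Gauss_g v e F := by
  have hF' : F.support.Nonempty := by
    rw [Finset.nonempty_iff_ne_empty]
    intro h
    exact hF (support_eq_empty.1 h)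
  obtain ⟨d, hd, h1⟩ := Finset.exists_mem_eq_inf' hF' (Gauss_val v e F)
  refine ⟨d, mem_support_iff.1 hd, ?_⟩
  unfold Gauss_g
  rw [dif_pos hF', h1]

private theorem Gauss_uniq {m : ℤ} (h1 : ∀ d, coeff d F ≠ 0 → m ≤ Gauss_val v e F d)
    (h2 : ∃ d, coeff d F ≠ 0 ∧ Gauss_val v e F d = m) : Gauss_g v e F = m := by
  obtain ⟨d, hd, h3⟩ := h2
  have hF : F ≠ 0 := by
    rintro rfl
    exact hd (coeff_zero d)
  obtain ⟨d', hd', h4⟩ := Gauss_ex (v := v) (e := e) hF
  have h5 := Gauss_le (v := v) (e := e) hd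
  have h6 := h1 d' hd'
  omega

private theorem Gauss_LB (d : Fin h →₀ ℕ) :
    LB v (Gauss_g v e F - Gauss_wt e d) (coeff d F) := by
  intro hd
  have h1 := Gauss_le (v := v) (e := e) hd
  unfold Gauss_val at h1
  omega

private theorem Gauss_of_LB {m : ℤ} (hF : F ≠ 0)
    (h1 : ∀ d, LB v (m - Gauss_wt e d) (coeff d F)) : m ≤ Gauss_g v e F := by
  obtain ⟨d, hd, h2⟩ := Gauss_ex (v := v) (e := e) hF
  have h3 := h1 d hd
  unfold Gauss_val at h2
  omega

private theorem Gauss_add (h0 : F + G ≠ 0) :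
    min (Gauss_g v e F) (Gauss_g v e G) ≤ Gauss_g v e (F + G) := by
  refine Gauss_of_LB h0 fun d => ?_
  rw [coeff_add]
  refine LB.add ((Gauss_LB (e := e) d).mono ?_) ((Gauss_LB (e := e) d).mono ?_)
  · have := min_le_left (Gauss_g v e F) (Gauss_g v e G)
    omega
  · have := min_le_right (Gauss_g v e F) (Gauss_g v e G)
    omega

private theorem Gauss_mul (hF : F ≠ 0) (hG : G ≠ 0) :
    Gauss_g v e (F * G) = Gauss_g v e F + Gauss_g v e G := by
  classical
  obtain ⟨a, ha, ha'⟩ := Gauss_ex (v := v) (e := e) hF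
  obtain ⟨b, hb, hb'⟩ := Gauss_ex (v := v) (e := e) hG
  obtain ⟨a0, ha0, b0, hb0, hu⟩ := UniqueSums.uniqueAdd_of_nonempty
    (A := F.support.filter fun d => Gauss_val v e F d = Gauss_g v e F)
    (B := G.support.filter fun d => Gauss_val v e G d = Gauss_g v e G)
    ⟨a, Finset.mem_filter.2 ⟨mem_support_iff.2 ha, ha'⟩⟩
    ⟨b, Finset.mem_filter.2 ⟨mem_support_iff.2 hb, hb'⟩⟩
  rw [Finset.mem_filter, mem_support_iff] at ha0 hb0
  obtain ⟨a1, a2⟩ := ha0
  obtain ⟨b1, b2⟩ := hb0
  have hmul : v.ord (coeff a0 F * coeff b0 G) =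
      Gauss_g v e F + Gauss_g v e G - Gauss_wt e (a0 + b0) := by
    rw [v.ord_mul _ _ a1 b1, Gauss_wt_add]
    unfold Gauss_val at a2 b2
    omega
  have hmem : (a0, b0) ∈ Finset.HasAntidiagonal.antidiagonal (a0 + b0) :=
    Finset.HasAntidiagonal.mem_antidiagonal.2 rfl
  have hc : coeff (a0 + b0) (F * G) = coeff a0 F * coeff b0 G +
      ∑ x ∈ (Finset.HasAntidiagonal.antidiagonal (a0 + b0)).erase (a0, b0),
        coeff x.1 F * coeff x.2 G := by
    rw [coeff_mul, ← Finset.add_sum_erase _ _ hmem]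
  have hrest : LB v (v.ord (coeff a0 F * coeff b0 G) + 1)
      (∑ x ∈ (Finset.HasAntidiagonal.antidiagonal (a0 + b0)).erase (a0, b0),
        coeff x.1 F * coeff x.2 G) := by
    refine LB.sum _ _ fun x hx h0 => ?_
    rw [Finset.mem_erase, Finset.HasAntidiagonal.mem_antidiagonal] at hx
    have x1 := left_ne_zero_of_mul h0
    have x2 := right_ne_zero_of_mul h0
    have y1 := Gauss_le (v := v) (e := e) x1
    have y2 := Gauss_le (v := v) (e := e) x2
    have y3 : ¬ (Gauss_val v e F x.1 = Gauss_g v e F ∧ Gauss_val v e G x.2 = Gauss_g v e G) := by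
      rintro ⟨z1, z2⟩
      have h3 := hu (Finset.mem_filter.2 ⟨mem_support_iff.2 x1, z1⟩)
        (Finset.mem_filter.2 ⟨mem_support_iff.2 x2, z2⟩) hx.2
      exact hx.1 (Prod.ext h3.1 h3.2)
    have y4 : Gauss_wt e x.1 + Gauss_wt e x.2 = Gauss_wt e (a0 + b0) := by
      rw [← Gauss_wt_add, hx.2]
    rw [hmul, v.ord_mul _ _ x1 x2]
    unfold Gauss_val at y1 y2 y3
    omega
  obtain ⟨hne, hord⟩ := Pool.Agent.MLD.Ten.ord_add_eq v (mul_ne_zero a1 b1) hrest
  rw [← hc] at hne hord
  refine Gauss_uniq ?_ ⟨a0 + b0, hne, ?_⟩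
  · intro d hd
    have h1 : LB v (Gauss_g v e F + Gauss_g v e G - Gauss_wt e d) (coeff d (F * G)) := by
      rw [coeff_mul]
      refine LB.sum _ _ fun x hx => ?_
      rw [Finset.HasAntidiagonal.mem_antidiagonal] at hx
      have h2 := LB.mul (Gauss_LB (v := v) (e := e) (F := F) x.1)
        (Gauss_LB (v := v) (e := e) (F := G) x.2)
      refine h2.mono ?_
      rw [← hx, Gauss_wt_add]
      omega
    have h2 := h1 hd
    unfold Gauss_val
    omega
  · unfold Gauss_val
    rw [hord, hmul]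
    omega

private theorem Gauss_mono (d : Fin h →₀ ℕ) {b : K} (hb : b ≠ 0) :
    Gauss_g v e (monomial d b) = v.ord b + Gauss_wt e d := by
  classical
  refine Gauss_uniq ?_ ⟨d, ?_, ?_⟩
  · intro d' hd'
    rw [coeff_monomial] at hd'
    split_ifs at hd' with h1
    · subst h1
      unfold Gauss_val
      rw [coeff_monomial, if_pos rfl]
    · exact absurd rfl hd'
  · rw [coeff_monomial, if_pos rfl]
    exact hb
  · unfold Gauss_val
    rw [coeff_monomial, if_pos rfl]

private theorem Gauss_C {b : K} (hb : b ≠ 0) :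
    Gauss_g v e (C b : MvPolynomial (Fin h) K) = v.ord b := by
  have h1 := Gauss_mono (v := v) (e := e) 0 hb
  have h2 : Gauss_wt e 0 = 0 := by
    unfold Gauss_wt
    simp
  rw [h2, add_zero] at h1
  exact h1

/-- the extension -/
private theorem Gauss_w (v : DVal k K) (e : Fin h → ℤ) :
    ∃ w : DVal k (LF K h), ∀ F : MvPolynomial (Fin h) K, F ≠ 0 →
      w.ord (algebraMap (MvPolynomial (Fin h) K) (LF K h) F) = Gauss_g v e F := by
  have hfr : ∀ z : LF K h, ∃ x y : MvPolynomial (Fin h) K, y ≠ 0 ∧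
      algebraMap (MvPolynomial (Fin h) K) (LF K h) x /
        algebraMap (MvPolynomial (Fin h) K) (LF K h) y = z := by
    intro z
    obtain ⟨x, y, hy, hz⟩ := IsFractionRing.div_surjective (A := MvPolynomial (Fin h) K) z
    exact ⟨x, y, nonZeroDivisors.ne_zero hy, hz⟩
  choose nm dn hdn hz using hfr
  have hinj : Function.Injective (algebraMap (MvPolynomial (Fin h) K) (LF K h)) :=
    IsFractionRing.injective _ _
  have hne : ∀ {x : MvPolynomial (Fin h) K}, x ≠ 0 →
      algebraMap (MvPolynomial (Fin h) K) (LF K h) x ≠ 0 := fun hx =>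
    (map_ne_zero_iff _ hinj).2 hx
  obtain ⟨o, ho⟩ : ∃ o : LF K h → ℤ, ∀ z, o z = Gauss_g v e (nm z) - Gauss_g v e (dn z) :=
    ⟨_, fun z => rfl⟩
  have hnm : ∀ z, z ≠ 0 → nm z ≠ 0 := by
    intro z h0 h1
    apply h0
    rw [← hz z, h1, map_zero, zero_div]
  have key : ∀ x y : MvPolynomial (Fin h) K, x ≠ 0 → y ≠ 0 →
      o (algebraMap (MvPolynomial (Fin h) K) (LF K h) x /
        algebraMap (MvPolynomial (Fin h) K) (LF K h) y) = Gauss_g v e x - Gauss_g v e y := by
    intro x y hx hy
    generalize hzz : algebraMap (MvPolynomial (Fin h) K) (LF K h) x /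
        algebraMap (MvPolynomial (Fin h) K) (LF K h) y = z
    have hz0 : z ≠ 0 := by
      rw [← hzz]
      exact div_ne_zero (hne hx) (hne hy)
    have h1 : algebraMap (MvPolynomial (Fin h) K) (LF K h) (nm z * y) =
        algebraMap (MvPolynomial (Fin h) K) (LF K h) (x * dn z) := by
      have h2 := (hz z).trans hzz.symm
      rw [div_eq_div_iff (hne (hdn z)) (hne hy)] at h2
      rw [map_mul, map_mul]
      exact h2
    have h2 := congrArg (Gauss_g v e) (hinj h1)
    rw [Gauss_mul (hnm z hz0) hy, Gauss_mul hx (hdn z)] at h2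
    rw [ho]
    omega
  have hg1 : Gauss_g v e (1 : MvPolynomial (Fin h) K) = 0 := by
    have h1 := Gauss_C (v := v) (e := e) (b := (1 : K)) one_ne_zero
    rw [ord_one, map_one] at h1
    exact h1
  have key1 : ∀ x : MvPolynomial (Fin h) K, x ≠ 0 →
      o (algebraMap (MvPolynomial (Fin h) K) (LF K h) x) = Gauss_g v e x := by
    intro x hx
    have h1 := key x 1 hx one_ne_zero
    rw [map_one, div_one, hg1, sub_zero] at h1
    exact h1
  refine ⟨⟨o, ?_, ?_, ?_, ?_⟩, key1⟩
  · intro a b ha hb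
    have h1 : a * b = algebraMap (MvPolynomial (Fin h) K) (LF K h) (nm a * nm b) /
        algebraMap (MvPolynomial (Fin h) K) (LF K h) (dn a * dn b) := by
      conv_lhs => rw [← hz a, ← hz b]
      rw [map_mul, map_mul, div_mul_div_comm]
    rw [h1, key _ _ (mul_ne_zero (hnm a ha) (hnm b hb)) (mul_ne_zero (hdn a) (hdn b)),
      Gauss_mul (hnm a ha) (hnm b hb), Gauss_mul (hdn a) (hdn b), ho, ho]
    omega
  · intro a b ha hb hab
    have h1 : a + b = algebraMap (MvPolynomial (Fin h) K) (LF K h)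
        (nm a * dn b + dn a * nm b) /
        algebraMap (MvPolynomial (Fin h) K) (LF K h) (dn a * dn b) := by
      conv_lhs => rw [← hz a, ← hz b]
      rw [div_add_div _ _ (hne (hdn a)) (hne (hdn b)), map_add, map_mul, map_mul, map_mul]
    have h2 : nm a * dn b + dn a * nm b ≠ 0 := by
      intro h3
      apply hab
      rw [h1, h3, map_zero, zero_div]
    have h3 := Gauss_add (v := v) (e := e) h2
    rw [Gauss_mul (hnm a ha) (hdn b), Gauss_mul (hdn a) (hnm b hb)] at h3
    rw [h1, key _ _ h2 (mul_ne_zero (hdn a) (hdn b)), Gauss_mul (hdn a) (hdn b), ho, ho]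
    omega
  · intro c hc
    have hc' : algebraMap k K c ≠ 0 := (map_ne_zero_iff _ (algebraMap k K).injective).2 hc
    have h1 : algebraMap k (LF K h) c =
        algebraMap (MvPolynomial (Fin h) K) (LF K h) (C (algebraMap k K c)) := by
      rw [IsScalarTower.algebraMap_apply k K (LF K h),
        IsScalarTower.algebraMap_apply K (MvPolynomial (Fin h) K) (LF K h)]
      rfl
    rw [h1, key1 _ ((map_ne_zero_iff _ (C_injective _ _)).2 hc'), Gauss_C hc',
      v.ord_algebraMap c hc]
  · obtain ⟨a, ha, ha'⟩ := v.exists_ord_eq_one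
    refine ⟨algebraMap (MvPolynomial (Fin h) K) (LF K h) (C a), hne
      ((map_ne_zero_iff _ (C_injective _ _)).2 ha), ?_⟩
    rw [key1 _ ((map_ne_zero_iff _ (C_injective _ _)).2 ha), Gauss_C ha, ha']

end

theorem gauss {k : Type u} {K : Type v} [Field k] [Field K] [Algebra k K] {h : ℕ}
    (v : DVal k K) (e : Fin h → ℤ) :
    ∃ w : DVal k (LF K h),
      (∀ (b : K) (β : Fin h → ℤ), b ≠ 0 →
        w.ord (algebraMap K (LF K h) b * ls K β) = v.ord b + ∑ l, β l * e l) ∧
      ∀ (T : Finset (Fin h → ℤ)) (b : (Fin h → ℤ) → K),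
        ∑ β ∈ T, algebraMap K (LF K h) (b β) * ls K β ≠ 0 → ∀ β ∈ T, b β ≠ 0 →
        w.ord (∑ β ∈ T, algebraMap K (LF K h) (b β) * ls K β) ≤ v.ord (b β) + ∑ l, β l * e l := by
  classical
  obtain ⟨w, hw⟩ := Gauss_w v e
  have hinj : Function.Injective (algebraMap (MvPolynomial (Fin h) K) (LF K h)) :=
    IsFractionRing.injective _ _
  have hne : ∀ {x : MvPolynomial (Fin h) K}, x ≠ 0 →
      algebraMap (MvPolynomial (Fin h) K) (LF K h) x ≠ 0 := fun hx =>
    (map_ne_zero_iff _ hinj).2 hx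
  have hC : ∀ b : K, algebraMap K (LF K h) b =
      algebraMap (MvPolynomial (Fin h) K) (LF K h) (C b) := by
    intro b
    rw [IsScalarTower.algebraMap_apply K (MvPolynomial (Fin h) K) (LF K h)]
    rfl
  have hb : ∀ b : K, b ≠ 0 → w.ord (algebraMap K (LF K h) b) = v.ord b := by
    intro b h0
    rw [hC, hw _ ((map_ne_zero_iff _ (C_injective _ _)).2 h0), Gauss_C h0]
  have hb0 : ∀ b : K, b ≠ 0 → algebraMap K (LF K h) b ≠ 0 := fun b h0 =>
    (map_ne_zero_iff _ (algebraMap K (LF K h)).injective).2 h0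
  have hX : ∀ l : Fin h, w.ord (algebraMap (MvPolynomial (Fin h) K) (LF K h) (X l)) = e l := by
    intro l
    rw [hw _ (X_ne_zero l)]
    have h1 := Gauss_mono (v := v) (e := e) (Finsupp.single l 1) (one_ne_zero : (1 : K) ≠ 0)
    have h2 : Gauss_wt e (Finsupp.single l 1) = e l := by
      unfold Gauss_wt
      rw [Finset.sum_eq_single l]
      · simp
      · intro b _ hbl
        rw [Finsupp.single_apply, if_neg (Ne.symm hbl)]
        simp
      · intro h3
        exact absurd (Finset.mem_univ l) h3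
    rw [h2, Pool.Agent.MLD.Jac.ord_one, zero_add] at h1
    exact h1
  have hls : ∀ β : Fin h → ℤ, w.ord (ls K β) = ∑ l, β l * e l := by
    intro β
    unfold ls
    rw [Pool.Agent.MLD.Jac.ord_prod w _ _ fun l _ => zpow_ne_zero _ (hne (X_ne_zero l))]
    refine Finset.sum_congr rfl fun l _ => ?_
    rw [Pool.Agent.MLD.Jac.ord_zpow w _ (hne (X_ne_zero l)), hX]
  refine ⟨w, fun b β h0 => ?_, fun T b hsum β hβ hbβ => ?_⟩
  · rw [w.ord_mul _ _ (hb0 b h0) (ls_ne β), hb b h0, hls]
  · -- a large exponent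
    obtain ⟨μ, hμ⟩ : ∃ μ : Fin h → ℤ, ∀ γ ∈ T, ∀ l, 0 ≤ γ l + μ l := by
      refine ⟨fun l => ∑ γ ∈ T, |γ l|, fun γ hγ l => ?_⟩
      have h1 : |γ l| ≤ ∑ γ ∈ T, |γ l| :=
        Finset.single_le_sum (f := fun γ => |γ l|) (fun _ _ => abs_nonneg _) hγ
      have h2 := neg_abs_le (γ l)
      show 0 ≤ γ l + ∑ γ ∈ T, |γ l|
      omega
    obtain ⟨N, hN⟩ : ∃ N : (Fin h → ℤ) → (Fin h →₀ ℕ), ∀ γ l, N γ l = (γ l + μ l).toNat :=
      ⟨fun γ => Finsupp.equivFunOnFinite.symm fun l => (γ l + μ l).toNat, fun γ l => rfl⟩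
    have hNz : ∀ γ ∈ T, ∀ l, (N γ l : ℤ) = γ l + μ l := by
      intro γ hγ l
      rw [hN, Int.toNat_of_nonneg (hμ γ hγ l)]
    have hmon : ∀ γ ∈ T, ls K (γ + μ) =
        algebraMap (MvPolynomial (Fin h) K) (LF K h) (monomial (N γ) 1) := by
      intro γ hγ
      have h1 : (monomial (N γ) (1 : K) : MvPolynomial (Fin h) K) = ∏ l, X l ^ N γ l := by
        rw [monomial_eq, C_1, one_mul, Finsupp.prod_fintype]
        intro l
        exact pow_zero _
      rw [h1, map_prod]
      unfold ls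
      refine Finset.prod_congr rfl fun l _ => ?_
      rw [map_pow, ← zpow_natCast, hNz γ hγ l]
      rfl
    let P : MvPolynomial (Fin h) K := ∑ γ ∈ T, monomial (N γ) (b γ)
    have hP : algebraMap (MvPolynomial (Fin h) K) (LF K h) P =
        (∑ γ ∈ T, algebraMap K (LF K h) (b γ) * ls K γ) * ls K μ := by
      show algebraMap (MvPolynomial (Fin h) K) (LF K h) (∑ γ ∈ T, monomial (N γ) (b γ)) = _
      rw [map_sum, Finset.sum_mul]
      refine Finset.sum_congr rfl fun γ hγ => ?_
      rw [mul_assoc, ← ls_add, hmon γ hγ, hC, ← map_mul, C_mul_monomial, mul_one]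
    have hP0 : P ≠ 0 := by
      intro h1
      have h2 : (∑ γ ∈ T, algebraMap K (LF K h) (b γ) * ls K γ) * ls K μ ≠ 0 :=
        mul_ne_zero hsum (ls_ne μ)
      rw [← hP, h1, map_zero] at h2
      exact h2 rfl
    have hcoef : coeff (N β) P = b β := by
      show coeff (N β) (∑ γ ∈ T, monomial (N γ) (b γ)) = _
      rw [coeff_sum, Finset.sum_eq_single β]
      · rw [coeff_monomial, if_pos rfl]
      · intro γ hγ hne'
        rw [coeff_monomial, if_neg]
        intro h1
        apply hne'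
        funext l
        have h2 := hNz γ hγ l
        have h3 := hNz β hβ l
        rw [h1] at h2
        omega
      · intro h1
        exact absurd hβ h1
    have h1 := Gauss_le (v := v) (e := e) (F := P) (d := N β) (by rw [hcoef]; exact hbβ)
    have h2 : w.ord (algebraMap (MvPolynomial (Fin h) K) (LF K h) P) =
        w.ord (∑ γ ∈ T, algebraMap K (LF K h) (b γ) * ls K γ) + ∑ l, μ l * e l := by
      rw [hP, w.ord_mul _ _ hsum (ls_ne μ), hls]
    have h3 : Gauss_wt e (N β) = ∑ l, β l * e l + ∑ l, μ l * e l := by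
      unfold Gauss_wt
      rw [← Finset.sum_add_distrib]
      refine Finset.sum_congr rfl fun l _ => ?_
      rw [hNz β hβ l]
      ring
    rw [hw P hP0] at h2
    unfold Gauss_val at h1
    rw [hcoef, h3] at h1
    omega

end Pool.Agent.MLD.Cox
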