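import Pool.Agent.Lib.MP_f23696_ag.Y.CoxB
import Pool.Agent.Lib.MP_f23696_ag.Y.Gauss

/-!
Project COX, module CoxG: the algebra `B = ⊕_β H^0(X, O(∑ β_l E_l)) s^β` is normal.

Notation: `ι b = algebraMap K (LF K h) b` (`= lφ k h b`), `s^β = ls K β`, `x i = cx ξ χ i =
ι (ξ i) s^(χ i)`, `e p β = ∑_l β_l E_l(p)`.  `hgen` says that the sections of `∑ β_l E_l` are the
values `aeval ξ P`, `P` homogeneous of degree `β`.

* `goodB`: finite generation: `adjoin` of a finite set.  `frac`: by `lau_frac` it is enough to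
  write the elements `ι b` and `s^β` as quotients of elements of `B`: `b = a₁ / a₂` with `a_i ∈ A`,
  `ι a_i ∈ B` (sections of degree `0`, `sec_zero_iff`); `s^β = (ι b s^β) / (ι b)` with a nonzero
  section `b` (`sec_ne`), and `ι b` is a quotient as before.  (The quotients of elements of `B` form
  a field.)  `norm`: let `z` be integral over `B`.  `lau_norm` (elements of `B` are Laurent
  polynomials by `memB`): `z = ∑_(β ∈ T) ι (b β) s^β`; we may assume `b β ≠ 0` for `β ∈ T`, `z ≠ 0`.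
  Let `p` be of height one, `v` with centre `p`; `gauss` with `e l = E l p` gives `w` with
  `w ≥ 0` on `B` (by the first property on each `ι b s^β`, `b` a section: `v b + e p β ≥ 0`), so
  `w z ≥ 0` (`z` is integral over `B`: valuation rings are integrally closed: if `w z < 0` the
  leading term of the equation `z^n + c_(n-1) z^(n-1) + ... = 0` dominates), and by the second
  property `v (b β) + e p β ≥ w z ≥ 0`.  So all `b β` are sections and `z ∈ B` (`memB`).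
-/

set_option autoImplicit false

namespace Pool.Agent.MLD.Cox

open MvPolynomial

universe u v

section

variable {k : Type u} {L : Type v} [Field k] [Field L] [Algebra k L]

/-- quotients of elements of `B` -/
private def coxG_Q (B : Subalgebra k L) (z : L) : Prop :=
  ∃ a ∈ B, ∃ b ∈ B, b ≠ 0 ∧ z = a / b

private theorem coxG_Q_mem {B : Subalgebra k L} {z : L} (hz : z ∈ B) : coxG_Q B z :=
  ⟨z, hz, 1, one_mem B, one_ne_zero, (div_one z).symm⟩

private theorem coxG_Q.add {B : Subalgebra k L} {z₁ z₂ : L} (h₁ : coxG_Q B z₁)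
    (h₂ : coxG_Q B z₂) : coxG_Q B (z₁ + z₂) := by
  obtain ⟨a₁, ha₁, b₁, hb₁, h1, rfl⟩ := h₁
  obtain ⟨a₂, ha₂, b₂, hb₂, h2, rfl⟩ := h₂
  exact ⟨a₁ * b₂ + b₁ * a₂, add_mem (mul_mem ha₁ hb₂) (mul_mem hb₁ ha₂), b₁ * b₂,
    mul_mem hb₁ hb₂, mul_ne_zero h1 h2, div_add_div _ _ h1 h2⟩

private theorem coxG_Q.mul {B : Subalgebra k L} {z₁ z₂ : L} (h₁ : coxG_Q B z₁)
    (h₂ : coxG_Q B z₂) : coxG_Q B (z₁ * z₂) := by
  obtain ⟨a₁, ha₁, b₁, hb₁, h1, rfl⟩ := h₁
  obtain ⟨a₂, ha₂, b₂, hb₂, h2, rfl⟩ := h₂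
  exact ⟨a₁ * a₂, mul_mem ha₁ ha₂, b₁ * b₂, mul_mem hb₁ hb₂, mul_ne_zero h1 h2,
    div_mul_div_comm _ _ _ _⟩

private theorem coxG_Q.div {B : Subalgebra k L} {z₁ z₂ : L} (h₁ : coxG_Q B z₁)
    (h₂ : coxG_Q B z₂) (h0 : z₂ ≠ 0) : coxG_Q B (z₁ / z₂) := by
  obtain ⟨a₁, ha₁, b₁, hb₁, h1, rfl⟩ := h₁
  obtain ⟨a₂, ha₂, b₂, hb₂, h2, rfl⟩ := h₂
  have ha0 : a₂ ≠ 0 := by
    rintro rfl
    exact h0 (zero_div _)
  exact ⟨a₁ * b₂, mul_mem ha₁ hb₂, b₁ * a₂, mul_mem hb₁ ha₂, mul_ne_zero h1 ha0,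
    div_div_div_eq _ _ _ _⟩

private theorem coxG_Q_sum {B : Subalgebra k L} {ι : Type*} (T : Finset ι) (f : ι → L)
    (hf : ∀ i ∈ T, coxG_Q B (f i)) : coxG_Q B (∑ i ∈ T, f i) := by
  classical
  induction T using Finset.induction_on with
  | empty => rw [Finset.sum_empty]; exact coxG_Q_mem (zero_mem B)
  | insert a T ha ih =>
    rw [Finset.sum_insert ha]
    exact (hf a (Finset.mem_insert_self _ _)).add
      (ih fun i hi => hf i (Finset.mem_insert_of_mem hi))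

private theorem coxG_ord (w : DVal k L) (B : Subalgebra k L) (hB : ∀ y ∈ B, Jac.LB w 0 y)
    (z : L) (hz : z ≠ 0) (hi : IsIntegral B z) : 0 ≤ w.ord z := by
  obtain ⟨p, hp, hpz⟩ := hi
  by_contra hneg
  push Not at hneg
  have hn : p.natDegree ≠ 0 := by
    intro h0
    rw [Polynomial.eq_one_of_monic_natDegree_zero hp h0] at hpz
    simp at hpz
  obtain ⟨n, hn'⟩ := Nat.exists_eq_succ_of_ne_zero hn
  rw [Polynomial.eval₂_eq_sum_range, Finset.sum_range_succ, hp.coeff_natDegree, map_one,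
    one_mul, hn'] at hpz
  have h1 : z ^ (n + 1) = -∑ i ∈ Finset.range (n + 1), algebraMap B L (p.coeff i) * z ^ i := by
    rw [eq_neg_iff_add_eq_zero, add_comm]
    exact hpz
  have h2 : Jac.LB w (n * w.ord z) (∑ i ∈ Finset.range (n + 1),
      algebraMap B L (p.coeff i) * z ^ i) := by
    refine Jac.LB.sum _ _ fun i hi => ?_
    have h3 : Jac.LB w 0 (algebraMap B L (p.coeff i)) := hB _ (p.coeff i).2
    have h4 : Jac.LB w (i * w.ord z) (z ^ i) := fun _ => (Jac.ord_pow w z hz i).ge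
    refine (h3.mul h4).mono ?_
    rw [zero_add]
    have h5 : (i : ℤ) ≤ n := by
      have := Finset.mem_range.1 hi
      omega
    nlinarith
  have h6 := Ten.LB_neg w h2
  rw [← h1] at h6
  have h7 := h6 (pow_ne_zero _ hz)
  rw [Jac.ord_pow w z hz] at h7
  push_cast at h7
  linarith

end

section

variable {k : Type u} {K : Type v} [Field k] [Field K] [Algebra k K] {h : ℕ} {σ : Type}
  [Fintype σ] (A : Subalgebra k K) (E : Fin h → Ideal A →₀ ℤ) (ξ : σ → K) (χ : σ → Fin h → ℤ)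

theorem goodB (hA : Ten.IsGood A) (hgen : SecGen A E ξ χ) : Ten.IsGood (cB k ξ χ) := by
  classical
  have hmem : ∀ (β : Fin h → ℤ) (b : K), IsSec A E β b →
      algebraMap K (LF K h) b * ls K β ∈ cB k ξ χ := by
    intro β b hb
    rw [memB A E ξ χ hgen]
    exact ⟨{β}, fun _ => b, fun β' hβ' => by rwa [Finset.mem_singleton.1 hβ'], by simp⟩
  have hmem0 : ∀ a ∈ A, algebraMap K (LF K h) a ∈ cB k ξ χ := by
    intro a ha
    have h1 := hmem 0 a ((sec_zero_iff A E hA a).2 ha)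
    rwa [ls_zero, mul_one] at h1
  have hι : ∀ b : K, coxG_Q (cB k ξ χ) (algebraMap K (LF K h) b) := by
    intro b
    obtain ⟨a₁, a₂, h2, hb⟩ := hA.frac b
    refine ⟨_, hmem0 a₁ a₁.2, _, hmem0 a₂ a₂.2, ?_, ?_⟩
    · exact (map_ne_zero (algebraMap K (LF K h))).2 h2
    · rw [hb, map_div₀]
  have hs : ∀ β : Fin h → ℤ, coxG_Q (cB k ξ χ) (ls K β) := by
    intro β
    obtain ⟨b, hb0, hb⟩ := sec_ne A E hA β
    have hb1 : algebraMap K (LF K h) b ≠ 0 := (map_ne_zero (algebraMap K (LF K h))).2 hb0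
    have h1 : ls K β = (algebraMap K (LF K h) b * ls K β) / algebraMap K (LF K h) b := by
      rw [mul_div_cancel_left₀ _ hb1]
    rw [h1]
    exact (coxG_Q_mem (hmem β b hb)).div (hι b) hb1
  have hlau : ∀ z : LF K h, IsLau z → coxG_Q (cB k ξ χ) z := by
    rintro z ⟨T, b, rfl⟩
    refine coxG_Q_sum T _ fun β _ => ?_
    exact (hι (b β)).mul (hs β)
  refine ⟨?_, ?_, ?_⟩
  · refine ⟨(Set.finite_range (cx k ξ χ)).toFinset, ?_⟩
    rw [Set.Finite.coe_toFinset]
    rfl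
  · intro f
    obtain ⟨z₁, z₂, hz₁, hz₂, h0, hf⟩ := lau_frac f
    obtain ⟨a, ha, b, hb, hb0, hab⟩ := (hlau z₁ hz₁).div (hlau z₂ hz₂) h0
    exact ⟨⟨a, ha⟩, ⟨b, hb⟩, hb0, hf.trans hab⟩
  · intro z hz
    rcases eq_or_ne z 0 with rfl | hz0
    · exact zero_mem _
    have hlz : IsLau z := by
      refine lau_norm (cB k ξ χ) (fun y hy => ?_) z hz
      obtain ⟨T, b, _, hy'⟩ := (memB A E ξ χ hgen y).1 hy
      exact ⟨T, b, hy'⟩
    obtain ⟨T, b, hzT⟩ := hlz
    rw [memB A E ξ χ hgen]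
    refine ⟨T, b, fun β hβ p hp v hv hb0 => ?_, hzT⟩
    obtain ⟨w, hw1, hw2⟩ := gauss (h := h) v fun l => E l p
    have hwB : ∀ y ∈ cB k ξ χ, Jac.LB w 0 y := by
      intro y hy
      obtain ⟨T', b', hb', rfl⟩ := (memB A E ξ χ hgen y).1 hy
      refine Jac.LB.sum _ _ fun β' hβ' hne => ?_
      have hb'0 : b' β' ≠ 0 := by
        intro h0
        rw [h0, map_zero, zero_mul] at hne
        exact hne rfl
      rw [hw1 _ _ hb'0]
      exact hb' β' hβ' p hp v hv hb'0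
    have hwz := coxG_ord w (cB k ξ χ) hwB z hz0 hz
    have h3 := hw2 T b (by rw [← hzT]; exact hz0) β hβ hb0
    rw [← hzT] at h3
    exact hwz.trans h3

end

end Pool.Agent.MLD.Cox
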