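import Pool.Agent.Lib.MP_f23696_ag.Defs

/-!
Project COX: minimal log discrepancies at points which need not be closed.
-/

namespace Pool.Agent.MLD

universe u v

variable {k : Type u} {K : Type v} [Field k] [Field K] [Algebra k K]

/-- The log discrepancies `1 + ord_v(dy) - ∑ r_i v(g_i)` over `(X, Δ)`, `X = Spec A`, of the
divisorial valuations `v` with centre `V(p)`, `p` a prime ideal. -/
def logDiscsP (A : Subalgebra k K) {m : ℕ} (D : Fin (m + 1) → Derivation k K K) (δ : Ideal A →₀ ℝ)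
    (p : Ideal A) : Set ℝ :=
  {l | ∃ v : DVal k K, v.IsDivisorial m ∧ v.HasCenter A p ∧ ∃ j : ℤ, v.FormOrd D j ∧
    ∃ γ : Kˣ →₀ ℝ, IsLocalEq A D δ p γ ∧ l = 1 + (j : ℝ) - v.val γ}

open Classical in
/-- The minimal log discrepancy at the generic point of `V(p)` (`-∞` if some log discrepancy is
negative). -/
noncomputable def mldP (A : Subalgebra k K) {m : ℕ} (D : Fin (m + 1) → Derivation k K K)
    (δ : Ideal A →₀ ℝ) (p : Ideal A) : EReal :=
  if ∃ l ∈ logDiscsP A D δ p, l < 0 then ⊥ else ⨅ l ∈ logDiscsP A D δ p, (l : EReal)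

end Pool.Agent.MLD
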