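import Pool.Agent.Lib.MP_f23696_ag.Y.Key
import Pool.Agent.Lib.MP_f23696_ag.Y.MldP

/-!
Project COX, module Fin: from the fundamental inequality to minimal log discrepancies.

Proof of `gens`.  `A` is Noetherian (`noeth`, T/Ind.lean), so is `A ⧸ q`, a domain; the image `𝔪̄` of
`𝔪` in `A ⧸ q` is a maximal ideal.  `Ideal.exists_finset_card_eq_height_of_isNoetherianRing` gives a
finite set `s` of `A ⧸ q` with `𝔪̄` minimal over `span s` and `s.card = height 𝔪̄ ≤ ringKrullDim`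
(`Ideal.height_le_ringKrullDim_of_ne_top`), so `s.card ≤ d`.  Lift the elements to `A` and extend
them to a family `Fin d → A` (pad with zeros): `𝔪` is minimal over `q ⊔ span (range g)` (prime
ideals of `A` containing `q` correspond to prime ideals of `A ⧸ q`: `Ideal.comap`, `Ideal.map` of
`Ideal.Quotient.mk q`).

Proof of `fin`.  `gens` gives `g`.  `γ` is also a local equation of `K_X + Δ` for `q`
(`IsLocalEq` is about the height one primes contained in the ideal).  Let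
`l = 1 + j₀ - v.val γ₁ ∈ logDiscsP A S.D δ q`, where `γ₁` is another local equation for `q`:
`v.val γ₁ = v.val γ` by `indep_gen` (T/Ind.lean; `∃ c, jac D c ≠ 0`: `jac S.D S.y = 1`).  So by `key`
for every `r ≥ 1` there are `l' ∈ logDiscs A S.D δ x` and `q' ≥ 1` with `q' l' ≤ r l + d`.
Case 1: some `l ∈ logDiscsP` is negative.  Take `r` with `r l + d < 0`: `l' < 0`, so
`mld A S.D δ x = ⊥`.
Case 2: otherwise `mldP = ⨅ l`.  If `mld A S.D δ x = ⊥` we are done; otherwise all elements of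
`logDiscs` are `≥ 0`; for `l ∈ logDiscsP` take `r = 1`: `l' ≤ q' l' ≤ l + d`, so
`mld A S.D δ x ≤ l' ≤ l + d`.  So `mld - d ≤ l` for all `l`, `mld - d ≤ ⨅ l`,
`mld ≤ (⨅ l) + d` (`EReal.sub_le_iff_le_add` and its relatives; `d` is a natural number).
-/

set_option autoImplicit false

namespace Pool.Agent.MLD.Cox

open MvPolynomial
open scoped PowerSeries

universe u v w

theorem gens {k : Type u} {K : Type v} [Field k] [Field K] [Algebra k K] (A : Subalgebra k K)
    (hA : Ten.IsGood A) (q 𝔪 : Ideal A) (hq : q.IsPrime) (h𝔪 : 𝔪.IsMaximal) (hqm : q ≤ 𝔪) (d : ℕ)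
    (hd : ringKrullDim (A ⧸ q) ≤ d) :
    ∃ g : Fin d → A, 𝔪 ∈ (q ⊔ Ideal.span (Set.range g)).minimalPrimes := by
  classical
  have hN : IsNoetherianRing A := Ten.Ind.noeth A hA.fg
  have hNq : IsNoetherianRing (A ⧸ q) := inferInstance
  have hmp : 𝔪.IsPrime := h𝔪.isPrime
  have hp' : (𝔪.map (Ideal.Quotient.mk q)).IsPrime := Ideal.isPrime_map_quotientMk_of_isPrime hqm
  obtain ⟨s, hs, hcard⟩ := Ideal.exists_finset_card_eq_height_of_isNoetherianRing
    (𝔪.map (Ideal.Quotient.mk q))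
  have hle : s.card ≤ d := by
    have h1 : ((s.card : ℕ∞) : WithBot ℕ∞) ≤ d := by
      rw [hcard]
      exact Ideal.height_le_ringKrullDim_of_isPrime.trans hd
    exact_mod_cast h1
  have hsur : Function.Surjective (Ideal.Quotient.mk q) := Ideal.Quotient.mk_surjective
  obtain ⟨e⟩ : Nonempty (s ≃ Fin s.card) := ⟨s.equivFin⟩
  obtain ⟨g, hg⟩ : ∃ g : Fin d → A, ∀ i : Fin d, g i = if h : (i : ℕ) < s.card then
      Function.surjInv hsur (e.symm ⟨i, h⟩ : A ⧸ q) else 0 := ⟨_, fun _ => rfl⟩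
  refine ⟨g, Ideal.mem_minimalPrimes_sup hqm ?_⟩
  have h2 : ∀ (i : Fin d) (h : (i : ℕ) < s.card),
      Ideal.Quotient.mk q (g i) = (e.symm ⟨i, h⟩ : A ⧸ q) := by
    intro i h
    rw [hg, dif_pos h]
    exact Function.surjInv_eq hsur _
  have h1 : (Ideal.span (Set.range g)).map (Ideal.Quotient.mk q) =
      Ideal.span (s : Set (A ⧸ q)) := by
    rw [Ideal.map_span]
    apply le_antisymm
    · rw [Ideal.span_le]
      rintro _ ⟨_, ⟨i, rfl⟩, rfl⟩
      by_cases h : (i : ℕ) < s.card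
      · rw [h2 i h]
        exact Ideal.subset_span (e.symm ⟨i, h⟩).2
      · have h3 : g i = 0 := by rw [hg, dif_neg h]
        rw [h3, map_zero]
        exact Ideal.zero_mem _
    · rw [Ideal.span_le]
      intro z hz
      have hz' := (e ⟨z, hz⟩).2
      refine Ideal.subset_span ⟨g ⟨e ⟨z, hz⟩, hz'.trans_le hle⟩, ⟨_, rfl⟩, ?_⟩
      rw [h2 _ hz']
      change ((e.symm (e ⟨z, hz⟩) : s) : A ⧸ q) = z
      rw [Equiv.symm_apply_apply]
  rw [h1]
  exact hs

theorem fin {k : Type u} {K : Type v} {L : Type w} [Field k] [IsAlgClosed k] [CharZero k]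
    [Field K] [Field L] [Algebra k K] [Algebra k L] {m h c : ℕ} (S : Sys k K L m h c)
    (A : Subalgebra k K) (hG : Geo S A) (δ : Ideal A →₀ ℝ) (hδ : ∀ p, 0 ≤ δ p)
    (x : MaximalSpectrum A) (γ : Kˣ →₀ ℝ) (hγ : IsLocalEq A S.D δ x.asIdeal γ) (q : Ideal A)
    (hq : q.IsPrime) (hqx : q ≤ x.asIdeal) (d : ℕ) (hd : ringKrullDim (A ⧸ q) ≤ d) :
    mld A S.D δ x ≤ mldP A S.D δ q + (d : EReal) := by
  classical
  obtain ⟨g, hg⟩ := gens A hG.goodA q x.asIdeal hq x.isMaximal hqx d hd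
  have hjac : ∃ c, Pool.Agent.MLD.jac S.D c ≠ 0 := by
    refine ⟨S.y, ?_⟩
    rw [Ten.jac_dual S.D S.y S.hD]
    exact one_ne_zero
  have hγq : IsLocalEq A S.D δ q γ := fun p hp => hγ p (hp.trans hqx)
  have main : ∀ l ∈ logDiscsP A S.D δ q, ∀ r : ℕ, 1 ≤ r → ∃ l' ∈ logDiscs A S.D δ x, ∃ q' : ℕ,
      1 ≤ q' ∧ (q' : ℝ) * l' ≤ r * l + d := by
    rintro l ⟨v, hv, hvc, j, hj, γ₁, hγ₁, rfl⟩ r hr
    obtain ⟨v', q', j', hq', h1, h2, h3, h4⟩ := key S A hG q x.asIdeal x.isMaximal d g hg v hv hvc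
      j hj δ hδ γ hγ r hr
    have h5 := Ten.indep_gen A hG.goodA S.D hjac δ q hq γ γ₁ hγq hγ₁ v hvc
    refine ⟨_, ⟨v', h1, h2, j', h3, γ, hγ, rfl⟩, q', hq', ?_⟩
    rw [← h5]
    exact h4
  by_cases hneg : ∃ l ∈ logDiscsP A S.D δ q, l < 0
  · obtain ⟨l, hl, hl0⟩ := hneg
    obtain ⟨r, hr⟩ := exists_nat_gt ((d : ℝ) / -l)
    have hl1 : 0 < -l := by linarith
    have hr0 : (0 : ℝ) < r := (div_nonneg (Nat.cast_nonneg d) hl1.le).trans_lt hr
    have hr1 : 1 ≤ r := by
      have : 0 < r := by exact_mod_cast hr0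
      omega
    rw [div_lt_iff₀ hl1] at hr
    obtain ⟨l', hl', q', hq', h1⟩ := main l hl r hr1
    have hl'0 : l' < 0 := by
      by_contra hcon
      have h2 : 0 ≤ (q' : ℝ) * l' := mul_nonneg (Nat.cast_nonneg q') (not_lt.1 hcon)
      linarith
    have h3 : mld A S.D δ x = ⊥ := by
      unfold mld
      rw [if_pos ⟨l', hl', hl'0⟩]
    rw [h3]
    exact bot_le
  · by_cases hneg' : ∃ l ∈ logDiscs A S.D δ x, l < 0
    · have h3 : mld A S.D δ x = ⊥ := by
        unfold mld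
        rw [if_pos hneg']
      rw [h3]
      exact bot_le
    · have h3 : mld A S.D δ x = ⨅ l ∈ logDiscs A S.D δ x, (l : EReal) := by
        unfold mld
        rw [if_neg hneg']
      have h4 : mldP A S.D δ q = ⨅ l ∈ logDiscsP A S.D δ q, (l : EReal) := by
        unfold mldP
        rw [if_neg hneg]
      have h5 : mld A S.D δ x - (d : EReal) ≤ mldP A S.D δ q := by
        rw [h4]
        refine le_iInf₂ fun l hl => ?_
        rw [EReal.sub_le_iff_le_add (Or.inl (EReal.natCast_ne_bot d))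
          (Or.inl (EReal.natCast_ne_top d)), h3]
        obtain ⟨l', hl', q', hq', h1⟩ := main l hl 1 le_rfl
        refine (iInf₂_le l' hl').trans ?_
        have h6 : 0 ≤ l' := by
          by_contra hcon
          exact hneg' ⟨l', hl', not_le.1 hcon⟩
        have h7 : (1 : ℝ) ≤ q' := by exact_mod_cast hq'
        have h8 : l' ≤ l + d := by
          have h9 : 1 * l' ≤ (q' : ℝ) * l' := mul_le_mul_of_nonneg_right h7 h6
          rw [Nat.cast_one, one_mul] at h1
          linarith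
        have h10 : ((l' : ℝ) : EReal) ≤ ((l + d : ℝ) : EReal) := EReal.coe_le_coe_iff.2 h8
        rw [EReal.coe_add] at h10
        exact h10
      rwa [EReal.sub_le_iff_le_add (Or.inl (EReal.natCast_ne_bot d))
        (Or.inl (EReal.natCast_ne_top d))] at h5

end Pool.Agent.MLD.Cox
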