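import Pool.Agent.Lib.MP_f23696_ag.Y.CoxT
import Pool.Agent.Lib.MP_f23696_ag.Y.Build
import Pool.Agent.Lib.MP_f23696_ag.Y.Fin

/-!
Project COX, module CoxMain: the main theorem.

Proof.  `hA`, the fraction field and the normality give `Ten.IsGood A`.  `build` with `L = LF K h`,
`σ = Fin N`, `x = cx k ξ χ`, `φ = lφ k h`, `B = cB k ξ χ`: `x i ≠ 0` (`hξ`, `ls_ne`), `htr` from
`lau_trdeg` and `hy`, `hker` = `cker`, `hχ` = `cspan`, `hφ` = `cfrac`, `hB` = `goodB`, `hA`:
`b ∈ A ↔ IsSec A E 0 b` (`sec_zero_iff`) `↔ IsVal .. 0 (φ b)` (`isVal_iff`, `ls_zero`, `φ`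
injective), `t1` = `ct1`, `t2` = `ct2`.  It gives `S` with `S.D = D` and `Geo S A`.
The Krull dimension of `A ⧸ q` is finite (`A ⧸ q` is a quotient of a polynomial ring in finitely
many variables over a field: `ringKrullDim_quotient_le` and the dimension of polynomial rings) and
`≥ 0` (`q` is proper), so it is a natural number `d`.  Apply `fin` with
`hd : ringKrullDim (A ⧸ q) ≤ d`.
-/

set_option autoImplicit false

namespace Pool.Agent.MLD.Cox

open MvPolynomial

universe u v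

private theorem CoxMain_good {k : Type u} {K : Type v} [Field k] [Field K] [Algebra k K]
    (A : Subalgebra k K) (hfg : A.FG) [IsFractionRing A K] [IsIntegrallyClosed A] :
    Ten.IsGood A where
  fg := hfg
  frac := by
    intro f
    obtain ⟨a, b, hb, hab⟩ := IsFractionRing.div_surjective (A := A) f
    refine ⟨a, b, ?_, hab.symm⟩
    exact (map_ne_zero_iff (algebraMap A K) (IsFractionRing.injective A K)).2
      (nonZeroDivisors.ne_zero hb)
  norm := by
    intro f hf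
    obtain ⟨y, hy⟩ := (IsIntegrallyClosed.isIntegral_iff (R := A) (K := K)).1 hf
    rw [← hy]
    exact y.2

private theorem CoxMain_dim {k : Type u} {K : Type v} [Field k] [Field K] [Algebra k K]
    (A : Subalgebra k K) (hfg : A.FG) (q : Ideal A) (hq : q.IsPrime) :
    ∃ d : ℕ, ringKrullDim (A ⧸ q) = d := by
  have h0 : Algebra.FiniteType k A := (Subalgebra.fg_iff_finiteType A).1 hfg
  obtain ⟨n, f, hf⟩ := Algebra.FiniteType.iff_quotient_mvPolynomial''.1 h0
  have h1 : ringKrullDim (A ⧸ q) ≤ (n : ℕ) := by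
    refine (ringKrullDim_quotient_le q).trans ?_
    refine (ringKrullDim_le_of_surjective f.toRingHom hf).trans ?_
    rw [MvPolynomial.ringKrullDim_of_isNoetherianRing, ringKrullDim_eq_zero_of_field, zero_add,
      Nat.card_eq_fintype_card, Fintype.card_fin]
  have h2 : Nontrivial (A ⧸ q) := Ideal.Quotient.nontrivial_iff.2 hq.ne_top
  have h3 : 0 ≤ ringKrullDim (A ⧸ q) := ringKrullDim_nonneg_of_nontrivial
  obtain ⟨e, he⟩ : ∃ e : WithBot ℕ∞, e = ringKrullDim (A ⧸ q) := ⟨_, rfl⟩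
  rw [← he] at h1 h3 ⊢
  induction e using WithBot.recBotCoe with
  | bot => exact absurd h3 (by simp)
  | coe e =>
    have h4 : e ≤ (n : ℕ∞) := by exact_mod_cast h1
    have h5 : e ≠ ⊤ := ne_top_of_le_ne_top (ENat.natCast_ne_top n) h4
    obtain ⟨d, hd⟩ := ENat.ne_top_iff_exists.1 h5
    refine ⟨d, ?_⟩
    rw [← hd]
    rfl

theorem coxMain {k : Type u} {K : Type v} [Field k] [IsAlgClosed k] [CharZero k] [Field K]
    [Algebra k K] {m h c N : ℕ} (y : Fin (m + 1) → K) (hy : IsTranscendenceBasis k y)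
    (D : Fin (m + 1) → Derivation k K K) (hD : ∀ i j, D i (y j) = if i = j then 1 else 0)
    (A : Subalgebra k K) (hfg : A.FG) [IsFractionRing A K] [IsIntegrallyClosed A]
    (E : Fin h → Ideal A →₀ ℤ) (ξ : Fin N → K) (hξ : ∀ i, ξ i ≠ 0) (χ : Fin N → Fin h → ℤ)
    (f : Fin c → MvPolynomial (Fin N) k) (hN : N = m + 1 + h + c)
    (hf : ∀ j, ∃ ψ : Fin h → ℤ, IsWeightedHomogeneous χ (f j) ψ)
    (hgen : ∀ (β : Fin h → ℤ) (b : K), IsSec A E β b ↔
      ∃ P : MvPolynomial (Fin N) k, IsWeightedHomogeneous χ P β ∧ b = aeval ξ P)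
    (hrel : ∀ (β : Fin h → ℤ) (P : MvPolynomial (Fin N) k), IsWeightedHomogeneous χ P β →
      (aeval ξ P = 0 ↔ P ∈ Ideal.span (Set.range f)))
    (δ : Ideal A →₀ ℝ) (hδ : ∀ p, 0 ≤ δ p) (x : MaximalSpectrum A)
    (hRC : ∃ γ : Kˣ →₀ ℝ, IsLocalEq A D δ x.asIdeal γ) (q : Ideal A) (hq : q.IsPrime)
    (hqx : q ≤ x.asIdeal) :
    ∃ d : ℕ, ringKrullDim (A ⧸ q) = d ∧ mld A D δ x ≤ mldP A D δ q + (d : EReal) := by
  have hA : Ten.IsGood A := CoxMain_good A hfg
  have hgen' : SecGen A E ξ χ := hgen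
  obtain ⟨S, hS, hG⟩ := build (k := k) (K := K) (L := LF K h) (m := m) (h := h) (c := c)
    (cx k ξ χ) (fun i => mul_ne_zero ((map_ne_zero (lφ k h)).2 (hξ i)) (ls_ne _)) χ f
    (by rw [Fintype.card_fin, hN]) (lau_trdeg (m + 1) y hy) hf
    (cker A E ξ χ hgen' f hf hrel) (cspan A E ξ χ hA hgen') (lφ k h)
    (cfrac A E ξ χ hA hgen') y hy D hD (cB k ξ χ) rfl (goodB A E ξ χ hA hgen') A
    (by
      intro b
      rw [isVal_iff A E ξ χ hgen']
      constructor
      · intro hb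
        refine ⟨b, (sec_zero_iff A E hA b).2 hb, ?_⟩
        rw [ls_zero, mul_one]
      · rintro ⟨b', hb', h1⟩
        rw [ls_zero, mul_one] at h1
        have h2 : b = b' := (lφ k h).injective h1
        rw [h2]
        exact (sec_zero_iff A E hA b').1 hb')
    hA.frac (ct1 A E ξ χ hA hgen') (ct2 A E ξ χ hA hgen')
  obtain ⟨d, hd⟩ := CoxMain_dim A hfg q hq
  obtain ⟨γ, hγ⟩ := hRC
  refine ⟨d, hd, ?_⟩
  subst hS
  exact fin S A hG δ hδ x γ hγ q hq hqx d hd.le

end Pool.Agent.MLD.Cox
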