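import Pool.Agent.Lib.MP_f23696_ag.Y.CoxG

/-!
Project COX, module CoxT: the algebra `B = ⊕_β H^0(X, O(∑ β_l E_l)) s^β`, its prime divisors.

Notation: `ι b = algebraMap K (LF K h) b` (`= lφ k h b`), `s^β = ls K β`, `x i = cx ξ χ i =
ι (ξ i) s^(χ i)`, `e p β = ∑_l β_l E_l(p)`.  `hgen` says that the sections of `∑ β_l E_l` are the
values `aeval ξ P`, `P` homogeneous of degree `β`.

* `ct1`: let `P` be of height one in `B`, `p = P ∩ A`, `p ≠ ⊥`; `p` is prime.  Suppose it is not of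
  height one.  Let `0 ≠ a ∈ p`.  The height one primes containing `a` are finitely many
  (`finite_heightOne`), and `p` is not contained in any of them (a nonzero prime contained in a
  height one prime is equal to it).  By prime avoidance (`Ideal.subset_union_prime`) there is
  `b ∈ p` outside all of them.  Let `w` be the valuation of `LF K h` with centre `P` (`dvr` for `B`,
  `goodB`), `0 ≤ w f ↔ ∃ s ∉ P, s f ∈ B`; `w (ι a) ≥ 1`, `w (ι b) ≥ 1`.  Let `t` have `w t = -1`: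
  `w (ι a t) ≥ 0`, `w (ι b t) ≥ 0`, so there is `s ∈ B \ P` with `s ι a t ∈ B`, `s ι b t ∈ B`.
  Put `f = s t`: `w f = -1`, so `f ∉ B`.  But `f = (ι a f) / ι a = ∑_β ι (c β) s^β` is a Laurent
  polynomial, and `ι a f ∈ B`, `ι b f ∈ B`, so `a c β` and `b c β` are sections of degree `β`
  (`memB`, `lau_ind`).  For every `q` of height one, with valuation `v`, `a ∉ q` or `b ∉ q`, so
  `v a = 0` or `v b = 0`, hence `v (c β) + e q β ≥ 0`: the `c β` are sections and `f ∈ B`,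
  a contradiction.
* `ct2`: let `P` be of height one in `B`, `p = P ∩ A`.  We show that for every `β` there is a
  section `b` of degree `β` with `ι b s^β ∉ P`.  By `ct1` `p = ⊥` or `p` is of height one.  If
  `p = ⊥`: take nonzero sections `b`, `b'` of degrees `β`, `-β` (`sec_ne`); if `ι b s^β ∈ P` then
  `ι (b b') ∈ P ∩ A = 0`, contradiction.  If `p` is of height one, with valuation `v` (`dvr`): take
  by `sec_order` sections `b`, `b'` of degrees `β`, `-β` with `v b = - e p β`, `v b' = e p β`; then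
  `b b' ∈ A`, `v (b b') = 0`, so `b b' ∉ p`, and `ι b s^β ∈ P` would give `ι (b b') ∈ P`.
-/

set_option autoImplicit false

namespace Pool.Agent.MLD.Cox

open MvPolynomial

universe u v

section

variable {k : Type u} {K : Type v} [Field k] [Field K] [Algebra k K] {h : ℕ} {σ : Type}
  [Fintype σ] (A : Subalgebra k K) (E : Fin h → Ideal A →₀ ℤ) (ξ : σ → K) (χ : σ → Fin h → ℤ)

private theorem CoxT_memA (hA : Ten.IsGood A) (hgen : SecGen A E ξ χ) (a : A) :
    lφ k h (a : K) ∈ cB k ξ χ := by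
  rw [memB A E ξ χ hgen]
  refine ⟨{0}, fun _ => (a : K), ?_, ?_⟩
  · intro β hβ
    rw [Finset.mem_singleton] at hβ
    subst hβ
    exact (sec_zero_iff A E hA _).2 a.2
  · rw [Finset.sum_singleton, ls_zero, mul_one, lφ_apply]

private theorem CoxT_sec (hgen : SecGen A E ξ χ) {β : Fin h → ℤ} {b : K} (hb : IsSec A E β b) :
    lφ k h b * ls K β ∈ cB k ξ χ := by
  rw [memB A E ξ χ hgen]
  refine ⟨{β}, fun _ => b, ?_, ?_⟩
  · intro β' hβ
    rw [Finset.mem_singleton] at hβ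
    subst hβ
    exact hb
  · rw [Finset.sum_singleton, lφ_apply]

private theorem CoxT_mem (hgen : SecGen A E ξ χ) {z : LF K h} (hz : z ∈ cB k ξ χ) :
    ∃ (T : Finset (Fin h → ℤ)) (c : (Fin h → ℤ) → K), (∀ β, IsSec A E β (c β)) ∧
      ∀ T', T ⊆ T' → z = ∑ β ∈ T', algebraMap K (LF K h) (c β) * ls K β := by
  classical
  obtain ⟨T, b, hb, hz⟩ := (memB A E ξ χ hgen z).1 hz
  refine ⟨T, fun β => if β ∈ T then b β else 0, ?_, ?_⟩
  · intro β
    by_cases hβ : β ∈ T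
    · simp only [if_pos hβ]
      exact hb β hβ
    · simp only [if_neg hβ]
      exact IsSec.zero A E β
  · intro T' hT
    rw [hz, ← Finset.sum_subset hT]
    · exact Finset.sum_congr rfl fun β hβ => by simp only [if_pos hβ]
    · intro β _ hβ
      simp only [if_neg hβ, map_zero, zero_mul]

/-- the embedding of `A` in `B` -/
private noncomputable def CoxT_j (hA : Ten.IsGood A) (hgen : SecGen A E ξ χ) :
    A →ₐ[k] cB k ξ χ :=
  ((lφ k h).comp A.val).codRestrict (cB k ξ χ) (CoxT_memA A E ξ χ hA hgen)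

private theorem CoxT_j_coe (hA : Ten.IsGood A) (hgen : SecGen A E ξ χ) (a : A) :
    ((CoxT_j A E ξ χ hA hgen a : cB k ξ χ) : LF K h) = lφ k h (a : K) := rfl

private theorem CoxT_comap (hA : Ten.IsGood A) (hgen : SecGen A E ξ χ) (P : Ideal (cB k ξ χ))
    (p : Ideal A) (hp : ∀ b : A, b ∈ p ↔ ∃ z ∈ P, (z : LF K h) = lφ k h (b : K)) (b : A) :
    b ∈ p ↔ CoxT_j A E ξ χ hA hgen b ∈ P := by
  rw [hp]
  constructor
  · rintro ⟨z, hz, h1⟩
    have h2 : z = CoxT_j A E ξ χ hA hgen b := Subtype.ext h1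
    rwa [← h2]
  · intro h1
    exact ⟨_, h1, rfl⟩

private theorem CoxT_avoid (hN : IsNoetherianRing A) (p : Ideal A) (hp : p.IsPrime)
    (hp0 : p ≠ ⊥) (hnot : ¬ IsHeightOne p) :
    ∃ a b : A, a ≠ 0 ∧ b ≠ 0 ∧ a ∈ p ∧ b ∈ p ∧ ∀ q : Ideal A, IsHeightOne q → a ∈ q → b ∉ q := by
  classical
  obtain ⟨a, ha, ha0⟩ := Submodule.exists_mem_ne_zero_of_ne_bot hp0
  have hfin := finite_heightOne A hN a ha0
  have hno : ∀ q ∈ hfin.toFinset, ¬ p ≤ q := by
    intro q hq hpq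
    rw [Set.Finite.mem_toFinset] at hq
    have h1 := hq.1.2.2 p hp hp0 hpq
    rw [h1] at hnot
    exact hnot hq.1
  by_cases hS : hfin.toFinset = ∅
  · refine ⟨a, a, ha0, ha0, ha, ha, ?_⟩
    intro q hq haq _
    have : q ∈ hfin.toFinset := by
      rw [Set.Finite.mem_toFinset]
      exact ⟨hq, haq⟩
    rw [hS] at this
    exact absurd this (Finset.notMem_empty q)
  · obtain ⟨q₀, hq₀⟩ := Finset.nonempty_iff_ne_empty.2 hS
    have h2 : ¬ ((p : Set A) ⊆
        ⋃ i ∈ (↑hfin.toFinset : Set (Ideal A)), ((i : Ideal A) : Set A)) := by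
      rw [Ideal.subset_union_prime (f := fun i : Ideal A => i) ⊥ ⊥]
      · rintro ⟨q, hq, hpq⟩
        exact hno q hq hpq
      · intro q hq _ _
        rw [Set.Finite.mem_toFinset] at hq
        exact hq.1.1
    obtain ⟨b, hb, hb'⟩ := Set.not_subset.1 h2
    have h3 : ∀ q ∈ hfin.toFinset, b ∉ q := by
      intro q hq hbq
      exact hb' (Set.mem_biUnion (Finset.mem_coe.2 hq) hbq)
    refine ⟨a, b, ha0, ?_, ha, hb, ?_⟩
    · rintro rfl
      exact h3 q₀ hq₀ q₀.zero_mem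
    · intro q hq haq
      apply h3
      rw [Set.Finite.mem_toFinset]
      exact ⟨hq, haq⟩

/-- if `a f` and `b f` are in `B`, and no height one prime contains `a` and `b`, then `f ∈ B` -/
private theorem CoxT_ext (hgen : SecGen A E ξ χ) (a b : A) (ha : a ≠ 0) (hb : b ≠ 0)
    (hab : ∀ q : Ideal A, IsHeightOne q → a ∈ q → b ∉ q) (f : LF K h)
    (h1 : lφ k h (a : K) * f ∈ cB k ξ χ) (h2 : lφ k h (b : K) * f ∈ cB k ξ χ) :
    f ∈ cB k ξ χ := by
  classical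
  have ha' : (a : K) ≠ 0 := fun h => ha (Subtype.ext h)
  have hb' : (b : K) ≠ 0 := fun h => hb (Subtype.ext h)
  have hιa : lφ k h (a : K) ≠ 0 := (map_ne_zero_iff _ (lφ k h).injective).2 ha'
  obtain ⟨T₁, c₁, hc₁, hz₁⟩ := CoxT_mem A E ξ χ hgen h1
  obtain ⟨T₂, c₂, hc₂, hz₂⟩ := CoxT_mem A E ξ χ hgen h2
  have e1 := hz₁ (T₁ ∪ T₂) Finset.subset_union_left
  have e2 := hz₂ (T₁ ∪ T₂) Finset.subset_union_right
  have e3 : ∑ β ∈ T₁ ∪ T₂, algebraMap K (LF K h) ((b : K) * c₁ β - (a : K) * c₂ β) * ls K β =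
      0 := by
    have e4 : lφ k h (b : K) * (lφ k h (a : K) * f) - lφ k h (a : K) * (lφ k h (b : K) * f) =
        0 := by ring
    rw [e1, e2, Finset.mul_sum, Finset.mul_sum, ← Finset.sum_sub_distrib] at e4
    rw [← e4]
    refine Finset.sum_congr rfl fun β _ => ?_
    rw [map_sub, map_mul, map_mul, lφ_apply, lφ_apply]
    ring
  have e5 := lau_ind _ _ e3
  have e6 : f = ∑ β ∈ T₁ ∪ T₂, algebraMap K (LF K h) (c₁ β / (a : K)) * ls K β := by
    apply mul_left_cancel₀ hιa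
    rw [e1, Finset.mul_sum]
    refine Finset.sum_congr rfl fun β _ => ?_
    rw [lφ_apply, ← mul_assoc, ← map_mul, mul_div_cancel₀ _ ha']
  rw [memB A E ξ χ hgen]
  refine ⟨T₁ ∪ T₂, fun β => c₁ β / (a : K), ?_, e6⟩
  intro β hβ q hq v hv hne
  change c₁ β / (a : K) ≠ 0 at hne
  change 0 ≤ v.ord (c₁ β / (a : K)) + _
  have e7 : (b : K) * c₁ β = (a : K) * c₂ β := sub_eq_zero.1 (e5 β hβ)
  have e8 : c₁ β / (a : K) = c₂ β / (b : K) := by
    rw [div_eq_div_iff ha' hb']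
    linear_combination e7
  by_cases haq : a ∈ q
  · obtain ⟨_, hvb⟩ := Ten.Ind.out v hv (hab q hq haq)
    have hc : c₂ β ≠ 0 := by
      intro h0
      apply hne
      rw [e8, h0, zero_div]
    have h3 := hc₂ β q hq v hv hc
    rw [e8, Ten.ord_div v _ _ hc hb', hvb]
    omega
  · obtain ⟨_, hva⟩ := Ten.Ind.out v hv haq
    have hc : c₁ β ≠ 0 := by
      intro h0
      apply hne
      rw [h0, zero_div]
    have h3 := hc₁ β q hq v hv hc
    rw [Ten.ord_div v _ _ hc ha', hva]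
    omega

theorem ct1 (hA : Ten.IsGood A) (hgen : SecGen A E ξ χ) (P : Ideal (cB k ξ χ))
    (hP : IsHeightOne P) (p : Ideal A)
    (hp : ∀ b : A, b ∈ p ↔ ∃ z ∈ P, (z : LF K h) = lφ k h (b : K)) :
    p = ⊥ ∨ IsHeightOne p := by
  by_contra hcon
  push Not at hcon
  obtain ⟨hp0, hnot⟩ := hcon
  have hcm := CoxT_comap A E ξ χ hA hgen P p hp
  have hprime : p.IsPrime := by
    have h1 : p = P.comap (CoxT_j A E ξ χ hA hgen) := by
      ext b
      rw [Ideal.mem_comap, hcm]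
    have := hP.1
    rw [h1]
    exact Ideal.comap_isPrime _ _
  have hN := Ten.Ind.noeth A hA.fg
  obtain ⟨a, b, ha, hb, hap, hbp, hab⟩ := CoxT_avoid A hN p hprime hp0 hnot
  have hB := goodB A E ξ χ hA hgen
  obtain ⟨w, hw, hw'⟩ := dvr (cB k ξ χ) (Ten.Ind.noeth _ hB.fg) hB.frac hB.norm P hP
  have ha' : (a : K) ≠ 0 := fun h => ha (Subtype.ext h)
  have hb' : (b : K) ≠ 0 := fun h => hb (Subtype.ext h)
  have hιa : lφ k h (a : K) ≠ 0 := (map_ne_zero_iff _ (lφ k h).injective).2 ha'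
  have hιb : lφ k h (b : K) ≠ 0 := (map_ne_zero_iff _ (lφ k h).injective).2 hb'
  have hwa : 0 < w.ord (lφ k h (a : K)) := (hw.2 _).1 ((hcm a).1 hap) hιa
  have hwb : 0 < w.ord (lφ k h (b : K)) := (hw.2 _).1 ((hcm b).1 hbp) hιb
  obtain ⟨t', ht'0, ht'1⟩ := w.exists_ord_eq_one
  have ht0 : t'⁻¹ ≠ 0 := inv_ne_zero ht'0
  have ht1 : w.ord t'⁻¹ = -1 := by rw [Jac.ord_inv w _ ht'0, ht'1]
  obtain ⟨s₁, hs₁, hs₁'⟩ := (hw' (lφ k h (a : K) * t'⁻¹) (mul_ne_zero hιa ht0)).1 (by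
    rw [w.ord_mul _ _ hιa ht0]
    omega)
  obtain ⟨s₂, hs₂, hs₂'⟩ := (hw' (lφ k h (b : K) * t'⁻¹) (mul_ne_zero hιb ht0)).1 (by
    rw [w.ord_mul _ _ hιb ht0]
    omega)
  have hs : s₁ * s₂ ∉ P := fun h => (hP.1.mem_or_mem h).elim hs₁ hs₂
  obtain ⟨hs0, hs1⟩ := Ten.Ind.out w hw hs
  have hf : ((s₁ * s₂ : cB k ξ χ) : LF K h) * t'⁻¹ ∈ cB k ξ χ := by
    refine CoxT_ext A E ξ χ hgen a b ha hb hab _ ?_ ?_
    · have h1 := (cB k ξ χ).mul_mem s₂.2 hs₁'
      have h2 : lφ k h (a : K) * (((s₁ * s₂ : cB k ξ χ) : LF K h) * t'⁻¹) =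
          (s₂ : LF K h) * ((s₁ : LF K h) * (lφ k h (a : K) * t'⁻¹)) := by
        push_cast
        ring
      rw [h2]
      exact h1
    · have h1 := (cB k ξ χ).mul_mem s₁.2 hs₂'
      have h2 : lφ k h (b : K) * (((s₁ * s₂ : cB k ξ χ) : LF K h) * t'⁻¹) =
          (s₁ : LF K h) * ((s₂ : LF K h) * (lφ k h (b : K) * t'⁻¹)) := by
        push_cast
        ring
      rw [h2]
      exact h1
  have h3 := hw.1 ⟨_, hf⟩ (mul_ne_zero hs0 ht0)
  change 0 ≤ w.ord (((s₁ * s₂ : cB k ξ χ) : LF K h) * t'⁻¹) at h3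
  rw [w.ord_mul _ _ hs0 ht0, hs1, ht1] at h3
  omega

theorem ct2 (hA : Ten.IsGood A) (hgen : SecGen A E ξ χ) (P : Ideal (cB k ξ χ))
    (hP : IsHeightOne P) : AddSubgroup.closure {β : Fin h → ℤ |
      ∃ z : LF K h, IsVal (k := k) (cx k ξ χ) χ β z ∧ ∀ b ∈ P, (b : LF K h) ≠ z} = ⊤ := by
  rw [eq_top_iff]
  intro β _
  apply AddSubgroup.subset_closure
  let p : Ideal A := P.comap (CoxT_j A E ξ χ hA hgen)
  have hp : ∀ b : A, b ∈ p ↔ ∃ z ∈ P, (z : LF K h) = lφ k h (b : K) := by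
    intro b
    constructor
    · intro hb
      exact ⟨_, hb, rfl⟩
    · rintro ⟨z, hz, h1⟩
      have h2 : z = CoxT_j A E ξ χ hA hgen b := Subtype.ext h1
      rw [h2] at hz
      exact hz
  have key : ∀ b b' : K, b ≠ 0 → b' ≠ 0 → IsSec A E β b → IsSec A E (-β) b' →
      (∀ c : A, (c : K) = b * b' → c ∉ p) →
      ∀ y ∈ P, (y : LF K h) ≠ lφ k h b * ls K β := by
    intro b b' _ _ hb hb' hc y hy hyb
    have h0 : b * b' ∈ A := by
      rw [← sec_zero_iff A E hA]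
      have h1 := IsSec.mul A E hb hb'
      rwa [add_neg_cancel] at h1
    refine hc ⟨b * b', h0⟩ rfl ?_
    rw [hp]
    refine ⟨⟨_, CoxT_sec A E ξ χ hgen hb'⟩ * y, P.mul_mem_left _ hy, ?_⟩
    change (lφ k h b' * ls K (-β)) * (y : LF K h) = lφ k h (b * b')
    rw [hyb, ls_neg, map_mul]
    have h2 := ls_ne (K := K) β
    field_simp
  rcases ct1 A E ξ χ hA hgen P hP p hp with h1 | h1
  · obtain ⟨b, hb0, hb⟩ := sec_ne A E hA β
    obtain ⟨b', hb0', hb'⟩ := sec_ne A E hA (-β)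
    refine ⟨lφ k h b * ls K β, (isVal_iff A E ξ χ hgen _ _).2 ⟨b, hb, rfl⟩,
      key b b' hb0 hb0' hb hb' ?_⟩
    intro c hc hcp
    rw [h1, Ideal.mem_bot] at hcp
    rw [hcp] at hc
    exact mul_ne_zero hb0 hb0' hc.symm
  · have hN := Ten.Ind.noeth A hA.fg
    obtain ⟨v, hv, _⟩ := dvr A hN hA.frac hA.norm p h1
    obtain ⟨b, hb0, hb, hb1⟩ := sec_order A E hA β p h1 v hv
    obtain ⟨b', hb0', hb', hb1'⟩ := sec_order A E hA (-β) p h1 v hv
    refine ⟨lφ k h b * ls K β, (isVal_iff A E ξ χ hgen _ _).2 ⟨b, hb, rfl⟩,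
      key b b' hb0 hb0' hb hb' ?_⟩
    intro c hc hcp
    have h2 := (hv.2 c).1 hcp (by
      rw [hc]
      exact mul_ne_zero hb0 hb0')
    rw [hc, v.ord_mul _ _ hb0 hb0'] at h2
    have h3 : ∑ l, (-β) l * E l p = -∑ l, β l * E l p := by
      rw [← Finset.sum_neg_distrib]
      exact Finset.sum_congr rfl fun l _ => by rw [Pi.neg_apply, neg_mul]
    rw [h3] at hb1'
    omega

end

end Pool.Agent.MLD.Cox
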