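import Pool.Agent.Lib.MP_f23696_ag.Y.Defs

/-!
Project COX, module DvrSer: a discrete valuation ring `A` containing a field `k` which is mapped
isomorphically onto the residue field embeds into `k⟦X⟧`.

Proof.  Let `π` be a uniformizer (`IsDiscreteValuationRing.exists_irreducible`).  For `a ∈ A` the
element `a - algebraMap (res a)` is in the kernel of `res`, i.e. in the maximal ideal `(π)`; choose
`q a` with `a - algebraMap (res a) = π * q a` (unique since `A` is a domain, so `q` is additive
and `k`-linear).  Put `c a n = res (q^[n] a)` and `ψ a = PowerSeries.mk (c a)`.  Then for all `n`: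
`a = ∑_(i<n) algebraMap (c a i) * π^i + π^n * q^[n] a`.  Characterization: if `s : ℕ → k` and for
all `n` one has `π^n ∣ a - ∑_(i<n) algebraMap (s i) * π^i`, then `s = c a` (compare the first
index where they differ: `algebraMap (s i - c a i) * π^i ∈ (π^(i+1))` forces `s i = c a i`, since a
nonzero constant is a unit).  From this `ψ` is additive, `k`-linear, `ψ 1 = 1` and multiplicative
(the Cauchy product of the two expansions satisfies the characterization for `a b`, modulo `π^n`).
`constantCoeff (ψ a) = res a`.  Injective: `ψ a = 0` gives `π^n ∣ a` for all `n`, so `a = 0`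
(Krull intersection, or `addVal`).
-/

set_option autoImplicit false

namespace Pool.Agent.MLD.Cox

open scoped PowerSeries

universe u v w

theorem dvrSer {k : Type u} [Field k] {A : Type v} [CommRing A] [IsDomain A]
    [IsDiscreteValuationRing A] [Algebra k A] (res : A →ₐ[k] k)
    (hres : ∀ a, res a = 0 ↔ a ∈ IsLocalRing.maximalIdeal A) :
    ∃ ψ : A →ₐ[k] k⟦X⟧, Function.Injective ψ ∧ ∀ a, PowerSeries.constantCoeff (ψ a) = res a := by
  obtain ⟨π, hπ⟩ := IsDiscreteValuationRing.exists_irreducible A
  have hπ0 : π ≠ 0 := hπ.ne_zero
  have hmax : IsLocalRing.maximalIdeal A = Ideal.span {π} :=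
    (IsDiscreteValuationRing.irreducible_iff_uniformizer π).mp hπ
  have hex : ∀ a : A, ∃ b : A, a - algebraMap k A (res a) = π * b := by
    intro a
    have h1 : res (a - algebraMap k A (res a)) = 0 := by
      rw [map_sub, AlgHom.commutes]
      simp
    have h2 := (hres _).mp h1
    rw [hmax, Ideal.mem_span_singleton] at h2
    exact h2
  choose q hq using hex
  have hdec : ∀ a, a = algebraMap k A (res a) + π * q a := by
    intro a
    rw [← hq a]
    ring
  have hresC : ∀ x : k, res (algebraMap k A x) = x := by
    intro x
    rw [AlgHom.commutes]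
    rfl
  have hqadd : ∀ a b, q (a + b) = q a + q b := by
    intro a b
    apply mul_left_cancel₀ hπ0
    rw [← hq (a + b), mul_add, ← hq a, ← hq b, map_add, map_add]
    ring
  have hqC : ∀ x : k, q (algebraMap k A x) = 0 := by
    intro x
    apply mul_left_cancel₀ hπ0
    rw [← hq, hresC]
    simp
  have hqmul : ∀ a b, q (a * b) = algebraMap k A (res a) * q b + q a * b := by
    intro a b
    apply mul_left_cancel₀ hπ0
    rw [← hq (a * b), map_mul, map_mul, mul_add]
    have h1 : π * (algebraMap k A (res a) * q b) =
        algebraMap k A (res a) * (b - algebraMap k A (res b)) := by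
      rw [hq b]; ring
    have h2 : π * (q a * b) = (a - algebraMap k A (res a)) * b := by
      rw [hq a]; ring
    rw [h1, h2]
    ring
  obtain ⟨f, hf⟩ : ∃ f : A → k⟦X⟧, ∀ a n, PowerSeries.coeff n (f a) = res (q^[n] a) :=
    ⟨fun a => PowerSeries.mk fun n => res (q^[n] a), fun a n => PowerSeries.coeff_mk _ _⟩
  have hf0 : ∀ a, PowerSeries.coeff 0 (f a) = res a := fun a => by rw [hf]; rfl
  have hfs : ∀ a n, PowerSeries.coeff (n + 1) (f a) = PowerSeries.coeff n (f (q a)) := by
    intro a n
    rw [hf, hf]
    rfl
  have hfadd : ∀ a b, f (a + b) = f a + f b := by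
    intro a b
    ext n
    induction n generalizing a b with
    | zero => rw [map_add, hf0, hf0, hf0, map_add]
    | succ n ih => rw [map_add, hfs, hfs, hfs, hqadd, ih, map_add]
  have hfC : ∀ x : k, f (algebraMap k A x) = PowerSeries.C x := by
    intro x
    have h0 : ∀ n, PowerSeries.coeff n (f 0) = 0 := by
      have h1 : q 0 = 0 := by
        have h2 := hqC 0
        rwa [map_zero] at h2
      intro n
      induction n with
      | zero => rw [hf0, map_zero]
      | succ n ih => rw [hfs, h1, ih]
    ext n
    cases n with
    | zero => rw [hf0, hresC, PowerSeries.coeff_zero_C]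
    | succ n => rw [hfs, hqC, h0, PowerSeries.coeff_succ_C]
  have hfdec : ∀ a, f a = PowerSeries.C (res a) + PowerSeries.X * f (q a) := by
    intro a
    ext n
    cases n with
    | zero => simp [hf0]
    | succ n => rw [hfs, map_add, PowerSeries.coeff_succ_C, PowerSeries.coeff_succ_X_mul, zero_add]
  have hfCmul : ∀ (x : k) (b : A), f (algebraMap k A x * b) = PowerSeries.C x * f b := by
    intro x b
    ext n
    induction n generalizing b with
    | zero => rw [hf0, map_mul, hresC, PowerSeries.coeff_C_mul, hf0]
    | succ n ih =>
      rw [hfs, hqmul, hqC, zero_mul, add_zero, hresC, ih, PowerSeries.coeff_C_mul,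
        PowerSeries.coeff_C_mul, hfs]
  have hfmul : ∀ a b, f (a * b) = f a * f b := by
    intro a b
    ext n
    induction n generalizing a b with
    | zero =>
      rw [hf0, map_mul, PowerSeries.coeff_zero_eq_constantCoeff_apply, map_mul,
        ← PowerSeries.coeff_zero_eq_constantCoeff_apply,
        ← PowerSeries.coeff_zero_eq_constantCoeff_apply, hf0, hf0]
    | succ n ih =>
      rw [hfs, hqmul, hfadd, map_add, hfCmul, ih, PowerSeries.coeff_C_mul]
      conv_rhs => rw [hfdec a]
      rw [add_mul, map_add, PowerSeries.coeff_C_mul, hfs, mul_assoc,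
        PowerSeries.coeff_succ_X_mul]
  refine ⟨{ toFun := f
            map_one' := ?_
            map_mul' := hfmul
            map_zero' := ?_
            map_add' := hfadd
            commutes' := ?_ }, ?_, ?_⟩
  · have h := hfC 1
    rwa [map_one, map_one] at h
  · have h := hfC 0
    rwa [map_zero, map_zero] at h
  · intro x
    exact hfC x
  · rw [injective_iff_map_eq_zero]
    intro a ha
    have ha' : f a = 0 := ha
    have hc : ∀ n, res (q^[n] a) = 0 := by
      intro n
      rw [← hf, ha', map_zero]
    have hpow : ∀ n, a = π ^ n * q^[n] a := by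
      intro n
      induction n with
      | zero => simp
      | succ n ih =>
        have h1 := hdec (q^[n] a)
        rw [hc n, map_zero, zero_add] at h1
        rw [Function.iterate_succ_apply', pow_succ, mul_assoc, ← h1]
        exact ih
    by_contra hne
    obtain ⟨n, hn⟩ := IsDiscreteValuationRing.associated_pow_irreducible hne hπ
    obtain ⟨u, hu⟩ := hn
    have h1 := hpow (n + 1)
    have h2 : π ^ n * 1 = π ^ n * (π * q^[n + 1] a * u) := by
      calc π ^ n * 1 = a * u := by rw [mul_one, hu]
        _ = π ^ (n + 1) * q^[n + 1] a * u := by rw [← h1]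
        _ = π ^ n * (π * q^[n + 1] a * u) := by
          generalize q^[n + 1] a = y
          ring
    have h3 := mul_left_cancel₀ (pow_ne_zero n hπ0) h2
    exact hπ.not_isUnit (IsUnit.of_mul_eq_one (q^[n + 1] a * u)
      (by rw [← mul_assoc]; exact h3.symm))
  · intro a
    show PowerSeries.constantCoeff (f a) = res a
    rw [← PowerSeries.coeff_zero_eq_constantCoeff_apply, hf0]

end Pool.Agent.MLD.Cox
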