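import Pool.Agent.Lib.MP_f23696_ag.Y.Td
import Pool.Agent.Lib.MP_f23696_ag.Y.DvrSer

/-!
Project COX, module CurveOne: curve selection in transcendence degree at most one.

Proof.  Let `R = MvPolynomial σ k ⧸ Z`, a finitely generated `k`-algebra and a domain, `c' : R → k`
the point.  Noether normalization (`exists_finite_inj_algHom_of_fg`): an injective finite
homomorphism `MvPolynomial (Fin s) k →ₐ[k] R`; by `¬ TD Z 2` we have `s ≤ 1` (the images of two
variables would be algebraically independent in `R`).

Case `s = 0`: `R` is a domain which is integral over (the image of) `k`, hence a field, algebraic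
over `k`, so `algebraMap k R` is bijective (`k` is algebraically closed); take `ψ a = C (c a)`;
`c a = 0` iff `a ∈ Z`.

Case `s = 1`: `S = MvPolynomial (Fin 1) k` (or `k[X]`, `MvPolynomial.pUniqueAlgEquiv`), a principal
ideal domain, `S → R` injective and integral.  Let `Q = FractionRing R`, finite over
`FractionRing S`, separable in characteristic `0` (or skip finiteness of `O` over `S`: only
Dedekind is needed), `O = integralClosure S Q`: a Dedekind domain
(`integralClosure.isDedekindDomain`), not a field, `R ⊆ O` and `O` is integral over `R`.  Let `M`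
be a maximal ideal of `O` over the maximal ideal `ker c'` of `R`
(`Ideal.exists_ideal_over_maximal_of_isIntegral`).  `A = Localization.AtPrime M` is a discrete
valuation ring (`IsLocalization.AtPrime.isDiscreteValuationRing_of_dedekind_domain`, `M ≠ ⊥` since
`O` is not a field).  The residue field of `A` is `O ⧸ M`; it is algebraic over `R ⧸ ker c' = k`,
hence equal to `k`; so there is a `k`-algebra homomorphism `res : A → k` with kernel the maximal
ideal, and `res` restricted to `R` is `c'` (both have kernel `ker c'` and are `k`-algebra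
homomorphisms to `k`).  By `dvrSer` we get an injective `ψ' : A → k⟦X⟧`; `ψ` is the composite
`MvPolynomial σ k → R → O → A → k⟦X⟧`, its kernel is `Z`.
-/

set_option autoImplicit false

namespace Pool.Agent.MLD.Cox

open MvPolynomial
open scoped PowerSeries nonZeroDivisors

universe u v w

attribute [local instance] FractionRing.liftAlgebra FractionRing.isScalarTower_liftAlgebra

/-- the residue homomorphism of a maximal ideal over a point -/
private theorem curveOne_res {k : Type u} [Field k] [IsAlgClosed k] {R : Type v} {O : Type w}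
    [CommRing R] [CommRing O] [Algebra k R] [Algebra k O] [Algebra R O] [IsScalarTower k R O]
    [Algebra.IsIntegral R O] (c' : R →ₐ[k] k) (M : Ideal O) (hM : M.IsMaximal)
    (hMc : ∀ r : R, c' r = 0 → algebraMap R O r ∈ M) :
    ∃ ρ : O →ₐ[k] k, (∀ x, ρ x = 0 ↔ x ∈ M) ∧ ∀ r : R, ρ (algebraMap R O r) = c' r := by
  classical
  have := hM
  have : IsDomain (O ⧸ M) := Ideal.Quotient.isDomain M
  have key : ∀ r : R, Ideal.Quotient.mk M (algebraMap R O r) = algebraMap k (O ⧸ M) (c' r) := by
    intro r
    have h1 : c' (r - algebraMap k R (c' r)) = 0 := by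
      rw [map_sub, AlgHom.commutes]; simp
    have h2 := hMc _ h1
    rw [map_sub, ← IsScalarTower.algebraMap_apply k R O] at h2
    have h3 := (Ideal.Quotient.eq (I := M)).2 h2
    rw [h3]
    rfl
  have hint : Algebra.IsIntegral k (O ⧸ M) := by
    constructor
    intro y
    obtain ⟨x, rfl⟩ := Ideal.Quotient.mk_surjective y
    obtain ⟨p, hp, hpx⟩ := Algebra.IsIntegral.isIntegral (R := R) x
    refine ⟨p.map (c' : R →+* k), hp.map _, ?_⟩
    rw [Polynomial.eval₂_map]
    have h4 : (algebraMap k (O ⧸ M)).comp (c' : R →+* k) =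
        (Ideal.Quotient.mk M).comp (algebraMap R O) := by
      ext r
      simp only [RingHom.comp_apply]
      exact (key r).symm
    rw [h4, ← Polynomial.hom_eval₂, hpx, map_zero]
  have hbij := IsAlgClosed.algebraMap_bijective_of_isIntegral (k := k) (K := O ⧸ M)
  let e : k ≃ₐ[k] (O ⧸ M) := AlgEquiv.ofBijective (Algebra.ofId k (O ⧸ M)) hbij
  refine ⟨e.symm.toAlgHom.comp (Ideal.Quotient.mkₐ k M), ?_, ?_⟩
  · intro x
    simp only [AlgHom.comp_apply]
    constructor
    · intro h
      have : Ideal.Quotient.mk M x = 0 := by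
        have h5 : e.symm (Ideal.Quotient.mk M x) = 0 := h
        simpa using h5
      exact Ideal.Quotient.eq_zero_iff_mem.1 this
    · intro h
      have : Ideal.Quotient.mk M x = 0 := Ideal.Quotient.eq_zero_iff_mem.2 h
      change e.symm (Ideal.Quotient.mk M x) = 0
      rw [this, map_zero]
  · intro r
    change e.symm (Ideal.Quotient.mk M (algebraMap R O r)) = c' r
    rw [key r]
    have : algebraMap k (O ⧸ M) (c' r) = e (c' r) := rfl
    rw [this, AlgEquiv.symm_apply_apply]

/-- the localization step: a Dedekind domain at a nonzero maximal ideal -/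
private theorem curveOne_loc {k : Type u} [Field k] {O : Type v}
    [CommRing O] [IsDedekindDomain O] [Algebra k O]
    (M : Ideal O) (hM : M.IsMaximal) (hM0 : M ≠ ⊥) (ρ : O →ₐ[k] k)
    (hρ : ∀ x, ρ x = 0 ↔ x ∈ M) :
    ∃ ψ : O →ₐ[k] k⟦X⟧, Function.Injective ψ ∧ ∀ a, PowerSeries.constantCoeff (ψ a) = ρ a := by
  classical
  have : M.IsPrime := hM.isPrime
  let A := Localization.AtPrime M
  have : IsDiscreteValuationRing A :=
    IsLocalization.AtPrime.isDiscreteValuationRing_of_dedekind_domain O hM0 A
  have hu : ∀ y : M.primeCompl, IsUnit (ρ y) := by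
    intro y
    rw [isUnit_iff_ne_zero]
    intro h
    exact y.2 ((hρ _).1 h)
  let res : A →ₐ[k] k := IsLocalization.liftAlgHom (M := M.primeCompl) (S := A) (f := ρ) hu
  have hresO : ∀ x : O, res (algebraMap O A x) = ρ x := by
    intro x
    exact IsLocalization.lift_eq _ x
  have hres : ∀ a, res a = 0 ↔ a ∈ IsLocalRing.maximalIdeal A := by
    intro a
    obtain ⟨x, s, rfl⟩ := IsLocalization.exists_mk'_eq M.primeCompl a
    rw [IsLocalization.AtPrime.mk'_mem_maximal_iff A M]
    have h1 : res (IsLocalization.mk' A x s) * ρ s = ρ x := by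
      rw [← hresO, ← hresO, ← map_mul, IsLocalization.mk'_spec]
    have h2 : ρ s ≠ 0 := fun h => s.2 ((hρ _).1 h)
    constructor
    · intro h
      rw [h, zero_mul] at h1
      exact (hρ _).1 h1.symm
    · intro h
      rw [(hρ _).2 h] at h1
      exact (mul_eq_zero.1 h1).resolve_right h2
  obtain ⟨ψ, hψ, hψc⟩ := dvrSer res hres
  refine ⟨ψ.comp (IsScalarTower.toAlgHom k O A), ?_, ?_⟩
  · have h1 : Function.Injective (algebraMap O A) :=
      IsLocalization.injective A M.primeCompl_le_nonZeroDivisors
    exact hψ.comp h1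
  · intro a
    change PowerSeries.constantCoeff (ψ (algebraMap O A a)) = ρ a
    rw [hψc, hresO]

/-- the case of a domain finite over a polynomial ring in one variable -/
private theorem curveOne_core {k : Type u} [Field k] [IsAlgClosed k] [CharZero k] {R : Type v}
    [CommRing R] [IsDomain R] [Algebra k R] (c' : R →ₐ[k] k) (g : Polynomial k →ₐ[k] R)
    (hg : Function.Injective g) (hfin : g.Finite) :
    ∃ ψ : R →ₐ[k] k⟦X⟧, Function.Injective ψ ∧ ∀ a, PowerSeries.constantCoeff (ψ a) = c' a := by
  classical
  let : Algebra (Polynomial k) R := g.toRingHom.toAlgebra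
  have : IsScalarTower k (Polynomial k) R := IsScalarTower.of_algebraMap_eq' (by
    ext a
    exact (g.commutes a).symm)
  have : Module.Finite (Polynomial k) R := hfin
  have : FaithfulSMul (Polynomial k) R := (faithfulSMul_iff_algebraMap_injective _ _).2 hg
  have : Module.IsTorsionFree (Polynomial k) R := inferInstance
  have : FiniteDimensional (FractionRing (Polynomial k)) (FractionRing R) := inferInstance
  have : Algebra.IsSeparable (FractionRing (Polynomial k)) (FractionRing R) := inferInstance
  let Q := FractionRing R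
  have : IsDedekindDomain (integralClosure (Polynomial k) Q) := inferInstance
  let O := integralClosure (Polynomial k) Q
  have hOint : Algebra.IsIntegral (Polynomial k) O := IsIntegralClosure.isIntegral_algebra _ Q
  have hkQ : IsScalarTower k (Polynomial k) Q := IsScalarTower.of_algebraMap_eq' (by
    rw [IsScalarTower.algebraMap_eq (Polynomial k) R Q, RingHom.comp_assoc,
      ← IsScalarTower.algebraMap_eq k (Polynomial k) R]
    exact IsScalarTower.algebraMap_eq k R Q)
  let j : R →ₐ[Polynomial k] O :=
    (IsScalarTower.toAlgHom (Polynomial k) R Q).codRestrict O (fun r => by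
      have h1 : IsIntegral (Polynomial k) r := Algebra.IsIntegral.isIntegral r
      exact h1.map (IsScalarTower.toAlgHom (Polynomial k) R Q))
  have hj : Function.Injective j := by
    intro a b hab
    have h1 : algebraMap R Q a = algebraMap R Q b := congrArg Subtype.val hab
    exact IsFractionRing.injective R Q h1
  let _ : Algebra R O := j.toRingHom.toAlgebra
  have hRO : IsScalarTower (Polynomial k) R O :=
    IsScalarTower.of_algebraMap_eq' (RingHom.ext fun a => (j.commutes a).symm)
  have hkO : IsScalarTower k R O := IsScalarTower.of_algebraMap_eq' (by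
    rw [IsScalarTower.algebraMap_eq k (Polynomial k) O,
      IsScalarTower.algebraMap_eq (Polynomial k) R O, RingHom.comp_assoc,
      ← IsScalarTower.algebraMap_eq k (Polynomial k) R])
  have hROint : Algebra.IsIntegral R O := Algebra.IsIntegral.tower_top (Polynomial k)
  have hc'surj : Function.Surjective c' := fun a => ⟨algebraMap k R a, by simp⟩
  have hPmax : (RingHom.ker c').IsMaximal := RingHom.ker_isMaximal_of_surjective _ hc'surj
  have hker : RingHom.ker (algebraMap R O) ≤ RingHom.ker c' := by
    have h1 : RingHom.ker (algebraMap R O) = ⊥ :=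
      (RingHom.injective_iff_ker_eq_bot _).1 hj
    rw [h1]
    exact bot_le
  obtain ⟨M, hM, hMP⟩ := Ideal.exists_ideal_over_maximal_of_isIntegral (S := O)
    (RingHom.ker c') hker
  have hM0 : M ≠ ⊥ := by
    intro h0
    have hO : IsField O := by
      rw [h0] at hM
      exact Ring.isField_iff_maximal_bot.2 hM
    have hinj : Function.Injective (algebraMap (Polynomial k) O) := by
      rw [IsScalarTower.algebraMap_eq (Polynomial k) R O]
      exact hj.comp hg
    have := isField_of_isIntegral_of_isField hinj hO
    exact Polynomial.not_isField k this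
  obtain ⟨ρ, hρ0, hρ⟩ := curveOne_res (O := O) c' M hM (fun r hr => by
    have h1 : r ∈ RingHom.ker c' := hr
    rw [← hMP] at h1
    exact h1)
  obtain ⟨ψ, hψ, hψc⟩ := curveOne_loc M hM hM0 ρ hρ0
  refine ⟨ψ.comp (IsScalarTower.toAlgHom k R O), hψ.comp hj, ?_⟩
  intro a
  change PowerSeries.constantCoeff (ψ (algebraMap R O a)) = c' a
  rw [hψc, hρ]

private theorem curveOne_zero {k : Type u} [Field k] {R : Type v} [CommRing R] [IsDomain R]
    [Algebra k R] (g : MvPolynomial (Fin 0) k →ₐ[k] R) (hfin : g.Finite) : IsField R := by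
  have h1 : IsField (MvPolynomial (Fin 0) k) :=
    MulEquiv.isField (Field.toIsField k) (MvPolynomial.isEmptyAlgEquiv k (Fin 0)).toMulEquiv
  let _ : Algebra (MvPolynomial (Fin 0) k) R := g.toRingHom.toAlgebra
  have h2 : Module.Finite (MvPolynomial (Fin 0) k) R := hfin
  exact isField_of_isIntegral_of_isField' h1

theorem curveOne {k : Type u} [Field k] [IsAlgClosed k] [CharZero k] {σ : Type w} [Finite σ]
    (Z : Ideal (MvPolynomial σ k)) (hZ : Z.IsPrime) (c : MvPolynomial σ k →ₐ[k] k)
    (hc : ∀ a ∈ Z, c a = 0) (hZ2 : ¬ TD Z 2) :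
    ∃ ψ : MvPolynomial σ k →ₐ[k] k⟦X⟧, (∀ a, ψ a = 0 ↔ a ∈ Z) ∧
      ∀ a, PowerSeries.constantCoeff (ψ a) = c a := by
  classical
  let R := MvPolynomial σ k ⧸ Z
  have hR : IsDomain R := Ideal.Quotient.isDomain Z
  let mk : MvPolynomial σ k →ₐ[k] R := Ideal.Quotient.mkₐ k Z
  have hmk : Function.Surjective mk := Ideal.Quotient.mkₐ_surjective k Z
  let c' : R →ₐ[k] k := Ideal.Quotient.liftₐ Z c hc
  have hc' : ∀ a, c' (mk a) = c a := fun a => Ideal.Quotient.liftₐ_apply Z c hc _
  have hft : Algebra.FiniteType k R := Algebra.FiniteType.of_surjective mk hmk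
  suffices h : ∃ ψ : R →ₐ[k] k⟦X⟧, Function.Injective ψ ∧
      ∀ a, PowerSeries.constantCoeff (ψ a) = c' a by
    obtain ⟨ψ, hψ, hψc⟩ := h
    refine ⟨ψ.comp mk, ?_, ?_⟩
    · intro a
      rw [AlgHom.comp_apply, map_eq_zero_iff ψ hψ]
      exact Ideal.Quotient.eq_zero_iff_mem
    · intro a
      rw [AlgHom.comp_apply, hψc, hc']
  obtain ⟨s, g, hg, hfin⟩ := exists_finite_inj_algHom_of_fg k R
  have hs : s ≤ 1 := by
    by_contra! h2
    apply hZ2
    have h3 : Z = RingHom.ker mk := by
      ext a
      rw [RingHom.mem_ker]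
      exact Ideal.Quotient.eq_zero_iff_mem.symm
    rw [h3, td_ker]
    choose t ht using fun i : Fin 2 => hmk (g (X (Fin.castLE h2 i)))
    refine ⟨t, ?_⟩
    have h4 : AlgebraicIndependent k fun i : Fin 2 =>
        (X (Fin.castLE h2 i) : MvPolynomial (Fin s) k) :=
      (MvPolynomial.algebraicIndependent_X (Fin s) k).comp _ (Fin.castLE_injective h2)
    have h5 := h4.map' hg
    simpa only [ht, Function.comp_def] using h5
  interval_cases s
  · -- `R` is `k`
    have hfield : IsField R := curveOne_zero g hfin
    have hinj : Function.Injective c' := by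
      let _ : Field R := hfield.toField
      exact (c' : R →+* k).injective
    refine ⟨(Algebra.ofId k k⟦X⟧).comp c', ?_, ?_⟩
    · have h1 : Function.Injective (Algebra.ofId k k⟦X⟧) :=
        FaithfulSMul.algebraMap_injective k k⟦X⟧
      exact h1.comp hinj
    · intro a
      change PowerSeries.constantCoeff (algebraMap k k⟦X⟧ (c' a)) = c' a
      simp
  · let e : MvPolynomial (Fin 1) k ≃ₐ[k] Polynomial k := MvPolynomial.uniqueAlgEquiv k (Fin 1)
    refine curveOne_core c' (g.comp e.symm.toAlgHom) (hg.comp e.symm.injective) ?_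
    exact hfin.comp (RingHom.Finite.of_surjective _ e.symm.surjective)

end Pool.Agent.MLD.Cox
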