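import Pool.Agent.Lib.MP_f23696_ag.Y.CurveRed
import Pool.Agent.Lib.MP_f23696_ag.Y.CurveOne

/-!
Project COX, module Curve: curve selection.
-/

set_option autoImplicit false

namespace Pool.Agent.MLD.Cox

open MvPolynomial
open scoped PowerSeries

universe u v w

theorem curve {k : Type u} [Field k] [IsAlgClosed k] [CharZero k] {σ : Type w} [Finite σ]
    (Z : Ideal (MvPolynomial σ k)) (hZ : Z.IsPrime) (c : MvPolynomial σ k →ₐ[k] k)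
    (hc : ∀ a ∈ Z, c a = 0) (g : MvPolynomial σ k) (hg : g ∉ Z) :
    ∃ ψ : MvPolynomial σ k →ₐ[k] k⟦X⟧, (∀ a ∈ Z, ψ a = 0) ∧
      (∀ a, PowerSeries.constantCoeff (ψ a) = c a) ∧ ψ g ≠ 0 := by
  obtain ⟨Z', h1, h2, h3, h4, h5⟩ := curveRed Z hZ c hc g hg
  obtain ⟨ψ, hψ, hψc⟩ := curveOne Z' h1 c h3 h5
  exact ⟨ψ, fun a ha => (hψ a).2 (h2 ha), hψc, fun h => h4 ((hψ g).1 h)⟩

end Pool.Agent.MLD.Cox
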