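import Pool.Agent.Lib.MP_f23696_ag.Y.KrullS

/-!
Project COX, module CurveRed: reduction of the curve selection to dimension one.

Statement: `Z` a prime ideal of `MvPolynomial σ k`, `c` a `k`-point of `V(Z)`, `g ∉ Z`.  Then there
is a prime `Z' ≥ Z` with `c` in `V(Z')`, `g ∉ Z'`, whose quotient has transcendence degree at most
one (`¬ TD Z' 2`).

Proof.  Among the primes `Z'` with `Z ≤ Z' ≤ ker c`, `g ∉ Z'` choose a maximal one (the ring is
Noetherian).  Suppose `TD Z' 2`.  Let `𝔪 = ker c` (a maximal ideal; the quotient is `k`, so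
`¬ TD 𝔪 1`: for `t : Fin 1 → MvPolynomial σ k` the polynomial `F = X 0 - C (c (t 0))` is nonzero and
`aeval t F = t 0 - C (c (t 0)) ∈ 𝔪`).  If `g ∉ 𝔪`: apply `krull1` (with `n = 1`) to `Z' ≤ 𝔪` and any
`y ∈ 𝔪`, `y ∉ Z'` (exists because `Z' ≠ 𝔪`, as `TD Z' 2` and not `TD 𝔪 1`): a prime `Z''` with
`Z' ≤ Z'' ≤ 𝔪`, `y ∈ Z''`, and `g ∉ Z''`, contradicting the maximality.  Let `g ∈ 𝔪`.  Work in the
domain `R = MvPolynomial σ k ⧸ Z'`, `g'` and `𝔪'` the images, `g' ≠ 0`.  There are finitely many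
minimal primes over `(g')` (`Ideal.finite_minimalPrimes_of_isNoetherianRing`).  None of those
contained in `𝔪'` is equal to `𝔪'`: otherwise `krull1` (`I = Z'`, `P = 𝔪`, `n = 1`) gives a prime
`Z''` with `Z' ≤ Z'' ≤ 𝔪`, `g ∈ Z''`, `TD Z'' 1`; minimality of `𝔪'` over `(g')` gives `Z'' = 𝔪`,
contradiction to `¬ TD 𝔪 1`.  By prime avoidance there is `y ∈ 𝔪'` outside all minimal primes over
`(g')` contained in `𝔪'` (if there are none, any nonzero `y ∈ 𝔪'`; the zero ideal may be added to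
the list to get `y ≠ 0`).  Let `Q` be a minimal prime over `(y)` with `Q ≤ 𝔪'`; `Q` has height at
most one (Krull) and `Q ≠ ⊥`.  If `g' ∈ Q`, let `Q₁ ≤ Q` be a minimal prime over `(g')`; `Q₁ ≠ ⊥`,
so `Q₁ = Q` as `Q.height ≤ 1`; but `y ∈ Q`, `y ∉ Q₁`, absurd.  So the preimage of `Q` is a prime
strictly larger than `Z'` (as `y ≠ 0`), contained in `𝔪` and not containing `g`: contradiction to
the maximality of `Z'`.
-/

set_option autoImplicit false

namespace Pool.Agent.MLD.Cox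

open MvPolynomial

universe u v w

private theorem CurveRed_ker {k : Type u} [Field k] {σ : Type w}
    (c : MvPolynomial σ k →ₐ[k] k) : ¬ TD (RingHom.ker c) 1 := by
  rintro ⟨t, ht⟩
  have hF : (X 0 - C (c (t 0)) : MvPolynomial (Fin 1) k) ≠ 0 := by
    intro h0
    have h1 := congrArg (eval fun _ => c (t 0) + 1) h0
    simp at h1
  refine ht _ hF ?_
  rw [RingHom.mem_ker, map_sub, aeval_X, aeval_C, map_sub]
  change c (t 0) - c (algebraMap k (MvPolynomial σ k) (c (t 0))) = 0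
  rw [AlgHom.commutes]
  exact sub_self _

/-- in a Noetherian domain: a prime of height at most one which contains a nonzero prime -/
private theorem CurveRed_ht {R : Type u} [CommRing R] [IsDomain R] [IsNoetherianRing R]
    {Q Q1 : Ideal R} (hQ : Q.IsPrime) (hQ1 : Q1.IsPrime) (h : Q1 ≤ Q) (h1 : Q1 ≠ ⊥)
    (hh : Q.height ≤ 1) : Q = Q1 := by
  have h2 : 1 ≤ Q1.height := by
    rw [Order.one_le_iff_ne_zero]
    intro h3
    refine h1 ?_
    have h4 := Ideal.mem_minimalPrimes_of_height_le (I := ⊥) (J := Q1) bot_le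
      (by rw [h3]; exact bot_le)
    rw [Ideal.minimalPrimes_eq_subsingleton_self] at h4
    exact h4
  have h3 := Ideal.mem_minimalPrimes_of_height_le (I := Q1) (J := Q) h (hh.trans h2)
  rw [Ideal.minimalPrimes_eq_subsingleton_self] at h3
  exact h3

/-- in a Noetherian domain: let `M` be a prime ideal which contains `g ≠ 0`, not minimal over
`(g)`; then there is a nonzero prime in `M` which does not contain `g` -/
private theorem CurveRed_dom {R : Type u} [CommRing R] [IsDomain R] [IsNoetherianRing R]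
    {M : Ideal R} (hM : M.IsPrime) {g : R} (hg0 : g ≠ 0) (hg : g ∈ M)
    (hmin : M ∉ (Ideal.span {g}).minimalPrimes) :
    ∃ Q : Ideal R, Q.IsPrime ∧ Q ≤ M ∧ Q ≠ ⊥ ∧ g ∉ Q := by
  classical
  have hfin := Ideal.finite_minimalPrimes_of_isNoetherianRing R (Ideal.span {g})
  let s : Finset (Ideal R) := insert ⊥ (hfin.toFinset.filter fun Q => Q ≤ M)
  have hs : ∀ Q ∈ s, Q.IsPrime ∧ ¬ M ≤ Q := by
    intro Q hQ
    rcases Finset.mem_insert.1 hQ with rfl | hQ
    · refine ⟨Ideal.isPrime_bot, fun h => hg0 ?_⟩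
      exact (Submodule.mem_bot R).1 (h hg)
    · obtain ⟨h1, h2⟩ := Finset.mem_filter.1 hQ
      rw [Set.Finite.mem_toFinset] at h1
      exact ⟨h1.1.1, fun h => hmin (le_antisymm h2 h ▸ h1)⟩
  have h1 : ¬ (M : Set R) ⊆ ⋃ i ∈ (s : Set (Ideal R)), ((fun Q : Ideal R => Q) i : Set R) := by
    rw [Ideal.subset_union_prime ⊥ ⊥ fun i hi _ _ => (hs i hi).1]
    rintro ⟨Q, hQ, h⟩
    exact (hs Q hQ).2 h
  obtain ⟨y, hyM, hy⟩ := Set.not_subset.1 h1
  have hys : ∀ Q ∈ s, y ∉ Q := by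
    intro Q hQ hyQ
    exact hy (Set.mem_biUnion (show Q ∈ (s : Set (Ideal R)) from hQ) hyQ)
  have hy0 : y ≠ 0 := by
    intro h0
    refine hys ⊥ (Finset.mem_insert_self _ _) ?_
    rw [h0]
    exact zero_mem _
  obtain ⟨Q, hQ, hQM⟩ := Ideal.exists_minimalPrimes_le (I := Ideal.span {y}) (J := M)
    ((Ideal.span_singleton_le_iff_mem M).2 hyM)
  have hyQ : y ∈ Q := hQ.1.2 (Ideal.mem_span_singleton_self y)
  have hQh : Q.height ≤ 1 := Ideal.height_le_one_of_isPrincipal_of_mem_minimalPrimes _ Q hQ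
  refine ⟨Q, hQ.1.1, hQM, ?_, ?_⟩
  · intro h0
    rw [h0] at hyQ
    exact hy0 ((Submodule.mem_bot R).1 hyQ)
  · intro hgQ
    have hQp : Q.IsPrime := hQ.1.1
    obtain ⟨Q1, hQ1, hQ1Q⟩ := Ideal.exists_minimalPrimes_le (I := Ideal.span {g}) (J := Q)
      ((Ideal.span_singleton_le_iff_mem Q).2 hgQ)
    have hg1 : g ∈ Q1 := hQ1.1.2 (Ideal.mem_span_singleton_self g)
    have h2 : Q1 ≠ ⊥ := by
      intro h0
      rw [h0] at hg1
      exact hg0 ((Submodule.mem_bot R).1 hg1)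
    have h3 := CurveRed_ht hQp hQ1.1.1 hQ1Q h2 hQh
    refine hys Q1 (Finset.mem_insert_of_mem (Finset.mem_filter.2 ⟨?_, hQ1Q.trans hQM⟩)) (h3 ▸ hyQ)
    rw [Set.Finite.mem_toFinset]
    exact hQ1

theorem curveRed {k : Type u} [Field k] {σ : Type w} [Finite σ] (Z : Ideal (MvPolynomial σ k))
    (hZ : Z.IsPrime) (c : MvPolynomial σ k →ₐ[k] k) (hc : ∀ a ∈ Z, c a = 0)
    (g : MvPolynomial σ k) (hg : g ∉ Z) :
    ∃ Z' : Ideal (MvPolynomial σ k), Z'.IsPrime ∧ Z ≤ Z' ∧ (∀ a ∈ Z', c a = 0) ∧ g ∉ Z' ∧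
      ¬ TD Z' 2 := by
  classical
  have hN : IsNoetherianRing (MvPolynomial σ k) := inferInstance
  have hmp : (RingHom.ker c).IsPrime := RingHom.ker_isPrime c
  have hnt := CurveRed_ker c
  obtain ⟨Z', ⟨h1, h2, h3, h4⟩, hmax⟩ := WellFounded.has_min
    (wellFounded_gt (α := Ideal (MvPolynomial σ k)))
    {Z' : Ideal (MvPolynomial σ k) | Z'.IsPrime ∧ Z ≤ Z' ∧ Z' ≤ RingHom.ker c ∧ g ∉ Z'}
    ⟨Z, hZ, le_rfl, fun a ha => hc a ha, hg⟩
  have hmax' : ∀ Z'' : Ideal (MvPolynomial σ k), Z''.IsPrime → Z' ≤ Z'' →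
      Z'' ≤ RingHom.ker c → g ∉ Z'' → ¬ Z' < Z'' := fun Z'' a1 a2 a3 a4 a5 =>
    hmax Z'' ⟨a1, h2.trans a2, a3, a4⟩ a5
  refine ⟨Z', h1, h2, fun a ha => h3 ha, h4, fun htd => ?_⟩
  have htd1 : TD Z' (1 + 1) := htd
  have hne : Z' ≠ RingHom.ker c := by
    intro h5
    exact hnt (h5 ▸ htd.mono (by norm_num))
  by_cases hgm : g ∈ RingHom.ker c
  · -- the domain `R`
    have hker : RingHom.ker (Ideal.Quotient.mk Z') ≤ RingHom.ker c := by
      rw [Ideal.mk_ker]
      exact h3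
    have hsurj : Function.Surjective (Ideal.Quotient.mk Z') := Ideal.Quotient.mk_surjective
    have hM : ((RingHom.ker c).map (Ideal.Quotient.mk Z')).IsPrime :=
      Ideal.map_isPrime_of_surjective hsurj hker
    have hcm : ((RingHom.ker c).map (Ideal.Quotient.mk Z')).comap (Ideal.Quotient.mk Z') =
        RingHom.ker c := Ideal.comap_map_mk h3
    have hg0 : Ideal.Quotient.mk Z' g ≠ 0 := fun h => h4 (Ideal.Quotient.eq_zero_iff_mem.1 h)
    have hmin : (RingHom.ker c).map (Ideal.Quotient.mk Z') ∉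
        (Ideal.span {Ideal.Quotient.mk Z' g}).minimalPrimes := by
      intro h5
      obtain ⟨Z'', b1, b2, b3, b4, b5⟩ := krull1 Z' (RingHom.ker c) h1 hmp h3 g hgm 1 htd1
      have h6 : (Z''.map (Ideal.Quotient.mk Z')).IsPrime :=
        Ideal.map_isPrime_of_surjective hsurj (by rw [Ideal.mk_ker]; exact b2)
      have h7 : (RingHom.ker c).map (Ideal.Quotient.mk Z') ≤ Z''.map (Ideal.Quotient.mk Z') := by
        refine h5.2 ⟨h6, ?_⟩ (Ideal.map_mono b3)
        exact (Ideal.span_singleton_le_iff_mem _).2 (Ideal.mem_map_of_mem _ b4)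
      have h8 : RingHom.ker c ≤ Z'' := by
        have h9 := Ideal.comap_mono (f := Ideal.Quotient.mk Z') h7
        rw [hcm, Ideal.comap_map_mk b2] at h9
        exact h9
      exact hnt (b5.anti h8)
    obtain ⟨Q, q1, q2, q3, q4⟩ := CurveRed_dom hM hg0 (Ideal.mem_map_of_mem _ hgm) hmin
    have h5 : Z' ≤ Q.comap (Ideal.Quotient.mk Z') := by
      intro a ha
      rw [Ideal.mem_comap, Ideal.Quotient.eq_zero_iff_mem.2 ha]
      exact zero_mem _
    refine hmax' (Q.comap (Ideal.Quotient.mk Z')) (Ideal.comap_isPrime _ _) h5 ?_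
      (fun h => q4 h) (lt_of_le_of_ne h5 fun h6 => q3 ?_)
    · have h9 := Ideal.comap_mono (f := Ideal.Quotient.mk Z') q2
      rw [hcm] at h9
      exact h9
    · rw [eq_bot_iff]
      intro r hr
      obtain ⟨a, rfl⟩ := hsurj r
      have h7 : a ∈ Q.comap (Ideal.Quotient.mk Z') := hr
      rw [← h6] at h7
      rw [Ideal.Quotient.eq_zero_iff_mem.2 h7]
      exact zero_mem _
  · obtain ⟨y, hy, hyZ⟩ := SetLike.exists_of_lt (lt_of_le_of_ne h3 hne)
    obtain ⟨Z'', b1, b2, b3, b4, b5⟩ := krull1 Z' (RingHom.ker c) h1 hmp h3 y hy 1 htd1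
    refine hmax' Z'' b1 b2 b3 (fun h => hgm (b3 h)) (lt_of_le_of_ne b2 fun h6 => hyZ ?_)
    rw [h6]
    exact b4

end Pool.Agent.MLD.Cox
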