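import Pool.Agent.Lib.MP_f23696_ag.Defs

/-!
Internal vocabulary of project COX (MP_f23696_ag): lower semicontinuity for quotients of graded
complete intersections.  Twisted evaluation of polynomials on power series, jets.
-/

set_option autoImplicit false

namespace Pool.Agent.MLD.Cox

open MvPolynomial
open scoped PowerSeries

universe u v w

/-- there are `n` polynomials which are algebraically independent modulo the ideal `I` -/
def TD {k : Type u} [Field k] {σ : Type w} (I : Ideal (MvPolynomial σ k)) (n : ℕ) : Prop :=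
  ∃ t : Fin n → MvPolynomial σ k, ∀ F : MvPolynomial (Fin n) k, F ≠ 0 → aeval t F ∉ I

/-- the `κ`-space of the vectors `(d (w i))`, `d` a derivation of `κ/k` -/
def DV {k : Type u} {κ : Type v} [Field k] [Field κ] [Algebra k κ] {ι : Type w} (w : ι → κ) :
    Submodule κ (ι → κ) :=
  Submodule.span κ {z | ∃ d : Derivation k κ κ, ∀ i, z i = d (w i)}

section Twist

variable {σ : Type w} [Fintype σ]

/-- the weight `∑ d_i r_i` of a monomial -/
def wt (r : σ → ℤ) (d : σ →₀ ℕ) : ℤ := ∑ i, (d i : ℤ) * r i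

/-- all monomials of `G` have weight at least `β` -/
def Low {k : Type u} [CommRing k] (r : σ → ℤ) (β : ℤ) (G : MvPolynomial σ k) : Prop :=
  ∀ d ∈ G.support, β ≤ wt r d

/-- the twisted polynomial `t^(-β) G(t^r Y) = ∑ coeff_d(G) t^(wt r d - β) Y^d` -/
noncomputable def tp {k : Type u} [CommRing k] (r : σ → ℤ) (β : ℤ) (G : MvPolynomial σ k) :
    MvPolynomial σ k⟦X⟧ :=
  ∑ d ∈ G.support, monomial d
    (PowerSeries.C (coeff d G) * (PowerSeries.X : k⟦X⟧) ^ (wt r d - β).toNat)

/-- the twisted polynomial `t^(-β) G(t^r Y)` evaluated at the series `y` -/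
noncomputable def tev {k : Type u} {R : Type v} [CommRing k] [CommRing R] [Algebra k R]
    (r : σ → ℤ) (β : ℤ) (G : MvPolynomial σ k) (y : σ → R⟦X⟧) : R⟦X⟧ :=
  eval₂ (PowerSeries.map (algebraMap k R)) y (tp r β G)

end Twist

/-- the ring of the `N`-jets with coordinates indexed by `σ` -/
abbrev Jet (σ : Type w) (N : ℕ) (k : Type u) [CommRing k] := MvPolynomial (σ × Fin (N + 1)) k

/-- the universal `N`-jet `Y_i(t) = ∑ Y_(i,l) t^l` -/
noncomputable def uJ (σ : Type w) (N : ℕ) (k : Type u) [CommRing k] (i : σ) : (Jet σ N k)⟦X⟧ :=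
  PowerSeries.mk fun l => if h : l < N + 1 then (X (i, ⟨l, h⟩) : Jet σ N k) else 0

/-- the coefficient of `t^l` of `t^(-β) G(t^r Y(t))` -/
noncomputable def coJ {σ : Type w} [Fintype σ] (N : ℕ) {k : Type u} [CommRing k] (r : σ → ℤ)
    (β : ℤ) (G : MvPolynomial σ k) (l : ℕ) : Jet σ N k :=
  PowerSeries.coeff l (tev r β G (uJ σ N k))

/-- the evaluation of polynomials in the coordinates of jets at the jet of a series -/
noncomputable def evJ {σ : Type w} (N : ℕ) {k : Type u} {R : Type v} [CommRing k] [CommRing R]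
    [Algebra k R] (y : σ → R⟦X⟧) : Jet σ N k →ₐ[k] R :=
  aeval fun p => PowerSeries.coeff (p.2 : ℕ) (y p.1)

/-- a derivation acting on the coefficients of a series -/
noncomputable def cder {k : Type u} {R : Type v} [CommRing k] [CommRing R] [Algebra k R]
    (d : Derivation k R R) (f : R⟦X⟧) : R⟦X⟧ :=
  PowerSeries.mk fun n => d (PowerSeries.coeff n f)

/-- the polynomial `∑ z_l t^l` (`l ≤ N`) as a series -/
noncomputable def trS {κ : Type v} [CommRing κ] {N : ℕ} (z : Fin (N + 1) → κ) : κ⟦X⟧ :=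
  PowerSeries.mk fun l => if h : l < N + 1 then z ⟨l, h⟩ else 0

end Pool.Agent.MLD.Cox
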