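import Pool.Agent.Lib.MP_f23696_ag.Y.TwA

/-!
Project COX, module TwC: weighted homogeneity of the coefficients of twisted polynomials.

`scJ` sends the coordinate `Y_(i,l)` to `y_(i,l) λ^(n i + M l)`, `y_(i,l) = coeff l (y i)`, `λ` the
variable of `F[X]`.

`scJ_coJ`.  Proof: `coJ N r β G l` is by `tev_eq` (for `uJ`) the sum over the monomials `d` of `G`
with `l(d) = (wt r d - β).toNat ≤ l` of `coeff d G` times the coefficient of `t^(l - l(d))` of
`∏ (Y_i(t))^(d i)`, which is a sum of products of coordinates `Y_(i,l')` (`d i` factors with index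
`i`, sum of the `l'` equal to `l - l(d)`).  Under `scJ` such a product is multiplied by `λ` to the
power `∑ d_i n_i + M (l - l(d)) = M l + B` (as `∑ d_i n_i = M (wt r d - β) + B` and
`wt r d - β = l(d)`), in particular `M l + B ≥ 0` if there is such a term.
Cleaner: in the ring `F[λ, λ⁻¹]` or directly: consider the series
`ỹ_i(t) = ∑_l y_(i,l) λ^(n i + M l) t^l` in `F[X]⟦X⟧`, `ỹ_i = λ^(n i) * rescale (λ^M) (y i)`
(`PowerSeries.rescale`); `scJ` is `evJ N ỹ`, so by `evJ_coJ` the left side is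
`coeff l (tev r β G ỹ)`, and by `tev_eq`, with `y` mapped to `F[X]⟦X⟧` by `C`,
`tev r β G ỹ = ∑_d C(coeff d G) X^(l(d)) λ^(∑ d_i n_i) rescale (λ^M) (∏ y_i^(d i))`, and
`X^(l(d)) rescale (λ^M) f` has coefficient `λ^(M (l - l(d))) coeff (l - l(d)) f` at `t^l`.

`scJ_zero`: evaluate at `λ = 0` (`Polynomial.eval 0`): the coordinate `Y_(i,l)` goes to `0` unless
`n i = 0` and `l = 0` (here `M ≥ 1`), and then to `coeff 0 (y i)`.

`scJ_one`: evaluate at `λ = 1`.
-/

set_option autoImplicit false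

namespace Pool.Agent.MLD.Cox

open MvPolynomial
open scoped PowerSeries

universe u v w

variable {σ : Type w} {k : Type u} {F : Type v} [CommRing k] [CommRing F] [Algebra k F]

/-- the scaled jet -/
noncomputable def scJ (N : ℕ) (n : σ → ℕ) (M : ℕ) (y : σ → F⟦X⟧) :
    Jet σ N k →ₐ[k] Polynomial F :=
  aeval fun p => Polynomial.C (PowerSeries.coeff (p.2 : ℕ) (y p.1)) *
    (Polynomial.X : Polynomial F) ^ (n p.1 + M * (p.2 : ℕ))

/-- the restriction of functions of jets to the constant jets -/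
noncomputable def resJ (σ : Type w) (N : ℕ) (k : Type u) [CommRing k] :
    Jet σ N k →ₐ[k] MvPolynomial σ k :=
  aeval fun p => if (p.2 : ℕ) = 0 then X p.1 else 0

/-- the scaled series -/
private noncomputable def ysc (n : σ → ℕ) (M : ℕ) (y : σ → F⟦X⟧) (i : σ) : (Polynomial F)⟦X⟧ :=
  PowerSeries.mk fun l => Polynomial.C (PowerSeries.coeff l (y i)) *
    (Polynomial.X : Polynomial F) ^ (n i + M * l)

private theorem ysc_eq (n : σ → ℕ) (M : ℕ) (y : σ → F⟦X⟧) (i : σ) :
    ysc n M y i = PowerSeries.C ((Polynomial.X : Polynomial F) ^ n i) *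
      PowerSeries.rescale ((Polynomial.X : Polynomial F) ^ M)
        (PowerSeries.map (Polynomial.C : F →+* Polynomial F) (y i)) := by
  ext1 l
  rw [PowerSeries.coeff_C_mul, PowerSeries.coeff_rescale, PowerSeries.coeff_map, ysc,
    PowerSeries.coeff_mk, pow_add, pow_mul]
  ring

private theorem scJ_eq (N : ℕ) (n : σ → ℕ) (M : ℕ) (y : σ → F⟦X⟧) :
    scJ (k := k) N n M y = evJ N (ysc n M y) := by
  refine MvPolynomial.algHom_ext fun p => ?_
  rw [scJ, evJ, aeval_X, aeval_X, ysc, PowerSeries.coeff_mk]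

private theorem ysc_prod [Fintype σ] (n : σ → ℕ) (M : ℕ) (y : σ → F⟦X⟧) (d : σ →₀ ℕ) :
    ∏ i, ysc n M y i ^ d i =
      PowerSeries.C ((Polynomial.X : Polynomial F) ^ (∑ i, d i * n i)) *
      PowerSeries.rescale ((Polynomial.X : Polynomial F) ^ M)
        (PowerSeries.map (Polynomial.C : F →+* Polynomial F) (∏ i, y i ^ d i)) := by
  simp only [ysc_eq, mul_pow, Finset.prod_mul_distrib]
  congr 1
  · rw [← Finset.prod_pow_eq_pow_sum, map_prod]
    refine Finset.prod_congr rfl fun i _ => ?_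
    rw [← map_pow, ← pow_mul, mul_comm]
  · rw [map_prod, map_prod]
    refine Finset.prod_congr rfl fun i _ => ?_
    rw [map_pow, map_pow]

theorem scJ_coJ [Fintype σ] (N : ℕ) (n : σ → ℕ) (M : ℕ) (y : σ → F⟦X⟧) (r : σ → ℤ) (β : ℤ)
    (G : MvPolynomial σ k) (hG : Low r β G) (B : ℤ)
    (hB : ∀ d ∈ G.support, (∑ i, (d i : ℤ) * n i) = M * (wt r d - β) + B) (l : ℕ) (hl : l ≤ N) :
    scJ N n M y (coJ N r β G l) = Polynomial.C (PowerSeries.coeff l (tev r β G y)) *
      (Polynomial.X : Polynomial F) ^ (M * l + B).toNat := by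
  rw [scJ_eq, evJ_coJ N r β G _ l hl, tev_eq, tev_eq, map_sum, map_sum, map_sum,
    Finset.sum_mul]
  refine Finset.sum_congr rfl fun d hd => ?_
  rw [ysc_prod, mul_assoc, mul_assoc, PowerSeries.coeff_C_mul, PowerSeries.coeff_C_mul,
    PowerSeries.coeff_X_pow_mul', PowerSeries.coeff_X_pow_mul']
  split_ifs with hm
  · rw [PowerSeries.coeff_C_mul, PowerSeries.coeff_rescale, PowerSeries.coeff_map,
      Polynomial.algebraMap_apply, map_mul]
    have h1 := hB d hd
    have h2 := hG d hd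
    have h3 : ((wt r d - β).toNat : ℤ) = wt r d - β := Int.toNat_of_nonneg (by omega)
    have h4 : (∑ i, d i * n i) + M * (l - (wt r d - β).toNat) = (M * l + B).toNat := by
      have h5 : (((∑ i, d i * n i) + M * (l - (wt r d - β).toNat) : ℕ) : ℤ) = M * l + B := by
        push_cast [Nat.cast_sub hm]
        rw [h1, h3]
        ring
      omega
    rw [← h4, pow_add, pow_mul]
    ring
  · simp

open Classical in
theorem scJ_zero (N : ℕ) (n : σ → ℕ) (M : ℕ) (hM : 1 ≤ M) (y : σ → F⟦X⟧) (P : Jet σ N k)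
    (hP : scJ N n M y P = 0) :
    aeval (fun i => if n i = 0 then PowerSeries.constantCoeff (y i) else (0 : F))
      (resJ σ N k P) = 0 := by
  let φ : Polynomial F →ₐ[k] F := (Polynomial.aeval (R := F) (0 : F)).restrictScalars k
  have h : (aeval (fun i => if n i = 0 then PowerSeries.constantCoeff (y i) else (0 : F))).comp
      (resJ σ N k) = φ.comp (scJ N n M y) := by
    refine MvPolynomial.algHom_ext fun p => ?_
    rw [AlgHom.comp_apply, AlgHom.comp_apply, resJ, scJ, aeval_X, aeval_X]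
    have h0 : φ (Polynomial.C (PowerSeries.coeff (p.2 : ℕ) (y p.1)) *
        (Polynomial.X : Polynomial F) ^ (n p.1 + M * (p.2 : ℕ))) =
        PowerSeries.coeff (p.2 : ℕ) (y p.1) * 0 ^ (n p.1 + M * (p.2 : ℕ)) := by
      change Polynomial.aeval (0 : F) _ = _
      rw [map_mul, map_pow, Polynomial.aeval_X, Polynomial.aeval_C, Algebra.algebraMap_self_apply]
    rw [h0]
    by_cases h2 : (p.2 : ℕ) = 0
    · rw [if_pos h2, aeval_X, h2]
      by_cases h3 : n p.1 = 0
      · rw [if_pos h3, h3]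
        simp
      · rw [if_neg h3, mul_zero, add_zero, zero_pow h3, mul_zero]
    · rw [if_neg h2, map_zero]
      have h3 : n p.1 + M * (p.2 : ℕ) ≠ 0 := by
        have : 0 < M * (p.2 : ℕ) := Nat.mul_pos (by omega) (Nat.pos_of_ne_zero h2)
        omega
      rw [zero_pow h3, mul_zero]
  have h1 := DFunLike.congr_fun h P
  rw [AlgHom.comp_apply, AlgHom.comp_apply, hP, map_zero] at h1
  exact h1

theorem scJ_one (N : ℕ) (n : σ → ℕ) (M : ℕ) (y : σ → F⟦X⟧) (P : Jet σ N k)
    (hP : scJ N n M y P = 0) : evJ N y P = 0 := by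
  let φ : Polynomial F →ₐ[k] F := (Polynomial.aeval (R := F) (1 : F)).restrictScalars k
  have h : evJ N y = φ.comp (scJ (k := k) N n M y) := by
    refine MvPolynomial.algHom_ext fun p => ?_
    rw [AlgHom.comp_apply, scJ, evJ, aeval_X, aeval_X]
    change _ = Polynomial.aeval (1 : F) _
    rw [map_mul, map_pow, Polynomial.aeval_X, Polynomial.aeval_C, one_pow, mul_one,
      Algebra.algebraMap_self_apply]
  rw [h, AlgHom.comp_apply, hP, map_zero]

end Pool.Agent.MLD.Cox
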