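import Pool.Agent.Lib.MP_f23696_ag.Y.TwA

/-!
Project COX, module TwD: the substitution `τ = t^b`, `T = t^a`, and the shift of twisted
polynomials.

`subst2`.  `k⟦X⟧⟦X⟧` are the series in `T` (outer variable) with coefficients series in `τ`.  For
`a, b ≥ 1` put `coeff n (S f) = ∑ coeff s (coeff l f)` over the finitely many pairs `(l, s)` with
`a l + b s = n`.  This is a ring homomorphism (Cauchy product) with `S (C g) = g(t^b)`,
`S X = X^a`.  (Alternatively use `PowerSeries.subst` / `PowerSeries.evalNegHom`-like maps from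
Mathlib.)  We record: `S (C (C c)) = C c`, `S X = X^a`, and for `g ≠ 0` of order `ν`
(`coeff i g = 0` for `i < ν`, `coeff ν g ≠ 0`) the series `S (C g)` has order `b ν`; also
`constantCoeff (S f) = constantCoeff (constantCoeff f)` and, modulo `X^s`, `s ≤ a`, `s ≤ b`,
`S f ≡ C (constantCoeff (constantCoeff f))`.

`order_subst`: write `f = X^e * (C g + X * f')` (coefficients below `e` vanish, the coefficient at
`e` is `g`), so `S f = X^(a e) * (S (C g) + X^a * S f')`; `S (C g)` has order exactly `b ν < a`.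

`tev_subst`: apply the ring homomorphism `S` to `tev_eq` over `R = k⟦X⟧`;
`S (C (algebraMap k k⟦X⟧ c) * X^n) = C c * X^(a n)` and
`(a * wt r d - a * β).toNat = a * (wt r d - β).toNat`,
`wt (a r) d = a wt r d`.  (The equality `coeff d G = 0 → ..` does not matter, the support is the
same.)

`tev_shift`: by `tev_eq`, for a monomial `d` of `G` with `l(d) = wt r d - β ≥ 0`:
`X^(a' s) X^(l(d)) ∏ (X^(a' n_i) y_i)^(d i) = X^(a' s + l(d) + a' ∑ d_i n_i) ∏ y_i^(d i)` and
`a' s + l(d) + a' (M l(d) + B) = (1 + M a') l(d) + a' (B + s)`.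
-/

set_option autoImplicit false

namespace Pool.Agent.MLD.Cox

open MvPolynomial
open scoped PowerSeries

universe u v w

variable {k : Type u} [Field k]

/-- `S` is the substitution `τ = t^b`, `T = t^a` -/
structure IsSubst2 (a b : ℕ) (S : k⟦X⟧⟦X⟧ →+* k⟦X⟧) : Prop where
  C_C : ∀ c, S (PowerSeries.C (PowerSeries.C c)) = PowerSeries.C c
  map_X : S PowerSeries.X = PowerSeries.X ^ a
  low : ∀ (g : k⟦X⟧) (ν : ℕ), (∀ i < ν, PowerSeries.coeff i g = 0) → PowerSeries.coeff ν g ≠ 0 →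
    (∀ i < b * ν, PowerSeries.coeff i (S (PowerSeries.C g)) = 0) ∧
      PowerSeries.coeff (b * ν) (S (PowerSeries.C g)) ≠ 0
  const : ∀ (f : k⟦X⟧⟦X⟧) (s : ℕ), s ≤ a → s ≤ b → (PowerSeries.X : k⟦X⟧) ^ s ∣
    S f - PowerSeries.C (PowerSeries.constantCoeff (PowerSeries.constantCoeff f))

/-- the partial sums of the substitution -/
private noncomputable def TwDT (φ : k⟦X⟧ →+* k⟦X⟧) (a N : ℕ) (f : k⟦X⟧⟦X⟧) : k⟦X⟧ :=
  ∑ i ∈ Finset.range N, φ (PowerSeries.coeff i f) * (PowerSeries.X ^ a) ^ i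

private theorem TwD_coeff_term (g : k⟦X⟧) (a i n : ℕ) (h : n < a * i) :
    PowerSeries.coeff n (g * ((PowerSeries.X : k⟦X⟧) ^ a) ^ i) = 0 := by
  rw [← pow_mul, PowerSeries.coeff_mul_X_pow', if_neg (by omega)]

private theorem TwD_stab (φ : k⟦X⟧ →+* k⟦X⟧) (a : ℕ) (ha : 1 ≤ a) (f : k⟦X⟧⟦X⟧) (n N : ℕ)
    (h : n < N) : PowerSeries.coeff n (TwDT φ a N f) =
      PowerSeries.coeff n (TwDT φ a (n + 1) f) := by
  unfold TwDT
  rw [map_sum, map_sum]
  symm
  apply Finset.sum_subset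
  · intro i hi
    rw [Finset.mem_range] at hi ⊢
    omega
  · intro i hi hi'
    rw [Finset.mem_range] at hi hi'
    apply TwD_coeff_term _ _ _ _
    have h1 : n < i := by omega
    calc n < i := h1
      _ = 1 * i := (one_mul i).symm
      _ ≤ a * i := Nat.mul_le_mul_right i ha

private theorem TwD_eval_eq (φ : k⟦X⟧ →+* k⟦X⟧) (a N : ℕ) (f : k⟦X⟧⟦X⟧) :
    TwDT φ a N f =
      Polynomial.eval₂ φ ((PowerSeries.X : k⟦X⟧) ^ a) (PowerSeries.trunc N f) := by
  rw [PowerSeries.eval₂_trunc_eq_sum_range]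
  rfl

private theorem TwD_high (φ : k⟦X⟧ →+* k⟦X⟧) (a : ℕ) (ha : 1 ≤ a) (P : Polynomial k⟦X⟧) (N : ℕ)
    (hP : ∀ i < N, P.coeff i = 0) (n : ℕ) (hn : n < N) :
    PowerSeries.coeff n (Polynomial.eval₂ φ ((PowerSeries.X : k⟦X⟧) ^ a) P) = 0 := by
  rw [Polynomial.eval₂_eq_sum_range, map_sum]
  apply Finset.sum_eq_zero
  intro i _
  rcases lt_or_ge i N with h | h
  · rw [hP i h, map_zero, zero_mul, map_zero]
  · apply TwD_coeff_term _ _ _ _
    calc n < i := lt_of_lt_of_le hn h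
      _ = 1 * i := (one_mul i).symm
      _ ≤ a * i := Nat.mul_le_mul_right i ha

private theorem TwD_mulT (φ : k⟦X⟧ →+* k⟦X⟧) (a : ℕ) (ha : 1 ≤ a) (f g : k⟦X⟧⟦X⟧) (n N : ℕ)
    (hn : n < N) : PowerSeries.coeff n (TwDT φ a N (f * g)) =
      PowerSeries.coeff n (TwDT φ a N f * TwDT φ a N g) := by
  rw [TwD_eval_eq, TwD_eval_eq, TwD_eval_eq, ← Polynomial.eval₂_mul]
  rw [← sub_eq_zero, ← map_sub, ← Polynomial.eval₂_sub]
  apply TwD_high φ a ha _ N _ n hn
  intro i hi
  rw [Polynomial.coeff_sub, PowerSeries.coeff_trunc, if_pos hi, Polynomial.coeff_mul,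
    PowerSeries.coeff_mul, sub_eq_zero]
  apply Finset.sum_congr rfl
  intro p hp
  replace hp := Finset.HasAntidiagonal.mem_antidiagonal.1 hp
  rw [PowerSeries.coeff_trunc, if_pos (by omega), PowerSeries.coeff_trunc, if_pos (by omega)]

/-- the substitution -/
private noncomputable def TwDS (φ : k⟦X⟧ →+* k⟦X⟧) (a : ℕ) (ha : 1 ≤ a) : k⟦X⟧⟦X⟧ →+* k⟦X⟧ where
  toFun f := PowerSeries.mk fun n => PowerSeries.coeff n (TwDT φ a (n + 1) f)
  map_one' := by
    ext n
    rw [PowerSeries.coeff_mk]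
    congr 1
    unfold TwDT
    rw [Finset.sum_eq_single 0]
    · simp
    · intro i _ hi
      rw [PowerSeries.coeff_one, if_neg hi, map_zero, zero_mul]
    · intro h
      exact absurd (Finset.mem_range.2 (Nat.succ_pos n)) h
  map_zero' := by
    ext n
    rw [PowerSeries.coeff_mk]
    simp [TwDT]
  map_add' f g := by
    ext n
    rw [map_add, PowerSeries.coeff_mk, PowerSeries.coeff_mk, PowerSeries.coeff_mk, ← map_add]
    congr 1
    unfold TwDT
    rw [← Finset.sum_add_distrib]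
    apply Finset.sum_congr rfl
    intro i _
    rw [map_add, map_add, add_mul]
  map_mul' f g := by
    ext n
    rw [PowerSeries.coeff_mul, PowerSeries.coeff_mk, TwD_mulT φ a ha f g n (n + 1) (by omega),
      PowerSeries.coeff_mul]
    apply Finset.sum_congr rfl
    intro p hp
    replace hp := Finset.HasAntidiagonal.mem_antidiagonal.1 hp
    rw [PowerSeries.coeff_mk, PowerSeries.coeff_mk, TwD_stab φ a ha f p.1 (n + 1) (by omega),
      TwD_stab φ a ha g p.2 (n + 1) (by omega)]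

private theorem TwDS_coeff (φ : k⟦X⟧ →+* k⟦X⟧) (a : ℕ) (ha : 1 ≤ a) (f : k⟦X⟧⟦X⟧) (n N : ℕ)
    (h : n < N) : PowerSeries.coeff n (TwDS φ a ha f) =
      PowerSeries.coeff n (TwDT φ a N f) := by
  rw [TwD_stab φ a ha f n N h]
  exact PowerSeries.coeff_mk (R := k) n fun n => PowerSeries.coeff n (TwDT φ a (n + 1) f)

private theorem TwDS_C (φ : k⟦X⟧ →+* k⟦X⟧) (a : ℕ) (ha : 1 ≤ a) (g : k⟦X⟧) :
    TwDS φ a ha (PowerSeries.C g) = φ g := by
  ext n
  rw [TwDS_coeff φ a ha _ n (n + 1) (by omega)]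
  congr 1
  unfold TwDT
  rw [Finset.sum_eq_single 0]
  · simp
  · intro i _ hi
    rw [PowerSeries.coeff_C, if_neg hi, map_zero, zero_mul]
  · intro h
    exact absurd (Finset.mem_range.2 (Nat.succ_pos n)) h

theorem subst2 (a b : ℕ) (ha : 1 ≤ a) (hb : 1 ≤ b) :
    ∃ S : k⟦X⟧⟦X⟧ →+* k⟦X⟧, IsSubst2 a b S := by
  have hb0 : b ≠ 0 := by omega
  refine ⟨TwDS ((PowerSeries.expand b hb0 : k⟦X⟧ →ₐ[k] k⟦X⟧) : k⟦X⟧ →+* k⟦X⟧) a ha, ?_, ?_, ?_, ?_⟩
  · intro c
    rw [TwDS_C]
    exact PowerSeries.expand_C b hb0 c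
  · ext n
    rw [TwDS_coeff _ a ha _ n (n + 2) (by omega)]
    congr 1
    unfold TwDT
    rw [Finset.sum_eq_single 1]
    · simp
    · intro i _ hi
      rw [PowerSeries.coeff_X, if_neg hi, map_zero, zero_mul]
    · intro h
      exact absurd (Finset.mem_range.2 (by omega)) h
  · intro g ν h1 h2
    rw [TwDS_C]
    constructor
    · intro i hi
      change PowerSeries.coeff i (PowerSeries.expand b hb0 g) = 0
      rw [PowerSeries.coeff_expand]
      split_ifs with hd
      · obtain ⟨q, rfl⟩ := hd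
        rw [Nat.mul_div_cancel_left _ hb]
        exact h1 q (lt_of_mul_lt_mul_left hi (Nat.zero_le b))
      · rfl
    · change PowerSeries.coeff (b * ν) (PowerSeries.expand b hb0 g) ≠ 0
      rw [PowerSeries.coeff_expand_mul]
      exact h2
  · intro f s hsa hsb
    rw [PowerSeries.X_pow_dvd_iff]
    intro n hn
    rw [map_sub, TwDS_coeff _ a ha _ n (n + 1) (by omega), sub_eq_zero]
    unfold TwDT
    rw [map_sum, Finset.sum_eq_single 0]
    · rw [pow_zero, mul_one]
      change PowerSeries.coeff n (PowerSeries.expand b hb0 (PowerSeries.coeff 0 f)) = _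
      rw [PowerSeries.coeff_expand, PowerSeries.coeff_C]
      by_cases h0 : n = 0
      · subst h0
        simp
      · rw [if_neg h0, if_neg]
        intro hd
        exact absurd (Nat.le_of_dvd (Nat.pos_of_ne_zero h0) hd) (by omega)
    · intro i _ hi
      apply TwD_coeff_term _ _ _ _
      calc n < a := by omega
        _ = a * 1 := (mul_one a).symm
        _ ≤ a * i := Nat.mul_le_mul_left a (Nat.pos_of_ne_zero hi)
    · intro h
      exact absurd (Finset.mem_range.2 (Nat.succ_pos n)) h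

theorem order_subst {a b : ℕ} {S : k⟦X⟧⟦X⟧ →+* k⟦X⟧} (hS : IsSubst2 a b S) (f : k⟦X⟧⟦X⟧)
    (e ν : ℕ) (hab : b * ν < a) (hf : ∀ i < e, PowerSeries.coeff i f = 0)
    (hν : ∀ i < ν, PowerSeries.coeff i (PowerSeries.coeff e f) = 0)
    (hν' : PowerSeries.coeff ν (PowerSeries.coeff e f) ≠ 0) :
    (∀ i < a * e + b * ν, PowerSeries.coeff i (S f) = 0) ∧
      PowerSeries.coeff (a * e + b * ν) (S f) ≠ 0 := by
  have hX : (PowerSeries.X : k⟦X⟧⟦X⟧) ^ e ∣ f := by
    rw [PowerSeries.X_pow_dvd_iff]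
    exact hf
  obtain ⟨h, hh⟩ := hX
  have hc : PowerSeries.coeff e f = PowerSeries.coeff 0 h := by
    rw [hh, PowerSeries.coeff_X_pow_mul', if_pos le_rfl, Nat.sub_self]
  have hX2 : (PowerSeries.X : k⟦X⟧⟦X⟧) ∣ h - PowerSeries.C (PowerSeries.coeff e f) := by
    rw [PowerSeries.X_dvd_iff, map_sub, PowerSeries.constantCoeff_C, hc,
      PowerSeries.coeff_zero_eq_constantCoeff_apply, sub_self]
  obtain ⟨f', hf'⟩ := hX2
  have e1 : f = PowerSeries.X ^ e * (PowerSeries.C (PowerSeries.coeff e f) +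
      PowerSeries.X * f') := by
    rw [← hf', add_sub_cancel]
    exact hh
  have e2 : S f = PowerSeries.X ^ (a * e) * (S (PowerSeries.C (PowerSeries.coeff e f)) +
      PowerSeries.X ^ a * S f') := by
    conv_lhs => rw [e1]
    rw [map_mul, map_pow, map_add, map_mul, hS.map_X, pow_mul]
  obtain ⟨l1, l2⟩ := hS.low _ ν hν hν'
  rw [e2]
  constructor
  · intro i hi
    rw [PowerSeries.coeff_X_pow_mul']
    split_ifs with h1
    · rw [map_add, l1 _ (by omega), PowerSeries.coeff_X_pow_mul', if_neg (by omega), add_zero]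
    · rfl
  · rw [PowerSeries.coeff_X_pow_mul', if_pos (Nat.le_add_right _ _), Nat.add_sub_cancel_left,
      map_add, PowerSeries.coeff_X_pow_mul', if_neg (by omega), add_zero]
    exact l2

variable {σ : Type w} [Fintype σ]

theorem tev_subst {a b : ℕ} {S : k⟦X⟧⟦X⟧ →+* k⟦X⟧} (hS : IsSubst2 a b S) (r : σ → ℤ) (β : ℤ)
    (G : MvPolynomial σ k) (y : σ → k⟦X⟧⟦X⟧) :
    S (tev r β G y) = tev (fun i => (a : ℤ) * r i) (a * β) G fun i => S (y i) := by
  have hwt : ∀ d : σ →₀ ℕ, wt (fun i => (a : ℤ) * r i) d = a * wt r d := by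
    intro d
    unfold wt
    rw [Finset.mul_sum]
    apply Finset.sum_congr rfl
    intro i _
    ring
  have hnat : ∀ z : ℤ, ((a : ℤ) * z).toNat = a * z.toNat := by
    intro z
    rcases le_total 0 z with hz | hz
    · obtain ⟨m, rfl⟩ := Int.eq_ofNat_of_zero_le hz
      rw [← Int.natCast_mul, Int.toNat_natCast, Int.toNat_natCast]
    · rw [Int.toNat_of_nonpos hz, mul_zero, Int.toNat_of_nonpos]
      exact mul_nonpos_of_nonneg_of_nonpos (Int.natCast_nonneg a) hz
  rw [tev_eq, tev_eq, map_sum]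
  apply Finset.sum_congr rfl
  intro d _
  rw [map_mul, map_mul, map_pow, map_prod, hS.map_X, hwt, ← mul_sub, hnat, pow_mul]
  congr 1
  · congr 1
    exact hS.C_C _
  · apply Finset.prod_congr rfl
    intro i _
    rw [map_pow]

theorem tev_shift {R : Type v} [CommRing R] [Algebra k R] (r : σ → ℤ) (β : ℤ)
    (G : MvPolynomial σ k) (hG : Low r β G) (n : σ → ℕ) (M a' s : ℕ) (B : ℤ) (hs : 0 ≤ B + s)
    (hB : ∀ d ∈ G.support, (∑ i, (d i : ℤ) * n i) = M * (wt r d - β) + B) (y : σ → R⟦X⟧) :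
    (PowerSeries.X : R⟦X⟧) ^ (a' * s) *
        tev r β G (fun i => (PowerSeries.X : R⟦X⟧) ^ (a' * n i) * y i) =
      (PowerSeries.X : R⟦X⟧) ^ (a' * (B + s).toNat) *
        tev (fun i => ((1 + M * a' : ℕ) : ℤ) * r i) (((1 + M * a' : ℕ) : ℤ) * β) G y := by
  have hwt : ∀ (c : ℤ) (d : σ →₀ ℕ), wt (fun i => c * r i) d = c * wt r d := by
    intro c d
    unfold wt
    rw [Finset.mul_sum]
    apply Finset.sum_congr rfl
    intro i _
    ring
  rw [tev_eq, tev_eq, Finset.mul_sum, Finset.mul_sum]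
  apply Finset.sum_congr rfl
  intro d hd
  have h1 := hG d hd
  have h2 := hB d hd
  obtain ⟨l, hl⟩ := Int.eq_ofNat_of_zero_le (sub_nonneg.2 h1)
  obtain ⟨m, hm⟩ := Int.eq_ofNat_of_zero_le hs
  rw [hwt, ← mul_sub, hl, ← Int.natCast_mul, Int.toNat_natCast, Int.toNat_natCast, hm,
    Int.toNat_natCast]
  have h3 : (∏ i, ((PowerSeries.X : R⟦X⟧) ^ (a' * n i) * y i) ^ d i) =
      PowerSeries.X ^ (a' * ∑ i, d i * n i) * ∏ i, y i ^ d i := by
    simp_rw [mul_pow]
    rw [Finset.prod_mul_distrib]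
    congr 1
    rw [Finset.mul_sum, ← Finset.prod_pow_eq_pow_sum]
    apply Finset.prod_congr rfl
    intro i _
    rw [← pow_mul]
    congr 1
    ring
  rw [h3]
  have h4 : a' * s + l + a' * ∑ i, d i * n i = a' * m + (1 + M * a') * l := by
    have h5 : ((∑ i, d i * n i : ℕ) : ℤ) = M * l + (m - s) := by
      push_cast
      rw [h2, hl]
      have : B = m - s := by
        have h6 : B + s = m := hm
        linarith
      rw [this]
    have h7 : ((a' * s + l + a' * ∑ i, d i * n i : ℕ) : ℤ) =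
        ((a' * m + (1 + M * a') * l : ℕ) : ℤ) := by
      rw [Nat.cast_add, Nat.cast_mul a' (∑ i, d i * n i), h5]
      push_cast
      ring
    exact_mod_cast h7
  calc (PowerSeries.X : R⟦X⟧) ^ (a' * s) * (PowerSeries.C (algebraMap k R (coeff d G)) *
        PowerSeries.X ^ l * (PowerSeries.X ^ (a' * ∑ i, d i * n i) * ∏ i, y i ^ d i))
      = PowerSeries.X ^ (a' * s + l + a' * ∑ i, d i * n i) *
        (PowerSeries.C (algebraMap k R (coeff d G)) * ∏ i, y i ^ d i) := by
        rw [pow_add, pow_add]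
        ring
    _ = PowerSeries.X ^ (a' * m + (1 + M * a') * l) *
        (PowerSeries.C (algebraMap k R (coeff d G)) * ∏ i, y i ^ d i) := by rw [h4]
    _ = PowerSeries.X ^ (a' * m) * (PowerSeries.C (algebraMap k R (coeff d G)) *
        PowerSeries.X ^ ((1 + M * a') * l) * ∏ i, y i ^ d i) := by
        rw [pow_add]
        ring

end Pool.Agent.MLD.Cox
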