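import Pool.Agent.Lib.MP_f23696_ag.Y.TwB
import Pool.Agent.Lib.MP_f23696_ag.Y.TwC
import Pool.Agent.Lib.MP_f23696_ag.Y.TwD
import Pool.Agent.Lib.MP_f23696_ag.Y.Newton
import Pool.Agent.Lib.MP_f23696_ag.Y.Curve

/-!
Project COX, module Delta: a true arc, close to a constant one, with finite Jacobian order.

Write `σ = ρ ⊕ Fin c`, `βJ = ∑ β j - ∑ r (inr a)`.

Proof.  `c = (aeval x₀).comp (resJ σ N₁ k) : Jet σ N₁ k →ₐ[k] k` is a point of `V(Z)`.  By `curve`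
there is `ψ : Jet σ N₁ k →ₐ[k] k⟦X⟧` with `ψ Z = 0`, `constantCoeff ∘ ψ = c` and
`g := ψ (coJ N₁ r βJ (jd f) e) ≠ 0`; let `ν` be the order of `g`.
Put `b = N₀ + 1`, `a' = N₀ + 1 + b ν`, `a = 1 + M a'`; so `b ν < a`, `N₀ + 1 ≤ a, a'`.  Let `S` be
the substitution of `subst2 a b`.
`Y i = PowerSeries.map ψ (uJ σ N₁ k i) ∈ k⟦X⟧⟦X⟧`.  By `tev_map`, `coeff l (tev r (β j) (f j) Y) =
ψ (coJ N₁ r (β j) (f j) l) = 0` for `l ≤ N₁`, so `X^(N₁+1)` divides `tev r (β j) (f j) Y`; and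
`coeff l (tev r βJ (jd f) Y) = ψ (coJ N₁ r βJ (jd f) l)` is `0` for `l < e` and `g` for `l = e`.
Let `y i = S (Y i) ∈ k⟦X⟧`.  By `tev_subst`, with the weights `a r`, `a β j`:
`tev (a r) (a β j) (f j) y = S (tev r (β j) (f j) Y)` is divisible by `X^(a (N₁+1))`, and
`tev (a r) (a βJ) (jd f) y` has order exactly `e' = a e + b ν` (`order_subst`).
Apply `newton` to `F j = map (PowerSeries.map (algebraMap k k)) (tp (a r) (a β j) (f j))` (use
`eval_map_tp`, `eval_map_pderiv`, `tev_det`; `Low (a r) (a β j) (f j)` holds since `a ≥ 0`), with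
`l = a (N₁ + 1)`: `2 e' = 2 a e + 2 b ν < 2 a e + 3 a ≤ l`.  We get `y'` with
`tev (a r) (a β j) (f j) y' = 0` and `X^(l - e') ∣ y' i - y i`, `l - e' > e'`, `l - e' ≥ N₀ + 1`.
By `tev_congr` the coefficient of `X^e'` of `tev (a r) (a βJ) (jd f) y'` is not zero.
Let `δ i = X^(a' n i) * y' i`.  By `tev_shift` (`s = 0`, `B = B j`)
`tev r (β j) (f j) δ = X^(..) * 0 = 0`.  By
`tev_shift` for `jd f` (`B = ∑ B j - ∑ n (inr a)`, `s = ∑ n (inr a)`):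
`X^(..) * tev r βJ (jd f) δ = X^(..) * tev (a r) (a βJ) (jd f) y' ≠ 0`.
Finally `X^(N₀+1) ∣ δ i - C (x₀ i)`: if `n i ≠ 0` then `x₀ i = 0` and `a' n i ≥ N₀ + 1`; if
`n i = 0` then `δ i = y' i`, `y' i ≡ y i = S (Y i) ≡ C (constantCoeff (constantCoeff (Y i)))` and
`constantCoeff (constantCoeff (Y i)) = constantCoeff (ψ (X (i, 0))) = c (X (i, 0)) = x₀ i`
(`IsSubst2.const` with `s = N₀ + 1`; `constantCoeff (uJ σ N k i) = X (i, 0)`).
-/

set_option autoImplicit false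

namespace Pool.Agent.MLD.Cox

open MvPolynomial
open scoped PowerSeries

universe u v w

private theorem Delta_map {σ : Type*} [Fintype σ] {k : Type*} [CommRing k] {R₁ : Type*}
    {R₂ : Type*} [CommRing R₁] [CommRing R₂] [Algebra k R₁] [Algebra k R₂] (φ : R₁ →ₐ[k] R₂)
    (r : σ → ℤ) (β : ℤ) (G : MvPolynomial σ k) (y : σ → R₁⟦X⟧) :
    PowerSeries.map (φ : R₁ →+* R₂) (tev r β G y) =
      tev r β G fun i => PowerSeries.map (φ : R₁ →+* R₂) (y i) := by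
  rw [tev_eq, tev_eq, map_sum]
  refine Finset.sum_congr rfl fun d _ => ?_
  rw [map_mul, map_mul, PowerSeries.map_C, map_pow, PowerSeries.map_X, map_prod]
  have h1 : (φ : R₁ →+* R₂) (algebraMap k R₁ (coeff d G)) = algebraMap k R₂ (coeff d G) :=
    φ.commutes _
  rw [h1]
  congr 1
  refine Finset.prod_congr rfl fun i _ => ?_
  rw [map_pow]

private theorem Delta_wt {σ : Type*} [Fintype σ] (a : ℤ) (r : σ → ℤ) (d : σ →₀ ℕ) :
    wt (fun i => a * r i) d = a * wt r d := by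
  unfold wt
  rw [Finset.mul_sum]
  refine Finset.sum_congr rfl fun i _ => ?_
  ring

private theorem Delta_low {σ : Type*} [Fintype σ] {k : Type*} [CommRing k] (a : ℕ) (r : σ → ℤ)
    (β : ℤ) (G : MvPolynomial σ k) (hG : Low r β G) :
    Low (fun i => (a : ℤ) * r i) ((a : ℤ) * β) G := by
  intro d hd
  rw [Delta_wt]
  exact mul_le_mul_of_nonneg_left (hG d hd) (Int.natCast_nonneg a)

theorem delta {k : Type u} [Field k] [IsAlgClosed k] [CharZero k] {ρ : Type w} [Fintype ρ] {c : ℕ}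
    (f : Fin c → MvPolynomial (ρ ⊕ Fin c) k) (r : ρ ⊕ Fin c → ℤ) (β : Fin c → ℤ)
    (hf : ∀ j, Low r (β j) (f j)) (n : ρ ⊕ Fin c → ℕ) (M : ℕ) (hM : 1 ≤ M) (B : Fin c → ℕ)
    (hB : ∀ j, ∀ d ∈ (f j).support, (∑ i, (d i : ℤ) * n i) = M * (wt r d - β j) + B j)
    (hBJ : ∀ d ∈ (jd f).support, (∑ i, (d i : ℤ) * n i) =
      M * (wt r d - (∑ j, β j - ∑ a, r (Sum.inr a))) +
        ((∑ j, (B j : ℤ)) - ∑ a, (n (Sum.inr a) : ℤ)))
    (N₁ e : ℕ) (hN : 2 * e + 2 ≤ N₁) (Z : Ideal (Jet (ρ ⊕ Fin c) N₁ k)) (hZ : Z.IsPrime)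
    (hZf : ∀ j l, l ≤ N₁ → coJ N₁ r (β j) (f j) l ∈ Z)
    (hZ0 : ∀ l < e, coJ N₁ r (∑ j, β j - ∑ a, r (Sum.inr a)) (jd f) l ∈ Z)
    (hZe : coJ N₁ r (∑ j, β j - ∑ a, r (Sum.inr a)) (jd f) e ∉ Z)
    (x₀ : ρ ⊕ Fin c → k) (hx₀ : ∀ i, n i ≠ 0 → x₀ i = 0)
    (hc : ∀ P ∈ Z, aeval x₀ (resJ (ρ ⊕ Fin c) N₁ k P) = 0) (N₀ : ℕ) :
    ∃ δ : ρ ⊕ Fin c → k⟦X⟧, (∀ j, tev r (β j) (f j) δ = 0) ∧
      tev r (∑ j, β j - ∑ a, r (Sum.inr a)) (jd f) δ ≠ 0 ∧
      ∀ i, (PowerSeries.X : k⟦X⟧) ^ (N₀ + 1) ∣ δ i - PowerSeries.C (x₀ i) := by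
  classical
  obtain ⟨βJ, hβJ⟩ : ∃ βJ : ℤ, βJ = ∑ j, β j - ∑ a, r (Sum.inr a) := ⟨_, rfl⟩
  have hlJ : Low r βJ (jd f) := by
    rw [hβJ]
    exact low_det r β f hf
  simp only [← hβJ] at hBJ hZ0 hZe ⊢
  obtain ⟨ψ, hψZ, hψc, hψg⟩ := curve Z hZ ((aeval x₀).comp (resJ (ρ ⊕ Fin c) N₁ k))
    (fun P hP => hc P hP) (coJ N₁ r βJ (jd f) e) hZe
  obtain ⟨ν, hν0, hν⟩ : ∃ ν, (∀ i < ν, PowerSeries.coeff i (ψ (coJ N₁ r βJ (jd f) e)) = 0) ∧
      PowerSeries.coeff ν (ψ (coJ N₁ r βJ (jd f) e)) ≠ 0 := by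
    have h1 : ∃ ν, PowerSeries.coeff ν (ψ (coJ N₁ r βJ (jd f) e)) ≠ 0 := by
      by_contra h
      apply hψg
      ext n
      rw [map_zero]
      by_contra h2
      exact h ⟨n, h2⟩
    exact ⟨Nat.find h1, fun i hi => not_not.mp (Nat.find_min h1 hi), Nat.find_spec h1⟩
  obtain ⟨b, hb⟩ : ∃ b, b = N₀ + 1 := ⟨_, rfl⟩
  obtain ⟨a', ha'⟩ : ∃ a', a' = N₀ + 1 + b * ν := ⟨_, rfl⟩
  obtain ⟨a, ha⟩ : ∃ a, a = 1 + M * a' := ⟨_, rfl⟩
  have haa : a' < a := by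
    have h1 : 1 * a' ≤ M * a' := Nat.mul_le_mul_right a' hM
    omega
  have hab : b * ν < a := by omega
  obtain ⟨S, hS⟩ := subst2 (k := k) a b (by omega) (by omega)
  -- the series `Y`
  obtain ⟨Y, hY⟩ : ∃ Y : ρ ⊕ Fin c → k⟦X⟧⟦X⟧, Y = fun i =>
      PowerSeries.map (ψ : Jet (ρ ⊕ Fin c) N₁ k →+* k⟦X⟧) (uJ (ρ ⊕ Fin c) N₁ k i) := ⟨_, rfl⟩
  have hYc : ∀ (β : ℤ) (G : MvPolynomial (ρ ⊕ Fin c) k) (l : ℕ),
      PowerSeries.coeff l (tev r β G Y) = ψ (coJ N₁ r β G l) := by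
    intro β G l
    rw [hY, ← Delta_map ψ r β G (uJ (ρ ⊕ Fin c) N₁ k), PowerSeries.coeff_map]
    rfl
  have hYf : ∀ j, (PowerSeries.X : k⟦X⟧⟦X⟧) ^ (N₁ + 1) ∣ tev r (β j) (f j) Y := by
    intro j
    rw [PowerSeries.X_pow_dvd_iff]
    intro l hl
    rw [hYc]
    exact hψZ _ (hZf j l (by omega))
  obtain ⟨y, hy⟩ : ∃ y : ρ ⊕ Fin c → k⟦X⟧, y = fun i => S (Y i) := ⟨_, rfl⟩
  have hyf : ∀ j, (PowerSeries.X : k⟦X⟧) ^ (a * (N₁ + 1)) ∣
      tev (fun i => (a : ℤ) * r i) ((a : ℤ) * β j) (f j) y := by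
    intro j
    have h1 := tev_subst hS r (β j) (f j) Y
    obtain ⟨q, hq⟩ := hYf j
    rw [hy, ← h1, hq, map_mul, map_pow, hS.map_X, ← pow_mul]
    exact dvd_mul_right _ _
  have hyJ := order_subst hS (tev r βJ (jd f) Y) e ν hab (by
      intro i hi
      rw [hYc]
      exact hψZ _ (hZ0 i hi)) (by
      intro i hi
      rw [hYc]
      exact hν0 i hi) (by
      rw [hYc]
      exact hν)
  have hsJ := tev_subst hS r βJ (jd f) Y
  rw [hsJ] at hyJ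
  have hyy : (fun i => S (Y i)) = y := hy.symm
  rw [hyy] at hyJ
  obtain ⟨hyJ0, hyJ1⟩ := hyJ
  obtain ⟨e', he'⟩ : ∃ e', e' = a * e + b * ν := ⟨_, rfl⟩
  rw [← he'] at hyJ0 hyJ1
  -- Newton
  have hlow : ∀ j, Low (fun i => (a : ℤ) * r i) ((a : ℤ) * β j) (f j) :=
    fun j => Delta_low a r (β j) (f j) (hf j)
  have hdet : Matrix.det (Matrix.of fun j i => eval y (pderiv (Sum.inr i)
      (map (PowerSeries.map (algebraMap k k))
        (tp (fun i => (a : ℤ) * r i) ((a : ℤ) * β j) (f j))))) =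
      tev (fun i => (a : ℤ) * r i) ((a : ℤ) * βJ) (jd f) y := by
    have h1 := tev_det (R := k) (fun i => (a : ℤ) * r i) (fun j => (a : ℤ) * β j) f hlow y
    have h2 : ∑ j, (a : ℤ) * β j - ∑ i, (a : ℤ) * r (Sum.inr i) = (a : ℤ) * βJ := by
      rw [hβJ, mul_sub, Finset.mul_sum, Finset.mul_sum]
    rw [h2] at h1
    rw [← h1]
    congr 1
    ext1 j i
    rw [Matrix.of_apply, Matrix.of_apply,
      eval_map_pderiv (fun i => (a : ℤ) * r i) ((a : ℤ) * β j) (f j) (hlow j) (Sum.inr i) y]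
  have hl1 : a * (e + 1) + a * (e + 1) ≤ a * N₁ := by
    rw [← mul_add]
    exact Nat.mul_le_mul_left a (by omega)
  have hl2 : e' < a * (e + 1) := by
    rw [he', mul_add, mul_one]
    omega
  have hl3 : a * (N₁ + 1) = a * N₁ + a := by ring
  obtain ⟨y', hy'0, -, hy'1⟩ := newton (fun j => map (PowerSeries.map (algebraMap k k))
      (tp (fun i => (a : ℤ) * r i) ((a : ℤ) * β j) (f j))) y e' (a * (N₁ + 1)) (by omega)
      (by
        intro i hi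
        rw [hdet]
        exact hyJ0 i hi)
      (by
        rw [hdet]
        exact hyJ1)
      (by
        intro j
        rw [eval_map_tp]
        exact hyf j)
  have hy'f : ∀ j, tev (fun i => (a : ℤ) * r i) ((a : ℤ) * β j) (f j) y' = 0 := by
    intro j
    rw [← eval_map_tp]
    exact hy'0 j
  have hy'J : tev (fun i => (a : ℤ) * r i) ((a : ℤ) * βJ) (jd f) y' ≠ 0 := by
    intro h0
    have h1 := tev_congr (fun i => (a : ℤ) * r i) ((a : ℤ) * βJ) (jd f) y' y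
      (a * (N₁ + 1) - e') hy'1
    rw [h0, zero_sub, dvd_neg, PowerSeries.X_pow_dvd_iff] at h1
    exact hyJ1 (h1 e' (by omega))
  refine ⟨fun i => (PowerSeries.X : k⟦X⟧) ^ (a' * n i) * y' i, ?_, ?_, ?_⟩
  · intro j
    have h1 := tev_shift (R := k) r (β j) (f j) (hf j) n M a' 0 (B j)
      (by simp) (hB j) y'
    rw [← ha, hy'f j, mul_zero, mul_zero, pow_zero, one_mul] at h1
    exact h1
  · intro h0
    have h1 := tev_shift (R := k) r βJ (jd f) hlJ n M a' (∑ i, n (Sum.inr i))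
      ((∑ j, (B j : ℤ)) - ∑ i, (n (Sum.inr i) : ℤ))
      (by
        push_cast
        rw [sub_add_cancel]
        exact Finset.sum_nonneg fun j _ => Int.natCast_nonneg _) hBJ y'
    rw [← ha, h0, mul_zero] at h1
    rcases mul_eq_zero.mp h1.symm with h2 | h2
    · exact pow_ne_zero _ PowerSeries.X_ne_zero h2
    · exact hy'J h2
  · intro i
    by_cases hn : n i = 0
    · have h1 : (PowerSeries.X : k⟦X⟧) ^ (N₀ + 1) ∣ y' i - y i :=
        (pow_dvd_pow _ (by omega)).trans (hy'1 i)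
      have h2 := hS.const (Y i) (N₀ + 1) (by omega) (by omega)
      have h3 : PowerSeries.constantCoeff (PowerSeries.constantCoeff (Y i)) = x₀ i := by
        have h4 : PowerSeries.constantCoeff (Y i) =
            ψ (X (i, ⟨0, Nat.succ_pos N₁⟩)) := by
          rw [hY, ← PowerSeries.coeff_zero_eq_constantCoeff_apply, PowerSeries.coeff_map, uJ,
            PowerSeries.coeff_mk, dif_pos (Nat.succ_pos N₁)]
          rfl
        rw [h4, hψc, AlgHom.comp_apply, resJ, aeval_X, if_pos rfl, aeval_X]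
      rw [h3] at h2
      have h4 := dvd_add h1 h2
      have h5 : (PowerSeries.X : k⟦X⟧) ^ (a' * n i) * y' i - PowerSeries.C (x₀ i) =
          y' i - y i + (S (Y i) - PowerSeries.C (x₀ i)) := by
        rw [hn, mul_zero, pow_zero, one_mul, hy]
        ring
      rw [h5]
      exact h4
    · rw [hx₀ i hn, map_zero, sub_zero]
      refine Dvd.dvd.mul_right (pow_dvd_pow _ ?_) _
      have h1 : a' * 1 ≤ a' * n i := Nat.mul_le_mul_left a' (Nat.pos_of_ne_zero hn)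
      omega

end Pool.Agent.MLD.Cox
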