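import Pool.Agent.Lib.MP_f23696_ag.Y.Defs

/-!
Project COX, module Lat: index of a lattice.

Write `t = X`, `n = |σ|`.  Statement: if `det Θ` has order at most `a`, the truncations modulo
`t^(N+1)` of the rows of `Θ` multiplied by powers of `t` span a space of codimension at most `a`
in `κ^(σ × (N+1))`.

Proof.  We may take `σ = Fin n`.  Let `V` be the span.  `V` is the image of the row module
`Λ = {∑_p u_p Θ_p : u_p ∈ κ⟦X⟧}` under the truncation
`τ : (σ → κ⟦X⟧) → (σ × Fin (N+1) → κ)`: indeed
modulo `t^(N+1)` only the terms `t^j`, `j ≤ N`, of `u_p` matter.  `Λ` does not change if `Θ` is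
replaced by `U Θ` with `U` invertible over `κ⟦X⟧`, and the order of `det Θ` does not change.
By elementary row operations over the discrete valuation ring `κ⟦X⟧` (in the first column take an
entry of least order, move it to the first row, subtract multiples of the first row from the other
rows to kill the other entries of the column; induction on `n`) one reaches an upper triangular
`Θ` with diagonal entries `t^(s_i) * unit`, `∑ s_i` = order of `det Θ` `≤ a` (all entries of the
column are not zero because `det Θ ≠ 0`).  For such `Θ` the vectors `τ(t^j Θ_i)` with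
`j + s_i ≤ N` are linearly independent: for `i` fixed their entries at the position `(i, l)` form a
triangular system (the first nonzero one is `l = j + s_i`) and their entries at `(i', l)`, `i' < i`,
vanish.  Their number is `∑_i max (N + 1 - s_i, 0) ≥ n (N + 1) - ∑ s_i ≥ n (N+1) - a`.

Alternative: Smith normal form for the submodule `Λ` of the free module `σ → κ⟦X⟧` over the
principal ideal domain `κ⟦X⟧` (`Submodule.smithNormalForm`), or a proof of
`dim_κ (κ⟦X⟧^n / Λ) ≤ ord det Θ` by induction on the order of `det Θ`: if `det Θ` is not a unit,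
some nontrivial `κ`-combination of the rows of `Θ` is divisible by `t` (the constant term of `Θ` is
singular); replacing one row of `Θ` by this combination divided by `t` gives `Θ'` with
`ord det Θ' = ord det Θ - 1`, `Λ ⊆ Λ'` and `t Λ'_new ⊆ Λ`, so `dim Λ'/Λ ≤ 1`; if `det Θ` is a unit
`Λ` is everything.  (This is perhaps the shortest: induction on `s`, with `V' = V + κ τ(new row)`.)
-/

set_option autoImplicit false

namespace Pool.Agent.MLD.Cox

open scoped PowerSeries

universe u v w

/-- the truncations modulo `t^(N+1)` of the multiples `t^l Θ_p` of the rows of `Θ` -/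
noncomputable def rowT {κ : Type u} [Field κ] {σ : Type w} (N : ℕ) (Θ : Matrix σ σ κ⟦X⟧)
    (p : σ × Fin (N + 1)) (q : σ × Fin (N + 1)) : κ :=
  PowerSeries.coeff (q.2 : ℕ) ((PowerSeries.X : κ⟦X⟧) ^ (p.2 : ℕ) * Θ p.1 q.1)

private theorem lat_unit {κ : Type u} [Field κ] {σ : Type w} [Fintype σ] [DecidableEq σ] (N : ℕ)
    (Θ : Matrix σ σ κ⟦X⟧) (h : PowerSeries.coeff 0 Θ.det ≠ 0) :
    Module.finrank κ (Submodule.span κ (Set.range (rowT N Θ))) = Fintype.card σ * (N + 1) := by
  have hdet : ((PowerSeries.constantCoeff (R := κ)).mapMatrix Θ).det ≠ 0 := by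
    rw [← RingHom.map_det]
    simpa using h
  have hli : LinearIndependent κ (rowT N Θ) := by
    rw [Fintype.linearIndependent_iff]
    intro c hc
    have key : ∀ l : ℕ, ∀ hl : l < N + 1, ∀ p : σ, c (p, ⟨l, hl⟩) = 0 := by
      intro l
      induction l using Nat.strong_induction_on with
      | _ l ih =>
        intro hl p
        have hv : (fun p : σ => c (p, ⟨l, hl⟩)) = 0 := by
          apply Matrix.eq_zero_of_vecMul_eq_zero hdet
          funext q
          have h1 := congrFun hc (q, ⟨l, hl⟩)
          simp only [Finset.sum_apply, Pi.smul_apply, smul_eq_mul, Pi.zero_apply] at h1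
          rw [Fintype.sum_prod_type] at h1
          rw [Matrix.vecMul, dotProduct, Pi.zero_apply]
          rw [← h1]
          refine Finset.sum_congr rfl fun p _ => ?_
          rw [Finset.sum_eq_single (⟨l, hl⟩ : Fin (N + 1))]
          · simp [rowT, PowerSeries.coeff_X_pow_mul']
          · intro j _ hj
            rcases lt_or_ge (j : ℕ) l with hjl | hjl
            · have := ih j hjl j.2 p
              rw [show (⟨(j : ℕ), j.2⟩ : Fin (N + 1)) = j from rfl] at this
              rw [this, zero_mul]
            · have hjl' : l < (j : ℕ) := by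
                rcases Nat.eq_or_lt_of_le hjl with e | e
                · exact absurd (Fin.ext e.symm) hj
                · exact e
              have : rowT N Θ (p, j) (q, ⟨l, hl⟩) = 0 := by
                simp only [rowT, PowerSeries.coeff_X_pow_mul']
                rw [if_neg (by omega)]
              rw [this, mul_zero]
          · intro hn
            exact absurd (Finset.mem_univ _) hn
        exact congrFun hv p
    rintro ⟨p, l⟩
    exact key l l.2 p
  rw [finrank_span_eq_card hli, Fintype.card_prod, Fintype.card_fin]

theorem lat {κ : Type u} [Field κ] {σ : Type w} [Fintype σ] [DecidableEq σ] (N : ℕ)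
    (Θ : Matrix σ σ κ⟦X⟧) (a : ℕ) (ha : ∃ s ≤ a, PowerSeries.coeff s Θ.det ≠ 0) :
    Fintype.card σ * (N + 1) ≤
      Module.finrank κ (Submodule.span κ (Set.range (rowT N Θ))) + a := by
  induction a generalizing Θ with
  | zero =>
    obtain ⟨s, hs, h⟩ := ha
    obtain rfl : s = 0 := by omega
    rw [lat_unit N Θ h]
    omega
  | succ a ih =>
    by_cases h0 : PowerSeries.coeff 0 Θ.det = 0
    swap
    · rw [lat_unit N Θ h0]
      omega
    obtain ⟨s, hs, h⟩ := ha
    have hs0 : s ≠ 0 := by
      rintro rfl
      exact h h0
    obtain ⟨s, rfl⟩ := Nat.exists_eq_succ_of_ne_zero hs0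
    have hdet : ((PowerSeries.constantCoeff (R := κ)).mapMatrix Θ).det = 0 := by
      rw [← RingHom.map_det]
      simpa using h0
    obtain ⟨c, hc, hcv⟩ := Matrix.exists_vecMul_eq_zero_iff.mpr hdet
    obtain ⟨p0, hp0⟩ : ∃ p, c p ≠ 0 := by
      by_contra hno
      push Not at hno
      exact hc (funext hno)
    -- the combination of the rows
    have hdiv : ∀ q, ∃ r : κ⟦X⟧, ∑ p, PowerSeries.C (c p) * Θ p q = (PowerSeries.X : κ⟦X⟧) * r := by
      intro q
      have : (PowerSeries.X : κ⟦X⟧) ∣ ∑ p, PowerSeries.C (c p) * Θ p q := by
        rw [PowerSeries.X_dvd_iff, map_sum]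
        have h1 := congrFun hcv q
        rw [Matrix.vecMul, dotProduct, Pi.zero_apply] at h1
        rw [← h1]
        refine Finset.sum_congr rfl fun p _ => ?_
        simp
      exact this
    choose r hr using hdiv
    set Θ' : Matrix σ σ κ⟦X⟧ := Θ.updateRow p0 r with hΘ'
    have hdet' : (PowerSeries.X : κ⟦X⟧) * Θ'.det = PowerSeries.C (c p0) * Θ.det := by
      have e1 : (PowerSeries.X : κ⟦X⟧) * Θ'.det =
          (Θ.updateRow p0 ((PowerSeries.X : κ⟦X⟧) • r)).det := by
        rw [Matrix.det_updateRow_smul, hΘ']
      have e2 : (PowerSeries.X : κ⟦X⟧) • r =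
          ∑ p, (PowerSeries.C (c p) : κ⟦X⟧) • Θ p := by
        funext q
        simp only [Pi.smul_apply, smul_eq_mul, Finset.sum_apply]
        exact (hr q).symm
      rw [e1, e2, Matrix.det_updateRow_sum, smul_eq_mul]
    have hs' : PowerSeries.coeff s Θ'.det ≠ 0 := by
      have e := congrArg (PowerSeries.coeff (s + 1)) hdet'
      rw [PowerSeries.coeff_succ_X_mul, PowerSeries.coeff_C_mul] at e
      rw [e]
      exact mul_ne_zero hp0 h
    have hI := ih Θ' ⟨s, by omega, hs'⟩
    -- comparison of the spans
    have hsub : Submodule.span κ (Set.range (rowT N Θ')) ≤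
        Submodule.span κ (Set.range (rowT N Θ)) ⊔ Submodule.span κ {rowT N Θ' (p0, 0)} := by
      rw [Submodule.span_le]
      rintro _ ⟨⟨p, l⟩, rfl⟩
      by_cases hp : p = p0
      · subst hp
        rcases Nat.eq_zero_or_pos (l : ℕ) with hl | hl
        · have hl' : l = 0 := Fin.ext (by simpa using hl)
          subst hl'
          exact Submodule.mem_sup_right (Submodule.subset_span rfl)
        · refine Submodule.mem_sup_left ?_
          have hlt : (l : ℕ) - 1 < N + 1 := by
            have := l.2
            omega
          have e : rowT N Θ' (p, l) = ∑ p', c p' • rowT N Θ (p', ⟨(l : ℕ) - 1, hlt⟩) := by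
            funext q
            simp only [Finset.sum_apply, Pi.smul_apply, smul_eq_mul, rowT]
            have e3 : (PowerSeries.X : κ⟦X⟧) ^ (l : ℕ) * Θ' p q.1 =
                ∑ p', PowerSeries.C (c p') * (PowerSeries.X ^ ((l : ℕ) - 1) * Θ p' q.1) := by
              have e4 : Θ' p q.1 = r q.1 := by
                rw [hΘ', Matrix.updateRow_self]
              rw [e4]
              have e5 : (PowerSeries.X : κ⟦X⟧) ^ (l : ℕ) * r q.1 =
                  PowerSeries.X ^ ((l : ℕ) - 1) * (PowerSeries.X * r q.1) := by
                rw [← mul_assoc, ← pow_succ]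
                congr 2
                omega
              rw [e5, ← hr q.1, Finset.mul_sum]
              refine Finset.sum_congr rfl fun p' _ => ?_
              ring
            rw [e3, map_sum]
            refine Finset.sum_congr rfl fun p' _ => ?_
            rw [PowerSeries.coeff_C_mul]
          rw [e]
          exact Submodule.sum_mem _ fun p' _ =>
            Submodule.smul_mem _ _ (Submodule.subset_span ⟨_, rfl⟩)
      · refine Submodule.mem_sup_left (Submodule.subset_span ⟨(p, l), ?_⟩)
        funext q
        simp only [rowT, hΘ']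
        rw [Matrix.updateRow_ne hp]
    have h1 : Module.finrank κ (Submodule.span κ (Set.range (rowT N Θ'))) ≤
        Module.finrank κ (Submodule.span κ (Set.range (rowT N Θ))) + 1 := by
      calc Module.finrank κ (Submodule.span κ (Set.range (rowT N Θ')))
          ≤ Module.finrank κ (↥(Submodule.span κ (Set.range (rowT N Θ)) ⊔
              Submodule.span κ {rowT N Θ' (p0, 0)})) := Submodule.finrank_mono hsub
        _ ≤ Module.finrank κ (Submodule.span κ (Set.range (rowT N Θ))) +
              Module.finrank κ (Submodule.span κ {rowT N Θ' (p0, 0)}) :=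
            Submodule.finrank_add_le_finrank_add_finrank _ _
        _ ≤ _ := by
            have h2 := finrank_span_le_card (R := κ) ({rowT N Θ' (p0, 0)} : Set _)
            rw [Set.toFinset_singleton, Finset.card_singleton] at h2
            omega
    omega

end Pool.Agent.MLD.Cox
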