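import Pool.Agent.Lib.MP_f23696_ag.Y.Defs

/-!
Project COX, module Sub: a subspace of small codimension contains a family with a determinant of
small order.

Write `t = X`.  A vector `z : ρ × Fin (N+1) → κ` is seen as the family of the polynomials
`z_i(t) = ∑_l z (i, l) t^l` (`trS`), `i ∈ ρ`.

Proof.  Choose a linear order of `ρ` and order the positions `(i, l)` by `l` first, then by `i`.
For `z ≠ 0` let `lead z` be its first nonzero position.  For a subspace `V` the set
`Lead V = {lead z : 0 ≠ z ∈ V}` has exactly `dim V` elements (vectors with distinct leading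
positions are independent; conversely, for positions outside `Lead V` ... a vector of `V` vanishing
at all positions of `Lead V` is zero, so `dim V ≤ |Lead V|`; only `dim V ≤ |Lead V|` is needed: the
coordinate map `V → κ^(Lead V)` is injective).  So at most `a` positions are not in `Lead V`.
For `i ∈ ρ` there is `l ≤ N` with `(i, l) ∈ Lead V`, for otherwise `N + 1 ≤ a ≤ N`; let `l_i` be the
least such `l` and `z_i ∈ V` with `lead z_i = (i, l_i)`.  The positions `(i, l)`, `l < l_i`,
`i ∈ ρ`, are not in `Lead V`, so `∑ l_i ≤ a`.  In the matrix `B = (z_i)_(i')(t)` the entries of the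
row `i` are divisible by `t^(l_i)`, and the coefficient of `t^(l_i)` of the entry `(i, i')` is zero
for `i' < i` and nonzero for `i' = i`.  So `det B = t^(∑ l_i) det B'`, where the constant term of
`B'` is triangular with nonzero diagonal; the coefficient of `det B` at `s = ∑ l_i` is not zero.
-/

set_option autoImplicit false

namespace Pool.Agent.MLD.Cox

open scoped PowerSeries

universe u v w

theorem subdet {κ : Type u} [Field κ] {ρ : Type w} [Fintype ρ] [DecidableEq ρ] {N : ℕ}
    (V : Submodule κ (ρ × Fin (N + 1) → κ)) (a : ℕ) (haN : a ≤ N)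
    (h : Fintype.card ρ * (N + 1) ≤ Module.finrank κ V + a) :
    ∃ z : ρ → (ρ × Fin (N + 1) → κ), (∀ i, z i ∈ V) ∧ ∃ s ≤ a, PowerSeries.coeff s
      (Matrix.det (Matrix.of fun i i' => trS fun l => z i (i', l))) ≠ 0 := by
  classical
  let e : ρ ≃ Fin (Fintype.card ρ) := Fintype.equivFin ρ
  set m : ℕ := Fintype.card ρ with hm
  let pos : ρ × Fin (N + 1) → ℕ := fun p => (p.2 : ℕ) * m + (e p.1 : ℕ)
  have pos_lt : ∀ p q : ρ × Fin (N + 1), (p.2 : ℕ) < q.2 → pos p < pos q := by
    intro p q hpq
    have h1 : (e p.1 : ℕ) < m := (e p.1).2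
    have h2 : ((p.2 : ℕ) + 1) * m ≤ (q.2 : ℕ) * m := Nat.mul_le_mul_right m hpq
    change (p.2 : ℕ) * m + (e p.1 : ℕ) < (q.2 : ℕ) * m + (e q.1 : ℕ)
    rw [add_mul, one_mul] at h2
    omega
  have pos_lt' : ∀ (i i' : ρ) (l : Fin (N + 1)), e i' < e i → pos (i', l) < pos (i, l) := by
    intro i i' l hii
    change (l : ℕ) * m + (e i' : ℕ) < (l : ℕ) * m + (e i : ℕ)
    have h1 : (e i' : ℕ) < (e i : ℕ) := hii
    omega
  let L : Finset (ρ × Fin (N + 1)) := Finset.univ.filter fun p =>
    ∃ z ∈ V, z p ≠ 0 ∧ ∀ p', pos p' < pos p → z p' = 0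
  have hL : Module.finrank κ V ≤ L.card := by
    let φ : V →ₗ[κ] (L → κ) :=
      { toFun := fun z p => z.1 p.1
        map_add' := fun x y => rfl
        map_smul' := fun c x => rfl }
    have hinj : Function.Injective φ := by
      rw [injective_iff_map_eq_zero]
      intro z hz
      by_contra hne
      have h1 : (Finset.univ.filter fun p => z.1 p ≠ 0).Nonempty := by
        by_contra hemp
        rw [Finset.not_nonempty_iff_eq_empty, Finset.filter_eq_empty_iff] at hemp
        apply hne
        ext p
        have h2 := hemp (Finset.mem_univ p)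
        push Not at h2
        exact h2
      obtain ⟨p, hp, hpm⟩ := Finset.exists_min_image _ pos h1
      rw [Finset.mem_filter] at hp
      have hpL : p ∈ L := by
        rw [Finset.mem_filter]
        refine ⟨Finset.mem_univ _, z.1, z.2, hp.2, fun p' hp' => ?_⟩
        by_contra h3
        have h4 := hpm p' (Finset.mem_filter.2 ⟨Finset.mem_univ _, h3⟩)
        omega
      exact hp.2 (congrFun hz ⟨p, hpL⟩)
    have h1 := LinearMap.finrank_le_finrank_of_injective hinj
    rw [Module.finrank_fintype_fun_eq_card, Fintype.card_coe] at h1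
    exact h1
  have hLc : (Finset.univ \ L).card ≤ a := by
    have h1 : (Finset.univ \ L).card + L.card = m * (N + 1) := by
      rw [Finset.card_sdiff_add_card_eq_card (Finset.subset_univ L), Finset.card_univ,
        Fintype.card_prod, Fintype.card_fin]
    omega
  have hex : ∀ i, ∃ l : Fin (N + 1), (i, l) ∈ L := by
    intro i
    by_contra hcon
    push Not at hcon
    have h1 : (Finset.univ.image fun l : Fin (N + 1) => (i, l)) ⊆ Finset.univ \ L := by
      intro p hp
      rw [Finset.mem_image] at hp
      obtain ⟨l, _, rfl⟩ := hp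
      exact Finset.mem_sdiff.2 ⟨Finset.mem_univ _, hcon l⟩
    have h2 := Finset.card_le_card h1
    rw [Finset.card_image_of_injective _ (fun x y hxy => (Prod.mk.inj hxy).2),
      Finset.card_univ, Fintype.card_fin] at h2
    omega
  have hmin : ∀ i, ∃ l : Fin (N + 1), (i, l) ∈ L ∧ ∀ l' < l, (i, l') ∉ L := by
    intro i
    obtain ⟨l0, hl0⟩ := hex i
    have h1 : (Finset.univ.filter fun l : Fin (N + 1) => (i, l) ∈ L).Nonempty :=
      ⟨l0, Finset.mem_filter.2 ⟨Finset.mem_univ _, hl0⟩⟩
    obtain ⟨l, hl, hlm⟩ := Finset.exists_min_image _ (fun l => l) h1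
    refine ⟨l, (Finset.mem_filter.1 hl).2, fun l' hl' h3 => ?_⟩
    have h4 := hlm l' (Finset.mem_filter.2 ⟨Finset.mem_univ _, h3⟩)
    exact absurd hl' (not_lt.2 h4)
  choose l hl hl' using hmin
  have hz : ∀ i, ∃ z ∈ V, z (i, l i) ≠ 0 ∧ ∀ p', pos p' < pos (i, l i) → z p' = 0 :=
    fun i => (Finset.mem_filter.1 (hl i)).2
  choose z hzV hz0 hz1 using hz
  refine ⟨z, hzV, ∑ i, (l i : ℕ), ?_, ?_⟩
  · refine le_trans ?_ hLc
    have h1 : ∑ i, (l i : ℕ) =
        (Finset.univ.filter fun p : ρ × Fin (N + 1) => p.2 < l p.1).card := by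
      rw [Finset.card_filter, Fintype.sum_prod_type]
      refine Finset.sum_congr rfl fun i _ => ?_
      rw [← Finset.card_filter]
      have h2 : (Finset.univ.filter fun x : Fin (N + 1) => (i, x).2 < l (i, x).1) =
          Finset.Iio (l i) := by
        ext x
        simp
      rw [h2, Fin.card_Iio]
    rw [h1]
    refine Finset.card_le_card fun p hp => ?_
    rw [Finset.mem_filter] at hp
    exact Finset.mem_sdiff.2 ⟨Finset.mem_univ _, hl' p.1 p.2 hp.2⟩
  · set g : Matrix ρ ρ κ⟦X⟧ := Matrix.of fun i i' => PowerSeries.mk fun n =>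
      PowerSeries.coeff (n + (l i : ℕ)) (trS fun j => z i (i', j)) with hg
    have hM : (Matrix.of fun i i' => trS fun j => z i (i', j)) =
        Matrix.of fun i i' => (PowerSeries.X : κ⟦X⟧) ^ (l i : ℕ) * g i i' := by
      ext i i' n
      simp only [Matrix.of_apply]
      rw [PowerSeries.coeff_X_pow_mul']
      split_ifs with hn
      · rw [hg]
        simp only [Matrix.of_apply, PowerSeries.coeff_mk]
        rw [Nat.sub_add_cancel hn]
      · unfold trS
        rw [PowerSeries.coeff_mk]
        split_ifs with hnN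
        · refine hz1 i _ (pos_lt _ _ ?_)
          simpa using hn
        · rfl
    rw [hM, Matrix.det_mul_column, Finset.prod_pow_eq_pow_sum, PowerSeries.coeff_X_pow_mul',
      if_pos le_rfl, Nat.sub_self, PowerSeries.coeff_zero_eq_constantCoeff_apply,
      RingHom.map_det]
    have hC : (PowerSeries.constantCoeff (R := κ)).mapMatrix g =
        Matrix.of fun i i' => z i (i', l i) := by
      ext i i'
      simp only [RingHom.mapMatrix_apply, Matrix.map_apply, hg, Matrix.of_apply]
      rw [← PowerSeries.coeff_zero_eq_constantCoeff_apply, PowerSeries.coeff_mk, zero_add]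
      unfold trS
      rw [PowerSeries.coeff_mk, dif_pos (l i).2]
    rw [hC, ← Matrix.det_submatrix_equiv_self e.symm, Matrix.det_of_isUpperTriangular]
    · refine Finset.prod_ne_zero_iff.2 fun i _ => ?_
      exact hz0 (e.symm i)
    · intro i j hij
      simp only [Matrix.submatrix_apply, Matrix.of_apply]
      refine hz1 _ _ (pos_lt' _ _ _ ?_)
      rw [e.apply_symm_apply, e.apply_symm_apply]
      exact hij

end Pool.Agent.MLD.Cox
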