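import Pool.Agent.Lib.MP_f23696_ag.Y.TwB
import Pool.Agent.Lib.MP_f23696_ag.Y.Lat
import Pool.Agent.Lib.MP_f23696_ag.Y.Sub
import Pool.Agent.Lib.MP_f23696_ag.Y.Rnk

/-!
Project COX, module DerSel: derivations with a Jacobian determinant of small order.

Write `t = X`, `σ = ρ ⊕ Fin c`, `n = |ρ|`, `y i = trS (fun l => w (i, l))` (polynomials of degree
at most `N` in `t`), `M_(j,i) = tev r (β j - r i) (pderiv i (f j)) y`.

Proof.  `DV w ⊆ κ^(σ × Fin (N+1))` has dimension at least `n'` (`kdim`).  Let `π` be the projection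
to the coordinates `(inl i, l)` and `V = π(DV w) ⊆ κ^(ρ × Fin (N+1))`.

(1) `dim (DV w ∩ ker π) ≤ e`.  Let `z = (d (w p))_p ∈ DV w` (`mem_DV`) with `z (inl i, l) = 0`.  Then
`cder d (y i) = trS (fun l => z (i, l))`.  Apply `cder d` to `tev r (β j) (f j) y`, which is
divisible by `t^(N+1)`; `cder d` preserves divisibility by `t^(N+1)`; by `tev_cder`
`∑_a M_(j, inr a) trS (z (inr a, ·)) ≡ 0` modulo `t^(N+1)`, `j < c`.  So `z` restricted to
`Fin c × Fin (N+1)` is in the kernel of the `κ`-linear endomorphism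
`Φ(z) = (coefficients ≤ N of ∑_a M_(j, inr a) trS (z (a, ·)))_j` of `κ^(Fin c × Fin (N+1))`.  The
image of `Φ` is spanned by the images of the unit vectors `e_(a,l)`, which are the vectors
`rowT N Mᵀ (a, l)`, `Mᵀ a j = M_(j, inr a)`.  By `tev_det` `det Mᵀ = det M = tev r βJ (jd f) y`,
which has a nonzero coefficient at some `s ≤ e`; by `lat` the rank of `Φ` is at least
`c (N+1) - e`, so its kernel has dimension at most `e`.

(2) So `dim V ≥ n' - e` and `n (N+1) ≤ n' + a ≤ dim V + (a + e)`.  By `subdet` (`a + e ≤ N`) there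
are `z_i ∈ V`, `i ∈ ρ`, such that the determinant of `(trS (z_i (i', ·)))` has a nonzero coefficient
at some `s ≤ a + e`.  `z_i = π((d_i (w p))_p)` with derivations `d_i`, and
`cder (d_i) (y (inl i')) = trS (z_i (i', ·))`.
-/

set_option autoImplicit false

namespace Pool.Agent.MLD.Cox

open MvPolynomial
open scoped PowerSeries

universe u v w

/-- a derivation acts on the coefficients of a truncated series -/
private theorem DerSel_cder_trS {k : Type u} {κ : Type v} [Field k] [Field κ] [Algebra k κ]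
    {N : ℕ} (d : Derivation k κ κ) (z : Fin (N + 1) → κ) :
    cder d (trS z) = trS fun l => d (z l) := by
  ext n
  unfold cder trS
  rw [PowerSeries.coeff_mk, PowerSeries.coeff_mk, PowerSeries.coeff_mk]
  split_ifs with h
  · rfl
  · exact map_zero d

private theorem DerSel_trS_eq {κ : Type v} [CommRing κ] {N : ℕ} (z : Fin (N + 1) → κ) :
    trS z = ∑ l, PowerSeries.C (z l) * (PowerSeries.X : κ⟦X⟧) ^ (l : ℕ) := by
  ext n
  unfold trS
  rw [PowerSeries.coeff_mk, map_sum]
  by_cases h : n < N + 1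
  · rw [dif_pos h, Finset.sum_eq_single (⟨n, h⟩ : Fin (N + 1))]
    · rw [PowerSeries.coeff_C_mul, PowerSeries.coeff_X_pow, if_pos rfl, mul_one]
    · intro l _ hl
      rw [PowerSeries.coeff_C_mul, PowerSeries.coeff_X_pow, if_neg, mul_zero]
      intro h1
      exact hl (Fin.ext h1.symm)
    · intro h1
      exact absurd (Finset.mem_univ _) h1
  · rw [dif_neg h]
    symm
    refine Finset.sum_eq_zero fun l _ => ?_
    rw [PowerSeries.coeff_C_mul, PowerSeries.coeff_X_pow, if_neg, mul_zero]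
    intro h1
    exact h (h1 ▸ l.2)

private theorem DerSel_comb {κ : Type v} [Field κ] {c N : ℕ} (M : Matrix (Fin c) (Fin c) κ⟦X⟧)
    (z : Fin c × Fin (N + 1) → κ) (q : Fin c × Fin (N + 1)) :
    Fintype.linearCombination κ (rowT N M.transpose) z q =
      PowerSeries.coeff (q.2 : ℕ) (∑ a, M q.1 a * trS fun l => z (a, l)) := by
  rw [Fintype.linearCombination_apply, Finset.sum_apply, Fintype.sum_prod_type, map_sum]
  refine Finset.sum_congr rfl fun a _ => ?_
  rw [DerSel_trS_eq, Finset.mul_sum, map_sum]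
  refine Finset.sum_congr rfl fun l _ => ?_
  rw [Pi.smul_apply, smul_eq_mul]
  unfold rowT
  rw [Matrix.transpose_apply, mul_left_comm, PowerSeries.coeff_C_mul, mul_comm (M q.1 a)]

theorem derSel {k : Type u} {κ : Type v} [Field k] [CharZero k] [Field κ] [Algebra k κ]
    {ρ : Type w} [Fintype ρ] [DecidableEq ρ] {c N : ℕ} (f : Fin c → MvPolynomial (ρ ⊕ Fin c) k)
    (r : ρ ⊕ Fin c → ℤ) (β : Fin c → ℤ) (hf : ∀ j, Low r (β j) (f j))
    (w : (ρ ⊕ Fin c) × Fin (N + 1) → κ)
    (hy : ∀ j, (PowerSeries.X : κ⟦X⟧) ^ (N + 1) ∣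
      tev r (β j) (f j) (fun i => trS fun l => w (i, l)))
    (e : ℕ) (he : ∃ s ≤ e, PowerSeries.coeff s
      (tev r (∑ j, β j - ∑ a, r (Sum.inr a)) (jd f) (fun i => trS fun l => w (i, l))) ≠ 0)
    (n' a : ℕ)
    (hn : TD (RingHom.ker (aeval w : MvPolynomial ((ρ ⊕ Fin c) × Fin (N + 1)) k →ₐ[k] κ)) n')
    (hna : Fintype.card ρ * (N + 1) ≤ n' + a) (haN : a + e ≤ N) :
    ∃ d : ρ → Derivation k κ κ, ∃ s ≤ a + e, PowerSeries.coeff s
      (Matrix.det (Matrix.of fun i i' =>
        cder (d i) (trS fun l => w (Sum.inl i', l)))) ≠ 0 := by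
  classical
  obtain ⟨y, hyd⟩ : ∃ y : ρ ⊕ Fin c → κ⟦X⟧, y = fun i => trS fun l => w (i, l) := ⟨_, rfl⟩
  rw [← hyd] at he
  have hy' : ∀ j, (PowerSeries.X : κ⟦X⟧) ^ (N + 1) ∣ tev r (β j) (f j) y := by
    intro j
    rw [hyd]
    exact hy j
  obtain ⟨M, hM⟩ : ∃ M : Matrix (Fin c) (Fin c) κ⟦X⟧, M = Matrix.of fun j a =>
    tev r (β j - r (Sum.inr a)) (pderiv (Sum.inr a) (f j)) y := ⟨_, rfl⟩
  have hdet : ∃ s ≤ e, PowerSeries.coeff s M.transpose.det ≠ 0 := by
    obtain ⟨s, hs, h1⟩ := he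
    refine ⟨s, hs, ?_⟩
    rw [Matrix.det_transpose, hM, tev_det r β f hf y]
    exact h1
  have hlat := lat N M.transpose e hdet
  rw [Fintype.card_fin] at hlat
  let Φ := Fintype.linearCombination κ (rowT N M.transpose)
  have hΦr : Module.finrank κ (LinearMap.range Φ) + Module.finrank κ (LinearMap.ker Φ) =
      c * (N + 1) := by
    rw [LinearMap.finrank_range_add_finrank_ker, Module.finrank_fintype_fun_eq_card,
      Fintype.card_prod, Fintype.card_fin, Fintype.card_fin]
  have hΦ2 : LinearMap.range Φ = Submodule.span κ (Set.range (rowT N M.transpose)) :=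
    Fintype.range_linearCombination κ _
  have hker : Module.finrank κ (LinearMap.ker Φ) ≤ e := by
    rw [hΦ2] at hΦr
    omega
  let W : Submodule κ ((ρ ⊕ Fin c) × Fin (N + 1) → κ) := DV (k := k) w
  let π : ((ρ ⊕ Fin c) × Fin (N + 1) → κ) →ₗ[κ] (ρ × Fin (N + 1) → κ) :=
    LinearMap.funLeft κ κ fun p => (Sum.inl p.1, p.2)
  let π' : ((ρ ⊕ Fin c) × Fin (N + 1) → κ) →ₗ[κ] (Fin c × Fin (N + 1) → κ) :=
    LinearMap.funLeft κ κ fun p => (Sum.inr p.1, p.2)
  have hπ : ∀ z i l, π z (i, l) = z (Sum.inl i, l) := fun z i l => rfl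
  have hπ' : ∀ z i l, π' z (i, l) = z (Sum.inr i, l) := fun z i l => rfl
  -- the key computation
  have key : ∀ z ∈ W, π z = 0 → Φ (π' z) = 0 := by
    intro z hz hz0
    obtain ⟨d, hd⟩ := (mem_DV w z).1 hz
    funext q
    rw [Pi.zero_apply]
    have h1 : Φ (π' z) q = PowerSeries.coeff (q.2 : ℕ)
        (∑ a, M q.1 a * trS fun l => π' z (a, l)) := DerSel_comb M (π' z) q
    have hcy : ∀ i, cder d (y i) = trS fun l => z (i, l) := by
      intro i
      rw [hyd, DerSel_cder_trS]
      congr 1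
      funext l
      exact (hd (i, l)).symm
    have h2 := tev_cder d r (β q.1) (f q.1) (hf q.1) y
    rw [Fintype.sum_sum_type] at h2
    have h3 : ∀ i : ρ, cder d (y (Sum.inl i)) = 0 := by
      intro i
      rw [hcy]
      ext n
      unfold trS
      rw [PowerSeries.coeff_mk, map_zero]
      split_ifs with h
      · exact congrFun hz0 (i, ⟨n, h⟩)
      · rfl
    have h4 : ∑ i : ρ, tev r (β q.1 - r (Sum.inl i)) (pderiv (Sum.inl i) (f q.1)) y *
        cder d (y (Sum.inl i)) = 0 := by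
      refine Finset.sum_eq_zero fun i _ => ?_
      rw [h3, mul_zero]
    rw [h4, zero_add] at h2
    have h5 : ∑ a, M q.1 a * (trS fun l => π' z (a, l)) =
        cder d (tev r (β q.1) (f q.1) y) := by
      rw [h2]
      refine Finset.sum_congr rfl fun a _ => ?_
      rw [hcy, hM, Matrix.of_apply]
      rfl
    rw [h1, h5]
    unfold cder
    rw [PowerSeries.coeff_mk]
    obtain ⟨g, hg⟩ := hy' q.1
    rw [hg, PowerSeries.coeff_X_pow_mul', if_neg (not_le.2 q.2.2), map_zero]
  let g : W →ₗ[κ] (ρ × Fin (N + 1) → κ) := π.domRestrict W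
  let F : LinearMap.ker g →ₗ[κ] LinearMap.ker Φ :=
    ((π'.domRestrict W).domRestrict (LinearMap.ker g)).codRestrict (LinearMap.ker Φ)
      fun z => by
        rw [LinearMap.mem_ker]
        exact key _ z.1.2 z.2
  have hF : Function.Injective F := by
    rw [injective_iff_map_eq_zero]
    intro z hz
    have h1 : π' (z.1.1) = 0 := congrArg Subtype.val hz
    have h2 : π (z.1.1) = 0 := z.2
    apply Subtype.ext
    apply Subtype.ext
    funext p
    obtain ⟨i, l⟩ := p
    rcases i with i | i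
    · exact congrFun h2 (i, l)
    · exact congrFun h1 (i, l)
  have h1 : Module.finrank κ (LinearMap.ker g) ≤ e :=
    (LinearMap.finrank_le_finrank_of_injective hF).trans hker
  have h2 : Module.finrank κ (LinearMap.range g) + Module.finrank κ (LinearMap.ker g) =
      Module.finrank κ W := LinearMap.finrank_range_add_finrank_ker g
  have h3 : n' ≤ Module.finrank κ W := kdim w n' hn
  have h4 : Fintype.card ρ * (N + 1) ≤ Module.finrank κ (LinearMap.range g) + (a + e) := by
    omega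
  obtain ⟨z, hz, s, hs, hdz⟩ := subdet (LinearMap.range g) (a + e) haN h4
  have hz' : ∀ i, ∃ d : Derivation k κ κ, ∀ i' l, z i (i', l) = d (w (Sum.inl i', l)) := by
    intro i
    obtain ⟨v, hv⟩ := hz i
    obtain ⟨d, hd⟩ := (mem_DV w v.1).1 v.2
    refine ⟨d, fun i' l => ?_⟩
    rw [← hv]
    exact hd (Sum.inl i', l)
  choose d hd using hz'
  refine ⟨d, s, hs, ?_⟩
  have h5 : (Matrix.of fun i i' => cder (d i) (trS fun l => w (Sum.inl i', l))) =
      Matrix.of fun i i' => trS fun l => z i (i', l) := by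
    ext1 i i'
    rw [Matrix.of_apply, Matrix.of_apply, DerSel_cder_trS]
    congr 1
    funext l
    exact (hd i i' l).symm
  rw [h5]
  exact hdz

end Pool.Agent.MLD.Cox
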