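import Pool.Agent.Lib.MP_f23696_ag.Y.Td
import Pool.Agent.Lib.MP_f23696_ag.Y.ExtL

/-!
Project COX, module DvKer: tangent vectors extend to derivations.

Proof.  The map `δ : MvPolynomial σ k → κ`, `F ↦ ∑ i, aeval y (pderiv i F) * z i`, is a
`k`-derivation along `aeval y` (`pderiv` is a derivation).  By `hz` it kills `I = ker (aeval y)`.
For `g ∈ κ`, `g = P(y)/Q(y)` put `d g = (Q(y) δ P - P(y) δ Q) / Q(y)^2`.  Well defined: if
`P(y)/Q(y) = P'(y)/Q'(y)` then `P Q' - P' Q ∈ I`, so `δ (P Q' - P' Q) = 0`, expand.  Derivation: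
take common denominators.  Alternatively, as in `extL_aux` (ExtL.lean) by square zero extensions:
`F ↦ inl (F(y)) + inr (δ F)` is a ring homomorphism `MvPolynomial σ k → TrivSqZeroExt κ κ` which kills
`I`, so it factors through the range `R₀` of `aeval y` (a subalgebra of `κ`, with fraction field
`κ`), and the images of the nonzero elements of `R₀` are units, so it extends to `κ`
(`IsLocalization.lift`).  So `d (y i) = δ (X i) = z i`, and `mem_DV`.
-/

set_option autoImplicit false

namespace Pool.Agent.MLD.Cox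

open MvPolynomial

universe u v w

private theorem dvKer_wd {κ : Type v} [Field κ] {a b a' b' da db da' db' : κ} (hb : b ≠ 0)
    (hb' : b' ≠ 0) (h1 : a / b = a' / b')
    (h2 : a * db' + b' * da - (a' * db + b * da') = 0) :
    (b * da - a * db) / b ^ 2 = (b' * da' - a' * db') / b' ^ 2 := by
  have h3 : a * b' = a' * b := (div_eq_div_iff hb hb').1 h1
  rw [div_eq_div_iff (pow_ne_zero 2 hb) (pow_ne_zero 2 hb')]
  linear_combination b * b' * h2 - (b' * db + b * db') * h3

private theorem dvKer_ext {k : Type u} {κ : Type v} [Field k] [Field κ] [Algebra k κ]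
    {A : Type w} [CommRing A] [Algebra k A] (e : A →ₐ[k] κ) (δ : A → κ)
    (hadd : ∀ F G, δ (F + G) = δ F + δ G) (hmul : ∀ F G, δ (F * G) = e F * δ G + e G * δ F)
    (hC : ∀ c : k, δ (algebraMap k A c) = 0)
    (hgen : ∀ g : κ, ∃ P Q : A, e Q ≠ 0 ∧ g = e P / e Q)
    (hz : ∀ F, e F = 0 → δ F = 0) : ∃ d : Derivation k κ κ, ∀ F, d (e F) = δ F := by
  have hone : δ 1 = 0 := by
    have h := hC 1
    rwa [map_one] at h
  have hneg : ∀ F, δ (-F) = -δ F := by
    intro F
    have h0 : δ 0 = 0 := by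
      have h := hC 0
      rwa [map_zero] at h
    have h := hadd F (-F)
    rw [add_neg_cancel, h0] at h
    exact (neg_eq_of_add_eq_zero_right h.symm).symm
  choose P Q hQ hg using hgen
  obtain ⟨d, hd⟩ : ∃ d : κ → κ, ∀ g, d g =
      (e (Q g) * δ (P g) - e (P g) * δ (Q g)) / e (Q g) ^ 2 := ⟨_, fun g => rfl⟩
  have key : ∀ (g : κ) (P' Q' : A), e Q' ≠ 0 → g = e P' / e Q' →
      d g = (e Q' * δ P' - e P' * δ Q') / e Q' ^ 2 := by
    intro g P' Q' hQ' hg'
    rw [hd]
    have h1 : e (P g) / e (Q g) = e P' / e Q' := (hg g).symm.trans hg'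
    refine dvKer_wd (hQ g) hQ' h1 ?_
    have h3 : e (P g) * e Q' = e P' * e (Q g) := (div_eq_div_iff (hQ g) hQ').1 h1
    have h4 : e (P g * Q' + -(P' * Q g)) = 0 := by
      rw [map_add, map_neg, map_mul, map_mul, h3]
      exact add_neg_cancel _
    have h5 := hz _ h4
    rw [hadd, hneg, hmul, hmul] at h5
    rw [← h5]
    ring
  refine ⟨Derivation.mk'
    { toFun := d
      map_add' := ?_
      map_smul' := ?_ } ?_, ?_⟩
  · intro g h
    have hQg := hQ g
    have hQh := hQ h
    have h1 : g + h = e (P g * Q h + P h * Q g) / e (Q g * Q h) := by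
      rw [map_add, map_mul, map_mul, map_mul]
      conv_lhs => rw [hg g, hg h]
      field_simp
    rw [key (g + h) _ _ (by rw [map_mul]; exact mul_ne_zero hQg hQh) h1, hd g, hd h]
    simp only [map_add, map_mul, hadd, hmul]
    field_simp
    ring
  · intro c g
    have hQg := hQ g
    have h1 : c • g = e (algebraMap k A c * P g) / e (Q g) := by
      rw [map_mul, AlgHom.commutes, Algebra.smul_def]
      conv_lhs => rw [hg g]
      rw [mul_div_assoc]
    rw [key (c • g) _ _ hQg h1, RingHom.id_apply, hd g, Algebra.smul_def]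
    simp only [map_mul, hmul, hC, AlgHom.commutes]
    field_simp
    ring
  · intro g h
    have hQg := hQ g
    have hQh := hQ h
    have h1 : g * h = e (P g * P h) / e (Q g * Q h) := by
      rw [map_mul, map_mul]
      conv_lhs => rw [hg g, hg h]
      rw [div_mul_div_comm]
    change d (g * h) = g • d h + h • d g
    rw [key (g * h) _ _ (by rw [map_mul]; exact mul_ne_zero hQg hQh) h1, hd g, hd h,
      smul_eq_mul, smul_eq_mul]
    have h2 : g * ((e (Q h) * δ (P h) - e (P h) * δ (Q h)) / e (Q h) ^ 2) +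
        h * ((e (Q g) * δ (P g) - e (P g) * δ (Q g)) / e (Q g) ^ 2) =
        e (P g) / e (Q g) * ((e (Q h) * δ (P h) - e (P h) * δ (Q h)) / e (Q h) ^ 2) +
        e (P h) / e (Q h) * ((e (Q g) * δ (P g) - e (P g) * δ (Q g)) / e (Q g) ^ 2) := by
      rw [← hg g, ← hg h]
    rw [h2]
    simp only [map_mul, hmul]
    field_simp
    ring
  · intro F
    change d (e F) = δ F
    rw [key (e F) F 1 (by rw [map_one]; exact one_ne_zero) (by rw [map_one, div_one]), hone,
      map_one]
    ring

theorem dvKer {k : Type u} {κ : Type v} [Field k] [Field κ] [Algebra k κ] {σ : Type w}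
    [Fintype σ] (y : σ → κ)
    (hgen : ∀ g : κ, ∃ P Q : MvPolynomial σ k, aeval y Q ≠ 0 ∧ g = aeval y P / aeval y Q)
    (z : σ → κ) (hz : ∀ F : MvPolynomial σ k, aeval y F = 0 →
      ∑ i, aeval y (pderiv i F) * z i = 0) : z ∈ DV (k := k) y := by
  obtain ⟨δ, hδ⟩ : ∃ δ : MvPolynomial σ k → κ, ∀ F, δ F =
      ∑ i, aeval y (pderiv i F) * z i := ⟨_, fun F => rfl⟩
  have hadd : ∀ F G, δ (F + G) = δ F + δ G := by
    intro F G
    rw [hδ, hδ, hδ, ← Finset.sum_add_distrib]
    refine Finset.sum_congr rfl fun i _ => ?_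
    rw [map_add, map_add, add_mul]
  have hmul : ∀ F G, δ (F * G) = aeval y F * δ G + aeval y G * δ F := by
    intro F G
    rw [hδ, hδ, hδ, Finset.mul_sum, Finset.mul_sum, ← Finset.sum_add_distrib]
    refine Finset.sum_congr rfl fun i _ => ?_
    rw [Derivation.leibniz, map_add, smul_eq_mul, smul_eq_mul, map_mul, map_mul]
    ring
  have hC : ∀ c : k, δ (algebraMap k (MvPolynomial σ k) c) = 0 := by
    intro c
    rw [hδ]
    refine Finset.sum_eq_zero fun i _ => ?_
    rw [Derivation.map_algebraMap, map_zero, zero_mul]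
  obtain ⟨d, hd⟩ := dvKer_ext (aeval y : MvPolynomial σ k →ₐ[k] κ) δ hadd hmul hC hgen
    fun F hF => by rw [hδ]; exact hz F hF
  refine (mem_DV y z).2 ⟨d, fun i => ?_⟩
  have h1 := hd (X i)
  rw [aeval_X, hδ] at h1
  rw [h1, Finset.sum_eq_single i]
  · rw [pderiv_X_self, map_one, one_mul]
  · intro j _ hj
    rw [pderiv_X_of_ne (Ne.symm hj), map_zero, zero_mul]
  · exact fun h => absurd (Finset.mem_univ i) h

end Pool.Agent.MLD.Cox
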