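import Pool.Agent.Lib.MP_f23696_ag.Y.Defs

/-!
Project COX, module ExpD: the exponential of a derivation of `R⟦X⟧` which raises the order.

Proof.  `Δ = d` satisfies `Δ (X f) = X Δ f` and `X ∣ Δ f`, so `X^i ∣ Δ^i f` (induction: if
`Δ^i f = X^i g` then `Δ^(i+1) f = X^i Δ g`), more generally `Δ (X^n f) = X^n Δ f`.  Put
`e f = PowerSeries.mk fun n => coeff n (∑_(i ≤ n) (1/i!) Δ^i f)`; since `X^i ∣ Δ^i f` the terms with
`i > n` do not contribute to the coefficient `n`, which gives the stated formula for all `s ≥ n`.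
Additivity and `ℚ`-linearity are clear, `e 1 = 1` as `Δ 1 = 0`.  Multiplicativity: modulo
`X^(s+1)` we have `e (f g) ≡ ∑_(i ≤ s) (1/i!) Δ^i (f g) = ∑_(i ≤ s) ∑_(p+q=i) (Δ^p f/p!)(Δ^q g/q!)`
(Leibniz formula, by induction; Mathlib has `Derivation.leibniz_pow`-type lemmas only, so prove
`Δ^i (f g) = ∑_(p+q=i) i.choose p * Δ^p f * Δ^q g`), and
`e f e g ≡ ∑_(p, q ≤ s) (Δ^p f/p!)(Δ^q g/q!)`, where the terms with `p + q > s` are divisible by
`X^(s+1)`.
-/

set_option autoImplicit false

namespace Pool.Agent.MLD.Cox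

open scoped PowerSeries

universe u v w

private noncomputable def ExpD_a {A : Type u} [CommRing A] [Algebra ℚ A] (d : Derivation ℚ A A)
    (i : ℕ) (f : A) : A := ((i.factorial : ℚ)⁻¹) • (d^[i]) f

private theorem ExpD_zero {A : Type u} [CommRing A] [Algebra ℚ A] (d : Derivation ℚ A A)
    (f : A) : ExpD_a d 0 f = f := by
  simp [ExpD_a]

private theorem ExpD_succ {A : Type u} [CommRing A] [Algebra ℚ A] (d : Derivation ℚ A A)
    (i : ℕ) (f : A) : ((i : ℚ) + 1) • ExpD_a d (i + 1) f = d (ExpD_a d i f) := by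
  rw [ExpD_a, ExpD_a, d.map_smul, Function.iterate_succ_apply', smul_smul]
  congr 1
  have h : ((i : ℚ) + 1) ≠ 0 := by positivity
  rw [Nat.factorial_succ]
  push_cast
  rw [mul_inv, ← mul_assoc, mul_inv_cancel₀ h, one_mul]

private theorem ExpD_leib {A : Type u} [CommRing A] [Algebra ℚ A] (d : Derivation ℚ A A)
    (i : ℕ) (f g : A) : ExpD_a d i (f * g) =
      ∑ x ∈ Finset.HasAntidiagonal.antidiagonal i, ExpD_a d x.1 f * ExpD_a d x.2 g := by
  induction i with
  | zero => simp [ExpD_zero]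
  | succ i ih =>
    have h0 : ((i : ℚ) + 1) ≠ 0 := by positivity
    have key : ((i : ℚ) + 1) • ExpD_a d (i + 1) (f * g) = ((i : ℚ) + 1) •
        ∑ x ∈ Finset.HasAntidiagonal.antidiagonal (i + 1), ExpD_a d x.1 f * ExpD_a d x.2 g := by
      have h1 : ((i : ℚ) + 1) •
          ∑ x ∈ Finset.HasAntidiagonal.antidiagonal (i + 1), ExpD_a d x.1 f * ExpD_a d x.2 g =
          (∑ x ∈ Finset.HasAntidiagonal.antidiagonal (i + 1),
            (x.1 : ℚ) • (ExpD_a d x.1 f * ExpD_a d x.2 g)) +
          ∑ x ∈ Finset.HasAntidiagonal.antidiagonal (i + 1),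
            (x.2 : ℚ) • (ExpD_a d x.1 f * ExpD_a d x.2 g) := by
        rw [← Finset.sum_add_distrib, Finset.smul_sum]
        refine Finset.sum_congr rfl fun x hx => ?_
        rw [← add_smul]
        congr 1
        have := Finset.HasAntidiagonal.mem_antidiagonal.1 hx
        exact_mod_cast this.symm
      rw [h1, Finset.Nat.sum_antidiagonal_succ, Finset.Nat.sum_antidiagonal_succ', ExpD_succ, ih,
        map_sum]
      simp only [Nat.cast_zero, zero_smul, zero_add, Nat.cast_add, Nat.cast_one]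
      rw [← Finset.sum_add_distrib]
      refine Finset.sum_congr rfl fun x _ => ?_
      rw [d.leibniz, smul_eq_mul, smul_eq_mul, ← smul_mul_assoc, ExpD_succ, ← mul_smul_comm,
        ExpD_succ]
      ring
    have h2 := congrArg (fun z => ((i : ℚ) + 1)⁻¹ • z) key
    simpa only [smul_smul, inv_mul_cancel₀ h0, one_smul] using h2

theorem expD {R : Type u} [CommRing R] [Algebra ℚ R] (d : Derivation ℚ R⟦X⟧ R⟦X⟧)
    (hX : ∀ f, (PowerSeries.X : R⟦X⟧) ∣ d f) (hd : d PowerSeries.X = 0) :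
    ∃ e : R⟦X⟧ →+* R⟦X⟧, (∀ (n s : ℕ) (f : R⟦X⟧), n ≤ s → PowerSeries.coeff n (e f) =
      PowerSeries.coeff n (∑ i ∈ Finset.range (s + 1), ((i.factorial : ℚ)⁻¹) • (d^[i]) f)) := by
  have hdv : ∀ (i : ℕ) (f : R⟦X⟧), (PowerSeries.X : R⟦X⟧) ^ i ∣ ExpD_a d i f := by
    intro i f
    have h : (PowerSeries.X : R⟦X⟧) ^ i ∣ (d^[i]) f := by
      induction i with
      | zero => simp
      | succ i ih =>
        obtain ⟨g, hg⟩ := ih
        obtain ⟨g', hg'⟩ := hX g
        rw [Function.iterate_succ_apply', hg, d.leibniz, d.leibniz_pow, hd, smul_zero, smul_zero,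
          smul_zero, add_zero, hg', smul_eq_mul, pow_succ]
        exact ⟨g', by ring⟩
    obtain ⟨g, hg⟩ := h
    refine ⟨((i.factorial : ℚ)⁻¹) • g, ?_⟩
    rw [ExpD_a, hg, mul_smul_comm]
  have hz : ∀ (n i : ℕ) (f : R⟦X⟧), n < i → PowerSeries.coeff n (ExpD_a d i f) = 0 :=
    fun n i f hn => PowerSeries.X_pow_dvd_iff.1 (hdv i f) n hn
  have hT : ∀ (n s : ℕ) (f : R⟦X⟧), n ≤ s →
      ∑ i ∈ Finset.range (s + 1), PowerSeries.coeff n (ExpD_a d i f) =
        ∑ i ∈ Finset.range (n + 1), PowerSeries.coeff n (ExpD_a d i f) := by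
    intro n s f hn
    symm
    refine Finset.sum_subset (fun i hi => ?_) fun i _ hi => hz n i f ?_
    · rw [Finset.mem_range] at hi ⊢
      omega
    · rw [Finset.mem_range] at hi
      omega
  let E : R⟦X⟧ → R⟦X⟧ := fun f =>
    PowerSeries.mk fun n => ∑ i ∈ Finset.range (n + 1), PowerSeries.coeff n (ExpD_a d i f)
  have hE : ∀ (n s : ℕ) (f : R⟦X⟧), n ≤ s → PowerSeries.coeff n (E f) =
      ∑ i ∈ Finset.range (s + 1), PowerSeries.coeff n (ExpD_a d i f) := by
    intro n s f hn
    rw [hT n s f hn]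
    exact PowerSeries.coeff_mk _ _
  have hone : E 1 = 1 := by
    ext n
    rw [hE n n 1 le_rfl, Finset.sum_range_succ', ExpD_zero]
    rw [Finset.sum_eq_zero, zero_add]
    intro i _
    rw [ExpD_a, Function.iterate_succ_apply, d.map_one_eq_zero, iterate_map_zero, smul_zero,
      map_zero]
  have hadd : ∀ f g, E (f + g) = E f + E g := by
    intro f g
    ext n
    rw [map_add, hE n n _ le_rfl, hE n n _ le_rfl, hE n n _ le_rfl, ← Finset.sum_add_distrib]
    refine Finset.sum_congr rfl fun i _ => ?_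
    rw [← map_add, ExpD_a, ExpD_a, ExpD_a, iterate_map_add, smul_add]
  have hmul : ∀ f g, E (f * g) = E f * E g := by
    intro f g
    ext n
    rw [hE n n _ le_rfl, PowerSeries.coeff_mul]
    have h1 : ∑ p ∈ Finset.HasAntidiagonal.antidiagonal n, PowerSeries.coeff p.1 (E f) *
        PowerSeries.coeff p.2 (E g) = ∑ p ∈ Finset.HasAntidiagonal.antidiagonal n,
          ∑ i ∈ Finset.range (n + 1), ∑ j ∈ Finset.range (n + 1),
            PowerSeries.coeff p.1 (ExpD_a d i f) * PowerSeries.coeff p.2 (ExpD_a d j g) := by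
      refine Finset.sum_congr rfl fun p hp => ?_
      have hp' := Finset.HasAntidiagonal.mem_antidiagonal.1 hp
      rw [hE p.1 n f (by omega), hE p.2 n g (by omega), Finset.sum_mul_sum]
    have h2 : ∑ p ∈ Finset.HasAntidiagonal.antidiagonal n,
          ∑ i ∈ Finset.range (n + 1), ∑ j ∈ Finset.range (n + 1),
            PowerSeries.coeff p.1 (ExpD_a d i f) * PowerSeries.coeff p.2 (ExpD_a d j g) =
        ∑ x ∈ Finset.range (n + 1) ×ˢ Finset.range (n + 1),
          PowerSeries.coeff n (ExpD_a d x.1 f * ExpD_a d x.2 g) := by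
      rw [Finset.sum_product, Finset.sum_comm]
      refine Finset.sum_congr rfl fun i _ => ?_
      rw [Finset.sum_comm]
      refine Finset.sum_congr rfl fun j _ => ?_
      rw [PowerSeries.coeff_mul]
    have h3 : ∀ i ∈ Finset.range (n + 1), PowerSeries.coeff n (ExpD_a d i (f * g)) =
        ∑ x ∈ ((Finset.range (n + 1) ×ˢ Finset.range (n + 1)).filter
          fun x => x.1 + x.2 ≤ n).filter fun x => x.1 + x.2 = i,
            PowerSeries.coeff n (ExpD_a d x.1 f * ExpD_a d x.2 g) := by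
      intro i hi
      rw [Finset.mem_range] at hi
      rw [ExpD_leib, map_sum]
      refine Finset.sum_congr ?_ fun _ _ => rfl
      ext x
      simp only [Finset.HasAntidiagonal.mem_antidiagonal, Finset.mem_filter, Finset.mem_product,
        Finset.mem_range]
      omega
    rw [h1, h2, Finset.sum_congr rfl h3, Finset.sum_fiberwise_of_maps_to]
    · refine Finset.sum_subset (Finset.filter_subset _ _) fun x hx hx' => ?_
      rw [Finset.mem_filter] at hx'
      have hlt : n < x.1 + x.2 := by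
        by_contra hc
        exact hx' ⟨hx, by omega⟩
      have hdd : (PowerSeries.X : R⟦X⟧) ^ (x.1 + x.2) ∣ ExpD_a d x.1 f * ExpD_a d x.2 g := by
        rw [pow_add]
        exact mul_dvd_mul (hdv _ _) (hdv _ _)
      exact PowerSeries.X_pow_dvd_iff.1 hdd n hlt
    · intro x hx
      rw [Finset.mem_filter] at hx
      rw [Finset.mem_range]
      omega
  have hzero : E 0 = 0 := by
    have h := hadd 0 0
    rw [add_zero] at h
    exact left_eq_add.1 h
  refine ⟨⟨⟨⟨E, hone⟩, hmul⟩, hzero, hadd⟩, fun n s f hn => ?_⟩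
  rw [map_sum]
  exact hE n s f hn

end Pool.Agent.MLD.Cox
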