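import Pool.Agent.Lib.MP_f23696_ag.Y.SysA
import Pool.Agent.Lib.MP_f23696_ag.Y.Ld

/-!
Project COX, module Ext0: extension of an arc of `K` to `L` with universal torus coordinates.

`F2 F h c` is the field of rational functions over `F` in the variables `σ_(l,j)` (`inl (l,j)`) and
`ζ_(a,j)` (`inr (a,j)`); `sg l = ∑_j σ_(l,j) t^j`.

Proof.  Let `Γ₂ : K →ₐ[k] HahnSeries ℤ F₂`, `Γ₂ b` with coefficients
`algebraMap F F₂ ((Γ b).coeff n)` (`HahnSeries.map`; a ring homomorphism).
(1) `Ψ : MvPolynomial (Fin h) K → HahnSeries ℤ F₂`, `G ↦ eval₂ Γ₂ (fun l => toL (sg l)) G`, is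
injective: let `G = ∑_α g_α X^α ≠ 0`, `o` the least order of the `Γ g_α`, `α ∈ supp G` (`Γ` is
injective, being a homomorphism of fields).  The coefficient of `t^o` of
`Γ₂ g_α * ∏ (sg l)^(α l)` is the image of `(Γ g_α).coeff o * ∏ σ_(l,0)^(α l)` (all other
contributions come from lower coefficients of `Γ g_α`, which vanish).  So the coefficient of `t^o`
of `Ψ G` is the image of the polynomial `∑_α (Γ g_α).coeff o * ∏ σ_(l,0)^(α l)`, which is not zero,
since the monomials are distinct and some coefficient `(Γ g_α).coeff o` is not zero.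
(2) `Φ : MvPolynomial (Fin h) K → L`, `G ↦ eval₂ φ s G`, is injective (`ind_s`), and `L` is
generated as a field by its image: `x i = φ (ξ i) * ∏ s l ^ χ i l` (`x_eq`) and `S.gen`.  So every
element of `L` is a quotient of two elements of the image, i.e. `L` is the fraction field of
`MvPolynomial (Fin h) K` via `Φ`, and `Ψ` extends to `ρ₀ : L → HahnSeries ℤ F₂`
(`IsFractionRing.lift` / `IsLocalization.lift`).  `ρ₀ (φ b) = Ψ (C b) = Γ₂ b`, `ρ₀ (s l) = Ψ (X l)`.
-/

set_option autoImplicit false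

namespace Pool.Agent.MLD.Cox

open MvPolynomial
open scoped PowerSeries

universe u v w

/-- the field of rational functions in the torus coordinates and the `ζ` over `F` -/
abbrev F2 (F : Type v) [Field F] (h c : ℕ) :=
  FractionRing (MvPolynomial ((Fin h × ℕ) ⊕ (Fin c × ℕ)) F)

/-- the universal arc of the torus -/
noncomputable def sg (F : Type v) [Field F] (h c : ℕ) (l : Fin h) : (F2 F h c)⟦X⟧ :=
  PowerSeries.mk fun j => algebraMap (MvPolynomial ((Fin h × ℕ) ⊕ (Fin c × ℕ)) F) (F2 F h c)
    (X (Sum.inl (l, j)))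

/-- the universal series `ζ_a` -/
noncomputable def zt (F : Type v) [Field F] (h c : ℕ) (a : Fin c) : (F2 F h c)⟦X⟧ :=
  PowerSeries.mk fun j => algebraMap (MvPolynomial ((Fin h × ℕ) ⊕ (Fin c × ℕ)) F) (F2 F h c)
    (X (Sum.inr (a, j)))

private theorem Ext0_toL {R : Type v} [CommRing R] (f : R⟦X⟧) (i : ℤ) :
    (toL f).coeff i = if i < 0 then 0 else PowerSeries.coeff i.natAbs f :=
  PowerSeries.coeff_coe f i

private theorem Ext0_coeff {κ : Type v} [Field κ] {f : HahnSeries ℤ κ} {o : ℤ}
    (hf : ∀ n < o, f.coeff n = 0) (P : κ⟦X⟧) :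
    (f * toL P).coeff o = f.coeff o * PowerSeries.coeff 0 P := by
  have h0 : (toL P).coeff 0 = PowerSeries.coeff 0 P := by
    rw [Ext0_toL, if_neg (lt_irrefl 0)]
    rfl
  rw [HahnSeries.coeff_mul, Finset.sum_eq_single (o, 0), h0]
  · intro b hb hne
    have h1 : b.1 + b.2 = o := (Finset.mem_antidiagonal.mp hb).2.2
    rcases lt_or_ge b.1 o with h2 | h2
    · rw [hf _ h2, zero_mul]
    · have h3 : b.2 < 0 := by
        rcases lt_or_ge b.2 0 with h4 | h4
        · exact h4
        · exact absurd (Prod.ext (by simp only; omega) (by simp only; omega)) hne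
      rw [Ext0_toL, if_pos h3, mul_zero]
  · intro hn
    by_contra hcon
    refine hn (Finset.mem_antidiagonal.mpr ⟨?_, ?_, add_zero o⟩)
    · exact left_ne_zero_of_mul hcon
    · exact right_ne_zero_of_mul hcon

/-- the inclusion of the Laurent series over `F` -/
private noncomputable def Ext0_map (F : Type v) [Field F] (h c : ℕ) :
    HahnSeries ℤ F →+* HahnSeries ℤ (F2 F h c) where
  toFun f := HahnSeries.map f (algebraMap F (F2 F h c))
  map_one' := by
    ext n
    change algebraMap F (F2 F h c) ((1 : HahnSeries ℤ F).coeff n) = _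
    rw [HahnSeries.coeff_one, HahnSeries.coeff_one]
    split_ifs
    · exact map_one _
    · exact map_zero _
  map_zero' := by
    ext n
    change algebraMap F (F2 F h c) ((0 : HahnSeries ℤ F).coeff n) = _
    rw [HahnSeries.coeff_zero, HahnSeries.coeff_zero, map_zero]
  map_add' f g := by
    ext n
    change algebraMap F (F2 F h c) ((f + g).coeff n) = _
    rw [HahnSeries.coeff_add, HahnSeries.coeff_add, map_add]
    rfl
  map_mul' f g := by
    ext n
    change algebraMap F (F2 F h c) ((f * g).coeff n) = _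
    rw [HahnSeries.coeff_mul, HahnSeries.coeff_mul, map_sum]
    refine Finset.sum_congr ?_ fun ij _ => map_mul _ _ _
    ext ij
    rw [Finset.mem_antidiagonal, Finset.mem_antidiagonal, HahnSeries.mem_support,
      HahnSeries.mem_support, HahnSeries.mem_support, HahnSeries.mem_support]
    change _ ↔ algebraMap F (F2 F h c) (f.coeff ij.1) ≠ 0 ∧
      algebraMap F (F2 F h c) (g.coeff ij.2) ≠ 0 ∧ _
    rw [ne_eq, ne_eq, ne_eq, ne_eq, map_eq_zero, map_eq_zero]

private theorem Ext0_map_coeff {F : Type v} [Field F] {h c : ℕ} (f : HahnSeries ℤ F) (n : ℤ) :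
    (Ext0_map F h c f).coeff n = algebraMap F (F2 F h c) (f.coeff n) := rfl

/-- the evaluation of the leading coefficients -/
private noncomputable def Ext0_th (F : Type v) [Field F] (h c : ℕ) :
    MvPolynomial (Fin h) F →+* F2 F h c :=
  (algebraMap (MvPolynomial ((Fin h × ℕ) ⊕ (Fin c × ℕ)) F) (F2 F h c)).comp
    (rename fun l : Fin h => (Sum.inl (l, 0) : (Fin h × ℕ) ⊕ (Fin c × ℕ))).toRingHom

private theorem Ext0_th_inj (F : Type v) [Field F] (h c : ℕ) :
    Function.Injective (Ext0_th F h c) := by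
  refine (IsFractionRing.injective (MvPolynomial ((Fin h × ℕ) ⊕ (Fin c × ℕ)) F)
    (F2 F h c)).comp ?_
  exact rename_injective _ fun a b hab => by
    have h1 := Sum.inl.inj hab
    exact (Prod.mk.inj h1).1

private theorem Ext0_th_monomial {F : Type v} [Field F] {h c : ℕ} (α : Fin h →₀ ℕ) (r : F) :
    Ext0_th F h c (monomial α r) = algebraMap F (F2 F h c) r *
      ∏ l, algebraMap (MvPolynomial ((Fin h × ℕ) ⊕ (Fin c × ℕ)) F) (F2 F h c)
        (X (Sum.inl (l, 0))) ^ α l := by
  have h1 : Ext0_th F h c = eval₂Hom (algebraMap F (F2 F h c)) (fun l : Fin h =>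
      algebraMap (MvPolynomial ((Fin h × ℕ) ⊕ (Fin c × ℕ)) F) (F2 F h c)
        (X (Sum.inl (l, 0)))) := by
    refine ringHom_ext (fun r => ?_) fun l => ?_
    · change algebraMap (MvPolynomial ((Fin h × ℕ) ⊕ (Fin c × ℕ)) F) (F2 F h c)
        (rename (fun l : Fin h => (Sum.inl (l, 0) : (Fin h × ℕ) ⊕ (Fin c × ℕ))) (C r)) = _
      rw [rename_C, eval₂Hom_C]
      exact (IsScalarTower.algebraMap_apply F (MvPolynomial ((Fin h × ℕ) ⊕ (Fin c × ℕ)) F)
        (F2 F h c) r).symm
    · change algebraMap (MvPolynomial ((Fin h × ℕ) ⊕ (Fin c × ℕ)) F) (F2 F h c)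
        (rename (fun l : Fin h => (Sum.inl (l, 0) : (Fin h × ℕ) ⊕ (Fin c × ℕ))) (X l)) = _
      rw [rename_X, eval₂Hom_X']
  rw [h1, coe_eval₂Hom, eval₂_monomial, Finsupp.prod_fintype]
  intro i
  exact pow_zero _

private theorem Ext0_inj {k : Type u} {K : Type v} [Field k] [Field K] [Algebra k K] {h c : ℕ}
    {F : Type v} [Field F] [Algebra k F] (Γ : K →ₐ[k] HahnSeries ℤ F) :
    Function.Injective (eval₂Hom ((Ext0_map F h c).comp (Γ : K →+* HahnSeries ℤ F))
      fun l => toL (sg F h c l)) := by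
  rw [injective_iff_map_eq_zero]
  intro G hG
  by_contra hne
  obtain ⟨α₀, hα₀, hmin⟩ := Finset.exists_min_image G.support
    (fun α => (Γ (coeff α G)).order) (support_nonempty.2 hne)
  set o : ℤ := (Γ (coeff α₀ G)).order with ho
  have hlow : ∀ α ∈ G.support, ∀ n < o, (Γ (coeff α G)).coeff n = 0 := fun α hα n hn =>
    HahnSeries.coeff_eq_zero_of_lt_order (lt_of_lt_of_le hn (hmin α hα))
  have h1 : Ext0_th F h c (∑ α ∈ G.support, monomial α ((Γ (coeff α G)).coeff o)) = 0 := by
    have h2 : (eval₂Hom ((Ext0_map F h c).comp (Γ : K →+* HahnSeries ℤ F))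
      (fun l => toL (sg F h c l)) G).coeff o = 0 := by
      rw [hG, HahnSeries.coeff_zero]
    rw [coe_eval₂Hom, eval₂_eq', HahnSeries.coeff_sum] at h2
    rw [map_sum, ← h2]
    refine Finset.sum_congr rfl fun α hα => ?_
    have h3 : (∏ l, toL (sg F h c l) ^ α l) = toL (∏ l, sg F h c l ^ α l) := by
      unfold toL
      rw [map_prod]
      refine Finset.prod_congr rfl fun l _ => ?_
      rw [map_pow]
    rw [Ext0_th_monomial, h3, Ext0_coeff]
    · congr 1
      rw [PowerSeries.coeff_zero_eq_constantCoeff, map_prod]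
      refine Finset.prod_congr rfl fun l _ => ?_
      rw [map_pow]
      congr 1
    · intro n hn
      change algebraMap F (F2 F h c) ((Γ (coeff α G)).coeff n) = 0
      rw [hlow α hα n hn, map_zero]
  have h4 := (injective_iff_map_eq_zero _).1 (Ext0_th_inj F h c) _ h1
  have h5 := congrArg (coeff α₀) h4
  rw [coeff_sum, coeff_zero] at h5
  simp only [coeff_monomial] at h5
  rw [Finset.sum_ite_eq', if_pos hα₀] at h5
  have h6 : Γ (coeff α₀ G) = 0 := HahnSeries.coeff_order_eq_zero.1 h5
  have h7 : coeff α₀ G = 0 := (map_eq_zero Γ).1 h6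
  exact (mem_support_iff.1 hα₀) h7

theorem ext0 {k : Type u} {K : Type v} {L : Type w} [Field k] [Field K] [Field L] [Algebra k K]
    [Algebra k L] {m h c : ℕ} (S : Sys k K L m h c) {F : Type v} [Field F] [Algebra k F]
    (Γ : K →ₐ[k] HahnSeries ℤ F) :
    ∃ ρ₀ : L →ₐ[k] HahnSeries ℤ (F2 F h c),
      (∀ b n, (ρ₀ (S.φ b)).coeff n = algebraMap F (F2 F h c) ((Γ b).coeff n)) ∧
      ∀ l, ρ₀ (S.s l) = toL (sg F h c l) := by
  let Φ : MvPolynomial (Fin h) K →ₐ[k] L :=
    { eval₂Hom (S.φ : K →+* L) S.s with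
      commutes' := fun r => by
        change eval₂ (S.φ : K →+* L) S.s (algebraMap k (MvPolynomial (Fin h) K) r) = _
        rw [MvPolynomial.algebraMap_apply, eval₂_C]
        exact S.φ.commutes r }
  have hΦ : Function.Injective Φ := by
    rw [injective_iff_map_eq_zero]
    intro G hG
    by_contra hne
    exact S.ind_s G hne hG
  let Ψ : MvPolynomial (Fin h) K →ₐ[k] HahnSeries ℤ (F2 F h c) :=
    { eval₂Hom ((Ext0_map F h c).comp (Γ : K →+* HahnSeries ℤ F))
        (fun l => toL (sg F h c l)) with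
      commutes' := fun r => by
        change eval₂ ((Ext0_map F h c).comp (Γ : K →+* HahnSeries ℤ F))
          (fun l => toL (sg F h c l)) (algebraMap k (MvPolynomial (Fin h) K) r) = _
        rw [MvPolynomial.algebraMap_apply, eval₂_C]
        change Ext0_map F h c (Γ (algebraMap k K r)) = _
        rw [Γ.commutes]
        have h1 : algebraMap k (HahnSeries ℤ F) r = HahnSeries.C (algebraMap k F r) :=
          algebraMap_laurent' r
        have h2 : algebraMap k (HahnSeries ℤ (F2 F h c)) r =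
            HahnSeries.C (algebraMap k (F2 F h c) r) := algebraMap_laurent' r
        rw [h1, h2]
        ext n
        rw [Ext0_map_coeff, HahnSeries.C_apply, HahnSeries.C_apply, HahnSeries.coeff_single,
          HahnSeries.coeff_single]
        split_ifs
        · exact (IsScalarTower.algebraMap_apply k F (F2 F h c) r).symm
        · exact map_zero _ }
  have hΨ : Function.Injective Ψ := Ext0_inj Γ
  let lam : FractionRing (MvPolynomial (Fin h) K) →ₐ[k] L := IsFractionRing.liftAlgHom hΦ
  have hlam : ∀ G, lam (algebraMap (MvPolynomial (Fin h) K) _ G) = Φ G := fun G =>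
    IsFractionRing.lift_algebraMap hΦ G
  have hr : ∀ G, Φ G ∈ lam.fieldRange := fun G => ⟨_, hlam G⟩
  have hs : ∀ l, S.s l ∈ lam.fieldRange := fun l => by
    have h1 := hr (X l)
    have h2 : Φ (X l) = S.s l := eval₂_X _ _ _
    rwa [h2] at h1
  have hφ : ∀ b, S.φ b ∈ lam.fieldRange := fun b => by
    have h1 := hr (C b)
    have h2 : Φ (C b) = S.φ b := eval₂_C _ _ _
    rwa [h2] at h1
  have htop : (⊤ : IntermediateField k L) ≤ lam.fieldRange := by
    rw [← S.gen, IntermediateField.adjoin_le_iff]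
    rintro _ ⟨i, rfl⟩
    change S.x i ∈ lam.fieldRange
    rw [S.x_eq]
    refine mul_mem (hφ _) ?_
    unfold Sys.sp
    exact prod_mem fun l _ => zpow_mem (hs l) _
  have hsurj : Function.Surjective lam := fun z => htop (IntermediateField.mem_top (x := z))
  let e : FractionRing (MvPolynomial (Fin h) K) ≃ₐ[k] L :=
    AlgEquiv.ofBijective lam ⟨lam.toRingHom.injective, hsurj⟩
  have he : ∀ G, e.symm (Φ G) = algebraMap (MvPolynomial (Fin h) K) _ G := fun G => by
    rw [AlgEquiv.symm_apply_eq]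
    exact (hlam G).symm
  let mu : FractionRing (MvPolynomial (Fin h) K) →ₐ[k] HahnSeries ℤ (F2 F h c) :=
    IsFractionRing.liftAlgHom hΨ
  have hmu : ∀ G, mu (algebraMap (MvPolynomial (Fin h) K) _ G) = Ψ G := fun G =>
    IsFractionRing.lift_algebraMap hΨ G
  refine ⟨mu.comp (e.symm : L →ₐ[k] FractionRing (MvPolynomial (Fin h) K)), ?_, ?_⟩
  · intro b n
    have h1 : S.φ b = Φ (C b) := (eval₂_C _ _ _).symm
    have h2 : (mu.comp (e.symm : L →ₐ[k] FractionRing (MvPolynomial (Fin h) K))) (S.φ b) =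
        Ψ (C b) := by
      rw [h1]
      change mu (e.symm (Φ (C b))) = _
      rw [he, hmu]
    have h3 : Ψ (C b) = Ext0_map F h c (Γ b) := eval₂_C _ _ _
    rw [h2, h3, Ext0_map_coeff]
  · intro l
    have h1 : S.s l = Φ (X l) := (eval₂_X _ _ _).symm
    rw [h1]
    change mu (e.symm (Φ (X l))) = _
    rw [he, hmu]
    exact eval₂_X _ _ _

end Pool.Agent.MLD.Cox
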