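import Pool.Agent.Lib.MP_f23696_ag.Y.Defs
import Pool.Agent.Lib.MP_f23696_ag.Hart
import Pool.Agent.Lib.MP_f23696_ag.Dvr
import Pool.Agent.Lib.MP_f23696_ag.T.Ind

/-!
Project COX, module HartS: Hartogs' lemma for a localization.

Proof.  Let `I = {s ∈ B : s * f ∈ B}`, an ideal.  Suppose `I` does not meet the submonoid `T`.  Then
there is a prime ideal `Q ≥ I` disjoint from `T` (`Ideal.exists_le_prime_disjoint`).  Every height
one prime `P ≤ Q` is disjoint from `T`; `dvr` (Dvr.lean) gives `w` with centre `P` such that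
`0 ≤ w.ord f` iff some `s ∉ P` has `s * f ∈ B`; by hypothesis `0 ≤ w.ord f`.  So `hartogs`
(Hart.lean) gives `s ∉ Q` with `s * f ∈ B`, i.e. `s ∈ I ≤ Q`: contradiction.
(`noeth` in T/Ind.lean: a finitely generated algebra is Noetherian.)
-/

set_option autoImplicit false

namespace Pool.Agent.MLD.Cox

open Pool.Agent.MLD.Ten

universe u v

theorem hartS {k : Type u} {L : Type v} [Field k] [Field L] [Algebra k L] (B : Subalgebra k L)
    (hB : IsGood B) (T : Submonoid B) (f : L) (hf : f ≠ 0)
    (h : ∀ P : Ideal B, IsHeightOne P → (∀ s ∈ T, s ∉ P) → ∀ w : DVal k L, w.HasCenter B P →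
      0 ≤ w.ord f) : ∃ s ∈ T, (s : L) * f ∈ B := by
  have hN := Ind.noeth B hB.fg
  by_contra hcon
  push Not at hcon
  -- the ideal of the denominators
  obtain ⟨I, hI⟩ : ∃ I : Ideal B, ∀ s : B, s ∈ I ↔ (s : L) * f ∈ B := by
    refine ⟨{ carrier := {s : B | (s : L) * f ∈ B}
              add_mem' := ?_
              zero_mem' := ?_
              smul_mem' := ?_ }, fun s => Iff.rfl⟩
    · intro a b ha hb
      have h1 := B.add_mem ha hb
      rw [← add_mul] at h1
      exact h1
    · have h1 : ((0 : B) : L) * f ∈ B := by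
        rw [ZeroMemClass.coe_zero, zero_mul]
        exact B.zero_mem
      exact h1
    · intro a b hb
      have h1 : ((a • b : B) : L) * f ∈ B := by
        rw [smul_eq_mul, MulMemClass.coe_mul, mul_assoc]
        exact B.mul_mem a.2 hb
      exact h1
  have hdisj : Disjoint (I : Set B) (T : Set B) := by
    rw [Set.disjoint_left]
    intro s hs hsT
    exact hcon s hsT ((hI s).1 hs)
  obtain ⟨Q, hQ, hIQ, hQT⟩ := Ideal.exists_le_prime_disjoint I T hdisj
  obtain ⟨s, hs, hsf⟩ := hartogs B hN hB.frac hB.norm Q hQ f hf (by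
    intro P hP hPQ
    obtain ⟨w, hw, hw'⟩ := dvr B hN hB.frac hB.norm P hP
    refine (hw' f hf).1 (h P hP ?_ w hw)
    intro s hs hsP
    exact Set.disjoint_left.1 hQT (hPQ hsP) hs)
  exact hs (hIQ ((hI s).2 hsf))

end Pool.Agent.MLD.Cox
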