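import Pool.Agent.Lib.MP_f23696_ag.Y.GPos
import Pool.Agent.Lib.MP_f23696_ag.Y.Cone
import Pool.Agent.Lib.MP_f23696_ag.Y.HartS
import Pool.Agent.Lib.MP_f23696_ag.Y.Eta
import Pool.Agent.Lib.MP_f23696_ag.JacLog

/-!
Project COX, module GFin: `η γ` is a product of nonnegative real powers of homogeneous elements of
`B`, up to units at the point.

Proof.  Let `𝒫` be the set of the height one primes `P` of `B = S.B` with `φ b ∉ P` for all
`b ∈ A \ 𝔪`, `w_P` a valuation of `L` with centre `P` (`dvr`; unique by `dvr_unique`).  Let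
`ι = Option (support of γ)`, with elements `t none = η`, `t (some g) = φ g` of `L`, `t i ≠ 0`, and
the real vector `r none = 1`, `r (some g) = γ g`.  Each `t i` is a quotient of two nonzero elements
of `B`, so only finitely many `P ∈ 𝒫` have `w_P (t i) ≠ 0` for some `i` (`finite_heightOne`,
Hart.lean).  Let `W` be the finite set of the vectors `(w_P (t i))_i` for these `P`.  By `gpos`
`∑ w_i r_i ≥ 0` for all vectors of `W`.  `cone` gives integral `g a : ι → ℤ` and `μ a ≥ 0`, with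
`∑_i w_P(t i) g a i ≥ 0` for all `P ∈ 𝒫` (trivial for the others) and `r i = ∑ μ a * g a i`.
Put `z a = ∏_i (t i)^(g a i) ∈ L`, `z a ≠ 0`, `w_P (z a) ≥ 0` for all `P ∈ 𝒫`.  `hartS` with the
submonoid `T` of the elements `φ b`, `b ∈ A \ 𝔪` (a submonoid as `𝔪` is prime), gives
`b a ∈ A \ 𝔪` with `φ (b a) * z a ∈ B`.
`z a` is homogeneous (`isHom_η`, `isHom_φ`, `isHom_mul`, powers), so `φ (b a) * z a` is a
homogeneous element of `B`, of some degree `ψ a`; it is the value of a homogeneous polynomial `G a`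
of degree `ψ a`: let `P(x) = φ (b a) z a = Q₁(x) / Q₂(x)`, so `P(x) Q₂(x) = Q₁(x)`, where `Q₂` is
homogeneous of degree `β₂` and `Q₁` of degree `β₂ + ψ a`; compare the components (`hom_sum` or
`homK` for `P Q₂ - Q₁`): `P_(ψ a)(x) Q₂(x) = Q₁(x)`.
For `ω` as in the statement (additive, zero on `φ b`, `b ∈ A \ 𝔪`; so `ω` of powers is clear, and
`ω 1 = 0`): `ω (aeval x (G a)) = ω (φ (b a)) + ω (z a) = ∑_i g a i * ω (t i)` and
`∑_a μ a ∑_i g a i ω (t i) = ∑_i r i ω (t i)`, the left side of the claim.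
-/

set_option autoImplicit false

namespace Pool.Agent.MLD.Cox

open MvPolynomial

universe u v w

section GFinAux

variable {k : Type u} {K : Type v} {L : Type w} [Field k] [Field K] [Field L]
    [Algebra k K] [Algebra k L] {m h c : ℕ} (S : Sys k K L m h c)

private theorem GFin_mem (Q : MvPolynomial (Ix m h c) k) : aeval S.x Q ∈ S.B := by
  rw [Sys.B, Algebra.adjoin_range_eq_range_aeval]
  exact ⟨Q, rfl⟩

/-- a homogeneous element of `B` is the value of a homogeneous polynomial -/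
private theorem GFin_homB {β : Fin h → ℤ} {z : L} (hz : S.IsHom β z) (hB : z ∈ S.B) :
    ∃ g : MvPolynomial (Ix m h c) k, IsWeightedHomogeneous S.χ g β ∧ aeval S.x g = z := by
  classical
  rw [Sys.B, Algebra.adjoin_range_eq_range_aeval] at hB
  obtain ⟨P, hP⟩ := hB
  have hP' : aeval S.x P = z := hP
  refine ⟨weightedHomogeneousComponent S.χ β P,
    weightedHomogeneousComponent_isWeightedHomogeneous β P, ?_⟩
  obtain ⟨T, hT⟩ : ∃ T : Finset (Fin h → ℤ),
      T = (weightedHomogeneousComponent_finsupp (w := S.χ) P).toFinset ∪ {β} := ⟨_, rfl⟩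
  have hβT : β ∈ T := by
    rw [hT]
    exact Finset.mem_union_right _ (Finset.mem_singleton_self β)
  have hsum : ∑ β' ∈ T, weightedHomogeneousComponent S.χ β' P = P := by
    conv_rhs => rw [← sum_weightedHomogeneousComponent S.χ P]
    symm
    apply finsum_eq_sum_of_support_subset
    intro x hx
    rw [hT]
    refine Finset.mem_coe.2 (Finset.mem_union_left _ ?_)
    exact (Set.Finite.mem_toFinset _).2 hx
  have key := S.hom_sum T
    (fun β' => aeval S.x (weightedHomogeneousComponent S.χ β' P) - if β' = β then z else 0)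
    (fun β' _ => ?_) ?_ β hβT
  · beta_reduce at key
    rw [if_pos rfl] at key
    exact sub_eq_zero.1 key
  · have h1 := S.isHom_poly _ β'
      (weightedHomogeneousComponent_isWeightedHomogeneous (w := S.χ) β' P)
    by_cases hb : β' = β
    · rw [if_pos hb]
      obtain ⟨b, hb1⟩ := (S.isHom_iff β' _).1 h1
      obtain ⟨b', hb2⟩ := (S.isHom_iff β' z).1 (hb ▸ hz)
      refine (S.isHom_iff β' _).2 ⟨b - b', ?_⟩
      rw [map_sub, mul_sub, ← hb1, ← hb2]
    · rw [if_neg hb, sub_zero]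
      exact h1
  · rw [Finset.sum_sub_distrib, ← map_sum, hsum, Finset.sum_ite_eq' T β, if_pos hβT, hP', sub_self]

private theorem GFin_isHom_one : S.IsHom 0 1 := by
  have h1 := S.isHom_φ 1
  rwa [map_one] at h1

private theorem GFin_isHom_pow {β : Fin h → ℤ} {z : L} (hz : S.IsHom β z) (n : ℕ) :
    ∃ β', S.IsHom β' (z ^ n) := by
  induction n with
  | zero =>
    refine ⟨0, ?_⟩
    rw [pow_zero]
    exact GFin_isHom_one S
  | succ n ih =>
    obtain ⟨β', h1⟩ := ih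
    refine ⟨β' + β, ?_⟩
    rw [pow_succ]
    exact S.isHom_mul h1 hz

private theorem GFin_isHom_zpow {β : Fin h → ℤ} {z : L} (hz : S.IsHom β z) (n : ℤ) :
    ∃ β', S.IsHom β' (z ^ n) := by
  cases n with
  | ofNat n =>
    obtain ⟨β', h1⟩ := GFin_isHom_pow S hz n
    refine ⟨β', ?_⟩
    have h2 : z ^ (Int.ofNat n) = z ^ n := zpow_natCast z n
    rw [h2]
    exact h1
  | negSucc n =>
    obtain ⟨β', h1⟩ := GFin_isHom_pow S hz (n + 1)
    refine ⟨-β', ?_⟩
    rw [zpow_negSucc]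
    exact S.isHom_inv h1

private theorem GFin_isHom_prod {ι : Type*} (s : Finset ι) (t : ι → L) (g : ι → ℤ)
    (ht : ∀ i, ∃ β, S.IsHom β (t i)) : ∃ β, S.IsHom β (∏ i ∈ s, t i ^ g i) := by
  classical
  induction s using Finset.induction_on with
  | empty =>
    refine ⟨0, ?_⟩
    rw [Finset.prod_empty]
    exact GFin_isHom_one S
  | insert a s ha ih =>
    obtain ⟨β, h1⟩ := ih
    obtain ⟨β₁, h2⟩ := ht a
    obtain ⟨β₂, h3⟩ := GFin_isHom_zpow S h2 (g a)
    refine ⟨β₂ + β, ?_⟩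
    rw [Finset.prod_insert ha]
    exact S.isHom_mul h3 h1

end GFinAux

section GFinω

variable {L : Type w} [Field L] (ω : L → ℝ)
  (hω : ∀ z z', z ≠ 0 → z' ≠ 0 → ω (z * z') = ω z + ω z')

include hω

private theorem GFin_ω_one : ω 1 = 0 := by
  have h1 := hω 1 1 one_ne_zero one_ne_zero
  rw [mul_one] at h1
  linarith

private theorem GFin_ω_pow {z : L} (hz : z ≠ 0) (n : ℕ) : ω (z ^ n) = n * ω z := by
  induction n with
  | zero => rw [pow_zero, GFin_ω_one ω hω, Nat.cast_zero, zero_mul]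
  | succ n ih =>
    rw [pow_succ, hω _ _ (pow_ne_zero n hz) hz, ih]
    push_cast
    ring

private theorem GFin_ω_inv {z : L} (hz : z ≠ 0) : ω z⁻¹ = -ω z := by
  have h1 := hω z z⁻¹ hz (inv_ne_zero hz)
  rw [mul_inv_cancel₀ hz, GFin_ω_one ω hω] at h1
  linarith

private theorem GFin_ω_zpow {z : L} (hz : z ≠ 0) (n : ℤ) : ω (z ^ n) = n * ω z := by
  cases n with
  | ofNat n =>
    have h2 : z ^ (Int.ofNat n) = z ^ n := zpow_natCast z n
    rw [h2, GFin_ω_pow ω hω hz]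
    norm_num
  | negSucc n =>
    rw [zpow_negSucc, GFin_ω_inv ω hω (pow_ne_zero _ hz), GFin_ω_pow ω hω hz]
    push_cast
    ring

private theorem GFin_ω_prod {ι : Type*} (s : Finset ι) (t : ι → L) (ht : ∀ i, t i ≠ 0)
    (g : ι → ℤ) : ω (∏ i ∈ s, t i ^ g i) = ∑ i ∈ s, (g i : ℝ) * ω (t i) := by
  classical
  induction s using Finset.induction_on with
  | empty => rw [Finset.prod_empty, Finset.sum_empty, GFin_ω_one ω hω]
  | insert a s ha ih =>
    rw [Finset.prod_insert ha, Finset.sum_insert ha,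
      hω _ _ (zpow_ne_zero _ (ht a)) (Finset.prod_ne_zero_iff.2 fun i _ => zpow_ne_zero _ (ht i)),
      ih, GFin_ω_zpow ω hω (ht a)]

end GFinω

theorem gfin {k : Type u} {K : Type v} {L : Type w} [Field k] [CharZero k] [Field K] [Field L]
    [Algebra k K] [Algebra k L] {m h c : ℕ} (S : Sys k K L m h c) (A : Subalgebra k K)
    (G : Geo S A) (δ : Ideal A →₀ ℝ) (hδ : ∀ q, 0 ≤ δ q) (𝔪 : Ideal A) (hm : 𝔪.IsPrime)
    (γ : Kˣ →₀ ℝ) (hγ : IsLocalEq A S.D δ 𝔪 γ) :
    ∃ (n : ℕ) (μ : Fin n → ℝ) (g : Fin n → MvPolynomial (Ix m h c) k)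
      (ψ : Fin n → (Fin h → ℤ)), (∀ a, 0 ≤ μ a) ∧
      (∀ a, IsWeightedHomogeneous S.χ (g a) (ψ a)) ∧ (∀ a, aeval S.x (g a) ≠ 0) ∧
      ∀ ω : L → ℝ, (∀ z z', z ≠ 0 → z' ≠ 0 → ω (z * z') = ω z + ω z') →
        (∀ b : A, b ∉ 𝔪 → ω (S.φ b) = 0) →
        ω S.η + (γ.sum fun g r => r * ω (S.φ (g : K))) = ∑ a, μ a * ω (aeval S.x (g a)) := by
  classical
  have hN := Ten.Ind.noeth S.B G.goodB.fg
  have hφB : ∀ b : A, S.φ (b : K) ∈ S.B := by
    intro b
    obtain ⟨Q, _, hQ⟩ := (G.memA b).1 b.2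
    rw [hQ]
    exact GFin_mem S Q
  let ι' : A →+* S.B := ((S.φ.comp A.val).codRestrict S.B hφB).toRingHom
  have hι' : ∀ b : A, ((ι' b : S.B) : L) = S.φ (b : K) := fun b => rfl
  have hφ0 : ∀ g : K, g ≠ 0 → S.φ g ≠ 0 := fun g hg => by
    rwa [Ne, map_eq_zero]
  -- the elements
  let I := Option {g : Kˣ // g ∈ γ.support}
  let t : I → L := fun o => o.elim S.η fun g => S.φ ((g : Kˣ) : K)
  let r : I → ℝ := fun o => o.elim 1 fun g => γ (g : Kˣ)
  have ht0 : ∀ i, t i ≠ 0 := by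
    intro i
    cases i with
    | none => exact S.η_ne
    | some g => exact hφ0 _ (g : Kˣ).ne_zero
  have htH : ∀ i, ∃ β, S.IsHom β (t i) := by
    intro i
    cases i with
    | none => exact ⟨_, S.isHom_η⟩
    | some g => exact ⟨0, S.isHom_φ _⟩
  have hrsum : ∀ F : L → ℝ, ∑ i, r i * F (t i) =
      F S.η + γ.sum fun g r => r * F (S.φ (g : K)) := by
    intro F
    rw [Fintype.sum_option]
    change 1 * F S.η + _ = _
    rw [one_mul, Finsupp.sum]
    congr 1
    exact Finset.sum_coe_sort γ.support fun g : Kˣ => γ g * F (S.φ (g : K))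
  -- fractions
  have hfr : ∀ i, ∃ a b : S.B, a ≠ 0 ∧ b ≠ 0 ∧ t i = (a : L) / b := by
    intro i
    obtain ⟨a, b, hb, hab⟩ := G.goodB.frac (t i)
    refine ⟨a, b, ?_, ?_, hab⟩
    · rintro rfl
      apply ht0 i
      rw [hab]
      exact zero_div _
    · rintro rfl
      exact hb rfl
  choose a b ha0 hb0 hab using hfr
  obtain ⟨e, he⟩ : ∃ e : S.B, e = ∏ i, a i * b i := ⟨_, rfl⟩
  have he0 : e ≠ 0 := by
    rw [he]
    exact Finset.prod_ne_zero_iff.2 fun i _ => mul_ne_zero (ha0 i) (hb0 i)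
  have hzero : ∀ P : Ideal S.B, e ∉ P → ∀ w : DVal k L, w.HasCenter S.B P →
      ∀ i, w.ord (t i) = 0 := by
    intro P heP w hw i
    have h1 : a i * b i ∉ P := fun h2 => heP (by
      rw [he]
      exact Ideal.mem_of_dvd P (Finset.dvd_prod_of_mem _ (Finset.mem_univ i)) h2)
    have h2 : a i ∉ P := fun h3 => h1 (P.mul_mem_right _ h3)
    have h3 : b i ∉ P := fun h4 => h1 (P.mul_mem_left _ h4)
    obtain ⟨h4, h5⟩ := Ten.Ind.out w hw h2
    obtain ⟨h6, h7⟩ := Ten.Ind.out w hw h3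
    rw [hab, Ten.ord_div w _ _ h4 h6, h5, h7, sub_zero]
  have hfin : {P : Ideal S.B | IsHeightOne P ∧ e ∈ P}.Finite :=
    finite_heightOne S.B hN e he0
  have hdvr : ∀ P : Ideal S.B, IsHeightOne P → ∃ w : DVal k L, w.HasCenter S.B P := by
    intro P hP
    obtain ⟨w, hw, _⟩ := dvr S.B hN G.goodB.frac G.goodB.norm P hP
    exact ⟨w, hw⟩
  choose wP hwP using hdvr
  let C : Ideal S.B → Prop := fun P => ∀ b : A, b ∉ 𝔪 → ∀ z ∈ P, (z : L) ≠ S.φ b
  let V : Ideal S.B → I → ℤ := fun P i =>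
    if h : IsHeightOne P ∧ C P then (wP P h.1).ord (t i) else 0
  have hV : ∀ w ∈ hfin.toFinset.image V, 0 ≤ ∑ i, (w i : ℝ) * r i := by
    intro w hw
    obtain ⟨P, _, rfl⟩ := Finset.mem_image.1 hw
    by_cases hP : IsHeightOne P ∧ C P
    · have h1 := gpos S A G δ hδ 𝔪 γ hγ P hP.1 hP.2 (wP P hP.1) (hwP P hP.1)
      rw [← hrsum fun z => ((wP P hP.1).ord z : ℝ)] at h1
      refine h1.trans_eq (Finset.sum_congr rfl fun i _ => ?_)
      have h2 : V P i = (wP P hP.1).ord (t i) := dif_pos hP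
      rw [h2, mul_comm]
    · refine le_of_eq (Finset.sum_eq_zero fun i _ => ?_).symm
      have h1 : V P i = 0 := dif_neg hP
      rw [h1, Int.cast_zero, zero_mul]
  obtain ⟨n, g, μ, hμ, hg, hr⟩ := cone (hfin.toFinset.image V) r hV
  have hz0 : ∀ j, ∏ i, t i ^ g j i ≠ 0 := fun j =>
    Finset.prod_ne_zero_iff.2 fun i _ => zpow_ne_zero _ (ht0 i)
  have hpos : ∀ j, ∀ P : Ideal S.B, IsHeightOne P → C P → ∀ w : DVal k L, w.HasCenter S.B P →
      0 ≤ w.ord (∏ i, t i ^ g j i) := by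
    intro j P hP hC w hw
    have h1 : w.ord (∏ i, t i ^ g j i) = ∑ i, V P i * g j i := by
      rw [Jac.ord_prod w _ _ fun i _ => zpow_ne_zero _ (ht0 i)]
      refine Finset.sum_congr rfl fun i _ => ?_
      rw [Jac.ord_zpow w _ (ht0 i)]
      have h2 : V P i = (wP P hP).ord (t i) := dif_pos ⟨hP, hC⟩
      rw [h2, dvr_unique S.B hN G.goodB.frac G.goodB.norm P hP w (wP P hP) hw (hwP P hP) (t i)
        (ht0 i), mul_comm]
    rw [h1]
    by_cases heP : e ∈ P
    · exact hg j _ (Finset.mem_image_of_mem V ((Set.Finite.mem_toFinset _).2 ⟨hP, heP⟩))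
    · refine le_of_eq (Finset.sum_eq_zero fun i _ => ?_).symm
      have h2 : V P i = (wP P hP).ord (t i) := dif_pos ⟨hP, hC⟩
      rw [h2, hzero P heP _ (hwP P hP) i, zero_mul]
  have hex : ∀ j, ∃ (bj : A) (ψ : Fin h → ℤ) (G' : MvPolynomial (Ix m h c) k), bj ∉ 𝔪 ∧
      IsWeightedHomogeneous S.χ G' ψ ∧ aeval S.x G' = S.φ (bj : K) * ∏ i, t i ^ g j i := by
    intro j
    obtain ⟨s, hs, hsB⟩ := hartS S.B G.goodB (𝔪.primeCompl.map (ι' : A →* S.B))
      (∏ i, t i ^ g j i) (hz0 j) (fun P hP hTP w hw => hpos j P hP (fun b hb z hz hzb => by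
        refine hTP (ι' b) ⟨b, hb, rfl⟩ ?_
        have h1 : ι' b = z := Subtype.ext ((hι' b).trans hzb.symm)
        rw [h1]
        exact hz) w hw)
    obtain ⟨bj, hbj, rfl⟩ := hs
    have hbj' : bj ∉ 𝔪 := hbj
    obtain ⟨β, hβ⟩ := GFin_isHom_prod S Finset.univ t (g j) htH
    have h1 : S.IsHom (0 + β) (S.φ (bj : K) * ∏ i, t i ^ g j i) :=
      S.isHom_mul (S.isHom_φ _) hβ
    obtain ⟨G', hG', hG''⟩ := GFin_homB S h1 hsB
    exact ⟨bj, _, G', hbj', hG', hG''⟩
  choose bj ψ G' hbj hG' hGe using hex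
  have hb0' : ∀ j, S.φ (bj j : K) ≠ 0 := by
    intro j
    refine hφ0 _ fun h1 => hbj j ?_
    have h2 : bj j = 0 := Subtype.ext h1
    rw [h2]
    exact 𝔪.zero_mem
  refine ⟨n, μ, G', ψ, hμ, hG', fun j => ?_, ?_⟩
  · rw [hGe]
    exact mul_ne_zero (hb0' j) (hz0 j)
  · intro ω hω hω0
    rw [← hrsum ω]
    have h1 : ∀ j, ω (aeval S.x (G' j)) = ∑ i, (g j i : ℝ) * ω (t i) := by
      intro j
      rw [hGe, hω _ _ (hb0' j) (hz0 j), hω0 _ (hbj j), zero_add, GFin_ω_prod ω hω _ t ht0]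
    simp only [h1, hr, Finset.mul_sum, Finset.sum_mul]
    rw [Finset.sum_comm]
    refine Finset.sum_congr rfl fun j _ => Finset.sum_congr rfl fun i _ => ?_
    ring

end Pool.Agent.MLD.Cox
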