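import Pool.Agent.Lib.MP_f23696_ag.Y.Eta
import Pool.Agent.Lib.MP_f23696_ag.T.Der

/-!
Project COX, module GP: the value of `η` at a valuation with good local coordinates.

Setting: `w` a valuation of `L`; `E i` derivations of `K` dual to `b l`, `D i = ∑ D i (b l) E l`;
`τ l = φ (e l) * s l` of value `0`; the `φ (b l)` and the `τ l` are quotients of homogeneous
polynomials with denominators of value `0`; some `c × c` Jacobian minor `G_J` of the equations has
value `0`.

Proof.  Put `ζ i = ξ i * ∏ l, (e l)^(-χ i l)`, so `x i = φ (ζ i) * ∏ l, τ l ^ χ i l` (`S.x_eq`).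
Since `w (τ l) = 0` and `w (x i) ≥ 0` we have `w (φ (ζ i)) ≥ 0`.
Let `A' = derM φ E ζ χ x`.  Its entries are integral: `φ (E j (ζ i) / ζ i) * x i =
φ (E j (ζ i)) * ∏ τ^χ` (`hint`), `χ i l * x i`.  `G j i = aeval x (pderiv i (f j))` are integral (they
are polynomials in the `x i`).  `A' Gᵀ = 0` (as in `ag`, from `grad_inl`, `grad_inr` with `s := τ`,
`ξ := ζ`, `D := E`).  Let `V` be the matrix with columns `gq x P Q` of the representations `P/Q` of
`φ (b l)` and of `τ l`; its entries are integral (denominators of value `0`).  By `gradQ_inl`,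
`gradQ_inr` (with `s := τ`): `A' V = fromBlocks 1 0 0 (diagonal τ)`, of determinant `∏ τ l`, of
value `0`.
`dual_det` with `Q = selM J`: `det (fromRows A' (selM J)) * det (fromCols V Gᵀ) = (∏ τ) * G_J`; the
right side has value `0` and both factors on the left are integral (`det_integral`, after reindexing
by `Fin n`), so both have value `0`.  `dual_det` with `Q = selM inr`, `det_inr`, `det_sel`:
`det (A'_I) * det (fromCols V Gᵀ) = (∏ τ) * jd(f)(x)`, so `w (det A'_I) = w (jd(f)(x))`.
Finally `A = derM φ D ξ χ x = C * A'` with `C = φ` of the block matrix `[[D i (b l), *], [0, 1]]`: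
`D i (ξ p) / ξ p = ∑_l D i (b l) * E l (ξ p) / ξ p` and
`E l (ξ p) / ξ p = E l (ζ p) / ζ p + ∑_q χ p q * E l (e q) / e q` (logarithmic derivative of
`ξ p = ζ p ∏ (e q)^(χ p q)`).  So `det A_I = φ (jac D b) * det A'_I`; and
`det A_I = (∏ x) φ(lam) = η * jd(f)(x)` (`η_mul`).  Taking values:
`w η + w (jd f (x)) = w (φ (jac D b)) + w (jd f (x))`.
(`jac D b ≠ 0`: `D i (y j) = ∑_l D i (b l) E l (y j)` gives `jac D b * jac E y = 1`.)
-/

set_option autoImplicit false

namespace Pool.Agent.MLD.Cox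

open MvPolynomial

universe u v w

open Pool.Agent.MLD.Jac in
private theorem GP_det_int {k : Type u} {L : Type w} [Field k] [Field L] [Algebra k L]
    (w : DVal k L) {ι : Type} [Fintype ι] [DecidableEq ι] (M : Matrix ι ι L)
    (h : ∀ i j, w.Integral (M i j)) : w.Integral M.det := by
  rw [← Matrix.det_submatrix_equiv_self (Fintype.equivFin ι).symm]
  exact Ten.det_integral w _ fun i j => h _ _

open Pool.Agent.MLD.Jac in
private theorem GP_int_mul {k : Type u} {L : Type w} [Field k] [Field L] [Algebra k L]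
    (w : DVal k L) {a b : L} (ha : w.Integral a) (hb : w.Integral b) : w.Integral (a * b) := by
  have h := LB.mul (v := w) (M := 0) (N := 0) ha hb
  rwa [add_zero] at h

open Pool.Agent.MLD.Jac in
private theorem GP_int_of_ord {k : Type u} {L : Type w} [Field k] [Field L] [Algebra k L]
    (w : DVal k L) {a : L} (ha : w.ord a = 0) : w.Integral a := fun _ => ha.ge

open Pool.Agent.MLD.Jac in
private theorem GP_int_aeval {k : Type u} {L : Type w} [Field k] [Field L] [Algebra k L]
    (w : DVal k L) {σ : Type} (x : σ → L) (hx : ∀ i, w.Integral (x i)) (P : MvPolynomial σ k) :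
    w.Integral (aeval x P) := by
  induction P using MvPolynomial.induction_on with
  | C a =>
    rw [algHom_C]
    exact Ten.LB_algebraMap w a
  | add p q hp hq =>
    rw [map_add]
    exact LB.add (v := w) (N := 0) hp hq
  | mul_X p i hp =>
    rw [map_mul, aeval_X]
    exact GP_int_mul w hp (hx i)

private theorem GP_ld_mul {k : Type u} {K : Type v} [Field k] [Field K] [Algebra k K]
    (D : Derivation k K K) {a b : K} (ha : a ≠ 0) (hb : b ≠ 0) :
    D (a * b) / (a * b) = D a / a + D b / b := by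
  rw [D.leibniz, smul_eq_mul, smul_eq_mul]
  field_simp
  ring

private theorem GP_ld_zpow {k : Type u} {K : Type v} [Field k] [Field K] [Algebra k K]
    (D : Derivation k K K) {a : K} (ha : a ≠ 0) (n : ℤ) :
    D (a ^ n) / a ^ n = n * (D a / a) := by
  have hm : ∀ n : ℤ, D (a ^ (n + 1)) / a ^ (n + 1) = D (a ^ n) / a ^ n + D a / a := by
    intro n
    rw [zpow_add_one₀ ha, GP_ld_mul D (zpow_ne_zero n ha) ha]
  induction n using Int.induction_on with
  | zero => simp
  | succ n ih =>
    rw [hm, ih]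
    push_cast
    ring
  | pred n ih =>
    have h1 := hm (-(n : ℤ) - 1)
    rw [sub_add_cancel, ih] at h1
    push_cast at h1 ⊢
    linear_combination -h1

private theorem GP_ld_prod {k : Type u} {K : Type v} [Field k] [Field K] [Algebra k K]
    (D : Derivation k K K) {ι : Type} (s : Finset ι) (f : ι → K) (hf : ∀ i, f i ≠ 0) :
    D (∏ i ∈ s, f i) / ∏ i ∈ s, f i = ∑ i ∈ s, D (f i) / f i := by
  classical
  induction s using Finset.induction_on with
  | empty => simp
  | insert a s ha ih =>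
    rw [Finset.prod_insert ha, Finset.sum_insert ha,
      GP_ld_mul D (hf a) (Finset.prod_ne_zero_iff.2 fun i _ => hf i), ih]

/-- the entries of the gradient of a quotient are integral -/
private theorem GP_gq {k : Type u} {L : Type w} [Field k] [Field L] [Algebra k L]
    (w : DVal k L) {σ : Type} (x : σ → L) (hx : ∀ i, w.Integral (x i))
    (P Q : MvPolynomial σ k) (hQ : aeval x Q ≠ 0) (hQ0 : w.ord (aeval x Q) = 0) (i : σ) :
    w.Integral (gq x P Q i) := by
  unfold gq
  rw [div_eq_mul_inv]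
  refine GP_int_mul w ?_ (GP_int_of_ord w ?_)
  · exact Ten.LB_sub w (GP_int_mul w (GP_int_aeval w x hx _) (GP_int_aeval w x hx _))
      (GP_int_mul w (GP_int_aeval w x hx _) (GP_int_aeval w x hx _))
  · rw [Jac.ord_inv w _ (pow_ne_zero 2 hQ), Jac.ord_pow w _ hQ, hQ0]
    simp

theorem gp {k : Type u} {K : Type v} {L : Type w} [Field k] [Field K] [Field L] [Algebra k K]
    [Algebra k L] {m h c : ℕ} (S : Sys k K L m h c) (w : DVal k L)
    (E : Fin (m + 1) → Derivation k K K) (b : Fin (m + 1) → K)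
    (hEb : ∀ i l, E i (b l) = if i = l then 1 else 0)
    (hDE : ∀ i g, S.D i g = ∑ l, S.D i (b l) * E l g)
    (hint : ∀ i g, w.Integral (S.φ g) → w.Integral (S.φ (E i g)))
    (e : Fin h → K) (he : ∀ l, e l ≠ 0) (hτ0 : ∀ l, w.ord (S.φ (e l) * S.s l) = 0)
    (hb : ∀ l, ∃ (β : Fin h → ℤ) (P Q : MvPolynomial (Ix m h c) k),
      IsWeightedHomogeneous S.χ P β ∧ IsWeightedHomogeneous S.χ Q β ∧ aeval S.x Q ≠ 0 ∧
      w.ord (aeval S.x Q) = 0 ∧ S.φ (b l) = aeval S.x P / aeval S.x Q)
    (hτ : ∀ l, ∃ (β : Fin h → ℤ) (P Q : MvPolynomial (Ix m h c) k),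
      IsWeightedHomogeneous S.χ P (β + Pi.single l 1) ∧ IsWeightedHomogeneous S.χ Q β ∧
      aeval S.x Q ≠ 0 ∧ w.ord (aeval S.x Q) = 0 ∧
      S.φ (e l) * S.s l = aeval S.x P / aeval S.x Q)
    (hx : ∀ i, w.Integral (S.x i)) (J : Fin c → Ix m h c)
    (hJ : (Matrix.of fun j a => aeval S.x (pderiv (J a) (S.f j))).det ≠ 0)
    (hJ0 : w.ord (Matrix.of fun j a => aeval S.x (pderiv (J a) (S.f j))).det = 0) :
    w.ord S.η = w.ord (S.φ (jac S.D b)) := by
  classical
  have hφi : Function.Injective S.φ := S.φ.toRingHom.injective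
  have hφ0 : ∀ a : K, a ≠ 0 → S.φ a ≠ 0 := fun a ha h =>
    ha (hφi (h.trans (map_zero S.φ).symm))
  obtain ⟨τ, hτd⟩ : ∃ τ : Fin h → L, ∀ l, τ l = S.φ (e l) * S.s l := ⟨_, fun _ => rfl⟩
  obtain ⟨ζ, hζd⟩ : ∃ ζ : Ix m h c → K, ∀ i, ζ i = S.ξ i * ∏ l, e l ^ (-(S.χ i l)) :=
    ⟨_, fun _ => rfl⟩
  have hτne : ∀ l, τ l ≠ 0 := fun l => by
    rw [hτd]
    exact mul_ne_zero (hφ0 _ (he l)) (S.s_ne l)
  have hτo : ∀ l, w.ord (τ l) = 0 := fun l => by
    rw [hτd]
    exact hτ0 l
  have hζne : ∀ i, ζ i ≠ 0 := fun i => by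
    rw [hζd]
    exact mul_ne_zero (S.ξ_ne i) (Finset.prod_ne_zero_iff.2 fun l _ => zpow_ne_zero _ (he l))
  have hxζ : ∀ i, S.x i = S.φ (ζ i) * ∏ l, τ l ^ S.χ i l := by
    intro i
    rw [hζd, map_mul, map_prod, mul_assoc, ← Finset.prod_mul_distrib]
    have h1 := S.x_eq i
    rw [Sys.sp] at h1
    rw [h1]
    congr 1
    refine Finset.prod_congr rfl fun l _ => ?_
    rw [hτd, mul_zpow, map_zpow₀, ← mul_assoc, ← zpow_add₀ (hφ0 _ (he l)), neg_add_cancel,
      zpow_zero, one_mul]
  have hPne : ∀ β : Fin h → ℤ, (∏ l, τ l ^ β l) ≠ 0 := fun β =>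
    Finset.prod_ne_zero_iff.2 fun l _ => zpow_ne_zero _ (hτne l)
  have hPo : ∀ β : Fin h → ℤ, w.ord (∏ l, τ l ^ β l) = 0 := by
    intro β
    rw [Jac.ord_prod w _ _ fun l _ => zpow_ne_zero _ (hτne l)]
    refine Finset.sum_eq_zero fun l _ => ?_
    rw [Jac.ord_zpow w _ (hτne l), hτo, mul_zero]
  have hζi : ∀ i, w.Integral (S.φ (ζ i)) := by
    intro i _
    have h1 := hx i (S.x_ne i)
    rwa [hxζ, w.ord_mul _ _ (hφ0 _ (hζne i)) (hPne _), hPo, add_zero] at h1
  -- the matrix `A'`
  obtain ⟨A', hA'⟩ : ∃ A' : Matrix (Ro m h) (Ix m h c) L, A' = derM S.φ E ζ S.χ S.x :=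
    ⟨_, rfl⟩
  have hA'i : ∀ p i, w.Integral (A' p i) := by
    intro p i
    rw [hA']
    rcases p with j | l
    · have h1 : derM S.φ E ζ S.χ S.x (Sum.inl j) i =
          S.φ (E j (ζ i)) * ∏ l, τ l ^ S.χ i l := by
        simp only [derM, logM, Matrix.of_apply, Sum.elim_inl]
        rw [hxζ i, ← mul_assoc, ← map_mul, div_mul_cancel₀ _ (hζne i)]
      rw [h1]
      exact GP_int_mul w (hint j _ (hζi i)) (GP_int_of_ord w (hPo _))
    · have h1 : derM S.φ E ζ S.χ S.x (Sum.inr l) i =
          algebraMap k L ((S.χ i l : ℤ) : k) * S.x i := by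
        simp only [derM, logM, Matrix.of_apply, Sum.elim_inr]
        rw [map_intCast, map_intCast]
      rw [h1]
      exact GP_int_mul w (Ten.LB_algebraMap w _) (hx i)
  obtain ⟨G, hG⟩ : ∃ G : Matrix (Fin c) (Ix m h c) L,
      G = Matrix.of fun j i => aeval S.x (pderiv i (S.f j)) := ⟨_, rfl⟩
  have hGi : ∀ j i, w.Integral (G j i) := by
    intro j i
    rw [hG]
    exact GP_int_aeval w S.x hx _
  have hfx : ∀ j, aeval S.x (S.f j) = 0 := by
    intro j
    have h1 : S.f j ∈ RingHom.ker (aeval S.x : MvPolynomial (Ix m h c) k →ₐ[k] L) := by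
      rw [S.ker]
      exact Ideal.subset_span ⟨j, rfl⟩
    exact h1
  have hAG : A' * G.transpose = 0 := by
    ext p j
    rw [Matrix.mul_apply, Matrix.zero_apply]
    simp only [Matrix.transpose_apply, hG, Matrix.of_apply, hA']
    rcases p with i | l
    · rw [grad_inl S.φ S.x ζ τ S.χ hζne hτne hxζ E (S.f j) (S.ψ j) (S.hom j) i]
      have h1 := val_hom S.φ S.x ζ τ S.χ hτne hxζ (S.f j) (S.ψ j) (S.hom j)
      rw [hfx] at h1
      have h2 : S.φ (aeval ζ (S.f j)) = 0 :=
        (mul_eq_zero.1 h1.symm).resolve_left (hPne _)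
      have h3 : aeval ζ (S.f j) = 0 := by
        by_contra h4
        exact hφ0 _ h4 h2
      rw [h3, map_zero, map_zero, mul_zero]
    · rw [grad_inr S.φ S.x ζ S.χ E (S.f j) (S.ψ j) (S.hom j) l, hfx, mul_zero]
  -- the matrix `V`
  choose βb Pb Qb hPb hQb hQb0 hQbo hbq using hb
  choose βt Pt Qt hPt hQt hQt0 hQto htq using hτ
  obtain ⟨V, hV⟩ : ∃ V : Matrix (Ix m h c) (Ro m h) L, V = Matrix.of fun i p =>
      Sum.elim (fun l => gq S.x (Pb l) (Qb l) i) (fun l => gq S.x (Pt l) (Qt l) i) p :=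
    ⟨_, rfl⟩
  have hVi : ∀ i p, w.Integral (V i p) := by
    intro i p
    rw [hV]
    rcases p with l | l
    · exact GP_gq w S.x hx _ _ (hQb0 l) (hQbo l) i
    · exact GP_gq w S.x hx _ _ (hQt0 l) (hQto l) i
  have hAV : A' * V = Matrix.fromBlocks 1 0 0 (Matrix.diagonal τ) := by
    ext p q
    rw [Matrix.mul_apply, hA', hV]
    simp only [Matrix.of_apply]
    rcases q with l | l
    · simp only [Sum.elim_inl]
      rcases p with j | l'
      · rw [gradQ_inl S.φ S.x ζ τ S.χ hζne hτne hxζ E (Pb l) (Qb l) (βb l) (βb l) (hPb l)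
          (hQb l) (hQb0 l) (b l) ?_ j]
        · simp only [sub_self, zpow_zero, Finset.prod_const_one, one_mul]
          rw [hEb, Matrix.fromBlocks_apply₁₁, Matrix.one_apply]
          split_ifs with h1
          · exact map_one _
          · exact map_zero _
        · simp only [sub_self, zpow_zero, Finset.prod_const_one, one_mul]
          exact (hbq l).symm
      · rw [gradQ_inr S.φ S.x ζ S.χ E (Pb l) (Qb l) (βb l) (βb l) (hPb l) (hQb l) (hQb0 l) l',
          sub_self, Int.cast_zero, zero_mul, Matrix.fromBlocks_apply₂₁, Matrix.zero_apply]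
    · simp only [Sum.elim_inr]
      have hsub : ∀ l', (βt l + Pi.single l 1 : Fin h → ℤ) l' - βt l l' =
          if l' = l then 1 else 0 := by
        intro l'
        rw [Pi.add_apply, add_sub_cancel_left, Pi.single_apply]
      have hpr : (∏ l', τ l' ^ ((βt l + Pi.single l 1 : Fin h → ℤ) l' - βt l l')) = τ l := by
        rw [Finset.prod_eq_single l]
        · rw [hsub, if_pos rfl, zpow_one]
        · intro l' _ hl'
          rw [hsub, if_neg hl', zpow_zero]
        · intro h1
          exact absurd (Finset.mem_univ _) h1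
      rcases p with j | l'
      · rw [gradQ_inl S.φ S.x ζ τ S.χ hζne hτne hxζ E (Pt l) (Qt l) (βt l + Pi.single l 1)
          (βt l) (hPt l) (hQt l) (hQt0 l) 1 ?_ j]
        · rw [(E j).map_one_eq_zero, map_zero, mul_zero, Matrix.fromBlocks_apply₁₂,
            Matrix.zero_apply]
        · rw [hpr, map_one, mul_one, hτd]
          exact (htq l).symm
      · rw [gradQ_inr S.φ S.x ζ S.χ E (Pt l) (Qt l) (βt l + Pi.single l 1) (βt l) (hPt l)
          (hQt l) (hQt0 l) l', hsub, Matrix.fromBlocks_apply₂₂, Matrix.diagonal_apply]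
        split_ifs with h1
        · rw [Int.cast_one, one_mul, ← htq, h1, hτd]
        · rw [Int.cast_zero, zero_mul]
  have hAVd : (A' * V).det = ∏ l, τ l := by
    rw [hAV, Matrix.det_fromBlocks_zero₂₁, Matrix.det_one, one_mul, Matrix.det_diagonal]
  have hτp : (∏ l, τ l) ≠ 0 := Finset.prod_ne_zero_iff.2 fun l _ => hτne l
  have hτpo : w.ord (∏ l, τ l) = 0 := by
    rw [Jac.ord_prod w _ _ fun l _ => hτne l]
    exact Finset.sum_eq_zero fun l _ => hτo l
  obtain ⟨d2, hd2⟩ : ∃ d2 : L, d2 = (Matrix.fromCols V G.transpose).det := ⟨_, rfl⟩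
  -- the minor `G_J`
  have e1 := dual_det A' G hAG V (selM L J)
  rw [hAVd, det_sel, ← hd2] at e1
  have hGJ : (Matrix.of fun j a => G j (J a)) =
      Matrix.of fun j a => aeval S.x (pderiv (J a) (S.f j)) := by
    rw [hG]
    rfl
  rw [hGJ] at e1
  have h1i : w.Integral (Matrix.fromRows A' (selM L J)).det := by
    refine GP_det_int w _ fun i j => ?_
    rcases i with i | i
    · exact hA'i i j
    · rw [Matrix.fromRows_apply_inr]
      simp only [selM, Matrix.of_apply]
      split_ifs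
      · exact GP_int_of_ord w (Jac.ord_one w)
      · exact Jac.LB.zero w 0
  have h2i : w.Integral d2 := by
    rw [hd2]
    refine GP_det_int w _ fun i j => ?_
    rcases j with j | j
    · exact hVi i j
    · exact hGi j i
  have hr1 := mul_ne_zero hτp hJ
  rw [← e1] at hr1
  have hd2ne : d2 ≠ 0 := right_ne_zero_of_mul hr1
  have hd2o : w.ord d2 = 0 := by
    have h1 := congrArg w.ord e1
    rw [w.ord_mul _ _ (left_ne_zero_of_mul hr1) hd2ne, w.ord_mul _ _ hτp hJ, hτpo, hJ0] at h1
    have h2 := h1i (left_ne_zero_of_mul hr1)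
    have h3 := h2i hd2ne
    omega
  -- the minor of the last `c` columns
  have e2 := dual_det A' G hAG V (selM L Sum.inr)
  rw [hAVd, det_sel, det_inr, ← hd2] at e2
  have hGr : (Matrix.of fun j (a : Fin c) => G j (Sum.inr a)).det = aeval S.x (jd S.f) := by
    rw [hG, jd, AlgHom.map_det]
    rfl
  rw [hGr] at e2
  obtain ⟨dI, hdI⟩ : ∃ dI : L, dI = (A'.submatrix id Sum.inl).det := ⟨_, rfl⟩
  rw [← hdI] at e2
  have hr2 := mul_ne_zero hτp S.jac
  rw [← e2] at hr2
  have hdIne : dI ≠ 0 := left_ne_zero_of_mul hr2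
  have hdIo : w.ord dI = w.ord (aeval S.x (jd S.f)) := by
    have h1 := congrArg w.ord e2
    rw [w.ord_mul _ _ hdIne hd2ne, w.ord_mul _ _ hτp S.jac, hτpo, hd2o] at h1
    omega
  -- comparison with the derivations `D`
  obtain ⟨C, hC⟩ : ∃ C : Matrix (Ro m h) (Ro m h) L, C =
      Matrix.fromBlocks (Matrix.of fun i l => S.φ (S.D i (b l)))
        (Matrix.of fun i q => S.φ (S.D i (e q) / e q)) 0 1 := ⟨_, rfl⟩
  have hCd : C.det = S.φ (jac S.D b) := by
    rw [hC, Matrix.det_fromBlocks_zero₂₁, Matrix.det_one, mul_one]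
    unfold Pool.Agent.MLD.jac
    rw [AlgHom.map_det]
    rfl
  have hCA : derM S.φ S.D S.ξ S.χ S.x = C * A' := by
    ext p i
    rw [Matrix.mul_apply, Fintype.sum_sum_type, hC, hA']
    rcases p with j | l
    · simp only [Matrix.fromBlocks_apply₁₁, Matrix.fromBlocks_apply₁₂, Matrix.of_apply, derM,
        logM, Sum.elim_inl, Sum.elim_inr]
      have h1 : S.ξ i = ζ i * ∏ q, e q ^ S.χ i q := by
        rw [hζd, mul_assoc, ← Finset.prod_mul_distrib]
        have h2 : ∀ q, e q ^ (-(S.χ i q)) * e q ^ S.χ i q = 1 := by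
          intro q
          rw [← zpow_add₀ (he q), neg_add_cancel, zpow_zero]
        rw [Finset.prod_congr rfl fun q _ => h2 q, Finset.prod_const_one, mul_one]
      have h3 : S.D j (S.ξ i) / S.ξ i = ∑ l, S.D j (b l) * (E l (ζ i) / ζ i) +
          ∑ q, (S.D j (e q) / e q) * (S.χ i q : K) := by
        rw [h1, GP_ld_mul (S.D j) (hζne i)
          (Finset.prod_ne_zero_iff.2 fun q _ => zpow_ne_zero _ (he q)),
          GP_ld_prod (S.D j) _ _ fun q => zpow_ne_zero _ (he q)]
        congr 1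
        · rw [hDE j (ζ i), Finset.sum_div]
          refine Finset.sum_congr rfl fun l _ => ?_
          rw [mul_div_assoc]
        · refine Finset.sum_congr rfl fun q _ => ?_
          rw [GP_ld_zpow (S.D j) (he q), mul_comm]
      rw [h3, map_add, add_mul, map_sum, map_sum, Finset.sum_mul, Finset.sum_mul]
      congr 1
      · refine Finset.sum_congr rfl fun l _ => ?_
        rw [map_mul, mul_assoc]
      · refine Finset.sum_congr rfl fun l _ => ?_
        rw [map_mul, mul_assoc]
    · simp only [Matrix.fromBlocks_apply₂₁, Matrix.fromBlocks_apply₂₂, Matrix.zero_apply,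
        zero_mul, Finset.sum_const_zero, zero_add, derM, logM, Matrix.of_apply, Sum.elim_inr]
      rw [Finset.sum_eq_single l]
      · rw [Matrix.one_apply_eq, one_mul]
      · intro q _ hq
        rw [Matrix.one_apply_ne (Ne.symm hq), zero_mul]
      · intro h1
        exact absurd (Finset.mem_univ _) h1
  have hdet1 : ((derM S.φ S.D S.ξ S.χ S.x).submatrix id Sum.inl).det =
      S.φ (jac S.D b) * dI := by
    rw [hCA, hdI, ← hCd, ← Matrix.det_mul]
    congr 1
  have hdet2 : ((derM S.φ S.D S.ξ S.χ S.x).submatrix id Sum.inl).det =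
      S.η * aeval S.x (jd S.f) := by
    rw [S.η_mul, Sys.lam, AlgHom.map_det, ← Matrix.det_mul_row]
    congr 1
    ext p i
    simp only [Matrix.submatrix_apply, derM, Matrix.of_apply, AlgHom.mapMatrix_apply,
      Matrix.map_apply, id]
    exact mul_comm _ _
  have hfin := hdet2.symm.trans hdet1
  have hne := mul_ne_zero S.η_ne S.jac
  have hne' := hne
  rw [hfin] at hne'
  have h1 := congrArg w.ord hfin
  rw [w.ord_mul _ _ S.η_ne S.jac, w.ord_mul _ _ (left_ne_zero_of_mul hne') hdIne, hdIo] at h1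
  omega

end Pool.Agent.MLD.Cox
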