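import Pool.Agent.Lib.MP_f23696_ag.Y.Geo
import Pool.Agent.Lib.MP_f23696_ag.Y.GP
import Pool.Agent.Lib.MP_f23696_ag.Dvr
import Pool.Agent.Lib.MP_f23696_ag.T.Ind

/-!
Project COX, module GPos: `η γ` has nonnegative value along the prime divisors of `Spec B` over the
local scheme.

Proof.  `B = S.B`, `p = {b ∈ A : φ b ∈ P}`, a prime ideal of `A` (note `φ b ∈ B` for `b ∈ A` by
`G.memA`), `p ≤ 𝔪` by `hP`.  For `z ∈ B`: `w.ord z = 0` if `z ∉ P` (`w.HasCenter B P`).

Homogeneous units: by `G.t2` there are for each `i` homogeneous `U i`, `V i` with values of `w`-value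
`0` and degrees `β i + χ i`, `β i`.  For `l < h` put `τ l = ∏_i (U i (x) / V i (x))^(S.a l i)`; by
`S.ha` it is a quotient `P/Q` of products of the `U i`, `V i`, homogeneous of degrees `β + e_l`, `β`,
with `w`-values `0`.  `τ l / s l` is homogeneous of degree `0`, so `τ l = φ (e l) * s l` with
`e l ∈ K`, `e l ≠ 0` (`isHom_iff` or `S.deg0`).

`G.t3` gives `J` with `G_J ∉ P`, `G_J ∈ B`, so `w (G_J) = 0`, `G_J ≠ 0`.

Case `p = ⊥` (`G.t1`): every nonzero `b ∈ A` has `w (φ b) = 0`, so `w (φ g) = 0` for all `g ∈ K`,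
`g ≠ 0` (`K = Frac A`).  Apply `gp` with `E = S.D`, `b = S.y`: `hDE`: the derivation
`D i - ∑ D i (y l) D l` is zero since `D i (y l) = δ_il`.  `hb`: `y l = b₁ / b₂` with `b₁, b₂ ∈ A`,
which are values of polynomials homogeneous of degree `0` (`G.memA`).  `jac D y = 1`.  So
`w η = 0`, and the sum over `γ` is zero.

Case `p` of height one: let `v` be a valuation of `K` with centre `p` (`dvr`, with
`0 ≤ v.ord f ↔ ∃ s ∉ p, s f ∈ A`).  For `g ∈ K`, `g ≠ 0`: `w (φ g) = e v(g)` with `e = w (φ t) ≥ 1`,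
`v t = 1`: if `v(u) = 0` then `u = b₁ / b₂` with `b₁, b₂ ∈ A \ p` so `w (φ u) = 0`; write
`g = t^(v g) u`.  (`e ≥ 1`: `t = b₁/b₂` with `b₂ ∉ p`, `b₁ ∈ p`, so `φ b₁ ∈ P` has positive value.)
`formOrd_heightOne` (T/Ind.lean; `∃ c, jac D c ≠ 0`: `jac D y = 1`) gives `j` with `v.FormOrd D j`;
`formOrd_dual` (T/Der.lean) gives integral `a`, `E` with `E i (a l) = δ`, `v (jac D a) = -j`,
`D i = ∑ D i (a l) E l`, `E i` preserving the valuation ring.  Apply `gp` to `E`, `b = a`: `hint`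
since `w (φ g) ≥ 0 ↔ v g ≥ 0`; `hb`: `a l` is integral for `v`, so `s a_l ∈ A` for some `s ∈ A \ p`,
`a_l = b₁ / s`.  So `w η = w (φ (jac D a)) = - e j`.  The sum over `γ` is `e * v.val γ`, and by
`IsLocalEq` (`p ≤ 𝔪`) `j + δ p = v.val γ`.  Total: `- e j + e (j + δ p) = e δ p ≥ 0`.
-/

set_option autoImplicit false

namespace Pool.Agent.MLD.Cox

open MvPolynomial

universe u v w

section GPosAux

variable {k : Type u} {K : Type v} {L : Type w} [Field k] [Field K] [Field L]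
    [Algebra k K] [Algebra k L] {m h c : ℕ} (S : Sys k K L m h c) (w : DVal k L)

/-- quotients of homogeneous elements of value `0` -/
private def GPos_W (β : Fin h → ℤ) (z : L) : Prop :=
  ∃ (β' : Fin h → ℤ) (P Q : MvPolynomial (Ix m h c) k),
    IsWeightedHomogeneous S.χ P (β' + β) ∧ IsWeightedHomogeneous S.χ Q β' ∧
    aeval S.x P ≠ 0 ∧ aeval S.x Q ≠ 0 ∧ w.ord (aeval S.x P) = 0 ∧ w.ord (aeval S.x Q) = 0 ∧
    z = aeval S.x P / aeval S.x Q

variable {β β' : Fin h → ℤ} {z z' : L}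

private theorem GPos_ne (hz : GPos_W S w β z) : z ≠ 0 := by
  obtain ⟨_, P, Q, _, _, h1, h2, _, _, rfl⟩ := hz
  exact div_ne_zero h1 h2

private theorem GPos_ord (hz : GPos_W S w β z) : w.ord z = 0 := by
  obtain ⟨_, P, Q, _, _, h1, h2, h3, h4, rfl⟩ := hz
  rw [Ten.ord_div w _ _ h1 h2, h3, h4, sub_zero]

private theorem GPos_isHom (hz : GPos_W S w β z) : S.IsHom β z := by
  obtain ⟨β', P, Q, hP, hQ, h1, h2, h3, h4, rfl⟩ := hz
  exact ⟨β' + β, β', P, Q, hP, hQ, add_sub_cancel_left _ _, h2, rfl⟩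

private theorem GPos_one : GPos_W S w 0 1 := by
  refine ⟨0, 1, 1, ?_, isWeightedHomogeneous_one k S.χ, ?_, ?_, ?_, ?_, ?_⟩
  · rw [add_zero]
    exact isWeightedHomogeneous_one k S.χ
  · rw [map_one]
    exact one_ne_zero
  · rw [map_one]
    exact one_ne_zero
  · rw [map_one, Jac.ord_one]
  · rw [map_one, Jac.ord_one]
  · rw [map_one, div_one]

private theorem GPos_mul (hz : GPos_W S w β z) (hz' : GPos_W S w β' z') :
    GPos_W S w (β + β') (z * z') := by
  obtain ⟨β₁, P, Q, hP, hQ, h1, h2, h3, h4, rfl⟩ := hz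
  obtain ⟨β₂, P', Q', hP', hQ', h1', h2', h3', h4', rfl⟩ := hz'
  refine ⟨β₁ + β₂, P * P', Q * Q', ?_, hQ.mul hQ', ?_, ?_, ?_, ?_, ?_⟩
  · rw [add_add_add_comm]
    exact hP.mul hP'
  · rw [map_mul]
    exact mul_ne_zero h1 h1'
  · rw [map_mul]
    exact mul_ne_zero h2 h2'
  · rw [map_mul, w.ord_mul _ _ h1 h1', h3, h3', add_zero]
  · rw [map_mul, w.ord_mul _ _ h2 h2', h4, h4', add_zero]
  · rw [map_mul, map_mul, div_mul_div_comm]

private theorem GPos_inv (hz : GPos_W S w β z) : GPos_W S w (-β) z⁻¹ := by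
  obtain ⟨β₁, P, Q, hP, hQ, h1, h2, h3, h4, rfl⟩ := hz
  refine ⟨β₁ + β, Q, P, ?_, hP, h2, h1, h4, h3, inv_div _ _⟩
  rw [add_neg_cancel_right]
  exact hQ

private theorem GPos_pow (hz : GPos_W S w β z) (n : ℕ) : GPos_W S w (n • β) (z ^ n) := by
  induction n with
  | zero =>
    rw [zero_smul, pow_zero]
    exact GPos_one S w
  | succ n ih =>
    rw [add_smul, one_smul, pow_succ]
    exact GPos_mul S w ih hz

private theorem GPos_zpow (hz : GPos_W S w β z) (n : ℤ) : GPos_W S w (n • β) (z ^ n) := by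
  cases n with
  | ofNat n =>
    have h1 : (Int.ofNat n) • β = n • β := natCast_zsmul β n
    have h2 : z ^ (Int.ofNat n) = z ^ n := zpow_natCast z n
    rw [h1, h2]
    exact GPos_pow S w hz n
  | negSucc n =>
    rw [negSucc_zsmul, zpow_negSucc]
    exact GPos_inv S w (GPos_pow S w hz (n + 1))

private theorem GPos_prod {ι : Type} (s : Finset ι) (β : ι → Fin h → ℤ) (z : ι → L)
    (hz : ∀ i, GPos_W S w (β i) (z i)) : GPos_W S w (∑ i ∈ s, β i) (∏ i ∈ s, z i) := by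
  classical
  induction s using Finset.induction_on with
  | empty =>
    rw [Finset.sum_empty, Finset.prod_empty]
    exact GPos_one S w
  | insert a s ha ih =>
    rw [Finset.sum_insert ha, Finset.prod_insert ha]
    exact GPos_mul S w (hz a) ih

private theorem GPos_mem (Q : MvPolynomial (Ix m h c) k) : aeval S.x Q ∈ S.B := by
  rw [Sys.B, Algebra.adjoin_range_eq_range_aeval]
  exact ⟨Q, rfl⟩

private theorem GPos_out {P : Ideal S.B} (hw : w.HasCenter S.B P)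
    {Q : MvPolynomial (Ix m h c) k} (hQ : ∀ z ∈ P, (z : L) ≠ aeval S.x Q) :
    aeval S.x Q ≠ 0 ∧ w.ord (aeval S.x Q) = 0 :=
  Ten.Ind.out w hw (s := ⟨aeval S.x Q, GPos_mem S Q⟩) fun h => hQ _ h rfl

end GPosAux

theorem gpos {k : Type u} {K : Type v} {L : Type w} [Field k] [CharZero k] [Field K] [Field L]
    [Algebra k K] [Algebra k L] {m h c : ℕ} (S : Sys k K L m h c) (A : Subalgebra k K)
    (G : Geo S A) (δ : Ideal A →₀ ℝ) (hδ : ∀ q, 0 ≤ δ q) (𝔪 : Ideal A) (γ : Kˣ →₀ ℝ)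
    (hγ : IsLocalEq A S.D δ 𝔪 γ) (P : Ideal S.B) (hPh : IsHeightOne P)
    (hP : ∀ b : A, b ∉ 𝔪 → ∀ z ∈ P, (z : L) ≠ S.φ b) (w : DVal k L) (hw : w.HasCenter S.B P) :
    0 ≤ (w.ord S.η : ℝ) + γ.sum fun g r => r * (w.ord (S.φ (g : K)) : ℝ) := by
  have hx : ∀ i, w.Integral (S.x i) := fun i =>
    hw.1 ⟨S.x i, Algebra.subset_adjoin ⟨i, rfl⟩⟩
  have hφB : ∀ b : A, S.φ (b : K) ∈ S.B := by
    intro b
    obtain ⟨Q, _, hQ⟩ := (G.memA b).1 b.2
    rw [hQ]
    exact GPos_mem S Q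
  let ι : A →+* S.B := ((S.φ.comp A.val).codRestrict S.B hφB).toRingHom
  have hι : ∀ b : A, ((ι b : S.B) : L) = S.φ (b : K) := fun b => rfl
  have hPp : P.IsPrime := hPh.1
  let p : Ideal A := P.comap ι
  have hp : ∀ b : A, b ∈ p ↔ ∃ z ∈ P, (z : L) = S.φ b := by
    intro b
    constructor
    · intro hb
      exact ⟨ι b, hb, hι b⟩
    · rintro ⟨z, hz, hzb⟩
      change ι b ∈ P
      have : ι b = z := Subtype.ext ((hι b).trans hzb.symm)
      rwa [this]
  have hpm : p ≤ 𝔪 := by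
    intro b hb
    by_contra hb'
    obtain ⟨z, hz, hzb⟩ := (hp b).1 hb
    exact hP b hb' z hz hzb
  have hout : ∀ b : A, b ∉ p → S.φ (b : K) ≠ 0 ∧ w.ord (S.φ (b : K)) = 0 := fun b hb =>
    Ten.Ind.out w hw (s := ι b) hb
  have hφ0 : ∀ g : K, g ≠ 0 → S.φ g ≠ 0 := fun g hg => by
    rwa [Ne, map_eq_zero]
  have hWl : ∀ l, ∃ e : K, e ≠ 0 ∧ GPos_W S w (Pi.single l 1) (S.φ e * S.s l) := by
    intro l
    have h1 : ∀ i, ∃ z : L, GPos_W S w (S.χ i) z := by
      intro i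
      obtain ⟨β, U, V, hU, hV, hU', hV'⟩ := G.t2 P hPh i
      obtain ⟨hU0, hU1⟩ := GPos_out S w hw hU'
      obtain ⟨hV0, hV1⟩ := GPos_out S w hw hV'
      exact ⟨_, β, U, V, hU, hV, hU0, hV0, hU1, hV1, rfl⟩
    choose z hz using h1
    have h2 : GPos_W S w (∑ i, S.a l i • S.χ i) (∏ i, z i ^ S.a l i) :=
      GPos_prod S w Finset.univ _ _ fun i => GPos_zpow S w (hz i) (S.a l i)
    rw [S.ha] at h2
    obtain ⟨e, he⟩ := (S.isHom_iff (Pi.single l 1) _).1 (GPos_isHom S w h2)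
    have hs : S.sp (Pi.single l 1) = S.s l := by
      rw [Sys.sp, Finset.prod_eq_single l]
      · rw [Pi.single_eq_same, zpow_one]
      · intro b _ hb
        rw [Pi.single_eq_of_ne hb, zpow_zero]
      · exact fun h => absurd (Finset.mem_univ l) h
    rw [hs, mul_comm] at he
    refine ⟨e, ?_, he ▸ h2⟩
    rintro rfl
    rw [map_zero, zero_mul] at he
    exact GPos_ne S w h2 he
  choose e he0 he using hWl
  have hτ0 : ∀ l, w.ord (S.φ (e l) * S.s l) = 0 := fun l => GPos_ord S w (he l)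
  have hτ : ∀ l, ∃ (β : Fin h → ℤ) (P Q : MvPolynomial (Ix m h c) k),
      IsWeightedHomogeneous S.χ P (β + Pi.single l 1) ∧ IsWeightedHomogeneous S.χ Q β ∧
      aeval S.x Q ≠ 0 ∧ w.ord (aeval S.x Q) = 0 ∧
      S.φ (e l) * S.s l = aeval S.x P / aeval S.x Q := by
    intro l
    obtain ⟨β, P, Q, h1, h2, _, h4, _, h6, h7⟩ := he l
    exact ⟨β, P, Q, h1, h2, h4, h6, h7⟩
  obtain ⟨J, hJ⟩ := G.t3 P hPh
  have hdet : (Matrix.of fun j a => aeval S.x (pderiv (J a) (S.f j))).det =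
      aeval S.x (Matrix.of fun j a => pderiv (J a) (S.f j)).det := by
    rw [AlgHom.map_det]
    rfl
  obtain ⟨hJ0, hJ1⟩ := GPos_out S w hw (Q := (Matrix.of fun j a => pderiv (J a) (S.f j)).det)
    (fun z hz => by
      rw [← hdet]
      exact hJ z hz)
  rw [← hdet] at hJ0 hJ1
  have hb' : ∀ g : K, (∃ s : A, s ∉ p ∧ (s : K) * g ∈ A) →
      ∃ (β : Fin h → ℤ) (P Q : MvPolynomial (Ix m h c) k),
      IsWeightedHomogeneous S.χ P β ∧ IsWeightedHomogeneous S.χ Q β ∧ aeval S.x Q ≠ 0 ∧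
      w.ord (aeval S.x Q) = 0 ∧ S.φ g = aeval S.x P / aeval S.x Q := by
    rintro g ⟨s, hs, hsg⟩
    obtain ⟨Q, hQ, hQ'⟩ := (G.memA s).1 s.2
    obtain ⟨R, hR, hR'⟩ := (G.memA _).1 hsg
    obtain ⟨h1, h2⟩ := hout s hs
    refine ⟨0, R, Q, hR, hQ, hQ' ▸ h1, hQ' ▸ h2, ?_⟩
    rw [← hR', ← hQ', map_mul, mul_comm, mul_div_cancel_right₀ _ h1]
  have hDy : jac S.D S.y = 1 := Ten.jac_dual S.D S.y S.hD
  rcases G.t1 P hPh p hp with h0 | h1
  · -- the case `p = ⊥`
    have hA : ∀ b : A, b ≠ 0 → S.φ (b : K) ≠ 0 ∧ w.ord (S.φ (b : K)) = 0 := by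
      intro b hb
      refine hout b ?_
      rw [h0, Ideal.mem_bot]
      exact hb
    have hord : ∀ g : K, g ≠ 0 → w.ord (S.φ g) = 0 := by
      intro g hg
      obtain ⟨a, b, hb, hab⟩ := G.goodA.frac g
      have ha : a ≠ 0 := by
        rintro rfl
        apply hg
        rw [hab]
        exact zero_div _
      have hb1 : b ≠ 0 := by
        rintro rfl
        exact hb rfl
      rw [hab, map_div₀, Ten.ord_div w _ _ (hA a ha).1 (hA b hb1).1, (hA a ha).2, (hA b hb1).2,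
        sub_zero]
    have key := gp S w S.D S.y S.hD (fun i g => by
        simp only [S.hD, ite_mul, one_mul, zero_mul, Finset.sum_ite_eq, Finset.mem_univ, if_true])
      (fun i g _ h => by
        rw [hord _ (fun h' => h (by rw [h', map_zero]))])
      e he0 hτ0 (fun l => hb' _ (by
        obtain ⟨a, b, hb, hab⟩ := G.goodA.frac (S.y l)
        refine ⟨b, ?_, ?_⟩
        · rw [h0, Ideal.mem_bot]
          rintro rfl
          exact hb rfl
        · rw [hab, mul_div_cancel₀ _ hb]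
          exact a.2)) hτ hx J hJ0 hJ1
    rw [key, hDy, hord 1 one_ne_zero]
    have : (γ.sum fun g r => r * (w.ord (S.φ (g : K)) : ℝ)) = 0 := by
      refine Finset.sum_eq_zero fun g _ => ?_
      beta_reduce
      rw [hord _ g.ne_zero, Int.cast_zero, mul_zero]
    rw [this, Int.cast_zero, add_zero]
  · -- the case of height one
    obtain ⟨v, hv, hvA⟩ := dvr A (Ten.Ind.noeth A G.goodA.fg) G.goodA.frac G.goodA.norm p h1
    have hu : ∀ u : K, u ≠ 0 → v.ord u = 0 → w.ord (S.φ u) = 0 := by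
      intro u hu0 hu1
      obtain ⟨s, hs, hsu⟩ := (hvA u hu0).1 hu1.ge
      obtain ⟨hs0, hs1⟩ := Ten.Ind.out v hv hs
      have h2 : (⟨(s : K) * u, hsu⟩ : A) ∉ p := by
        intro h3
        have h4 := (hv.2 _).1 h3 (mul_ne_zero hs0 hu0)
        change 0 < v.ord ((s : K) * u) at h4
        rw [v.ord_mul _ _ hs0 hu0, hs1, hu1] at h4
        exact absurd h4 (by norm_num)
      have h5 := (hout _ h2).2
      change w.ord (S.φ ((s : K) * u)) = 0 at h5
      rw [map_mul, w.ord_mul _ _ (hφ0 _ hs0) (hφ0 _ hu0), (hout s hs).2, zero_add] at h5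
      exact h5
    obtain ⟨t, ht0, ht1⟩ := v.exists_ord_eq_one
    have hord : ∀ g : K, g ≠ 0 → w.ord (S.φ g) = v.ord g * w.ord (S.φ t) := by
      intro g hg
      have h2 := hu (g * t ^ (-(v.ord g))) (mul_ne_zero hg (zpow_ne_zero _ ht0)) (by
        rw [v.ord_mul _ _ hg (zpow_ne_zero _ ht0), Jac.ord_zpow v t ht0, ht1]
        ring)
      rw [map_mul, w.ord_mul _ _ (hφ0 _ hg) (hφ0 _ (zpow_ne_zero _ ht0)), map_zpow₀,
        Jac.ord_zpow w _ (hφ0 _ ht0)] at h2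
      linarith
    have he1 : 0 < w.ord (S.φ t) := by
      obtain ⟨s, hs, hst⟩ := (hvA t ht0).1 (by rw [ht1]; norm_num)
      obtain ⟨hs0, hs1⟩ := Ten.Ind.out v hv hs
      have h2 : (⟨(s : K) * t, hst⟩ : A) ∈ p := by
        refine (hv.2 _).2 fun _ => ?_
        change 0 < v.ord ((s : K) * t)
        rw [v.ord_mul _ _ hs0 ht0, hs1, ht1]
        norm_num
      have h3 := (hw.2 (ι ⟨(s : K) * t, hst⟩)).1 h2 (hφ0 _ (mul_ne_zero hs0 ht0))
      change 0 < w.ord (S.φ ((s : K) * t)) at h3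
      rw [map_mul, w.ord_mul _ _ (hφ0 _ hs0) (hφ0 _ ht0), (hout s hs).2, zero_add] at h3
      exact h3
    obtain ⟨j, hj⟩ := Ten.formOrd_heightOne A G.goodA S.D ⟨S.y, by rw [hDy]; exact one_ne_zero⟩
      p h1 v hv
    obtain ⟨a, E, ha, hja, hjo, hEa, hDE, _, hEi⟩ := Ten.formOrd_dual v S.D j hj
    have key := gp S w E a hEa hDE (fun i g hg h2 => by
        have hEg : E i g ≠ 0 := fun h' => h2 (by rw [h', map_zero])
        have hg0 : g ≠ 0 := by
          rintro rfl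
          exact hEg (map_zero _)
        have h3 := hg (hφ0 _ hg0)
        rw [hord g hg0] at h3
        have h4 : 0 ≤ v.ord g := nonneg_of_mul_nonneg_left h3 he1
        have h5 := hEi i g (fun _ => h4) hEg
        rw [hord _ hEg]
        exact mul_nonneg h5 he1.le)
      e he0 hτ0 (fun l => hb' _ (by
        by_cases h2 : a l = 0
        · refine ⟨1, fun h3 => h1.1.ne_top ((Ideal.eq_top_iff_one _).2 h3), ?_⟩
          rw [h2, mul_zero]
          exact A.zero_mem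
        · exact (hvA _ h2).1 (ha l h2))) hτ hx J hJ0 hJ1
    rw [key, hord _ hja, hjo]
    have h2 : (γ.sum fun g r => r * (w.ord (S.φ (g : K)) : ℝ)) =
        (w.ord (S.φ t) : ℝ) * v.val γ := by
      unfold DVal.val
      rw [Finsupp.sum, Finsupp.sum, Finset.mul_sum]
      refine Finset.sum_congr rfl fun g _ => ?_
      rw [hord _ g.ne_zero]
      push_cast
      ring
    rw [h2, ← hγ p hpm h1 v hv j hj]
    have h3 : (0 : ℝ) ≤ (w.ord (S.φ t) : ℝ) * δ p :=
      mul_nonneg (by exact_mod_cast he1.le) (hδ p)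
    have h4 : (((-j * w.ord (S.φ t) : ℤ)) : ℝ) + (w.ord (S.φ t) : ℝ) * ((j : ℝ) + δ p) =
        (w.ord (S.φ t) : ℝ) * δ p := by
      push_cast
      ring
    rw [h4]
    exact h3

end Pool.Agent.MLD.Cox
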