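import Pool.Agent.Lib.MP_f23696_ag.Y.ExpD
import Pool.Agent.Lib.MP_f23696_ag.Y.ExtL

/-!
Project COX, module Gam: universal arcs of a ring `O` with commuting derivations.

Write `t` for the variable of the power series.  Let `κ = O ⧸ I` (a field), `τ = ℕ × Fin (m+1)`,
`S = MvPolynomial τ O`, `F = FractionRing (MvPolynomial τ κ)`.  Extend each derivation `E i` to `S`
(coefficientwise: `E i (X p) = 0`) and then to `S⟦X⟧` (coefficientwise, `t ↦ 0`); let `∂_p` be the
partial derivative of `S` with respect to `X p`, also extended coefficientwise to `S⟦X⟧`.  All the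
`E i` and `∂_p` commute with each other.  Put
`P_0 = ∑_(j ≥ 0) X (j,0) t^(j+r)`, `P_i = ∑_(j ≥ 0) X (j,i) t^(j+1)` for `i ≠ 0` (elements of
`S⟦X⟧`), `Δ = ∑_i P_i • E i`, a derivation of `S⟦X⟧` with `t ∣ Δ f` (as `r ≥ 1`), `Δ t = 0` and
`E l P_i = 0`, so `Δ` commutes with all `E l`.  Let `e = exp Δ` (`expD`; `R = S` is a `ℚ`-algebra
since `k` has characteristic zero), a ring homomorphism, commuting with the `E l`
(coefficientwise in the formula of `expD`).
`Γ a =` image of `e (C (C a))` under `S⟦X⟧ → (MvPolynomial τ κ)⟦X⟧ → F⟦X⟧` (reduction of the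
coefficients modulo `I`).  It is a `k`-algebra homomorphism (`E i` kill `k`, so
`e (C (C (algebraMap k O c))) = C (C (algebraMap k O c))`).

(1) `constantCoeff (Γ a)` is the class of `a`: `e f ≡ f` modulo `t`.  So it is zero iff `a ∈ I`.
(2) `Δ π = P_0`, `Δ P_0 = 0`, so `e π = π + P_0` and `Γ π = ∑_(j ≥ 0) X (j,0) t^(j+r) = t^r u` with
`constantCoeff u = X (0,0) ≠ 0`.
(3) For `p = (j, i)`: `∂_p Δ - Δ ∂_p = t^(j+r) E 0` if `i = 0`, `t^(j+1) E i` if `i ≠ 0`; write
`t^s E i`.  For `g = C (C a)`: `∂_p g = 0` and, by induction on `n`,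
`∂_p (Δ^n g) = n t^s Δ^(n-1) (E i g)` (as `E i` and `t` commute with `Δ`).  So
`∂_p (e g) = t^s e (E i g)`.  Hence, with the derivation `∂_p` of `F` (extension to the fraction
field), `cder ∂_p (Γ a) = t^s Γ (E i a)`.
(4) For `i ≠ 0`: `E i` preserves `I`, so it induces a derivation of `κ`, of
`MvPolynomial τ κ` (coefficientwise) and of `F`, call it `Ē_i`; `cder Ē_i (Γ a) = Γ (E i a)` because
`E i (e g) = e (E i g)`.
So put `d 0 j = ∂_(j,0)`, `d i 0 = Ē_i`, `d i (j+1) = ∂_(j,i)` for `i ≠ 0`.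

(Extension of a derivation of a domain to its fraction field: Mathlib
`Derivation.liftOfRightInverse`/localization, or through Kaehler differentials
`KaehlerDifferential` of a localization, or by hand.)
-/

set_option autoImplicit false

namespace Pool.Agent.MLD.Cox

open scoped PowerSeries

universe u v w

section Gen

variable {R : Type v} [CommRing R] [Algebra ℚ R]

/-- a derivation applied to the coefficients -/
private noncomputable def Gam_c (D : Derivation ℚ R R) : Derivation ℚ R⟦X⟧ R⟦X⟧ :=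
  Derivation.mk'
    { toFun := fun f => PowerSeries.mk fun n => D (PowerSeries.coeff n f)
      map_add' := fun f g => by
        ext n
        rw [PowerSeries.coeff_mk, map_add, map_add, map_add, PowerSeries.coeff_mk,
          PowerSeries.coeff_mk]
      map_smul' := fun c f => by
        ext n
        rw [PowerSeries.coeff_mk, map_rat_smul (PowerSeries.coeff n), map_rat_smul D,
          RingHom.id_apply, map_rat_smul (PowerSeries.coeff n), PowerSeries.coeff_mk] }
    (fun f g => by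
      change PowerSeries.mk (fun n => D (PowerSeries.coeff n (f * g))) =
        f * PowerSeries.mk (fun n => D (PowerSeries.coeff n g)) +
          g * PowerSeries.mk (fun n => D (PowerSeries.coeff n f))
      ext n
      rw [mul_comm g, map_add, PowerSeries.coeff_mk, PowerSeries.coeff_mul, map_sum,
        PowerSeries.coeff_mul, PowerSeries.coeff_mul, ← Finset.sum_add_distrib]
      refine Finset.sum_congr rfl fun x _ => ?_
      rw [D.leibniz, PowerSeries.coeff_mk, PowerSeries.coeff_mk, smul_eq_mul, smul_eq_mul]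
      ring)

private theorem Gam_c_coeff (D : Derivation ℚ R R) (f : R⟦X⟧) (n : ℕ) :
    PowerSeries.coeff n (Gam_c D f) = D (PowerSeries.coeff n f) := by
  change PowerSeries.coeff n (PowerSeries.mk fun n => D (PowerSeries.coeff n f)) = _
  rw [PowerSeries.coeff_mk]

private theorem Gam_c_X (D : Derivation ℚ R R) : Gam_c D PowerSeries.X = 0 := by
  ext n
  rw [Gam_c_coeff, PowerSeries.coeff_X, map_zero]
  split_ifs
  · exact D.map_one_eq_zero
  · exact map_zero D

private theorem Gam_c_C (D : Derivation ℚ R R) (a : R) :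
    Gam_c D (PowerSeries.C a) = PowerSeries.C (D a) := by
  ext n
  rw [Gam_c_coeff, PowerSeries.coeff_C, PowerSeries.coeff_C]
  split_ifs
  · rfl
  · exact map_zero D

private theorem Gam_c_comm {D D' : Derivation ℚ R R} (h : ∀ a, D (D' a) = D' (D a))
    (f : R⟦X⟧) : Gam_c D (Gam_c D' f) = Gam_c D' (Gam_c D f) := by
  ext n
  rw [Gam_c_coeff, Gam_c_coeff, Gam_c_coeff, Gam_c_coeff, h]

/-- the terms of the exponential series -/
private noncomputable def Gam_a (Δ : Derivation ℚ R⟦X⟧ R⟦X⟧) (i : ℕ) (f : R⟦X⟧) : R⟦X⟧ :=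
  ((i.factorial : ℚ)⁻¹) • (Δ^[i]) f

/-- commutation with the exponential -/
private theorem Gam_exp {Δ D G : Derivation ℚ R⟦X⟧ R⟦X⟧} {c : R⟦X⟧}
    (hDX : D PowerSeries.X = 0) (hΔc : Δ c = 0)
    (hDΔ : ∀ f, D (Δ f) = Δ (D f) + c * G f) (hGΔ : ∀ f, G (Δ f) = Δ (G f))
    {e : R⟦X⟧ →+* R⟦X⟧} (he : ∀ (n s : ℕ) (f : R⟦X⟧), n ≤ s → PowerSeries.coeff n (e f) =
      PowerSeries.coeff n (∑ i ∈ Finset.range (s + 1), ((i.factorial : ℚ)⁻¹) • (Δ^[i]) f))
    (f : R⟦X⟧) : D (e f) = e (D f) + c * e (G f) := by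
  have hGi : ∀ (n : ℕ) (f : R⟦X⟧), G ((Δ^[n]) f) = (Δ^[n]) (G f) := by
    intro n
    induction n with
    | zero => intro f; rfl
    | succ n ih =>
      intro f
      rw [Function.iterate_succ_apply', Function.iterate_succ_apply', hGΔ, ih]
  have hDi : ∀ (n : ℕ) (f : R⟦X⟧), D ((Δ^[n + 1]) f) =
      (Δ^[n + 1]) (D f) + ((n : ℚ) + 1) • (c * (Δ^[n]) (G f)) := by
    intro n
    induction n with
    | zero =>
      intro f
      simp only [Function.iterate_succ_apply, Function.iterate_zero_apply, hDΔ]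
      simp
    | succ n ih =>
      intro f
      rw [Function.iterate_succ_apply' Δ (n + 1) f, hDΔ, ih, map_add, Δ.map_smul, Δ.leibniz, hΔc,
        smul_zero, add_zero, smul_eq_mul, hGi, ← Function.iterate_succ_apply' Δ (n + 1) (D f),
        ← Function.iterate_succ_apply' Δ n (G f), add_assoc]
      congr 1
      push_cast
      rw [add_smul ((n : ℚ) + 1) 1, one_smul]
  have hDa : ∀ (n : ℕ) (f : R⟦X⟧), D (Gam_a Δ (n + 1) f) =
      Gam_a Δ (n + 1) (D f) + c * Gam_a Δ n (G f) := by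
    intro n f
    unfold Gam_a
    rw [D.map_smul, hDi, smul_add, smul_smul, mul_smul_comm]
    congr 2
    rw [Nat.factorial_succ]
    push_cast
    have h1 : ((n : ℚ) + 1) ≠ 0 := by positivity
    rw [mul_inv, mul_comm, ← mul_assoc, mul_inv_cancel₀ h1, one_mul]
  have hsum : ∀ (s : ℕ) (f : R⟦X⟧), D (∑ i ∈ Finset.range (s + 1), Gam_a Δ i f) =
      (∑ i ∈ Finset.range (s + 1), Gam_a Δ i (D f)) +
        c * ∑ i ∈ Finset.range s, Gam_a Δ i (G f) := by
    intro s f
    rw [Finset.sum_range_succ', Finset.sum_range_succ' (fun i => Gam_a Δ i (D f)), map_add,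
      map_sum, Finset.sum_congr rfl fun i _ => hDa i f, Finset.sum_add_distrib, Finset.mul_sum]
    have h0 : D (Gam_a Δ 0 f) = Gam_a Δ 0 (D f) := by
      simp [Gam_a]
    rw [h0]
    ring
  have hdv : ∀ (s : ℕ) (f : R⟦X⟧), (PowerSeries.X : R⟦X⟧) ^ (s + 1) ∣
      e f - ∑ i ∈ Finset.range (s + 1), Gam_a Δ i f := by
    intro s f
    rw [PowerSeries.X_pow_dvd_iff]
    intro n hn
    rw [map_sub, he n s f (by omega), sub_eq_zero]
    rfl
  have hdv' : ∀ (s : ℕ) (f : R⟦X⟧), (PowerSeries.X : R⟦X⟧) ^ s ∣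
      e f - ∑ i ∈ Finset.range s, Gam_a Δ i f := by
    intro s f
    cases s with
    | zero => simp
    | succ s => exact hdv s f
  have hDd : ∀ (s : ℕ) (g : R⟦X⟧), (PowerSeries.X : R⟦X⟧) ^ s ∣ g →
      (PowerSeries.X : R⟦X⟧) ^ s ∣ D g := by
    rintro s g ⟨h, rfl⟩
    rw [D.leibniz, D.leibniz_pow, hDX, smul_zero, smul_zero, smul_zero, add_zero, smul_eq_mul]
    exact Dvd.intro _ rfl
  have key : ∀ s : ℕ, (PowerSeries.X : R⟦X⟧) ^ s ∣ D (e f) - (e (D f) + c * e (G f)) := by
    intro s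
    have e1 : D (e f) - (e (D f) + c * e (G f)) =
        D (e f - ∑ i ∈ Finset.range (s + 1), Gam_a Δ i f) -
          (e (D f) - ∑ i ∈ Finset.range (s + 1), Gam_a Δ i (D f)) -
          c * (e (G f) - ∑ i ∈ Finset.range s, Gam_a Δ i (G f)) := by
      rw [map_sub, hsum]
      ring
    rw [e1]
    refine dvd_sub (dvd_sub (hDd s _ ?_) ?_) ?_
    · exact (pow_dvd_pow _ (Nat.le_succ s)).trans (hdv s f)
    · exact (pow_dvd_pow _ (Nat.le_succ s)).trans (hdv s (D f))
    · exact (hdv' s (G f)).mul_left c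
  rw [← sub_eq_zero]
  ext n
  rw [map_zero]
  exact PowerSeries.X_pow_dvd_iff.1 (key (n + 1)) n (Nat.lt_succ_self n)

/-- the dual number homomorphism -/
private noncomputable def Gam_q {τ : Type} (D : Derivation ℚ R R) :
    MvPolynomial τ R →+* TrivSqZeroExt (MvPolynomial τ R) (MvPolynomial τ R) :=
  MvPolynomial.eval₂Hom
    { toFun := fun a => TrivSqZeroExt.inl (MvPolynomial.C a) +
        TrivSqZeroExt.inr (MvPolynomial.C (D a))
      map_one' := by ext1 <;> simp
      map_mul' := fun a b => by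
        ext1
        · simp
        · simp [mul_comm]
      map_zero' := by ext1 <;> simp
      map_add' := fun a b => by ext1 <;> simp }
    (fun t => TrivSqZeroExt.inl (MvPolynomial.X t))

private theorem Gam_q_C {τ : Type} (D : Derivation ℚ R R) (a : R) :
    Gam_q (τ := τ) D (MvPolynomial.C a) = TrivSqZeroExt.inl (MvPolynomial.C a) +
      TrivSqZeroExt.inr (MvPolynomial.C (D a)) :=
  MvPolynomial.eval₂Hom_C _ _ _

private theorem Gam_q_X {τ : Type} (D : Derivation ℚ R R) (t : τ) :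
    Gam_q D (MvPolynomial.X t : MvPolynomial τ R) = TrivSqZeroExt.inl (MvPolynomial.X t) :=
  MvPolynomial.eval₂Hom_X' _ _ _

private theorem Gam_q_fst {τ : Type} (D : Derivation ℚ R R) (f : MvPolynomial τ R) :
    (Gam_q D f).fst = f := by
  have h1 : ((TrivSqZeroExt.fstHom (MvPolynomial τ R) (MvPolynomial τ R)
      (MvPolynomial τ R)).toRingHom.comp (Gam_q D)) = RingHom.id _ := by
    refine MvPolynomial.ringHom_ext (fun a => ?_) fun t => ?_
    · show (Gam_q D (MvPolynomial.C a)).fst = _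
      rw [Gam_q_C]
      simp
    · show (Gam_q D (MvPolynomial.X t)).fst = _
      rw [Gam_q_X]
      simp
  exact DFunLike.congr_fun h1 f

/-- a derivation applied to the coefficients of a polynomial -/
private noncomputable def Gam_p {τ : Type} (D : Derivation ℚ R R) :
    Derivation ℚ (MvPolynomial τ R) (MvPolynomial τ R) :=
  Derivation.mk'
    (AddMonoidHom.toRatLinearMap
      { toFun := fun f => (Gam_q D f).snd
        map_zero' := by rw [map_zero, TrivSqZeroExt.snd_zero]
        map_add' := fun f g => by rw [map_add, TrivSqZeroExt.snd_add] })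
    (fun f g => by
      change (Gam_q D (f * g)).snd = f • (Gam_q D g).snd + g • (Gam_q D f).snd
      rw [map_mul, TrivSqZeroExt.snd_mul, Gam_q_fst, Gam_q_fst]
      simp [mul_comm])

private theorem Gam_p_apply {τ : Type} (D : Derivation ℚ R R) (f : MvPolynomial τ R) :
    Gam_p D f = (Gam_q D f).snd := rfl

private theorem Gam_p_C {τ : Type} (D : Derivation ℚ R R) (a : R) :
    Gam_p (τ := τ) D (MvPolynomial.C a) = MvPolynomial.C (D a) := by
  rw [Gam_p_apply, Gam_q_C]
  simp

private theorem Gam_p_X {τ : Type} (D : Derivation ℚ R R) (t : τ) :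
    Gam_p D (MvPolynomial.X t : MvPolynomial τ R) = 0 := by
  rw [Gam_p_apply, Gam_q_X]
  simp

private theorem Gam_p_mulX {τ : Type} (D : Derivation ℚ R R) (f : MvPolynomial τ R) (t : τ) :
    Gam_p D (f * MvPolynomial.X t) = MvPolynomial.X t * Gam_p D f := by
  rw [Derivation.leibniz, Gam_p_X, smul_zero, zero_add, smul_eq_mul]

private theorem Gam_p_Xmul {τ : Type} (D : Derivation ℚ R R) (f : MvPolynomial τ R) (t : τ) :
    Gam_p D (MvPolynomial.X t * f) = MvPolynomial.X t * Gam_p D f := by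
  rw [mul_comm, Gam_p_mulX]

private theorem Gam_p_comm {τ : Type} {D D' : Derivation ℚ R R} (h : ∀ a, D (D' a) = D' (D a))
    (f : MvPolynomial τ R) : Gam_p D (Gam_p D' f) = Gam_p D' (Gam_p D f) := by
  induction f using MvPolynomial.induction_on with
  | C a => rw [Gam_p_C, Gam_p_C, Gam_p_C, Gam_p_C, h]
  | add f g hf hg => rw [map_add, map_add, map_add, map_add, hf, hg]
  | mul_X f t hf => rw [Gam_p_mulX, Gam_p_mulX, Gam_p_Xmul, Gam_p_Xmul, hf]

/-- the partial derivative as a derivation over `ℚ` -/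
private noncomputable def Gam_d {τ : Type} (p : τ) :
    Derivation ℚ (MvPolynomial τ R) (MvPolynomial τ R) :=
  Derivation.mk'
    { toFun := fun f => MvPolynomial.pderiv p f
      map_add' := fun _ _ => map_add _ _ _
      map_smul' := fun _ _ => map_rat_smul _ _ _ }
    (fun f g => (MvPolynomial.pderiv p).leibniz f g)

private theorem Gam_d_apply {τ : Type} (p : τ) (f : MvPolynomial τ R) :
    Gam_d p f = MvPolynomial.pderiv p f := rfl

private theorem Gam_pd_comm {τ : Type} (D : Derivation ℚ R R) (p : τ) (f : MvPolynomial τ R) :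
    Gam_d p (Gam_p D f) = Gam_p D (Gam_d p f) := by
  classical
  induction f using MvPolynomial.induction_on with
  | C a => rw [Gam_p_C, Gam_d_apply, Gam_d_apply, MvPolynomial.pderiv_C, MvPolynomial.pderiv_C,
      map_zero]
  | add f g hf hg => rw [map_add, map_add, map_add, map_add, hf, hg]
  | mul_X f t hf =>
    have h1 : Gam_p D (Gam_d p (MvPolynomial.X t : MvPolynomial τ R)) = 0 := by
      rw [Gam_d_apply, MvPolynomial.pderiv_X]
      rcases eq_or_ne t p with rfl | h
      · rw [Pi.single_eq_same]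
        exact (Gam_p D).map_one_eq_zero
      · rw [Pi.single_eq_of_ne h, map_zero]
    rw [Gam_p_mulX, (Gam_d p).leibniz (MvPolynomial.X t) (Gam_p D f),
      (Gam_d p).leibniz f (MvPolynomial.X t), smul_eq_mul, smul_eq_mul, smul_eq_mul, smul_eq_mul,
      map_add, Gam_p_Xmul, (Gam_p D).leibniz, h1, hf, smul_zero, smul_eq_mul]
    ring

/-- the combination of derivations -/
private noncomputable def Gam_D {ι : Type} [Fintype ι] (P : ι → R) (D : ι → Derivation ℚ R R) :
    Derivation ℚ R R :=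
  Derivation.mk'
    { toFun := fun f => ∑ i, P i * D i f
      map_add' := fun f g => by
        simp only [map_add, mul_add, Finset.sum_add_distrib]
      map_smul' := fun c f => by
        simp only [Derivation.map_smul, mul_smul_comm, Finset.smul_sum, RingHom.id_apply] }
    (fun f g => by
      change ∑ i, P i * D i (f * g) = f * (∑ i, P i * D i g) + g * ∑ i, P i * D i f
      rw [Finset.mul_sum, Finset.mul_sum, ← Finset.sum_add_distrib]
      refine Finset.sum_congr rfl fun i _ => ?_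
      rw [Derivation.leibniz, smul_eq_mul, smul_eq_mul]
      ring)

private theorem Gam_D_apply {ι : Type} [Fintype ι] (P : ι → R) (D : ι → Derivation ℚ R R)
    (f : R) : Gam_D P D f = ∑ i, P i * D i f := rfl

end Gen

section Main

variable {O : Type v} [CommRing O] {m : ℕ}

private def Gam_r (r : ℕ) (i : Fin (m + 1)) : ℕ := if i = 0 then r else 1

private noncomputable def Gam_P (O : Type v) [CommRing O] (r : ℕ) (i : Fin (m + 1)) :
    (MvPolynomial (ℕ × Fin (m + 1)) O)⟦X⟧ :=
  PowerSeries.mk fun n => if Gam_r r i ≤ n then MvPolynomial.X (n - Gam_r r i, i) else 0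

private theorem Gam_P_dvd {r : ℕ} (hr : 1 ≤ r) (i : Fin (m + 1)) :
    (PowerSeries.X : (MvPolynomial (ℕ × Fin (m + 1)) O)⟦X⟧) ∣ Gam_P O r i := by
  rw [PowerSeries.X_dvd_iff, ← PowerSeries.coeff_zero_eq_constantCoeff_apply, Gam_P,
    PowerSeries.coeff_mk, if_neg]
  unfold Gam_r
  split_ifs <;> omega

variable [Algebra ℚ O]

private theorem Gam_P_D (D : Derivation ℚ O O) (r : ℕ) (i : Fin (m + 1)) :
    Gam_c (Gam_p D) (Gam_P O r i) = 0 := by
  ext n
  rw [Gam_c_coeff, Gam_P, PowerSeries.coeff_mk, map_zero]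
  split_ifs
  · exact congrArg _ (Gam_p_X D _)
  · rw [map_zero]

private theorem Gam_P_d (r j : ℕ) (l i : Fin (m + 1)) :
    Gam_c (Gam_d (j, l)) (Gam_P O r i) =
      if i = l then (PowerSeries.X : (MvPolynomial (ℕ × Fin (m + 1)) O)⟦X⟧) ^ (j + Gam_r r l)
        else 0 := by
  classical
  ext1 n
  rw [Gam_c_coeff, Gam_P, PowerSeries.coeff_mk]
  by_cases hi : i = l
  · subst hi
    rw [if_pos rfl, PowerSeries.coeff_X_pow]
    by_cases h1 : Gam_r r i ≤ n
    · rw [if_pos h1, Gam_d_apply, MvPolynomial.pderiv_X]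
      by_cases h2 : n = j + Gam_r r i
      · rw [if_pos h2, h2, Nat.add_sub_cancel, Pi.single_eq_same]
      · rw [if_neg h2, Pi.single_eq_of_ne]
        intro h3
        rw [Prod.mk.injEq] at h3
        omega
    · rw [if_neg h1, map_zero, if_neg (by omega)]
  · rw [if_neg hi, map_zero]
    split_ifs
    · rw [Gam_d_apply, MvPolynomial.pderiv_X, Pi.single_eq_of_ne]
      intro h3
      rw [Prod.mk.injEq] at h3
      exact hi h3.2
    · rw [map_zero]

/-- the exponential -/
private theorem Gam_e (E : Fin (m + 1) → Derivation ℚ O O)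
    (hcomm : ∀ i j a, E i (E j a) = E j (E i a)) {r : ℕ} (hr : 1 ≤ r) :
    ∃ e : (MvPolynomial (ℕ × Fin (m + 1)) O)⟦X⟧ →+* (MvPolynomial (ℕ × Fin (m + 1)) O)⟦X⟧,
      (∀ i f, Gam_c (Gam_p (E i)) (e f) = e (Gam_c (Gam_p (E i)) f)) ∧
      (∀ j l f, Gam_c (Gam_d (j, l)) (e f) = e (Gam_c (Gam_d (j, l)) f) +
        PowerSeries.X ^ (j + Gam_r r l) * e (Gam_c (Gam_p (E l)) f)) ∧
      (∀ f, PowerSeries.coeff 0 (e f) = PowerSeries.coeff 0 f) ∧
      ∀ f g, (∀ i, Gam_c (Gam_p (E i)) f = if i = 0 then g else 0) →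
        (∀ i, Gam_c (Gam_p (E i)) g = 0) → e f = f + Gam_P O r 0 * g := by
  obtain ⟨Δ, hΔ⟩ : ∃ Δ : Derivation ℚ (MvPolynomial (ℕ × Fin (m + 1)) O)⟦X⟧
      (MvPolynomial (ℕ × Fin (m + 1)) O)⟦X⟧,
      ∀ f, Δ f = ∑ i, Gam_P O r i * Gam_c (Gam_p (E i)) f :=
    ⟨Gam_D (Gam_P O r) fun i => Gam_c (Gam_p (E i)), fun f => rfl⟩
  have hΔX : Δ PowerSeries.X = 0 := by
    rw [hΔ]
    exact Finset.sum_eq_zero fun i _ => by rw [Gam_c_X, mul_zero]
  have hXΔ : ∀ f, (PowerSeries.X : (MvPolynomial (ℕ × Fin (m + 1)) O)⟦X⟧) ∣ Δ f := by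
    intro f
    rw [hΔ]
    exact Finset.dvd_sum fun i _ => (Gam_P_dvd hr i).mul_right _
  have hDΔ : ∀ l f, Gam_c (Gam_p (E l)) (Δ f) = Δ (Gam_c (Gam_p (E l)) f) := by
    intro l f
    rw [hΔ, hΔ, map_sum]
    refine Finset.sum_congr rfl fun i _ => ?_
    rw [Derivation.leibniz, Gam_P_D, smul_zero, add_zero, smul_eq_mul,
      Gam_c_comm (Gam_p_comm (hcomm l i))]
  have hdΔ : ∀ j l f, Gam_c (Gam_d (j, l)) (Δ f) = Δ (Gam_c (Gam_d (j, l)) f) +
      PowerSeries.X ^ (j + Gam_r r l) * Gam_c (Gam_p (E l)) f := by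
    intro j l f
    rw [hΔ, hΔ, map_sum]
    have h1 : ∀ i, Gam_c (Gam_d (j, l)) (Gam_P O r i * Gam_c (Gam_p (E i)) f) =
        Gam_P O r i * Gam_c (Gam_p (E i)) (Gam_c (Gam_d (j, l)) f) +
          if i = l then PowerSeries.X ^ (j + Gam_r r l) * Gam_c (Gam_p (E l)) f else 0 := by
      intro i
      rw [Derivation.leibniz, Gam_P_d, smul_eq_mul, smul_eq_mul,
        Gam_c_comm (Gam_pd_comm (E i) (j, l))]
      congr 1
      split_ifs with h
      · rw [h, mul_comm]
      · rw [mul_zero]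
    rw [Finset.sum_congr rfl fun i _ => h1 i, Finset.sum_add_distrib, Finset.sum_ite_eq',
      if_pos (Finset.mem_univ _)]
  obtain ⟨e, he⟩ := expD Δ hXΔ hΔX
  refine ⟨e, ?_, ?_, ?_, ?_⟩
  · intro i f
    have h1 := Gam_exp (Δ := Δ) (D := Gam_c (Gam_p (E i))) (G := 0) (c := 0) (Gam_c_X _)
      (map_zero Δ) (fun f => by rw [hDΔ, zero_mul, add_zero]) (fun f => by simp) he f
    rw [zero_mul, add_zero] at h1
    exact h1
  · intro j l f
    refine Gam_exp (Δ := Δ) (D := Gam_c (Gam_d (j, l))) (G := Gam_c (Gam_p (E l)))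
      (c := PowerSeries.X ^ (j + Gam_r r l)) (Gam_c_X _) ?_ (hdΔ j l) (hDΔ l) he f
    rw [Δ.leibniz_pow, hΔX, smul_zero, smul_zero]
  · intro f
    rw [he 0 0 f le_rfl]
    simp
  · intro f g hf hg
    have h1 : Δ f = Gam_P O r 0 * g := by
      rw [hΔ, Finset.sum_eq_single 0]
      · rw [hf, if_pos rfl]
      · intro i _ hi
        rw [hf, if_neg hi, mul_zero]
      · intro h
        exact absurd (Finset.mem_univ _) h
    have h2 : Δ (Δ f) = 0 := by
      rw [h1, hΔ]
      refine Finset.sum_eq_zero fun i _ => ?_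
      rw [Derivation.leibniz, Gam_P_D, hg, smul_zero, smul_zero, add_zero, mul_zero]
    ext1 n
    rw [he n (n + 1) f (Nat.le_succ n), Finset.sum_range_succ', Finset.sum_range_succ', ← h1]
    have h3 : ∑ i ∈ Finset.range n, (((i + 1 + 1).factorial : ℚ)⁻¹) • (Δ^[i + 1 + 1]) f = 0 := by
      refine Finset.sum_eq_zero fun i _ => ?_
      have h4 : (Δ^[i + 1 + 1]) f = 0 := by
        rw [Function.iterate_succ_apply, Function.iterate_succ_apply, h2, iterate_map_zero]
      rw [h4, smul_zero]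
    rw [h3]
    simp [add_comm]

end Main

section Fin

variable {k : Type u} {O : Type v} {F : Type v} [Field k] [CommRing O] [Algebra ℚ O] [Field F]
  [Algebra k F] {τ : Type}

private theorem Gam_ind {ψ : MvPolynomial τ O →+* F}
    {D : Derivation ℚ (MvPolynomial τ O) (MvPolynomial τ O)} {d : Derivation k F F}
    (hC : ∀ a, d (ψ (MvPolynomial.C a)) = ψ (D (MvPolynomial.C a)))
    (hX : ∀ t, d (ψ (MvPolynomial.X t)) = ψ (D (MvPolynomial.X t))) (s : MvPolynomial τ O) :
    d (ψ s) = ψ (D s) := by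
  induction s using MvPolynomial.induction_on with
  | C a => exact hC a
  | add f g hf hg => rw [map_add, map_add, map_add, map_add, hf, hg]
  | mul_X f t hf =>
    rw [map_mul, d.leibniz, D.leibniz, hf, hX, smul_eq_mul, smul_eq_mul, smul_eq_mul, smul_eq_mul,
      map_add, map_mul, map_mul]

private theorem Gam_cder {ψ : MvPolynomial τ O →+* F}
    {D : Derivation ℚ (MvPolynomial τ O) (MvPolynomial τ O)} {d : Derivation k F F}
    (h : ∀ s, d (ψ s) = ψ (D s)) (f : (MvPolynomial τ O)⟦X⟧) :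
    cder d (PowerSeries.map ψ f) = PowerSeries.map ψ (Gam_c D f) := by
  ext n
  rw [cder, PowerSeries.coeff_mk, PowerSeries.coeff_map, PowerSeries.coeff_map, Gam_c_coeff, h]

end Fin

/-- a derivation over `k` as a derivation over `ℚ` -/
private noncomputable def Gam_E {k : Type u} {O : Type v} [Field k] [CommRing O] [Algebra k O]
    [Algebra ℚ O] (E : Derivation k O O) : Derivation ℚ O O :=
  Derivation.mk'
    { toFun := fun f => E f
      map_add' := fun _ _ => map_add _ _ _
      map_smul' := fun _ _ => map_rat_smul _ _ _ }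
    (fun f g => E.leibniz f g)

private theorem Gam_main {k : Type u} {O : Type v} [Field k] [CommRing O] [Algebra k O]
    [Algebra ℚ O] {κ : Type v} [Field κ] [Algebra k κ] (q : O →ₐ[k] κ)
    (hq : Function.Surjective q) {m : ℕ} (E : Fin (m + 1) → Derivation k O O)
    (hcomm : ∀ i j a, E i (E j a) = E j (E i a)) (hI : ∀ i, i ≠ 0 → ∀ a, q a = 0 → q (E i a) = 0)
    (π : O) (hπ : q π = 0) (hEπ : ∀ i, E i π = if i = 0 then 1 else 0) (r : ℕ) (hr : 1 ≤ r) :
    ∃ (F : Type v) (_ : Field F) (_ : Algebra k F) (Γ : O →ₐ[k] F⟦X⟧)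
      (d : Fin (m + 1) → ℕ → Derivation k F F),
      (∀ a, PowerSeries.constantCoeff (Γ a) = 0 ↔ q a = 0) ∧
      (∃ u, Γ π = (PowerSeries.X : F⟦X⟧) ^ r * u ∧ PowerSeries.constantCoeff u ≠ 0) ∧
      ∀ i j a, cder (d i j) (Γ a) =
        (PowerSeries.X : F⟦X⟧) ^ (j + if i = 0 then r else 0) * Γ (E i a) := by
  classical
  obtain ⟨e, he1, he2, he3, he4⟩ := Gam_e (fun i => Gam_E (E i)) hcomm hr
  obtain ⟨ψ, hψC, hψX⟩ : ∃ ψ : MvPolynomial (ℕ × Fin (m + 1)) O →+*
      FractionRing (MvPolynomial (ℕ × Fin (m + 1)) κ),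
      (∀ a, ψ (MvPolynomial.C a) = algebraMap κ _ (q a)) ∧
      ∀ t, ψ (MvPolynomial.X t) = algebraMap (MvPolynomial (ℕ × Fin (m + 1)) κ) _
        (MvPolynomial.X t) := by
    refine ⟨(algebraMap (MvPolynomial (ℕ × Fin (m + 1)) κ) _).comp
      (MvPolynomial.map (q : O →+* κ)), fun a => ?_, fun t => ?_⟩
    · rw [RingHom.comp_apply, MvPolynomial.map_C]
      rfl
    · rw [RingHom.comp_apply, MvPolynomial.map_X]
  have hcc : ∀ (i : Fin (m + 1)) (a : O), Gam_c (Gam_p (Gam_E (E i)))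
      (PowerSeries.C (MvPolynomial.C a : MvPolynomial (ℕ × Fin (m + 1)) O)) =
        PowerSeries.C (MvPolynomial.C (E i a)) := by
    intro i a
    rw [Gam_c_C, Gam_p_C]
    rfl
  have hek : ∀ c : k, e (PowerSeries.C (MvPolynomial.C (algebraMap k O c))) =
      PowerSeries.C (MvPolynomial.C (algebraMap k O c)) := by
    intro c
    have h1 := he4 (PowerSeries.C (MvPolynomial.C (algebraMap k O c))) 0 (fun i => by
      rw [hcc, Derivation.map_algebraMap, map_zero, map_zero, ite_self])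
      (fun i => by rw [map_zero])
    rw [h1, mul_zero, add_zero]
  obtain ⟨Γ, hΓ⟩ : ∃ Γ : O →ₐ[k] (FractionRing (MvPolynomial (ℕ × Fin (m + 1)) κ))⟦X⟧,
      ∀ a, Γ a = PowerSeries.map ψ (e (PowerSeries.C (MvPolynomial.C a))) := by
    obtain ⟨G0, hG0⟩ : ∃ G0 : O →+* (FractionRing (MvPolynomial (ℕ × Fin (m + 1)) κ))⟦X⟧,
        ∀ a, G0 a = PowerSeries.map ψ (e (PowerSeries.C (MvPolynomial.C a))) :=
      ⟨(PowerSeries.map ψ).comp (e.comp ((PowerSeries.C).comp MvPolynomial.C)), fun a => rfl⟩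
    have hG1 : ∀ c : k, G0 (algebraMap k O c) = algebraMap k _ c := by
      intro c
      rw [hG0, hek, PowerSeries.map_C, hψC, AlgHom.commutes, PowerSeries.algebraMap_apply]
      congr 1
    exact ⟨⟨G0, hG1⟩, hG0⟩
  have hkey : ∀ (i : Fin (m + 1)) (j : ℕ), ∃ d : Derivation k
      (FractionRing (MvPolynomial (ℕ × Fin (m + 1)) κ))
      (FractionRing (MvPolynomial (ℕ × Fin (m + 1)) κ)), ∀ a, cder d (Γ a) =
        PowerSeries.X ^ (j + if i = 0 then r else 0) * Γ (E i a) := by
    have hA : ∀ (i : Fin (m + 1)) (j : ℕ), ∃ d : Derivation k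
        (FractionRing (MvPolynomial (ℕ × Fin (m + 1)) κ))
        (FractionRing (MvPolynomial (ℕ × Fin (m + 1)) κ)), ∀ a, cder d (Γ a) =
          PowerSeries.X ^ (j + Gam_r r i) * Γ (E i a) := by
      intro i j
      obtain ⟨d, hdC, hdX⟩ := extL (0 : Derivation k κ κ)
        (fun t : ℕ × Fin (m + 1) => if t = (j, i) then 1 else 0)
      refine ⟨d, fun a => ?_⟩
      have hdψ : ∀ s, d (ψ s) = ψ (Gam_d (j, i) s) := by
        refine Gam_ind (fun a => ?_) fun t => ?_
        · rw [hψC, hdC, Gam_d_apply, MvPolynomial.pderiv_C, map_zero]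
          exact map_zero _
        · rw [hψX, hdX, Gam_d_apply, MvPolynomial.pderiv_X]
          split_ifs with h
          · rw [h, Pi.single_eq_same, map_one]
          · rw [Pi.single_eq_of_ne h, map_zero]
      rw [hΓ, hΓ, Gam_cder hdψ, he2, hcc, Gam_c_C, Gam_d_apply, MvPolynomial.pderiv_C, map_zero,
        map_zero, zero_add, map_mul, map_pow, PowerSeries.map_X]
    intro i j
    by_cases hi : i = 0
    · obtain ⟨d, hd⟩ := hA i j
      refine ⟨d, fun a => ?_⟩
      rw [hd, if_pos hi, Gam_r, if_pos hi]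
    · cases j with
      | succ j =>
        obtain ⟨d, hd⟩ := hA i j
        refine ⟨d, fun a => ?_⟩
        rw [hd, if_neg hi, Gam_r, if_neg hi, add_zero]
      | zero =>
        obtain ⟨D, hD⟩ : ∃ D : Derivation k κ κ, ∀ a, D (q a) = q (E i a) :=
          ⟨Derivation.liftOfSurjective hq (hI i hi),
            fun a => Derivation.liftOfSurjective_apply hq (hI i hi) a⟩
        obtain ⟨d, hdC, hdX⟩ := extL D (fun t : ℕ × Fin (m + 1) => 0)
        refine ⟨d, fun a => ?_⟩
        have hdψ : ∀ s, d (ψ s) = ψ (Gam_p (Gam_E (E i)) s) := by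
          refine Gam_ind (fun a => ?_) fun t => ?_
          · rw [hψC, hdC, hD, Gam_p_C, hψC]
            rfl
          · rw [hψX, hdX, Gam_p_X, map_zero]
        rw [hΓ, hΓ, Gam_cder hdψ, he1, hcc, if_neg hi, add_zero, pow_zero, one_mul]
  choose d hd using hkey
  refine ⟨FractionRing (MvPolynomial (ℕ × Fin (m + 1)) κ), inferInstance, inferInstance, Γ, d,
    fun a => ?_, ?_, hd⟩
  · rw [hΓ, ← PowerSeries.coeff_zero_eq_constantCoeff_apply, PowerSeries.coeff_map, he3,
      PowerSeries.coeff_zero_C, hψC]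
    exact map_eq_zero_iff _ (algebraMap κ _).injective
  · refine ⟨PowerSeries.mk fun n => algebraMap (MvPolynomial (ℕ × Fin (m + 1)) κ) _
      (MvPolynomial.X (n, 0)), ?_, ?_⟩
    · have h1 := he4 (PowerSeries.C (MvPolynomial.C π)) 1 (fun i => by
        rw [hcc, hEπ]
        split_ifs
        · rw [map_one, map_one]
        · rw [map_zero, map_zero]) (fun i => Derivation.map_one_eq_zero _)
      rw [hΓ, h1, mul_one]
      ext1 n
      rw [PowerSeries.coeff_map, map_add, map_add, PowerSeries.coeff_X_pow_mul', Gam_P,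
        PowerSeries.coeff_mk, PowerSeries.coeff_mk, PowerSeries.coeff_C, Gam_r, if_pos rfl]
      have h2 : ψ (if n = 0 then MvPolynomial.C π else 0) = 0 := by
        split_ifs
        · rw [hψC, hπ, map_zero]
        · exact map_zero ψ
      rw [h2, zero_add]
      split_ifs
      · exact hψX _
      · exact map_zero ψ
    · rw [← PowerSeries.coeff_zero_eq_constantCoeff_apply, PowerSeries.coeff_mk]
      intro h
      rw [map_eq_zero_iff _ (IsFractionRing.injective _ _)] at h
      exact MvPolynomial.X_ne_zero _ h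

theorem gam {k : Type u} {O : Type v} [Field k] [CharZero k] [CommRing O] [Algebra k O]
    (I : Ideal O) [hImax : I.IsMaximal] {m : ℕ} (E : Fin (m + 1) → Derivation k O O)
    (hcomm : ∀ i j a, E i (E j a) = E j (E i a)) (hI : ∀ i, i ≠ 0 → ∀ a ∈ I, E i a ∈ I)
    (π : O) (hπ : π ∈ I) (hEπ : ∀ i, E i π = if i = 0 then 1 else 0) (r : ℕ) (hr : 1 ≤ r) :
    ∃ (F : Type v) (_ : Field F) (_ : Algebra k F) (Γ : O →ₐ[k] F⟦X⟧)
      (d : Fin (m + 1) → ℕ → Derivation k F F),
      (∀ a, PowerSeries.constantCoeff (Γ a) = 0 ↔ a ∈ I) ∧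
      (∃ u, Γ π = (PowerSeries.X : F⟦X⟧) ^ r * u ∧ PowerSeries.constantCoeff u ≠ 0) ∧
      ∀ i j a, cder (d i j) (Γ a) =
        (PowerSeries.X : F⟦X⟧) ^ (j + if i = 0 then r else 0) * Γ (E i a) := by
  let _ : Algebra ℚ O := ((algebraMap k O).comp (algebraMap ℚ k)).toAlgebra
  let _ : Field (O ⧸ I) := Ideal.Quotient.field I
  obtain ⟨F, i1, i2, Γ, d, h1, h2, h3⟩ := Gam_main (Ideal.Quotient.mkₐ k I)
    (Ideal.Quotient.mkₐ_surjective k I) E hcomm (fun i hi a ha =>
      Ideal.Quotient.eq_zero_iff_mem.2 (hI i hi a (Ideal.Quotient.eq_zero_iff_mem.1 ha))) π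
    (Ideal.Quotient.eq_zero_iff_mem.2 hπ) hEπ r hr
  exact ⟨F, i1, i2, Γ, d, fun a => (h1 a).trans Ideal.Quotient.eq_zero_iff_mem, h2, h3⟩

end Pool.Agent.MLD.Cox
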