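import Pool.Agent.Lib.MP_f23696_ag.Y.SysA
import Pool.Agent.Lib.MP_f23696_ag.T.Ctx

/-!
Project COX: the geometric hypotheses.
-/

set_option autoImplicit false

namespace Pool.Agent.MLD.Cox

open MvPolynomial

universe u v w

variable {k : Type u} {K : Type v} {L : Type w} [Field k] [Field K] [Field L] [Algebra k K]
    [Algebra k L] {m h c : ℕ}

/-- the algebra `B = k[x]` -/
abbrev Sys.B (S : Sys k K L m h c) : Subalgebra k L := Algebra.adjoin k (Set.range S.x)

/-- `Spec B → Spec A` is a torsor of a torus outside subsets of codimension at least two, `A` the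
algebra of the elements of degree `0`, `B` normal. -/
structure Geo (S : Sys k K L m h c) (A : Subalgebra k K) : Prop where
  goodB : Ten.IsGood S.B
  goodA : Ten.IsGood A
  memA : ∀ b : K, b ∈ A ↔ ∃ P : MvPolynomial (Ix m h c) k,
    IsWeightedHomogeneous S.χ P 0 ∧ S.φ b = aeval S.x P
  t1 : ∀ P : Ideal S.B, IsHeightOne P → ∀ p : Ideal A,
    (∀ b : A, b ∈ p ↔ ∃ z ∈ P, (z : L) = S.φ b) → p = ⊥ ∨ IsHeightOne p
  t2 : ∀ P : Ideal S.B, IsHeightOne P → ∀ i, ∃ (β : Fin h → ℤ)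
    (U V : MvPolynomial (Ix m h c) k), IsWeightedHomogeneous S.χ U (β + S.χ i) ∧
    IsWeightedHomogeneous S.χ V β ∧ (∀ z ∈ P, (z : L) ≠ aeval S.x U) ∧
    ∀ z ∈ P, (z : L) ≠ aeval S.x V
  t3 : ∀ P : Ideal S.B, IsHeightOne P → ∃ J : Fin c → Ix m h c,
    ∀ z ∈ P, (z : L) ≠ (Matrix.of fun j a => aeval S.x (pderiv (J a) (S.f j))).det

end Pool.Agent.MLD.Cox
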