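import Pool.Agent.Lib.MP_f23696_ag.Y.TwE

/-!
Project COX, module Grad: gradients of homogeneous polynomials and logarithmic derivations.

Setting: `x i = φ (ξ i) * ∏ l, s l ^ (χ i l)` in `L`, `ξ i ≠ 0`, `s l ≠ 0`.  `logM D ξ χ` is the
matrix with rows `(D j (ξ i) / ξ i)_i` (`inl j`) and `(χ i l)_i` (`inr l`).

* `val_hom`: for a homogeneous polynomial `P` of degree `ψ`: `P(x) = s^ψ φ(P(ξ))` (monomialwise).
* `grad_inl`: `D j (P(ξ)) = ∑_i (∂_i P)(ξ) D j (ξ i)` (chain rule) and `∂_i P` is homogeneous of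
  degree `ψ - χ i` (`hom_pderiv`), so `(∂_i P)(x) = s^(ψ - χ i) φ((∂_i P)(ξ))`; multiply by
  `φ (D j (ξ i) / ξ i) * x i = φ (D j (ξ i)) * s^(χ i)`.
* `grad_inr`: Euler: for a monomial `d` of `P`: `∑_i χ i l * d_i = ψ l`, and
  `∑_i χ i l * x i * (∂_i P)(x) = ψ l * P(x)`.
-/

set_option autoImplicit false

namespace Pool.Agent.MLD.Cox

open MvPolynomial

universe u v w

private theorem Grad_zpow {L : Type w} [Field L] {σ : Type} {a : L} (ha : a ≠ 0)
    (S : Finset σ) (f : σ → ℤ) : ∏ i ∈ S, a ^ f i = a ^ ∑ i ∈ S, f i := by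
  classical
  induction S using Finset.induction_on with
  | empty => simp
  | insert i S hi ih => rw [Finset.prod_insert hi, Finset.sum_insert hi, zpow_add₀ ha, ih]

private theorem Grad_wt {k : Type u} [Field k] {h : ℕ} {σ : Type} [Fintype σ]
    (χ : σ → (Fin h → ℤ)) (P : MvPolynomial σ k) (ψ : Fin h → ℤ)
    (hP : IsWeightedHomogeneous χ P ψ) (d : σ →₀ ℕ) (hd : d ∈ P.support) (l : Fin h) :
    (∑ i, (d i : ℤ) * χ i l) = ψ l := by
  have h1 : Finsupp.weight χ d = ψ := hP (mem_support_iff.1 hd)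
  have h0 : d.sum (fun i c => c • χ i) = ∑ i, d i • χ i :=
    Finsupp.sum_fintype _ _ fun i => zero_smul _ _
  rw [← h1, Finsupp.weight_apply, h0, Finset.sum_apply]
  refine Finset.sum_congr rfl fun i _ => ?_
  rw [Pi.smul_apply, nsmul_eq_mul]

private theorem Grad_der {k : Type u} {K : Type v} [Field k] [Field K] [Algebra k K]
    {σ : Type} [Fintype σ] (D : Derivation k K K) (w : σ → K) (F : MvPolynomial σ k) :
    D (aeval w F) = ∑ l, aeval w (pderiv l F) * D (w l) := by
  classical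
  induction F using MvPolynomial.induction_on with
  | C c => simp
  | add p q hp hq =>
    simp only [map_add, hp, hq, add_mul, Finset.sum_add_distrib]
  | mul_X p i hp =>
    simp only [map_mul, MvPolynomial.aeval_X, Derivation.leibniz, hp, smul_eq_mul,
      map_add, MvPolynomial.pderiv_X, add_mul, Finset.sum_add_distrib]
    rw [Finset.mul_sum]
    congr 1
    · rw [Finset.sum_eq_single i]
      · simp
      · intro j _ hj
        simp [Ne.symm hj]
      · simp
    · exact Finset.sum_congr rfl fun l _ => by ring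

private theorem Grad_euler {k : Type u} [Field k] {h : ℕ} {σ : Type} [Fintype σ]
    (χ : σ → (Fin h → ℤ)) (P : MvPolynomial σ k) (ψ : Fin h → ℤ)
    (hP : IsWeightedHomogeneous χ P ψ) (l : Fin h) :
    ∑ i, ((χ i l : ℤ) : MvPolynomial σ k) * (X i * pderiv i P) =
      ((ψ l : ℤ) : MvPolynomial σ k) * P := by
  have h1 : ∀ d ∈ P.support, ∑ i, ((χ i l : ℤ) : MvPolynomial σ k) *
      (X i * pderiv i (monomial d (coeff d P))) =
      ((ψ l : ℤ) : MvPolynomial σ k) * monomial d (coeff d P) := by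
    intro d hd
    rw [← Grad_wt χ P ψ hP d hd l, Int.cast_sum, Finset.sum_mul]
    refine Finset.sum_congr rfl fun i _ => ?_
    rw [X_mul_pderiv_monomial, nsmul_eq_mul, Int.cast_mul, Int.cast_natCast]
    ring
  have h2 : ∀ i, X i * pderiv i P =
      ∑ d ∈ P.support, X i * pderiv i (monomial d (coeff d P)) := by
    intro i
    conv_lhs => rw [P.as_sum, map_sum, Finset.mul_sum]
  calc ∑ i, ((χ i l : ℤ) : MvPolynomial σ k) * (X i * pderiv i P) =
      ∑ i, ∑ d ∈ P.support, ((χ i l : ℤ) : MvPolynomial σ k) *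
        (X i * pderiv i (monomial d (coeff d P))) := by
        refine Finset.sum_congr rfl fun i _ => ?_
        rw [h2, Finset.mul_sum]
    _ = ∑ d ∈ P.support, ((ψ l : ℤ) : MvPolynomial σ k) * monomial d (coeff d P) := by
        rw [Finset.sum_comm]
        exact Finset.sum_congr rfl h1
    _ = ((ψ l : ℤ) : MvPolynomial σ k) * P := by
        rw [← Finset.mul_sum]
        conv_rhs => rw [P.as_sum]

variable {k : Type u} {K : Type v} {L : Type w} [Field k] [Field K] [Field L] [Algebra k K]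
    [Algebra k L] {m h : ℕ} {σ : Type} [Fintype σ]

/-- the matrix of logarithmic derivatives -/
def logM (D : Fin (m + 1) → Derivation k K K) (ξ : σ → K) (χ : σ → (Fin h → ℤ)) :
    Matrix (Fin (m + 1) ⊕ Fin h) σ K :=
  Matrix.of fun p i => Sum.elim (fun j => D j (ξ i) / ξ i) (fun l => (χ i l : K)) p

/-- the matrix of the derivatives of the `x i` -/
def derM (φ : K →ₐ[k] L) (D : Fin (m + 1) → Derivation k K K) (ξ : σ → K) (χ : σ → (Fin h → ℤ))
    (x : σ → L) : Matrix (Fin (m + 1) ⊕ Fin h) σ L :=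
  Matrix.of fun p i => φ (logM D ξ χ p i) * x i

variable (φ : K →ₐ[k] L) (x : σ → L) (ξ : σ → K) (s : Fin h → L) (χ : σ → (Fin h → ℤ))

theorem val_hom (hs : ∀ l, s l ≠ 0) (hx : ∀ i, x i = φ (ξ i) * ∏ l, s l ^ χ i l)
    (P : MvPolynomial σ k) (ψ : Fin h → ℤ) (hP : IsWeightedHomogeneous χ P ψ) :
    aeval x P = (∏ l, s l ^ ψ l) * φ (aeval ξ P) := by
  rw [aeval_def, aeval_def, eval₂_eq', eval₂_eq', map_sum, Finset.mul_sum]
  refine Finset.sum_congr rfl fun d hd => ?_
  have h1 : ∏ i, x i ^ d i = φ (∏ i, ξ i ^ d i) * ∏ l, s l ^ ψ l := by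
    calc ∏ i, x i ^ d i = ∏ i, (φ (ξ i) ^ d i * ∏ l, s l ^ ((d i : ℤ) * χ i l)) := by
          refine Finset.prod_congr rfl fun i _ => ?_
          rw [hx i, mul_pow, ← Finset.prod_pow]
          congr 1
          refine Finset.prod_congr rfl fun l _ => ?_
          rw [← zpow_natCast, ← zpow_mul, mul_comm]
      _ = (∏ i, φ (ξ i) ^ d i) * ∏ l, ∏ i, s l ^ ((d i : ℤ) * χ i l) := by
          rw [Finset.prod_mul_distrib]
          congr 1
          exact Finset.prod_comm
      _ = φ (∏ i, ξ i ^ d i) * ∏ l, s l ^ ψ l := by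
          rw [map_prod]
          congr 1
          · exact Finset.prod_congr rfl fun i _ => (map_pow φ _ _).symm
          · refine Finset.prod_congr rfl fun l _ => ?_
            rw [← Grad_wt χ P ψ hP d hd l]
            exact Grad_zpow (hs l) _ _
  rw [h1, map_mul, AlgHom.commutes]
  ring

theorem grad_inl (hξ : ∀ i, ξ i ≠ 0) (hs : ∀ l, s l ≠ 0)
    (hx : ∀ i, x i = φ (ξ i) * ∏ l, s l ^ χ i l) (D : Fin (m + 1) → Derivation k K K)
    (P : MvPolynomial σ k) (ψ : Fin h → ℤ) (hP : IsWeightedHomogeneous χ P ψ) (j : Fin (m + 1)) :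
    ∑ i, derM φ D ξ χ x (Sum.inl j) i * aeval x (pderiv i P) =
      (∏ l, s l ^ ψ l) * φ (D j (aeval ξ P)) := by
  have h1 : ∀ i, derM φ D ξ χ x (Sum.inl j) i * aeval x (pderiv i P) =
      (∏ l, s l ^ ψ l) * φ (aeval ξ (pderiv i P) * D j (ξ i)) := by
    intro i
    have h2 := val_hom φ x ξ s χ hs hx (pderiv i P) (ψ - χ i) (hom_pderiv χ P ψ hP i)
    have h3 : derM φ D ξ χ x (Sum.inl j) i = φ (D j (ξ i) / ξ i) * x i := rfl
    have h4 : (∏ l, s l ^ χ i l) * ∏ l, s l ^ (ψ - χ i) l = ∏ l, s l ^ ψ l := by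
      rw [← Finset.prod_mul_distrib]
      refine Finset.prod_congr rfl fun l _ => ?_
      rw [← zpow_add₀ (hs l), Pi.sub_apply]
      congr 1
      ring
    have h5 : φ (D j (ξ i) / ξ i) * φ (ξ i) = φ (D j (ξ i)) := by
      rw [← map_mul, div_mul_cancel₀ _ (hξ i)]
    calc derM φ D ξ χ x (Sum.inl j) i * aeval x (pderiv i P)
        = (φ (D j (ξ i) / ξ i) * φ (ξ i)) * ((∏ l, s l ^ χ i l) * ∏ l, s l ^ (ψ - χ i) l) *
          φ (aeval ξ (pderiv i P)) := by
          rw [h3, h2, hx i]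
          ring
      _ = (∏ l, s l ^ ψ l) * φ (aeval ξ (pderiv i P) * D j (ξ i)) := by
          rw [h4, h5, map_mul]
          ring
  rw [Finset.sum_congr rfl fun i _ => h1 i, ← Finset.mul_sum, ← map_sum, Grad_der]

theorem grad_inr (D : Fin (m + 1) → Derivation k K K) (P : MvPolynomial σ k) (ψ : Fin h → ℤ)
    (hP : IsWeightedHomogeneous χ P ψ) (l : Fin h) :
    ∑ i, derM φ D ξ χ x (Sum.inr l) i * aeval x (pderiv i P) = (ψ l : L) * aeval x P := by
  have h1 : ∀ i, derM φ D ξ χ x (Sum.inr l) i * aeval x (pderiv i P) =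
      aeval x (((χ i l : ℤ) : MvPolynomial σ k) * (X i * pderiv i P)) := by
    intro i
    have h3 : derM φ D ξ χ x (Sum.inr l) i = φ ((χ i l : ℤ) : K) * x i := rfl
    rw [h3, map_mul, map_mul, aeval_X, map_intCast, map_intCast, mul_assoc]
  rw [Finset.sum_congr rfl fun i _ => h1 i, ← map_sum, Grad_euler χ P ψ hP l, map_mul,
    map_intCast]

end Pool.Agent.MLD.Cox
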