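import Pool.Agent.Lib.MP_f23696_ag.Y.Krull1

/-!
Project COX, module KrullS: several equations, and new variables.

`krullS`: induction on the number `b` of the elements `g i` (`i < b`), with `krull1`.

`extend`: let `e : σ → τ` and `f : Fin s → τ` be injective with disjoint ranges, `T` a prime ideal
of `MvPolynomial σ k`.  Let `R = MvPolynomial σ k ⧸ T` (a domain) and
`Φ : MvPolynomial τ k →ₐ[k] MvPolynomial τ R`, `X (e i) ↦ C (class of X i)`, `X j ↦ X j` for
`j ∉ range e`.  `T' = ker Φ` is prime.  `Φ (rename e g) = C (class of g)`, so `rename e g ∈ T'` for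
`g ∈ T`.  `T' ≤ P` when `P` is an ideal containing `rename e g` for `g ∈ T`: `T'` is the ideal
generated by the `rename e g`, `g ∈ T`.  (Proof: every polynomial in the variables `τ` is a sum
`G = ∑ m · rename e (g_m)` over distinct monomials `m` in the variables outside `range e`; e.g. use
`MvPolynomial.sumAlgEquiv` for `τ ≃ range e ⊕ complement`; `Φ G = ∑ m C(class of g_m)` with distinct
monomials `m`, so `Φ G = 0` iff all `g_m ∈ T`, and then `G ∈ P`.)
`TD T' (n + s)`: take the `n` polynomials `rename e (t i)` and the `s` variables `X (f i)`: let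
`F ≠ 0` in `n + s` variables with `F(rename e (t i), X (f j)) ∈ T'`; apply `Φ`:
`F(C (class of t i), X (f j)) = 0` in `MvPolynomial τ R`; the `X (f j)` are independent variables
over `R`; writing `F = ∑ m F_m` with `m` the monomials in the last `s` variables, all
`F_m(class of t i) = 0` in `R`, i.e. `F_m (t) ∈ T`, so all `F_m = 0`.
-/

set_option autoImplicit false

namespace Pool.Agent.MLD.Cox

open MvPolynomial

universe u v w

theorem krullS {k : Type u} [Field k] {σ : Type w} [Finite σ] (b : ℕ)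
    (I P : Ideal (MvPolynomial σ k)) (hI : I.IsPrime) (hP : P.IsPrime) (hIP : I ≤ P)
    (g : Fin b → MvPolynomial σ k) (hg : ∀ i, g i ∈ P) (n : ℕ) (h : TD I (n + b)) :
    ∃ Z : Ideal (MvPolynomial σ k), Z.IsPrime ∧ I ≤ Z ∧ Z ≤ P ∧ (∀ i, g i ∈ Z) ∧ TD Z n := by
  induction b generalizing I with
  | zero => exact ⟨I, hI, le_rfl, hIP, fun i => i.elim0, h⟩
  | succ b ih =>
    obtain ⟨Z₁, hZ₁, hIZ, hZP, hgZ, hTD⟩ :=
      krull1 I P hI hP hIP (g (Fin.last b)) (hg (Fin.last b)) (n + b) h
    obtain ⟨Z, hZ, hZZ, hZP', hgZ', hTD'⟩ :=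
      ih Z₁ hZ₁ hZP (fun i => g i.castSucc) (fun i => hg i.castSucc) hTD
    refine ⟨Z, hZ, hIZ.trans hZZ, hZP', fun i => ?_, hTD'⟩
    induction i using Fin.lastCases with
    | last => exact hZZ hgZ
    | cast i => exact hgZ' i

private theorem krullS_td {k : Type u} [Field k] {σ : Type w} {τ : Type v} (e : σ → τ)
    {s : ℕ} (f : Fin s → τ) (hf : Function.Injective f) (hef : ∀ i j, e i ≠ f j)
    {S : Type (max w u)} [CommRing S] [Algebra k S] (q : MvPolynomial σ k →ₐ[k] S)
    (ψ : MvPolynomial τ k →ₐ[k] MvPolynomial {j : τ // j ∉ Set.range e} S)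
    (hψC : ∀ g : MvPolynomial σ k, ψ (rename e g) = C (q g))
    (hψX : ∀ c : {j : τ // j ∉ Set.range e}, ψ (X (c : τ)) = X c) (n : ℕ)
    (h : TD (RingHom.ker q) n) : TD (RingHom.ker ψ) (n + s) := by
  refine (td_ker ψ (n + s)).2 ?_
  obtain ⟨t, ht⟩ := (td_ker q n).1 h
  let fr : Fin s → {j : τ // j ∉ Set.range e} := fun j => ⟨f j, fun ⟨i, hi⟩ => hef i j hi⟩
  have hfr : Function.Injective fr := fun a b hab => hf (congrArg Subtype.val hab)
  have hy : AlgebraicIndependent S
      (fun j : Fin s => (X (fr j) : MvPolynomial {j : τ // j ∉ Set.range e} S)) :=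
    (algebraicIndependent_X {j : τ // j ∉ Set.range e} S).comp fr hfr
  have hs := ht.sumElim_comp hy
  refine ⟨fun i => Sum.elim (fun j => X (f j)) (fun i => rename e (t i))
    (finSumFinEquiv.symm i).swap, ?_⟩
  have h1 := hs.comp (fun i : Fin (n + s) => (finSumFinEquiv.symm i).swap)
    (Sum.swap_leftInverse.injective.comp finSumFinEquiv.symm.injective)
  convert h1 using 2 with i
  simp only [Function.comp]
  rcases (finSumFinEquiv.symm i).swap with j | j
  · exact hψX (fr j)
  · exact hψC (t j)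

theorem extend {k : Type u} [Field k] {σ : Type w} {τ : Type v} (e : σ → τ)
    (he : Function.Injective e) {s : ℕ} (f : Fin s → τ) (hf : Function.Injective f)
    (hef : ∀ i j, e i ≠ f j) (T : Ideal (MvPolynomial σ k)) (hT : T.IsPrime)
    (P : Ideal (MvPolynomial τ k)) (hP : ∀ g ∈ T, rename e g ∈ P) (n : ℕ) (h : TD T n) :
    ∃ T' : Ideal (MvPolynomial τ k), T'.IsPrime ∧ T' ≤ P ∧ (∀ g ∈ T, rename e g ∈ T') ∧
      TD T' (n + s) := by
  classical
  let ρ : Type v := {j : τ // j ∉ Set.range e}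
  have hbij : Function.Bijective (Sum.elim (Subtype.val : ρ → τ) e) := by
    constructor
    · rintro (a | a) (b | b) hab
      · exact congrArg Sum.inl (Subtype.ext hab)
      · exact absurd ⟨b, (show (a : τ) = e b from hab).symm⟩ a.2
      · exact absurd ⟨a, (show e a = (b : τ) from hab)⟩ b.2
      · exact congrArg Sum.inr (he hab)
    · intro j
      by_cases hj : j ∈ Set.range e
      · obtain ⟨i, rfl⟩ := hj
        exact ⟨Sum.inr i, rfl⟩
      · exact ⟨Sum.inl ⟨j, hj⟩, rfl⟩
  let ε : ρ ⊕ σ ≃ τ := Equiv.ofBijective _ hbij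
  let Φ : MvPolynomial ρ (MvPolynomial σ k) ≃ₐ[k] MvPolynomial τ k :=
    (sumAlgEquiv k ρ σ).symm.trans (renameEquiv k ε)
  have hΦX : ∀ c : ρ, Φ (X c) = X (c : τ) := by
    intro c
    show renameEquiv k ε ((sumAlgEquiv k ρ σ).symm (X c)) = X (c : τ)
    rw [sumAlgEquiv_symm_X, renameEquiv_apply, rename_X]
    rfl
  have hΦC : ∀ g : MvPolynomial σ k, Φ (C g) = rename e g := by
    intro g
    have h1 : (Φ.toAlgHom.comp (IsScalarTower.toAlgHom k (MvPolynomial σ k)
        (MvPolynomial ρ (MvPolynomial σ k)))) = rename e := by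
      refine algHom_ext fun i => ?_
      show renameEquiv k ε ((sumAlgEquiv k ρ σ).symm (C (X i))) = rename e (X i)
      rw [sumAlgEquiv_symm_C_X, renameEquiv_apply, rename_X, rename_X]
      rfl
    exact DFunLike.congr_fun h1 g
  have := hT
  let q : MvPolynomial σ k →ₐ[k] MvPolynomial σ k ⧸ T := Ideal.Quotient.mkₐ k T
  have hq : RingHom.ker q = T := Ideal.Quotient.mkₐ_ker k T
  let ψ : MvPolynomial τ k →ₐ[k] MvPolynomial ρ (MvPolynomial σ k ⧸ T) :=
    (mapAlgHom (σ := ρ) q).comp Φ.symm.toAlgHom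
  have hψC : ∀ g : MvPolynomial σ k, ψ (rename e g) = C (q g) := by
    intro g
    show mapAlgHom (σ := ρ) q (Φ.symm (rename e g)) = C (q g)
    rw [← hΦC, AlgEquiv.symm_apply_apply, mapAlgHom_apply]
    exact map_C _ _
  have hψX : ∀ c : ρ, ψ (X (c : τ)) = X c := by
    intro c
    show mapAlgHom (σ := ρ) q (Φ.symm (X (c : τ))) = X c
    rw [← hΦX, AlgEquiv.symm_apply_apply, mapAlgHom_apply]
    exact map_X _ _
  refine ⟨RingHom.ker ψ, RingHom.ker_isPrime _, ?_, ?_, ?_⟩
  · intro G hG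
    have h1 : Φ.symm G ∈ RingHom.ker (mapAlgHom (σ := ρ) q) := hG
    rw [ker_mapAlgHom, hq] at h1
    have h2 : Ideal.map (C : MvPolynomial σ k →+* MvPolynomial ρ (MvPolynomial σ k)) T ≤
        P.comap (Φ : MvPolynomial ρ (MvPolynomial σ k) →+* MvPolynomial τ k) := by
      rw [Ideal.map_le_iff_le_comap]
      intro g hg
      show Φ (C g) ∈ P
      rw [hΦC]
      exact hP g hg
    have h3 : Φ (Φ.symm G) ∈ P := h2 h1
    rwa [AlgEquiv.apply_symm_apply] at h3
  · intro g hg
    rw [RingHom.mem_ker]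
    refine (hψC g).trans ?_
    have h1 : q g = 0 := by
      rw [← RingHom.mem_ker, hq]
      exact hg
    rw [h1, C_0]
  · exact krullS_td e f hf (fun i j => hef i j) q ψ hψC hψX n (by rw [hq]; exact h)

end Pool.Agent.MLD.Cox
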