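import Pool.Agent.Lib.MP_f23696_ag.Y.Lat
import Pool.Agent.Lib.MP_f23696_ag.Y.Rnk

/-!
Project COX, module Trd: transcendence degree of the `N`-jets of a series with many derivations.

Proof.  `w p = coeff p.2 (y p.1)` for `p : σ × Fin (N+1)`; then `evJ N y = aeval w` by definition.
`DV w` contains all `rowT N Θ (i, j)`: by hypothesis
`d i j (w (i', l)) = coeff l (cder (d i j) (y i')) = coeff l (X^j * Θ i i')`.  So
`finrank (DV w) ≥ finrank (span (range (rowT N Θ))) ≥ |σ| (N+1) - a` by `lat`, and `rnk` applies.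
-/

set_option autoImplicit false

namespace Pool.Agent.MLD.Cox

open MvPolynomial
open scoped PowerSeries

universe u v w

theorem trd {k : Type u} {κ : Type v} [Field k] [CharZero k] [Field κ] [Algebra k κ] {σ : Type w}
    [Fintype σ] [DecidableEq σ] (N : ℕ) (y : σ → κ⟦X⟧) (Θ : Matrix σ σ κ⟦X⟧)
    (d : σ → ℕ → Derivation k κ κ)
    (hd : ∀ i j i', cder (d i j) (y i') = (PowerSeries.X : κ⟦X⟧) ^ j * Θ i i') (a : ℕ)
    (ha : ∃ s ≤ a, PowerSeries.coeff s Θ.det ≠ 0) (n : ℕ)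
    (hn : n + a ≤ Fintype.card σ * (N + 1)) :
    TD (RingHom.ker (evJ N y : Jet σ N k →ₐ[k] κ)) n := by
  have h1 := lat N Θ a ha
  have h2 : Submodule.span κ (Set.range (rowT N Θ)) ≤
      DV (k := k) (fun p : σ × Fin (N + 1) => PowerSeries.coeff (p.2 : ℕ) (y p.1)) := by
    rw [Submodule.span_le]
    rintro _ ⟨p, rfl⟩
    refine (mem_DV _ _).2 ⟨d p.1 p.2, fun q => ?_⟩
    have h3 := congrArg (PowerSeries.coeff (q.2 : ℕ)) (hd p.1 p.2 q.1)
    rw [rowT, ← h3]
    simp [cder]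
  have h3 := Submodule.finrank_mono h2
  exact rnk _ n (by omega)

end Pool.Agent.MLD.Cox
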