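import Pool.Agent.Lib.MP_f23696_ag.Y.TwB
import Pool.Agent.Lib.MP_f23696_ag.Y.Trd

/-!
Project COX, module Pert: perturbation of a universal arc; the jets which satisfy the equations.

Write `t = X`, `βJ = ∑ β j - ∑ r (inr a)`, `M_(j,a) = tev r (β j - r (inr a)) (pderiv (inr a) (f j)) y`
(`c × c`), `det M = tev r βJ (jd f) y = t^e u` with a unit `u` (`tev_det`),
`W = u⁻¹ • adjugate M`, so `M W = W M = t^e`.

Define `y' (inl i) = y (inl i)`, `y' (inr a) = y (inr a) + t^(N+1-e) * ∑_b W a b * z b`.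

(1) `t^(N+1-e) ∣ y' i - y i`.
(2) Taylor: `F_j(y') = F_j(y) + ∑_a M_(j,a) (y' - y)(inr a) + (terms of degree ≥ 2 in y' - y)`, that
is `0 + t^(N+1-e) t^e z_j + (multiple of t^(2(N+1-e)))`, and `2(N+1-e) ≥ N+1` as `2e ≤ N+1`.  So
`t^(N+1) ∣ tev r (β j) (f j) y'`.  (For the Taylor formula see Newton.lean; apply it to the
polynomial `map (PowerSeries.map (algebraMap k κ)) (tp r (β j) (f j))` with `eval_map_tp`,
`eval_map_pderiv`.)
(3) Derivations.  For `p : ρ`, `D = d (inl p) j`: `cder D (y i) = t^j θ p i`, `cder D (z a) = 0`.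
By `tev_cder` (for `pderiv (inr a) (f j')`) `cder D (M_(j',a)) = t^j M^p_(j',a)` with
`M^p_(j',a) = ∑_i tev r (β j' - r (inr a) - r i) (pderiv i (pderiv (inr a) (f j'))) y * θ p i`,
independent of `j`.  From `W M = t^e`: `(cder D W) M + W (t^j M^p) = 0`, multiply by `W`:
`t^e cder D W = - t^j W M^p W`.  As `N + 1 ≥ 2e`, `t^(N+1-e) cder D W = t^(N+1-2e) t^e cder D W =
- t^j t^(N+1-2e) W M^p W`.  Hence `cder D (y' i) = t^j Θ (inl p) i` with `Θ (inl p) (inl i) =
θ p (inl i)` and `Θ (inl p) (inr a) = θ p (inr a) - t^(N+1-2e) ∑_b (W M^p W)_(a,b) z b`.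
For `D = d (inr b) j`: `cder D (y i) = 0`, so `cder D` kills `M`, `W` (as `t^e W` is a polynomial
expression... `cder D M = 0` gives `t^e cder D W = 0`), and `cder D (y' (inr a)) =
t^(N+1-e) W a b t^j`: `Θ (inr b) (inl i) = 0`, `Θ (inr b) (inr a) = t^(N+1-e) W a b`.
(4) `Θ` is block triangular, `det Θ = det (θ p (inl i)) * det (t^(N+1-e) W)`, and
`det (t^(N+1-e) W) * det M = det (t^(N+1)) = t^(c (N+1))`, so `det (t^(N+1-e) W)` has order
`c (N+1) - e`.  So `det Θ` has a nonzero coefficient at some index `≤ o + c (N+1) - e` (if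
`s ≤ o` is the order of `det (θ p (inl i))`, at `s + c (N+1) - e`; note `e ≤ c (N+1)`, because
`M` is a `c × c` matrix: if `c = 0` then `det M = 1`, `e = 0`; otherwise `e ≤ N`).
(5) `trd` with `a = o + c (N+1) - e`: `TD (ker (evJ N y')) n'` if
`n' + o + c (N+1) - e ≤ (|ρ| + c) (N+1)`.
-/

set_option autoImplicit false

namespace Pool.Agent.MLD.Cox

open MvPolynomial
open scoped PowerSeries

universe u v w

section Aux

/-- Taylor formula with a remainder of order two. -/
private theorem Pert_taylor {A : Type*} [CommRing A] {σ : Type*} [Fintype σ]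
    (G : MvPolynomial σ A) (z w : σ → A) (B : A) :
    ∃ q, eval (fun i => z i + B * w i) G =
      eval z G + B * ∑ i, w i * eval z (pderiv i G) + B ^ 2 * q := by
  classical
  induction G using MvPolynomial.induction_on with
  | C a => exact ⟨0, by simp⟩
  | add p q hp hq =>
    obtain ⟨a, ha⟩ := hp
    obtain ⟨b, hb⟩ := hq
    refine ⟨a + b, ?_⟩
    simp only [map_add, mul_add, Finset.sum_add_distrib]
    rw [ha, hb]
    ring
  | mul_X p n hp =>
    obtain ⟨a, ha⟩ := hp
    refine ⟨a * z n + (∑ i, w i * eval z (pderiv i p)) * w n + B * a * w n, ?_⟩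
    have h1 : ∑ i, w i * eval z (pderiv i (p * X n)) =
        (∑ i, w i * eval z (pderiv i p)) * z n + eval z p * w n := by
      have h2 : ∀ i, w i * eval z (pderiv i (p * X n)) =
          w i * eval z (pderiv i p) * z n + eval z p * (if i = n then w i else 0) := by
        intro i
        rw [Derivation.leibniz, pderiv_X, smul_eq_mul, smul_eq_mul, map_add, map_mul, map_mul,
          eval_X]
        by_cases h : i = n
        · subst h
          rw [Pi.single_eq_same, map_one, if_pos rfl]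
          ring
        · rw [Pi.single_eq_of_ne (Ne.symm h), map_zero, if_neg h]
          ring
      rw [Finset.sum_congr rfl fun i _ => h2 i, Finset.sum_add_distrib, ← Finset.sum_mul,
        ← Finset.mul_sum, Finset.sum_ite_eq' Finset.univ n w, if_pos (Finset.mem_univ n)]
    rw [h1, map_mul, map_mul, eval_X, eval_X, ha]
    ring

variable {k : Type u} {κ : Type v} [Field k] [Field κ] [Algebra k κ]

/-- `cder` as an additive map -/
private noncomputable def PertH (d : Derivation k κ κ) : κ⟦X⟧ →+ κ⟦X⟧ where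
  toFun := cder d
  map_zero' := by
    ext n
    simp [cder]
  map_add' := fun f g => by
    ext n
    simp [cder]

private theorem Pert_mul (d : Derivation k κ κ) (f g : κ⟦X⟧) :
    cder d (f * g) = f * cder d g + cder d f * g := by
  ext n
  rw [map_add]
  unfold cder
  rw [PowerSeries.coeff_mk, PowerSeries.coeff_mul, PowerSeries.coeff_mul,
    PowerSeries.coeff_mul, map_sum, ← Finset.sum_add_distrib]
  refine Finset.sum_congr rfl fun x _ => ?_
  rw [Derivation.leibniz, smul_eq_mul, smul_eq_mul, PowerSeries.coeff_mk,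
    PowerSeries.coeff_mk]
  ring

private theorem Pert_zero (d : Derivation k κ κ) : cder d (0 : κ⟦X⟧) = 0 := map_zero (PertH d)

private theorem Pert_add (d : Derivation k κ κ) (f g : κ⟦X⟧) :
    cder d (f + g) = cder d f + cder d g := map_add (PertH d) f g

private theorem Pert_sum {ι : Type*} (d : Derivation k κ κ) (s : Finset ι) (f : ι → κ⟦X⟧) :
    cder d (∑ i ∈ s, f i) = ∑ i ∈ s, cder d (f i) := map_sum (PertH d) f s

private theorem Pert_pow (d : Derivation k κ κ) (n : ℕ) :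
    cder d ((PowerSeries.X : κ⟦X⟧) ^ n) = 0 := by
  ext m
  unfold cder
  rw [PowerSeries.coeff_mk, PowerSeries.coeff_X_pow, map_zero]
  split_ifs
  · exact d.map_one_eq_zero
  · exact d.map_zero

private theorem Pert_pow_mul (d : Derivation k κ κ) (n : ℕ) (f : κ⟦X⟧) :
    cder d ((PowerSeries.X : κ⟦X⟧) ^ n * f) = (PowerSeries.X : κ⟦X⟧) ^ n * cder d f := by
  rw [Pert_mul, Pert_pow, zero_mul, add_zero]

/-- The derivative of the quasi-inverse. -/
private theorem Pert_W {c : ℕ} (d : Derivation k κ κ) (e j : ℕ)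
    (M W Mp : Matrix (Fin c) (Fin c) κ⟦X⟧)
    (hWM : W * M = (PowerSeries.X : κ⟦X⟧) ^ e • (1 : Matrix (Fin c) (Fin c) κ⟦X⟧))
    (hMW : M * W = (PowerSeries.X : κ⟦X⟧) ^ e • (1 : Matrix (Fin c) (Fin c) κ⟦X⟧))
    (hM : ∀ a b, cder d (M a b) = (PowerSeries.X : κ⟦X⟧) ^ j * Mp a b) (a b : Fin c) :
    (PowerSeries.X : κ⟦X⟧) ^ e * cder d (W a b) =
      -((PowerSeries.X : κ⟦X⟧) ^ j * (W * Mp * W) a b) := by
  obtain ⟨DW, hDW⟩ : ∃ DW : Matrix (Fin c) (Fin c) κ⟦X⟧,
      DW = Matrix.of fun a b => cder d (W a b) := ⟨_, rfl⟩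
  have h1 : W * ((PowerSeries.X : κ⟦X⟧) ^ j • Mp) + DW * M = 0 := by
    ext1 a b
    have h2 := congrArg (cder d) (congrFun (congrFun hWM a) b)
    rw [Matrix.mul_apply, Pert_sum, Matrix.smul_apply, smul_eq_mul, Pert_pow_mul] at h2
    have h3 : cder d ((1 : Matrix (Fin c) (Fin c) κ⟦X⟧) a b) = 0 := by
      rw [Matrix.one_apply]
      split_ifs
      · have := Pert_pow d 0
        rwa [pow_zero] at this
      · exact Pert_zero d
    rw [h3, mul_zero] at h2
    rw [Matrix.add_apply, Matrix.mul_apply, Matrix.mul_apply, Matrix.zero_apply, ← h2,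
      ← Finset.sum_add_distrib]
    refine Finset.sum_congr rfl fun i _ => ?_
    rw [Pert_mul, hM, hDW, Matrix.smul_apply, Matrix.of_apply, smul_eq_mul]
  have h2 : (PowerSeries.X : κ⟦X⟧) ^ j • (W * Mp * W) + (PowerSeries.X : κ⟦X⟧) ^ e • DW = 0 := by
    have h3 : (W * ((PowerSeries.X : κ⟦X⟧) ^ j • Mp) + DW * M) * W = 0 * W := by rw [h1]
    rw [add_mul, zero_mul, Matrix.mul_assoc DW, hMW, Matrix.mul_smul, Matrix.smul_mul,
      Matrix.mul_smul, Matrix.mul_one] at h3
    exact h3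
  have h3 := congrFun (congrFun h2 a) b
  rw [Matrix.add_apply, Matrix.smul_apply, Matrix.smul_apply, smul_eq_mul, smul_eq_mul, hDW,
    Matrix.of_apply, Matrix.zero_apply] at h3
  linear_combination h3

end Aux

theorem pert {k : Type u} {κ : Type v} [Field k] [CharZero k] [Field κ] [Algebra k κ]
    {ρ : Type} [Fintype ρ] [DecidableEq ρ] {c : ℕ} (f : Fin c → MvPolynomial (ρ ⊕ Fin c) k)
    (r : ρ ⊕ Fin c → ℤ) (β : Fin c → ℤ) (hf : ∀ j, Low r (β j) (f j)) (y : ρ ⊕ Fin c → κ⟦X⟧)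
    (hy : ∀ j, tev r (β j) (f j) y = 0) (e : ℕ)
    (he0 : ∀ i < e, PowerSeries.coeff i
      (tev r (∑ j, β j - ∑ a, r (Sum.inr a)) (jd f) y) = 0)
    (he : PowerSeries.coeff e (tev r (∑ j, β j - ∑ a, r (Sum.inr a)) (jd f) y) ≠ 0)
    (z : Fin c → κ⟦X⟧) (d : ρ ⊕ Fin c → ℕ → Derivation k κ κ) (θ : ρ → ρ ⊕ Fin c → κ⟦X⟧)
    (d_y : ∀ p j i, cder (d (Sum.inl p) j) (y i) = (PowerSeries.X : κ⟦X⟧) ^ j * θ p i)
    (d_z : ∀ p j a, cder (d (Sum.inl p) j) (z a) = 0)
    (dz_y : ∀ a j i, cder (d (Sum.inr a) j) (y i) = 0)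
    (dz_z : ∀ a j b, cder (d (Sum.inr a) j) (z b) =
      if a = b then (PowerSeries.X : κ⟦X⟧) ^ j else 0)
    (o : ℕ) (ho : ∃ s ≤ o, PowerSeries.coeff s
      (Matrix.of fun p i => θ p (Sum.inl i)).det ≠ 0)
    (N : ℕ) (hN : 2 * e ≤ N + 1) (heN : e ≤ N) :
    ∃ y' : ρ ⊕ Fin c → κ⟦X⟧, (∀ i, (PowerSeries.X : κ⟦X⟧) ^ (N + 1 - e) ∣ y' i - y i) ∧
      (∀ j, (PowerSeries.X : κ⟦X⟧) ^ (N + 1) ∣ tev r (β j) (f j) y') ∧
      ∀ n' : ℕ, n' + o ≤ Fintype.card ρ * (N + 1) + e →
        TD (RingHom.ker (evJ N y' : Jet (ρ ⊕ Fin c) N k →ₐ[k] κ)) n' := by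
  obtain ⟨t, ht⟩ : ∃ t : κ⟦X⟧, t = PowerSeries.X := ⟨_, rfl⟩
  obtain ⟨M, hM⟩ : ∃ M : Matrix (Fin c) (Fin c) κ⟦X⟧,
      M = Matrix.of fun j a => tev r (β j - r (Sum.inr a)) (pderiv (Sum.inr a) (f j)) y :=
    ⟨_, rfl⟩
  have hdet : M.det = tev r (∑ j, β j - ∑ a, r (Sum.inr a)) (jd f) y := by
    rw [hM]
    exact tev_det r β f hf y
  rw [← hdet] at he
  rw [← hdet] at he0
  obtain ⟨g, hg⟩ : t ^ e ∣ M.det := by
    rw [ht]
    exact PowerSeries.X_pow_dvd_iff.mpr he0
  have hgu : IsUnit g := by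
    rw [PowerSeries.isUnit_iff_constantCoeff, isUnit_iff_ne_zero]
    intro h0
    apply he
    rw [hg, ht]
    have h1 := PowerSeries.coeff_X_pow_mul g e 0
    rw [zero_add] at h1
    rw [h1, PowerSeries.coeff_zero_eq_constantCoeff_apply, h0]
  obtain ⟨g', hg'⟩ := hgu.exists_right_inv
  obtain ⟨W, hMW, hWM⟩ : ∃ W : Matrix (Fin c) (Fin c) κ⟦X⟧,
      M * W = (t ^ e) • 1 ∧ W * M = (t ^ e) • 1 := by
    have h1 : g' * M.det = t ^ e := by
      rw [hg]
      linear_combination (t ^ e) * hg'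
    refine ⟨g' • M.adjugate, ?_, ?_⟩
    · rw [Matrix.mul_smul, Matrix.mul_adjugate, smul_smul, h1]
    · rw [Matrix.smul_mul, Matrix.adjugate_mul, smul_smul, h1]
  -- the perturbation
  obtain ⟨w, hw⟩ : ∃ w : ρ ⊕ Fin c → κ⟦X⟧, w = Sum.elim (fun _ => 0) (W.mulVec z) := ⟨_, rfl⟩
  obtain ⟨y', hy'⟩ : ∃ y' : ρ ⊕ Fin c → κ⟦X⟧, y' = fun i => y i + t ^ (N + 1 - e) * w i :=
    ⟨_, rfl⟩
  have eN1 : N + 1 - e + e = N + 1 := by omega
  have eN2 : N + 1 - 2 * e + e = N + 1 - e := by omega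
  refine ⟨y', fun i => ?_, fun j => ?_, fun n' hn' => ?_⟩
  · rw [hy', ht]
    exact ⟨w i, by ring⟩
  · -- the equations
    obtain ⟨q, hq⟩ := Pert_taylor
      (map (PowerSeries.map (algebraMap k κ)) (tp r (β j) (f j))) y w (t ^ (N + 1 - e))
    rw [← hy', eval_map_tp, eval_map_tp, hy j, zero_add] at hq
    have h1 : ∑ i, w i * eval y
        (pderiv i (map (PowerSeries.map (algebraMap k κ)) (tp r (β j) (f j)))) = t ^ e * z j := by
      rw [Fintype.sum_sum_type]
      have h2 : ∀ a, w (Sum.inr a) * eval y (pderiv (Sum.inr a)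
          (map (PowerSeries.map (algebraMap k κ)) (tp r (β j) (f j)))) =
          M j a * W.mulVec z a := by
        intro a
        rw [eval_map_pderiv r (β j) (f j) (hf j), hw, hM, Matrix.of_apply, Sum.elim_inr, mul_comm]
      have h3 : ∀ i, w (Sum.inl i) * eval y (pderiv (Sum.inl i)
          (map (PowerSeries.map (algebraMap k κ)) (tp r (β j) (f j)))) = 0 := by
        intro i
        rw [hw, Sum.elim_inl, zero_mul]
      rw [Finset.sum_congr rfl fun i _ => h3 i, Finset.sum_congr rfl fun a _ => h2 a,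
        Finset.sum_const_zero, zero_add]
      have h4 : M.mulVec (W.mulVec z) j = t ^ e * z j := by
        rw [Matrix.mulVec_mulVec, hMW, Matrix.smul_mulVec, Matrix.one_mulVec, Pi.smul_apply,
          smul_eq_mul]
      rw [← h4]
      rfl
    rw [h1] at hq
    rw [hq, ← ht]
    have e3 : (t ^ (N + 1 - e)) ^ 2 = t ^ (N + 1) * t ^ (N + 1 - 2 * e) := by
      rw [← pow_mul, ← pow_add]
      congr 1
      omega
    have e4 : t ^ (N + 1 - e) * t ^ e = t ^ (N + 1) := by
      rw [← pow_add, eN1]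
    exact ⟨z j + t ^ (N + 1 - 2 * e) * q, by linear_combination q * e3 + z j * e4⟩
  · -- the derivations
    obtain ⟨Mp, hMp⟩ : ∃ Mp : (ρ ⊕ Fin c → κ⟦X⟧) → Matrix (Fin c) (Fin c) κ⟦X⟧,
        ∀ η j a, Mp η j a = ∑ i, tev r (β j - r (Sum.inr a) - r i)
          (pderiv i (pderiv (Sum.inr a) (f j))) y * η i :=
      ⟨fun η => Matrix.of fun j a => ∑ i, tev r (β j - r (Sum.inr a) - r i)
        (pderiv i (pderiv (Sum.inr a) (f j))) y * η i, fun _ _ _ => rfl⟩
    have hDM : ∀ (D : Derivation k κ κ) (j : ℕ) (η : ρ ⊕ Fin c → κ⟦X⟧),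
        (∀ i, cder D (y i) = t ^ j * η i) → ∀ a b, cder D (M a b) = t ^ j * Mp η a b := by
      intro D j η h a b
      rw [hM, hMp, Matrix.of_apply,
        tev_cder D r _ _ (low_pderiv r (β a) (f a) (hf a) (Sum.inr b)) y, Finset.mul_sum]
      refine Finset.sum_congr rfl fun i _ => ?_
      rw [h i]
      ring
    have hDW : ∀ (D : Derivation k κ κ) (j : ℕ) (η : ρ ⊕ Fin c → κ⟦X⟧),
        (∀ i, cder D (y i) = t ^ j * η i) → ∀ a b, t ^ (N + 1 - e) * cder D (W a b) =
          -(t ^ j * (t ^ (N + 1 - 2 * e) * (W * Mp η * W) a b)) := by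
      intro D j η h a b
      have h1 := Pert_W D e j M W (Mp η) (by rw [hWM, ht]) (by rw [hMW, ht])
        (fun a b => by rw [hDM D j η h a b, ht]) a b
      rw [← ht] at h1
      rw [← eN2, pow_add]
      linear_combination t ^ (N + 1 - 2 * e) * h1
    have hDy : ∀ (D : Derivation k κ κ) (j : ℕ) (η : ρ ⊕ Fin c → κ⟦X⟧),
        (∀ i, cder D (y i) = t ^ j * η i) → ∀ a, cder D (y' (Sum.inr a)) =
          t ^ j * (η (Sum.inr a) - t ^ (N + 1 - 2 * e) * ∑ b, (W * Mp η * W) a b * z b) +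
          t ^ (N + 1 - e) * ∑ b, W a b * cder D (z b) := by
      intro D j η h a
      have h1 : y' (Sum.inr a) = y (Sum.inr a) + t ^ (N + 1 - e) * ∑ b, W a b * z b := by
        rw [hy', hw]
        rfl
      have h2 : ∀ b, cder D (W a b * z b) = W a b * cder D (z b) + cder D (W a b) * z b :=
        fun b => Pert_mul D _ _
      have h3 : t ^ (N + 1 - e) * ∑ b, cder D (W a b) * z b =
          -(t ^ j * (t ^ (N + 1 - 2 * e) * ∑ b, (W * Mp η * W) a b * z b)) := by
        rw [Finset.mul_sum, Finset.mul_sum, Finset.mul_sum, ← Finset.sum_neg_distrib]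
        refine Finset.sum_congr rfl fun b _ => ?_
        linear_combination z b * hDW D j η h a b
      rw [h1, Pert_add, h, ht, Pert_pow_mul, ← ht, Pert_sum,
        Finset.sum_congr rfl fun b _ => h2 b, Finset.sum_add_distrib]
      linear_combination h3
    obtain ⟨Θ, hΘ⟩ : ∃ Θ : Matrix (ρ ⊕ Fin c) (ρ ⊕ Fin c) κ⟦X⟧,
        Θ = Matrix.fromBlocks (Matrix.of fun p i => θ p (Sum.inl i))
          (Matrix.of fun p a => θ p (Sum.inr a) - t ^ (N + 1 - 2 * e) *
            ∑ b, (W * Mp (θ p) * W) a b * z b) 0 (t ^ (N + 1 - e) • W).transpose := ⟨_, rfl⟩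
    have hd : ∀ i j i', cder (d i j) (y' i') = (PowerSeries.X : κ⟦X⟧) ^ j * Θ i i' := by
      intro i j i'
      rw [← ht]
      cases i with
      | inl p =>
        have h1 : ∀ i, cder (d (Sum.inl p) j) (y i) = t ^ j * θ p i := fun i => by
          rw [ht]
          exact d_y p j i
        cases i' with
        | inl i =>
          rw [hΘ, Matrix.fromBlocks_apply₁₁, Matrix.of_apply, ← h1, hy', hw]
          simp only [Sum.elim_inl]
          rw [mul_zero, add_zero]
        | inr a =>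
          have h2 : ∑ b, W a b * cder (d (Sum.inl p) j) (z b) = 0 :=
            Finset.sum_eq_zero fun b _ => by rw [d_z p j b, mul_zero]
          rw [hΘ, Matrix.fromBlocks_apply₁₂, Matrix.of_apply, hDy _ _ _ h1 a, h2, mul_zero,
            add_zero]
      | inr b =>
        have h1 : ∀ i, cder (d (Sum.inr b) j) (y i) = t ^ j * (fun _ => (0 : κ⟦X⟧)) i :=
          fun i => by rw [dz_y b j i, mul_zero]
        have h0 : Mp (fun _ => (0 : κ⟦X⟧)) = 0 := by
          ext1 a b
          rw [hMp, Matrix.zero_apply]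
          exact Finset.sum_eq_zero fun i _ => mul_zero _
        cases i' with
        | inl i =>
          rw [hΘ, Matrix.fromBlocks_apply₂₁, Matrix.zero_apply, mul_zero, hy', hw]
          simp only [Sum.elim_inl]
          rw [mul_zero, add_zero, dz_y]
        | inr a =>
          rw [hΘ, Matrix.fromBlocks_apply₂₂, Matrix.transpose_apply, Matrix.smul_apply,
            smul_eq_mul, hDy _ _ _ h1 a, h0, Matrix.mul_zero, Matrix.zero_mul]
          have h2 : ∑ b', W a b' * cder (d (Sum.inr b) j) (z b') = W a b * t ^ j := by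
            rw [Finset.sum_eq_single b]
            · rw [dz_z, if_pos rfl, ht]
            · intro b' _ hb'
              rw [dz_z, if_neg (Ne.symm hb'), mul_zero]
            · intro h
              exact absurd (Finset.mem_univ _) h
          rw [h2]
          simp only [Matrix.zero_apply, zero_mul, Finset.sum_const_zero, mul_zero, sub_zero]
          ring
    -- the determinant
    have hdΘ : Θ.det * M.det = (Matrix.of fun p i => θ p (Sum.inl i)).det * t ^ (c * (N + 1)) := by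
      have h1 : (t ^ (N + 1 - e) • W).det * M.det = t ^ (c * (N + 1)) := by
        rw [← Matrix.det_mul, Matrix.smul_mul, hWM, smul_smul, ← pow_add, eN1, Matrix.det_smul,
          Matrix.det_one, mul_one, Fintype.card_fin, ← pow_mul, mul_comm c]
      rw [hΘ, Matrix.det_fromBlocks_zero₂₁, Matrix.det_transpose, mul_assoc, h1]
    have hec : e ≤ c * (N + 1) := by
      rcases Nat.eq_zero_or_pos c with h0 | h0
      · subst h0
        rw [Matrix.det_isEmpty, PowerSeries.coeff_one] at he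
        by_contra hc
        apply he
        rw [if_neg (by omega)]
      · calc e ≤ 1 * (N + 1) := by omega
          _ ≤ c * (N + 1) := Nat.mul_le_mul_right _ h0
    have ha : ∃ s ≤ o + c * (N + 1) - e, PowerSeries.coeff s Θ.det ≠ 0 := by
      by_contra hcon
      push Not at hcon
      obtain ⟨s, hso, hs⟩ := ho
      apply hs
      obtain ⟨q, hq⟩ : t ^ (o + c * (N + 1) - e + 1) ∣ Θ.det := by
        rw [ht, PowerSeries.X_pow_dvd_iff]
        intro m hm
        exact hcon m (by omega)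
      have h1 : t ^ (o + c * (N + 1) + 1) ∣
          (Matrix.of fun p i => θ p (Sum.inl i)).det * t ^ (c * (N + 1)) := by
        rw [← hdΘ, hq, hg]
        have h2 : t ^ (o + c * (N + 1) + 1) = t ^ (o + c * (N + 1) - e + 1) * t ^ e := by
          rw [← pow_add]
          congr 1
          omega
        exact ⟨q * g, by rw [h2]; ring⟩
      rw [ht, PowerSeries.X_pow_dvd_iff] at h1
      have h2 := h1 (s + c * (N + 1)) (by omega)
      rwa [PowerSeries.coeff_mul_X_pow] at h2
    refine trd N y' Θ d hd (o + c * (N + 1) - e) ha n' ?_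
    rw [Fintype.card_sum, Fintype.card_fin, add_mul]
    omega

end Pool.Agent.MLD.Cox
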