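import Pool.Agent.Lib.MP_f23696_ag.Y.Arc
import Pool.Agent.Lib.MP_f23696_ag.Y.Pert
import Pool.Agent.Lib.MP_f23696_ag.Y.TwC

/-!
Project COX, module ZM: the prime ideals of the universal twisted arcs.

Write `r' = S.rv v r`, `βJ = ∑ β j - ∑ r' (inr a)`.  Proof.  Let `G` be a universal arc (`genArc`)
over `F`, `ω z = (G.ρ₀ z).order`.

(0) For a polynomial `P` and `β'` with `Low r' β' P`: `G.ρ₀ (aeval x P) = aeval (ρ₀ ∘ x) P =
tz β' * toL (tev r' β' P y)` (`tev_laurent`).  So `tev r' (β j) (f j) y = 0` (`S.ker`), and if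
`aeval x P ≠ 0` the order of the series `tev r' β' P y` is `ω (aeval x P) - β' ≥ 0`.  In
particular for `jd f` (`low_det`): put `e = ω (aeval x (jd f)) - βJ`.
(1) `J = ker (aeval (fun i => if n i = 0 then constantCoeff (y i) else 0))`, `X i ∈ J` if `n i ≠ 0`;
closed under the component of degree `0` by `G.hom0`.
(2) For `P` homogeneous of degree `0` with `Low r' 0 P`: `constantCoeff (tev r' 0 P y)` is the sum
of `coeff d P * ∏ (constantCoeff (y i))^(d i)` over the monomials `d` with `wt r' d = 0`; by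
`hw_hom` (degree `0`, `β = 0`) `∑ d_i n_i = M wt r' d`, so `wt r' d = 0` iff `n i = 0` for all `i`
in the support of `d`; so `constantCoeff (tev r' 0 P y) = aeval (if n i = 0 ..) P`: it is zero iff
`P ∈ J`.  If moreover `φ b = aeval x P`: `G.ρ₀ (φ b) = toL (tev r' 0 P y)`, and (for `b ≠ 0`) its
order is `r v(b)`, so the constant coefficient is zero iff `v b > 0` (and for `b = 0` both sides
hold).  (If `Low r' 0 P` fails nothing is claimed; the hypothesis `b` integral is in the statement.)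
(3) Let `N` be given.  `pert` applied to `y`, `z`, `d`, `θ`, `e`, `o` = order of `det θ_I`
(`(o : ℤ) = r (1 + j₀ + v lam)` by `G.det_ord`; `order_toL_le` and its relatives) gives `y'`.  Put
`Z = ker (scJ N n M y')`, prime since `F[X]` is a domain.
(4) TD: `Z ≤ ker (evJ N y')` (`scJ_one`), so `TD Z n'` if `n' + o ≤ (m + 1 + h) (N + 1) + e`.  And
`o - e = r (1 + j₀) + ω η - ∑ r' + ∑ β`: by `η_mul`, `ω` additive, `ω (x i) = r' i`
(`G.ρ_x`, `G.y_const`), `ω (φ lam) = r v(lam)`: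
`ω η + βJ + e = ∑_(i ∈ Ro) r' (inl i) + r v(lam)`.
(5) For `G'` homogeneous of degree `ψ` with `Low r' β' G'`: `scJ_coJ` with
`B = M β' + ∑ ψ l s' l` (`hw_hom`): `coJ N r' β' G' l ∈ Z` iff `coeff l (tev r' β' G' y') = 0`
(`l ≤ N`).  For `G' = f j`: zero for `l ≤ N` by `pert`.  For `l + e ≤ N`, i.e. `l < N + 1 - e`, it
is `coeff l (tev r' β' G' y)` by `tev_congr`: zero for `l < ω (aeval x G') - β'`, not zero for
equality, by (0).  For `P` of degree `0`, `l = 0`, `β' = 0` (note `e ≤ N`): by (2) membership is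
equivalent to `P ∈ J`.
(6) `P ∈ Z` implies `resJ P ∈ J`: `scJ_zero` (`M ≥ 1`) and `constantCoeff (y' i) =
constantCoeff (y i)` (`N + 1 - e ≥ 1`).
-/

set_option autoImplicit false

namespace Pool.Agent.MLD.Cox

open MvPolynomial
open scoped PowerSeries

universe u v w

section ZMaux

variable {k : Type u} {K : Type v} {L : Type w} [Field k] [Field K] [Field L] [Algebra k K]
    [Algebra k L] {m h c : ℕ} {S : Sys k K L m h c} {v : DVal k K} {r : ℕ} {j₀ : ℤ} {F : Type v}
    [Field F] [Algebra k F]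

private theorem ZM_A (G : GenArc S v r j₀ F) (P : MvPolynomial (Ix m h c) k) (β' : ℤ)
    (hP : Low (S.rv v r) β' P) :
    G.ρ₀ (aeval S.x P) = tz F β' * toL (tev (S.rv v r) β' P G.y) := by
  rw [← tev_laurent (S.rv v r) β' P hP G.y, ← AlgHom.comp_apply, comp_aeval]
  congr 2
  funext i
  exact G.ρ_x i

private theorem ZM_C (G : GenArc S v r j₀ F) (P : MvPolynomial (Ix m h c) k) (β' : ℤ)
    (hP : Low (S.rv v r) β' P) (h0 : aeval S.x P = 0) : tev (S.rv v r) β' P G.y = 0 := by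
  have h1 := ZM_A G P β' hP
  rw [h0, map_zero] at h1
  have h2 : toL (tev (S.rv v r) β' P G.y) = 0 :=
    (mul_eq_zero.1 h1.symm).resolve_left (tz_ne β')
  refine toL_injective ?_
  rw [h2]
  exact (map_zero (HahnSeries.ofPowerSeries ℤ F)).symm

private theorem ZM_ser (T : F⟦X⟧) (hT : T ≠ 0) : ∃ t : ℕ, toL T ≠ 0 ∧ (toL T).order = t ∧
    (∀ i < t, PowerSeries.coeff i T = 0) ∧ PowerSeries.coeff t T ≠ 0 := by
  classical
  have h1 : ∃ i, PowerSeries.coeff i T ≠ 0 := by
    by_contra hc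
    push Not at hc
    exact hT (PowerSeries.ext fun i => by rw [hc i, map_zero])
  have h2 : ∀ i < Nat.find h1, PowerSeries.coeff i T = 0 := fun i hi =>
    not_not.1 (Nat.find_min h1 hi)
  obtain ⟨h3, h4⟩ := order_toL T (Nat.find h1) h2 (Nat.find_spec h1)
  exact ⟨Nat.find h1, h3, h4, h2, Nat.find_spec h1⟩

private theorem ZM_B (G : GenArc S v r j₀ F) (P : MvPolynomial (Ix m h c) k) (β' : ℤ)
    (hP : Low (S.rv v r) β' P) (h0 : aeval S.x P ≠ 0) : ∃ t : ℕ,
    (G.ρ₀ (aeval S.x P)).order - β' = t ∧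
      (∀ i < t, PowerSeries.coeff i (tev (S.rv v r) β' P G.y) = 0) ∧
      PowerSeries.coeff t (tev (S.rv v r) β' P G.y) ≠ 0 := by
  have h1 := ZM_A G P β' hP
  have h2 : G.ρ₀ (aeval S.x P) ≠ 0 := (map_ne_zero G.ρ₀).2 h0
  have h3 : tev (S.rv v r) β' P G.y ≠ 0 := by
    intro h4
    apply h2
    rw [h1, h4]
    have h5 : toL (0 : F⟦X⟧) = 0 := map_zero (HahnSeries.ofPowerSeries ℤ F)
    rw [h5, mul_zero]
  obtain ⟨t, h4, h5, h6, h7⟩ := ZM_ser _ h3
  refine ⟨t, ?_, h6, h7⟩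
  rw [h1, order_tz_mul _ _ h4, h5]
  ring

private theorem ZM_D (G : GenArc S v r j₀ F) (n : Ix m h c → ℕ) (M : ℕ) (hM : 1 ≤ M)
    (s' : Fin h → ℤ) (hn : ∀ i, (n i : ℤ) = M * S.rv v r i + ∑ l, S.χ i l * s' l)
    (P : MvPolynomial (Ix m h c) k) (hP : IsWeightedHomogeneous S.χ P 0)
    (hL : Low (S.rv v r) 0 P) :
    PowerSeries.constantCoeff (tev (S.rv v r) 0 P G.y) =
      aeval (fun i => if n i = 0 then PowerSeries.constantCoeff (G.y i) else 0) P := by
  rw [tev_eq, map_sum, aeval_def, eval₂_eq']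
  refine Finset.sum_congr rfl fun d hd => ?_
  rw [map_mul, map_mul, PowerSeries.constantCoeff_C, map_pow, PowerSeries.constantCoeff_X,
    map_prod]
  have h1 := hw_hom S.χ (S.rv v r) n M s' hn P 0 hP 0 d hd
  have h2 := hL d hd
  have h3 : (∑ i, (d i : ℤ) * n i) = M * wt (S.rv v r) d := by
    rw [h1]
    simp
  rcases h2.eq_or_lt with h4 | h4
  · have h5 : ∀ i ∈ Finset.univ, (d i : ℤ) * n i = 0 := by
      refine (Finset.sum_eq_zero_iff_of_nonneg fun i _ => by positivity).1 ?_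
      rw [h3, ← h4, mul_zero]
    rw [← h4, sub_zero, Int.toNat_zero, pow_zero, mul_one]
    congr 1
    refine Finset.prod_congr rfl fun i _ => ?_
    rw [map_pow]
    by_cases h6 : n i = 0
    · rw [if_pos h6]
    · have h7 : d i = 0 := by
        have h8 := h5 i (Finset.mem_univ i)
        rcases mul_eq_zero.1 h8 with h9 | h9
        · exact_mod_cast h9
        · exact absurd (by exact_mod_cast h9) h6
      rw [h7, pow_zero, pow_zero]
  · have h5 : (wt (S.rv v r) d - 0).toNat ≠ 0 := by omega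
    rw [zero_pow h5, mul_zero, zero_mul]
    have h6 : ∃ i, d i ≠ 0 ∧ n i ≠ 0 := by
      by_contra hc
      push Not at hc
      have h7 : (∑ i, (d i : ℤ) * n i) = 0 := by
        refine Finset.sum_eq_zero fun i _ => ?_
        by_cases h8 : d i = 0
        · rw [h8]
          simp
        · rw [hc i h8]
          simp
      rw [h3] at h7
      have h8 : 0 < (M : ℤ) * wt (S.rv v r) d := mul_pos (by exact_mod_cast hM) h4
      omega
    obtain ⟨i, h7, h8⟩ := h6
    rw [Finset.prod_eq_zero (Finset.mem_univ i), mul_zero]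
    rw [if_neg h8, zero_pow h7]

private theorem ZM_x (G : GenArc S v r j₀ F) (i : Ix m h c) :
    (G.ρ₀ (S.x i)).order = S.rv v r i := by
  obtain ⟨h1, h2⟩ := order_toL (G.y i) 0 (fun i hi => absurd hi (Nat.not_lt_zero i)) (by
    rw [PowerSeries.coeff_zero_eq_constantCoeff_apply]
    exact G.y_const i)
  rw [G.ρ_x, order_tz_mul _ _ h1, h2]
  simp

private theorem ZM_mul (G : GenArc S v r j₀ F) (z z' : L) (hz : z ≠ 0) (hz' : z' ≠ 0) :
    (G.ρ₀ (z * z')).order = (G.ρ₀ z).order + (G.ρ₀ z').order := by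
  rw [map_mul]
  exact order_mul' _ _ ((map_ne_zero G.ρ₀).2 hz) ((map_ne_zero G.ρ₀).2 hz')

private theorem ZM_prod (G : GenArc S v r j₀ F) {ι : Type*} (s : Finset ι) (x : ι → L)
    (hx : ∀ i, x i ≠ 0) : (G.ρ₀ (∏ i ∈ s, x i)).order = ∑ i ∈ s, (G.ρ₀ (x i)).order := by
  classical
  induction s using Finset.induction_on with
  | empty => simp
  | insert i s hi ih =>
    rw [Finset.prod_insert hi, Finset.sum_insert hi, ZM_mul G _ _ (hx i)
      (Finset.prod_ne_zero_iff.2 fun j _ => hx j), ih]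

private theorem ZM_η (G : GenArc S v r j₀ F) :
    (G.ρ₀ S.η).order + (G.ρ₀ (aeval S.x (jd S.f))).order =
      ∑ i, S.rv v r (Sum.inl i) + r * v.ord S.lam := by
  rw [← ZM_mul G _ _ S.η_ne S.jac, S.η_mul, ZM_mul G _ _
    (Finset.prod_ne_zero_iff.2 fun j _ => S.x_ne _) ((map_ne_zero S.φ).2 S.lam_ne),
    ZM_prod G _ _ fun i => S.x_ne _, G.ord_K _ S.lam_ne]
  congr 1
  exact Finset.sum_congr rfl fun i _ => ZM_x G _

end ZMaux

theorem zm {k : Type u} {K : Type v} {L : Type w} [Field k] [CharZero k] [Field K] [Field L]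
    [Algebra k K] [Algebra k L] {m h c : ℕ} (S : Sys k K L m h c) (v : DVal k K)
    (hv : v.IsDivisorial m) (j₀ : ℤ) (hj : v.FormOrd S.D j₀) (r : ℕ) (hr : 1 ≤ r)
    (β : Fin c → ℤ) (hβ : ∀ j, Low (S.rv v r) (β j) (S.f j)) (n : Ix m h c → ℕ) (M : ℕ)
    (hM : 1 ≤ M) (s' : Fin h → ℤ)
    (hn : ∀ i, (n i : ℤ) = M * S.rv v r i + ∑ l, S.χ i l * s' l) :
    ∃ (J : Ideal (MvPolynomial (Ix m h c) k)) (ω : L → ℤ) (e : ℕ),
      (∀ z z', z ≠ 0 → z' ≠ 0 → ω (z * z') = ω z + ω z') ∧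
      (∀ b : K, b ≠ 0 → ω (S.φ b) = r * v.ord b) ∧
      (∀ P ∈ J, weightedHomogeneousComponent S.χ 0 P ∈ J) ∧
      (∀ i, n i ≠ 0 → (X i : MvPolynomial (Ix m h c) k) ∈ J) ∧
      (∀ P, IsWeightedHomogeneous S.χ P 0 → Low (S.rv v r) 0 P → ∀ b : K,
        S.φ b = aeval S.x P → (P ∈ J ↔ v.Small b)) ∧
      (e : ℤ) = ω (aeval S.x (jd S.f)) - (∑ j, β j - ∑ a, S.rv v r (Sum.inr a)) ∧
      ∀ N : ℕ, 2 * e ≤ N + 1 → e ≤ N → ∃ Z : Ideal (Jet (Ix m h c) N k), Z.IsPrime ∧
        (∀ n' : ℕ, (n' : ℤ) ≤ (m + 1 + h) * (N + 1) -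
          (r * (1 + j₀) + ω S.η - ∑ i, S.rv v r i + ∑ j, β j) → TD Z n') ∧
        (∀ j l, l ≤ N → coJ N (S.rv v r) (β j) (S.f j) l ∈ Z) ∧
        (∀ (G : MvPolynomial (Ix m h c) k) (ψ : Fin h → ℤ), IsWeightedHomogeneous S.χ G ψ →
          aeval S.x G ≠ 0 → ∀ β' : ℤ, Low (S.rv v r) β' G → ∀ l : ℕ, l + e ≤ N →
          ((l : ℤ) < ω (aeval S.x G) - β' → coJ N (S.rv v r) β' G l ∈ Z) ∧
          ((l : ℤ) = ω (aeval S.x G) - β' → coJ N (S.rv v r) β' G l ∉ Z)) ∧
        (∀ P, IsWeightedHomogeneous S.χ P 0 → Low (S.rv v r) 0 P →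
          (coJ N (S.rv v r) 0 P 0 ∈ Z ↔ P ∈ J)) ∧
        ∀ P ∈ Z, resJ (Ix m h c) N k P ∈ J := by
  classical
  obtain ⟨F, iF, iA, ⟨G⟩⟩ := genArc S v hv j₀ hj r hr
  obtain ⟨e, e1, e2, e3⟩ := ZM_B G (jd S.f) _ (low_det (S.rv v r) β S.f hβ) S.jac
  have hfx : ∀ j, aeval S.x (S.f j) = 0 := by
    intro j
    have h1 : S.f j ∈ RingHom.ker (aeval S.x : MvPolynomial (Ix m h c) k →ₐ[k] L) := by
      rw [S.ker]
      exact Ideal.subset_span ⟨j, rfl⟩
    exact RingHom.mem_ker.mp h1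
  obtain ⟨o, o1, o2, o3, o4⟩ := ZM_ser _ G.det_ne
  have hmem : ∀ P, P ∈ RingHom.ker (aeval (fun i => if n i = 0 then
      PowerSeries.constantCoeff (G.y i) else 0) : MvPolynomial (Ix m h c) k →ₐ[k] F) ↔
      aeval (fun i => if n i = 0 then PowerSeries.constantCoeff (G.y i) else 0) P = 0 :=
    fun P => RingHom.mem_ker
  refine ⟨RingHom.ker (aeval (fun i => if n i = 0 then
      PowerSeries.constantCoeff (G.y i) else 0) : MvPolynomial (Ix m h c) k →ₐ[k] F),
    fun z => (G.ρ₀ z).order, e, ZM_mul G, G.ord_K, ?_, ?_, ?_, e1.symm, ?_⟩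
  · intro P hP
    rw [hmem] at hP ⊢
    exact G.hom0 (fun i => n i = 0) P hP
  · intro i hi
    rw [hmem, aeval_X, if_neg hi]
  · intro P hP hL b hb
    rw [hmem, ← ZM_D G n M hM s' hn P hP hL]
    by_cases hb0 : b = 0
    · have h1 : aeval S.x P = 0 := by rw [← hb, hb0, map_zero]
      rw [ZM_C G P 0 hL h1, map_zero]
      exact ⟨fun _ h => absurd hb0 h, fun _ => rfl⟩
    · have h1 : aeval S.x P ≠ 0 := by
        rw [← hb]
        exact (map_ne_zero S.φ).2 hb0
      obtain ⟨t, t1, t2, t3⟩ := ZM_B G P 0 hL h1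
      rw [← hb, G.ord_K b hb0, sub_zero] at t1
      rw [← PowerSeries.coeff_zero_eq_constantCoeff_apply]
      have hr' : (0 : ℤ) < r := by exact_mod_cast hr
      constructor
      · intro h2 _
        have h3 : t ≠ 0 := by
          rintro rfl
          exact t3 h2
        have h4 : (0 : ℤ) < r * v.ord b := by
          rw [t1]
          exact_mod_cast Nat.pos_of_ne_zero h3
        exact (mul_pos_iff_of_pos_left hr').1 h4
      · intro h2
        refine t2 0 ?_
        have h3 : (0 : ℤ) < r * v.ord b := mul_pos hr' (h2 hb0)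
        rw [t1] at h3
        exact_mod_cast h3
  · intro N hN heN
    obtain ⟨y', y1, y2, y3⟩ := pert S.f (S.rv v r) β hβ G.y
      (fun j => ZM_C G _ _ (hβ j) (hfx j)) e e2 e3 G.z G.d G.θ G.d_y G.d_z G.dz_y G.dz_z o
      ⟨o, le_rfl, o4⟩ N hN heN
    have hZ : ∀ P, P ∈ RingHom.ker (scJ N n M y' : Jet (Ix m h c) N k →ₐ[k] Polynomial F) ↔
        scJ N n M y' P = 0 := fun P => RingHom.mem_ker
    have hco : ∀ (P : MvPolynomial (Ix m h c) k) (ψ : Fin h → ℤ),
        IsWeightedHomogeneous S.χ P ψ → ∀ β' : ℤ, Low (S.rv v r) β' P → ∀ l ≤ N,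
        (coJ N (S.rv v r) β' P l ∈
          RingHom.ker (scJ N n M y' : Jet (Ix m h c) N k →ₐ[k] Polynomial F) ↔
          PowerSeries.coeff l (tev (S.rv v r) β' P y') = 0) := by
      intro P ψ hP β' hL l hl
      rw [hZ, scJ_coJ N n M y' (S.rv v r) β' P hL _ (fun d hd =>
        hw_hom S.χ (S.rv v r) n M s' hn P ψ hP β' d hd) l hl, mul_eq_zero,
        Polynomial.C_eq_zero]
      constructor
      · rintro (h1 | h1)
        · exact h1
        · exact absurd h1 (pow_ne_zero _ Polynomial.X_ne_zero)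
      · exact Or.inl
    have hcg : ∀ (P : MvPolynomial (Ix m h c) k) (β' : ℤ) (l : ℕ), l + e ≤ N →
        PowerSeries.coeff l (tev (S.rv v r) β' P y') =
          PowerSeries.coeff l (tev (S.rv v r) β' P G.y) := by
      intro P β' l hl
      have h1 := tev_congr (S.rv v r) β' P y' G.y (N + 1 - e) y1
      rw [PowerSeries.X_pow_dvd_iff] at h1
      have h2 := h1 l (by omega)
      rw [map_sub, sub_eq_zero] at h2
      exact h2
    refine ⟨RingHom.ker (scJ N n M y' : Jet (Ix m h c) N k →ₐ[k] Polynomial F), ?_, ?_, ?_, ?_,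
      ?_, ?_⟩
    · exact RingHom.ker_isPrime _
    · intro n' hn'
      have h1 := y3 n' (by
        have h2 := ZM_η G
        rw [G.det_ord] at o2
        have h3 : (Fintype.card (Ro m h) : ℤ) = m + 1 + h := by
          rw [Fintype.card_sum, Fintype.card_fin, Fintype.card_fin]
          push_cast
          ring
        have h4 : ∑ i, S.rv v r i = ∑ i, S.rv v r (Sum.inl i) + ∑ a, S.rv v r (Sum.inr a) :=
          Fintype.sum_sum_type _
        have h5 : (n' : ℤ) + o ≤ Fintype.card (Ro m h) * (N + 1) + e := by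
          rw [h3]
          rw [h4] at hn'
          have h6 : (r : ℤ) * (1 + j₀ + v.ord S.lam) = r * (1 + j₀) + r * v.ord S.lam := by ring
          linarith
        exact_mod_cast h5)
      obtain ⟨t, ht⟩ := h1
      refine ⟨t, fun Q hQ hm => ht Q hQ ?_⟩
      exact RingHom.mem_ker.2 (scJ_one N n M y' _ ((hZ _).1 hm))
    · intro j l hl
      rw [hco (S.f j) (S.ψ j) (S.hom j) (β j) (hβ j) l hl]
      exact (PowerSeries.X_pow_dvd_iff.1 (y2 j)) l (by omega)
    · intro P ψ hP h0 β' hL l hl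
      obtain ⟨t, t1, t2, t3⟩ := ZM_B G P β' hL h0
      rw [hco P ψ hP β' hL l (by omega), hcg P β' l hl]
      constructor
      · intro h1
        refine t2 l ?_
        rw [t1] at h1
        exact_mod_cast h1
      · intro h1
        rw [t1] at h1
        have h2 : l = t := by exact_mod_cast h1
        rw [h2]
        exact t3
    · intro P hP hL
      rw [hco P 0 hP 0 hL 0 (Nat.zero_le N), hcg P 0 0 (by omega), hmem,
        ← ZM_D G n M hM s' hn P hP hL, PowerSeries.coeff_zero_eq_constantCoeff_apply]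
    · intro P hP
      rw [hmem]
      have h1 := scJ_zero N n M hM y' P ((hZ P).1 hP)
      have h2 : ∀ i, PowerSeries.constantCoeff (y' i) = PowerSeries.constantCoeff (G.y i) := by
        intro i
        have h3 := (PowerSeries.X_pow_dvd_iff.1 (y1 i)) 0 (by omega)
        rw [map_sub, sub_eq_zero, PowerSeries.coeff_zero_eq_constantCoeff_apply,
          PowerSeries.coeff_zero_eq_constantCoeff_apply] at h3
        exact h3
      simp only [h2] at h1
      exact h1

end Pool.Agent.MLD.Cox
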