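import Pool.Agent.Lib.MP_f23696_ag.Y.TNb
import Pool.Agent.Lib.MP_f23696_ag.Y.ZM
import Pool.Agent.Lib.MP_f23696_ag.Y.Delta
import Pool.Agent.Lib.MP_f23696_ag.Y.KrullS

/-!
Project COX, module TN: large prime ideals of jets over the closed point.

Write `r' = S.rv v r`, `βJ = ∑ β j - ∑ r' (inr a)`,
`â = r (1 + j₀) + ω η - ∑ r' + ∑ β`, `Pr = m + 1 + h`.

Proof.  `S.fk` gives `M`, `s'`, `n`; `zm` gives `J`, `ω`, `e` and the ideals `Z_N`; by `lowA` its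
statement on polynomials of degree `0` holds without the hypothesis `Low`; `tnPt` gives `x₀`
(`q ≤ 𝔪` as `𝔪` is a minimal prime over `q ⊔ ..`); `x₀ i = 0` if `n i ≠ 0` as `X i ∈ J`.

(1) Let `N₁ ≥ 2e + 2`, `N₁ ≥ e + (ω (aeval x (G a)) - βG a).toNat` for all `a`, and
`N₁ ≥ (â + d).toNat`; `Z = Z_(N₁)`.  Apply `delta` with `N₀ = N₁`,
`B j = (M β j + ∑_l ψ j l * s' l).toNat`: for the monomials of `f j` `hw_hom` gives
`∑ d i n i = M (wt d - β j) + (M β j + ∑ ψ j l s' l)`, and the bracket is `≥ 0`, because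
by `hβ'` there is a monomial with `wt r' d = β j`.  For `jd f`: `hom_det` and `hw_hom` with
`ψ = ∑ ψ j - ∑ χ (inr a)`; substitute `n (inr a) = M r' (inr a) + ∑ χ (inr a) l s' l`.
`hZ0`, `hZe`: the third property of `zm` for `jd f`, `β' = βJ` (`low_det`), `l ≤ e`, `2e ≤ N₁`.
`hc`: `resJ P ∈ J`.
So there is `δ` with `tev r' (β j) (f j) δ = 0`, `tev r' βJ (jd f) δ ≠ 0`, `t^(N₁+1) ∣ δ i - x₀ i`.
(2) `P₀ = ker (evJ N₁ δ)` is a prime ideal; `Z ≤ P₀` by `evJ_res`.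
(3) For `P` homogeneous of degree `0`: `evJ N₁ δ (coJ N₁ r' 0 P 0) = constantCoeff (tev r' 0 P δ)
= aeval x₀ P` (`evJ_coJ`, `const_deg0` with `hw_hom`, `β = 0`, `ψ = 0`).
(4) Choose `P_i` representing `g i`; `g i ∈ 𝔪` so `aeval x₀ P_i = 0` and `coJ N₁ r' 0 P_i 0 ∈ P₀`.
`krullS` with `I = Z`, `P = P₀`, `b = d`: `Z ≤ T₁ ≤ P₀` prime, `coJ N₁ r' 0 P_i 0 ∈ T₁`,
`TD T₁ n₁` with `n₁ = (Pr (N₁ + 1) - â - d).toNat` (`TD Z (n₁ + d)`; as `N₁ ≥ (â + d).toNat` and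
`Pr ≥ 1` we have `(n₁ : ℤ) = Pr (N₁ + 1) - â - d`).
(5) `tnMax` (with `Z`, `T₁`; `hZ`: `b ∈ q` is small, so `P ∈ J`, so `coJ ∈ Z`; `hc`: `T₁ ≤ P₀` and
(3)).
(6) Let `s` be an index with `coeff s (tev r' βJ (jd f) δ) ≠ 0`; `ε = s`, `N₂ = max N₁ s`.  For
`N ≥ N₂`: `tm` with `κ = k`, `δ`, `T₁`, `g j l = coJ N r' (β j) (f j) l`
(`evJ_coJ`: `evJ N δ (coJ N r' (β j) (f j) l) = coeff l (tev .. δ) = 0`), `n = n₁`,
`n' ≤ n₁ + Pr (N - N₁)`: `T` prime, `T ≤ ker (evJ N δ)`, `up T₁ ⊆ T`, `coJ N r' (β j) (f j) l ∈ T`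
for `N₁ < l ≤ N`.  The statement on `TD` for all `n'`: use `TD.mono` — take the largest `n'`, namely
`n₁ + Pr (N - N₁)`.
(7) For `l ≤ N₁`: `coJ N .. l = up (coJ N₁ .. l)` (`up_coJ`) and `coJ N₁ r' (β j) (f j) l ∈ Z ≤ T₁`;
the same for the `G a` with `l < ω (aeval x (G a)) - βG a` (then `l + e ≤ N₁`) and for the functions
of (5), `l = 0`.  `coJ N r' βJ (jd f) s ∉ T` since `evJ N δ` of it is
`coeff s (tev r' βJ (jd f) δ) ≠ 0`.
-/

set_option autoImplicit false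

namespace Pool.Agent.MLD.Cox

open MvPolynomial
open scoped PowerSeries

universe u v w

theorem tN {k : Type u} {K : Type v} {L : Type w} [Field k] [IsAlgClosed k] [CharZero k] [Field K]
    [Field L] [Algebra k K] [Algebra k L] {m h c : ℕ} (S : Sys k K L m h c) (A : Subalgebra k K)
    (hG : Geo S A) (q 𝔪 : Ideal A) (h𝔪 : 𝔪.IsMaximal) (d : ℕ) (g : Fin d → A)
    (hmin : 𝔪 ∈ (q ⊔ Ideal.span (Set.range g)).minimalPrimes)
    (v : DVal k K) (hvd : v.IsDivisorial m) (hv : v.HasCenter A q) (j₀ : ℤ)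
    (hj : v.FormOrd S.D j₀) (r : ℕ) (hr : 1 ≤ r)
    (β : Fin c → ℤ) (hβ : ∀ j, Low (S.rv v r) (β j) (S.f j))
    (hβ' : ∀ j, ∃ d ∈ (S.f j).support, wt (S.rv v r) d = β j)
    {ι : Type} [Finite ι] (G : ι → MvPolynomial (Ix m h c) k) (ψG : ι → Fin h → ℤ)
    (hGh : ∀ a, IsWeightedHomogeneous S.χ (G a) (ψG a)) (hG0 : ∀ a, aeval S.x (G a) ≠ 0)
    (βG : ι → ℤ) (hβG : ∀ a, Low (S.rv v r) (βG a) (G a)) :
    ∃ (ω : L → ℤ) (ε : ℕ),
      (∀ z z', z ≠ 0 → z' ≠ 0 → ω (z * z') = ω z + ω z') ∧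
      (∀ b : K, b ≠ 0 → ω (S.φ b) = r * v.ord b) ∧
      ∃ N₂ : ℕ, ∀ N ≥ N₂, ∃ T : Ideal (Jet (Ix m h c) N k), T.IsPrime ∧
        (∀ n' : ℕ, (n' : ℤ) ≤ (m + 1 + h) * (N + 1) -
          (r * (1 + j₀) + ω S.η - ∑ i, S.rv v r i + ∑ j, β j) - d → TD T n') ∧
        (∀ j l, l ≤ N → coJ N (S.rv v r) (β j) (S.f j) l ∈ T) ∧
        (∃ s ≤ ε, coJ N (S.rv v r) (∑ j, β j - ∑ a, S.rv v r (Sum.inr a)) (jd S.f) s ∉ T) ∧
        (∀ a (l : ℕ), (l : ℤ) < ω (aeval S.x (G a)) - βG a →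
          coJ N (S.rv v r) (βG a) (G a) l ∈ T) ∧
        ∀ (P : MvPolynomial (Ix m h c) k) (b : A), b ∈ 𝔪 → S.Rep P b →
          coJ N (S.rv v r) 0 P 0 ∈ T := by
  classical
  have := Fintype.ofFinite ι
  obtain ⟨M, s', n, hM, hn⟩ := S.fk A hG v hv.1 r
  obtain ⟨J, ω, e, hω, hωφ, hJ0, hJX, hJv, he, hZall⟩ :=
    zm S v hvd j₀ hj r hr β hβ n M hM s' hn
  have hJv' : ∀ (P : MvPolynomial (Ix m h c) k) (b : K), S.Rep P b → (P ∈ J ↔ v.Small b) :=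
    fun P b hP => hJv P hP.1 (S.lowA A hG v hv.1 r P hP.1) b hP.2
  have hq𝔪 : q ≤ 𝔪 := le_sup_left.trans hmin.1.2
  obtain ⟨x₀, hx₀J, hx₀m⟩ := S.tnPt A hG q 𝔪 h𝔪.ne_top hq𝔪 v hv J hJ0 hJv'
  have hx₀ : ∀ i, n i ≠ 0 → x₀ i = 0 := by
    intro i hi
    have h1 := hx₀J _ (hJX i hi)
    rwa [aeval_X] at h1
  obtain ⟨R, hR⟩ : ∃ R, R = S.rv v r := ⟨_, rfl⟩
  obtain ⟨βJ, hβJ⟩ : ∃ βJ : ℤ, βJ = ∑ j, β j - ∑ a, S.rv v r (Sum.inr a) := ⟨_, rfl⟩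
  obtain ⟨aH, haH⟩ : ∃ aH : ℤ, aH = r * (1 + j₀) + ω S.η - ∑ i, S.rv v r i + ∑ j, β j := ⟨_, rfl⟩
  simp only [← hR] at hn hJv he hZall hβ hβ' hβG hβJ haH ⊢
  simp only [← hβJ, ← haH] at he hZall ⊢
  obtain ⟨N₁, hN₁⟩ : ∃ N₁ : ℕ, N₁ = 2 * e + 2 +
      (∑ a, (e + (ω (aeval S.x (G a)) - βG a).toNat)) + (aH + d).toNat := ⟨_, rfl⟩
  have hN₁e : 2 * e + 2 ≤ N₁ := by omega
  have hN₁a : ∀ a, e + (ω (aeval S.x (G a)) - βG a).toNat ≤ N₁ := by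
    intro a
    have h1 := Finset.single_le_sum (f := fun a => e + (ω (aeval S.x (G a)) - βG a).toNat)
      (fun a _ => Nat.zero_le _) (Finset.mem_univ a)
    have h2 : e + (ω (aeval S.x (G a)) - βG a).toNat ≤
      ∑ a, (e + (ω (aeval S.x (G a)) - βG a).toNat) := h1
    omega
  have hN₁d : aH + d ≤ N₁ := by
    have h1 : (aH + d).toNat ≤ N₁ := by omega
    omega
  obtain ⟨Z, hZp, hZTD, hZf, hZG, hZ0, hZJ⟩ := hZall N₁ (by omega) (by omega)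
  have hlJ : Low R βJ (jd S.f) := by
    rw [hβJ]
    exact low_det R β S.f hβ
  -- the numbers `B j`
  have hB0 : ∀ j, 0 ≤ (M : ℤ) * β j + ∑ l, S.ψ j l * s' l := by
    intro j
    obtain ⟨d₀, hd₀, hw⟩ := hβ' j
    have h1 := hw_hom S.χ R n M s' hn (S.f j) (S.ψ j) (S.hom j) (β j) d₀ hd₀
    rw [hw, sub_self, mul_zero, zero_add] at h1
    rw [← h1]
    exact Finset.sum_nonneg fun i _ => by positivity
  have hBj : ∀ j, (((M : ℤ) * β j + ∑ l, S.ψ j l * s' l).toNat : ℤ) =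
      (M : ℤ) * β j + ∑ l, S.ψ j l * s' l := fun j => Int.toNat_of_nonneg (hB0 j)
  have hhJ := hom_det S.χ S.f S.ψ S.hom
  obtain ⟨δ, hδf, hδJ, hδx⟩ := delta S.f R β hβ n M hM
    (fun j => ((M : ℤ) * β j + ∑ l, S.ψ j l * s' l).toNat)
    (fun j d hd => by
      rw [hBj]
      exact hw_hom S.χ R n M s' hn (S.f j) (S.ψ j) (S.hom j) (β j) d hd)
    (fun d hd => by
      rw [hw_hom S.χ R n M s' hn (jd S.f) _ hhJ (∑ j, β j - ∑ a, R (Sum.inr a)) d hd]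
      congr 1
      rw [Finset.sum_congr rfl fun j _ => hBj j, Finset.sum_congr rfl fun a _ => hn (Sum.inr a),
        Finset.sum_add_distrib, Finset.sum_add_distrib, ← Finset.mul_sum, ← Finset.mul_sum,
        Finset.sum_comm (f := fun j l => S.ψ j l * s' l),
        Finset.sum_comm (f := fun a l => S.χ (Sum.inr a) l * s' l)]
      have h1 : ∀ l, (∑ j, S.ψ j - ∑ a, S.χ (Sum.inr a)) l * s' l =
          ∑ j, S.ψ j l * s' l - ∑ a, S.χ (Sum.inr a) l * s' l := by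
        intro l
        rw [Pi.sub_apply, Finset.sum_apply, Finset.sum_apply, sub_mul, Finset.sum_mul,
          Finset.sum_mul]
      rw [Finset.sum_congr rfl fun l _ => h1 l, Finset.sum_sub_distrib]
      ring)
    N₁ e hN₁e Z hZp hZf
    (fun l hl => by
      rw [← hβJ]
      exact (hZG (jd S.f) _ hhJ S.jac βJ hlJ l (by omega)).1 (by omega))
    (by
      rw [← hβJ]
      exact (hZG (jd S.f) _ hhJ S.jac βJ hlJ e (by omega)).2 he)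
    x₀ hx₀ (fun P hP => hx₀J _ (hZJ P hP)) N₁
  rw [← hβJ] at hδJ
  -- the prime ideal of the arc
  have hP₀ : (RingHom.ker (evJ N₁ δ : Jet (Ix m h c) N₁ k →ₐ[k] k)).IsPrime :=
    RingHom.ker_isPrime _
  have hZP₀ : Z ≤ RingHom.ker (evJ N₁ δ : Jet (Ix m h c) N₁ k →ₐ[k] k) := by
    intro P hP
    rw [RingHom.mem_ker]
    exact (evJ_res N₁ x₀ δ hδx P).trans (hx₀J _ (hZJ P hP))
  have hδ0 : ∀ i, PowerSeries.constantCoeff (δ i) = x₀ i := by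
    intro i
    have h1 := hδx i
    rw [PowerSeries.X_pow_dvd_iff] at h1
    have h2 := h1 0 (Nat.succ_pos _)
    rwa [PowerSeries.coeff_zero_eq_constantCoeff_apply, map_sub,
      PowerSeries.constantCoeff_C, sub_eq_zero] at h2
  have hev0 : ∀ P : MvPolynomial (Ix m h c) k, IsWeightedHomogeneous S.χ P 0 →
      evJ N₁ δ (coJ N₁ R 0 P 0) = aeval x₀ P := by
    intro P hP
    rw [evJ_coJ N₁ R 0 P δ 0 (Nat.zero_le _), PowerSeries.coeff_zero_eq_constantCoeff_apply]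
    refine const_deg0 R n M hM P (fun d hd => ?_) x₀ hx₀ δ hδ0
    rw [hw_hom S.χ R n M s' hn P 0 hP 0 d hd]
    simp
  -- the prime ideal `T₁`
  choose Pg hPg using fun i => S.rep A hG (g i)
  have hg𝔪 : ∀ i, g i ∈ 𝔪 := fun i =>
    hmin.1.2 (le_sup_right (a := q) (Ideal.subset_span ⟨i, rfl⟩))
  obtain ⟨n₁, hn₁⟩ : ∃ n₁ : ℕ, (n₁ : ℤ) = (m + 1 + h) * (N₁ + 1) - aH - d := by
    refine ⟨((m + 1 + h) * (N₁ + 1) - aH - d : ℤ).toNat, Int.toNat_of_nonneg ?_⟩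
    have h1 : (0 : ℤ) ≤ (m + h) * (N₁ + 1) := by positivity
    linarith
  obtain ⟨T₁, hT₁, hZT₁, hT₁P, hgT₁, hTD₁⟩ := krullS d Z
    (RingHom.ker (evJ N₁ δ : Jet (Ix m h c) N₁ k →ₐ[k] k)) hZp hP₀ hZP₀
    (fun i => coJ N₁ R 0 (Pg i) 0)
    (fun i => by
      rw [RingHom.mem_ker]
      exact (hev0 (Pg i) (hPg i).1).trans (hx₀m (Pg i) (g i) (hg𝔪 i) (hPg i)))
    n₁ (hZTD (n₁ + d) (by
      push_cast
      rw [hn₁]
      linarith))
  have hmax := tnMax S A hG q 𝔪 h𝔪 d g hmin v hv r N₁ Z T₁ hT₁ hZT₁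
    (fun P b hP hb => by
      rw [← hR]
      exact (hZ0 P hP.1 (by
        rw [hR]
        exact S.lowA A hG v hv.1 r P hP.1)).2 ((hJv' P b hP).2 ((hv.2 b).1 hb)))
    (fun i => ⟨Pg i, hPg i, by
      rw [← hR]
      exact hgT₁ i⟩)
    x₀ hx₀m
    (fun P hP hPT => by
      rw [← hR] at hPT
      have h1 := hT₁P hPT
      rw [RingHom.mem_ker] at h1
      exact (hev0 P hP).symm.trans h1)
  rw [← hR] at hmax
  -- the index `s`
  obtain ⟨s, hs⟩ : ∃ s, PowerSeries.coeff s (tev R βJ (jd S.f) δ) ≠ 0 := by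
    by_contra hcon
    push Not at hcon
    exact hδJ (PowerSeries.ext fun i => by rw [hcon i, map_zero])
  refine ⟨ω, s, hω, hωφ, max N₁ s, fun N hN => ?_⟩
  have hN1 : N₁ ≤ N := (le_max_left _ _).trans hN
  have hNs : s ≤ N := (le_max_right _ _).trans hN
  obtain ⟨T, hT, hTδ, hup, hTf, hTD⟩ := tm hN1 δ T₁ hT₁
    (fun g hg => by
      have h1 := hT₁P hg
      rwa [RingHom.mem_ker] at h1)
    (fun j l => coJ N R (β j) (S.f j) l)
    (fun j l _ hl => by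
      show evJ N δ (coJ N R (β j) (S.f j) l) = 0
      rw [evJ_coJ N R (β j) (S.f j) δ l hl, hδf j, map_zero])
    n₁ (n₁ + (m + 1 + h) * (N - N₁)) hTD₁ (by
      have h1 : Fintype.card (Ix m h c) = m + 1 + h + c := by
        rw [Fintype.card_sum, Fintype.card_sum, Fintype.card_fin, Fintype.card_fin,
          Fintype.card_fin]
      rw [h1]
      apply le_of_eq
      ring)
  refine ⟨T, hT, ?_, ?_, ?_, ?_, ?_⟩
  · intro n' hn'
    refine hTD.mono ?_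
    have h1 : ((n₁ + (m + 1 + h) * (N - N₁) : ℕ) : ℤ) = (m + 1 + h) * (N + 1) - aH - d := by
      push_cast [Nat.cast_sub hN1]
      rw [hn₁]
      ring
    have h2 : (n' : ℤ) ≤ ((n₁ + (m + 1 + h) * (N - N₁) : ℕ) : ℤ) := by
      rw [h1, haH]
      exact hn'
    exact_mod_cast h2
  · intro j l hl
    rcases le_or_gt l N₁ with h1 | h1
    · rw [← up_coJ hN1 R (β j) (S.f j) l h1]
      exact hup _ (hZT₁ (hZf j l h1))
    · exact hTf j l h1 hl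
  · refine ⟨s, le_rfl, fun hcon => hs ?_⟩
    rw [← evJ_coJ N R βJ (jd S.f) δ s hNs]
    exact hTδ _ hcon
  · intro a l hl
    have h1 := hN₁a a
    have h2 : l + e ≤ N₁ := by omega
    rw [← up_coJ hN1 R (βG a) (G a) l (by omega)]
    exact hup _ (hZT₁ ((hZG (G a) (ψG a) (hGh a) (hG0 a) (βG a) (hβG a) l h2).1 hl))
  · intro P b hb hP
    rw [← up_coJ hN1 R 0 P 0 (Nat.zero_le _)]
    exact hup _ (hmax P b hb hP)

end Pool.Agent.MLD.Cox
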