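import Pool.Agent.Lib.MP_f23696_ag.Y.ArcV
import Pool.Agent.Lib.MP_f23696_ag.Y.TN
import Pool.Agent.Lib.MP_f23696_ag.Y.GFin

/-!
Project COX, module Key: the fundamental inequality.

Write `r' = S.rv v r`.

Proof.  `𝔪 ≠ ⊥`: otherwise `q = ⊥` (`q ≤ 𝔪`, as `𝔪` is a minimal prime over `q ⊔ ..`), every
nonzero element of `A` has `v`-value `0` and by `hG.goodA.frac` so has every nonzero element of `K`,
which contradicts `v.exists_ord_eq_one`.

`S.f j ≠ 0` for all `j` (otherwise `jd f = 0`: a row of the matrix vanishes, contradicting `S.jac`);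
`exists_low` gives `β j` with `hβ`, `hβ'` for `r'`.  `gfin` (with `𝔪` prime) gives `n`, `μ`, `G a`
(`a < n`), `ψ`; `G a ≠ 0`, `exists_low` gives `βG a`.  `tN` gives `ω`, `ε`, `N₂` and the ideals.
Let `â = r (1 + j₀) + ω η - ∑ r' + ∑ β`, `a = â + d`.  Choose `N ≥ N₂` with `2 ε + 1 ≤ N`,
`a + ε ≤ N`, `(ω (aeval x (G a)) - βG a).toNat + ε ≤ N` for all `a < n`, and
`a ≤ (m + 1 + h) (N + 1)`; let `T` be the ideal for this `N`, and
`n' = ((m + 1 + h) (N + 1) - a).toNat`, so `TD T n'`.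
`arcT` gives `κ`, `D`, `e`, `s` (`s ≤ a + e`) and (*) for `l + ε ≤ N`.
`arcV` with `r'`, `hlow` = `lowA`; `h𝔪ρ` by (*) for `l = 0` and the last property of `T`:
`v'`, `q'`, `j'` with `q' (1 + j') ≤ s - e + ∑ r' - ∑ β - ω' η ≤ a + ∑ r' - ∑ β - ω' η
= r (1 + j₀) + d + ω η - ω' η`, where `ω' z = (D.ρ z).order`.
By (*) and the property of `T`: `coeff l (tev r' (βG a) (G a) y) = 0` for
`l < ω (aeval x (G a)) - βG a`; since `D.ρ (aeval x (G a)) = tz (βG a) * toL (tev .. y)`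
(`tev_laurent`, `D.ρ_x`) and it is not zero: `ω' (aeval x (G a)) ≥ ω (aeval x (G a))`
(`ge_toL`, `ge_iff`, or directly with coefficients).
The last property of `gfin` for `ω` (real valued): `ω (φ b) = r v(b) = 0` for `b ∈ A \ 𝔪` (`b ∉ q`,
so `v b = 0`; note `b ≠ 0`), and for `ω'`: `ω' (φ b) = q' v'(b) = 0`.  So
`ω' η + ∑ γ_g ω' (φ g) = ∑ μ_a ω' (G a (x)) ≥ ∑ μ_a ω (G a (x)) = ω η + ∑ γ_g ω (φ g)`, i.e.
`ω' η + q' v'.val γ ≥ ω η + r v.val γ`.  Together: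
`q' (1 + j') ≤ r (1 + j₀) + d + q' v'.val γ - r v.val γ`.
-/

set_option autoImplicit false

namespace Pool.Agent.MLD.Cox

open MvPolynomial
open scoped PowerSeries

universe u v w

/-- the value of a polynomial on a twisted arc -/
private theorem Key_A {k : Type u} {K : Type v} {L : Type w} [Field k] [Field K] [Field L]
    [Algebra k K] [Algebra k L] {m h c : ℕ} {S : Sys k K L m h c} {r' : Ix m h c → ℤ}
    {κ : Type u} [Field κ] [Algebra k κ] (D : ArcData S r' κ) (P : MvPolynomial (Ix m h c) k)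
    (β' : ℤ) (hP : Low r' β' P) :
    D.ρ (aeval S.x P) = tz κ β' * toL (tev r' β' P D.y) := by
  rw [← tev_laurent r' β' P hP D.y, ← AlgHom.comp_apply, comp_aeval]
  congr 2
  funext i
  exact D.ρ_x i

/-- the value of `γ` for a function on `L` proportional to a valuation on `K` -/
private theorem Key_val {k : Type u} {K : Type v} {L : Type w} [Field k] [Field K] [Field L]
    [Algebra k K] [Algebra k L] (φ : K →ₐ[k] L) (v : DVal k K) (ω : L → ℤ) (r : ℕ)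
    (hω : ∀ b : K, b ≠ 0 → ω (φ b) = r * v.ord b) (γ : Kˣ →₀ ℝ) :
    (γ.sum fun g c => c * ((ω (φ (g : K)) : ℤ) : ℝ)) = r * v.val γ := by
  unfold DVal.val
  rw [Finsupp.sum, Finsupp.sum, Finset.mul_sum]
  refine Finset.sum_congr rfl fun g _ => ?_
  rw [hω _ g.ne_zero]
  push_cast
  ring

theorem key {k : Type u} {K : Type v} {L : Type w} [Field k] [IsAlgClosed k] [CharZero k]
    [Field K] [Field L] [Algebra k K] [Algebra k L] {m h c : ℕ} (S : Sys k K L m h c)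
    (A : Subalgebra k K) (hG : Geo S A) (q 𝔪 : Ideal A) (h𝔪 : 𝔪.IsMaximal) (d : ℕ)
    (g : Fin d → A) (hmin : 𝔪 ∈ (q ⊔ Ideal.span (Set.range g)).minimalPrimes)
    (v : DVal k K) (hvd : v.IsDivisorial m) (hv : v.HasCenter A q) (j₀ : ℤ)
    (hj : v.FormOrd S.D j₀) (δ : Ideal A →₀ ℝ) (hδ : ∀ p, 0 ≤ δ p) (γ : Kˣ →₀ ℝ)
    (hγ : IsLocalEq A S.D δ 𝔪 γ) (r : ℕ) (hr : 1 ≤ r) :
    ∃ (v' : DVal k K) (q' : ℕ) (j' : ℤ), 1 ≤ q' ∧ v'.IsDivisorial m ∧ v'.HasCenter A 𝔪 ∧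
      v'.FormOrd S.D j' ∧
      (q' : ℝ) * (1 + j' - v'.val γ) ≤ r * (1 + j₀ - v.val γ) + d := by
  classical
  have h𝔪p : 𝔪.IsPrime := h𝔪.isPrime
  have hq𝔪 : q ≤ 𝔪 := le_sup_left.trans hmin.1.2
  -- a valuation is zero outside of its centre
  have hval : ∀ (v₁ : DVal k K) (p : Ideal A), v₁.HasCenter A p → ∀ b : A, (b : K) ≠ 0 → b ∉ p →
      v₁.ord (b : K) = 0 := by
    intro v₁ p hv₁ b hb0 hbp
    have h1 : 0 ≤ v₁.ord (b : K) := hv₁.1 b hb0
    have h2 : ¬ 0 < v₁.ord (b : K) := fun h3 => hbp ((hv₁.2 b).2 fun _ => h3)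
    omega
  have hne0 : ∀ b : A, b ∉ 𝔪 → (b : K) ≠ 0 := by
    intro b hb h1
    apply hb
    have h2 : b = 0 := Subtype.ext h1
    rw [h2]
    exact 𝔪.zero_mem
  have h0 : 𝔪 ≠ ⊥ := by
    intro h0
    have hqb : q = ⊥ := le_bot_iff.1 (h0 ▸ hq𝔪)
    have h1 : ∀ a : A, (a : K) ≠ 0 → v.ord (a : K) = 0 := by
      intro a ha
      refine hval v q hv a ha ?_
      rw [hqb, Ideal.mem_bot]
      intro h4
      exact ha (by rw [h4]; rfl)
    obtain ⟨f, hf, hf1⟩ := v.exists_ord_eq_one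
    obtain ⟨a, b, hb, hab⟩ := hG.goodA.frac f
    have ha : (a : K) ≠ 0 := by
      intro h2
      rw [hab, h2, zero_div] at hf
      exact hf rfl
    have h2 : f * (b : K) = a := by rw [hab, div_mul_cancel₀ _ hb]
    have h3 := v.ord_mul f b hf hb
    rw [h2, h1 a ha, h1 b hb, hf1] at h3
    omega
  have hfj : ∀ j, S.f j ≠ 0 := by
    intro j h1
    apply S.jac
    have h2 : jd S.f = 0 := by
      unfold jd
      refine Matrix.det_eq_zero_of_row_eq_zero j fun a => ?_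
      rw [Matrix.of_apply, h1, map_zero]
    rw [h2, map_zero]
  choose β hβ hβ' using fun j => exists_low (S.rv v r) (hfj j)
  obtain ⟨n, μ, G, ψ, hμ, hGh, hG0, hGω⟩ := gfin S A hG δ hδ 𝔪 h𝔪p γ hγ
  have hGa : ∀ a, G a ≠ 0 := by
    intro a h1
    apply hG0 a
    rw [h1, map_zero]
  choose βG hβG hβG' using fun a => exists_low (S.rv v r) (hGa a)
  obtain ⟨ω, ε, hωm, hωφ, N₂, hT⟩ := tN S A hG q 𝔪 h𝔪 d g hmin v hvd hv j₀ hj r hr β hβ hβ'
    G ψ hGh hG0 βG hβG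
  obtain ⟨a', ha'⟩ : ∃ a' : ℤ,
      a' = (r * (1 + j₀) + ω S.η - ∑ i, S.rv v r i + ∑ j, β j) + d := ⟨_, rfl⟩
  obtain ⟨N, hNdef⟩ : ∃ N : ℕ, N = N₂ + (2 * ε + 1) + (a' + ε).toNat + a'.toNat +
      ∑ a, ((ω (aeval S.x (G a)) - βG a).toNat + ε) := ⟨_, rfl⟩
  have hNG : ∀ a, (ω (aeval S.x (G a)) - βG a).toNat + ε ≤ N := by
    intro a
    have h1 := Finset.single_le_sum (f := fun a => (ω (aeval S.x (G a)) - βG a).toNat + ε)
      (fun a _ => Nat.zero_le _) (Finset.mem_univ a)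
    have h2 : (ω (aeval S.x (G a)) - βG a).toNat + ε ≤
      ∑ a, ((ω (aeval S.x (G a)) - βG a).toNat + ε) := h1
    omega
  have hN1 : 2 * ε + 1 ≤ N := by omega
  have hN2 : a' + ε ≤ N := by
    have h1 : (a' + ε).toNat ≤ N := by omega
    omega
  have hN3 : a' ≤ (m + 1 + h) * (N + 1) := by
    have h1 : a'.toNat ≤ N := by omega
    have h2 : a' ≤ (N : ℤ) + 1 := by omega
    have h3 : (1 : ℤ) * ((N : ℤ) + 1) ≤ ((m : ℤ) + 1 + h) * (N + 1) :=
      mul_le_mul_of_nonneg_right (by omega) (by omega)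
    linarith
  obtain ⟨T, hTp, hTD, hTf, hTJ, hTG, hTm⟩ := hT N (by omega)
  obtain ⟨n', hn'⟩ : ∃ n' : ℕ, (n' : ℤ) = (m + 1 + h) * (N + 1) - a' :=
    ⟨((m + 1 + h) * (N + 1) - a' : ℤ).toNat, Int.toNat_of_nonneg (by linarith)⟩
  obtain ⟨κ, _, _, D, e, s, he0, he, hsa, hs, hstar⟩ := arcT S (S.rv v r) β hβ N T hTp hTf ε hTJ
    a' n' hn' (hTD n' (by rw [hn', ha']; linarith)) hN1 hN2
  obtain ⟨v', q', j', hq', hord, hv'd, hv'c, hj', hineq⟩ := arcV S A hG 𝔪 h𝔪 h0 (S.rv v r)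
    (fun P hP => S.lowA A hG v hv.1 r P hP) D β hβ e s he0 he hs (fun P b hb hP => by
      rw [← PowerSeries.coeff_zero_eq_constantCoeff_apply, hstar 0 P 0 (by omega)]
      exact hTm P b hb hP)
  refine ⟨v', q', j', hq', hv'd, hv'c, hj', ?_⟩
  have hinj : Function.Injective D.ρ := D.ρ.injective
  have hρ0 : ∀ z : L, z ≠ 0 → D.ρ z ≠ 0 := fun z hz h1 => hz (hinj (h1.trans (map_zero D.ρ).symm))
  -- the values of the polynomials `G a`
  have hge : ∀ a, ω (aeval S.x (G a)) ≤ (D.ρ (aeval S.x (G a))).order := by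
    intro a
    have h1 := Key_A D (G a) (βG a) (hβG a)
    have h2 : toL (tev (S.rv v r) (βG a) (G a) D.y) ≠ 0 := by
      intro h3
      rw [h3, mul_zero] at h1
      exact hρ0 _ (hG0 a) h1
    have h3 : Ge (((ω (aeval S.x (G a)) - βG a).toNat : ℕ) : ℤ)
        (toL (tev (S.rv v r) (βG a) (G a) D.y)) := by
      rw [ge_toL, PowerSeries.X_pow_dvd_iff]
      intro l hl
      have h4 := hNG a
      rw [hstar (βG a) (G a) l (by omega)]
      exact hTG a l (by omega)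
    have h4 := (ge_iff _ _ h2).1 h3
    rw [h1, order_tz_mul _ _ h2]
    omega
  have hω1 := hGω (fun z => ((ω z : ℤ) : ℝ)) (fun z z' hz hz' => by
      rw [hωm z z' hz hz']
      push_cast
      rfl) (fun b hb => by
      have h1 := hval v q hv b (hne0 b hb) fun h2 => hb (hq𝔪 h2)
      rw [hωφ _ (hne0 b hb), h1, mul_zero, Int.cast_zero])
  have hω2 := hGω (fun z => (((D.ρ z).order : ℤ) : ℝ)) (fun z z' hz hz' => by
      rw [map_mul, order_mul' _ _ (hρ0 z hz) (hρ0 z' hz')]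
      push_cast
      rfl) (fun b hb => by
      have h1 := hval v' 𝔪 hv'c b (hne0 b hb) hb
      rw [hord _ (hne0 b hb), h1, mul_zero, Int.cast_zero])
  beta_reduce at hω1 hω2
  rw [Key_val S.φ v ω r hωφ γ] at hω1
  rw [Key_val S.φ v' (fun z => (D.ρ z).order) q' hord γ] at hω2
  have hsum : ∑ a, μ a * ((ω (aeval S.x (G a)) : ℤ) : ℝ) ≤
      ∑ a, μ a * (((D.ρ (aeval S.x (G a))).order : ℤ) : ℝ) := by
    refine Finset.sum_le_sum fun a _ => mul_le_mul_of_nonneg_left ?_ (hμ a)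
    exact_mod_cast hge a
  have h1 : (q' : ℤ) * (1 + j') ≤ r * (1 + j₀) + ω S.η + d - (D.ρ S.η).order := by
    linarith
  have h2 : (q' : ℝ) * (1 + j') ≤ r * (1 + j₀) + ((ω S.η : ℤ) : ℝ) + d -
      (((D.ρ S.η).order : ℤ) : ℝ) := by
    exact_mod_cast h1
  have h3 : (q' : ℝ) * (1 + j' - v'.val γ) = q' * (1 + j') - q' * v'.val γ := by ring
  have h4 : (r : ℝ) * (1 + j₀ - v.val γ) = r * (1 + j₀) - r * v.val γ := by ring
  rw [h3, h4]
  linarith

end Pool.Agent.MLD.Cox
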