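import Pool.Agent.Lib.MP_f23696_ag.Y.Td

/-!
Project COX, module Krull1: one equation lowers the transcendence degree by at most one.

Proof.  If `g ∈ I` take `Z = I` (`TD.mono`).  Let `g ∉ I`, `R = MvPolynomial σ k ⧸ I` (a finitely
generated `k`-algebra and a domain), `P'` the image of `P` in `R` (a prime ideal containing the
class `g'` of `g`).  Noether normalization (`exists_integral_inj_algHom_of_fg`): an injective
integral homomorphism `φ : S = MvPolynomial (Fin s) k →ₐ[k] R`.

(1) `n + 1 ≤ s`: by `TD I (n+1)` the ring `R` contains `n + 1` algebraically independent elements,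
and `R` is algebraic over `φ(S)`, so the images of the variables form a transcendence basis of `R`;
an algebraically independent family is not larger than a transcendence basis.

(2) Let `Q` be a minimal prime of `R` over `(g')` with `Q ≤ P'` (`Ideal.exists_minimalPrimes_le`).
By Krull's principal ideal theorem (`Ideal.height_le_one_of_isPrincipal_of_mem_minimalPrimes`)
`Q.height ≤ 1`.  Let `q = Q.comap φ`.  `S` is integrally closed, `R` is a domain and integral over
`S`, so `Algebra.HasGoingDown S R` (instance in Mathlib.RingTheory.IntegralClosure.GoingDown; use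
`φ.toRingHom.toAlgebra`); hence `q.height ≤ Q.height ≤ 1` (`Ideal.exists_ltSeries_of_hasGoingDown`
lifts chains of primes ending at `q` to chains ending at `Q`).

(3) `n` elements of `S` algebraically independent modulo `q`: if `q = ⊥`, the variables `X_0, ...,
X_(n-1)` (as `n ≤ s`).  Otherwise `q` contains a nonzero element, hence (`S` is factorial and `q`
is prime) a prime element `p`; `(p) ≠ ⊥` is prime and `(p) ≤ q`, `q.height ≤ 1`, so `q = (p)`.
`p` is not a constant, so some variable `X_i` occurs in `p` (`degreeOf i p > 0`).  The `s - 1 ≥ n`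
other variables are algebraically independent modulo `(p)`: if `F(X_j : j ≠ i) = p h` with
`F ≠ 0`, then `h ≠ 0` and `0 = degreeOf i (p h) = degreeOf i p + degreeOf i h > 0`, absurd.

(4) `Z` = preimage of `Q` in `MvPolynomial σ k`; lift the images under `φ` of the `n` elements of
(3) to `MvPolynomial σ k`: for `F ≠ 0`, `F(t) ∈ Z` iff `φ(F(..)) ∈ Q` iff `F(..) ∈ q`.
-/

set_option autoImplicit false

namespace Pool.Agent.MLD.Cox

open MvPolynomial

universe u v w

private theorem krull1_idx {k : Type u} [Field k] {s : ℕ} (n : ℕ) (hns : n + 1 ≤ s)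
    (q : Ideal (MvPolynomial (Fin s) k)) [hq : q.IsPrime]
    (h : ∀ q1 : Ideal (MvPolynomial (Fin s) k), q1.IsPrime → q1 ≠ ⊥ → ¬ q1 < q) :
    ∃ e : Fin n → Fin s, ∀ F : MvPolynomial (Fin n) k, F ≠ 0 → rename e F ∉ q := by
  classical
  by_cases hq0 : q = ⊥
  · have he : Function.Injective (Fin.castLE (show n ≤ s by omega)) := Fin.castLE_injective _
    refine ⟨Fin.castLE (by omega), fun F hF hmem => hF ?_⟩
    rw [hq0, Ideal.mem_bot] at hmem
    exact rename_injective _ he (by rw [hmem, map_zero])
  · obtain ⟨f, hfq, hf0⟩ := Submodule.exists_mem_ne_zero_of_ne_bot hq0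
    -- a prime element in `q`
    have hp : ∃ p ∈ q, Prime p := by
      have h1 : (UniqueFactorizationMonoid.factors f).prod ∈ q := by
        obtain ⟨u, hu⟩ := UniqueFactorizationMonoid.factors_prod hf0
        have h2 : (UniqueFactorizationMonoid.factors f).prod * (u : MvPolynomial (Fin s) k) ∈ q := by
          rw [hu]; exact hfq
        rcases hq.mem_or_mem h2 with h3 | h3
        · exact h3
        · exact absurd (Ideal.eq_top_of_isUnit_mem _ h3 u.isUnit) hq.ne_top
      obtain ⟨p, hp1, hp2⟩ := (hq.multiset_prod_mem_iff_exists_mem _).1 h1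
      exact ⟨p, hp2, UniqueFactorizationMonoid.prime_of_factor p hp1⟩
    obtain ⟨p, hpq, hp⟩ := hp
    have hspan : Ideal.span {p} = q := by
      have hle : Ideal.span {p} ≤ q := (Ideal.span_singleton_le_iff_mem _).2 hpq
      have hpr : (Ideal.span {p}).IsPrime := (Ideal.span_singleton_prime hp.ne_zero).2 hp
      have hne : Ideal.span {p} ≠ ⊥ := by
        rw [Ne, Ideal.span_singleton_eq_bot]
        exact hp.ne_zero
      by_contra hc
      exact h _ hpr hne (lt_of_le_of_ne hle hc)
    -- a variable of `p`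
    have hi : ∃ i, degreeOf i p ≠ 0 := by
      by_contra hc
      push Not at hc
      have h1 : p.totalDegree = 0 := by
        rw [totalDegree_eq_zero_iff]
        intro m hm x
        have h2 := degreeOf_le_iff.1 (hc x).le m hm
        exact Nat.le_zero.1 h2
      rw [totalDegree_eq_zero_iff_eq_C] at h1
      have h3 : coeff 0 p ≠ 0 := by
        intro h0
        apply hp.ne_zero
        rw [h1, h0, C_0]
      apply hp.not_isUnit
      rw [h1]
      exact (isUnit_iff_ne_zero.2 h3).map C
    obtain ⟨i, hi⟩ := hi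
    obtain ⟨s', rfl⟩ : ∃ s', s = s' + 1 := ⟨s - 1, by omega⟩
    refine ⟨fun j => i.succAbove (Fin.castLE (show n ≤ s' by omega) j), fun F hF hmem => ?_⟩
    have he : Function.Injective fun j : Fin n =>
        i.succAbove (Fin.castLE (show n ≤ s' by omega) j) :=
      (Fin.succAbove_right_injective).comp (Fin.castLE_injective _)
    rw [← hspan, Ideal.mem_span_singleton] at hmem
    obtain ⟨c, hc⟩ := hmem
    have hne : rename (fun j : Fin n => i.succAbove (Fin.castLE (show n ≤ s' by omega) j)) F ≠ 0 :=
      fun h0 => hF (rename_injective _ he (by rw [h0, map_zero]))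
    have hc0 : c ≠ 0 := by
      rintro rfl
      rw [mul_zero] at hc
      exact hne hc
    have hdeg := congrArg (degreeOf i) hc
    rw [degreeOf_mul_eq hp.ne_zero hc0] at hdeg
    have hz : degreeOf i
        (rename (fun j : Fin n => i.succAbove (Fin.castLE (show n ≤ s' by omega) j)) F) = 0 := by
      rw [degreeOf_def, Multiset.count_eq_zero]
      intro hmem
      have h2 : i ∈ (rename (fun j : Fin n =>
          i.succAbove (Fin.castLE (show n ≤ s' by omega) j)) F).vars := by
        rw [vars_def, Multiset.mem_toFinset]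
        exact hmem
      have h3 := vars_rename _ F h2
      rw [Finset.mem_image] at h3
      obtain ⟨j, -, hj⟩ := h3
      exact Fin.succAbove_ne _ _ hj
    omega

private theorem krull1_core {k : Type u} [Field k] {R : Type v} [CommRing R] [IsDomain R]
    [IsNoetherianRing R] [Algebra k R] [Algebra.FiniteType k R] (n : ℕ) (y : Fin (n + 1) → R)
    (hy : AlgebraicIndependent k y) (P' : Ideal R) [P'.IsPrime] (g' : R)
    (hgP : g' ∈ P') :
    ∃ Q : Ideal R, Q.IsPrime ∧ Q ≤ P' ∧ g' ∈ Q ∧
      ∃ z : Fin n → R, ∀ F : MvPolynomial (Fin n) k, F ≠ 0 → aeval z F ∉ Q := by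
  classical
  obtain ⟨s, φ, hinj, hint⟩ := exists_integral_inj_algHom_of_fg k R
  let _ : Algebra (MvPolynomial (Fin s) k) R := φ.toRingHom.toAlgebra
  have hφ : ∀ x, algebraMap (MvPolynomial (Fin s) k) R x = φ x := fun _ => rfl
  have : IsScalarTower k (MvPolynomial (Fin s) k) R :=
    IsScalarTower.of_algebraMap_eq fun x => by
      rw [hφ, MvPolynomial.algebraMap_eq]
      exact (φ.commutes x).symm
  have : FaithfulSMul (MvPolynomial (Fin s) k) R :=
    (faithfulSMul_iff_algebraMap_injective _ _).2 hinj
  have : Algebra.IsIntegral (MvPolynomial (Fin s) k) R := ⟨hint⟩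
  -- (1)
  have hns : n + 1 ≤ s := by
    have h1 : IsTranscendenceBasis k (algebraMap (MvPolynomial (Fin s) k) R ∘ X) :=
      (IsTranscendenceBasis.mvPolynomial (Fin s) k).algebraMap_comp
    have h2 := h1.lift_cardinalMk_eq_trdeg
    have h3 := hy.lift_cardinalMk_le_trdeg
    rw [← h2] at h3
    simpa using h3
  -- (2)
  obtain ⟨Q, hQmin, hQP⟩ := Ideal.exists_minimalPrimes_le
    (show Ideal.span {g'} ≤ P' from (Ideal.span_singleton_le_iff_mem _).2 hgP)
  have hQ : Q.IsPrime := hQmin.1.1
  have hgQ : g' ∈ Q := hQmin.1.2 (Ideal.mem_span_singleton_self g')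
  have hht : Q.height ≤ 1 := Ideal.height_le_one_of_isPrincipal_of_mem_minimalPrimes _ _ hQmin
  have hlow : ∀ q1 : Ideal (MvPolynomial (Fin s) k), q1.IsPrime → q1 ≠ ⊥ →
      ¬ q1 < Q.under (MvPolynomial (Fin s) k) := by
    intro q1 hq1 hq10 hlt
    have := hq1
    obtain ⟨Q1, hQ1, hQ1p, hQ1o⟩ := Ideal.exists_ideal_lt_liesOver_of_lt Q hlt
    have h1 : Q1 ≠ ⊥ := by
      rintro rfl
      apply hq10
      have h2 := hQ1o.over
      rw [h2, Ideal.under_def, ← RingHom.ker_eq_comap_bot]
      exact (RingHom.injective_iff_ker_eq_bot _).1 hinj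
    have h2 : (⊥ : Ideal R) < Q1 := bot_lt_iff_ne_bot.2 h1
    have h3 := Ideal.height_strict_mono_of_isPrime_of_isPrime h2
    have h4 := Ideal.height_strict_mono_of_isPrime_of_isPrime hQ1
    have h5 : Q1.height < 1 := lt_of_lt_of_le h4 hht
    rw [Order.lt_one_iff] at h5
    rw [h5] at h3
    exact not_lt_zero h3
  obtain ⟨e, he⟩ := krull1_idx n hns (Q.under (MvPolynomial (Fin s) k)) hlow
  refine ⟨Q, hQ, hQP, hgQ, fun j => φ (X (e j)), fun F hF hmem => he F hF ?_⟩
  rw [Ideal.under_def, Ideal.mem_comap, hφ]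
  have h0 : rename e F = aeval (fun j => (X (e j) : MvPolynomial (Fin s) k)) F := by
    have h2 := aeval_rename (R := k) e (X : Fin s → MvPolynomial (Fin s) k) F
    rw [aeval_X_left_apply] at h2
    exact h2
  have h1 : φ (rename e F) = aeval (fun j => φ (X (e j))) F := by
    rw [h0]
    exact comp_aeval_apply (fun j => (X (e j) : MvPolynomial (Fin s) k)) φ F
  rw [h1]
  exact hmem

theorem krull1 {k : Type u} [Field k] {σ : Type w} [Finite σ] (I P : Ideal (MvPolynomial σ k))
    (hI : I.IsPrime) (hP : P.IsPrime) (hIP : I ≤ P) (g : MvPolynomial σ k) (hg : g ∈ P) (n : ℕ)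
    (h : TD I (n + 1)) :
    ∃ Z : Ideal (MvPolynomial σ k), Z.IsPrime ∧ I ≤ Z ∧ Z ≤ P ∧ g ∈ Z ∧ TD Z n := by
  classical
  have := hI
  have := hP
  obtain ⟨t, ht⟩ := h
  have hker : RingHom.ker (Ideal.Quotient.mk I) ≤ P := by
    rw [Ideal.mk_ker]
    exact hIP
  have hP' : (P.map (Ideal.Quotient.mk I)).IsPrime :=
    Ideal.map_isPrime_of_surjective Ideal.Quotient.mk_surjective hker
  have hy : AlgebraicIndependent k fun i => Ideal.Quotient.mk I (t i) := by
    rw [algebraicIndependent_iff]
    intro F hF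
    by_contra hF0
    refine ht F hF0 ?_
    rw [← Ideal.Quotient.eq_zero_iff_mem, ← hF]
    exact comp_aeval_apply t (Ideal.Quotient.mkₐ k I) F
  obtain ⟨Q, hQ, hQP, hgQ, z, hz⟩ := krull1_core n (fun i => Ideal.Quotient.mk I (t i)) hy
    (P.map (Ideal.Quotient.mk I)) (Ideal.Quotient.mk I g)
    (Ideal.mem_map_of_mem _ hg)
  choose w hw using fun j => Ideal.Quotient.mk_surjective (I := I) (z j)
  have := hQ
  refine ⟨Q.comap (Ideal.Quotient.mk I), inferInstance, ?_, ?_, hgQ, w, fun F hF hmem =>
    hz F hF ?_⟩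
  · intro x hx
    rw [Ideal.mem_comap, Ideal.Quotient.eq_zero_iff_mem.2 hx]
    exact Q.zero_mem
  · calc Q.comap (Ideal.Quotient.mk I) ≤ (P.map (Ideal.Quotient.mk I)).comap
          (Ideal.Quotient.mk I) := Ideal.comap_mono hQP
      _ = P := by
        rw [Ideal.comap_map_of_surjective _ Ideal.Quotient.mk_surjective]
        exact sup_eq_left.2 (by rw [← RingHom.ker_eq_comap_bot]; exact hker)
  · rw [Ideal.mem_comap] at hmem
    have h1 : z = fun j => Ideal.Quotient.mk I (w j) := funext fun j => (hw j).symm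
    rw [h1]
    have h2 : aeval (fun j => Ideal.Quotient.mk I (w j)) F = Ideal.Quotient.mk I (aeval w F) :=
      (comp_aeval_apply w (Ideal.Quotient.mkₐ k I) F).symm
    rw [h2]
    exact hmem

end Pool.Agent.MLD.Cox
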