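import Pool.Agent.Lib.MP_f23696_ag.Y.TwE

/-!
Project COX: the data of a graded complete intersection with a distinguished set of `c` variables
whose Jacobian determinant does not vanish.
-/

set_option autoImplicit false

namespace Pool.Agent.MLD.Cox

open MvPolynomial

universe u v w

/-- the index set of the first `m + 1 + h` variables, and of the log derivations -/
abbrev Ro (m h : ℕ) := Fin (m + 1) ⊕ Fin h

/-- the index set of all variables -/
abbrev Ix (m h c : ℕ) := Ro m h ⊕ Fin c

/-- A graded complete intersection `B = k[x] ⊆ L` with equations `f`, degrees `χ`, the field `K` of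
quotients of homogeneous elements of the same degree. -/
structure Sys (k : Type u) (K : Type v) (L : Type w) [Field k] [Field K] [Field L] [Algebra k K]
    [Algebra k L] (m h c : ℕ) where
  x : Ix m h c → L
  x_ne : ∀ i, x i ≠ 0
  gen : IntermediateField.adjoin k (Set.range x) = ⊤
  χ : Ix m h c → (Fin h → ℤ)
  f : Fin c → MvPolynomial (Ix m h c) k
  ψ : Fin c → (Fin h → ℤ)
  hom : ∀ j, IsWeightedHomogeneous χ (f j) (ψ j)
  ker : RingHom.ker (aeval x : MvPolynomial (Ix m h c) k →ₐ[k] L) = Ideal.span (Set.range f)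
  jac : aeval x (jd f) ≠ 0
  φ : K →ₐ[k] L
  deg0 : ∀ z : L, (∃ a : K, φ a = z) ↔ ∃ (β : Fin h → ℤ) (P Q : MvPolynomial (Ix m h c) k),
    IsWeightedHomogeneous χ P β ∧ IsWeightedHomogeneous χ Q β ∧ aeval x Q ≠ 0 ∧
    z = aeval x P / aeval x Q
  a : Fin h → Ix m h c → ℤ
  ha : ∀ l, ∑ i, a l i • χ i = Pi.single l 1
  trdeg : Algebra.trdeg k L = (m + 1 + h : ℕ)
  y : Fin (m + 1) → K
  hy : IsTranscendenceBasis k y
  D : Fin (m + 1) → Derivation k K K
  hD : ∀ i j, D i (y j) = if i = j then 1 else 0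

namespace Sys

variable {k : Type u} {K : Type v} {L : Type w} [Field k] [Field K] [Field L] [Algebra k K]
    [Algebra k L] {m h c : ℕ} (S : Sys k K L m h c)

/-- the monomials `s_l`, of degree `e_l` -/
noncomputable def s (l : Fin h) : L := ∏ i, S.x i ^ S.a l i

/-- `s^β` -/
noncomputable def sp (β : Fin h → ℤ) : L := ∏ l, S.s l ^ β l

/-- `z` is a quotient of homogeneous elements of `B`, of degree `β` -/
def IsHom (β : Fin h → ℤ) (z : L) : Prop :=
  ∃ (β₁ β₂ : Fin h → ℤ) (P Q : MvPolynomial (Ix m h c) k), IsWeightedHomogeneous S.χ P β₁ ∧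
    IsWeightedHomogeneous S.χ Q β₂ ∧ β₁ - β₂ = β ∧ aeval S.x Q ≠ 0 ∧
    z = aeval S.x P / aeval S.x Q

/-- the degree of the Jacobian determinant -/
def βJ (β : Fin c → ℤ) (r : Ix m h c → ℤ) : ℤ := ∑ j, β j - ∑ a, r (Sum.inr a)

end Sys

end Pool.Agent.MLD.Cox
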