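import Pool.Agent.Lib.MP_f23696_ag.Y.Sys

/-!
Project COX, module SysA: first properties of a graded complete intersection.

* `s_ne`, `sp_ne`, `sp_zero`, `sp_add`, `sp_single`: clear (`zpow`).
* `ex_ξ`: `x i * sp (-χ i)` is a Laurent monomial in the `x`, hence a quotient of two monomials
  `P, Q` in the `x`; their degrees are equal, since the degree of `s l` is `e_l` (`S.ha`), so the
  degree of `sp (-χ i)` is `- χ i`; use `S.deg0`.
* `homK`: the ideal `span (range f)` is generated by homogeneous elements: if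
  `P = ∑ g_j f_j`, the component of degree `β` of `P` is `∑ (component of degree β - ψ_j of g_j) f_j`.
* `hom_sum`: if finitely many elements `z β` of `L`, `z β` a quotient of homogeneous elements with
  difference of degrees `β`, have sum zero, all are zero: multiply by the product `Q` of all
  denominators (homogeneous, `Q(x) ≠ 0`); the numerators become homogeneous polynomials `P_β` of
  distinct degrees with `∑ P_β(x) = 0`, so `∑ P_β` is in the kernel and `homK` gives `P_β(x) = 0`.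
* `isHom_K`: `S.deg0` (one direction: `β₁ = β₂`).
* `isHom_poly`, `isHom_mul`, `isHom_inv`, `isHom_x`, `isHom_s`, `isHom_sp`: clear.
* `isHom_iff`: `z = sp β * φ a`: `z / sp β` is homogeneous of degree `0`.
-/

set_option autoImplicit false

namespace Pool.Agent.MLD.Cox.Sys

open MvPolynomial

universe u v w

variable {k : Type u} {K : Type v} {L : Type w} [Field k] [Field K] [Field L] [Algebra k K]
    [Algebra k L] {m h c : ℕ} (S : Sys k K L m h c)

theorem s_ne (l : Fin h) : S.s l ≠ 0 :=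
  Finset.prod_ne_zero_iff.2 fun i _ => zpow_ne_zero _ (S.x_ne i)

theorem sp_ne (β : Fin h → ℤ) : S.sp β ≠ 0 :=
  Finset.prod_ne_zero_iff.2 fun l _ => zpow_ne_zero _ (S.s_ne l)

theorem sp_zero : S.sp 0 = 1 := by
  simp [sp]

theorem sp_add (β β' : Fin h → ℤ) : S.sp (β + β') = S.sp β * S.sp β' := by
  unfold sp
  rw [← Finset.prod_mul_distrib]
  exact Finset.prod_congr rfl fun l _ => by rw [Pi.add_apply, zpow_add₀ (S.s_ne l)]

theorem sp_neg (β : Fin h → ℤ) : S.sp (-β) = (S.sp β)⁻¹ := by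
  unfold sp
  rw [← Finset.prod_inv_distrib]
  exact Finset.prod_congr rfl fun l _ => by rw [Pi.neg_apply, zpow_neg]

theorem sp_zsmul (n : ℤ) (β : Fin h → ℤ) : S.sp (n • β) = S.sp β ^ n := by
  unfold sp
  rw [← Finset.prod_zpow]
  exact Finset.prod_congr rfl fun l _ => by
    rw [Pi.smul_apply, smul_eq_mul, mul_comm, zpow_mul]

theorem sp_sum {ι : Type*} (T : Finset ι) (β : ι → Fin h → ℤ) :
    S.sp (∑ i ∈ T, β i) = ∏ i ∈ T, S.sp (β i) := by
  classical
  induction T using Finset.induction_on with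
  | empty => simp [sp_zero]
  | insert a T ha ih => rw [Finset.sum_insert ha, Finset.prod_insert ha, sp_add, ih]

theorem sp_single_one (l : Fin h) : S.sp (Pi.single l 1) = S.s l := by
  unfold sp
  rw [Finset.prod_eq_single l]
  · simp
  · intro b _ hb
    simp [Pi.single_eq_of_ne hb]
  · intro hl
    exact absurd (Finset.mem_univ l) hl

theorem isHom_congr {β β' : Fin h → ℤ} {z : L} (hz : S.IsHom β z) (hb : β = β') :
    S.IsHom β' z := hb ▸ hz

theorem isHom_poly (P : MvPolynomial (Ix m h c) k) (β : Fin h → ℤ)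
    (hP : IsWeightedHomogeneous S.χ P β) : S.IsHom β (aeval S.x P) :=
  ⟨β, 0, P, 1, hP, isWeightedHomogeneous_one k S.χ, by simp, by simp, by simp⟩

theorem isHom_mul {β β' : Fin h → ℤ} {z z' : L} (hz : S.IsHom β z) (hz' : S.IsHom β' z') :
    S.IsHom (β + β') (z * z') := by
  obtain ⟨β₁, β₂, P, Q, hP, hQ, hb, hQ0, hzz⟩ := hz
  obtain ⟨β₁', β₂', P', Q', hP', hQ', hb', hQ0', hzz'⟩ := hz'
  refine ⟨β₁ + β₁', β₂ + β₂', P * P', Q * Q', hP.mul hP', hQ.mul hQ', ?_, ?_, ?_⟩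
  · rw [← hb, ← hb']; abel
  · rw [map_mul]; exact mul_ne_zero hQ0 hQ0'
  · rw [map_mul, map_mul, hzz, hzz', div_mul_div_comm]

theorem isHom_zero (β : Fin h → ℤ) : S.IsHom β (0 : L) :=
  ⟨β, 0, 0, 1, isWeightedHomogeneous_zero k S.χ β, isWeightedHomogeneous_one k S.χ, by simp,
    by simp, by simp⟩

theorem isHom_inv {β : Fin h → ℤ} {z : L} (hz : S.IsHom β z) : S.IsHom (-β) z⁻¹ := by
  obtain ⟨β₁, β₂, P, Q, hP, hQ, hb, hQ0, hzz⟩ := hz
  by_cases h0 : aeval S.x P = 0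
  · rw [hzz, h0, zero_div, inv_zero]
    exact S.isHom_zero _
  · refine ⟨β₂, β₁, Q, P, hQ, hP, ?_, h0, ?_⟩
    · rw [← hb]; abel
    · rw [hzz, inv_div]

theorem isHom_one : S.IsHom 0 (1 : L) := by
  have := S.isHom_poly 1 0 (isWeightedHomogeneous_one k S.χ)
  rwa [map_one] at this

theorem isHom_x (i : Ix m h c) : S.IsHom (S.χ i) (S.x i) := by
  have := S.isHom_poly (X i) (S.χ i) (isWeightedHomogeneous_X k S.χ i)
  rwa [aeval_X] at this

theorem isHom_pow {β : Fin h → ℤ} {z : L} (hz : S.IsHom β z) (n : ℕ) :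
    S.IsHom (n • β) (z ^ n) := by
  induction n with
  | zero => rw [zero_smul, pow_zero]; exact S.isHom_one
  | succ n ih => rw [succ_nsmul, pow_succ]; exact S.isHom_mul ih hz

theorem isHom_zpow {β : Fin h → ℤ} {z : L} (hz : S.IsHom β z) (n : ℤ) :
    S.IsHom (n • β) (z ^ n) := by
  obtain ⟨n, rfl | rfl⟩ := n.eq_nat_or_neg
  · rw [natCast_zsmul, zpow_natCast]; exact S.isHom_pow hz n
  · rw [neg_smul, natCast_zsmul, zpow_neg, zpow_natCast]; exact S.isHom_inv (S.isHom_pow hz n)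

theorem isHom_prod {ι : Type*} (T : Finset ι) (β : ι → Fin h → ℤ) (z : ι → L)
    (hz : ∀ i ∈ T, S.IsHom (β i) (z i)) : S.IsHom (∑ i ∈ T, β i) (∏ i ∈ T, z i) := by
  classical
  induction T using Finset.induction_on with
  | empty => simpa using S.isHom_one
  | insert a T ha ih =>
    rw [Finset.sum_insert ha, Finset.prod_insert ha]
    exact S.isHom_mul (hz a (Finset.mem_insert_self a T))
      (ih fun i hi => hz i (Finset.mem_insert_of_mem hi))

theorem isHom_s (l : Fin h) : S.IsHom (Pi.single l 1) (S.s l) := by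
  rw [← S.ha l]
  exact S.isHom_prod Finset.univ _ _ fun i _ => S.isHom_zpow (S.isHom_x i) (S.a l i)

theorem isHom_sp (β : Fin h → ℤ) : S.IsHom β (S.sp β) := by
  have h1 : S.IsHom (∑ l, β l • (Pi.single l (1 : ℤ) : Fin h → ℤ)) (S.sp β) :=
    S.isHom_prod Finset.univ _ _ fun l _ => S.isHom_zpow (S.isHom_s l) (β l)
  refine S.isHom_congr h1 ?_
  ext j
  rw [Finset.sum_apply, Finset.sum_eq_single j]
  · simp
  · intro b _ hb
    simp [Pi.single_eq_of_ne hb.symm]
  · intro hj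
    exact absurd (Finset.mem_univ j) hj

theorem isHom_φ (b : K) : S.IsHom 0 (S.φ b) := by
  obtain ⟨β, P, Q, hP, hQ, hQ0, hz⟩ := (S.deg0 (S.φ b)).1 ⟨b, rfl⟩
  exact ⟨β, β, P, Q, hP, hQ, sub_self β, hQ0, hz⟩

theorem ex_of_isHom_zero {z : L} (hz : S.IsHom 0 z) : ∃ b : K, S.φ b = z := by
  obtain ⟨β₁, β₂, P, Q, hP, hQ, hb, hQ0, hzz⟩ := hz
  have hbb : β₁ = β₂ := sub_eq_zero.1 hb
  subst hbb
  exact (S.deg0 z).2 ⟨β₁, P, Q, hP, hQ, hQ0, hzz⟩

theorem ex_ξ (i : Ix m h c) : ∃ b : K, S.φ b = S.x i * S.sp (-(S.χ i)) := by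
  refine S.ex_of_isHom_zero ?_
  exact S.isHom_congr (S.isHom_mul (S.isHom_x i) (S.isHom_sp (-(S.χ i)))) (add_neg_cancel _)

/-- `x_i = φ(ξ_i) s^(χ_i)` -/
noncomputable def ξ (i : Ix m h c) : K := (S.ex_ξ i).choose

theorem φ_ξ (i : Ix m h c) : S.φ (S.ξ i) = S.x i * S.sp (-(S.χ i)) := (S.ex_ξ i).choose_spec

theorem ξ_ne (i : Ix m h c) : S.ξ i ≠ 0 := by
  intro h0
  have h1 := S.φ_ξ i
  rw [h0, map_zero] at h1
  exact mul_ne_zero (S.x_ne i) (S.sp_ne _) h1.symm

theorem x_eq (i : Ix m h c) : S.x i = S.φ (S.ξ i) * S.sp (S.χ i) := by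
  rw [S.φ_ξ, sp_neg, inv_mul_cancel_right₀ (S.sp_ne _)]

/-- the elements `s_l` in terms of the `ξ`: `∏ ξ_i^(a l i) = 1` -/
theorem prod_ξ (l : Fin h) : ∏ i, S.ξ i ^ S.a l i = 1 := by
  apply (S.φ : K →+* L).injective
  rw [map_one, map_prod]
  have h1 : ∀ i, (S.φ : K →+* L) (S.ξ i ^ S.a l i) =
      S.x i ^ S.a l i * (S.sp (S.a l i • S.χ i))⁻¹ := by
    intro i
    rw [map_zpow₀]
    change S.φ (S.ξ i) ^ S.a l i = _
    rw [S.φ_ξ, mul_zpow, sp_zsmul, sp_neg, inv_zpow]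
  rw [Finset.prod_congr rfl fun i _ => h1 i, Finset.prod_mul_distrib, Finset.prod_inv_distrib,
    ← sp_sum, S.ha l, sp_single_one]
  exact mul_inv_cancel₀ (S.s_ne l)

theorem homK (P : MvPolynomial (Ix m h c) k) (hP : aeval S.x P = 0) (β : Fin h → ℤ) :
    aeval S.x (weightedHomogeneousComponent S.χ β P) = 0 := by
  let _inst : GradedAlgebra (weightedHomogeneousSubmodule k S.χ) := weightedGradedAlgebra k S.χ
  have hI : (Ideal.span (Set.range S.f)).IsHomogeneous (weightedHomogeneousSubmodule k S.χ) := by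
    refine Ideal.homogeneous_span _ _ ?_
    rintro _ ⟨j, rfl⟩
    exact ⟨S.ψ j, (mem_weightedHomogeneousSubmodule k S.χ (S.ψ j) (S.f j)).2 (S.hom j)⟩
  have h1 : P ∈ Ideal.span (Set.range S.f) := by
    rw [← S.ker]
    exact (RingHom.mem_ker).2 hP
  have h2 := weightedHomogeneousComponent_mem_of_mem k S.χ hI h1 β
  rw [← S.ker] at h2
  exact (RingHom.mem_ker).1 h2

theorem isHom_iff (β : Fin h → ℤ) (z : L) : S.IsHom β z ↔ ∃ b : K, z = S.sp β * S.φ b := by
  constructor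
  · intro hz
    obtain ⟨b, hb⟩ := S.ex_of_isHom_zero
      (S.isHom_congr (S.isHom_mul (S.isHom_sp (-β)) hz) (neg_add_cancel β))
    refine ⟨b, ?_⟩
    rw [hb, sp_neg, mul_inv_cancel_left₀ (S.sp_ne β)]
  · rintro ⟨b, rfl⟩
    exact S.isHom_congr (S.isHom_mul (S.isHom_sp β) (S.isHom_φ b)) (add_zero β)

theorem hom_sum (T : Finset (Fin h → ℤ)) (z : (Fin h → ℤ) → L) (hz : ∀ β ∈ T, S.IsHom β (z β))
    (h0 : ∑ β ∈ T, z β = 0) : ∀ β ∈ T, z β = 0 := by
  classical
  have hz' : ∀ β : Fin h → ℤ, ∃ (β₁ β₂ : Fin h → ℤ) (P Q : MvPolynomial (Ix m h c) k), β ∈ T →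
      (IsWeightedHomogeneous S.χ P β₁ ∧ IsWeightedHomogeneous S.χ Q β₂ ∧ β₁ - β₂ = β ∧
        aeval S.x Q ≠ 0 ∧ z β = aeval S.x P / aeval S.x Q) := by
    intro β
    by_cases hβ : β ∈ T
    · obtain ⟨β₁, β₂, P, Q, h1⟩ := hz β hβ
      exact ⟨β₁, β₂, P, Q, fun _ => h1⟩
    · exact ⟨0, 0, 0, 0, fun h1 => absurd h1 hβ⟩
  choose b1 b2 P Q hPQ using hz'
  set D : Fin h → ℤ := ∑ β ∈ T, b2 β with hD
  set R : (Fin h → ℤ) → MvPolynomial (Ix m h c) k := fun β => P β * ∏ γ ∈ T.erase β, Q γ with hR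
  have hRh : ∀ β ∈ T, IsWeightedHomogeneous S.χ (R β) (β + D) := by
    intro β hβ
    have h1 : IsWeightedHomogeneous S.χ (∏ γ ∈ T.erase β, Q γ) (∑ γ ∈ T.erase β, b2 γ) :=
      IsWeightedHomogeneous.prod _ _ _ fun γ hγ => (hPQ γ (Finset.mem_of_mem_erase hγ)).2.1
    have h2 := (hPQ β hβ).1.mul h1
    have h3 : b1 β + ∑ γ ∈ T.erase β, b2 γ = β + D := by
      rw [hD, ← Finset.add_sum_erase T b2 hβ, ← add_assoc]
      congr 1
      exact sub_eq_iff_eq_add.1 (hPQ β hβ).2.2.1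
    rw [← h3]
    exact h2
  have hQT : aeval S.x (∏ γ ∈ T, Q γ) ≠ 0 := by
    rw [map_prod]
    exact Finset.prod_ne_zero_iff.2 fun γ hγ => (hPQ γ hγ).2.2.2.1
  have hRz : ∀ β ∈ T, aeval S.x (R β) = z β * aeval S.x (∏ γ ∈ T, Q γ) := by
    intro β hβ
    have hq := (hPQ β hβ).2.2.2.1
    have hr : R β = P β * ∏ γ ∈ T.erase β, Q γ := rfl
    rw [← Finset.mul_prod_erase T Q hβ, hr, map_mul, map_mul, (hPQ β hβ).2.2.2.2, ← mul_assoc,
      div_mul_cancel₀ _ hq]
  have hsum : aeval S.x (∑ β ∈ T, R β) = 0 := by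
    rw [map_sum, Finset.sum_congr rfl hRz, ← Finset.sum_mul, h0, zero_mul]
  intro β hβ
  have h1 := S.homK _ hsum (β + D)
  rw [map_sum, Finset.sum_eq_single β] at h1
  · rw [weightedHomogeneousComponent_eq_self (hRh β hβ), hRz β hβ] at h1
    exact (mul_eq_zero.1 h1).resolve_right hQT
  · intro γ hγ hne
    exact (hRh γ hγ).weightedHomogeneousComponent_ne _ fun he => hne (add_right_cancel he).symm
  · intro hn
    exact absurd hβ hn

/-- the `s_l` are algebraically independent over `K` -/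
theorem ind_s (G : MvPolynomial (Fin h) K) (hG : G ≠ 0) :
    eval₂ (S.φ : K →+* L) S.s G ≠ 0 := by
  classical
  intro h0
  set e : (Fin h →₀ ℕ) → (Fin h → ℤ) := fun d l => (d l : ℤ) with he
  have hinj : Function.Injective e := by
    intro d d' hdd
    ext l
    have h3 : (d l : ℤ) = (d' l : ℤ) := congrFun hdd l
    exact_mod_cast h3
  set z : (Fin h → ℤ) → L := fun β =>
    S.sp β * S.φ (coeff (Finsupp.equivFunOnFinite.symm fun l => (β l).toNat) G) with hz
  have hze : ∀ d, z (e d) = S.sp (e d) * S.φ (coeff d G) := by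
    intro d
    have h3 : (Finsupp.equivFunOnFinite.symm fun l => (e d l).toNat) = d := by
      ext l
      simp [he]
    change S.sp (e d) * S.φ (coeff (Finsupp.equivFunOnFinite.symm fun l => (e d l).toNat) G) = _
    rw [h3]
  have hsum : ∑ β ∈ G.support.image e, z β = 0 := by
    rw [Finset.sum_image fun d _ d' _ hdd => hinj hdd, ← h0, eval₂_eq']
    refine Finset.sum_congr rfl fun d _ => ?_
    rw [hze, mul_comm]
    congr 1
    unfold sp
    exact Finset.prod_congr rfl fun l _ => by rw [he]; exact zpow_natCast _ _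
  obtain ⟨d, hd⟩ := support_nonempty.2 hG
  have h1 := S.hom_sum (G.support.image e) z
    (fun β _ => (S.isHom_iff β _).2 ⟨_, rfl⟩) hsum (e d) (Finset.mem_image_of_mem e hd)
  rw [hze] at h1
  have h2 := (mul_eq_zero.1 h1).resolve_left (S.sp_ne _)
  exact (mem_support_iff.1 hd) ((map_eq_zero_iff _ (S.φ : K →+* L).injective).1 h2)

end Pool.Agent.MLD.Cox.Sys
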