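import Pool.Agent.Lib.MP_f23696_ag.Y.TNa

/-!
Project COX, module TNb: the functions of degree zero in the maximal ideal.

Proof.  For `b : A` choose `P_b` homogeneous of degree `0` with `φ b = aeval x P_b` (`rep`).
(1) Independence: if `P`, `P'` are homogeneous of degree `0` and `aeval x P = aeval x P'`, then
`P - P'` represents `0`, so `coJ N r' 0 (P - P') 0 ∈ Z` (`hZ`, `0 ∈ q`); by `tev_sub`
`coJ N r' 0 P 0 - coJ N r' 0 P' 0 ∈ Z ≤ T`.
(2) The map `θ : A → Jet / T`, `b ↦ class of coJ N r' 0 P_b 0`, is a ring homomorphism: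
`P_b + P_b'`, `P_b * P_b'`, `1`, `0` represent `b + b'`, `b b'`, `1`, `0`;
`coJ N r' 0 (P + P') 0 = sum` (`tev_add`), `coJ N r' 0 (P * P') 0 = product` (`tev_mul` with
`β = β' = 0`, `lowA`; the constant coefficient of a product), `coJ N r' 0 1 0 = 1` (`tev_one`).
Its kernel `𝔞` is a prime ideal of `A`.
(3) `q ≤ 𝔞` (`hZ` and `Z ≤ T`); `g i ∈ 𝔞` by `hg`.
(4) `𝔞 ≤ 𝔪`: let `b ∈ 𝔞`, so `coJ N r' 0 P_b 0 ∈ T`, and `hc` gives `aeval x₀ P_b = 0`.  If `b ∉ 𝔪`,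
there is `b'` with `b b' - 1 ∈ 𝔪` (`𝔪` maximal), and `P_b * P_b' - 1` represents it, so `hx₀` gives
`aeval x₀ P_b * aeval x₀ P_b' = 1`, a contradiction.
(5) `𝔪` is a minimal prime over `q ⊔ span (range g)`, so `𝔞 = 𝔪`.
-/

set_option autoImplicit false

namespace Pool.Agent.MLD.Cox

open MvPolynomial
open scoped PowerSeries

universe u v w

section

variable {k : Type u} {K : Type v} {L : Type w} [Field k] [Field K] [Field L] [Algebra k K]
    [Algebra k L] {m h c : ℕ} (S : Sys k K L m h c)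

private theorem TNb_rep_zero : S.Rep (0 : MvPolynomial (Ix m h c) k) 0 :=
  ⟨isWeightedHomogeneous_zero k S.χ 0, by rw [map_zero, map_zero]⟩

private theorem TNb_rep_one : S.Rep (1 : MvPolynomial (Ix m h c) k) 1 :=
  ⟨isWeightedHomogeneous_one k S.χ, by rw [map_one, map_one]⟩

private theorem TNb_rep_add {P P' : MvPolynomial (Ix m h c) k} {b b' : K} (hP : S.Rep P b)
    (hP' : S.Rep P' b') : S.Rep (P + P') (b + b') :=
  ⟨hP.1.add hP'.1, by rw [map_add, map_add, hP.2, hP'.2]⟩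

private theorem TNb_rep_sub {P P' : MvPolynomial (Ix m h c) k} {b b' : K} (hP : S.Rep P b)
    (hP' : S.Rep P' b') : S.Rep (P - P') (b - b') :=
  ⟨Submodule.sub_mem (weightedHomogeneousSubmodule k S.χ 0) hP.1 hP'.1, by
    rw [map_sub, map_sub, hP.2, hP'.2]⟩

private theorem TNb_rep_mul {P P' : MvPolynomial (Ix m h c) k} {b b' : K} (hP : S.Rep P b)
    (hP' : S.Rep P' b') : S.Rep (P * P') (b * b') :=
  ⟨by simpa using hP.1.mul hP'.1, by rw [map_mul, map_mul, hP.2, hP'.2]⟩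

end

section

variable {σ : Type w} [Fintype σ] {k : Type u} [Field k]

private theorem TNb_co_zero (N : ℕ) (r : σ → ℤ) :
    coJ N r 0 (0 : MvPolynomial σ k) 0 = 0 := by
  unfold coJ
  rw [tev_zero, map_zero]

private theorem TNb_co_one (N : ℕ) (r : σ → ℤ) :
    coJ N r 0 (1 : MvPolynomial σ k) 0 = 1 := by
  unfold coJ
  rw [tev_one, PowerSeries.coeff_zero_eq_constantCoeff_apply, map_one]

private theorem TNb_co_add (N : ℕ) (r : σ → ℤ) (P P' : MvPolynomial σ k) :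
    coJ N r 0 (P + P') 0 = coJ N r 0 P 0 + coJ N r 0 P' 0 := by
  unfold coJ
  rw [tev_add, map_add]

private theorem TNb_co_sub (N : ℕ) (r : σ → ℤ) (P P' : MvPolynomial σ k) :
    coJ N r 0 (P - P') 0 = coJ N r 0 P 0 - coJ N r 0 P' 0 := by
  unfold coJ
  rw [tev_sub, map_sub]

private theorem TNb_co_mul (N : ℕ) (r : σ → ℤ) {P P' : MvPolynomial σ k} (hP : Low r 0 P)
    (hP' : Low r 0 P') : coJ N r 0 (P * P') 0 = coJ N r 0 P 0 * coJ N r 0 P' 0 := by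
  have h1 := tev_mul hP hP' (uJ σ N k)
  rw [add_zero] at h1
  unfold coJ
  rw [h1]
  simp only [PowerSeries.coeff_zero_eq_constantCoeff_apply, map_mul]

end

theorem tnMax {k : Type u} {K : Type v} {L : Type w} [Field k] [Field K] [Field L] [Algebra k K]
    [Algebra k L] {m h c : ℕ} (S : Sys k K L m h c) (A : Subalgebra k K) (hG : Geo S A)
    (q 𝔪 : Ideal A) (h𝔪 : 𝔪.IsMaximal) (d : ℕ) (g : Fin d → A)
    (hmin : 𝔪 ∈ (q ⊔ Ideal.span (Set.range g)).minimalPrimes)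
    (v : DVal k K) (hv : v.HasCenter A q) (r : ℕ) (N : ℕ) (Z T : Ideal (Jet (Ix m h c) N k))
    (hT : T.IsPrime) (hZT : Z ≤ T)
    (hZ : ∀ (P : MvPolynomial (Ix m h c) k) (b : A), S.Rep P b → b ∈ q →
      coJ N (S.rv v r) 0 P 0 ∈ Z)
    (hg : ∀ i, ∃ P, S.Rep P (g i) ∧ coJ N (S.rv v r) 0 P 0 ∈ T) (x₀ : Ix m h c → k)
    (hx₀ : ∀ (P : MvPolynomial (Ix m h c) k) (b : A), b ∈ 𝔪 → S.Rep P b → aeval x₀ P = 0)
    (hc : ∀ P : MvPolynomial (Ix m h c) k, IsWeightedHomogeneous S.χ P 0 →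
      coJ N (S.rv v r) 0 P 0 ∈ T → aeval x₀ P = 0) :
    ∀ (P : MvPolynomial (Ix m h c) k) (b : A), b ∈ 𝔪 → S.Rep P b →
      coJ N (S.rv v r) 0 P 0 ∈ T := by
  -- independence of the representative
  have ind : ∀ (P P' : MvPolynomial (Ix m h c) k) (b : K), S.Rep P b → S.Rep P' b →
      coJ N (S.rv v r) 0 P' 0 ∈ T → coJ N (S.rv v r) 0 P 0 ∈ T := by
    intro P P' b hP hP' hT'
    have h1 : S.Rep (P - P') ((0 : A) : K) := by
      have := TNb_rep_sub S hP hP'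
      rwa [sub_self] at this
    have h2 := hZT (hZ (P - P') 0 h1 (Ideal.zero_mem q))
    rw [TNb_co_sub] at h2
    have := Ideal.add_mem T h2 hT'
    rwa [sub_add_cancel] at this
  have low : ∀ (P : MvPolynomial (Ix m h c) k) (b : K), S.Rep P b → Low (S.rv v r) 0 P :=
    fun P b hP => S.lowA A hG v hv.1 r P hP.1
  -- the ideal
  let 𝔞 : Ideal A :=
    { carrier := {b | ∃ P, S.Rep P (b : K) ∧ coJ N (S.rv v r) 0 P 0 ∈ T}
      zero_mem' := ⟨0, TNb_rep_zero S, by rw [TNb_co_zero]; exact Ideal.zero_mem T⟩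
      add_mem' := by
        rintro b b' ⟨P, hP, hPT⟩ ⟨P', hP', hPT'⟩
        exact ⟨P + P', TNb_rep_add S hP hP', by
          rw [TNb_co_add]
          exact Ideal.add_mem T hPT hPT'⟩
      smul_mem' := by
        rintro a b ⟨P, hP, hPT⟩
        obtain ⟨Q, hQ⟩ := S.rep A hG a
        exact ⟨Q * P, TNb_rep_mul S hQ hP, by
          rw [TNb_co_mul N _ (low Q a hQ) (low P b hP)]
          exact Ideal.mul_mem_left T _ hPT⟩ }
  have hmem : ∀ b : A, b ∈ 𝔞 ↔ ∃ P, S.Rep P (b : K) ∧ coJ N (S.rv v r) 0 P 0 ∈ T :=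
    fun b => Iff.rfl
  have hprime : 𝔞.IsPrime := by
    refine ⟨fun htop => ?_, ?_⟩
    · have h1 : (1 : A) ∈ 𝔞 := by rw [htop]; exact Submodule.mem_top
      obtain ⟨P, hP, hPT⟩ := (hmem 1).1 h1
      have h2 := ind 1 P 1 (TNb_rep_one S) hP hPT
      rw [TNb_co_one] at h2
      exact hT.ne_top ((Ideal.eq_top_iff_one T).2 h2)
    · intro b b' hbb
      obtain ⟨P, hP, hPT⟩ := (hmem (b * b')).1 hbb
      obtain ⟨Q, hQ⟩ := S.rep A hG b
      obtain ⟨Q', hQ'⟩ := S.rep A hG b'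
      have h1 := ind (Q * Q') P ((b * b' : A) : K) (TNb_rep_mul S hQ hQ') hP hPT
      rw [TNb_co_mul N _ (low Q b hQ) (low Q' b' hQ')] at h1
      rcases hT.mem_or_mem h1 with h2 | h2
      · exact Or.inl ((hmem b).2 ⟨Q, hQ, h2⟩)
      · exact Or.inr ((hmem b').2 ⟨Q', hQ', h2⟩)
  have hle : q ⊔ Ideal.span (Set.range g) ≤ 𝔞 := by
    refine sup_le (fun b hb => ?_) (Ideal.span_le.2 ?_)
    · obtain ⟨Q, hQ⟩ := S.rep A hG b
      exact (hmem b).2 ⟨Q, hQ, hZT (hZ Q b hQ hb)⟩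
    · rintro _ ⟨i, rfl⟩
      exact (hmem _).2 (hg i)
  have h𝔞𝔪 : 𝔞 ≤ 𝔪 := by
    intro b hb
    by_contra hb𝔪
    obtain ⟨P, hP, hPT⟩ := (hmem b).1 hb
    have h0 := hc P hP.1 hPT
    obtain ⟨b', i, hi, hbi⟩ := h𝔪.exists_inv hb𝔪
    obtain ⟨Q, hQ⟩ := S.rep A hG b'
    have h1 : S.Rep (Q * P - 1) ((b' * b - 1 : A) : K) :=
      TNb_rep_sub S (TNb_rep_mul S hQ hP) (TNb_rep_one S)
    have h2 : b' * b - 1 ∈ 𝔪 := by
      have : b' * b - 1 = -i := by rw [← hbi]; ring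
      rw [this]
      exact 𝔪.neg_mem hi
    have h3 := hx₀ _ _ h2 h1
    rw [map_sub, map_mul, h0, mul_zero, map_one, zero_sub] at h3
    exact one_ne_zero (neg_eq_zero.1 h3)
  intro P b hb hP
  obtain ⟨P', hP', hPT'⟩ := (hmem b).1 (hmin.2 ⟨hprime, hle⟩ h𝔞𝔪 hb)
  exact ind P P' b hP hP' hPT'

end Pool.Agent.MLD.Cox
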