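import Pool.Agent.Lib.MP_f23696_ag.Y.Defs

/-!
Project COX, module Td: elementary properties of `TD` and `DV`.

`TD.mono`: restrict `t` to the first `n` indices (`Fin.castLE`), using
`aeval (t ∘ Fin.castLE) F = aeval t (rename (Fin.castLE) F)` and injectivity of `rename`.

`TD.anti`: clear.

`td_top`: for a prime ideal: the constants are algebraically independent (`n = 0`); `TD I 0` iff
`I ≠ ⊤`: a nonzero `F : MvPolynomial (Fin 0) k` is a nonzero constant, hence a unit.

`td_ker`: if `ψ : MvPolynomial σ k →ₐ[k] R` is a homomorphism to a commutative ring and the elements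
`ψ (t i)` (`i < n`) are algebraically independent over `k`, then `TD (ker ψ) n`
(`ψ (aeval t F) = aeval (ψ ∘ t) F ≠ 0`); conversely from `TD (ker ψ) n` one gets `t` such that
`ψ ∘ t` is algebraically independent.

`mem_DV`: the set in the definition of `DV w` is closed under addition and under multiplication
by elements of `κ` (the derivations form a `κ`-module), it contains `0`; so `DV w` is this set
(`Submodule.span_induction`).
-/

set_option autoImplicit false

namespace Pool.Agent.MLD.Cox

open MvPolynomial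

universe u v w

variable {k : Type u} [Field k] {σ : Type w}

theorem TD.mono {I : Ideal (MvPolynomial σ k)} {n n' : ℕ} (h : TD I n) (hn : n' ≤ n) :
    TD I n' := by
  obtain ⟨t, ht⟩ := h
  refine ⟨fun i => t (Fin.castLE hn i), fun F hF => ?_⟩
  have h1 : aeval (fun i => t (Fin.castLE hn i)) F = aeval t (rename (Fin.castLE hn) F) := by
    rw [aeval_rename]
    rfl
  rw [h1]
  refine ht _ fun h0 => hF ?_
  exact rename_injective (Fin.castLE hn) (Fin.castLE_injective hn) (by rw [h0, map_zero])

theorem TD.anti {I I' : Ideal (MvPolynomial σ k)} {n : ℕ} (h : TD I n) (hI : I' ≤ I) :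
    TD I' n := by
  obtain ⟨t, ht⟩ := h
  exact ⟨t, fun F hF hc => ht F hF (hI hc)⟩

theorem td_zero {I : Ideal (MvPolynomial σ k)} (h : I ≠ ⊤) : TD I 0 := by
  refine ⟨fun i => i.elim0, fun F hF hc => h ?_⟩
  have h1 : F = C (coeff 0 F) := eq_C_of_isEmpty F
  have h2 : coeff 0 F ≠ 0 := by
    intro h0
    rw [h0, C_0] at h1
    exact hF h1
  rw [h1, aeval_C] at hc
  refine Ideal.eq_top_of_isUnit_mem I hc ?_
  exact (isUnit_iff_ne_zero.2 h2).map (algebraMap k (MvPolynomial σ k))

theorem td_ker {R : Type v} [CommRing R] [Algebra k R] (ψ : MvPolynomial σ k →ₐ[k] R) (n : ℕ) :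
    TD (RingHom.ker ψ) n ↔ ∃ t : Fin n → MvPolynomial σ k,
      AlgebraicIndependent k fun i => ψ (t i) := by
  have key : ∀ (t : Fin n → MvPolynomial σ k) (F : MvPolynomial (Fin n) k),
      ψ (aeval t F) = aeval (fun i => ψ (t i)) F := fun t F => comp_aeval_apply t ψ F
  constructor
  · rintro ⟨t, ht⟩
    refine ⟨t, algebraicIndependent_iff.2 fun F hF => ?_⟩
    by_contra h0
    refine ht F h0 ?_
    rw [RingHom.mem_ker]
    exact (key t F).trans hF
  · rintro ⟨t, ht⟩
    refine ⟨t, fun F hF hc => hF ?_⟩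
    rw [RingHom.mem_ker] at hc
    exact algebraicIndependent_iff.1 ht F ((key t F).symm.trans hc)

theorem mem_DV {κ : Type v} [Field κ] [Algebra k κ] {ι : Type w} (w : ι → κ) (z : ι → κ) :
    z ∈ DV (k := k) w ↔ ∃ d : Derivation k κ κ, ∀ i, z i = d (w i) := by
  constructor
  · intro hz
    unfold DV at hz
    refine Submodule.span_induction (p := fun z _ => ∃ d : Derivation k κ κ, ∀ i, z i = d (w i))
      ?_ ?_ ?_ ?_ hz
    · exact fun z hz => hz
    · exact ⟨0, fun i => rfl⟩
    · rintro x y _ _ ⟨d, hd⟩ ⟨d', hd'⟩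
      exact ⟨d + d', fun i => by rw [Pi.add_apply, hd, hd', Derivation.add_apply]⟩
    · rintro a x _ ⟨d, hd⟩
      exact ⟨a • d, fun i => by rw [Pi.smul_apply, hd, Derivation.smul_apply]⟩
  · exact fun h => Submodule.subset_span h

end Pool.Agent.MLD.Cox
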