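import Pool.Agent.Lib.MP_f23696_ag.Y.Defs

/-!
Project COX, module TwA: rules for the twisted evaluation `tev`.

* `tev_eq`: unfold `tev`, `tp`; `eval₂` is additive and `eval₂_monomial`.
* `tev_map`: from `tev_eq` (`φ (algebraMap k R c) = algebraMap k R' c`).
* `tev_congr`: in the quotient ring by the ideal `(X^s)` both sides agree; or: `eval₂` is a
  polynomial in `y`; use `tev_eq` and `sub_dvd`-type lemmas (`Ideal.Quotient`, `Finset.prod` and
  powers preserve congruences).
* `tev_laurent`: in `HahnSeries ℤ R` with `t^z = single z 1`, `t^z * t^z' = t^(z+z')`: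
  for a monomial `d` of `G`, `∏ (t^(r i) y_i)^(d i) = t^(wt r d) ∏ y_i^(d i)` and
  `wt r d = β + (wt r d - β).toNat` as `β ≤ wt r d`; `ofPowerSeries (X^n) = t^n`.
* `evJ_coJ`: by `tev_map` for `φ = evJ N y` the left side is `coeff l (tev r β G y')` with
  `y' i = map (evJ N y) (uJ σ N k i)`, which agrees with `y i` modulo `X^(N+1)`; `tev_congr`.
-/

set_option autoImplicit false

namespace Pool.Agent.MLD.Cox

open MvPolynomial
open scoped PowerSeries

universe u v w

variable {σ : Type w} [Fintype σ] {k : Type u} {R : Type v} [CommRing k] [CommRing R]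
  [Algebra k R]

/-- the power `t^z` in the ring of Laurent series -/
noncomputable def tz (R : Type v) [CommRing R] (z : ℤ) : HahnSeries ℤ R := HahnSeries.single z 1

/-- a power series as a Laurent series -/
noncomputable def toL {R : Type v} [CommRing R] (f : R⟦X⟧) : HahnSeries ℤ R :=
  HahnSeries.ofPowerSeries ℤ R f

theorem tev_eq (r : σ → ℤ) (β : ℤ) (G : MvPolynomial σ k) (y : σ → R⟦X⟧) :
    tev r β G y = ∑ d ∈ G.support, PowerSeries.C (algebraMap k R (coeff d G)) *
      (PowerSeries.X : R⟦X⟧) ^ (wt r d - β).toNat * ∏ i, y i ^ d i := by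
  unfold tev tp
  rw [eval₂_sum]
  refine Finset.sum_congr rfl fun d _ => ?_
  rw [eval₂_monomial, map_mul, PowerSeries.map_C, map_pow, PowerSeries.map_X,
    Finsupp.prod_fintype]
  intro i
  exact pow_zero _

private theorem TwA_map {R₁ : Type*} {R₂ : Type*} [CommRing R₁] [CommRing R₂] [Algebra k R₁]
    [Algebra k R₂] (φ : R₁ →ₐ[k] R₂) (r : σ → ℤ) (β : ℤ) (G : MvPolynomial σ k)
    (y : σ → R₁⟦X⟧) : PowerSeries.map (φ : R₁ →+* R₂) (tev r β G y) =
      tev r β G fun i => PowerSeries.map (φ : R₁ →+* R₂) (y i) := by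
  rw [tev_eq, tev_eq, map_sum]
  refine Finset.sum_congr rfl fun d _ => ?_
  rw [map_mul, map_mul, PowerSeries.map_C, map_pow, PowerSeries.map_X, map_prod]
  have h1 : (φ : R₁ →+* R₂) (algebraMap k R₁ (coeff d G)) = algebraMap k R₂ (coeff d G) :=
    φ.commutes _
  rw [h1]
  congr 1
  refine Finset.prod_congr rfl fun i _ => ?_
  rw [map_pow]

theorem tev_map {R' : Type v} [CommRing R'] [Algebra k R'] (φ : R →ₐ[k] R') (r : σ → ℤ) (β : ℤ)
    (G : MvPolynomial σ k) (y : σ → R⟦X⟧) :
    PowerSeries.map (φ : R →+* R') (tev r β G y) =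
      tev r β G fun i => PowerSeries.map (φ : R →+* R') (y i) := by
  exact TwA_map φ r β G y

theorem tev_map' {R' : Type w} [CommRing R'] [Algebra k R'] (φ : R →ₐ[k] R') (r : σ → ℤ) (β : ℤ)
    (G : MvPolynomial σ k) (y : σ → R⟦X⟧) :
    PowerSeries.map (φ : R →+* R') (tev r β G y) =
      tev r β G fun i => PowerSeries.map (φ : R →+* R') (y i) := by
  exact TwA_map φ r β G y

theorem tev_congr (r : σ → ℤ) (β : ℤ) (G : MvPolynomial σ k) (y y' : σ → R⟦X⟧) (s : ℕ)
    (h : ∀ i, (PowerSeries.X : R⟦X⟧) ^ s ∣ y i - y' i) :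
    (PowerSeries.X : R⟦X⟧) ^ s ∣ tev r β G y - tev r β G y' := by
  have hy : ∀ i, Ideal.Quotient.mk (Ideal.span {(PowerSeries.X : R⟦X⟧) ^ s}) (y i) =
      Ideal.Quotient.mk (Ideal.span {(PowerSeries.X : R⟦X⟧) ^ s}) (y' i) := fun i =>
    Ideal.Quotient.eq.2 (Ideal.mem_span_singleton.2 (h i))
  rw [← Ideal.mem_span_singleton, ← Ideal.Quotient.eq, tev_eq, tev_eq, map_sum, map_sum]
  refine Finset.sum_congr rfl fun d _ => ?_
  simp only [map_mul, map_prod, map_pow, hy]

private theorem TwA_tz_add (a b : ℤ) : tz R (a + b) = tz R a * tz R b := by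
  unfold tz
  rw [HahnSeries.single_mul_single, mul_one]

private theorem TwA_tz_pow (a : ℤ) (n : ℕ) : tz R a ^ n = tz R (n * a) := by
  unfold tz
  rw [HahnSeries.single_pow, one_pow, nsmul_eq_mul]

private theorem TwA_tz_sum {ι : Type*} (s : Finset ι) (f : ι → ℤ) :
    ∏ i ∈ s, tz R (f i) = tz R (∑ i ∈ s, f i) := by
  classical
  induction s using Finset.induction_on with
  | empty =>
    rw [Finset.prod_empty, Finset.sum_empty]
    rfl
  | insert i s hi ih => rw [Finset.prod_insert hi, Finset.sum_insert hi, ih, TwA_tz_add]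

theorem tev_laurent (r : σ → ℤ) (β : ℤ) (G : MvPolynomial σ k) (hG : Low r β G)
    (y : σ → R⟦X⟧) :
    aeval (fun i => tz R (r i) * toL (y i)) G = tz R β * toL (tev r β G y) := by
  have h0 : toL (tev r β G y) = ∑ d ∈ G.support,
      HahnSeries.C (algebraMap k R (coeff d G)) * tz R ((wt r d - β).toNat : ℤ) *
        ∏ i, toL (y i) ^ d i := by
    unfold toL
    rw [tev_eq, map_sum]
    refine Finset.sum_congr rfl fun d _ => ?_
    rw [map_mul, map_mul, HahnSeries.ofPowerSeries_C, HahnSeries.ofPowerSeries_X_pow, map_prod]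
    congr 1
    refine Finset.prod_congr rfl fun i _ => ?_
    rw [map_pow]
  rw [h0, aeval_def, eval₂_eq', Finset.mul_sum]
  refine Finset.sum_congr rfl fun d hd => ?_
  have h1 : ∏ i, (tz R (r i) * toL (y i)) ^ d i = tz R (wt r d) * ∏ i, toL (y i) ^ d i := by
    have h2 : ∀ i, (tz R (r i) * toL (y i)) ^ d i = tz R (d i * r i) * toL (y i) ^ d i := by
      intro i
      rw [mul_pow, TwA_tz_pow]
    rw [Finset.prod_congr rfl fun i _ => h2 i, Finset.prod_mul_distrib, TwA_tz_sum]
    rfl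
  have h3 : wt r d = β + ((wt r d - β).toNat : ℤ) := by
    have := hG d hd
    omega
  have h4 : tz R (wt r d) = tz R β * tz R ((wt r d - β).toNat : ℤ) := by
    rw [← TwA_tz_add, ← h3]
  have h5 : algebraMap k (HahnSeries ℤ R) (coeff d G) =
      HahnSeries.C (algebraMap k R (coeff d G)) := by
    rw [HahnSeries.algebraMap_apply', PowerSeries.algebraMap_apply, HahnSeries.ofPowerSeries_C]
  rw [h1, h4, h5]
  ring

theorem evJ_coJ (N : ℕ) (r : σ → ℤ) (β : ℤ) (G : MvPolynomial σ k) (y : σ → R⟦X⟧) (l : ℕ)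
    (hl : l ≤ N) : evJ N y (coJ N r β G l) = PowerSeries.coeff l (tev r β G y) := by
  have h1 : evJ N y (coJ N r β G l) = PowerSeries.coeff l (tev r β G fun i =>
      PowerSeries.map ((evJ N y : Jet σ N k →ₐ[k] R) : Jet σ N k →+* R) (uJ σ N k i)) := by
    rw [← TwA_map, PowerSeries.coeff_map]
    rfl
  have h2 : ∀ i, (PowerSeries.X : R⟦X⟧) ^ (N + 1) ∣
      PowerSeries.map ((evJ N y : Jet σ N k →ₐ[k] R) : Jet σ N k →+* R) (uJ σ N k i) - y i := by
    intro i
    rw [PowerSeries.X_pow_dvd_iff]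
    intro m hm
    rw [map_sub, PowerSeries.coeff_map, uJ, PowerSeries.coeff_mk, dif_pos hm, sub_eq_zero]
    exact aeval_X _ _
  have h3 := tev_congr r β G _ y (N + 1) h2
  rw [PowerSeries.X_pow_dvd_iff] at h3
  have h4 := h3 l (Nat.lt_succ_of_le hl)
  rw [map_sub, sub_eq_zero] at h4
  rw [h1, h4]

end Pool.Agent.MLD.Cox
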