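import Pool.Agent.Lib.MP_f23696_ag.Y.TwB

/-!
Project COX, module TwE: weights of homogeneous polynomials.

Here `χ : σ → (Fin h → ℤ)` is a grading, `n i = M r i + ∑ χ i l * s l`.

* `hw_hom`: for a monomial `d` of the homogeneous polynomial `G` of degree `ψ`: `∑ d_i χ_i = ψ`
  (`IsWeightedHomogeneous`: `Finsupp.weight χ d = ψ`), hence
  `∑ d_i n_i = M wt r d + ∑_l ψ l * s l`.
* `hom_pderiv`: monomials `d - e_i`; `hom_det`: the determinant is a sum of products.
-/

set_option autoImplicit false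

namespace Pool.Agent.MLD.Cox

open MvPolynomial

universe u v w

theorem hw_hom {σ : Type w} [Fintype σ] {k : Type u} [CommRing k] {h : ℕ} (χ : σ → (Fin h → ℤ))
    (r : σ → ℤ) (n : σ → ℕ) (M : ℕ) (s : Fin h → ℤ)
    (hn : ∀ i, (n i : ℤ) = M * r i + ∑ l, χ i l * s l) (G : MvPolynomial σ k) (ψ : Fin h → ℤ)
    (hG : IsWeightedHomogeneous χ G ψ) (β : ℤ) (d : σ →₀ ℕ) (hd : d ∈ G.support) :
    (∑ i, (d i : ℤ) * n i) = M * (wt r d - β) + (M * β + ∑ l, ψ l * s l) := by
  have h1 : Finsupp.weight χ d = ψ := hG (mem_support_iff.1 hd)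
  have h2 : ∀ l, (∑ i, (d i : ℤ) * χ i l) = ψ l := by
    intro l
    have h0 : d.sum (fun i c => c • χ i) = ∑ i, d i • χ i :=
      Finsupp.sum_fintype _ _ fun i => zero_smul _ _
    rw [← h1, Finsupp.weight_apply, h0, Finset.sum_apply]
    refine Finset.sum_congr rfl fun i _ => ?_
    rw [Pi.smul_apply, nsmul_eq_mul]
  have h3 : (∑ i, (d i : ℤ) * n i) = M * wt r d + ∑ l, ψ l * s l := by
    unfold wt
    calc (∑ i, (d i : ℤ) * n i) = ∑ i, ((M : ℤ) * ((d i : ℤ) * r i) +
          ∑ l, (d i : ℤ) * χ i l * s l) := by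
          refine Finset.sum_congr rfl fun i _ => ?_
          rw [hn i, mul_add, Finset.mul_sum]
          congr 1
          · ring
          · exact Finset.sum_congr rfl fun l _ => by ring
      _ = M * ∑ i, (d i : ℤ) * r i + ∑ l, ψ l * s l := by
          rw [Finset.sum_add_distrib, ← Finset.mul_sum, Finset.sum_comm]
          congr 1
          refine Finset.sum_congr rfl fun l _ => ?_
          rw [← Finset.sum_mul, h2 l]
  rw [h3]
  ring

theorem hom_pderiv {σ : Type w} {k : Type u} [CommRing k] {h : ℕ} (χ : σ → (Fin h → ℤ))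
    (G : MvPolynomial σ k) (ψ : Fin h → ℤ) (hG : IsWeightedHomogeneous χ G ψ) (i : σ) :
    IsWeightedHomogeneous χ (pderiv i G) (ψ - χ i) := by
  classical
  rw [G.as_sum, map_sum]
  refine IsWeightedHomogeneous.sum _ _ _ fun d hd => ?_
  rw [pderiv_monomial]
  by_cases h0 : d i = 0
  · rw [h0, Nat.cast_zero, mul_zero, monomial_zero]
    exact isWeightedHomogeneous_zero _ _ _
  · refine isWeightedHomogeneous_monomial _ _ _ ?_
    have h1 : Finsupp.weight χ d = ψ := hG (mem_support_iff.1 hd)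
    have h2 : d - Finsupp.single i 1 + Finsupp.single i 1 = d := by
      refine tsub_add_cancel_of_le ?_
      rw [Finsupp.single_le_iff]
      omega
    have h3 := congrArg (Finsupp.weight χ) h2
    rw [map_add, Finsupp.weight_single, one_smul, h1] at h3
    exact eq_sub_of_add_eq h3

theorem hom_det {ρ : Type w} {k : Type u} [CommRing k] {c h : ℕ}
    (χ : ρ ⊕ Fin c → (Fin h → ℤ)) (f : Fin c → MvPolynomial (ρ ⊕ Fin c) k)
    (ψ : Fin c → (Fin h → ℤ)) (hf : ∀ j, IsWeightedHomogeneous χ (f j) (ψ j)) :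
    IsWeightedHomogeneous χ (jd f) (∑ j, ψ j - ∑ a, χ (Sum.inr a)) := by
  classical
  unfold jd
  rw [Matrix.det_apply]
  refine IsWeightedHomogeneous.sum _ _ _ fun τ _ => ?_
  have h1 : IsWeightedHomogeneous χ
      (∏ a, (Matrix.of fun j a => pderiv (Sum.inr a) (f j)) (τ a) a)
      (∑ j, ψ j - ∑ a, χ (Sum.inr a)) := by
    have h2 := IsWeightedHomogeneous.prod (w := χ) Finset.univ
      (fun a => pderiv (Sum.inr a) (f (τ a))) (fun a => ψ (τ a) - χ (Sum.inr a))
      fun a _ => hom_pderiv χ (f (τ a)) (ψ (τ a)) (hf (τ a)) (Sum.inr a)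
    rw [Finset.sum_sub_distrib, Equiv.sum_comp τ ψ] at h2
    exact h2
  rcases Int.units_eq_one_or (Equiv.Perm.sign τ) with h | h
  · rw [h, one_smul]
    exact h1
  · rw [h, Units.neg_smul, one_smul]
    exact (weightedHomogeneousSubmodule k χ _).neg_mem h1

end Pool.Agent.MLD.Cox
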